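import Pool.Agent.H63.VC.Bailey

/-! # The value of the vector at `k = M - 1` -/

namespace Pool.Agent.H63.VC

open Complex

/-- The primitive root of unity `e^{2πi/M}`. -/
noncomputable def rt (M : ℕ) : ℂ := exp (2 * Real.pi * I / M)

theorem EndA_prim {M : ℕ} (hM : 0 < M) : IsPrimitiveRoot (rt M) M :=
  Complex.isPrimitiveRoot_exp M hM.ne'

theorem EndA_rt_ne (M : ℕ) : rt M ≠ 0 := Complex.exp_ne_zero _

theorem EndA_prod {M : ℕ} (hM : 0 < M) (α : ℂ) (l : ℕ) :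
    ∏ i ∈ Finset.range M, (1 - α * rt M ^ (l + i)) = 1 - α ^ M := by
  have h := X_pow_sub_C_eq_prod (EndA_prim hM) hM (α := α * rt M ^ l)
    (a := (α * rt M ^ l) ^ M) rfl
  have h2 := congrArg (Polynomial.eval 1) h
  rw [Polynomial.eval_prod] at h2
  simp only [Polynomial.eval_sub, Polynomial.eval_pow, Polynomial.eval_X, Polynomial.eval_C,
    one_pow] at h2
  have h3 : (α * rt M ^ l) ^ M = α ^ M := by
    rw [mul_pow, ← pow_mul, mul_comm l M, pow_mul, (EndA_prim hM).pow_eq_one, one_pow, mul_one]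
  rw [h3] at h2
  rw [h2]
  refine Finset.prod_congr rfl fun i _ => ?_
  rw [pow_add]
  ring

theorem EndA_ratio (q : ℂ) (k l : ℕ) (hl : l ≤ k) :
    (1 - q ^ (k - l)) * qbin q k l = (1 - q ^ (l + 1)) * qbin q k (l + 1) := by
  have h1 := Bailey_qbin_succ q k l
  have h2 := Bailey_pascal q k l hl
  linear_combination h2 - h1

theorem EndA_tri (l : ℕ) : (l + 1) * (l + 1 + 1) / 2 = l * (l + 1) / 2 + (l + 1) := by
  have : (l + 1) * (l + 1 + 1) = l * (l + 1) + (l + 1) * 2 := by ring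
  rw [this, Nat.add_mul_div_right _ _ two_pos]

theorem EndA_qbin {M l : ℕ} (hM : l < M) :
    qbin (rt M) (M - 1) l * rt M ^ (l * (l + 1) / 2) = (-1) ^ l := by
  induction l with
  | zero => simp [Bailey_qbin_zero]
  | succ l ih =>
    have ih' := ih (by omega)
    have h1 := EndA_ratio (rt M) (M - 1) l (by omega)
    have h2 : rt M ^ (l + 1) * rt M ^ (M - 1 - l) = 1 := by
      rw [← pow_add]
      have : l + 1 + (M - 1 - l) = M := by omega
      rw [this, (EndA_prim (by omega)).pow_eq_one]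
    have h3 : 1 - rt M ^ (l + 1) ≠ 0 := by
      intro h
      have h4 : rt M ^ (l + 1) = 1 := (sub_eq_zero.1 h).symm
      exact (EndA_prim (show 0 < M by omega)).pow_ne_one_of_pos_of_lt (by omega) hM h4
    rw [EndA_tri, pow_add (rt M) (l * (l + 1) / 2) (l + 1)]
    apply mul_left_cancel₀ h3
    rw [pow_succ (-1 : ℂ) l, ← ih']
    linear_combination (-(rt M ^ (l * (l + 1) / 2) * rt M ^ (l + 1))) * h1 +
      (-(qbin (rt M) (M - 1) l * rt M ^ (l * (l + 1) / 2))) * h2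

theorem EndA_iter (a q : ℂ) (m : ℕ) :
    ((fun f => Bop a q (fun j => q ^ j * f j))^[m] (fun _ => 1)) =
      fun k => twistCoeff (a * q) q (m + 1) k := by
  induction m with
  | zero =>
    ext k
    have h1 : twistCoeff (a * q) q (0 + 1) k = ∑ j ∈ Finset.range (k + 1), qbin q k j *
        ((a * q) ^ j * q ^ (j * (j - 1)) * (if j = 0 then 1 else 0)) := rfl
    rw [Function.iterate_zero, id, h1, Finset.sum_range_succ']
    simp [Bailey_qbin_zero]
  | succ m ih =>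
    rw [Function.iterate_succ_apply', ih]
    ext k
    have h1 : twistCoeff (a * q) q (m + 1 + 1) k = ∑ j ∈ Finset.range (k + 1), qbin q k j *
        ((a * q) ^ j * q ^ (j * (j - 1)) * twistCoeff (a * q) q (m + 1) j) := rfl
    rw [h1]
    unfold Bop
    refine Finset.sum_congr rfl fun j _ => ?_
    rw [mul_pow]
    ring

/-- eigenvalue -/
noncomputable def EndA_lam (a q : ℂ) (l : ℕ) : ℂ := a ^ l * q ^ (l * (l - 1))

theorem EndA_Bop_sum (α q : ℂ) (h : ∀ i, 1 - α * q ^ i ≠ 0) (f d : ℕ → ℂ)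
    (hf : ∀ k, f k = ∑ l ∈ Finset.range (k + 1), d l * eig α q l k) (k : ℕ) :
    Bop (α * q) q f k =
      ∑ l ∈ Finset.range (k + 1), (EndA_lam (α * q) q l * d l) * eig α q l k := by
  have h1 : ∀ j ∈ Finset.range (k + 1), f j = ∑ l ∈ Finset.range (k + 1), d l * eig α q l j := by
    intro j hj
    rw [Finset.mem_range] at hj
    rw [hf j]
    refine Finset.sum_subset (Finset.range_mono (by omega)) fun l _ hl => ?_
    rw [Finset.mem_range, not_lt] at hl
    rw [Bailey_eig_eq_zero α q (show j < l by omega), mul_zero]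
  unfold Bop
  rw [Finset.sum_congr rfl fun j hj => by rw [h1 j hj, Finset.mul_sum, Finset.mul_sum]]
  rw [Finset.sum_comm]
  refine Finset.sum_congr rfl fun l _ => ?_
  have h3 := Bop_eig α q l k fun i _ => h i
  unfold Bop at h3
  have h4 : ∑ j ∈ Finset.range (k + 1), qbin q k j * ((α * q) ^ j * q ^ (j * (j - 1)) *
      (d l * eig α q l j)) = d l * ∑ j ∈ Finset.range (k + 1), qbin q k j *
        ((α * q) ^ j * q ^ (j * (j - 1)) * eig α q l j) := by
    rw [Finset.mul_sum]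
    refine Finset.sum_congr rfl fun j _ => ?_
    ring
  rw [h4, h3]
  unfold EndA_lam
  ring

theorem EndA_iter_sum (α q : ℂ) (h : ∀ i, 1 - α * q ^ i ≠ 0) (f d : ℕ → ℂ)
    (hf : ∀ k, f k = ∑ l ∈ Finset.range (k + 1), d l * eig α q l k) (r k : ℕ) :
    ((Bop (α * q) q)^[r] f) k =
      ∑ l ∈ Finset.range (k + 1), (EndA_lam (α * q) q l ^ r * d l) * eig α q l k := by
  induction r generalizing k with
  | zero => simp [hf k]
  | succ r ih =>
    rw [Function.iterate_succ_apply', EndA_Bop_sum α q h _ _ ih]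
    refine Finset.sum_congr rfl fun l _ => ?_
    rw [pow_succ]
    ring

theorem EndA_eig_shift (α q : ℂ) (h : ∀ i, 1 - α * q ^ i ≠ 0) (l k : ℕ) (hl : l ≤ k) :
    eig (α * q) q l k = (1 - α * q ^ l) / (1 - α * q ^ (2 * l)) * eig α q l k -
      α * q ^ (2 * l + 1) * (1 - q ^ (l + 1)) / (1 - α * q ^ (2 * (l + 1))) *
        eig α q (l + 1) k := by
  have hP : ∏ i ∈ Finset.range (k + 1), (1 - α * q * q ^ (l + i)) =
      ∏ i ∈ Finset.range (k + 1), (1 - α * q ^ (l + 1 + i)) := by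
    refine Finset.prod_congr rfl fun i _ => ?_
    rw [mul_assoc, ← pow_succ']
    congr 3
    ring
  have hne : ∏ i ∈ Finset.range (k + 1), (1 - α * q ^ (l + 1 + i)) ≠ 0 :=
    Finset.prod_ne_zero_iff.2 fun i _ => h _
  have hne' : ∏ i ∈ Finset.range (k + 1), (1 - α * q ^ (l + i)) ≠ 0 :=
    Finset.prod_ne_zero_iff.2 fun i _ => h _
  have hrel : (∏ i ∈ Finset.range (k + 1), (1 - α * q ^ (l + i))) * (1 - α * q ^ (l + 1 + k)) =
      (∏ i ∈ Finset.range (k + 1), (1 - α * q ^ (l + 1 + i))) * (1 - α * q ^ l) := by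
    have h1 := Finset.prod_range_succ (fun i => 1 - α * q ^ (l + i)) (k + 1)
    have h2 := Finset.prod_range_succ' (fun i => 1 - α * q ^ (l + i)) (k + 1)
    have e1 : l + (k + 1) = l + 1 + k := by ring
    rw [e1] at h1
    rw [← h1, h2, add_zero]
    congr 1
    refine Finset.prod_congr rfl fun i _ => ?_
    congr 3
    ring
  unfold eig
  rw [hP]
  set P1 := ∏ i ∈ Finset.range (k + 1), (1 - α * q ^ (l + 1 + i)) with hP1
  set P0 := ∏ i ∈ Finset.range (k + 1), (1 - α * q ^ (l + i)) with hP0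
  have h2l := h (2 * l)
  have h2l2 := h (2 * (l + 1))
  have f1 : (1 - α * q ^ l) / (1 - α * q ^ (2 * l)) * (qbin q k l * (1 - α * q ^ (2 * l)) / P0) =
      qbin q k l * (1 - α * q ^ (l + 1 + k)) / P1 := by
    field_simp
    linear_combination (-(qbin q k l)) * hrel
  have f2 : α * q ^ (2 * l + 1) * (1 - q ^ (l + 1)) / (1 - α * q ^ (2 * (l + 1))) *
      (qbin q k (l + 1) * (1 - α * q ^ (2 * (l + 1))) / P1) =
      α * q ^ (2 * l + 1) * (1 - q ^ (l + 1)) * qbin q k (l + 1) / P1 := by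
    field_simp
  rw [f1, f2, ← sub_div]
  congr 1
  have h3 := EndA_ratio q k l hl
  have e2 : q ^ (l + 1 + k) = q ^ (2 * l + 1) * q ^ (k - l) := by
    rw [← pow_add]
    congr 1
    omega
  rw [e2, pow_succ q (2 * l)]
  rw [pow_succ q (2 * l)] at *
  linear_combination (-(α * (q ^ (2 * l) * q))) * h3

/-- coefficients -/
noncomputable def EndA_c (a q : ℂ) (m l : ℕ) : ℂ :=
  (-1) ^ l * q ^ (l * (l - 1) / 2) * ((a * q) ^ l * q ^ (l * (l - 1))) ^ (m + 1)

/-- coefficients -/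
noncomputable def EndA_d (α q : ℂ) (m l : ℕ) : ℂ :=
  EndA_c (α * q) q m l * ((1 - α * q ^ l) / (1 - α * q ^ (2 * l))) -
    (if l = 0 then 0 else EndA_c (α * q) q m (l - 1) *
      (α * q ^ (2 * (l - 1) + 1) * (1 - q ^ l) / (1 - α * q ^ (2 * l))))

theorem EndA_expand (α q : ℂ) (h : ∀ i, 1 - α * q ^ i ≠ 0) (m k : ℕ) :
    twistCoeff (α * q * q) q (m + 1) k =
      ∑ l ∈ Finset.range (k + 1), EndA_d α q m l * eig α q l k := by
  have h' : ∀ i, 1 - α * q * q ^ i ≠ 0 := by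
    intro i
    have := h (i + 1)
    rwa [pow_succ', ← mul_assoc] at this
  rw [twistCoeff_expand (α * q) q (m + 1) k fun i _ => h' i]
  have h1 : ∀ l ∈ Finset.range (k + 1), (-1) ^ l * q ^ (l * (l - 1) / 2) *
      ((α * q * q) ^ l * q ^ (l * (l - 1))) ^ (m + 1) * eig (α * q) q l k =
      EndA_c (α * q) q m l * ((1 - α * q ^ l) / (1 - α * q ^ (2 * l))) * eig α q l k -
      EndA_c (α * q) q m l * (α * q ^ (2 * l + 1) * (1 - q ^ (l + 1)) /
        (1 - α * q ^ (2 * (l + 1)))) * eig α q (l + 1) k := by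
    intro l hl
    rw [Finset.mem_range] at hl
    rw [EndA_eig_shift α q h l k (by omega)]
    unfold EndA_c
    ring
  rw [Finset.sum_congr rfl h1, Finset.sum_sub_distrib]
  have h2 : ∑ l ∈ Finset.range (k + 1), EndA_c (α * q) q m l *
      (α * q ^ (2 * l + 1) * (1 - q ^ (l + 1)) / (1 - α * q ^ (2 * (l + 1)))) *
        eig α q (l + 1) k = ∑ l ∈ Finset.range (k + 1), (if l = 0 then 0 else
      EndA_c (α * q) q m (l - 1) * (α * q ^ (2 * (l - 1) + 1) * (1 - q ^ l) /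
        (1 - α * q ^ (2 * l)))) * eig α q l k := by
    have h3 : ∑ l ∈ Finset.range (k + 1 + 1), (if l = 0 then 0 else
      EndA_c (α * q) q m (l - 1) * (α * q ^ (2 * (l - 1) + 1) * (1 - q ^ l) /
        (1 - α * q ^ (2 * l)))) * eig α q l k = ∑ l ∈ Finset.range (k + 1), (if l = 0 then 0 else
      EndA_c (α * q) q m (l - 1) * (α * q ^ (2 * (l - 1) + 1) * (1 - q ^ l) /
        (1 - α * q ^ (2 * l)))) * eig α q l k := by
      rw [Finset.sum_range_succ _ (k + 1), Bailey_eig_eq_zero α q (Nat.lt_succ_self k), mul_zero,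
        add_zero]
    rw [← h3, Finset.sum_range_succ' _ (k + 1)]
    simp
  rw [h2, ← Finset.sum_sub_distrib]
  refine Finset.sum_congr rfl fun l _ => ?_
  unfold EndA_d
  ring

theorem EndA_term (M : ℕ) (α : ℂ) (hα : α ≠ 0) (h : ∀ i, 1 - α * rt M ^ i ≠ 0)
    (r m l : ℕ) (hl : l < M) :
    EndA_lam (α * rt M) (rt M) l ^ r * EndA_d α (rt M) m l *
      (qbin (rt M) (M - 1) l * (1 - α * rt M ^ (2 * l))) =
    EndA_lam (α * rt M) (rt M) l ^ (r + m + 1) * ((rt M ^ l) ^ m * (1 - α * rt M ^ l) +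
      α⁻¹ ^ m * ((rt M ^ l)⁻¹) ^ m * ((rt M ^ l)⁻¹ - 1)) := by
  have hζ : rt M ≠ 0 := EndA_rt_ne M
  have hq := EndA_qbin hl
  have h2l := h (2 * l)
  rcases Nat.eq_zero_or_pos l with rfl | hl0
  · have h0 := h 0
    simp only [EndA_lam, EndA_d, EndA_c, Bailey_qbin_zero, pow_zero, mul_zero, mul_one, one_mul,
      zero_mul, Nat.zero_div, one_pow, if_true, sub_zero, inv_one, sub_self, add_zero] at h0 ⊢
    field_simp
  · obtain ⟨s, rfl⟩ : ∃ s, l = s + 1 := ⟨l - 1, by omega⟩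
    set ζ := rt M with hζdef
    set μ : ℂ := (α * ζ * ζ) ^ s * ζ ^ (s * (s - 1)) with hμ
    have hlam : EndA_lam (α * ζ) ζ (s + 1) = μ * (α * ζ ^ (s + 1)) := by
      rw [hμ]
      unfold EndA_lam
      have e1 : ζ ^ ((s + 1) * (s + 1 - 1)) = ζ ^ (s * (s - 1)) * ζ ^ s * ζ ^ s := by
        rw [← pow_add, ← pow_add]
        congr 1
        rcases Nat.eq_zero_or_pos s with rfl | hs
        · simp
        · obtain ⟨t, rfl⟩ : ∃ t, s = t + 1 := ⟨s - 1, by omega⟩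
          simp only [Nat.add_sub_cancel]
          ring
      rw [e1, mul_pow (α * ζ) ζ s, pow_succ (α * ζ) s, pow_succ ζ s]
      ring
    have hc1 : EndA_c (α * ζ) ζ m (s + 1) =
        (-1) ^ (s + 1) * ζ ^ (s * (s + 1) / 2) * (EndA_lam (α * ζ) ζ (s + 1) * ζ ^ (s + 1)) ^ (m + 1) := by
      unfold EndA_c EndA_lam
      have e1 : (s + 1) * (s + 1 - 1) / 2 = s * (s + 1) / 2 := by
        rw [Nat.add_sub_cancel, mul_comm]
      rw [e1, mul_pow (α * ζ) ζ (s + 1)]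
      congr 2
      ring
    have hc0 : EndA_c (α * ζ) ζ m s = (-1) ^ s * ζ ^ (s * (s - 1) / 2) * μ ^ (m + 1) := by
      rw [hμ]
      rfl
    have hd : EndA_d α ζ m (s + 1) * (1 - α * ζ ^ (2 * (s + 1))) =
        EndA_c (α * ζ) ζ m (s + 1) * (1 - α * ζ ^ (s + 1)) -
          EndA_c (α * ζ) ζ m s * (α * ζ ^ (2 * s + 1) * (1 - ζ ^ (s + 1))) := by
      unfold EndA_d
      rw [if_neg (Nat.succ_ne_zero s), Nat.add_sub_cancel]
      field_simp
    have hz1 : ζ ^ ((s + 1) * (s + 1 + 1) / 2) ≠ 0 := pow_ne_zero _ hζ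
    have hz2 : ζ ^ (s + 1) ≠ 0 := pow_ne_zero _ hζ
    apply mul_right_cancel₀ hz1
    have e5 : EndA_lam (α * ζ) ζ (s + 1) ^ r * EndA_d α ζ m (s + 1) *
      (qbin ζ (M - 1) (s + 1) * (1 - α * ζ ^ (2 * (s + 1)))) * ζ ^ ((s + 1) * (s + 1 + 1) / 2) =
      EndA_lam (α * ζ) ζ (s + 1) ^ r * (EndA_d α ζ m (s + 1) * (1 - α * ζ ^ (2 * (s + 1)))) *
        (-1) ^ (s + 1) := by
      rw [← hq]
      ring
    rw [e5, hd, hc1, hc0, hlam]
    have e6 : ζ ^ ((s + 1) * (s + 1 + 1) / 2) = ζ ^ (s * (s + 1) / 2) * ζ ^ (s + 1) := by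
      rw [EndA_tri, pow_add]
    have e7 : ζ ^ (s * (s - 1) / 2) * ζ ^ (2 * s + 1) = ζ ^ (s * (s + 1) / 2) * ζ ^ (s + 1) := by
      rw [← pow_add, ← pow_add]
      congr 1
      rcases Nat.eq_zero_or_pos s with rfl | hs
      · simp
      · obtain ⟨t, rfl⟩ : ∃ t, s = t + 1 := ⟨s - 1, by omega⟩
        have := EndA_tri t
        rw [Nat.add_sub_cancel]
        have e8 : (t + 1) * t / 2 = t * (t + 1) / 2 := by rw [mul_comm]
        rw [e8, this]
        ring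
    have hneg : (-1 : ℂ) ^ (s + 1) * (-1) ^ (s + 1) = 1 := by
      rw [← mul_pow]; simp
    have hneg' : (-1 : ℂ) ^ s * (-1) ^ (s + 1) = -1 := by
      rw [pow_succ, ← mul_assoc, ← mul_pow]; simp
    rw [e6]
    set x := ζ ^ (s + 1) with hx
    set y := ζ ^ (s * (s + 1) / 2) with hy
    have e9 : α⁻¹ ^ m * x⁻¹ ^ m * (x⁻¹ - 1) * (α * x) ^ (m + 1) = α * (1 - x) := by
      rw [← mul_pow, pow_succ (α * x) m]
      have : (α⁻¹ * x⁻¹) ^ m * (α * x) ^ m = 1 := by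
        rw [← mul_pow]
        have : α⁻¹ * x⁻¹ * (α * x) = 1 := by field_simp
        rw [this, one_pow]
      have h7 : (x⁻¹ - 1) * x = 1 - x := by
        field_simp
      linear_combination ((x⁻¹ - 1) * (α * x)) * this + α * h7
    have e10 : (μ * (α * x)) ^ (r + m + 1) = (μ * (α * x)) ^ r * (μ ^ (m + 1) * (α * x) ^ (m + 1)) := by
      rw [add_assoc, pow_add, mul_pow μ (α * x) (m + 1)]
    rw [e10]
    rw [mul_pow (μ * (α * x)) x (m + 1), mul_pow μ (α * x) (m + 1), pow_succ x m]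
    linear_combination ((μ * (α * x)) ^ r * μ ^ (m + 1) * (α * x) ^ (m + 1) * y * x ^ m * x *
      (1 - α * x)) * hneg - ((μ * (α * x)) ^ r * μ ^ (m + 1) * α * (1 - x)) *
      (ζ ^ (s * (s - 1) / 2) * ζ ^ (2 * s + 1) * hneg' - e7) -
      ((μ * (α * x)) ^ r * μ ^ (m + 1) * y * x) * e9

theorem EndA_star (p m M : ℕ) (hm : m < p) (hM : 0 < M) (a : ℂ) (ha : a ≠ 0)
    (haM : a ^ M ≠ 1) :
    (1 - a ^ M) * lad a (rt M) (p - 1 - m) m (M - 1) =
      ∑ l ∈ Finset.range M, (a ^ l * rt M ^ (l * (l - 1))) ^ p *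
        ((rt M ^ l) ^ m * (1 - (a / rt M) * rt M ^ l) +
          ((a / rt M)⁻¹) ^ m * ((rt M ^ l)⁻¹) ^ m * ((rt M ^ l)⁻¹ - 1)) := by
  have hζ : rt M ≠ 0 := EndA_rt_ne M
  set α := a / rt M with hαdef
  have hα : α ≠ 0 := div_ne_zero ha hζ
  have haα : α * rt M = a := by
    rw [hαdef]
    field_simp
  have hαM : α ^ M = a ^ M := by
    rw [← haα, mul_pow, (EndA_prim hM).pow_eq_one, mul_one]
  have h : ∀ i, 1 - α * rt M ^ i ≠ 0 := by
    intro i hi
    apply haM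
    have h1 : α * rt M ^ i = 1 := (sub_eq_zero.1 hi).symm
    have h2 : (α * rt M ^ i) ^ M = α ^ M := by
      rw [mul_pow, ← pow_mul, mul_comm i M, pow_mul, (EndA_prim hM).pow_eq_one, one_pow, mul_one]
    rw [← hαM, ← h2, h1, one_pow]
  unfold lad
  rw [EndA_iter, ← haα, EndA_iter_sum α (rt M) h _ (EndA_d α (rt M) m)
    (fun k => EndA_expand α (rt M) h m k), haα]
  have hM1 : M - 1 + 1 = M := by omega
  rw [hM1, Finset.mul_sum]
  refine Finset.sum_congr rfl fun l hl => ?_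
  rw [Finset.mem_range] at hl
  have h1 := EndA_term M α hα h (p - 1 - m) m l hl
  have h2 : p - 1 - m + m + 1 = p := by omega
  rw [h2, haα] at h1
  have h3 : (1 - a ^ M) * eig α (rt M) l (M - 1) =
      qbin (rt M) (M - 1) l * (1 - α * rt M ^ (2 * l)) := by
    unfold eig
    rw [hM1, EndA_prod hM, hαM]
    have : 1 - a ^ M ≠ 0 := sub_ne_zero.2 (Ne.symm haM)
    field_simp
  have h4 : EndA_lam a (rt M) l = a ^ l * rt M ^ (l * (l - 1)) := rfl
  rw [← h4, ← h1, ← h3]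
  ring

theorem EndA_diff_Bop (q : ℂ) (f : ℂ → ℕ → ℂ) (hf : ∀ k, Differentiable ℂ fun a => f a k)
    (k : ℕ) : Differentiable ℂ fun a => Bop a q (f a) k := by
  unfold Bop
  refine Differentiable.fun_sum fun j _ => ?_
  exact (differentiable_const _).mul (((differentiable_id.pow j).mul (differentiable_const _)).mul
    (hf j))

theorem EndA_diff_lad (q : ℂ) (r m k : ℕ) : Differentiable ℂ fun a => lad a q r m k := by
  unfold lad
  induction r generalizing k with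
  | zero =>
    simp only [Function.iterate_zero, id]
    induction m generalizing k with
    | zero =>
      simp only [Function.iterate_zero, id]
      exact differentiable_const _
    | succ m ih =>
      simp only [Function.iterate_succ_apply']
      exact EndA_diff_Bop q _ (fun k => (differentiable_const _).mul (ih k)) k
  | succ r ih =>
    simp only [Function.iterate_succ_apply']
    exact EndA_diff_Bop q _ ih k

theorem EndA_deriv (N m : ℕ) (C u v w a : ℂ) (ha : a ≠ 0) :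
    ∃ D, HasDerivAt (fun a : ℂ => C * (a ^ N * (u - v * a + w * (a⁻¹) ^ m))) D a ∧
      a * D = C * a ^ N * (N * (u - v * a + w * (a⁻¹) ^ m) - (v * a + m * (w * (a⁻¹) ^ m))) := by
  have h1 : HasDerivAt (fun a : ℂ => a ^ N) (N * a ^ (N - 1)) a := hasDerivAt_pow N a
  have h2 : HasDerivAt (fun a : ℂ => a⁻¹) (-(a ^ 2)⁻¹) a := hasDerivAt_inv ha
  have h3 : HasDerivAt (fun a : ℂ => (a⁻¹) ^ m) (m * (a⁻¹) ^ (m - 1) * (-(a ^ 2)⁻¹)) a := h2.pow m
  have h4 : HasDerivAt (fun a : ℂ => u - v * a + w * (a⁻¹) ^ m)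
      (0 - v * 1 + w * (m * (a⁻¹) ^ (m - 1) * (-(a ^ 2)⁻¹))) a :=
    ((hasDerivAt_const a u).sub ((hasDerivAt_id a).const_mul v)).add (h3.const_mul w)
  refine ⟨_, (h1.mul h4).const_mul C, ?_⟩
  have h5 : a * (N * a ^ (N - 1)) = N * a ^ N := by
    rcases Nat.eq_zero_or_pos N with rfl | hN
    · simp
    · obtain ⟨t, rfl⟩ : ∃ t, N = t + 1 := ⟨N - 1, by omega⟩
      rw [Nat.add_sub_cancel, pow_succ]
      ring
  have h6 : a * (m * (a⁻¹) ^ (m - 1) * (-(a ^ 2)⁻¹)) = - (m * (a⁻¹) ^ m) := by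
    rcases Nat.eq_zero_or_pos m with rfl | hN
    · simp
    · obtain ⟨t, rfl⟩ : ∃ t, m = t + 1 := ⟨m - 1, by omega⟩
      rw [Nat.add_sub_cancel, pow_succ a⁻¹ t]
      have h7 : a * (a ^ 2)⁻¹ = a⁻¹ := by field_simp
      linear_combination (-(((t + 1 : ℕ) : ℂ) * (a⁻¹) ^ t)) * h7
  linear_combination (C * (u - v * a + w * (a⁻¹) ^ m)) * h5 + (C * a ^ N * w) * h6

theorem end_formula (p m n M : ℕ) (hm : m < p) (hn : 1 ≤ n) (hM : n < M) :
    (M : ℂ) * lad (rt M ^ n) (rt M) (p - 1 - m) m (M - 1)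
      = - ∑ l ∈ Finset.range M, rt M ^ (p * l * (l + n - 1)) *
        ((p * l : ℕ) * ((rt M ^ l) ^ m * (1 - rt M ^ (n - 1) * rt M ^ l)
            + ((rt M ^ (n - 1))⁻¹) ^ m * ((rt M ^ l)⁻¹) ^ m * ((rt M ^ l)⁻¹ - 1))
          - (rt M ^ (n - 1) * (rt M ^ l) ^ (m + 1)
            + m * (((rt M ^ (n - 1))⁻¹) ^ m * ((rt M ^ l)⁻¹) ^ m * ((rt M ^ l)⁻¹ - 1)))) := by
  have hM0 : 0 < M := by omega
  have hζ : rt M ≠ 0 := EndA_rt_ne M
  have hζM : rt M ^ M = 1 := (EndA_prim hM0).pow_eq_one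
  set ζ := rt M with hζdef
  set a0 := ζ ^ n with ha0
  have ha0ne : a0 ≠ 0 := pow_ne_zero _ hζ
  have ha0M : a0 ^ M = 1 := by
    rw [ha0, ← pow_mul, mul_comm, pow_mul, hζM, one_pow]
  have ha0ζ : a0 = ζ ^ (n - 1) * ζ := by
    rw [ha0, ← pow_succ]
    congr 1
    omega
  -- the two functions
  set L : ℂ → ℂ := fun a => lad a ζ (p - 1 - m) m (M - 1) with hL
  have hLd : Differentiable ℂ L := EndA_diff_lad ζ (p - 1 - m) m (M - 1)
  set g : ℕ → ℂ → ℂ := fun l a => ζ ^ (l * (l - 1) * p) * (a ^ (p * l) *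
    ((ζ ^ l) ^ m - ((ζ ^ l) ^ (m + 1) / ζ) * a + (ζ ^ m * ((ζ ^ l)⁻¹) ^ m * ((ζ ^ l)⁻¹ - 1)) *
      (a⁻¹) ^ m)) with hg
  have hFG : ∀ a : ℂ, a ≠ 0 → a ^ M ≠ 1 → (1 - a ^ M) * L a = ∑ l ∈ Finset.range M, g l a := by
    intro a ha haM
    have hstar := EndA_star p m M hm hM0 a ha haM
    rw [← hζdef] at hstar
    rw [hL]
    simp only
    rw [hstar]
    refine Finset.sum_congr rfl fun l _ => ?_
    rw [hg]
    simp only
    rw [mul_pow, ← pow_mul a, ← pow_mul ζ (l * (l - 1)), mul_comm l p, inv_div, div_pow,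
      inv_pow a m]
    rw [pow_succ (ζ ^ l) m]
    have ham : a ^ m ≠ 0 := pow_ne_zero _ ha
    generalize ζ ^ l = x
    generalize ζ ^ (l * (l - 1) * p) = y
    generalize a ^ (p * l) = z
    generalize ζ ^ m = u
    field_simp
  choose D hD1 hD2 using fun l : ℕ => EndA_deriv (p * l) m (ζ ^ (l * (l - 1) * p)) ((ζ ^ l) ^ m)
    ((ζ ^ l) ^ (m + 1) / ζ) (ζ ^ m * ((ζ ^ l)⁻¹) ^ m * ((ζ ^ l)⁻¹ - 1)) a0 ha0ne
  have hG : HasDerivAt (fun a => ∑ l ∈ Finset.range M, g l a) (∑ l ∈ Finset.range M, D l) a0 :=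
    HasDerivAt.fun_sum fun l _ => hD1 l
  have hF : HasDerivAt (fun a => (1 - a ^ M) * L a)
      ((0 - M * a0 ^ (M - 1)) * L a0 + (1 - a0 ^ M) * deriv L a0) a0 :=
    ((hasDerivAt_const a0 (1 : ℂ)).sub (hasDerivAt_pow M a0)).mul (hLd a0).hasDerivAt
  have hev : (fun a => (1 - a ^ M) * L a) =ᶠ[nhds a0] fun a => ∑ l ∈ Finset.range M, g l a := by
    rw [← ContinuousAt.eventuallyEq_nhds_iff_eventuallyEq_nhdsNE hF.continuousAt hG.continuousAt]
    have h1 : ∀ᶠ a in nhdsWithin a0 {a0}ᶜ, a ≠ 0 :=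
      (continuousAt_id.eventually_ne ha0ne).filter_mono nhdsWithin_le_nhds
    have h2 : ∀ᶠ a in nhdsWithin a0 {a0}ᶜ, a ^ M ≠ 1 := by
      have hfin : Set.Finite {a : ℂ | a ^ M = 1} := by
        have : {a : ℂ | a ^ M = 1} = ((Polynomial.nthRoots M (1 : ℂ)).toFinset : Set ℂ) := by
          ext a
          simp [Polynomial.mem_nthRoots hM0]
        rw [this]
        exact Finset.finite_toSet _
      have hclosed : IsClosed ({a : ℂ | a ^ M = 1} \ {a0}) := (hfin.subset Set.sdiff_subset).isClosed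
      have h4 : ({a : ℂ | a ^ M = 1} \ {a0})ᶜ ∈ nhds a0 :=
        hclosed.isOpen_compl.mem_nhds (by simp)
      rw [eventually_nhdsWithin_iff]
      filter_upwards [h4] with a ha hane haM
      exact ha ⟨haM, hane⟩
    filter_upwards [h1, h2] with a ha1 ha2
    exact hFG a ha1 ha2
  have hder := (hF.congr_of_eventuallyEq hev.symm).unique hG
  rw [ha0M] at hder
  have hkey : -(M : ℂ) * L a0 = ∑ l ∈ Finset.range M, a0 * D l := by
    rw [← Finset.mul_sum, ← hder]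
    have h5 : a0 * a0 ^ (M - 1) = 1 := by
      rw [← pow_succ', Nat.sub_add_cancel hM0, ha0M]
    linear_combination (-(M : ℂ) * L a0) * (-h5)
  have hkey2 : (M : ℂ) * L a0 = - ∑ l ∈ Finset.range M, a0 * D l := by
    rw [← hkey]
    ring
  have hL0 : L a0 = lad a0 ζ (p - 1 - m) m (M - 1) := rfl
  rw [← hL0, hkey2]
  congr 1
  refine Finset.sum_congr rfl fun l _ => ?_
  rw [hD2 l]
  have e1 : ζ ^ (l * (l - 1) * p) * a0 ^ (p * l) = ζ ^ (p * l * (l + n - 1)) := by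
    rw [ha0, ← pow_mul, ← pow_add]
    congr 1
    rcases Nat.eq_zero_or_pos l with rfl | hl
    · simp
    · obtain ⟨t, rfl⟩ : ∃ t, l = t + 1 := ⟨l - 1, by omega⟩
      have : t + 1 + n - 1 = t + n := by omega
      rw [this, Nat.add_sub_cancel]
      ring
  rw [e1]
  congr 1
  have e2 : (ζ ^ l) ^ (m + 1) / ζ * a0 = ζ ^ (n - 1) * (ζ ^ l) ^ (m + 1) := by
    rw [ha0ζ]
    field_simp
  have e3 : ζ ^ m * ((ζ ^ l)⁻¹) ^ m * ((ζ ^ l)⁻¹ - 1) * (a0⁻¹) ^ m =
      ((ζ ^ (n - 1))⁻¹) ^ m * ((ζ ^ l)⁻¹) ^ m * ((ζ ^ l)⁻¹ - 1) := by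
    have : ζ ^ m * (a0⁻¹) ^ m = ((ζ ^ (n - 1))⁻¹) ^ m := by
      rw [← mul_pow, ha0ζ]
      congr 1
      field_simp
    rw [← this]
    ring
  rw [e2, e3, pow_succ (ζ ^ l) m]
  push_cast
  ring

end Pool.Agent.H63.VC
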