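import Pool.Agent.H63.VC.EndA

/-! # Size of the vector at `k = M - 1` -/

set_option linter.unusedSectionVars false

/-! ## One-sided quadratic exponential sums -/

namespace Pool.Agent.H63.VC.EndB

open Real

/-- `e^{2πix}` -/
noncomputable def ee (x : ℝ) : ℂ := Complex.exp ((2 * π * x : ℝ) * Complex.I)

theorem norm_ee (x : ℝ) : ‖ee x‖ = 1 := Complex.norm_exp_ofReal_mul_I _

theorem ee_add (x y : ℝ) : ee (x + y) = ee x * ee y := by
  unfold ee
  rw [← Complex.exp_add]
  congr 1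
  push_cast
  ring

theorem ee_zero : ee 0 = 1 := by unfold ee; simp

theorem ee_neg_mul (x : ℝ) : ee (-x) * ee x = 1 := by rw [← ee_add, neg_add_cancel, ee_zero]

theorem ee_int (k : ℤ) : ee k = 1 := by
  unfold ee
  have : ((2 * π * (k : ℝ) : ℝ) : ℂ) * Complex.I = k * (2 * π * Complex.I) := by
    push_cast; ring
  rw [this]
  exact Complex.exp_int_mul_two_pi_mul_I k

theorem ee_nat (k : ℕ) : ee k = 1 := by
  have := ee_int k
  exact_mod_cast this

theorem ee_re (x : ℝ) : (ee x).re = Real.cos (2 * π * x) := by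
  unfold ee
  exact Complex.exp_ofReal_mul_I_re _

theorem ee_eq (x : ℝ) : ee x = Real.cos (2 * π * x) + Real.sin (2 * π * x) * Complex.I := by
  unfold ee
  rw [Complex.exp_mul_I, Complex.ofReal_cos, Complex.ofReal_sin]

theorem ee_sub_neg (y : ℝ) : ee y - ee (-y) = 2 * (Real.sin (2 * π * y) : ℂ) * Complex.I := by
  rw [ee_eq, ee_eq]
  have h1 : Real.cos (2 * π * -y) = Real.cos (2 * π * y) := by rw [← Real.cos_neg]; congr 1; ring
  have h2 : Real.sin (2 * π * -y) = -Real.sin (2 * π * y) := by rw [← Real.sin_neg]; congr 1; ring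
  rw [h1, h2]
  push_cast
  ring

/-- Abel summation with an antitone nonnegative coefficient. -/
theorem abel_anti {G : ℕ → ℝ} {h : ℕ → ℂ} {J i : ℕ} (hiJ : i < J)
    (hG0 : ∀ j, i ≤ j → j < J → 0 ≤ G j) (hG : ∀ j, i ≤ j → j + 1 < J → G (j + 1) ≤ G j)
    (hh : ∀ j, ‖h j‖ ≤ 1) :
    ‖∑ j ∈ Finset.Ico i J, (G j : ℂ) * (h (j + 1) - h j)‖ ≤ 2 * G i := by
  have key : ∀ b, i ≤ b → b < J →
      ‖∑ j ∈ Finset.Ico i (b + 1), (G j : ℂ) * (h (j + 1) - h j) - (G b : ℂ) * h (b + 1)‖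
        ≤ 2 * G i - G b := by
    intro b hb
    induction b, hb using Nat.le_induction with
    | base =>
      intro hJ
      rw [Nat.Ico_succ_singleton, Finset.sum_singleton]
      have : (G i : ℂ) * (h (i + 1) - h i) - (G i : ℂ) * h (i + 1) = -((G i : ℂ) * h i) := by ring
      rw [this, norm_neg, norm_mul, Complex.norm_real, Real.norm_of_nonneg (hG0 i le_rfl hJ)]
      have := hG0 i le_rfl hJ
      nlinarith only [this, hh i]
    | succ b hb ih =>
      intro hJ
      have ih' := ih (by omega)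
      rw [Finset.sum_Ico_succ_top (by omega)]
      have e : ∑ j ∈ Finset.Ico i (b + 1), (G j : ℂ) * (h (j + 1) - h j)
          + (G (b + 1) : ℂ) * (h (b + 1 + 1) - h (b + 1)) - (G (b + 1) : ℂ) * h (b + 1 + 1)
          = (∑ j ∈ Finset.Ico i (b + 1), (G j : ℂ) * (h (j + 1) - h j) - (G b : ℂ) * h (b + 1))
            + ((G b - G (b + 1) : ℝ) : ℂ) * h (b + 1) := by push_cast; ring
      rw [e]
      have h1 : ‖((G b - G (b + 1) : ℝ) : ℂ) * h (b + 1)‖ ≤ G b - G (b + 1) := by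
        rw [norm_mul, Complex.norm_real, Real.norm_of_nonneg (sub_nonneg.2 (hG b hb hJ))]
        have := sub_nonneg.2 (hG b hb hJ)
        nlinarith only [this, hh (b + 1)]
      calc _ ≤ _ := norm_add_le _ _
        _ ≤ (2 * G i - G b) + (G b - G (b + 1)) := add_le_add ih' h1
        _ = _ := by ring
  obtain ⟨b, rfl⟩ : ∃ b, J = b + 1 := ⟨J - 1, by omega⟩
  have h1 := key b (by omega) (by omega)
  have h0 := hG0 b (by omega) (by omega)
  have h2 : ‖(G b : ℂ) * h (b + 1)‖ ≤ G b := by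
    rw [norm_mul, Complex.norm_real, Real.norm_of_nonneg h0]
    nlinarith only [h0, hh (b + 1)]
  have h3 := norm_add_le (∑ j ∈ Finset.Ico i (b + 1), (G j : ℂ) * (h (j + 1) - h j)
    - (G b : ℂ) * h (b + 1)) ((G b : ℂ) * h (b + 1))
  rw [sub_add_cancel] at h3
  linarith

/-- Abel summation with bounds for the tails. -/
theorem abel_weight {g q : ℕ → ℂ} {τ : ℕ → ℝ} {lam : ℝ} {J : ℕ} (i : ℕ) (hi : i < J)
    (hτ : ∀ j, i ≤ j → j < J → ‖∑ k ∈ Finset.Ico j J, q k‖ ≤ τ j)
    (hg : ∀ j, i ≤ j → j + 1 < J → ‖g (j + 1) - g j‖ ≤ lam) :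
    ‖∑ j ∈ Finset.Ico i J, g j * q j‖ ≤ ‖g i‖ * τ i + lam * ∑ j ∈ Finset.Ico (i + 1) J, τ j := by
  have key : ∀ d i, i + d + 1 = J →
      (∀ j, i ≤ j → j < J → ‖∑ k ∈ Finset.Ico j J, q k‖ ≤ τ j) →
      (∀ j, i ≤ j → j + 1 < J → ‖g (j + 1) - g j‖ ≤ lam) →
      ‖∑ j ∈ Finset.Ico i J, g j * q j - g i * ∑ k ∈ Finset.Ico i J, q k‖
        ≤ lam * ∑ j ∈ Finset.Ico (i + 1) J, τ j := by
    intro d
    induction d with
    | zero =>
      intro i hi _ _
      subst hi
      simp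
    | succ d ih =>
      intro i hi hτ hg
      have ih' := ih (i + 1) (by omega) (fun j hj hJ => hτ j (by omega) hJ)
        (fun j hj hJ => hg j (by omega) hJ)
      rw [Finset.sum_eq_sum_Ico_succ_bot (by omega : i < J),
        Finset.sum_eq_sum_Ico_succ_bot (by omega : i < J) q,
        Finset.sum_eq_sum_Ico_succ_bot (by omega : i + 1 < J) τ]
      have e : g i * q i + ∑ k ∈ Finset.Ico (i + 1) J, g k * q k
          - g i * (q i + ∑ k ∈ Finset.Ico (i + 1) J, q k)
          = (∑ k ∈ Finset.Ico (i + 1) J, g k * q k - g (i + 1) * ∑ k ∈ Finset.Ico (i + 1) J, q k)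
            + (g (i + 1) - g i) * ∑ k ∈ Finset.Ico (i + 1) J, q k := by ring
      rw [e, mul_add, add_comm (lam * τ (i + 1))]
      refine (norm_add_le _ _).trans (add_le_add ih' ?_)
      rw [norm_mul]
      have h1 := hg i le_rfl (by omega)
      have h2 := hτ (i + 1) (by omega) (by omega)
      exact mul_le_mul h1 h2 (norm_nonneg _) ((norm_nonneg _).trans h1)
  have h1 := key (J - i - 1) i (by omega) hτ hg
  have h2 := norm_add_le (∑ j ∈ Finset.Ico i J, g j * q j - g i * ∑ k ∈ Finset.Ico i J, q k)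
    (g i * ∑ k ∈ Finset.Ico i J, q k)
  rw [sub_add_cancel, norm_mul] at h2
  have h3 : ‖g i‖ * ‖∑ k ∈ Finset.Ico i J, q k‖ ≤ ‖g i‖ * τ i := by
    gcongr
    exact hτ i le_rfl hi
  linarith

/-- The quadratic phases. -/
noncomputable def qq (κ x0 : ℝ) (j : ℕ) : ℂ := ee (κ * (x0 + j) ^ 2)

theorem norm_qq (κ x0 : ℝ) (j : ℕ) : ‖qq κ x0 j‖ = 1 := norm_ee _

theorem qq_tele {κ x0 : ℝ} {j : ℕ} (hs : Real.sin (2 * π * (κ * (x0 + j))) ≠ 0) :
    qq κ x0 j = -Complex.I * (((1 / (2 * Real.sin (2 * π * (κ * (x0 + j)))) : ℝ) : ℂ) *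
      (ee (κ * ((x0 + (j + 1 : ℕ)) ^ 2 - (x0 + (j + 1 : ℕ))))
        - ee (κ * ((x0 + j) ^ 2 - (x0 + j))))) := by
  set x := x0 + j with hx
  have h1 : x0 + ((j + 1 : ℕ) : ℝ) = x + 1 := by rw [hx]; push_cast; ring
  rw [h1]
  have h2 : ee (κ * ((x + 1) ^ 2 - (x + 1))) = ee (κ * x ^ 2) * ee (κ * x) := by
    rw [← ee_add]; congr 1; ring
  have h3 : ee (κ * (x ^ 2 - x)) = ee (κ * x ^ 2) * ee (-(κ * x)) := by
    rw [← ee_add]; congr 1; ring
  rw [h2, h3, ← mul_sub, ee_sub_neg]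
  unfold qq
  rw [← hx]
  have hs' : ((Real.sin (2 * π * (κ * x)) : ℝ) : ℂ) ≠ 0 := by exact_mod_cast hs
  have h4 : ((1 / (2 * Real.sin (2 * π * (κ * x))) : ℝ) : ℂ) *
      (2 * ((Real.sin (2 * π * (κ * x)) : ℝ) : ℂ) * Complex.I) = Complex.I := by
    rw [Complex.ofReal_div, Complex.ofReal_mul, Complex.ofReal_one, Complex.ofReal_ofNat]
    generalize ((Real.sin (2 * π * (κ * x)) : ℝ) : ℂ) = S at hs' ⊢
    field_simp
  calc ee (κ * x ^ 2) = -Complex.I * (Complex.I * ee (κ * x ^ 2)) := by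
        rw [← mul_assoc, neg_mul, Complex.I_mul_I]; ring
    _ = -Complex.I * (((1 / (2 * Real.sin (2 * π * (κ * x))) : ℝ) : ℂ) *
      (2 * ((Real.sin (2 * π * (κ * x)) : ℝ) : ℂ) * Complex.I) * ee (κ * x ^ 2)) := by rw [h4]
    _ = _ := by ring

section OneSided

variable {κ x0 : ℝ} {J : ℕ}

/-- The tails are bounded by the inverse of a sine. -/
theorem tail_le_sin (hκ : 0 < κ) (hJ : ∀ j < J, κ * (x0 + j) ≤ 1 / 4) {i : ℕ} (hi : i < J)
    (hx : 0 < x0 + i) :
    ‖∑ k ∈ Finset.Ico i J, qq κ x0 k‖ ≤ 1 / Real.sin (2 * π * (κ * (x0 + i))) := by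
  have hpi := Real.pi_pos
  have hpos : ∀ j, i ≤ j → j < J → 0 < 2 * π * (κ * (x0 + j)) := by
    intro j hj _
    have : (i : ℝ) ≤ j := by exact_mod_cast hj
    have : 0 < x0 + j := by linarith
    positivity
  have hle : ∀ j, j < J → 2 * π * (κ * (x0 + j)) ≤ π / 2 := by
    intro j hj
    have := hJ j hj
    nlinarith only [hpi, this]
  have hsin : ∀ j, i ≤ j → j < J → 0 < Real.sin (2 * π * (κ * (x0 + j))) := by
    intro j hj hj2
    exact Real.sin_pos_of_pos_of_lt_pi (hpos j hj hj2) (by linarith only [hpi, hle, hj2, hle j hj2])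
  have h1 : ∑ k ∈ Finset.Ico i J, qq κ x0 k
      = -Complex.I * ∑ j ∈ Finset.Ico i J,
        (((1 / (2 * Real.sin (2 * π * (κ * (x0 + j)))) : ℝ) : ℂ) *
      ((fun j : ℕ => ee (κ * ((x0 + j) ^ 2 - (x0 + j)))) (j + 1)
        - (fun j : ℕ => ee (κ * ((x0 + j) ^ 2 - (x0 + j)))) j)) := by
    rw [Finset.mul_sum]
    apply Finset.sum_congr rfl
    intro j hj
    rw [Finset.mem_Ico] at hj
    exact qq_tele (hsin j hj.1 hj.2).ne'
  rw [h1, norm_mul, norm_neg, Complex.norm_I, one_mul]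
  have h2 := abel_anti (G := fun j : ℕ => 1 / (2 * Real.sin (2 * π * (κ * (x0 + j)))))
    (h := fun j : ℕ => ee (κ * ((x0 + j) ^ 2 - (x0 + j)))) hi
    (fun j hj hj2 => by have := hsin j hj hj2; positivity)
    (fun j hj hj2 => by
      have e1 := hsin j hj (by omega)
      have e2 := hpos j hj (by omega)
      have e3 := hle (j + 1) hj2
      have e4 : Real.sin (2 * π * (κ * (x0 + j)))
          ≤ Real.sin (2 * π * (κ * (x0 + (j + 1 : ℕ)))) := by
        apply Real.sin_le_sin_of_le_of_le_pi_div_two (by linarith only [hpi, e2]) e3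
        push_cast
        nlinarith only [hκ, hpi]
      show 1 / (2 * Real.sin (2 * π * (κ * (x0 + (j + 1 : ℕ)))))
        ≤ 1 / (2 * Real.sin (2 * π * (κ * (x0 + j))))
      gcongr)
    (fun j => (norm_ee _).le)
  refine h2.trans (le_of_eq ?_)
  have := hsin i le_rfl hi
  show 2 * (1 / (2 * Real.sin (2 * π * (κ * (x0 + i))))) = _
  field_simp

theorem tail_le (hκ : 0 < κ) (hx0 : 0 ≤ x0) (hJ : ∀ j < J, κ * (x0 + j) ≤ 1 / 4) {i : ℕ}
    (hi0 : 0 < i) (hi : i < J) :
    ‖∑ k ∈ Finset.Ico i J, qq κ x0 k‖ ≤ 1 / (4 * κ * i) := by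
  have hi0' : (0 : ℝ) < i := by exact_mod_cast hi0
  have hx : 0 < x0 + i := by linarith
  refine (tail_le_sin hκ hJ hi hx).trans ?_
  have hpi := Real.pi_pos
  have h1 : 2 / π * (2 * π * (κ * (x0 + i))) ≤ Real.sin (2 * π * (κ * (x0 + i))) := by
    apply Real.mul_le_sin
    · positivity
    · have := hJ i hi
      nlinarith only [hpi, this]
  have h2 : 2 / π * (2 * π * (κ * (x0 + i))) = 4 * κ * (x0 + i) := by field_simp; ring
  rw [h2] at h1
  have h3 : 4 * κ * (i : ℝ) ≤ 4 * κ * (x0 + i) := by gcongr; linarith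
  exact one_div_le_one_div_of_le (by positivity) (h3.trans h1)

/-- Plain sums are `O(κ^{-1/2})`. -/
theorem plain_le (hκ : 0 < κ) (hx0 : 0 ≤ x0) (hJ : ∀ j < J, κ * (x0 + j) ≤ 1 / 4) (i : ℕ) :
    ‖∑ k ∈ Finset.Ico i J, qq κ x0 k‖ ≤ 2 / √κ + 1 := by
  have hs : 0 < √κ := Real.sqrt_pos.2 hκ
  set b := ⌈1 / √κ⌉₊ with hb
  have hb1 : 1 / √κ ≤ b := Nat.le_ceil _
  have hb2 : (b : ℝ) < 1 / √κ + 1 := Nat.ceil_lt_add_one (by positivity)
  have hb0 : 0 < b := Nat.ceil_pos.2 (by positivity)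
  have hκs : κ = √κ * √κ := (Real.mul_self_sqrt hκ.le).symm
  have hbig : ∀ i, b ≤ i → i < J → ‖∑ k ∈ Finset.Ico i J, qq κ x0 k‖ ≤ 1 / √κ := by
    intro i hbi hiJ
    refine (tail_le hκ hx0 hJ (by omega) hiJ).trans ?_
    have h1 : 1 / √κ ≤ i := hb1.trans (by exact_mod_cast hbi)
    apply one_div_le_one_div_of_le hs
    calc √κ ≤ 4 * √κ := by linarith only [hs]
      _ = 4 * (√κ * √κ) * (1 / √κ) := by field_simp
      _ = 4 * κ * (1 / √κ) := by rw [← hκs]
      _ ≤ 4 * κ * i := by gcongr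
  have htriv : ∀ a c : ℕ, ‖∑ k ∈ Finset.Ico a c, qq κ x0 k‖ ≤ (c - a : ℕ) := by
    intro a c
    refine (norm_sum_le _ _).trans ?_
    simp only [norm_qq, Finset.sum_const, Nat.card_Ico, nsmul_eq_mul, mul_one, le_refl]
  have hinv : 1 / √κ ≤ 2 / √κ + 1 := by
    have : 1 / √κ ≤ 2 / √κ := by gcongr; norm_num
    linarith only [this]
  by_cases hiJ : i < J
  · by_cases hbi : b ≤ i
    · exact (hbig i hbi hiJ).trans hinv
    · rw [not_le] at hbi
      by_cases hbJ : b < J
      · rw [← Finset.sum_Ico_consecutive _ hbi.le hbJ.le]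
        have h1 := hbig b le_rfl hbJ
        have h2 := htriv i b
        have h3 : ((b - i : ℕ) : ℝ) ≤ b := by exact_mod_cast Nat.sub_le _ _
        calc _ ≤ _ := norm_add_le _ _
          _ ≤ (1 / √κ + 1) + 1 / √κ := by linarith only [hb2, h1, h2, h3]
          _ = _ := by ring
      · have h2 := htriv i J
        have h3 : ((J - i : ℕ) : ℝ) ≤ b := by exact_mod_cast (by omega : J - i ≤ b)
        have : 1 / √κ + 1 ≤ 2 / √κ + 1 := by
          have : 1 / √κ ≤ 2 / √κ := by gcongr; norm_num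
          linarith only [this]
        linarith only [hb2, h2, h3, this]
  · rw [Finset.Ico_eq_empty_of_le (by omega), Finset.sum_empty, norm_zero]
    positivity

/-- Weighted sums with bounded weights of bounded variation. -/
theorem weight_le {g : ℕ → ℂ} {lam : ℝ} (hκ : 0 < κ) (hκ1 : κ ≤ 1) (hx0 : 0 ≤ x0)
    (hJ : ∀ j < J, κ * (x0 + j) ≤ 1 / 4) (hlam : 0 ≤ lam)
    (hg0 : ‖g 0‖ ≤ lam) (hg : ∀ j, j + 1 < J → ‖g (j + 1) - g j‖ ≤ lam * κ) :
    ‖∑ j ∈ Finset.range J, g j * qq κ x0 j‖ ≤ 6 * lam / √κ := by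
  have hs : 0 < √κ := Real.sqrt_pos.2 hκ
  have hs1 : √κ ≤ 1 := Real.sqrt_le_one.2 hκ1
  rcases Nat.eq_zero_or_pos J with h0 | h0
  · subst h0
    simp only [Finset.range_zero, Finset.sum_empty, norm_zero]
    positivity
  have hB : 2 / √κ + 1 ≤ 3 / √κ := by
    have : 1 ≤ 1 / √κ := by rw [le_div_iff₀ hs]; linarith
    have : 3 / √κ = 2 / √κ + 1 / √κ := by ring
    linarith
  have h1 := abel_weight (g := g) (q := qq κ x0) (τ := fun _ => 3 / √κ) (lam := lam * κ) 0 h0
    (fun j _ _ => (plain_le hκ hx0 hJ j).trans hB) (fun j _ hj => hg j hj)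
  rw [← Finset.range_eq_Ico] at h1
  refine h1.trans ?_
  rw [Finset.sum_const, Nat.card_Ico, nsmul_eq_mul]
  have h2 : κ * (J - (0 + 1) : ℕ) ≤ 1 := by
    have := hJ (J - 1) (by omega)
    have e : κ * ((J - 1 : ℕ) : ℝ) ≤ κ * (x0 + (J - 1 : ℕ)) := by gcongr; linarith only [hx0]
    rw [zero_add]
    linarith only [this, e]
  have h3 : 0 ≤ lam * (3 / √κ) := by positivity
  calc ‖g 0‖ * (3 / √κ) + lam * κ * (((J - (0 + 1) : ℕ) : ℝ) * (3 / √κ))
      = ‖g 0‖ * (3 / √κ) + (κ * (J - (0 + 1) : ℕ)) * (lam * (3 / √κ)) := by ring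
    _ ≤ lam * (3 / √κ) + 1 * (lam * (3 / √κ)) := by gcongr
    _ = _ := by ring

/-- Weighted sums with weights vanishing at the stationary point. -/
theorem weight_small {g : ℕ → ℂ} {lam : ℝ} (hκ : 0 < κ) (hκ1 : κ ≤ 1) (hx0 : 0 ≤ x0)
    (hJ : ∀ j < J, κ * (x0 + j) ≤ 1 / 4) (hlam : 0 ≤ lam)
    (hg0 : ‖g 0‖ ≤ lam * κ) (hg : ∀ j, j + 1 < J → ‖g (j + 1) - g j‖ ≤ lam * κ) :
    ‖∑ j ∈ Finset.range J, g j * qq κ x0 j‖ ≤ lam * (3 + Real.log J) := by
  rcases Nat.eq_zero_or_pos J with h0 | h0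
  · subst h0
    simp only [Finset.range_zero, Finset.sum_empty, norm_zero, Nat.cast_zero, Real.log_zero]
    positivity
  have hlog : 0 ≤ Real.log J := Real.log_natCast_nonneg J
  rw [Finset.range_eq_Ico, Finset.sum_eq_sum_Ico_succ_bot h0]
  have h1 : ‖g 0 * qq κ x0 0‖ ≤ lam := by
    rw [norm_mul, norm_qq, mul_one]
    refine hg0.trans ?_
    calc lam * κ ≤ lam * 1 := by gcongr
      _ = lam := mul_one _
  by_cases hJ1 : 1 < J
  · have h2 := abel_weight (g := g) (q := qq κ x0) (τ := fun j => 1 / (4 * κ * j))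
      (lam := lam * κ) 1 hJ1 (fun j hj hj2 => tail_le hκ hx0 hJ (by omega) hj2)
      (fun j _ hj => hg j hj)
    have hg1 : ‖g 1‖ ≤ 2 * (lam * κ) := by
      have e1 := hg 0 (by omega)
      have e2 := norm_add_le (g (0 + 1) - g 0) (g 0)
      rw [sub_add_cancel] at e2
      rw [zero_add] at e1 e2
      linarith
    have hharm : ∑ j ∈ Finset.Ico (1 + 1) J, 1 / (4 * κ * (j : ℝ))
        ≤ (1 / κ) * ((1 + Real.log J) / 4) := by
      have e1 : ∑ j ∈ Finset.Ico (1 + 1) J, (j : ℝ)⁻¹ ≤ 1 + Real.log J := by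
        have e2 := harmonic_le_one_add_log J
        refine le_trans ?_ e2
        rw [harmonic_eq_sum_Icc]
        push_cast
        apply Finset.sum_le_sum_of_subset_of_nonneg
        · intro j hj
          rw [Finset.mem_Ico] at hj
          rw [Finset.mem_Icc]
          omega
        · intro j _ _
          positivity
      have e3 : ∑ j ∈ Finset.Ico (1 + 1) J, 1 / (4 * κ * (j : ℝ))
          = (1 / κ) * ((∑ j ∈ Finset.Ico (1 + 1) J, (j : ℝ)⁻¹) / 4) := by
        rw [Finset.sum_div, Finset.mul_sum]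
        apply Finset.sum_congr rfl
        intro j _
        field_simp
      rw [e3]
      gcongr
    have h3 : ‖∑ j ∈ Finset.Ico 1 J, g j * qq κ x0 j‖
        ≤ 2 * (lam * κ) * (1 / (4 * κ * (1 : ℕ))) +
          lam * κ * ((1 / κ) * ((1 + Real.log J) / 4)) := by
      refine h2.trans (add_le_add ?_ ?_)
      · gcongr
      · gcongr
    have h4 : 2 * (lam * κ) * (1 / (4 * κ * (1 : ℕ))) +
          lam * κ * ((1 / κ) * ((1 + Real.log J) / 4)) = lam * (3 / 4 + Real.log J / 4) := by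
      push_cast
      field_simp
      ring
    rw [h4] at h3
    calc _ ≤ _ := norm_add_le _ _
      _ ≤ lam + lam * (3 / 4 + Real.log J / 4) := add_le_add h1 h3
      _ ≤ lam * (3 + Real.log J) := by nlinarith only [hlam, hlog]
  · have hJ' : J = 1 := by omega
    subst hJ'
    simp only [zero_add, Finset.Ico_self, Finset.sum_empty, add_zero]
    refine h1.trans ?_
    nlinarith only [hlam, hlog]

end OneSided

end Pool.Agent.H63.VC.EndB

/-! ## Lower bound for the one-sided sum -/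

namespace Pool.Agent.H63.VC.EndB

open Real

theorem cos_nonneg_of {y : ℝ} (h0 : 0 ≤ y) (h1 : y ≤ 3 / 8) : 0 ≤ Real.cos (2 * π * (y - 1 / 8)) := by
  have hpi := Real.pi_pos
  apply Real.cos_nonneg_of_mem_Icc
  constructor <;> nlinarith

theorem cos_ge_of {y : ℝ} (h0 : 0 ≤ y) (h1 : y ≤ 1 / 4) :
    √2 / 2 ≤ Real.cos (2 * π * (y - 1 / 8)) := by
  have hpi := Real.pi_pos
  rw [← Real.cos_pi_div_four, ← Real.cos_abs (2 * π * (y - 1 / 8))]
  apply Real.cos_le_cos_of_nonneg_of_le_pi (abs_nonneg _) (by linarith)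
  rw [abs_le]
  constructor <;> nlinarith only [h0, hpi, h1]

theorem numeric {w : ℝ} (hw : 0 < w) (hw1 : w ≤ 1 / 32) :
    1 / (20 * w) ≤ √2 / 2 * (1 / (2 * w) - 1) - 1 / Real.sin (2 * π * (w ^ 2 * (√(3 / 8) / w))) := by
  have hpi1 := Real.pi_gt_d2
  have hpi2 := Real.pi_lt_d2
  have hs1 : (0.612 : ℝ) ≤ √(3 / 8) := by
    apply Real.le_sqrt_of_sq_le; norm_num
  have hs2 : √(3 / 8) ≤ 0.6124 := by
    rw [Real.sqrt_le_left (by norm_num)]; norm_num
  have h2a : (1.414 : ℝ) ≤ √2 := by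
    apply Real.le_sqrt_of_sq_le; norm_num
  have h2b : √2 ≤ 1.415 := by
    rw [Real.sqrt_le_left (by norm_num)]; norm_num
  have ht : 2 * π * (w ^ 2 * (√(3 / 8) / w)) = 2 * π * √(3 / 8) * w := by
    field_simp
  rw [ht]
  set t := 2 * π * √(3 / 8) * w with htdef
  have hc1 : (3.84 : ℝ) ≤ 2 * π * √(3 / 8) := by nlinarith only [hpi1, hs1]
  have hc2 : 2 * π * √(3 / 8) ≤ 3.86 := by nlinarith only [hpi1, hpi2, hs2]
  have ht1 : 3.84 * w ≤ t := by rw [htdef]; gcongr
  have ht2 : t ≤ 3.86 * w := by rw [htdef]; gcongr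
  have ht0 : 0 < t := by linarith only [hw, ht1]
  have ht3 : t ≤ 1 / 8 := by nlinarith only [hw1, ht2]
  have hsin := Real.sin_gt_sub_cube ht0
  have hsin2 : 3.8 * w ≤ Real.sin t := by
    have : t ^ 3 ≤ t * (1 / 64) := by
      have : t ^ 2 ≤ 1 / 64 := by nlinarith only [hw1, ht1, ht2]
      nlinarith only [ht1, ht2, this]
    nlinarith only [hw, ht1, hsin, this]
  have h3 : 1 / Real.sin t ≤ 1 / (3.8 * w) := one_div_le_one_div_of_le (by positivity) hsin2
  have h4 : 0.707 * (1 / (2 * w) - 1) ≤ √2 / 2 * (1 / (2 * w) - 1) := by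
    have : 0 ≤ 1 / (2 * w) - 1 := by
      rw [sub_nonneg, le_div_iff₀ (by positivity)]
      linarith only [hw1]
    gcongr
    linarith only [h2a]
  have h5 : 1 / (20 * w) ≤ 0.707 * (1 / (2 * w) - 1) - 1 / (3.8 * w) := by
    rw [show (0.707 : ℝ) * (1 / (2 * w) - 1) - 1 / (3.8 * w)
      = (0.707 / 2 - 1 / 3.8 - 0.707 * w) / w by field_simp; ring]
    rw [show 1 / (20 * w) = (1 / 20) / w by field_simp]
    gcongr
    nlinarith only [hw1]
  linarith only [h3, h4, h5]

theorem lower {κ x0 : ℝ} {J : ℕ} (hκ : 0 < κ) (hκ1 : κ ≤ 1 / 1024) (hx0 : 0 ≤ x0) (hx1 : x0 ≤ 1)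
    (hJ : ∀ j < J, κ * (x0 + j) ≤ 1 / 4) (hJ2 : 1 / 8 ≤ κ * (x0 + J)) :
    1 / (20 * √κ) ≤ (ee (-(1 / 8)) * ∑ j ∈ Finset.range J, qq κ x0 j).re := by
  set w := √κ with hw
  have hw0 : 0 < w := Real.sqrt_pos.2 hκ
  have hww : w ^ 2 = κ := Real.sq_sqrt hκ.le
  have hw1 : w ≤ 1 / 32 := by
    rw [hw, Real.sqrt_le_left (by norm_num)]
    norm_num
    linarith only [hκ1]
  have hs1 : (0.612 : ℝ) ≤ √(3 / 8) := by
    apply Real.le_sqrt_of_sq_le; norm_num
  have hs2 : √(3 / 8) ≤ 0.6124 := by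
    rw [Real.sqrt_le_left (by norm_num)]; norm_num
  set T := √(3 / 8) / w with hT
  have hT1 : 1 ≤ T := by
    rw [hT, le_div_iff₀ hw0]; linarith only [hw1, hs1]
  have hTκ : κ * T ^ 2 = 3 / 8 := by
    rw [hT, div_pow, Real.sq_sqrt (by norm_num), hww]
    field_simp
  -- terms
  have hterm : ∀ j, (ee (-(1 / 8)) * qq κ x0 j).re
      = Real.cos (2 * π * (κ * (x0 + j) ^ 2 - 1 / 8)) := by
    intro j
    unfold qq
    rw [← ee_add, ee_re]
    congr 2
    ring
  set b := ⌊T - x0⌋₊ + 1 with hb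
  have hbj : ∀ j < b, x0 + (j : ℝ) ≤ T := by
    intro j hj
    have : j ≤ ⌊T - x0⌋₊ := by omega
    have := (Nat.le_floor_iff (by linarith only [hx1, hT1])).1 this
    linarith only [this]
  have hbT : T < x0 + b := by
    have := Nat.lt_floor_add_one (T - x0)
    rw [hb]
    push_cast
    linarith only [this]
  have hbT2 : x0 + b ≤ T + 1 := by
    have := Nat.floor_le (show 0 ≤ T - x0 by linarith only [hx1, hT1])
    rw [hb]
    push_cast
    linarith only [this]
  have hbJ : b < J := by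
    by_contra hc
    rw [not_lt] at hc
    have h1 : (J : ℝ) ≤ b := by exact_mod_cast hc
    have h2 : κ * (x0 + J) ≤ κ * (T + 1) :=
      mul_le_mul_of_nonneg_left (by linarith only [hbT2, h1]) hκ.le
    have h3 : κ * (T + 1) < 1 / 8 := by
      have e1 : κ * T = w * √(3 / 8) := by
        rw [hT, ← hww]; field_simp
      rw [mul_add, e1, mul_one]
      nlinarith only [hκ1, hw0, hw1, hs2]
    linarith only [hJ2, h2, h3]
  set a := ⌊1 / (2 * w) - x0⌋₊ + 1 with ha
  have h2w : 16 ≤ 1 / (2 * w) := by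
    rw [le_div_iff₀ (by positivity)]; linarith only [hw1]
  have haj : ∀ j < a, x0 + (j : ℝ) ≤ 1 / (2 * w) := by
    intro j hj
    have : j ≤ ⌊1 / (2 * w) - x0⌋₊ := by omega
    have := (Nat.le_floor_iff (by linarith only [hx1, h2w])).1 this
    linarith only [this]
  have ha2 : 1 / (2 * w) - 1 ≤ a := by
    have := Nat.lt_floor_add_one (1 / (2 * w) - x0)
    rw [ha]
    push_cast
    linarith only [hx1, this]
  have hab : a ≤ b := by
    rw [ha, hb]
    have : 1 / (2 * w) ≤ T := by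
      rw [hT, div_le_div_iff₀ (by positivity) hw0]
      nlinarith only [hw0, hs1]
    have := Nat.floor_mono (show 1 / (2 * w) - x0 ≤ T - x0 by linarith only [this])
    omega
  -- window
  have hwin : √2 / 2 * (1 / (2 * w) - 1) ≤ (ee (-(1 / 8)) * ∑ j ∈ Finset.range b, qq κ x0 j).re := by
    rw [Finset.mul_sum, Complex.re_sum]
    calc √2 / 2 * (1 / (2 * w) - 1) ≤ √2 / 2 * a := by gcongr
      _ = ∑ _j ∈ Finset.range a, √2 / 2 := by
          rw [Finset.sum_const, Finset.card_range, nsmul_eq_mul, mul_comm]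
      _ ≤ ∑ j ∈ Finset.range a, (ee (-(1 / 8)) * qq κ x0 j).re := by
          apply Finset.sum_le_sum
          intro j hj
          rw [Finset.mem_range] at hj
          rw [hterm]
          apply cos_ge_of (by positivity)
          have h1 := haj j hj
          have h0 : 0 ≤ x0 + (j : ℝ) := by positivity
          calc κ * (x0 + j) ^ 2 ≤ κ * (1 / (2 * w)) ^ 2 := by gcongr
            _ = 1 / 4 := by rw [← hww]; field_simp; norm_num
      _ ≤ _ := by
          apply Finset.sum_le_sum_of_subset_of_nonneg (Finset.range_mono hab)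
          intro j hj _
          rw [Finset.mem_range] at hj
          rw [hterm]
          apply cos_nonneg_of (by positivity)
          have h1 := hbj j hj
          have h0 : 0 ≤ x0 + (j : ℝ) := by positivity
          calc κ * (x0 + j) ^ 2 ≤ κ * T ^ 2 := by gcongr
            _ = 3 / 8 := hTκ
  -- tail
  have htail : ‖∑ j ∈ Finset.Ico b J, qq κ x0 j‖ ≤ 1 / Real.sin (2 * π * (w ^ 2 * T)) := by
    refine (tail_le_sin hκ hJ hbJ (by linarith only [hT1, hbT])).trans ?_
    have hpi := Real.pi_pos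
    rw [hww]
    have e1 : 0 < 2 * π * (κ * T) := by positivity
    have e2 : 2 * π * (κ * (x0 + b)) ≤ π / 2 := by
      have := hJ b hbJ
      nlinarith only [hpi, this]
    have e3 : 2 * π * (κ * T) ≤ 2 * π * (κ * (x0 + b)) := by gcongr
    have e4 : 0 < Real.sin (2 * π * (κ * T)) :=
      Real.sin_pos_of_pos_of_lt_pi e1 (by linarith only [e1, e2, e3])
    apply one_div_le_one_div_of_le e4
    exact Real.sin_le_sin_of_le_of_le_pi_div_two (by linarith only [e1, e2, e3]) e2 e3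
  have hre : -(1 / Real.sin (2 * π * (w ^ 2 * T)))
      ≤ (ee (-(1 / 8)) * ∑ j ∈ Finset.Ico b J, qq κ x0 j).re := by
    have h1 := Complex.abs_re_le_norm (ee (-(1 / 8)) * ∑ j ∈ Finset.Ico b J, qq κ x0 j)
    rw [norm_mul, norm_ee, one_mul] at h1
    have h2 := (abs_le.1 h1).1
    linarith only [htail, h2]
  have hsplit : ∑ j ∈ Finset.range J, qq κ x0 j
      = ∑ j ∈ Finset.range b, qq κ x0 j + ∑ j ∈ Finset.Ico b J, qq κ x0 j := by
    rw [Finset.range_eq_Ico, Finset.range_eq_Ico]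
    exact (Finset.sum_Ico_consecutive _ (Nat.zero_le _) hbJ.le).symm
  rw [hsplit, mul_add, Complex.add_re]
  have hnum := numeric hw0 hw1
  linarith only [hwin, hre, hnum]

end Pool.Agent.H63.VC.EndB

/-! ## Decomposition of the lattice into one-sided pieces -/

namespace Pool.Agent.H63.VC.EndB

open Real

/-- the lattice points -/
noncomputable def sl (n M l : ℕ) : ℝ := l + ((n : ℝ) - 1 - M) / 2

/-- the stationary points -/
noncomputable def sig (p M : ℕ) (r : ℤ) : ℝ := r * M / (2 * p)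

/-- index of the piece -/
noncomputable def tix (p n M l : ℕ) : ℤ := ⌊4 * p * sl n M l / M⌋

/-- One-sided pieces. -/
def IsPiece (p n M : ℕ) (r : ℤ) (A : Finset ℕ) (X L : ℝ) : Prop :=
  ∃ (J : ℕ) (x0 ε : ℝ) (ell : ℕ → ℕ), (ε = 1 ∨ ε = -1) ∧ 0 ≤ x0 ∧ x0 ≤ X ∧
    L ≤ (p / M : ℝ) * (x0 + J) ∧ (∀ j < J, (p / M : ℝ) * (x0 + j) ≤ 1 / 4) ∧
    (∀ j < J, sl n M (ell j) = sig p M r + ε * (x0 + j)) ∧
    (∀ φ : ℕ → ℂ, ∑ l ∈ A, φ l = ∑ j ∈ Finset.range J, φ (ell j))

theorem sl_eq (n M l : ℕ) : sl n M l = sl n M 0 + l := by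
  unfold sl; push_cast; ring

theorem right_set (p n M B : ℕ) (r : ℤ) :
    (Finset.range B).filter (fun l => 0 ≤ sl n M l - sig p M r ∧
      sl n M l - sig p M r < (M : ℝ) / (4 * p))
      = Finset.Ico ⌈sig p M r - sl n M 0⌉₊
        (min ⌈sig p M r - sl n M 0 + (M : ℝ) / (4 * p)⌉₊ B) := by
  ext l
  rw [Finset.mem_filter, Finset.mem_range, Finset.mem_Ico, lt_min_iff, Nat.ceil_le, Nat.lt_ceil,
    sl_eq n M l]
  constructor
  · rintro ⟨h1, h2, h3⟩
    exact ⟨by linarith, by linarith, h1⟩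
  · rintro ⟨h1, h2, h3⟩
    exact ⟨h3, by linarith, by linarith⟩

theorem left_set (p n M B : ℕ) (r : ℤ) :
    (Finset.range B).filter (fun l => -((M : ℝ) / (4 * p)) ≤ sl n M l - sig p M r ∧
      sl n M l - sig p M r < 0)
      = Finset.Ico ⌈sig p M r - sl n M 0 - (M : ℝ) / (4 * p)⌉₊
        (min ⌈sig p M r - sl n M 0⌉₊ B) := by
  ext l
  rw [Finset.mem_filter, Finset.mem_range, Finset.mem_Ico, lt_min_iff, Nat.ceil_le, Nat.lt_ceil,
    sl_eq n M l]
  constructor
  · rintro ⟨h1, h2, h3⟩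
    exact ⟨by linarith only [h2], by linarith, h1⟩
  · rintro ⟨h1, h2, h3⟩
    exact ⟨h3, by linarith, by linarith⟩

section

variable {p n M B : ℕ}

theorem kappa_mul (hp : 0 < p) (hM : 0 < M) : (p / M : ℝ) * ((M : ℝ) / (4 * p)) = 1 / 4 := by
  have hp' : (0 : ℝ) < p := by exact_mod_cast hp
  have hM' : (0 : ℝ) < M := by exact_mod_cast hM
  field_simp

theorem right_piece (hp : 0 < p) (hn : 1 ≤ n) (hM : 0 < M) {r : ℤ} (hr : -(p : ℤ) ≤ r) :
    IsPiece p n M r ((Finset.range B).filter (fun l => 0 ≤ sl n M l - sig p M r ∧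
      sl n M l - sig p M r < (M : ℝ) / (4 * p))) (n + 1) 0 := by
  have hp' : (0 : ℝ) < p := by exact_mod_cast hp
  have hM' : (0 : ℝ) < M := by exact_mod_cast hM
  have hn' : (1 : ℝ) ≤ n := by exact_mod_cast hn
  rw [right_set]
  set u := sig p M r - sl n M 0 with hu
  set δ := (M : ℝ) / (4 * p) with hδ
  set lo := ⌈u⌉₊ with hlo
  set hi := min ⌈u + δ⌉₊ B with hhi
  have hx0 : 0 ≤ (lo : ℝ) - u := by linarith only [Nat.le_ceil u]
  refine ⟨hi - lo, lo - u, 1, fun j => lo + j, Or.inl rfl, hx0, ?_, by positivity, ?_, ?_, ?_⟩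
  · rcases le_or_gt 0 u with h | h
    · have := Nat.ceil_lt_add_one h
      linarith only [this]
    · have h0 : lo = 0 := Nat.ceil_eq_zero.2 h.le
      rw [h0, hu]
      have h1 : -((M : ℝ) / 2) ≤ sig p M r := by
        unfold sig
        rw [le_div_iff₀ (by positivity)]
        have : -(p : ℝ) ≤ r := by exact_mod_cast hr
        nlinarith only [this]
      unfold sl
      push_cast
      linarith only [h1]
  · intro j hj
    have h1 : ((lo + j : ℕ) : ℝ) < u + δ := by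
      apply Nat.lt_ceil.1
      have := min_le_left ⌈u + δ⌉₊ B
      omega
    push_cast at h1
    rw [← kappa_mul hp hM]
    gcongr
    linarith only [h1]
  · intro j _
    rw [sl_eq]
    push_cast
    rw [hu]
    ring
  · intro φ
    rw [Finset.sum_Ico_eq_sum_range]

theorem left_piece (hp : 0 < p) (hn : 1 ≤ n) (hM : 0 < M) {r : ℤ} (hr : r ≤ (p : ℤ))
    (hB : M ≤ B + n) :
    IsPiece p n M r ((Finset.range B).filter (fun l => -((M : ℝ) / (4 * p)) ≤ sl n M l - sig p M r ∧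
      sl n M l - sig p M r < 0)) (n + 1) 0 := by
  have hp' : (0 : ℝ) < p := by exact_mod_cast hp
  have hM' : (0 : ℝ) < M := by exact_mod_cast hM
  have hn' : (1 : ℝ) ≤ n := by exact_mod_cast hn
  rw [left_set]
  set u := sig p M r - sl n M 0 with hu
  set δ := (M : ℝ) / (4 * p) with hδ
  set lo := ⌈u - δ⌉₊ with hlo
  set hi := min ⌈u⌉₊ B with hhi
  rcases le_or_gt hi lo with hle | hlt
  · refine ⟨0, 0, 1, fun _ => 0, Or.inl rfl, le_rfl, by positivity, by simp, by simp, by simp, ?_⟩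
    intro φ
    rw [Finset.Ico_eq_empty_of_le hle]
    simp
  have hhi1 : ((hi - 1 : ℕ) : ℝ) < u := by
    apply Nat.lt_ceil.1
    have := min_le_left ⌈u⌉₊ B
    omega
  have hcast : ((hi - 1 : ℕ) : ℝ) = hi - 1 := by
    rw [Nat.cast_sub (by omega)]; simp
  rw [hcast] at hhi1
  refine ⟨hi - lo, u - (hi - 1), -1, fun j => lo + (hi - lo - 1 - j), Or.inr rfl, by linarith only [hhi1],
    ?_, by positivity, ?_, ?_, ?_⟩
  · rcases le_total ⌈u⌉₊ B with h | h
    · have h1 : hi = ⌈u⌉₊ := min_eq_left h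
      rw [h1]
      linarith only [Nat.le_ceil u]
    · have h1 : hi = B := min_eq_right h
      rw [h1]
      have h2 : sig p M r ≤ (M : ℝ) / 2 := by
        unfold sig
        rw [div_le_iff₀ (by positivity)]
        have : (r : ℝ) ≤ p := by exact_mod_cast hr
        nlinarith only [this]
      have h3 : (M : ℝ) ≤ B + n := by exact_mod_cast hB
      rw [hu]
      unfold sl
      push_cast
      linarith only [hn', h2, h3]
  · intro j hj
    have h1 : u - δ ≤ lo := Nat.le_ceil _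
    have h2 : (lo : ℝ) + (j + 1) ≤ hi := by
      have : lo + (j + 1) ≤ hi := by omega
      exact_mod_cast this
    rw [← kappa_mul hp hM]
    gcongr
    linarith only [h1, h2]
  · intro j hj
    rw [sl_eq]
    have h1 : ((lo + (hi - lo - 1 - j) : ℕ) : ℝ) = hi - 1 - j := by
      have : lo + (hi - lo - 1 - j) + (j + 1) = hi := by omega
      have h2 : ((lo + (hi - lo - 1 - j) + (j + 1) : ℕ) : ℝ) = hi := by rw [this]
      push_cast at h2 ⊢
      linarith only [h2]
    rw [h1, hu]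
    ring
  · intro φ
    rw [Finset.sum_Ico_eq_sum_range]
    rw [← Finset.sum_range_reflect]

theorem right_piece_long (hp : 0 < p) (hM : 0 < M) {r : ℤ}
    (h0 : 0 ≤ sig p M r - sl n M 0)
    (h1 : sig p M r - sl n M 0 + (M : ℝ) / (4 * p) ≤ B) :
    IsPiece p n M r ((Finset.range B).filter (fun l => 0 ≤ sl n M l - sig p M r ∧
      sl n M l - sig p M r < (M : ℝ) / (4 * p))) 1 (1 / 8) := by
  have hp' : (0 : ℝ) < p := by exact_mod_cast hp
  have hM' : (0 : ℝ) < M := by exact_mod_cast hM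
  rw [right_set]
  set u := sig p M r - sl n M 0 with hu
  set δ := (M : ℝ) / (4 * p) with hδ
  have hδ0 : 0 < δ := by positivity
  set lo := ⌈u⌉₊ with hlo
  have hhi : min ⌈u + δ⌉₊ B = ⌈u + δ⌉₊ := min_eq_left (Nat.ceil_le.2 h1)
  rw [hhi]
  set hi := ⌈u + δ⌉₊ with hhi2
  have hx0 : 0 ≤ (lo : ℝ) - u := by linarith only [Nat.le_ceil u]
  have hlohi : lo ≤ hi := Nat.ceil_mono (by linarith only [hδ0])
  refine ⟨hi - lo, lo - u, 1, fun j => lo + j, Or.inl rfl, hx0, ?_, ?_, ?_, ?_, ?_⟩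
  · have := Nat.ceil_lt_add_one h0
    linarith only [this]
  · rw [Nat.cast_sub hlohi]
    have h2 : δ ≤ (lo : ℝ) - u + ((hi : ℝ) - lo) := by linarith only [Nat.le_ceil (u + δ)]
    calc (1 / 8 : ℝ) ≤ 1 / 4 := by norm_num
      _ = (p / M : ℝ) * δ := (kappa_mul hp hM).symm
      _ ≤ _ := by gcongr
  · intro j hj
    have h1 : ((lo + j : ℕ) : ℝ) < u + δ := by
      apply Nat.lt_ceil.1
      omega
    push_cast at h1
    rw [← kappa_mul hp hM]
    gcongr
    linarith only [h1]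
  · intro j _
    rw [sl_eq]
    push_cast
    rw [hu]
    ring
  · intro φ
    rw [Finset.sum_Ico_eq_sum_range]

theorem left_piece_long (hp : 0 < p) (hM : 4 * p ≤ M) {r : ℤ}
    (h0 : 0 ≤ sig p M r - sl n M 0 - (M : ℝ) / (4 * p))
    (h1 : sig p M r - sl n M 0 ≤ B) :
    IsPiece p n M r ((Finset.range B).filter (fun l => -((M : ℝ) / (4 * p)) ≤ sl n M l - sig p M r ∧
      sl n M l - sig p M r < 0)) 1 (1 / 8) := by
  have hM0 : 0 < M := by omega
  have hp' : (0 : ℝ) < p := by exact_mod_cast hp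
  have hM' : (0 : ℝ) < M := by exact_mod_cast hM0
  rw [left_set]
  set u := sig p M r - sl n M 0 with hu
  set δ := (M : ℝ) / (4 * p) with hδ
  have hδ0 : 1 ≤ δ := by
    rw [hδ, le_div_iff₀ (by positivity), one_mul]
    exact_mod_cast hM
  set lo := ⌈u - δ⌉₊ with hlo
  have hhi : min ⌈u⌉₊ B = ⌈u⌉₊ := min_eq_left (Nat.ceil_le.2 h1)
  rw [hhi]
  set hi := ⌈u⌉₊ with hhi2
  have hu0 : 1 ≤ u := by linarith only [h0, hδ0]
  have hlo1 := Nat.ceil_lt_add_one h0
  have hhi0 := Nat.le_ceil u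
  have hlt : lo < hi := by
    have : (lo : ℝ) < hi := by linarith only [hδ0, hlo1, hhi0]
    exact_mod_cast this
  have hhi1 : ((hi - 1 : ℕ) : ℝ) < u := by
    apply Nat.lt_ceil.1
    omega
  have hcast : ((hi - 1 : ℕ) : ℝ) = hi - 1 := by
    rw [Nat.cast_sub (by omega)]; simp
  rw [hcast] at hhi1
  refine ⟨hi - lo, u - (hi - 1), -1, fun j => lo + (hi - lo - 1 - j), Or.inr rfl, by linarith,
    by linarith only [hhi0], ?_, ?_, ?_, ?_⟩
  · rw [Nat.cast_sub hlt.le]
    have h2 : δ ≤ u - ((hi : ℝ) - 1) + ((hi : ℝ) - lo) := by linarith only [hlo1]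
    calc (1 / 8 : ℝ) ≤ 1 / 4 := by norm_num
      _ = (p / M : ℝ) * δ := (kappa_mul hp hM0).symm
      _ ≤ _ := by gcongr
  · intro j hj
    have h1 : u - δ ≤ lo := Nat.le_ceil _
    have h2 : (lo : ℝ) + (j + 1) ≤ hi := by
      have : lo + (j + 1) ≤ hi := by omega
      exact_mod_cast this
    rw [← kappa_mul hp hM0]
    gcongr
    linarith only [h1, h2]
  · intro j hj
    rw [sl_eq]
    have h1 : ((lo + (hi - lo - 1 - j) : ℕ) : ℝ) = hi - 1 - j := by
      have : lo + (hi - lo - 1 - j) + (j + 1) = hi := by omega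
      have h2 : ((lo + (hi - lo - 1 - j) + (j + 1) : ℕ) : ℝ) = hi := by rw [this]
      push_cast at h2 ⊢
      linarith only [h2]
    rw [h1, hu]
    ring
  · intro φ
    rw [Finset.sum_Ico_eq_sum_range]
    rw [← Finset.sum_range_reflect]

theorem tix_even (hp : 0 < p) (hM : 0 < M) (r : ℤ) (l : ℕ) :
    tix p n M l = 2 * r ↔ 0 ≤ sl n M l - sig p M r ∧ sl n M l - sig p M r < (M : ℝ) / (4 * p) := by
  have hp' : (0 : ℝ) < p := by exact_mod_cast hp
  have hM' : (0 : ℝ) < M := by exact_mod_cast hM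
  unfold tix
  rw [Int.floor_eq_iff, le_div_iff₀ hM', div_lt_iff₀ hM']
  have h1 : sig p M r * (4 * p) = ((2 * r : ℤ) : ℝ) * M := by
    unfold sig; push_cast; field_simp; ring
  rw [← h1, add_mul, ← h1, one_mul, lt_div_iff₀ (by positivity)]
  constructor
  · rintro ⟨h2, h3⟩
    constructor
    · have : 0 ≤ (sl n M l - sig p M r) * (4 * p) := by linarith
      exact nonneg_of_mul_nonneg_left this (by positivity)
    · linarith
  · rintro ⟨h2, h3⟩
    constructor
    · have : 0 ≤ (sl n M l - sig p M r) * (4 * p) := by positivity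
      linarith
    · linarith

theorem tix_odd (hp : 0 < p) (hM : 0 < M) (r : ℤ) (l : ℕ) :
    tix p n M l = 2 * r - 1 ↔
      -((M : ℝ) / (4 * p)) ≤ sl n M l - sig p M r ∧ sl n M l - sig p M r < 0 := by
  have hp' : (0 : ℝ) < p := by exact_mod_cast hp
  have hM' : (0 : ℝ) < M := by exact_mod_cast hM
  unfold tix
  rw [Int.floor_eq_iff, le_div_iff₀ hM', div_lt_iff₀ hM']
  have h1 : sig p M r * (4 * p) = ((2 * r : ℤ) : ℝ) * M := by
    unfold sig; push_cast; field_simp; ring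
  have h2 : ((2 * r - 1 : ℤ) : ℝ) * M = sig p M r * (4 * p) - M := by
    rw [h1]; push_cast; ring
  have h3 : (((2 * r - 1 : ℤ) : ℝ) + 1) * M = sig p M r * (4 * p) := by
    rw [h1]; push_cast; ring
  rw [h2, h3, neg_le_iff_add_nonneg, ← sub_nonneg]
  have h4 : 4 * p * sl n M l - (sig p M r * (4 * p) - M)
      = (sl n M l - sig p M r + (M : ℝ) / (4 * p)) * (4 * p) := by
    field_simp
    ring
  rw [h4]
  constructor
  · rintro ⟨h5, h6⟩
    constructor
    · exact nonneg_of_mul_nonneg_left h5 (by positivity)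
    · have : (sl n M l - sig p M r) * (4 * p) < 0 := by linarith only [h6]
      exact neg_of_mul_neg_left this (by positivity)
  · rintro ⟨h5, h6⟩
    constructor
    · positivity
    · have : (sl n M l - sig p M r) * (4 * p) < 0 := mul_neg_of_neg_of_pos h6 (by positivity)
      linarith only [this]

/-- the stationary point of a piece -/
def rix (t : ℤ) : ℤ := (t + 1) / 2

theorem piece_all (hp : 0 < p) (hn : 1 ≤ n) (hM : 0 < M) (hB : M ≤ B + n) {t : ℤ}
    (ht : t ∈ Finset.Icc (-(2 * p : ℤ)) (2 * p)) :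
    IsPiece p n M (rix t) ((Finset.range B).filter (fun l => tix p n M l = t)) (n + 1) 0 := by
  rw [Finset.mem_Icc] at ht
  rcases Int.even_or_odd' t with ⟨r, hr | hr⟩
  · have h1 : rix t = r := by unfold rix; omega
    rw [h1]
    have h2 : (Finset.range B).filter (fun l => tix p n M l = t)
        = (Finset.range B).filter (fun l => 0 ≤ sl n M l - sig p M r ∧
      sl n M l - sig p M r < (M : ℝ) / (4 * p)) := by
      apply Finset.filter_congr
      intro l _
      rw [hr]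
      exact tix_even hp hM r l
    rw [h2]
    exact right_piece hp hn hM (by omega)
  · have h1 : rix t = r + 1 := by unfold rix; omega
    rw [h1]
    have h2 : (Finset.range B).filter (fun l => tix p n M l = t)
        = (Finset.range B).filter (fun l => -((M : ℝ) / (4 * p)) ≤ sl n M l - sig p M (r + 1) ∧
      sl n M l - sig p M (r + 1) < 0) := by
      apply Finset.filter_congr
      intro l _
      rw [hr, show 2 * r + 1 = 2 * (r + 1) - 1 by ring]
      exact tix_odd hp hM (r + 1) l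
    rw [h2]
    exact left_piece hp hn hM (by omega) hB

theorem piece_long (hp : 2 ≤ p) (hn : 1 ≤ n) (hM : 8 * n + 4 * p + 16 ≤ M) (hB : M ≤ B + n) {t : ℤ}
    (ht : rix t = 1 ∨ rix t = -1) :
    IsPiece p n M (rix t) ((Finset.range B).filter (fun l => tix p n M l = t)) 1 (1 / 8) := by
  have hp0 : 0 < p := by omega
  have hM0 : 0 < M := by omega
  have hp' : (2 : ℝ) ≤ p := by exact_mod_cast hp
  have hM' : 8 * (n : ℝ) + 4 * p + 16 ≤ M := by exact_mod_cast hM
  have hn' : (1 : ℝ) ≤ n := by exact_mod_cast hn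
  have hB' : (M : ℝ) ≤ B + n := by exact_mod_cast hB
  -- bounds for the position
  have hδ : (M : ℝ) / (4 * p) ≤ M / 8 := by
    apply div_le_div_of_nonneg_left (by positivity) (by norm_num)
    linarith only [hp']
  have hsig : ∀ r : ℤ, (r = 1 ∨ r = -1) → |sig p M r| ≤ (M : ℝ) / 4 := by
    intro r hr
    have h1 : |sig p M r| = (M : ℝ) / (2 * p) := by
      unfold sig
      rcases hr with rfl | rfl
      · push_cast
        rw [one_mul, abs_of_nonneg (by positivity)]
      · push_cast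
        rw [neg_one_mul, neg_div, abs_neg, abs_of_nonneg (by positivity)]
    rw [h1]
    apply div_le_div_of_nonneg_left (by positivity) (by norm_num)
    linarith only [hp']
  have hlow : ∀ r : ℤ, (r = 1 ∨ r = -1) → 0 ≤ sig p M r - sl n M 0 - (M : ℝ) / (4 * p) := by
    intro r hr
    have := (abs_le.1 (hsig r hr)).1
    unfold sl
    push_cast
    linarith
  have hupp : ∀ r : ℤ, (r = 1 ∨ r = -1) → sig p M r - sl n M 0 + (M : ℝ) / (4 * p) ≤ B := by
    intro r hr
    have := (abs_le.1 (hsig r hr)).2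
    unfold sl
    push_cast
    linarith only [hM', hB', hδ, this]
  have hδ0 : 0 ≤ (M : ℝ) / (4 * p) := by positivity
  rcases Int.even_or_odd' t with ⟨r, hr | hr⟩
  · have h1 : rix t = r := by unfold rix; omega
    rw [h1] at ht ⊢
    have h2 : (Finset.range B).filter (fun l => tix p n M l = t)
        = (Finset.range B).filter (fun l => 0 ≤ sl n M l - sig p M r ∧
      sl n M l - sig p M r < (M : ℝ) / (4 * p)) := by
      apply Finset.filter_congr
      intro l _
      rw [hr]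
      exact tix_even hp0 hM0 r l
    rw [h2]
    exact right_piece_long hp0 hM0 (by linarith only [hlow, hδ0, hlow r ht]) (hupp r ht)
  · have h1 : rix t = r + 1 := by unfold rix; omega
    rw [h1] at ht ⊢
    have h2 : (Finset.range B).filter (fun l => tix p n M l = t)
        = (Finset.range B).filter (fun l => -((M : ℝ) / (4 * p)) ≤ sl n M l - sig p M (r + 1) ∧
      sl n M l - sig p M (r + 1) < 0) := by
      apply Finset.filter_congr
      intro l _
      rw [hr, show 2 * r + 1 = 2 * (r + 1) - 1 by ring]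
      exact tix_odd hp0 hM0 (r + 1) l
    rw [h2]
    exact left_piece_long hp0 (by omega) (hlow _ ht) (by linarith only [hδ0, hupp _ ht])

theorem cover (hp : 0 < p) (hn : 1 ≤ n) (hM : 2 * p * n < M) (hB : B ≤ M + 1) {l : ℕ} (hl : l < B) :
    tix p n M l ∈ Finset.Icc (-(2 * p : ℤ)) (2 * p) := by
  have hM0 : 0 < M := by omega
  have hp' : (0 : ℝ) < p := by exact_mod_cast hp
  have hM' : (0 : ℝ) < M := by exact_mod_cast hM0
  have hn' : (1 : ℝ) ≤ n := by exact_mod_cast hn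
  have hMn : 2 * (p : ℝ) * n < M := by exact_mod_cast hM
  have hlM : (l : ℝ) ≤ M := by exact_mod_cast (by omega : l ≤ M)
  rw [Finset.mem_Icc]
  unfold tix
  constructor
  · rw [Int.le_floor, le_div_iff₀ hM']
    push_cast
    have h1 : -((M : ℝ) / 2) ≤ sl n M l := by
      unfold sl
      have : (0 : ℝ) ≤ l := Nat.cast_nonneg l
      linarith only [hn']
    nlinarith only [h1]
  · rw [← Int.lt_add_one_iff, Int.floor_lt, div_lt_iff₀ hM']
    push_cast
    have h1 : sl n M l ≤ (M : ℝ) / 2 + (n - 1) / 2 := by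
      unfold sl
      linarith only [hlM]
    have h2 : 4 * (p : ℝ) * sl n M l ≤ 4 * p * ((M : ℝ) / 2 + (n - 1) / 2) := by gcongr
    nlinarith only [hMn, h2]

/-- Splitting a sum into the pieces. -/
theorem sum_pieces (hp : 0 < p) (hn : 1 ≤ n) (hM : 2 * p * n < M) (hB : B ≤ M + 1) (φ : ℕ → ℂ) :
    ∑ l ∈ Finset.range B, φ l = ∑ t ∈ Finset.Icc (-(2 * p : ℤ)) (2 * p),
      ∑ l ∈ (Finset.range B).filter (fun l => tix p n M l = t), φ l := by
  symm
  apply Finset.sum_fiberwise_of_maps_to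
  intro l hl
  rw [Finset.mem_range] at hl
  exact cover hp hn hM hB hl

end

end Pool.Agent.H63.VC.EndB

/-! ## The quadratic exponential sums with smooth weights -/

namespace Pool.Agent.H63.VC.EndB

open Real

/-- the phase factor -/
noncomputable def Eph (p n M l : ℕ) : ℂ := ee (p * l * (l + n - 1) / M)

/-- the constant phase near a stationary point -/
noncomputable def cst (p n M : ℕ) (r : ℤ) : ℂ :=
  ee (r * sl n M 0 - r ^ 2 * M / (4 * p) - p / M * (sl n M 0) ^ 2)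

theorem norm_Eph (p n M l : ℕ) : ‖Eph p n M l‖ = 1 := norm_ee _

theorem norm_cst (p n M : ℕ) (r : ℤ) : ‖cst p n M r‖ = 1 := norm_ee _

section

variable {p n M B : ℕ}

theorem Eph_eq (hp : 0 < p) (hM : 0 < M) (r : ℤ) (l : ℕ) :
    Eph p n M l = cst p n M r * ee (p / M * (sl n M l - sig p M r) ^ 2) := by
  have hp' : (p : ℝ) ≠ 0 := by positivity
  have hM' : (M : ℝ) ≠ 0 := by positivity
  unfold Eph cst
  rw [← ee_add]
  have h : (p : ℝ) * l * (l + n - 1) / M
      = (r * sl n M 0 - r ^ 2 * M / (4 * p) - p / M * (sl n M 0) ^ 2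
        + p / M * (sl n M l - sig p M r) ^ 2) + (((r + p) * l : ℤ) : ℝ) := by
    unfold sl sig
    push_cast
    field_simp
    ring
  rw [h, ee_add _ (((r + p) * l : ℤ) : ℝ), ee_int, mul_one]

theorem cst_symm : cst p n M (-1) = cst p n M 1 := by
  unfold cst
  have h : (((1 : ℤ) : ℝ) * sl n M 0 - ((1 : ℤ) : ℝ) ^ 2 * M / (4 * p) - p / M * (sl n M 0) ^ 2)
      = (((-1 : ℤ) : ℝ) * sl n M 0 - ((-1 : ℤ) : ℝ) ^ 2 * M / (4 * p) - p / M * (sl n M 0) ^ 2)
        + (((n : ℤ) - 1 - M : ℤ) : ℝ) := by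
    unfold sl
    push_cast
    ring
  rw [h, ee_add _ (((n : ℤ) - 1 - M : ℤ) : ℝ), ee_int, mul_one]

theorem sig_le (hp : 0 < p) {r : ℤ} (hr : |r| ≤ p) : |sig p M r| ≤ (M : ℝ) / 2 := by
  have hp' : (0 : ℝ) < p := by exact_mod_cast hp
  have hr' : |(r : ℝ)| ≤ p := by exact_mod_cast hr
  unfold sig
  rw [abs_div, abs_mul, abs_of_nonneg (Nat.cast_nonneg M : (0 : ℝ) ≤ M),
    abs_of_pos (by positivity : (0 : ℝ) < 2 * p), div_le_iff₀ (by positivity)]
  have : (0 : ℝ) ≤ M := Nat.cast_nonneg M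
  nlinarith only [hr']

theorem piece_sum (hp : 0 < p) (hM : 0 < M) {r : ℤ} {A : Finset ℕ} {J : ℕ} {x0 ε : ℝ}
    {ell : ℕ → ℕ} (hε : ε = 1 ∨ ε = -1)
    (hs : ∀ j < J, sl n M (ell j) = sig p M r + ε * (x0 + j))
    (hsum : ∀ φ : ℕ → ℂ, ∑ l ∈ A, φ l = ∑ j ∈ Finset.range J, φ (ell j)) (Φ : ℝ → ℂ) :
    ∑ l ∈ A, Φ (sl n M l) * Eph p n M l
      = cst p n M r * ∑ j ∈ Finset.range J, Φ (sig p M r + ε * (x0 + j)) * qq (p / M) x0 j := by
  rw [hsum (fun l => Φ (sl n M l) * Eph p n M l), Finset.mul_sum]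
  apply Finset.sum_congr rfl
  intro j hj
  rw [Finset.mem_range] at hj
  rw [Eph_eq hp hM r, hs j hj]
  unfold qq
  have h2 : (sig p M r + ε * (x0 + j) - sig p M r) ^ 2 = (x0 + j) ^ 2 := by
    rcases hε with rfl | rfl <;> ring
  rw [h2]
  ring

/-- weight functions -/
def IsWeight (p M : ℕ) (Φ : ℝ → ℂ) (lam : ℝ) : Prop :=
  (∀ s : ℝ, |s| ≤ M → ‖Φ s‖ ≤ lam) ∧
  ∀ s s' : ℝ, |s| ≤ M → |s'| ≤ M → ‖Φ s - Φ s'‖ ≤ lam * (p / M) * |s - s'|

theorem in_range (hp : 0 < p) (hM : 0 < M) {r : ℤ} (hr : |r| ≤ p) {ε y : ℝ}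
    (hε : ε = 1 ∨ ε = -1) (hy0 : 0 ≤ y) (hy : (p / M : ℝ) * y ≤ 1 / 4) :
    |sig p M r + ε * y| ≤ M := by
  have hp' : (1 : ℝ) ≤ p := by exact_mod_cast hp
  have hM' : (0 : ℝ) < M := by exact_mod_cast hM
  have h1 := sig_le (M := M) hp hr
  have h2 : y ≤ (M : ℝ) / 4 := by
    have h3 : (1 / M : ℝ) * y ≤ 1 / 4 := by
      refine le_trans ?_ hy
      gcongr
    calc y = M * ((1 / M : ℝ) * y) := by field_simp
      _ ≤ M * (1 / 4) := by gcongr
      _ = _ := by ring
  have h3 : |ε * y| = y := by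
    rcases hε with rfl | rfl
    · rw [one_mul, abs_of_nonneg hy0]
    · rw [neg_one_mul, abs_neg, abs_of_nonneg hy0]
  have h4 := abs_add_le (sig p M r) (ε * y)
  rw [h3] at h4
  linarith only [h1, h2, h4]

theorem piece_upper (hp : 0 < p) (hM : p ≤ M) {r : ℤ} (hr : |r| ≤ p) {A : Finset ℕ} {X L : ℝ}
    (hA : IsPiece p n M r A X L) {Φ : ℝ → ℂ} {lam : ℝ} (hΦ : IsWeight p M Φ lam) (hlam : 0 ≤ lam) :
    ‖∑ l ∈ A, Φ (sl n M l) * Eph p n M l‖ ≤ 6 * lam / √(p / M) := by
  have hM0 : 0 < M := by omega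
  have hp' : (0 : ℝ) < p := by exact_mod_cast hp
  have hM' : (0 : ℝ) < M := by exact_mod_cast hM0
  obtain ⟨J, x0, ε, ell, hε, hx0, -, -, hJ, hs, hsum⟩ := hA
  rw [piece_sum hp hM0 hε hs hsum, norm_mul, norm_cst, one_mul]
  rcases Nat.eq_zero_or_pos J with h0 | h0
  · subst h0
    simp only [Finset.range_zero, Finset.sum_empty, norm_zero]
    positivity
  have hκ1 : (p / M : ℝ) ≤ 1 := by
    rw [div_le_one hM']; exact_mod_cast hM
  have hr' : ∀ j < J, |sig p M r + ε * (x0 + j)| ≤ M := fun j hj =>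
    in_range hp hM0 hr hε (by positivity) (hJ j hj)
  apply weight_le (g := fun j : ℕ => Φ (sig p M r + ε * (x0 + j))) (by positivity) hκ1 hx0 hJ hlam
  · exact hΦ.1 _ (hr' 0 h0)
  · intro j hj
    refine (hΦ.2 _ _ (hr' (j + 1) hj) (hr' j (by omega))).trans (le_of_eq ?_)
    have : |sig p M r + ε * (x0 + (j + 1 : ℕ)) - (sig p M r + ε * (x0 + j))| = 1 := by
      push_cast
      rcases hε with rfl | rfl
      · rw [show sig p M r + 1 * (x0 + ((j : ℝ) + 1)) - (sig p M r + 1 * (x0 + j)) = 1 by ring]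
        exact abs_one
      · rw [show sig p M r + -1 * (x0 + ((j : ℝ) + 1)) - (sig p M r + -1 * (x0 + j)) = -1 by ring]
        rw [abs_neg, abs_one]
    rw [this, mul_one]

theorem piece_small (hp : 0 < p) (hM : p + 2 ≤ M) {r : ℤ} (hr : |r| ≤ p) {A : Finset ℕ} {L : ℝ}
    (hA : IsPiece p n M r A (n + 1) L) {Φ : ℝ → ℂ} {lam : ℝ} (hΦ : IsWeight p M Φ lam)
    (hlam : 0 ≤ lam) :
    ‖∑ l ∈ A, Φ (sl n M l) * Eph p n M l - Φ (sig p M r) * ∑ l ∈ A, Eph p n M l‖
      ≤ lam * (n + 1) * (3 + Real.log M) := by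
  have hM0 : 0 < M := by omega
  have hp' : (0 : ℝ) < p := by exact_mod_cast hp
  have hp1 : (1 : ℝ) ≤ p := by exact_mod_cast hp
  have hM' : (0 : ℝ) < M := by exact_mod_cast hM0
  have hM2 : (2 : ℝ) ≤ M := by exact_mod_cast (by omega : 2 ≤ M)
  have h1 : ∑ l ∈ A, Φ (sl n M l) * Eph p n M l - Φ (sig p M r) * ∑ l ∈ A, Eph p n M l
      = ∑ l ∈ A, (fun s => Φ s - Φ (sig p M r)) (sl n M l) * Eph p n M l := by
    rw [Finset.mul_sum, ← Finset.sum_sub_distrib]
    apply Finset.sum_congr rfl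
    intro l _
    ring
  rw [h1]
  obtain ⟨J, x0, ε, ell, hε, hx0, hx1, -, hJ, hs, hsum⟩ := hA
  rw [piece_sum hp hM0 hε hs hsum (fun s => Φ s - Φ (sig p M r)), norm_mul, norm_cst, one_mul]
  rcases Nat.eq_zero_or_pos J with h0 | h0
  · subst h0
    simp only [Finset.range_zero, Finset.sum_empty, norm_zero]
    have : 0 ≤ Real.log M := Real.log_natCast_nonneg M
    positivity
  have hκ1 : (p / M : ℝ) ≤ 1 := by
    rw [div_le_one hM']; exact_mod_cast (by omega : p ≤ M)
  have hr' : ∀ j < J, |sig p M r + ε * (x0 + j)| ≤ M := fun j hj =>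
    in_range hp hM0 hr hε (by positivity) (hJ j hj)
  have hσ : |sig p M r| ≤ M := by
    have := sig_le (M := M) hp hr
    linarith only [this]
  have hJM : J ≤ M := by
    have h2 := hJ (J - 1) (by omega)
    have h3 : ((J - 1 : ℕ) : ℝ) = J - 1 := by rw [Nat.cast_sub (by omega)]; simp
    rw [h3] at h2
    have h4 : (1 / M : ℝ) * (x0 + (J - 1)) ≤ 1 / 4 := by
      refine le_trans ?_ h2
      have : 0 ≤ x0 + ((J : ℝ) - 1) := by
        have : (1 : ℝ) ≤ J := by exact_mod_cast h0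
        linarith
      gcongr
    have h5 : x0 + ((J : ℝ) - 1) ≤ (M : ℝ) / 4 := by
      calc x0 + ((J : ℝ) - 1) = M * ((1 / M : ℝ) * (x0 + (J - 1))) := by field_simp
        _ ≤ M * (1 / 4) := by gcongr
        _ = _ := by ring
    have h6 : (J : ℝ) ≤ M := by linarith only [hM2, hx0, h5]
    exact_mod_cast h6
  have hn1 : (1 : ℝ) ≤ n + 1 := by
    have : (0 : ℝ) ≤ n := Nat.cast_nonneg n
    linarith only []
  have h3 := weight_small (g := fun j : ℕ => Φ (sig p M r + ε * (x0 + j)) - Φ (sig p M r))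
    (lam := lam * (n + 1)) (κ := p / M) (by positivity) hκ1 hx0 hJ (by positivity) ?_ ?_
  · refine h3.trans ?_
    have : Real.log J ≤ Real.log M := by
      apply Real.log_le_log (by exact_mod_cast h0)
      exact_mod_cast hJM
    gcongr
  · refine (hΦ.2 _ _ (hr' 0 h0) hσ).trans ?_
    have : |sig p M r + ε * (x0 + (0 : ℕ)) - sig p M r| = x0 := by
      push_cast
      rcases hε with rfl | rfl
      · rw [show sig p M r + 1 * (x0 + 0) - sig p M r = x0 by ring, abs_of_nonneg hx0]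
      · rw [show sig p M r + -1 * (x0 + 0) - sig p M r = -x0 by ring, abs_neg, abs_of_nonneg hx0]
    rw [this]
    calc lam * (p / M) * x0 ≤ lam * (p / M) * (n + 1) := by gcongr
      _ = _ := by ring
  · intro j hj
    have e : Φ (sig p M r + ε * (x0 + (j + 1 : ℕ))) - Φ (sig p M r)
        - (Φ (sig p M r + ε * (x0 + j)) - Φ (sig p M r))
        = Φ (sig p M r + ε * (x0 + (j + 1 : ℕ))) - Φ (sig p M r + ε * (x0 + j)) := by ring
    show ‖Φ (sig p M r + ε * (x0 + (j + 1 : ℕ))) - Φ (sig p M r)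
        - (Φ (sig p M r + ε * (x0 + j)) - Φ (sig p M r))‖ ≤ _
    rw [e]
    refine (hΦ.2 _ _ (hr' (j + 1) hj) (hr' j (by omega))).trans ?_
    have : |sig p M r + ε * (x0 + (j + 1 : ℕ)) - (sig p M r + ε * (x0 + j))| = 1 := by
      push_cast
      rcases hε with rfl | rfl
      · rw [show sig p M r + 1 * (x0 + ((j : ℝ) + 1)) - (sig p M r + 1 * (x0 + j)) = 1 by ring]
        exact abs_one
      · rw [show sig p M r + -1 * (x0 + ((j : ℝ) + 1)) - (sig p M r + -1 * (x0 + j)) = -1 by ring]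
        rw [abs_neg, abs_one]
    rw [this, mul_one]
    have h4 : 0 ≤ lam * (p / M) := by positivity
    calc lam * (p / M) = lam * (p / M) * 1 := (mul_one _).symm
      _ ≤ lam * (p / M) * (n + 1) := by gcongr
      _ = _ := by ring

theorem piece_lower (hp : 0 < p) (hM : 1024 * p ≤ M) {r : ℤ} {A : Finset ℕ}
    (hA : IsPiece p n M r A 1 (1 / 8)) :
    1 / (20 * √(p / M)) ≤ (ee (-(1 / 8)) * (cst p n M r)⁻¹ * ∑ l ∈ A, Eph p n M l).re := by
  have hM0 : 0 < M := by omega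
  have hp' : (0 : ℝ) < p := by exact_mod_cast hp
  have hM' : (0 : ℝ) < M := by exact_mod_cast hM0
  obtain ⟨J, x0, ε, ell, hε, hx0, hx1, hL, hJ, hs, hsum⟩ := hA
  have h1 := piece_sum hp hM0 hε hs hsum (fun _ => 1)
  simp only [one_mul] at h1
  have hc : cst p n M r ≠ 0 := by
    intro h
    have := norm_cst p n M r
    rw [h, norm_zero] at this
    exact zero_ne_one this
  rw [h1, mul_assoc, inv_mul_cancel_left₀ hc]
  apply lower (by positivity) _ hx0 hx1 hJ hL
  rw [div_le_div_iff₀ hM' (by norm_num), one_mul]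
  have : ((1024 * p : ℕ) : ℝ) ≤ M := by exact_mod_cast hM
  push_cast at this
  linarith only [this]

theorem rix_abs {t : ℤ} (ht : t ∈ Finset.Icc (-(2 * p : ℤ)) (2 * p)) : |rix t| ≤ p := by
  rw [Finset.mem_Icc] at ht
  unfold rix
  rw [abs_le]
  constructor <;> omega

/-- Upper bound for the sum. -/
theorem main_upper (hp : 0 < p) (hn : 1 ≤ n) (hM : 2 * p * n + p < M) (hB1 : M ≤ B + n)
    (hB2 : B ≤ M + 1) {Φ : ℝ → ℂ} {lam : ℝ} (hΦ : IsWeight p M Φ lam) (hlam : 0 ≤ lam) :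
    ‖∑ l ∈ Finset.range B, Φ (sl n M l) * Eph p n M l‖ ≤ (4 * p + 1) * (6 * lam / √(p / M)) := by
  rw [sum_pieces hp hn (by omega) hB2]
  refine (norm_sum_le _ _).trans ?_
  have hcard : ((Finset.Icc (-(2 * p : ℤ)) (2 * p)).card : ℝ) = 4 * p + 1 := by
    rw [Int.card_Icc]
    have : ((2 * (p : ℤ) + 1 - -(2 * (p : ℤ))).toNat : ℤ) = 4 * p + 1 := by
      rw [Int.toNat_of_nonneg (by omega)]; ring
    exact_mod_cast this
  calc ∑ t ∈ Finset.Icc (-(2 * p : ℤ)) (2 * p),
        ‖∑ l ∈ (Finset.range B).filter (fun l => tix p n M l = t), Φ (sl n M l) * Eph p n M l‖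
      ≤ ∑ _t ∈ Finset.Icc (-(2 * p : ℤ)) (2 * p), 6 * lam / √(p / M) := by
        apply Finset.sum_le_sum
        intro t ht
        exact piece_upper hp (by omega) (rix_abs ht) (piece_all hp hn (by omega) hB1 ht) hΦ hlam
    _ = _ := by rw [Finset.sum_const, nsmul_eq_mul, hcard]

/-- Lower bound for the sum. -/
theorem main_lower (hp : 2 ≤ p) (hn : 1 ≤ n) (hM : 2 * p * n + 1024 * p + 8 * n + 16 ≤ M)
    (hB1 : M ≤ B + n) (hB2 : B ≤ M + 1) {Φ : ℝ → ℂ} {lam F : ℝ} (hΦ : IsWeight p M Φ lam)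
    (hlam : 0 ≤ lam) (hF : 0 ≤ F) (h1 : Φ (sig p M 1) = F) (h2 : Φ (sig p M (-1)) = F)
    (h3 : ∀ r : ℤ, |r| ≤ p → r ≠ 1 → r ≠ -1 → Φ (sig p M r) = 0) :
    F * (1 / (20 * √(p / M))) - (4 * p + 1) * (lam * (n + 1) * (3 + Real.log M))
      ≤ ‖∑ l ∈ Finset.range B, Φ (sl n M l) * Eph p n M l‖ := by
  have hp0 : 0 < p := by omega
  have hM0 : 0 < M := by omega
  have hp' : (0 : ℝ) < p := by exact_mod_cast hp0
  have hM' : (0 : ℝ) < M := by exact_mod_cast hM0
  set ω : ℂ := ee (-(1 / 8)) * (cst p n M 1)⁻¹ with hω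
  have hωn : ‖ω‖ = 1 := by rw [hω, norm_mul, norm_ee, norm_inv, norm_cst]; norm_num
  set S := ∑ l ∈ Finset.range B, Φ (sl n M l) * Eph p n M l with hS
  have hnorm : (ω * S).re ≤ ‖S‖ := by
    have := Complex.re_le_norm (ω * S)
    rwa [norm_mul, hωn, one_mul] at this
  refine le_trans ?_ hnorm
  set T := Finset.Icc (-(2 * p : ℤ)) (2 * p) with hT
  set A : ℤ → Finset ℕ := fun t => (Finset.range B).filter (fun l => tix p n M l = t) with hA
  have hSsum : S = ∑ t ∈ T, ∑ l ∈ A t, Φ (sl n M l) * Eph p n M l :=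
    sum_pieces hp0 hn (by omega) hB2 _
  have hcard : (T.card : ℝ) = 4 * p + 1 := by
    rw [hT, Int.card_Icc]
    have : ((2 * (p : ℤ) + 1 - -(2 * (p : ℤ))).toNat : ℤ) = 4 * p + 1 := by
      rw [Int.toNat_of_nonneg (by omega)]; ring
    exact_mod_cast this
  have hsmall : ∀ t ∈ T, ‖∑ l ∈ A t, Φ (sl n M l) * Eph p n M l
      - Φ (sig p M (rix t)) * ∑ l ∈ A t, Eph p n M l‖ ≤ lam * (n + 1) * (3 + Real.log M) := by
    intro t ht
    exact piece_small hp0 (by omega) (rix_abs ht) (piece_all hp0 hn hM0 hB1 ht) hΦ hlam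
  -- each main term has a nonnegative real part
  have hmain : ∀ t ∈ T, (if rix t = 1 then F * (1 / (20 * √(p / M))) else 0)
      ≤ (ω * (Φ (sig p M (rix t)) * ∑ l ∈ A t, Eph p n M l)).re := by
    intro t ht
    by_cases ht1 : rix t = 1 ∨ rix t = -1
    · have hlong := piece_long hp hn (by omega) hB1 ht1
      have hlow := piece_lower hp0 (by omega) hlong
      have hcst : cst p n M (rix t) = cst p n M 1 := by
        rcases ht1 with h | h
        · rw [h]
        · rw [h]; exact cst_symm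
      have hΦt : Φ (sig p M (rix t)) = F := by
        rcases ht1 with h | h
        · rw [h]; exact h1
        · rw [h]; exact h2
      rw [hcst] at hlow
      rw [hΦt]
      have e : ω * ((F : ℂ) * ∑ l ∈ A t, Eph p n M l)
          = (F : ℂ) * (ω * ∑ l ∈ A t, Eph p n M l) := by ring
      rw [e, Complex.re_ofReal_mul]
      have h0 : 0 ≤ 1 / (20 * √((p : ℝ) / M)) := by positivity
      have h4 : F * (1 / (20 * √(p / M))) ≤ F * (ω * ∑ l ∈ A t, Eph p n M l).re :=
        mul_le_mul_of_nonneg_left hlow hF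
      split_ifs
      · exact h4
      · exact le_trans (by positivity) h4
    · rw [not_or] at ht1
      rw [if_neg ht1.1, h3 _ (rix_abs ht) ht1.1 ht1.2]
      simp
  have hterm : ∀ t ∈ T, (if rix t = 1 then F * (1 / (20 * √(p / M))) else 0)
      - lam * (n + 1) * (3 + Real.log M) ≤ (ω * ∑ l ∈ A t, Φ (sl n M l) * Eph p n M l).re := by
    intro t ht
    have e1 := hmain t ht
    have e2 := hsmall t ht
    set Y := ∑ l ∈ A t, Φ (sl n M l) * Eph p n M l
    set Z := Φ (sig p M (rix t)) * ∑ l ∈ A t, Eph p n M l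
    have e3 : ω * Y = ω * Z + ω * (Y - Z) := by ring
    rw [e3, Complex.add_re]
    have e4 := Complex.abs_re_le_norm (ω * (Y - Z))
    rw [norm_mul, hωn, one_mul] at e4
    have e5 := (abs_le.1 e4).1
    linarith only [e1, e2, e5]
  rw [hSsum, Finset.mul_sum, Complex.re_sum]
  refine le_trans ?_ (Finset.sum_le_sum hterm)
  rw [Finset.sum_sub_distrib, Finset.sum_const, nsmul_eq_mul, hcard]
  have h2T : (2 : ℤ) ∈ T := by
    rw [hT, Finset.mem_Icc]
    omega
  have h5 : F * (1 / (20 * √(p / M)))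
      ≤ ∑ t ∈ T, if rix t = 1 then F * (1 / (20 * √(p / M))) else 0 := by
    have := Finset.single_le_sum
      (f := fun t => if rix t = 1 then F * (1 / (20 * √((p : ℝ) / M))) else 0)
      (fun t _ => by
        show 0 ≤ if rix t = 1 then F * (1 / (20 * √((p : ℝ) / M))) else 0
        split_ifs
        · positivity
        · exact le_rfl) h2T
    refine le_trans (le_of_eq ?_) this
    show _ = if rix 2 = 1 then _ else _
    rw [if_pos (by unfold rix; norm_num)]
  linarith only [h5]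

end

end Pool.Agent.H63.VC.EndB

/-! ## The trigonometric weights -/

namespace Pool.Agent.H63.VC.EndB

open Real

/-- weight from a `C¹` function -/
theorem exists_weight {φ : ℝ → ℝ} (hφ : ContDiff ℝ 1 φ) : ∃ lam : ℝ, 0 ≤ lam ∧
    ∀ p M : ℕ, 0 < p → 0 < M → IsWeight p M (fun s => (φ (2 * π * s / M) : ℂ)) lam := by
  have hc : IsCompact (Set.Icc (-(2 * π)) (2 * π)) := isCompact_Icc
  obtain ⟨C0, hC0⟩ := hc.exists_bound_of_continuousOn hφ.continuous.continuousOn
  obtain ⟨C1, hC1⟩ := hc.exists_bound_of_continuousOn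
    (hφ.continuous_deriv le_rfl).continuousOn
  have hpi := Real.pi_pos
  have h0 : (0 : ℝ) ∈ Set.Icc (-(2 * π)) (2 * π) := ⟨by linarith, by linarith⟩
  have hC0' : 0 ≤ C0 := (norm_nonneg _).trans (hC0 0 h0)
  have hC1' : 0 ≤ C1 := (norm_nonneg _).trans (hC1 0 h0)
  refine ⟨C0 + 2 * π * C1, by positivity, fun p M hp hM => ?_⟩
  have hp' : (1 : ℝ) ≤ p := by exact_mod_cast hp
  have hM' : (0 : ℝ) < M := by exact_mod_cast hM
  have hmem : ∀ s : ℝ, |s| ≤ M → 2 * π * s / M ∈ Set.Icc (-(2 * π)) (2 * π) := by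
    intro s hs
    rw [abs_le] at hs
    constructor
    · rw [le_div_iff₀ hM']; nlinarith only [hpi, hs.1]
    · rw [div_le_iff₀ hM']; nlinarith only [hpi, hs.2]
  constructor
  · intro s hs
    rw [Complex.norm_real]
    refine (hC0 _ (hmem s hs)).trans ?_
    have : 0 ≤ 2 * π * C1 := by positivity
    linarith
  · intro s s' hs hs'
    rw [← Complex.ofReal_sub, Complex.norm_real]
    have h1 := Convex.norm_image_sub_le_of_norm_deriv_le (f := φ) (C := C1)
      (fun x _ => (hφ.differentiable one_ne_zero) x) hC1 (convex_Icc _ _) (hmem s' hs') (hmem s hs)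
    refine h1.trans ?_
    have h2 : ‖2 * π * s / M - 2 * π * s' / M‖ = 2 * π * (1 / M) * |s - s'| := by
      rw [show 2 * π * s / M - 2 * π * s' / M = 2 * π * (1 / M) * (s - s') by ring, norm_mul,
        Real.norm_of_nonneg (by positivity), Real.norm_eq_abs]
    rw [h2]
    calc C1 * (2 * π * (1 / M) * |s - s'|) = 2 * π * C1 * (1 / M) * |s - s'| := by ring
      _ ≤ (C0 + 2 * π * C1) * (p / M) * |s - s'| := by gcongr; linarith only [hC0']

/-- the discrete sine kernel -/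
noncomputable def KK (p : ℕ) (η : ℝ) : ℝ :=
  ∑ m ∈ Finset.range p, Real.sin ((m + 1 / 2) * (π / p)) * Real.sin ((m + 1 / 2) * η)

theorem sin_add_sin (x η : ℝ) :
    Real.sin ((x + 1) * η) + Real.sin ((x - 1) * η) = 2 * Real.cos η * Real.sin (x * η) := by
  rw [add_mul, sub_mul, one_mul, Real.sin_add, Real.sin_sub]
  ring

theorem telescope (A η : ℝ) (p : ℕ) :
    2 * (Real.cos η - Real.cos A) * ∑ m ∈ Finset.range p,
      Real.sin ((m + 1 / 2) * A) * Real.sin ((m + 1 / 2) * η)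
      = Real.sin ((p - 1 / 2) * A) * Real.sin ((p + 1 / 2) * η)
        - Real.sin ((p + 1 / 2) * A) * Real.sin ((p - 1 / 2) * η) := by
  induction p with
  | zero =>
    simp only [Finset.range_zero, Finset.sum_empty, mul_zero, Nat.cast_zero, zero_add, zero_sub]
    rw [neg_mul, neg_mul, Real.sin_neg, Real.sin_neg]
    ring
  | succ p ih =>
    rw [Finset.sum_range_succ, mul_add, ih]
    have h1 := sin_add_sin (p + 1 / 2) η
    have h2 := sin_add_sin (p + 1 / 2) A
    rw [show (p : ℝ) + 1 / 2 + 1 = ((p + 1 : ℕ) : ℝ) + 1 / 2 by push_cast; ring,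
      show (p : ℝ) + 1 / 2 - 1 = p - 1 / 2 by ring] at h1 h2
    rw [show (((p + 1 : ℕ) : ℝ) - 1 / 2) = p + 1 / 2 by push_cast; ring]
    set a := Real.sin ((p + 1 / 2) * A)
    set b := Real.sin ((p + 1 / 2) * η)
    set a1 := Real.sin ((((p + 1 : ℕ) : ℝ) + 1 / 2) * A)
    set b1 := Real.sin ((((p + 1 : ℕ) : ℝ) + 1 / 2) * η)
    set a0 := Real.sin ((p - 1 / 2) * A)
    set b0 := Real.sin ((p - 1 / 2) * η)
    have e1 : b1 = 2 * Real.cos η * b - b0 := by linarith only [h1]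
    have e2 : a1 = 2 * Real.cos A * a - a0 := by linarith
    rw [e1, e2]
    ring

theorem KK_closed {p : ℕ} (hp : 0 < p) (η : ℝ) :
    (Real.cos η - Real.cos (π / p)) * KK p η
      = Real.sin (π / (2 * p)) * Real.sin (p * η) * Real.cos (η / 2) := by
  have hp' : (0 : ℝ) < p := by exact_mod_cast hp
  have h := telescope (π / p) η p
  have h1 : ((p : ℝ) - 1 / 2) * (π / p) = π - π / (2 * p) := by field_simp
  have h2 : ((p : ℝ) + 1 / 2) * (π / p) = π / (2 * p) + π := by field_simp; ring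
  rw [h1, h2, Real.sin_pi_sub, Real.sin_add_pi] at h
  have h3 : Real.sin (((p : ℝ) + 1 / 2) * η) + Real.sin (((p : ℝ) - 1 / 2) * η)
      = 2 * Real.sin (p * η) * Real.cos (η / 2) := by
    rw [show ((p : ℝ) + 1 / 2) * η = p * η + η / 2 by ring,
      show ((p : ℝ) - 1 / 2) * η = p * η - η / 2 by ring, Real.sin_add, Real.sin_sub]
    ring
  have h4 : 2 * (Real.cos η - Real.cos (π / p)) * KK p η
      = Real.sin (π / (2 * p)) * (Real.sin (((p : ℝ) + 1 / 2) * η)
        + Real.sin (((p : ℝ) - 1 / 2) * η)) := by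
    unfold KK
    rw [h]
    ring
  rw [h3] at h4
  linarith only [h4]

theorem KK_odd (p : ℕ) (η : ℝ) : KK p (-η) = -KK p η := by
  unfold KK
  rw [← Finset.sum_neg_distrib]
  apply Finset.sum_congr rfl
  intro m _
  rw [mul_neg, Real.sin_neg]
  ring

theorem KK_zero {p : ℕ} (hp : 0 < p) {r : ℤ} (hr : |r| ≤ p) (h1 : r ≠ 1) (h2 : r ≠ -1) :
    KK p (π * r / p) = 0 := by
  have hp' : (0 : ℝ) < p := by exact_mod_cast hp
  have hpi := Real.pi_pos
  have h := KK_closed hp (π * r / p)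
  have h3 : Real.sin (p * (π * r / p)) = 0 := by
    rw [show (p : ℝ) * (π * r / p) = r * π by field_simp]
    exact Real.sin_int_mul_pi r
  rw [h3, mul_zero, zero_mul] at h
  rcases mul_eq_zero.1 h with h4 | h4
  · exfalso
    have h5 : Real.cos (π * |(r : ℝ)| / p) = Real.cos (π / p) := by
      rw [← sub_eq_zero, ← h4]
      congr 1
      rw [← Real.cos_abs (π * r / p), abs_div, abs_mul, abs_of_pos hpi, abs_of_pos hp']
    have hr' : |(r : ℝ)| ≤ p := by exact_mod_cast hr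
    have h6 : π * |(r : ℝ)| / p = π / p := by
      apply Real.injOn_cos _ _ h5
      · constructor
        · positivity
        · rw [div_le_iff₀ hp']; nlinarith only [hpi, hr']
      · constructor
        · positivity
        · rw [div_le_iff₀ hp']
          have : (1 : ℝ) ≤ p := by exact_mod_cast hp
          nlinarith only [hpi, this]
    have h7 : |(r : ℝ)| = 1 := by
      field_simp at h6
      exact h6
    have h8 : |r| = 1 := by exact_mod_cast h7
    rcases (abs_eq (by norm_num : (0 : ℤ) ≤ 1)).1 h8 with h9 | h9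
    · exact h1 h9
    · exact h2 h9
  · exact h4

theorem KK_pos {p : ℕ} (hp : 0 < p) : 0 < KK p (π / p) := by
  have hp' : (0 : ℝ) < p := by exact_mod_cast hp
  have hpi := Real.pi_pos
  unfold KK
  apply Finset.sum_pos
  · intro m hm
    rw [Finset.mem_range] at hm
    have hm' : (m : ℝ) + 1 ≤ p := by exact_mod_cast hm
    have : 0 < Real.sin ((m + 1 / 2) * (π / p)) := by
      apply Real.sin_pos_of_pos_of_lt_pi (by positivity)
      rw [← mul_div_assoc, div_lt_iff₀ hp']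
      nlinarith only [hpi, hm']
    positivity
  · exact Finset.nonempty_range_iff.2 (by omega)

/-- the elementary weights -/
noncomputable def psi (m : ℕ) (η : ℝ) : ℝ := (-1) ^ m * Real.sin ((m + 1 / 2) * η) * Real.cos (η / 2)

/-- the combined weight -/
noncomputable def DD (p : ℕ) (η : ℝ) : ℝ := Real.cos (η / 2) * KK p η

theorem DD_eq (p : ℕ) (η : ℝ) : ∑ m ∈ Finset.range p,
    ((-1) ^ m * Real.sin ((m + 1 / 2) * (π / p))) * psi m η = DD p η := by
  unfold DD KK psi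
  rw [Finset.mul_sum]
  apply Finset.sum_congr rfl
  intro m _
  have : ((-1 : ℝ)) ^ m * (-1) ^ m = 1 := by rw [← mul_pow]; norm_num
  calc _ = ((-1 : ℝ) ^ m * (-1) ^ m) * (Real.cos (η / 2) * (Real.sin ((m + 1 / 2) * (π / p)) *
        Real.sin ((m + 1 / 2) * η))) := by ring
    _ = _ := by rw [this, one_mul]

theorem DD_odd (p : ℕ) (η : ℝ) : DD p (-η) = -DD p η := by
  unfold DD
  rw [KK_odd, neg_div, Real.cos_neg]
  ring

theorem abs_psi (m : ℕ) (η : ℝ) : |psi m η| ≤ 1 := by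
  unfold psi
  rw [abs_mul, abs_mul, abs_pow, abs_neg, abs_one, one_pow, one_mul]
  exact mul_le_one₀ (Real.abs_sin_le_one _) (abs_nonneg _) (Real.abs_cos_le_one _)

theorem abs_DD (p : ℕ) (η : ℝ) : |DD p η| ≤ p := by
  rw [← DD_eq]
  refine (Finset.abs_sum_le_sum_abs _ _).trans ?_
  calc _ ≤ ∑ _m ∈ Finset.range p, (1 : ℝ) := by
        apply Finset.sum_le_sum
        intro m _
        rw [abs_mul, abs_mul, abs_pow, abs_neg, abs_one, one_pow, one_mul]
        exact mul_le_one₀ (Real.abs_sin_le_one _) (abs_nonneg _) (abs_psi m η)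
    _ = p := by simp

theorem contDiff_psi (m : ℕ) : ContDiff ℝ 1 (psi m) := by
  unfold psi
  fun_prop

theorem contDiff_DD (p : ℕ) : ContDiff ℝ 1 (DD p) := by
  unfold DD KK
  fun_prop

/-! ### Comparison of the phases -/

theorem norm_ee_sub (a b : ℝ) : ‖ee a - ee b‖ ≤ 2 * π * |a - b| := by
  have h1 : ee a - ee b = ee b * (ee (a - b) - 1) := by
    rw [mul_sub, ← ee_add, mul_one]
    congr 2
    ring
  rw [h1, norm_mul, norm_ee, one_mul]
  unfold ee
  rw [mul_comm]
  refine (Real.norm_exp_I_mul_ofReal_sub_one_le).trans (le_of_eq ?_)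
  rw [Real.norm_eq_abs, abs_mul, abs_of_pos (by positivity : 0 < 2 * π)]

theorem rt_eq (M : ℕ) : rt M = ee (1 / M) := by
  unfold rt ee
  congr 1
  push_cast
  ring

theorem ee_pow (x : ℝ) (k : ℕ) : ee x ^ k = ee (k * x) := by
  induction k with
  | zero => simp [ee_zero]
  | succ k ih =>
    rw [pow_succ, ih, ← ee_add]
    congr 1
    push_cast
    ring

theorem ee_inv (x : ℝ) : (ee x)⁻¹ = ee (-x) := inv_eq_of_mul_eq_one_left (ee_neg_mul x)

/-- the bracket of the end formula -/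
noncomputable def Bm (n M m l : ℕ) : ℂ :=
  (rt M ^ l) ^ m * (1 - rt M ^ (n - 1) * rt M ^ l)
    + ((rt M ^ (n - 1))⁻¹) ^ m * ((rt M ^ l)⁻¹) ^ m * ((rt M ^ l)⁻¹ - 1)

/-- the lower order term of the end formula -/
noncomputable def Rm (n M m l : ℕ) : ℂ :=
  rt M ^ (n - 1) * (rt M ^ l) ^ (m + 1)
    + m * (((rt M ^ (n - 1))⁻¹) ^ m * ((rt M ^ l)⁻¹) ^ m * ((rt M ^ l)⁻¹ - 1))

theorem norm_Rm (n M m l : ℕ) : ‖Rm n M m l‖ ≤ 1 + 2 * m := by
  unfold Rm
  have h : ∀ k : ℕ, ‖rt M ^ k‖ = 1 := by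
    intro k
    rw [norm_pow, rt_eq, norm_ee, one_pow]
  refine (norm_add_le _ _).trans (add_le_add (le_of_eq ?_) ?_)
  · rw [norm_mul, h (n - 1), norm_pow, h l, one_pow, one_mul]
  · rw [norm_mul, norm_mul, norm_mul, norm_pow (rt M ^ (n - 1))⁻¹, norm_pow (rt M ^ l)⁻¹, norm_inv,
      norm_inv, h (n - 1), h l]
    simp only [inv_one, one_pow, one_mul, Complex.norm_natCast]
    have : ‖(rt M ^ l)⁻¹ - 1‖ ≤ 2 := by
      refine (norm_sub_le _ _).trans ?_
      rw [norm_inv, h, norm_one]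
      norm_num
    calc (m : ℝ) * ‖(rt M ^ l)⁻¹ - 1‖ ≤ m * 2 := by gcongr
      _ = _ := by ring

theorem sin_shift' (k : ℕ) (η : ℝ) : Real.sin (k * (π + η)) = (-1) ^ k * Real.sin (k * η) := by
  rw [mul_add, add_comm, Real.sin_add_nat_mul_pi]

theorem psi_eq (n M m l : ℕ) (hM : 0 < M) :
    4 * Complex.I * (psi m (2 * π * sl n M l / M) : ℂ)
      = (ee (m * (l + ((n : ℝ) - 1) / 2) / M) - ee (-(m * (l + ((n : ℝ) - 1) / 2) / M)))
        - (ee ((m + 1) * (l + ((n : ℝ) - 1) / 2) / M)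
          - ee (-((m + 1) * (l + ((n : ℝ) - 1) / 2) / M))) := by
  have hM' : (M : ℝ) ≠ 0 := by positivity
  rw [ee_sub_neg, ee_sub_neg]
  set η := 2 * π * sl n M l / M with hη
  have h0 : π + η = 2 * π * (l + ((n : ℝ) - 1) / 2) / M := by
    rw [hη]; unfold sl; field_simp; ring
  have h1 : 2 * π * (m * (l + ((n : ℝ) - 1) / 2) / M) = m * (π + η) := by rw [h0]; ring
  have h2 : 2 * π * ((m + 1) * (l + ((n : ℝ) - 1) / 2) / M) = ((m + 1 : ℕ) : ℝ) * (π + η) := by
    rw [h0]; push_cast; ring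
  rw [h1, h2, sin_shift', sin_shift']
  have h3 : Real.sin (m * η) + Real.sin (((m + 1 : ℕ) : ℝ) * η)
      = 2 * (Real.sin ((m + 1 / 2) * η) * Real.cos (η / 2)) := by
    rw [show (m : ℝ) * η = (m + 1 / 2) * η - η / 2 by ring,
      show ((m + 1 : ℕ) : ℝ) * η = (m + 1 / 2) * η + η / 2 by push_cast; ring,
      Real.sin_add, Real.sin_sub]
    ring
  have h4 : psi m η = (-1) ^ m * ((Real.sin (m * η) + Real.sin (((m + 1 : ℕ) : ℝ) * η)) / 2) := by
    rw [h3]; unfold psi; ring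
  rw [h4]
  push_cast
  ring

theorem Bm_sub (n M m l : ℕ) (hn : 1 ≤ n) (hM : 0 < M) :
    ‖Bm n M m l - 4 * Complex.I * (psi m (2 * π * sl n M l / M) : ℂ)‖
      ≤ 8 * π * n * (m + 1) / M := by
  have hM' : (0 : ℝ) < M := by exact_mod_cast hM
  have hn' : (1 : ℝ) ≤ n := by exact_mod_cast hn
  have hpi := Real.pi_pos
  rw [psi_eq n M m l hM]
  have hc : ((n - 1 : ℕ) : ℝ) = n - 1 := by rw [Nat.cast_sub hn]; simp
  have hB : Bm n M m l = (ee (m * l / M) - ee (((m + 1) * l + (n - 1)) / M))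
      + (ee (-((m * (n - 1) + (m + 1) * l) / M)) - ee (-((m * (n - 1) + m * l) / M))) := by
    have t1 : (rt M ^ l) ^ m = ee (m * l / M) := by
      rw [rt_eq, ee_pow, ee_pow]; congr 1; ring
    have t2 : (rt M ^ l) ^ m * (rt M ^ (n - 1) * rt M ^ l) = ee (((m + 1) * l + (n - 1)) / M) := by
      rw [rt_eq, ee_pow, ee_pow, ee_pow, ← ee_add, ← ee_add, hc]; congr 1; ring
    have t3 : ((rt M ^ (n - 1))⁻¹) ^ m * ((rt M ^ l)⁻¹) ^ m
        = ee (-((m * (n - 1) + m * l) / M)) := by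
      rw [rt_eq, ee_pow, ee_pow, ee_inv, ee_inv, ee_pow, ee_pow, ← ee_add, hc]; congr 1; ring
    have t4 : ((rt M ^ (n - 1))⁻¹) ^ m * ((rt M ^ l)⁻¹) ^ m * (rt M ^ l)⁻¹
        = ee (-((m * (n - 1) + (m + 1) * l) / M)) := by
      rw [t3, rt_eq, ee_pow, ee_inv, ← ee_add]; congr 1; ring
    unfold Bm
    rw [mul_sub, mul_sub, mul_one, mul_one, t1, t4, t3, ← t1, t2]
  rw [hB]
  set y := (l : ℝ) + ((n : ℝ) - 1) / 2 with hy
  have e : (ee (m * l / M) - ee (((m + 1) * l + (n - 1)) / M))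
      + (ee (-((m * (n - 1) + (m + 1) * l) / M)) - ee (-((m * (n - 1) + m * l) / M)))
      - ((ee (m * y / M) - ee (-(m * y / M))) - (ee ((m + 1) * y / M) - ee (-((m + 1) * y / M))))
      = (ee (m * l / M) - ee (m * y / M))
        + (ee ((m + 1) * y / M) - ee (((m + 1) * l + (n - 1)) / M))
        + (ee (-((m * (n - 1) + (m + 1) * l) / M)) - ee (-((m + 1) * y / M)))
        + (ee (-(m * y / M)) - ee (-((m * (n - 1) + m * l) / M))) := by ring
  rw [e]
  have hbd : ∀ a b : ℝ, |a - b| ≤ n * (m + 1) / M → ‖ee a - ee b‖ ≤ 2 * π * (n * (m + 1) / M) :=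
    fun a b h => (norm_ee_sub a b).trans (by gcongr)
  have hm0 : (0 : ℝ) ≤ m := Nat.cast_nonneg m
  have hdiv : ∀ z : ℝ, |z| ≤ n * (m + 1) → |z / M| ≤ n * (m + 1) / M := by
    intro z hz
    rw [abs_div, abs_of_pos hM']
    gcongr
  have b1 := hbd (m * l / M) (m * y / M) (by
    rw [← sub_div]
    apply hdiv
    rw [hy, abs_le]
    constructor <;> nlinarith only [hn'])
  have b2 := hbd ((m + 1) * y / M) (((m + 1) * l + (n - 1)) / M) (by
    rw [← sub_div]
    apply hdiv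
    rw [hy, abs_le]
    constructor <;> nlinarith only [hn'])
  have b3 := hbd (-((m * (n - 1) + (m + 1) * l) / M)) (-((m + 1) * y / M)) (by
    rw [← neg_sub', abs_neg, ← sub_div]
    apply hdiv
    rw [hy, abs_le]
    constructor <;> nlinarith only [hn'])
  have b4 := hbd (-(m * y / M)) (-((m * (n - 1) + m * l) / M)) (by
    rw [← neg_sub', abs_neg, ← sub_div]
    apply hdiv
    rw [hy, abs_le]
    constructor <;> nlinarith only [hn'])
  calc _ ≤ _ := norm_add_le _ _
    _ ≤ _ := add_le_add ((norm_add_le _ _).trans (add_le_add ((norm_add_le _ _).trans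
        (add_le_add b1 b2)) b3)) b4
    _ = _ := by ring

end Pool.Agent.H63.VC.EndB

/-! ## Assembly -/

namespace Pool.Agent.H63.VC.EndB

open Real

/-- the angle -/
noncomputable def eta (n M l : ℕ) : ℝ := 2 * π * sl n M l / M

theorem rt_pow_Eph (p n M l : ℕ) (hn : 1 ≤ n) : rt M ^ (p * l * (l + n - 1)) = Eph p n M l := by
  rw [rt_eq, ee_pow]
  unfold Eph
  congr 1
  have h : ((l + n - 1 : ℕ) : ℝ) = l + n - 1 := by
    rw [Nat.cast_sub (by omega)]; push_cast; ring
  rw [Nat.cast_mul, Nat.cast_mul, h]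
  ring

theorem lad_approx (p n m M : ℕ) (hm : m < p) (hn : 1 ≤ n) (hM : n < M) :
    ‖lad (rt M ^ n) (rt M) (p - 1 - m) m (M - 1) + 4 * Complex.I * p *
      ∑ l ∈ Finset.range M, ((l / M : ℝ) : ℂ) * (psi m (eta n M l) : ℂ) * Eph p n M l‖
      ≤ 8 * π * p * n * (m + 1) + (1 + 2 * m) := by
  have hM0 : 0 < M := by omega
  have hM' : (0 : ℝ) < M := by exact_mod_cast hM0
  have hMc : (M : ℂ) ≠ 0 := by exact_mod_cast hM0.ne'
  set u := lad (rt M ^ n) (rt M) (p - 1 - m) m (M - 1) with hu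
  have h1 : (M : ℂ) * u = -∑ l ∈ Finset.range M, Eph p n M l *
      ((p * l : ℕ) * Bm n M m l - Rm n M m l) := by
    rw [hu, end_formula p m n M hm hn hM]
    congr 1
    apply Finset.sum_congr rfl
    intro l _
    rw [rt_pow_Eph p n M l hn]
    rfl
  have h2 : (M : ℂ) * (u + 4 * Complex.I * p *
      ∑ l ∈ Finset.range M, ((l / M : ℝ) : ℂ) * (psi m (eta n M l) : ℂ) * Eph p n M l)
      = ∑ l ∈ Finset.range M, Eph p n M l * (Rm n M m l -
        (p * l : ℕ) * (Bm n M m l - 4 * Complex.I * (psi m (eta n M l) : ℂ))) := by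
    rw [mul_add, h1, Finset.mul_sum, Finset.mul_sum, ← Finset.sum_neg_distrib,
      ← Finset.sum_add_distrib]
    apply Finset.sum_congr rfl
    intro l _
    push_cast
    field_simp
    ring
  have h3 : ‖∑ l ∈ Finset.range M, Eph p n M l * (Rm n M m l -
        (p * l : ℕ) * (Bm n M m l - 4 * Complex.I * (psi m (eta n M l) : ℂ)))‖
      ≤ M * (8 * π * p * n * (m + 1) + (1 + 2 * m)) := by
    refine (norm_sum_le _ _).trans ?_
    calc _ ≤ ∑ _l ∈ Finset.range M, (8 * π * p * n * (m + 1) + (1 + 2 * m)) := by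
          apply Finset.sum_le_sum
          intro l hl
          rw [Finset.mem_range] at hl
          have hlM : (l : ℝ) ≤ M := by exact_mod_cast hl.le
          rw [norm_mul, norm_Eph, one_mul]
          refine (norm_sub_le _ _).trans ?_
          have e1 := norm_Rm n M m l
          have e2 : ‖((p * l : ℕ) : ℂ) * (Bm n M m l - 4 * Complex.I * (psi m (eta n M l) : ℂ))‖
              ≤ 8 * π * p * n * (m + 1) := by
            rw [norm_mul, Complex.norm_natCast, Nat.cast_mul]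
            calc (p : ℝ) * l * ‖Bm n M m l - 4 * Complex.I * (psi m (eta n M l) : ℂ)‖
                ≤ p * M * (8 * π * n * (m + 1) / M) := by
                  gcongr
                  exact Bm_sub n M m l hn hM0
              _ = _ := by field_simp
          linarith only [e1, e2]
      _ = _ := by rw [Finset.sum_const, Finset.card_range, nsmul_eq_mul]
  rw [← h2, norm_mul, Complex.norm_natCast] at h3
  exact le_of_mul_le_mul_left h3 hM'

/-- the sum with weights `l / M` -/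
noncomputable def Wsum (p n M : ℕ) (ψ : ℝ → ℝ) : ℂ :=
  ∑ l ∈ Finset.range M, ((l / M : ℝ) : ℂ) * (ψ (eta n M l) : ℂ) * Eph p n M l

theorem upper_one (p n : ℕ) (hp : 0 < p) (hn : 1 ≤ n) (m : ℕ) : ∃ C : ℝ, 0 ≤ C ∧
    ∀ M : ℕ, 2 * p * n + p < M → ‖Wsum p n M (psi m)‖ ≤ C * √M := by
  have hpi := Real.pi_pos
  have hφ : ContDiff ℝ 1 (fun η : ℝ => (η / (2 * π) + 1 / 2) * psi m η) := by
    apply ContDiff.mul _ (contDiff_psi m)
    fun_prop
  obtain ⟨lam, hlam, hw⟩ := exists_weight hφ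
  refine ⟨(4 * p + 1) * (6 * lam) + n, by positivity, fun M hM => ?_⟩
  have hM0 : 0 < M := by omega
  have hM' : (0 : ℝ) < M := by exact_mod_cast hM0
  have hM1 : (1 : ℝ) ≤ M := by exact_mod_cast hM0
  have hp' : (1 : ℝ) ≤ p := by exact_mod_cast hp
  have hn' : (1 : ℝ) ≤ n := by exact_mod_cast hn
  have h1 := main_upper hp hn hM (B := M) (by omega) (by omega) (hw p M hp hM0) hlam
  have h2 : Wsum p n M (psi m) - ∑ l ∈ Finset.range M,
      ((((2 * π * sl n M l / M) / (2 * π) + 1 / 2) * psi m (2 * π * sl n M l / M) : ℝ) : ℂ)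
        * Eph p n M l
      = ∑ l ∈ Finset.range M, ((((1 - (n : ℝ)) / (2 * M)) * psi m (eta n M l) : ℝ) : ℂ)
        * Eph p n M l := by
    unfold Wsum
    rw [← Finset.sum_sub_distrib]
    apply Finset.sum_congr rfl
    intro l _
    rw [← sub_mul]
    congr 1
    rw [← Complex.ofReal_mul, ← Complex.ofReal_sub]
    congr 1
    unfold eta sl
    field_simp
    ring
  have h3 : ‖∑ l ∈ Finset.range M, ((((1 - (n : ℝ)) / (2 * M)) * psi m (eta n M l) : ℝ) : ℂ)
        * Eph p n M l‖ ≤ n := by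
    refine (norm_sum_le _ _).trans ?_
    calc _ ≤ ∑ _l ∈ Finset.range M, (n : ℝ) / M := by
          apply Finset.sum_le_sum
          intro l _
          rw [norm_mul, norm_Eph, mul_one, Complex.norm_real, Real.norm_eq_abs, abs_mul]
          calc |(1 - (n : ℝ)) / (2 * M)| * |psi m (eta n M l)| ≤ (n / M) * 1 := by
                apply mul_le_mul _ (abs_psi m _) (abs_nonneg _) (by positivity)
                rw [abs_div, abs_of_pos (by positivity : (0 : ℝ) < 2 * M),
                  div_le_div_iff₀ (by positivity) hM']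
                have : |1 - (n : ℝ)| ≤ n := by rw [abs_le]; constructor <;> linarith only [hn']
                nlinarith only [this]
            _ = _ := mul_one _
      _ = n := by
          rw [Finset.sum_const, Finset.card_range, nsmul_eq_mul]
          field_simp
  have h4 : √(M : ℝ) ≤ √M := le_rfl
  have h5 : 1 / √((p : ℝ) / M) ≤ √M := by
    rw [div_le_iff₀ (Real.sqrt_pos.2 (by positivity)), ← Real.sqrt_mul (by positivity)]
    rw [Real.one_le_sqrt]
    field_simp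
    exact hp'
  have hsq : (1 : ℝ) ≤ √M := Real.one_le_sqrt.2 hM1
  have h6 : ‖Wsum p n M (psi m)‖ ≤ (4 * p + 1) * (6 * lam / √((p : ℝ) / M)) + n := by
    have := norm_add_le (Wsum p n M (psi m) - ∑ l ∈ Finset.range M,
      ((((2 * π * sl n M l / M) / (2 * π) + 1 / 2) * psi m (2 * π * sl n M l / M) : ℝ) : ℂ)
        * Eph p n M l) (∑ l ∈ Finset.range M,
      ((((2 * π * sl n M l / M) / (2 * π) + 1 / 2) * psi m (2 * π * sl n M l / M) : ℝ) : ℂ)
        * Eph p n M l)
    rw [sub_add_cancel, h2] at this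
    linarith only [h1, h3, this]
  calc ‖Wsum p n M (psi m)‖ ≤ (4 * p + 1) * (6 * lam / √((p : ℝ) / M)) + n := h6
    _ = (4 * p + 1) * (6 * lam) * (1 / √((p : ℝ) / M)) + n * 1 := by ring
    _ ≤ (4 * p + 1) * (6 * lam) * √M + n * √M := by gcongr
    _ = _ := by ring

theorem sl_refl {n M B l : ℕ} (hB : B + n = M + 2) (hl : l < B) :
    sl n M (B - 1 - l) = -sl n M l := by
  have h : ((B - 1 - l : ℕ) : ℝ) = M + 1 - n - l := by
    have h1 : B - 1 - l + (l + n) = M + 1 := by omega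
    have h2 : ((B - 1 - l + (l + n) : ℕ) : ℝ) = ((M + 1 : ℕ) : ℝ) := by rw [h1]
    push_cast at h2 ⊢
    linarith only [h2]
  unfold sl
  rw [h]
  ring

theorem Eph_refl {p n M B l : ℕ} (hp : 0 < p) (hM : 0 < M) (hB : B + n = M + 2) (hl : l < B) :
    Eph p n M (B - 1 - l) = Eph p n M l := by
  rw [Eph_eq hp hM 0, Eph_eq hp hM 0 l, sl_refl hB hl]
  have : sig p M 0 = 0 := by unfold sig; simp
  rw [this]
  congr 2
  ring

theorem fold {p n M B : ℕ} (hp : 0 < p) (hM : 0 < M) (hB : B + n = M + 2) :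
    ∑ l ∈ Finset.range B, ((l / M : ℝ) : ℂ) * (DD p (eta n M l) : ℂ) * Eph p n M l
      = ∑ l ∈ Finset.range B, ((sl n M l / M : ℝ) : ℂ) * (DD p (eta n M l) : ℂ) * Eph p n M l := by
  have hM' : (M : ℝ) ≠ 0 := by positivity
  have h1 := Finset.sum_range_reflect
    (fun l => ((l / M : ℝ) : ℂ) * (DD p (eta n M l) : ℂ) * Eph p n M l) B
  have h2 : ∑ l ∈ Finset.range B, ((((B - 1 - l : ℕ) : ℝ) / M : ℝ) : ℂ) *
      (DD p (eta n M (B - 1 - l)) : ℂ) * Eph p n M (B - 1 - l)
      = 2 * (∑ l ∈ Finset.range B, ((sl n M l / M : ℝ) : ℂ) * (DD p (eta n M l) : ℂ) *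
          Eph p n M l) -
        ∑ l ∈ Finset.range B, ((l / M : ℝ) : ℂ) * (DD p (eta n M l) : ℂ) * Eph p n M l := by
    rw [Finset.mul_sum, ← Finset.sum_sub_distrib]
    apply Finset.sum_congr rfl
    intro l hl
    rw [Finset.mem_range] at hl
    rw [Eph_refl hp hM hB hl]
    have e1 : eta n M (B - 1 - l) = -eta n M l := by
      unfold eta; rw [sl_refl hB hl]; ring
    rw [e1, DD_odd]
    have h : ((B - 1 - l : ℕ) : ℝ) = M + 1 - n - l := by
      have h1 : B - 1 - l + (l + n) = M + 1 := by omega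
      have h2 : ((B - 1 - l + (l + n) : ℕ) : ℝ) = ((M + 1 : ℕ) : ℝ) := by rw [h1]
      push_cast at h2 ⊢
      linarith only [h2]
    rw [h]
    have e2 : (((M : ℝ) + 1 - n - l) / M : ℝ) = l / M - 2 * (sl n M l / M) := by
      unfold sl
      field_simp
      ring
    rw [e2]
    push_cast
    ring
  rw [h2] at h1
  have h3 : (2 : ℂ) * (∑ l ∈ Finset.range B, ((l / M : ℝ) : ℂ) * (DD p (eta n M l) : ℂ) *
      Eph p n M l) = 2 * ∑ l ∈ Finset.range B, ((sl n M l / M : ℝ) : ℂ) * (DD p (eta n M l) : ℂ) *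
          Eph p n M l := by
    linear_combination -h1
  exact mul_left_cancel₀ two_ne_zero h3

theorem range_diff {φ : ℕ → ℂ} {C : ℝ} (hC : 0 ≤ C) {n M B : ℕ} (hn : 1 ≤ n) (hB : B + n = M + 2)
    (hφ : ∀ l ≤ M, ‖φ l‖ ≤ C) :
    ‖∑ l ∈ Finset.range M, φ l - ∑ l ∈ Finset.range B, φ l‖ ≤ n * C := by
  have hn' : (1 : ℝ) ≤ n := by exact_mod_cast hn
  rcases Nat.lt_or_ge n 2 with h | h
  · have hB' : B = M + 1 := by omega
    rw [hB', Finset.sum_range_succ, sub_add_cancel_left, norm_neg]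
    have := hφ M le_rfl
    nlinarith only [hC, hn', this]
  · have hBM : B ≤ M := by omega
    rw [Finset.range_eq_Ico, Finset.range_eq_Ico,
      ← Finset.sum_Ico_consecutive _ (Nat.zero_le B) hBM, add_sub_cancel_left]
    refine (norm_sum_le _ _).trans ?_
    calc _ ≤ ∑ _l ∈ Finset.Ico B M, C := by
          apply Finset.sum_le_sum
          intro l hl
          rw [Finset.mem_Ico] at hl
          exact hφ l (by omega)
      _ = (M - B : ℕ) * C := by rw [Finset.sum_const, Nat.card_Ico, nsmul_eq_mul]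
      _ ≤ n * C := by
          gcongr
          omega

theorem DD_F_pos {p : ℕ} (hp : 2 ≤ p) : 0 < DD p (π / p) := by
  have hp' : (2 : ℝ) ≤ p := by exact_mod_cast hp
  have hpi := Real.pi_pos
  unfold DD
  apply mul_pos _ (KK_pos (by omega))
  apply Real.cos_pos_of_mem_Ioo
  constructor
  · have : 0 < π / p / 2 := by positivity
    linarith
  · rw [div_div, div_lt_div_iff₀ (by positivity) (by norm_num)]
    nlinarith only [hp', hpi]

theorem DD_zero {p : ℕ} (hp : 0 < p) {r : ℤ} (hr : |r| ≤ p) (h1 : r ≠ 1) (h2 : r ≠ -1) :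
    DD p (π * r / p) = 0 := by
  unfold DD
  rw [KK_zero hp hr h1 h2, mul_zero]

theorem lower_one (p n : ℕ) (hp : 2 ≤ p) (hn : 1 ≤ n) : ∃ c C : ℝ, 0 < c ∧
    ∀ M : ℕ, 2 * p * n + 1024 * p + 8 * n + 16 ≤ M →
      c * √M - C * (3 + Real.log M) - C ≤ ‖Wsum p n M (DD p)‖ := by
  have hpi := Real.pi_pos
  have hp0 : 0 < p := by omega
  have hp' : (2 : ℝ) ≤ p := by exact_mod_cast hp
  have hφ : ContDiff ℝ 1 (fun η : ℝ => (η / (2 * π)) * DD p η) := by
    apply ContDiff.mul _ (contDiff_DD p)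
    fun_prop
  obtain ⟨lam, hlam, hw⟩ := exists_weight hφ
  have hF := DD_F_pos hp
  set F := (1 / (2 * (p : ℝ))) * DD p (π / p) with hFdef
  have hF0 : 0 < F := by positivity
  refine ⟨F / (20 * √p), (4 * p + 1) * (lam * (n + 1)) + n * p, by positivity, fun M hM => ?_⟩
  have hM0 : 0 < M := by omega
  have hM' : (0 : ℝ) < M := by exact_mod_cast hM0
  obtain ⟨B, hB⟩ : ∃ B, B + n = M + 2 := by
    have hnM : n ≤ M + 2 := by
      have : n ≤ 8 * n := by omega
      omega
    exact ⟨M + 2 - n, by omega⟩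
  have hval : ∀ r : ℤ, 2 * π * sig p M r / M = π * r / p := by
    intro r
    unfold sig
    field_simp
  have hΦ1 : (((2 * π * sig p M 1 / M) / (2 * π)) * DD p (2 * π * sig p M 1 / M) : ℝ) = F := by
    rw [hval, hFdef]
    push_cast
    rw [mul_one]
    field_simp
  have hΦ2 : (((2 * π * sig p M (-1) / M) / (2 * π)) * DD p (2 * π * sig p M (-1) / M) : ℝ) = F := by
    rw [hval, hFdef]
    push_cast
    rw [show π * (-1 : ℝ) / p = -(π / p) by ring, DD_odd]
    field_simp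
  have hΦ3 : ∀ r : ℤ, |r| ≤ p → r ≠ 1 → r ≠ -1 →
      (((2 * π * sig p M r / M) / (2 * π)) * DD p (2 * π * sig p M r / M) : ℝ) = 0 := by
    intro r hr h1 h2
    rw [hval, DD_zero hp0 hr h1 h2, mul_zero]
  have h1 := main_lower hp hn hM (B := B) (by omega) (by omega) (hw p M hp0 hM0) hlam hF0.le
    (by exact_mod_cast hΦ1) (by exact_mod_cast hΦ2)
    (fun r hr h1 h2 => by exact_mod_cast hΦ3 r hr h1 h2)
  have h2 : ∑ l ∈ Finset.range B,
      ((((2 * π * sl n M l / M) / (2 * π)) * DD p (2 * π * sl n M l / M) : ℝ) : ℂ) * Eph p n M l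
      = ∑ l ∈ Finset.range B, ((l / M : ℝ) : ℂ) * (DD p (eta n M l) : ℂ) * Eph p n M l := by
    rw [fold hp0 hM0 hB]
    apply Finset.sum_congr rfl
    intro l _
    congr 1
    rw [← Complex.ofReal_mul]
    congr 1
    unfold eta
    congr 1
    field_simp
  rw [h2] at h1
  have h3 := range_diff (φ := fun l => ((l / M : ℝ) : ℂ) * (DD p (eta n M l) : ℂ) * Eph p n M l)
    (C := p) (by positivity) hn hB (fun l hl => by
      rw [norm_mul, norm_mul, norm_Eph, mul_one, Complex.norm_real, Complex.norm_real,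
        Real.norm_eq_abs, Real.norm_eq_abs]
      have e1 : |(l : ℝ) / M| ≤ 1 := by
        rw [abs_of_nonneg (by positivity), div_le_one hM']
        exact_mod_cast hl
      calc |(l : ℝ) / M| * |DD p (eta n M l)| ≤ 1 * p := by
            apply mul_le_mul e1 (abs_DD p _) (abs_nonneg _) zero_le_one
        _ = p := one_mul _)
  have h4 : ‖∑ l ∈ Finset.range B, ((l / M : ℝ) : ℂ) * (DD p (eta n M l) : ℂ) * Eph p n M l‖
      ≤ ‖Wsum p n M (DD p)‖ + n * p := by
    have e := norm_sub_le (Wsum p n M (DD p)) (Wsum p n M (DD p) - ∑ l ∈ Finset.range B,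
      ((l / M : ℝ) : ℂ) * (DD p (eta n M l) : ℂ) * Eph p n M l)
    rw [sub_sub_cancel] at e
    unfold Wsum at e ⊢
    linarith only [h3, e]
  have h5 : F * (1 / (20 * √((p : ℝ) / M))) = F / (20 * √p) * √M := by
    rw [Real.sqrt_div (by positivity)]
    have : 0 < √(M : ℝ) := Real.sqrt_pos.2 hM'
    have : 0 < √(p : ℝ) := Real.sqrt_pos.2 (by positivity)
    field_simp
  rw [h5] at h1
  have hlog : 0 ≤ Real.log M := Real.log_natCast_nonneg M
  have h6 : 0 ≤ (n : ℝ) * p * (3 + Real.log M) := by positivity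
  have h7 : 0 ≤ (4 * (p : ℝ) + 1) * (lam * (n + 1)) := by positivity
  nlinarith only [h1, h4, h6, h7]

theorem log_small (c K : ℝ) (hc : 0 < c) :
    ∃ M0 : ℕ, ∀ M ≥ M0, K * (3 + Real.log M) + K ≤ c * √M := by
  have h1 : ∀ᶠ x : ℝ in Filter.atTop, ‖Real.log x‖ ≤ (c / (2 * (|K| + 1))) * ‖x ^ (1 / 2 : ℝ)‖ :=
    (isLittleO_log_rpow_atTop (r := 1 / 2) (by norm_num)).def (by positivity)
  have h2 : ∀ᶠ x : ℝ in Filter.atTop, 4 * |K| ≤ (c / 2) * √x := by
    have : Filter.Tendsto (fun x : ℝ => (c / 2) * √x) Filter.atTop Filter.atTop :=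
      Real.tendsto_sqrt_atTop.const_mul_atTop (by positivity)
    exact this.eventually_ge_atTop _
  obtain ⟨X, hX⟩ := Filter.eventually_atTop.1 (h1.and h2)
  refine ⟨⌈max X 1⌉₊, fun M hM => ?_⟩
  have hM1 : max X 1 ≤ (M : ℝ) := (Nat.le_ceil _).trans (by exact_mod_cast hM)
  obtain ⟨h3, h4⟩ := hX M ((le_max_left _ _).trans hM1)
  have hM2 : (1 : ℝ) ≤ M := (le_max_right _ _).trans hM1
  rw [← Real.sqrt_eq_rpow, Real.norm_of_nonneg (Real.log_nonneg hM2),
    Real.norm_of_nonneg (Real.sqrt_nonneg _)] at h3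
  have hlog := Real.log_nonneg hM2
  have hK := le_abs_self K
  have hK0 := abs_nonneg K
  have h5 : |K| * Real.log M ≤ (c / 2) * √M := by
    calc |K| * Real.log M ≤ (|K| + 1) * (c / (2 * (|K| + 1)) * √M) := by
          gcongr
          linarith only []
      _ = _ := by field_simp
  calc K * (3 + Real.log M) + K = K * (4 + Real.log M) := by ring
    _ ≤ |K| * (4 + Real.log M) := by gcongr
    _ = 4 * |K| + |K| * Real.log M := by ring
    _ ≤ (c / 2) * √M + (c / 2) * √M := add_le_add h4 h5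
    _ = _ := by ring

end Pool.Agent.H63.VC.EndB

namespace Pool.Agent.H63.VC

open Real EndB

theorem end_bounds (p n : ℕ) (hp : 2 ≤ p) (hn : 1 ≤ n) :
    ∃ c C : ℝ, 0 < c ∧ ∃ M0 : ℕ, ∀ M ≥ M0,
      (∀ m < p, ‖lad (rt M ^ n) (rt M) (p - 1 - m) m (M - 1)‖ ≤ C * √M) ∧
      c * √M ≤ ‖∑ m ∈ Finset.range p, (((-1) ^ m * Real.sin ((m + 1 / 2) * (π / p)) : ℝ) : ℂ) *
        lad (rt M ^ n) (rt M) (p - 1 - m) m (M - 1)‖ := by
  have hpi := Real.pi_pos
  have hp0 : 0 < p := by omega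
  have hp' : (2 : ℝ) ≤ p := by exact_mod_cast hp
  choose Cm hCm0 hCm using fun m => upper_one p n hp0 hn m
  obtain ⟨c1, K1, hc1, hlow⟩ := lower_one p n hp hn
  -- the error constants
  set D := 8 * π * p * n * (p + 1) + (1 + 2 * p) with hD
  have hD0 : 0 ≤ D := by positivity
  have hDm : ∀ m < p, 8 * π * p * n * ((m : ℝ) + 1) + (1 + 2 * m) ≤ D := by
    intro m hm
    have : (m : ℝ) ≤ p := by exact_mod_cast hm.le
    rw [hD]
    gcongr
  obtain ⟨M1, hM1⟩ := log_small (2 * p * c1) (4 * p * |K1| + p * D) (by positivity)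
  refine ⟨2 * p * c1, D + 4 * p * ∑ m ∈ Finset.range p, Cm m, by positivity,
    max M1 (2 * p * n + 1024 * p + 8 * n + 16), fun M hM => ?_⟩
  have hMa : M1 ≤ M := (le_max_left _ _).trans hM
  have hMb : 2 * p * n + 1024 * p + 8 * n + 16 ≤ M := (le_max_right _ _).trans hM
  have hM0 : 0 < M := by omega
  have hnM : n < M := by
    have : n ≤ 8 * n := by omega
    omega
  have hM1' : (1 : ℝ) ≤ M := by exact_mod_cast hM0
  have hsq : (1 : ℝ) ≤ √M := Real.one_le_sqrt.2 hM1'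
  have happ := fun m (hm : m < p) => (lad_approx p n m M hm hn hnM).trans (hDm m hm)
  constructor
  · intro m hm
    set u := lad (rt M ^ n) (rt M) (p - 1 - m) m (M - 1)
    have h1 := happ m hm
    have h2 : ‖4 * Complex.I * p * Wsum p n M (psi m)‖ ≤ 4 * p * (Cm m * √M) := by
      rw [norm_mul, norm_mul, norm_mul, Complex.norm_I, mul_one, Complex.norm_natCast]
      have e : ‖(4 : ℂ)‖ = 4 := by norm_num
      rw [e]
      gcongr
      exact hCm m M (by nlinarith only [hp, hMb])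
    have h3 := norm_sub_le (u + 4 * Complex.I * p * Wsum p n M (psi m))
      (4 * Complex.I * p * Wsum p n M (psi m))
    rw [add_sub_cancel_right] at h3
    have h4 : Cm m ≤ ∑ m ∈ Finset.range p, Cm m :=
      Finset.single_le_sum (f := Cm) (fun i _ => hCm0 i) (Finset.mem_range.2 hm)
    have h5 : ‖u‖ ≤ D + 4 * p * (Cm m * √M) := h3.trans (add_le_add h1 h2)
    calc ‖u‖ ≤ D * 1 + 4 * p * (Cm m * √M) := by rw [mul_one]; exact h5
      _ ≤ D * √M + 4 * p * ((∑ m ∈ Finset.range p, Cm m) * √M) := by gcongr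
      _ = _ := by ring
  · set v : ℕ → ℂ := fun m => (((-1) ^ m * Real.sin ((m + 1 / 2) * (π / p)) : ℝ) : ℂ) with hv
    set u : ℕ → ℂ := fun m => lad (rt M ^ n) (rt M) (p - 1 - m) m (M - 1) with hu
    have hvn : ∀ m, ‖v m‖ ≤ 1 := by
      intro m
      rw [hv]
      show ‖(((-1) ^ m * Real.sin ((m + 1 / 2) * (π / p)) : ℝ) : ℂ)‖ ≤ 1
      rw [Complex.norm_real, Real.norm_eq_abs, abs_mul, abs_pow, abs_neg, abs_one, one_pow, one_mul]
      exact Real.abs_sin_le_one _
    have h1 : ∑ m ∈ Finset.range p, v m * Wsum p n M (psi m) = Wsum p n M (DD p) := by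
      unfold Wsum
      simp_rw [Finset.mul_sum]
      rw [Finset.sum_comm]
      apply Finset.sum_congr rfl
      intro l _
      rw [← DD_eq, Complex.ofReal_sum, Finset.mul_sum, Finset.sum_mul]
      apply Finset.sum_congr rfl
      intro m _
      rw [hv]
      push_cast
      ring
    have h2 : ‖∑ m ∈ Finset.range p, v m * u m + 4 * Complex.I * p * Wsum p n M (DD p)‖ ≤ p * D := by
      rw [← h1, Finset.mul_sum, ← Finset.sum_add_distrib]
      refine (norm_sum_le _ _).trans ?_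
      calc _ ≤ ∑ _m ∈ Finset.range p, D := by
            apply Finset.sum_le_sum
            intro m hm
            rw [Finset.mem_range] at hm
            have e : v m * u m + 4 * Complex.I * p * (v m * Wsum p n M (psi m))
                = v m * (u m + 4 * Complex.I * p * Wsum p n M (psi m)) := by ring
            rw [e, norm_mul]
            calc _ ≤ 1 * D := by
                  apply mul_le_mul (hvn m) (happ m hm) (norm_nonneg _) zero_le_one
              _ = D := one_mul _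
        _ = _ := by rw [Finset.sum_const, Finset.card_range, nsmul_eq_mul]
    have h3 : ‖4 * Complex.I * p * Wsum p n M (DD p)‖ = 4 * p * ‖Wsum p n M (DD p)‖ := by
      rw [norm_mul, norm_mul, norm_mul, Complex.norm_I, mul_one, Complex.norm_natCast]
      norm_num
    have h4 := norm_sub_le (∑ m ∈ Finset.range p, v m * u m + 4 * Complex.I * p * Wsum p n M (DD p))
      (∑ m ∈ Finset.range p, v m * u m)
    rw [add_sub_cancel_left, h3] at h4
    have h5 := hlow M hMb
    have h6 := hM1 M hMa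
    have hlog : 0 ≤ Real.log M := Real.log_natCast_nonneg M
    have hK := le_abs_self K1
    have h7 : 4 * p * (c1 * √M - |K1| * (3 + Real.log M) - |K1|) ≤ 4 * p * ‖Wsum p n M (DD p)‖ := by
      gcongr
      refine le_trans ?_ h5
      have : K1 * (3 + Real.log M) ≤ |K1| * (3 + Real.log M) := by gcongr
      linarith only [hK, this]
    have h8 : 0 ≤ (p : ℝ) * D * (3 + Real.log M) := by positivity
    show 2 * p * c1 * √M ≤ ‖∑ m ∈ Finset.range p, v m * u m‖
    nlinarith only [h2, h4, h6, h7, h8]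

end Pool.Agent.H63.VC
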