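import Pool.Agent.H63.VC.Base

/-! # Riemann sums and comparison of products -/

namespace Pool.Agent.H63.VC

open Filter Topology MeasureTheory Real Set

theorem riemann_half (f : ℝ → ℝ) (hf : Continuous f) :
    Tendsto (fun M : ℕ => (2 * π / M) * ∑ m ∈ Finset.Icc 1 (M / 2), f (m * (2 * π / M))) atTop
      (𝓝 (∫ t in (0 : ℝ)..π, f t)) := by
  set h : ℝ → ℝ := fun x => f (2 * π * min x (1 / 2)) - f π with hh
  have hc : Continuous h := by
    rw [hh]
    exact (hf.comp (continuous_const.mul (continuous_id.min continuous_const))).sub continuous_const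
  have hR := riemann_sum h hc
  have hpi := pi_pos
  -- the integral
  have hI : ∫ x in (0 : ℝ)..1, h x = (2 * π)⁻¹ * (∫ t in (0 : ℝ)..π, f t) - f π / 2 := by
    have hint : ∀ a b : ℝ, IntervalIntegrable h volume a b := fun a b => hc.intervalIntegrable a b
    rw [← intervalIntegral.integral_add_adjacent_intervals (hint 0 (1 / 2)) (hint (1 / 2) 1)]
    have h1 : ∫ x in (0 : ℝ)..(1 / 2), h x = ∫ x in (0 : ℝ)..(1 / 2), (f (2 * π * x) - f π) := by
      apply intervalIntegral.integral_congr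
      intro x hx
      rw [uIcc_of_le (by norm_num)] at hx
      simp only [hh]
      rw [min_eq_left hx.2]
    have h2 : ∫ x in (1 / 2 : ℝ)..1, h x = ∫ x in (1 / 2 : ℝ)..1, (0 : ℝ) := by
      apply intervalIntegral.integral_congr
      intro x hx
      rw [uIcc_of_le (by norm_num)] at hx
      simp only [hh]
      rw [min_eq_right hx.1]
      have : 2 * π * (1 / 2) = π := by ring
      rw [this, sub_self]
    have hf1 : Continuous fun x => f (2 * π * x) := hf.comp (continuous_const.mul continuous_id)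
    have hf2 : Continuous fun _ : ℝ => f π := continuous_const
    rw [h1, h2, intervalIntegral.integral_zero, add_zero, intervalIntegral.integral_sub
      (hf1.intervalIntegrable _ _) (hf2.intervalIntegrable _ _), intervalIntegral.integral_const]
    have h3 : ∫ x in (0 : ℝ)..(1 / 2), f (2 * π * x) = (2 * π)⁻¹ * ∫ t in (0 : ℝ)..π, f t := by
      rw [intervalIntegral.integral_comp_mul_left (fun x => f x) (by positivity : (2 * π) ≠ 0)]
      rw [smul_eq_mul, mul_zero]
      congr 2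
      ring
    rw [h3, smul_eq_mul]
    ring
  rw [hI] at hR
  -- constants
  have hA : Tendsto (fun M : ℕ => (((M / 2 : ℕ) : ℝ) + 1) / M) atTop (𝓝 (1 / 2)) := by
    have h1 : Tendsto (fun M : ℕ => 1 / 2 + 1 / (M : ℝ)) atTop (𝓝 (1 / 2 + 0)) :=
      tendsto_const_nhds.add (tendsto_const_div_atTop_nhds_zero_nat 1)
    have h2 : Tendsto (fun _ : ℕ => (1 / 2 : ℝ)) atTop (𝓝 (1 / 2)) := tendsto_const_nhds
    rw [add_zero] at h1
    refine tendsto_of_tendsto_of_tendsto_of_le_of_le' h2 h1 ?_ ?_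
    · filter_upwards [eventually_gt_atTop 0] with M hM
      have hM' : (0 : ℝ) < M := by exact_mod_cast hM
      rw [div_le_div_iff₀ two_pos hM']
      have : (M : ℝ) ≤ 2 * ((M / 2 : ℕ) : ℝ) + 1 := by exact_mod_cast (by omega : M ≤ 2 * (M / 2) + 1)
      linarith
    · filter_upwards [eventually_gt_atTop 0] with M hM
      have hM' : (0 : ℝ) < M := by exact_mod_cast hM
      rw [add_div]
      apply add_le_add_left
      rw [div_le_div_iff₀ hM' two_pos]
      have : 2 * ((M / 2 : ℕ) : ℝ) ≤ M := by exact_mod_cast (by omega : 2 * (M / 2) ≤ M)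
      linarith
  have hB : Tendsto (fun M : ℕ => f 0 / (M : ℝ)) atTop (𝓝 0) := tendsto_const_div_atTop_nhds_zero_nat _
  have hlim : Tendsto (fun M : ℕ => 2 * π * ((∑ m ∈ Finset.range M, h (m / M)) / M
      + (((M / 2 : ℕ) : ℝ) + 1) / M * f π - f 0 / M)) atTop
      (𝓝 (2 * π * ((2 * π)⁻¹ * (∫ t in (0 : ℝ)..π, f t) - f π / 2 + 1 / 2 * f π - 0))) :=
    ((hR.add (hA.mul_const _)).sub hB).const_mul _
  have e : 2 * π * ((2 * π)⁻¹ * (∫ t in (0 : ℝ)..π, f t) - f π / 2 + 1 / 2 * f π - 0)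
      = ∫ t in (0 : ℝ)..π, f t := by
    field_simp
    ring
  rw [e] at hlim
  refine hlim.congr' ?_
  filter_upwards [eventually_gt_atTop 1] with M hM
  have hM' : (0 : ℝ) < M := by exact_mod_cast (by omega : 0 < M)
  have hsum : ∑ m ∈ Finset.range M, h (m / M)
      = f 0 + ∑ m ∈ Finset.Icc 1 (M / 2), f (m * (2 * π / M)) - (((M / 2 : ℕ) : ℝ) + 1) * f π := by
    rw [Finset.range_eq_Ico, ← Finset.sum_Ico_consecutive _ (Nat.zero_le (M / 2 + 1)) (by omega)]
    have h1 : ∑ m ∈ Finset.Ico (M / 2 + 1) M, h (m / M) = 0 := by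
      apply Finset.sum_eq_zero
      intro m hm
      rw [Finset.mem_Ico] at hm
      simp only [hh]
      rw [min_eq_right]
      · have : 2 * π * (1 / 2) = π := by ring
        rw [this, sub_self]
      · rw [div_le_div_iff₀ two_pos hM']
        have : (M : ℝ) ≤ 2 * m := by exact_mod_cast (by omega : M ≤ 2 * m)
        linarith
    have h2 : ∀ m ∈ Finset.Ico 0 (M / 2 + 1), h (m / M) = f (m * (2 * π / M)) - f π := by
      intro m hm
      rw [Finset.mem_Ico] at hm
      simp only [hh]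
      rw [min_eq_left]
      · congr 2; ring
      · rw [div_le_div_iff₀ hM' two_pos]
        have : 2 * (m : ℝ) ≤ M := by exact_mod_cast (by omega : 2 * m ≤ M)
        linarith
    rw [h1, add_zero, Finset.sum_congr rfl h2, Finset.sum_sub_distrib,
      Finset.sum_eq_sum_Ico_succ_bot (by omega)]
    have h3 : Finset.Icc 1 (M / 2) = Finset.Ico (0 + 1) (M / 2 + 1) := by
      ext i; simp only [Finset.mem_Icc, Finset.mem_Ico]; omega
    rw [h3]
    simp
  rw [hsum]
  field_simp
  ring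

theorem sg_sq (M i : ℕ) : sg M i ^ 2 = 2 - 2 * Real.cos (i * (2 * π / M)) := by
  unfold sg
  have e : (i : ℝ) * (2 * π / M) = 2 * (π * i / M) := by ring
  rw [e, Real.cos_two_mul]
  have := Real.sin_sq_add_cos_sq (π * i / M)
  linear_combination 4 * this

theorem S_eq_Icc (M j : ℕ) : S M j = ∏ i ∈ Finset.Icc 1 j, sg M i := by
  unfold S
  congr 1

theorem S_sq (M j : ℕ) : S M j ^ 2 = ∏ i ∈ Finset.Icc 1 j, (2 - 2 * Real.cos (i * (2 * π / M))) := by
  rw [S_eq_Icc, ← Finset.prod_pow]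
  apply Finset.prod_congr rfl
  intro i _
  rw [sg_sq]

theorem S_half (M : ℕ) (hM : 2 ≤ M) : (M : ℝ) ≤ S M (M / 2) ^ 2 ∧ S M (M / 2) ^ 2 ≤ 2 * M := by
  have hM' : (0 : ℝ) < M := by exact_mod_cast (by omega : 0 < M)
  rcases Nat.even_or_odd' M with ⟨h, hh | hh⟩
  · have e1 : M / 2 = h := by omega
    have h1 := S_mul (M := M) (k := h) (by omega)
    have e2 : M - 1 - h = h - 1 := by omega
    rw [e2] at h1
    have h2 : S M h = S M (h - 1) * sg M h := by
      have := S_succ M (h - 1)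
      have e3 : h - 1 + 1 = h := by omega
      rwa [e3] at this
    have h3 : sg M h = 2 := by
      unfold sg
      have hh' : (M : ℝ) = 2 * h := by rw [hh]; push_cast; ring
      have hh0 : (h : ℝ) ≠ 0 := by
        have : 0 < h := by omega
        exact_mod_cast this.ne'
      have : π * (h : ℝ) / M = π / 2 := by rw [hh']; field_simp
      rw [this, Real.sin_pi_div_two]; ring
    rw [h3] at h2
    rw [e1]
    have h4 : S M h ^ 2 = 2 * M := by
      rw [← h1]
      rw [h2]; ring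
    rw [h4]
    constructor <;> linarith
  · have e1 : M / 2 = h := by omega
    have h1 := S_mul (M := M) (k := h) (by omega)
    have e2 : M - 1 - h = h := by omega
    rw [e2] at h1
    rw [e1, sq, h1]
    constructor <;> linarith

/-- the product over the half circle -/
noncomputable def QQ (r : ℝ → ℝ) (M : ℕ) : ℝ := ∏ i ∈ Finset.Icc 1 (M / 2), r (i * (2 * π / M))

theorem half_mem (M i : ℕ) (h0 : 0 < M) (h : i ≤ M / 2) : (i : ℝ) * (2 * π / M) ∈ Icc 0 π := by
  have hM' : (0 : ℝ) < M := by exact_mod_cast h0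
  constructor
  · positivity
  · have : 2 * (i : ℝ) ≤ M := by exact_mod_cast (by omega : 2 * i ≤ M)
    have e : (i : ℝ) * (2 * π / M) = (2 * i) * π / M := by ring
    rw [e, div_le_iff₀ hM']
    nlinarith [pi_pos]

theorem prod_split (f : ℕ → ℝ) (j m : ℕ) (h : j ≤ m) :
    ∏ i ∈ Finset.Icc 1 m, f i = (∏ i ∈ Finset.Icc 1 j, f i) * ∏ i ∈ Finset.Ico (j + 1) (m + 1), f i := by
  have e : ∀ k, Finset.Icc 1 k = Finset.Ico 1 (k + 1) := by
    intro k
    ext i; simp only [Finset.mem_Icc, Finset.mem_Ico]; omega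
  rw [e, e, Finset.prod_Ico_consecutive _ (by omega) (by omega)]

theorem compare_le (r : ℝ → ℝ) (M j : ℕ) (hM : 0 < M) (hj : j ≤ M / 2)
    (hr : ∀ t ∈ Icc 0 π, 2 - 2 * Real.cos t ≤ r t) :
    (∏ i ∈ Finset.Icc 1 j, r (i * (2 * π / M))) * S M (M / 2) ^ 2 ≤ QQ r M * S M j ^ 2 := by
  rw [S_sq M (M / 2), S_sq M j]
  unfold QQ
  rw [prod_split (fun i : ℕ => r (i * (2 * π / M))) j (M / 2) hj,
    prod_split (fun i : ℕ => 2 - 2 * Real.cos (i * (2 * π / M))) j (M / 2) hj]
  have hs : ∀ t, 0 ≤ 2 - 2 * Real.cos t := fun t => by linarith [Real.cos_le_one t]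
  have h1 : 0 ≤ ∏ i ∈ Finset.Icc 1 j, r (i * (2 * π / M)) := by
    apply Finset.prod_nonneg
    intro i hi
    rw [Finset.mem_Icc] at hi
    exact (hs _).trans (hr _ (half_mem M i hM (by omega)))
  have h2 : 0 ≤ ∏ i ∈ Finset.Icc 1 j, (2 - 2 * Real.cos (i * (2 * π / M))) :=
    Finset.prod_nonneg fun i _ => hs _
  have h3 : ∏ i ∈ Finset.Ico (j + 1) (M / 2 + 1), (2 - 2 * Real.cos (i * (2 * π / M)))
      ≤ ∏ i ∈ Finset.Ico (j + 1) (M / 2 + 1), r (i * (2 * π / M)) := by
    apply Finset.prod_le_prod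
    · intro i _; exact hs _
    · intro i hi
      rw [Finset.mem_Ico] at hi
      exact hr _ (half_mem M i hM (by omega))
  calc _ = (∏ i ∈ Finset.Icc 1 j, r (i * (2 * π / M))) *
        (∏ i ∈ Finset.Icc 1 j, (2 - 2 * Real.cos (i * (2 * π / M)))) *
        ∏ i ∈ Finset.Ico (j + 1) (M / 2 + 1), (2 - 2 * Real.cos (i * (2 * π / M))) := by ring
    _ ≤ (∏ i ∈ Finset.Icc 1 j, r (i * (2 * π / M))) *
        (∏ i ∈ Finset.Icc 1 j, (2 - 2 * Real.cos (i * (2 * π / M)))) *
        ∏ i ∈ Finset.Ico (j + 1) (M / 2 + 1), r (i * (2 * π / M)) :=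
      mul_le_mul_of_nonneg_left h3 (mul_nonneg h1 h2)
    _ = _ := by ring

theorem compare_eq (r : ℝ → ℝ) (ts : ℝ) (M K : ℕ) (hM : 0 < M) (hK : K ≤ M / 2)
    (hts : ts ≤ ((K : ℝ) + 1) * (2 * π / M)) (hr : ∀ t ∈ Icc ts π, r t = 2 - 2 * Real.cos t) :
    (∏ i ∈ Finset.Icc 1 K, r (i * (2 * π / M))) * S M (M / 2) ^ 2 = QQ r M * S M K ^ 2 := by
  have hM' : (0 : ℝ) < M := by exact_mod_cast hM
  rw [S_sq M (M / 2), S_sq M K]
  unfold QQ
  rw [prod_split (fun i : ℕ => r (i * (2 * π / M))) K (M / 2) hK,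
    prod_split (fun i : ℕ => 2 - 2 * Real.cos (i * (2 * π / M))) K (M / 2) hK]
  have h3 : ∏ i ∈ Finset.Ico (K + 1) (M / 2 + 1), r (i * (2 * π / M))
      = ∏ i ∈ Finset.Ico (K + 1) (M / 2 + 1), (2 - 2 * Real.cos (i * (2 * π / M))) := by
    apply Finset.prod_congr rfl
    intro i hi
    rw [Finset.mem_Ico] at hi
    apply hr
    refine ⟨?_, (half_mem M i hM (by omega)).2⟩
    have : (K : ℝ) + 1 ≤ i := by exact_mod_cast hi.1
    have hp : 0 ≤ 2 * π / M := by positivity
    exact hts.trans (mul_le_mul_of_nonneg_right this hp)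
  rw [h3]
  ring

theorem QQ_ge (r : ℝ → ℝ) (M : ℕ) (hM : 2 ≤ M)
    (hr : ∀ t ∈ Icc 0 π, 2 - 2 * Real.cos t ≤ r t) : (M : ℝ) ≤ QQ r M := by
  have h := compare_le r M 0 (by omega) (Nat.zero_le _) hr
  simp only [S_zero] at h
  have h2 := (S_half M hM).1
  simp at h
  linarith

theorem QQ_log (r : ℝ → ℝ) (hc : ContinuousOn r (Icc 0 π)) (hpos : ∀ t ∈ Icc 0 π, 0 < r t) :
    Tendsto (fun M : ℕ => (2 * π / M) * Real.log (QQ r M)) atTop
      (𝓝 (∫ t in (0 : ℝ)..π, Real.log (r t))) := by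
  have hpi := pi_pos
  set f : ℝ → ℝ := fun t => Real.log (r (max 0 (min t π))) with hf
  have hmem : ∀ t : ℝ, max 0 (min t π) ∈ Icc 0 π := fun t =>
    ⟨le_max_left _ _, max_le hpi.le (min_le_right _ _)⟩
  have hfc : Continuous f := by
    rw [hf]
    apply Continuous.log
    · exact hc.comp_continuous (continuous_const.max (continuous_id.min continuous_const)) hmem
    · intro t
      exact (hpos _ (hmem t)).ne'
  have hR := riemann_half f hfc
  have e1 : ∀ t ∈ Icc 0 π, f t = Real.log (r t) := by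
    intro t ht
    simp only [hf]
    rw [min_eq_left ht.2, max_eq_right ht.1]
  have e2 : ∫ t in (0 : ℝ)..π, f t = ∫ t in (0 : ℝ)..π, Real.log (r t) := by
    apply intervalIntegral.integral_congr
    intro t ht
    rw [uIcc_of_le hpi.le] at ht
    exact e1 t ht
  rw [e2] at hR
  refine hR.congr' ?_
  filter_upwards [eventually_gt_atTop 0] with M hM
  unfold QQ
  rw [Real.log_prod]
  · congr 1
    apply Finset.sum_congr rfl
    intro i hi
    rw [Finset.mem_Icc] at hi
    exact e1 _ (half_mem M i hM hi.2)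
  · intro i hi
    rw [Finset.mem_Icc] at hi
    exact (hpos _ (half_mem M i hM hi.2)).ne'

end Pool.Agent.H63.VC
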