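import Mathlib

/-! # Slowly varying products of operators -/

namespace Pool.Agent.H63.VC

open Set

section SlowL

open Filter Topology

variable {E : Type*} [NormedAddCommGroup E] [NormedSpace ℂ E]

/-- If all eigenvalues have modulus less than one, some power is a contraction. -/
lemma slowL_exists_pow [FiniteDimensional ℂ E] (D : E →L[ℂ] E)
    (h : ∀ z : ℂ, ∀ x : E, x ≠ 0 → D x = z • x → ‖z‖ < 1) :
    ∃ m : ℕ, 1 ≤ m ∧ ‖D ^ m‖ < 1 := by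
  have : CompleteSpace E := FiniteDimensional.complete ℂ E
  rcases subsingleton_or_nontrivial E with hE | hE
  · refine ⟨1, le_rfl, ?_⟩
    have : D ^ 1 = 0 := by
      ext x
      exact Subsingleton.elim _ _
    rw [this, norm_zero]
    exact one_pos
  · have hspec : ∀ k ∈ spectrum ℂ D, ‖k‖₊ < 1 := by
      intro k hk
      by_contra hcon
      rw [not_lt] at hcon
      apply hk
      have hinj : Function.Injective (algebraMap ℂ (E →L[ℂ] E) k - D) := by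
        rw [injective_iff_map_eq_zero]
        intro x hx
        by_contra hx0
        have h1 : D x = k • x := by
          have h5 : (algebraMap ℂ (E →L[ℂ] E) k - D) x = k • x - D x := rfl
          rw [h5] at hx
          exact (sub_eq_zero.1 hx).symm
        have h2 := h k x hx0 h1
        have h3 : (1 : ℝ) ≤ ‖k‖ := by exact_mod_cast hcon
        linarith only [h2, hcon]
      have hsurj : Function.Surjective (algebraMap ℂ (E →L[ℂ] E) k - D) :=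
        (LinearMap.injective_iff_surjective (f := (algebraMap ℂ (E →L[ℂ] E) k - D :
          E →L[ℂ] E).toLinearMap)).1 hinj
      exact ContinuousLinearMap.isUnit_iff_bijective.2 ⟨hinj, hsurj⟩
    have hr := spectrum.spectralRadius_lt_of_forall_lt D hspec
    have ht := spectrum.pow_nnnorm_pow_one_div_tendsto_nhds_spectralRadius D
    obtain ⟨m, hm, hm1⟩ := ((ht.eventually (gt_mem_nhds hr)).and (eventually_ge_atTop 1)).exists
    refine ⟨m, hm1, ?_⟩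
    by_contra hcon
    rw [not_lt] at hcon
    have h1 : (1 : ENNReal) ≤ (‖D ^ m‖₊ : ENNReal) := by
      have : (1 : NNReal) ≤ ‖D ^ m‖₊ := by exact_mod_cast hcon
      exact_mod_cast this
    have h2 : (1 : ENNReal) ≤ (‖D ^ m‖₊ : ENNReal) ^ (1 / (m : ℝ)) :=
      ENNReal.one_le_rpow h1 (by positivity)
    exact absurd hm (not_lt.2 h2)

/-- A uniform version on a compact interval. -/
lemma slowL_uniform_pow [FiniteDimensional ℂ E] (T : ℝ) (D : ℝ → E →L[ℂ] E)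
    (hD : ContinuousOn D (Icc 0 T))
    (h : ∀ t ∈ Icc 0 T, ∀ z : ℂ, ∀ x : E, x ≠ 0 → D t x = z • x → ‖z‖ < 1) :
    ∃ (m : ℕ) (θ : ℝ), 1 ≤ m ∧ 0 < θ ∧ θ < 1 ∧ ∀ t ∈ Icc 0 T, ‖D t ^ m‖ ≤ θ ^ m := by
  have hloc : ∀ t ∈ Icc 0 T, ∃ m : ℕ, 1 ≤ m ∧ ‖D t ^ m‖ < 1 := fun t ht =>
    slowL_exists_pow (D t) (h t ht)
  choose! ν hν1 hν using hloc
  have hcov : ∀ t ∈ Icc 0 T, {s | ‖D s ^ ν t‖ < 1} ∈ 𝓝[Icc 0 T] t := by
    intro t ht
    have h1 : ContinuousWithinAt (fun s => ‖D s ^ ν t‖) (Icc 0 T) t :=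
      ((hD t ht).pow (ν t)).norm
    exact h1 (gt_mem_nhds (hν t ht))
  obtain ⟨F, hF, hFc⟩ := isCompact_Icc.elim_nhdsWithin_subcover _ hcov
  -- a common power
  set m : ℕ := ∏ t ∈ F, ν t with hm
  have hm1 : 1 ≤ m := Finset.one_le_prod' fun t ht => hν1 t (hF t ht)
  have hlt : ∀ s ∈ Icc 0 T, ‖D s ^ m‖ < 1 := by
    intro s hs
    obtain ⟨t, ht, hst⟩ := mem_iUnion₂.1 (hFc hs)
    obtain ⟨k, hk⟩ : ν t ∣ m := Finset.dvd_prod_of_mem _ ht
    have hk0 : k ≠ 0 := by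
      rintro rfl
      rw [hk] at hm1
      simp at hm1
    rw [hk, pow_mul]
    refine lt_of_le_of_lt (norm_pow_le' _ (Nat.pos_of_ne_zero hk0)) ?_
    exact pow_lt_one₀ (norm_nonneg _) hst hk0
  rcases (Icc (0 : ℝ) T).eq_empty_or_nonempty with he | hne
  · refine ⟨1, 1 / 2, le_rfl, by norm_num, by norm_num, ?_⟩
    intro t ht
    rw [he] at ht
    exact absurd ht (notMem_empty t)
  · have hcont : ContinuousOn (fun s => ‖D s ^ m‖) (Icc 0 T) := fun t ht =>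
      ((hD t ht).pow m).norm
    obtain ⟨t₀, ht₀, hmax⟩ := isCompact_Icc.exists_isMaxOn hne hcont
    set M : ℝ := max (‖D t₀ ^ m‖) (1 / 2) with hM
    have hM0 : 0 < M := lt_of_lt_of_le (by norm_num) (le_max_right _ _)
    have hM1 : M < 1 := max_lt (hlt t₀ ht₀) (by norm_num)
    refine ⟨m, M ^ (1 / (m : ℝ)), hm1, Real.rpow_pos_of_pos hM0 _,
      Real.rpow_lt_one hM0.le hM1 (by positivity), ?_⟩
    intro t ht
    rw [← Real.rpow_natCast, ← Real.rpow_mul hM0.le, one_div, inv_mul_cancel₀ (by positivity),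
      Real.rpow_one]
    exact (hmax ht).trans (le_max_left _ _)

/-- The adapted norm. -/
noncomputable def slowL_nrm (D : E →L[ℂ] E) (θ : ℝ) (m : ℕ) (x : E) : ℝ :=
  ∑ k ∈ Finset.range m, (θ ^ k)⁻¹ * ‖(D ^ k) x‖

lemma slowL_le_nrm (D : E →L[ℂ] E) {θ : ℝ} (hθ : 0 < θ) {m : ℕ} (hm : 1 ≤ m) (x : E) :
    ‖x‖ ≤ slowL_nrm D θ m x := by
  unfold slowL_nrm
  have h := Finset.single_le_sum (f := fun k => (θ ^ k)⁻¹ * ‖(D ^ k) x‖) (s := Finset.range m)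
    (fun k _ => by positivity) (Finset.mem_range.2 hm)
  simpa using h

lemma slowL_nrm_add (D : E →L[ℂ] E) {θ : ℝ} (hθ : 0 < θ) (m : ℕ) (x y : E) :
    slowL_nrm D θ m (x + y) ≤ slowL_nrm D θ m x + slowL_nrm D θ m y := by
  unfold slowL_nrm
  rw [← Finset.sum_add_distrib]
  refine Finset.sum_le_sum fun k _ => ?_
  rw [← mul_add, map_add]
  exact mul_le_mul_of_nonneg_left (norm_add_le _ _) (by positivity)

lemma slowL_nrm_smul (D : E →L[ℂ] E) (θ : ℝ) (m : ℕ) (c : ℂ) (x : E) :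
    slowL_nrm D θ m (c • x) = ‖c‖ * slowL_nrm D θ m x := by
  unfold slowL_nrm
  rw [Finset.mul_sum]
  refine Finset.sum_congr rfl fun k _ => ?_
  rw [map_smul, norm_smul]
  ring

lemma slowL_nrm_le (D : E →L[ℂ] E) {θ : ℝ} (hθ : 0 < θ) (m : ℕ) (x : E) :
    slowL_nrm D θ m x ≤ (∑ k ∈ Finset.range m, (θ ^ k)⁻¹ * ‖D ^ k‖) * ‖x‖ := by
  unfold slowL_nrm
  rw [Finset.sum_mul]
  refine Finset.sum_le_sum fun k _ => ?_
  rw [mul_assoc]
  exact mul_le_mul_of_nonneg_left ((D ^ k).le_opNorm x) (by positivity)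

lemma slowL_nrm_map (D : E →L[ℂ] E) {θ : ℝ} (hθ : 0 < θ) (m : ℕ)
    (hD : ‖D ^ m‖ ≤ θ ^ m) (x : E) : slowL_nrm D θ m (D x) ≤ θ * slowL_nrm D θ m x := by
  have h1 : slowL_nrm D θ m (D x) = θ * ∑ k ∈ Finset.range m, (θ ^ (k + 1))⁻¹ * ‖(D ^ (k + 1)) x‖ := by
    unfold slowL_nrm
    rw [Finset.mul_sum]
    refine Finset.sum_congr rfl fun k _ => ?_
    have e : (D ^ k) (D x) = (D ^ (k + 1)) x := by rw [pow_succ]; rfl
    rw [e, pow_succ θ k]
    field_simp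
  rw [h1]
  refine mul_le_mul_of_nonneg_left ?_ hθ.le
  have h2 := Finset.sum_range_succ' (fun k => (θ ^ k)⁻¹ * ‖(D ^ k) x‖) m
  have h3 := Finset.sum_range_succ (fun k => (θ ^ k)⁻¹ * ‖(D ^ k) x‖) m
  have h4 : (θ ^ m)⁻¹ * ‖(D ^ m) x‖ ≤ ‖x‖ := by
    rw [inv_mul_le_iff₀ (by positivity)]
    exact ((D ^ m).le_opNorm x).trans (mul_le_mul_of_nonneg_right hD (norm_nonneg _))
  have h5 : (θ ^ 0)⁻¹ * ‖(D ^ 0) x‖ = ‖x‖ := by simp
  unfold slowL_nrm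
  linarith only [h5, h4, h3, h2]

/-- A function continuous on a compact interval is bounded there. -/
lemma slowL_bound {F : Type*} [NormedAddCommGroup F] {T : ℝ} {f : ℝ → F}
    (hf : ContinuousOn f (Icc 0 T)) : ∃ C : ℝ, 1 ≤ C ∧ ∀ t ∈ Icc 0 T, ‖f t‖ ≤ C := by
  obtain ⟨C, hC⟩ := isCompact_Icc.exists_bound_of_continuousOn hf
  exact ⟨max C 1, le_max_right _ _, fun t ht => (hC t ht).trans (le_max_left _ _)⟩

/-- Uniform continuity. -/
lemma slowL_unif {F : Type*} [NormedAddCommGroup F] {T : ℝ} {f : ℝ → F}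
    (hf : ContinuousOn f (Icc 0 T)) {ω : ℝ} (hω : 0 < ω) :
    ∃ η : ℝ, 0 < η ∧ ∀ t ∈ Icc 0 T, ∀ s ∈ Icc 0 T, |t - s| < η → ‖f t - f s‖ ≤ ω := by
  have h := isCompact_Icc.uniformContinuousOn_of_continuous hf
  rw [Metric.uniformContinuousOn_iff] at h
  obtain ⟨η, hη, h⟩ := h ω hω
  refine ⟨η, hη, fun t ht s hs hts => ?_⟩
  have := h t ht s hs (by rwa [Real.dist_eq])
  rw [dist_eq_norm] at this
  exact this.le

/-- Variation of the adapted norm. -/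
lemma slowL_nrm_var [FiniteDimensional ℂ E] {T : ℝ} {D : ℝ → E →L[ℂ] E}
    (hD : ContinuousOn D (Icc 0 T)) {θ : ℝ} (hθ : 0 < θ) (m : ℕ) {ω : ℝ} (hω : 0 < ω) :
    ∃ η : ℝ, 0 < η ∧ ∀ t ∈ Icc 0 T, ∀ s ∈ Icc 0 T, |t - s| < η → ∀ x : E,
      slowL_nrm (D t) θ m x ≤ slowL_nrm (D s) θ m x + ω * ‖x‖ := by
  induction m with
  | zero =>
    refine ⟨1, one_pos, fun t _ s _ _ x => ?_⟩
    simp only [slowL_nrm, Finset.range_zero, Finset.sum_empty, zero_add]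
    positivity
  | succ m ih =>
    -- use `ω / 2` for the sum and for the last term
    have key : ∀ n : ℕ, ∀ ω : ℝ, 0 < ω → ∃ η : ℝ, 0 < η ∧ ∀ t ∈ Icc 0 T, ∀ s ∈ Icc 0 T,
        |t - s| < η → ∀ x : E, slowL_nrm (D t) θ n x ≤ slowL_nrm (D s) θ n x + ω * ‖x‖ := by
      intro n
      induction n with
      | zero =>
        intro ω hω
        refine ⟨1, one_pos, fun t _ s _ _ x => ?_⟩
        simp only [slowL_nrm, Finset.range_zero, Finset.sum_empty, zero_add]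
        positivity
      | succ n ih =>
        intro ω hω
        obtain ⟨η₁, hη₁, h₁⟩ := ih (ω / 2) (by positivity)
        have hcont : ContinuousOn (fun t => D t ^ n) (Icc 0 T) := hD.pow n
        obtain ⟨η₂, hη₂, h₂⟩ := slowL_unif hcont (ω := ω / 2 * θ ^ n) (by positivity)
        refine ⟨min η₁ η₂, lt_min hη₁ hη₂, fun t ht s hs hts x => ?_⟩
        have e1 := h₁ t ht s hs (lt_of_lt_of_le hts (min_le_left _ _)) x
        have e2 := h₂ t ht s hs (lt_of_lt_of_le hts (min_le_right _ _))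
        unfold slowL_nrm at e1 ⊢
        rw [Finset.sum_range_succ, Finset.sum_range_succ]
        have e3 : ‖(D t ^ n) x‖ ≤ ‖(D s ^ n) x‖ + ω / 2 * θ ^ n * ‖x‖ := by
          have e4 : (D t ^ n) x = (D s ^ n) x + (D t ^ n - D s ^ n) x := by
            have h5 : (D t ^ n - D s ^ n) x = (D t ^ n) x - (D s ^ n) x := rfl
            rw [h5]; abel
          rw [e4]
          refine (norm_add_le _ _).trans ?_
          have e5 := (D t ^ n - D s ^ n).le_opNorm x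
          have e6 : ‖D t ^ n - D s ^ n‖ * ‖x‖ ≤ ω / 2 * θ ^ n * ‖x‖ :=
            mul_le_mul_of_nonneg_right e2 (norm_nonneg _)
          linarith only [e6, e5]
        have e7 : (θ ^ n)⁻¹ * ‖(D t ^ n) x‖ ≤ (θ ^ n)⁻¹ * ‖(D s ^ n) x‖ + ω / 2 * ‖x‖ := by
          have e8 := mul_le_mul_of_nonneg_left e3 (by positivity : 0 ≤ (θ ^ n)⁻¹)
          have e9 : (θ ^ n)⁻¹ * (‖(D s ^ n) x‖ + ω / 2 * θ ^ n * ‖x‖) =
              (θ ^ n)⁻¹ * ‖(D s ^ n) x‖ + ω / 2 * ‖x‖ := by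
            field_simp
          linarith only [e9, e8]
        linarith only [e7, e1]
    exact key (m + 1) ω hω

/-- One step. -/
lemma slowL_step [FiniteDimensional ℂ E] (T : ℝ) (A : ℝ → E →L[ℂ] E)
    (hA : ContinuousOn A (Icc 0 T))
    (μ : ℝ → ℂ) (hμ : ContinuousOn μ (Icc 0 T)) (hμ0 : ∀ t ∈ Icc 0 T, μ t ≠ 0)
    (v : ℝ → E) (hv : ContinuousOn v (Icc 0 T))
    (ℓ : ℝ → E →L[ℂ] ℂ) (hℓ : ContinuousOn ℓ (Icc 0 T))
    (h1 : ∀ t ∈ Icc 0 T, A t (v t) = μ t • v t)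
    (h2 : ∀ t ∈ Icc 0 T, ∀ x, ℓ t (A t x) = μ t * ℓ t x)
    (h3 : ∀ t ∈ Icc 0 T, ℓ t (v t) = 1)
    (h4 : ∀ t ∈ Icc 0 T, ∀ z : ℂ, ∀ x : E, x ≠ 0 → A t x = z • x → ℓ t x = 0 → ‖z‖ < ‖μ t‖) :
    ∃ (θ C : ℝ) (n : ℝ → E → ℝ), 0 < θ ∧ θ < 1 ∧ 1 ≤ C ∧ (∀ t ∈ Icc 0 T, ∀ x, ‖x‖ ≤ n t x) ∧
      (∀ t ∈ Icc 0 T, ∀ x, n t x ≤ C * ‖x‖) ∧ (∀ t ∈ Icc 0 T, ‖v t‖ ≤ C) ∧
      ∀ δ : ℝ, 0 < δ → ∃ η : ℝ, 0 < η ∧ ∀ t ∈ Icc 0 T, ∀ t' ∈ Icc 0 T, |t' - t| < η →
        ∀ B : E →L[ℂ] E, ‖B - A t'‖ ≤ η → ∀ x : E,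
          ‖μ t'‖ * (‖ℓ t x‖ - δ * (‖ℓ t x‖ + n t (x - ℓ t x • v t))) ≤ ‖ℓ t' (B x)‖ ∧
          n t' (B x - ℓ t' (B x) • v t') ≤
            ‖μ t'‖ * (θ * n t (x - ℓ t x • v t) + δ * (‖ℓ t x‖ + n t (x - ℓ t x • v t))) := by
  -- the normalised complementary operator
  set P : ℝ → E →L[ℂ] E := fun t => (ℓ t).smulRight (v t) with hP
  have hPapp : ∀ t x, P t x = ℓ t x • v t := fun t x => rfl
  have hPcont : ContinuousOn P (Icc 0 T) := by
    have : Continuous (fun p : (E →L[ℂ] ℂ) × E => p.1.smulRight p.2) := by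
      exact (ContinuousLinearMap.smulRightL ℂ E E).continuous₂
    exact this.comp_continuousOn (hℓ.prodMk hv)
  set D : ℝ → E →L[ℂ] E := fun t => (μ t)⁻¹ • A t - P t with hDdef
  have hDapp : ∀ t x, D t x = (μ t)⁻¹ • A t x - ℓ t x • v t := fun t x => rfl
  have hμi : ContinuousOn (fun t => (μ t)⁻¹) (Icc 0 T) := hμ.inv₀ hμ0
  have hDc : ContinuousOn D (Icc 0 T) := (hμi.smul hA).sub hPcont
  have hDv : ∀ t ∈ Icc 0 T, D t (v t) = 0 := by
    intro t ht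
    rw [hDapp, h1 t ht, h3 t ht, smul_smul, inv_mul_cancel₀ (hμ0 t ht), sub_self]
  have hℓD : ∀ t ∈ Icc 0 T, ∀ x, ℓ t (D t x) = 0 := by
    intro t ht x
    rw [hDapp, map_sub, map_smul, map_smul, h2 t ht, h3 t ht, smul_eq_mul, smul_eq_mul,
      inv_mul_cancel_left₀ (hμ0 t ht), mul_one, sub_self]
  have hspec : ∀ t ∈ Icc 0 T, ∀ z : ℂ, ∀ x : E, x ≠ 0 → D t x = z • x → ‖z‖ < 1 := by
    intro t ht z x hx hzx
    by_cases hz : z = 0
    · rw [hz, norm_zero]; exact one_pos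
    · have e1 := hℓD t ht x
      rw [hzx, map_smul, smul_eq_mul] at e1
      have e2 : ℓ t x = 0 := (mul_eq_zero.1 e1).resolve_left hz
      rw [hDapp, e2, zero_smul, sub_zero] at hzx
      have e3 : A t x = (μ t * z) • x := by
        rw [mul_smul, ← hzx, smul_smul, mul_inv_cancel₀ (hμ0 t ht), one_smul]
      have e4 := h4 t ht (μ t * z) x hx e3 e2
      rw [norm_mul] at e4
      have e5 : 0 < ‖μ t‖ := norm_pos_iff.2 (hμ0 t ht)
      (refine lt_of_not_ge fun hng => ?_; linarith only [e4,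
        mul_nonneg (sub_nonneg.2 hng) (sub_nonneg.2 e5.le)])
  obtain ⟨m, θ, hm, hθ0, hθ1, hpow⟩ := slowL_uniform_pow T D hDc hspec
  -- constants
  obtain ⟨C₁, hC₁, hC₁b⟩ := slowL_bound hv
  obtain ⟨C₂, hC₂, hC₂b⟩ := slowL_bound hℓ
  obtain ⟨C₃, hC₃, hC₃b⟩ := slowL_bound hμi
  obtain ⟨C₄, hC₄, hC₄b⟩ := slowL_bound (T := T)
    (f := fun t => ∑ k ∈ Finset.range m, (θ ^ k)⁻¹ * ‖D t ^ k‖)
    (continuousOn_finsetSum _ fun k _ => continuousOn_const.mul (hDc.pow k).norm)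
  set C : ℝ := C₁ * C₂ * C₃ * C₄ with hC
  have hC12 : 1 ≤ C₁ * C₂ := by (refine le_of_not_gt fun hng => ?_; linarith only [hC₂, hC₁,
                                  mul_nonneg (sub_nonneg.2 hC₁) (sub_nonneg.2 hC₂),
                                  mul_pos (sub_pos.2 hng) (sub_pos.2 hθ1),
                                  mul_pos (sub_pos.2 hng) (sub_pos.2 hθ0)])
  have hC123 : 1 ≤ C₁ * C₂ * C₃ := by (refine le_of_not_gt fun hng => ?_; linarith only [hC12, hC₃,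
                                        mul_nonneg (sub_nonneg.2 hC₃) (sub_nonneg.2 hC12),
                                        mul_pos (sub_pos.2 hng) (sub_pos.2 hθ1),
                                        mul_pos (sub_pos.2 hng) (sub_pos.2 hθ0)])
  have hC1 : 1 ≤ C := by rw [hC]; (refine le_of_not_gt fun hng => ?_; linarith only [hC123, hC₄,
                                    mul_nonneg (sub_nonneg.2 hC₄) (sub_nonneg.2 hC123),
                                    mul_pos (sub_pos.2 hng) (sub_pos.2 hθ1),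
                                    mul_pos (sub_pos.2 hng) (sub_pos.2 hθ0)])
  have hCC₁ : C₁ ≤ C := by
    rw [hC]
    calc C₁ = C₁ * 1 * 1 * 1 := by ring
      _ ≤ C₁ * C₂ * C₃ * C₄ := by gcongr
  have hCC₂ : C₂ ≤ C := by
    rw [hC]
    calc C₂ = 1 * C₂ * 1 * 1 := by ring
      _ ≤ C₁ * C₂ * C₃ * C₄ := by gcongr
  have hCC₃ : C₃ ≤ C := by
    rw [hC]
    calc C₃ = 1 * 1 * C₃ * 1 := by ring
      _ ≤ C₁ * C₂ * C₃ * C₄ := by gcongr
  have hCC₄ : C₄ ≤ C := by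
    rw [hC]
    calc C₄ = 1 * 1 * 1 * C₄ := by ring
      _ ≤ C₁ * C₂ * C₃ * C₄ := by gcongr
  have hvC : ∀ t ∈ Icc 0 T, ‖v t‖ ≤ C := fun t ht => (hC₁b t ht).trans hCC₁
  have hℓC : ∀ t ∈ Icc 0 T, ‖ℓ t‖ ≤ C := fun t ht => (hC₂b t ht).trans hCC₂
  have hμC : ∀ t ∈ Icc 0 T, 1 ≤ C * ‖μ t‖ := by
    intro t ht
    have e1 := (hC₃b t ht).trans hCC₃
    have e5 : 0 < ‖μ t‖ := norm_pos_iff.2 (hμ0 t ht)
    rw [norm_inv] at e1
    rw [inv_le_iff_one_le_mul₀ e5] at e1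
    exact e1
  have hnC : ∀ t ∈ Icc 0 T, ∀ x, slowL_nrm (D t) θ m x ≤ C * ‖x‖ := by
    intro t ht x
    refine (slowL_nrm_le (D t) hθ0 m x).trans ?_
    have e1 := hC₄b t ht
    rw [Real.norm_eq_abs] at e1
    exact mul_le_mul_of_nonneg_right ((le_abs_self _).trans (e1.trans hCC₄)) (norm_nonneg _)
  clear_value C
  clear hP hPapp hPcont hDdef
  clear_value D
  refine ⟨θ, C, fun t => slowL_nrm (D t) θ m, hθ0, hθ1, hC1,
    fun t _ x => slowL_le_nrm (D t) hθ0 hm x, hnC, hvC, ?_⟩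
  intro δ hδ
  have hC0 : 0 < C := by linarith only [hC1, hθ1, hθ0]
  -- the modulus
  obtain ⟨ω, hω, hωδ⟩ : ∃ ω : ℝ, 0 < ω ∧ 4 * C ^ 5 * ω ≤ δ := by
    refine ⟨δ / (4 * C ^ 5), by positivity, ?_⟩
    rw [mul_div_cancel₀]
    positivity
  obtain ⟨η₁, hη₁, hu₁⟩ := slowL_unif hv hω
  obtain ⟨η₂, hη₂, hu₂⟩ := slowL_unif hℓ hω
  obtain ⟨η₃, hη₃, hu₃⟩ := slowL_nrm_var hDc hθ0 m hω
  refine ⟨min (min η₁ η₂) (min η₃ ω), by positivity, ?_⟩
  intro t ht t' ht' htt B hB x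
  have hB' : ‖B - A t'‖ ≤ ω := hB.trans ((min_le_right _ _).trans (min_le_right _ _))
  have hv' : ‖v t' - v t‖ ≤ ω := hu₁ t' ht' t ht
    (lt_of_lt_of_le htt ((min_le_left _ _).trans (min_le_left _ _)))
  have hℓ' : ‖ℓ t' - ℓ t‖ ≤ ω := hu₂ t' ht' t ht
    (lt_of_lt_of_le htt ((min_le_left _ _).trans (min_le_right _ _)))
  have hn' := hu₃ t' ht' t ht (lt_of_lt_of_le htt ((min_le_right _ _).trans (min_le_left _ _)))
  have hμ' := hμC t' ht'
  have hμp : 0 < ‖μ t'‖ := norm_pos_iff.2 (hμ0 t' ht')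
  set a : ℂ := ℓ t x with ha
  set r : E := x - a • v t with hr
  set ρ : ℝ := slowL_nrm (D t) θ m r with hρ
  have hxr : x = a • v t + r := by rw [hr]; abel
  have hrρ : ‖r‖ ≤ ρ := slowL_le_nrm (D t) hθ0 hm r
  have hρ0 : 0 ≤ ρ := (norm_nonneg _).trans hrρ
  have hα0 : 0 ≤ ‖a‖ := norm_nonneg _
  have hx : ‖x‖ ≤ C * (‖a‖ + ρ) := by
    rw [hxr]
    refine (norm_add_le _ _).trans ?_
    rw [norm_smul]
    have h5 : ‖a‖ * ‖v t‖ ≤ ‖a‖ * C := mul_le_mul_of_nonneg_left (hvC t ht) hα0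
    have h6 : 1 * ρ ≤ C * ρ := mul_le_mul_of_nonneg_right hC1 hρ0
    have h7 : C * (‖a‖ + ρ) = ‖a‖ * C + C * ρ := by ring
    linarith only [h6, h5, hrρ]
  have hx0 : 0 ≤ ‖x‖ := norm_nonneg _
  set Δ : E →L[ℂ] E := B - A t' with hΔ
  have hBx : B x = A t' x + Δ x := by
    have h5 : Δ x = B x - A t' x := rfl
    rw [h5]; abel
  have hΔx : ‖Δ x‖ ≤ ω * ‖x‖ :=
    (Δ.le_opNorm x).trans (mul_le_mul_of_nonneg_right hB' hx0)
  have hC5 : C ^ 2 ≤ C ^ 5 := pow_le_pow_right₀ hC1 (by norm_num)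
  have hC35 : C ^ 3 ≤ C ^ 5 := pow_le_pow_right₀ hC1 (by norm_num)
  have hC15 : C ≤ C ^ 5 := by
    calc C = C ^ 1 := (pow_one C).symm
      _ ≤ C ^ 5 := pow_le_pow_right₀ hC1 (by norm_num)
  constructor
  · -- the main component
    have e1 : ℓ t' (B x) = μ t' * a + (μ t' * (ℓ t' - ℓ t) x + ℓ t' (Δ x)) := by
      have h5 : (ℓ t' - ℓ t) x = ℓ t' x - ℓ t x := rfl
      rw [hBx, map_add, h2 t' ht', h5, ha]; ring
    have e2 : ‖μ t' * a‖ ≤ ‖ℓ t' (B x)‖ + ‖μ t' * (ℓ t' - ℓ t) x + ℓ t' (Δ x)‖ := by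
      have : μ t' * a = ℓ t' (B x) - (μ t' * (ℓ t' - ℓ t) x + ℓ t' (Δ x)) := by rw [e1]; ring
      rw [this]
      exact norm_sub_le _ _
    have e3 : ‖μ t' * (ℓ t' - ℓ t) x + ℓ t' (Δ x)‖ ≤ ‖μ t'‖ * (ω * ‖x‖) + C * (ω * ‖x‖) := by
      refine (norm_add_le _ _).trans (add_le_add ?_ ?_)
      · rw [norm_mul]
        refine mul_le_mul_of_nonneg_left ?_ (norm_nonneg _)
        exact ((ℓ t' - ℓ t).le_opNorm x).trans (mul_le_mul_of_nonneg_right hℓ' hx0)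
      · refine ((ℓ t').le_opNorm _).trans ?_
        exact mul_le_mul (hℓC t' ht') hΔx (norm_nonneg _) hC0.le
    have e4 : C * (ω * ‖x‖) ≤ ‖μ t'‖ * (C ^ 2 * (ω * ‖x‖)) := by
      have : 0 ≤ C * (ω * ‖x‖) := by positivity
      calc C * (ω * ‖x‖) = 1 * (C * (ω * ‖x‖)) := by ring
        _ ≤ (C * ‖μ t'‖) * (C * (ω * ‖x‖)) := mul_le_mul_of_nonneg_right hμ' this
        _ = ‖μ t'‖ * (C ^ 2 * (ω * ‖x‖)) := by ring
    have e5 : ω * ‖x‖ + C ^ 2 * (ω * ‖x‖) ≤ δ * (‖a‖ + ρ) := by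
      have e6 : ω * ‖x‖ ≤ ω * (C * (‖a‖ + ρ)) := mul_le_mul_of_nonneg_left hx hω.le
      have e7 : 0 ≤ ω * (‖a‖ + ρ) := by positivity
      have e8 : C ^ 2 * (ω * ‖x‖) ≤ C ^ 2 * (ω * (C * (‖a‖ + ρ))) :=
        mul_le_mul_of_nonneg_left e6 (by positivity)
      calc ω * ‖x‖ + C ^ 2 * (ω * ‖x‖) ≤ ω * (C * (‖a‖ + ρ)) + C ^ 2 * (ω * (C * (‖a‖ + ρ))) :=
            add_le_add e6 e8
        _ = (C + C ^ 3) * (ω * (‖a‖ + ρ)) := by ring
        _ ≤ (4 * C ^ 5) * (ω * (‖a‖ + ρ)) := by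
            refine mul_le_mul_of_nonneg_right ?_ e7
            have : 0 < C ^ 5 := by positivity
            linarith only [hC15, hC35, hC1, hθ1, hθ0]
        _ = (4 * C ^ 5 * ω) * (‖a‖ + ρ) := by ring
        _ ≤ δ * (‖a‖ + ρ) := mul_le_mul_of_nonneg_right hωδ (by positivity)
    have e9 := mul_le_mul_of_nonneg_left e5 hμp.le
    rw [norm_mul] at e2
    have e10 : ‖μ t'‖ * (‖a‖ - δ * (‖a‖ + ρ)) = ‖μ t'‖ * ‖a‖ - ‖μ t'‖ * (δ * (‖a‖ + ρ)) := by ring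
    rw [e10]
    have e11 : ‖μ t'‖ * (ω * ‖x‖ + C ^ 2 * (ω * ‖x‖)) = ‖μ t'‖ * (ω * ‖x‖) +
      ‖μ t'‖ * (C ^ 2 * (ω * ‖x‖)) := by ring
    linarith only [e9, e4, e3, e2]
  · -- the complementary component
    have e1 : B x - ℓ t' (B x) • v t' = μ t' • (D t' r + a • D t' (v t - v t')) +
        (Δ x - ℓ t' (Δ x) • v t') := by
      have e2 : A t' x - ℓ t' (A t' x) • v t' = μ t' • D t' x := by
        rw [hDapp, smul_sub, smul_smul, smul_smul, mul_inv_cancel₀ (hμ0 t' ht'), one_smul,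
          h2 t' ht']
      have e3 : D t' x = D t' r + a • D t' (v t - v t') := by
        have h5 : D t' (v t - v t') = D t' (v t) := by
          rw [map_sub, hDv t' ht', sub_zero]
        have h6 : D t' x = D t' (a • v t + r) := by rw [← hxr]
        rw [h5, h6, map_add, map_smul]
        abel
      rw [← e3, ← e2, hBx, map_add, add_smul]
      abel
    rw [e1]
    refine (slowL_nrm_add (D t') hθ0 m _ _).trans ?_
    rw [slowL_nrm_smul]
    have f1 : slowL_nrm (D t') θ m (D t' r + a • D t' (v t - v t')) ≤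
        θ * ρ + (C ^ 1 * ω * ρ + C * ω * ‖a‖) := by
      refine (slowL_nrm_add (D t') hθ0 m _ _).trans ?_
      rw [slowL_nrm_smul]
      have g1 := slowL_nrm_map (D t') hθ0 m (hpow t' ht') r
      have g2 := hn' r
      have g3 := slowL_nrm_map (D t') hθ0 m (hpow t' ht') (v t - v t')
      have g4 := hnC t' ht' (v t - v t')
      rw [norm_sub_rev] at g4
      have g5 : slowL_nrm (D t') θ m (D t' r) ≤ θ * ρ + ω * ρ := by
        have : θ * slowL_nrm (D t') θ m r ≤ θ * (ρ + ω * ‖r‖) :=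
          mul_le_mul_of_nonneg_left g2 hθ0.le
        have h5 : θ * (ω * ‖r‖) ≤ ω * ρ := by
          have h6 : ω * ‖r‖ ≤ ω * ρ := mul_le_mul_of_nonneg_left hrρ hω.le
          have h7 : 0 ≤ ω * ‖r‖ := by positivity
          have h8 : θ * (ω * ‖r‖) ≤ 1 * (ω * ‖r‖) := mul_le_mul_of_nonneg_right hθ1.le h7
          linarith only [h8, h6]
        linarith only [h5, this, g1]
      have g6 : slowL_nrm (D t') θ m (D t' (v t - v t')) ≤ C * ω := by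
        have h5 : slowL_nrm (D t') θ m (v t - v t') ≤ C * ω :=
          g4.trans (mul_le_mul_of_nonneg_left hv' hC0.le)
        have h6 : 0 ≤ slowL_nrm (D t') θ m (v t - v t') :=
          (norm_nonneg _).trans (slowL_le_nrm (D t') hθ0 hm _)
        have h7 : θ * slowL_nrm (D t') θ m (v t - v t') ≤ 1 * slowL_nrm (D t') θ m (v t - v t') :=
          mul_le_mul_of_nonneg_right hθ1.le h6
        linarith only [h7, h5, g3]
      have g7 : ‖a‖ * slowL_nrm (D t') θ m (D t' (v t - v t')) ≤ ‖a‖ * (C * ω) :=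
        mul_le_mul_of_nonneg_left g6 hα0
      have g8 : ω * ρ ≤ C ^ 1 * ω * ρ := by
        have h5 : 0 ≤ ω * ρ := by positivity
        have h6 : 1 * (ω * ρ) ≤ C * (ω * ρ) := mul_le_mul_of_nonneg_right hC1 h5
        rw [pow_one, mul_assoc]
        linarith only [h6]
      have g9 : ‖a‖ * (C * ω) = C * ω * ‖a‖ := by ring
      linarith only [g8, g7, g5]
    have f2 : slowL_nrm (D t') θ m (Δ x - ℓ t' (Δ x) • v t') ≤
        ‖μ t'‖ * (2 * C ^ 4 * (ω * ‖x‖)) := by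
      refine (hnC t' ht' _).trans ?_
      have g1 : ‖Δ x - ℓ t' (Δ x) • v t'‖ ≤ 2 * C ^ 2 * (ω * ‖x‖) := by
        refine (norm_sub_le _ _).trans ?_
        rw [norm_smul]
        have g2 : ‖ℓ t' (Δ x)‖ ≤ C * (ω * ‖x‖) :=
          ((ℓ t').le_opNorm _).trans (mul_le_mul (hℓC t' ht') hΔx (norm_nonneg _) hC0.le)
        have g3 : ‖ℓ t' (Δ x)‖ * ‖v t'‖ ≤ (C * (ω * ‖x‖)) * C :=
          mul_le_mul g2 (hvC t' ht') (norm_nonneg _) (by positivity)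
        have g4 : ω * ‖x‖ ≤ C ^ 2 * (ω * ‖x‖) := by
          have h6 : 0 ≤ ω * ‖x‖ := by positivity
          have h5 : 1 ≤ C ^ 2 := one_le_pow₀ hC1
          have h7 : 1 * (ω * ‖x‖) ≤ C ^ 2 * (ω * ‖x‖) := mul_le_mul_of_nonneg_right h5 h6
          linarith only [h7]
        have h8 : (C * (ω * ‖x‖)) * C = C ^ 2 * (ω * ‖x‖) := by ring
        rw [h8] at g3
        linarith only [g4, g3, hΔx]
      have g5 : C * ‖Δ x - ℓ t' (Δ x) • v t'‖ ≤ 2 * C ^ 3 * (ω * ‖x‖) := by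
        have := mul_le_mul_of_nonneg_left g1 hC0.le
        calc C * ‖Δ x - ℓ t' (Δ x) • v t'‖ ≤ C * (2 * C ^ 2 * (ω * ‖x‖)) := this
          _ = 2 * C ^ 3 * (ω * ‖x‖) := by ring
      refine g5.trans ?_
      have g6 : 0 ≤ 2 * C ^ 3 * (ω * ‖x‖) := by positivity
      calc 2 * C ^ 3 * (ω * ‖x‖) = 1 * (2 * C ^ 3 * (ω * ‖x‖)) := by ring
        _ ≤ (C * ‖μ t'‖) * (2 * C ^ 3 * (ω * ‖x‖)) := mul_le_mul_of_nonneg_right hμ' g6
        _ = ‖μ t'‖ * (2 * C ^ 4 * (ω * ‖x‖)) := by ring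
    have f3 : (C ^ 1 * ω * ρ + C * ω * ‖a‖) + 2 * C ^ 4 * (ω * ‖x‖) ≤ δ * (‖a‖ + ρ) := by
      have e6 : ω * ‖x‖ ≤ ω * (C * (‖a‖ + ρ)) := mul_le_mul_of_nonneg_left hx hω.le
      have e7 : 0 ≤ ω * (‖a‖ + ρ) := by positivity
      have e8 : 2 * C ^ 4 * (ω * ‖x‖) ≤ 2 * C ^ 4 * (ω * (C * (‖a‖ + ρ))) :=
        mul_le_mul_of_nonneg_left e6 (by positivity)
      calc (C ^ 1 * ω * ρ + C * ω * ‖a‖) + 2 * C ^ 4 * (ω * ‖x‖)
          ≤ (C ^ 1 * ω * ρ + C * ω * ‖a‖) + 2 * C ^ 4 * (ω * (C * (‖a‖ + ρ))) := by linarith only [e8]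
        _ = (C + 2 * C ^ 5) * (ω * (‖a‖ + ρ)) := by ring
        _ ≤ (4 * C ^ 5) * (ω * (‖a‖ + ρ)) := by
            refine mul_le_mul_of_nonneg_right ?_ e7
            linarith only [hC15, hC1, hθ1, hθ0]
        _ = (4 * C ^ 5 * ω) * (‖a‖ + ρ) := by ring
        _ ≤ δ * (‖a‖ + ρ) := mul_le_mul_of_nonneg_right hωδ (by positivity)
    calc ‖μ t'‖ * slowL_nrm (D t') θ m (D t' r + a • D t' (v t - v t')) +
          slowL_nrm (D t') θ m (Δ x - ℓ t' (Δ x) • v t')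
        ≤ ‖μ t'‖ * (θ * ρ + (C ^ 1 * ω * ρ + C * ω * ‖a‖)) +
          ‖μ t'‖ * (2 * C ^ 4 * (ω * ‖x‖)) :=
          add_le_add (mul_le_mul_of_nonneg_left f1 hμp.le) f2
      _ = ‖μ t'‖ * (θ * ρ + ((C ^ 1 * ω * ρ + C * ω * ‖a‖) + 2 * C ^ 4 * (ω * ‖x‖))) := by ring
      _ ≤ ‖μ t'‖ * (θ * ρ + δ * (‖a‖ + ρ)) := by
          refine mul_le_mul_of_nonneg_left ?_ hμp.le
          linarith only [f3]

/-- The scalar recursion. -/
lemma slowL_rec {θ Λ β ε δ : ℝ} (hθ0 : 0 < θ) (hθ1 : θ < 1) (hΛ : 0 ≤ Λ) (hβ0 : 0 < β)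
    (hβ1 : β < 1) (hε1 : ε < 1) (hδ0 : 0 < δ)
    (hδ1 : δ * (1 + Λ + β) ≤ ε) (hδ2 : δ * (1 + Λ + β) * (1 + β) ≤ (1 - θ) * β)
    (M α ρ : ℕ → ℝ) (K : ℕ) (hM : ∀ j, 1 ≤ j → j ≤ K → 0 < M j) (hα : ∀ j, 0 ≤ α j)
    (hρ : ∀ j, 0 ≤ ρ j) (h0 : ρ 0 ≤ Λ * α 0)
    (h1 : ∀ j < K, M (j + 1) * (α j - δ * (α j + ρ j)) ≤ α (j + 1))
    (h2 : ∀ j < K, ρ (j + 1) ≤ M (j + 1) * (θ * ρ j + δ * (α j + ρ j))) :
    ∀ j ≤ K, (∏ i ∈ Finset.Icc 1 j, (1 - ε) * M i) * α 0 ≤ α j ∧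
      ρ j ≤ (((1 + θ) / 2) ^ j * Λ + β) * α j := by
  set ε₁ : ℝ := δ * (1 + Λ + β) with hε₁
  have hε₁0 : 0 < ε₁ := by positivity
  have hε₁1 : ε₁ < 1 := lt_of_le_of_lt hδ1 hε1
  have hε₁θ : ε₁ * (1 + θ) ≤ 1 - θ := by
    have e1 : ε₁ * (1 + β) ≤ (1 - θ) * β := hδ2
    have e2 : ε₁ * (1 + θ) * β ≤ (1 - θ) * β := by
      have : ε₁ * (1 + θ) * β ≤ ε₁ * (1 + β) := by
        have h5 : (1 + θ) * β ≤ 1 + β := by (refine le_of_not_gt fun hng => ?_; linarith only [hθ1,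
                                              mul_pos (sub_pos.2 hθ0) (sub_pos.2 hβ1),
                                              mul_pos (sub_pos.2 hng) (sub_pos.2 hθ1),
                                              mul_pos (sub_pos.2 hng) (sub_pos.2 hθ0)])
        calc ε₁ * (1 + θ) * β = ε₁ * ((1 + θ) * β) := by ring
          _ ≤ ε₁ * (1 + β) := mul_le_mul_of_nonneg_left h5 hε₁0.le
      linarith only [this, hδ2]
    exact le_of_mul_le_mul_right e2 hβ0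
  intro j
  induction j with
  | zero =>
    intro _
    refine ⟨by simp, ?_⟩
    have := hα 0
    rw [pow_zero, one_mul]
    (refine le_of_not_gt fun hng => ?_; linarith only [h0,
      mul_nonneg (sub_nonneg.2 hβ0.le) (sub_nonneg.2 this), mul_pos (sub_pos.2 hng) (sub_pos.2 hθ1),
      mul_pos (sub_pos.2 hng) (sub_pos.2 hθ0)])
  | succ j ih =>
    intro hj
    obtain ⟨ih1, ih2⟩ := ih (by omega)
    have hMj := hM (j + 1) (by omega) hj
    have hαj := hα j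
    have hρj := hρ j
    set s : ℝ := ((1 + θ) / 2) ^ j * Λ + β with hs
    have hpow : ((1 + θ) / 2) ^ j ≤ 1 := pow_le_one₀ (by linarith only [hθ0]) (by linarith only [hθ1])
    have hpow0 : 0 < ((1 + θ) / 2) ^ j := by
      have : 0 < (1 + θ) / 2 := by linarith only [hθ0]
      positivity
    have hs1 : s ≤ Λ + β := by
      have : ((1 + θ) / 2) ^ j * Λ ≤ 1 * Λ := mul_le_mul_of_nonneg_right hpow hΛ
      linarith only [this]
    have hsum : δ * (α j + ρ j) ≤ ε₁ * α j := by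
      have e1 : α j + ρ j ≤ (1 + Λ + β) * α j := by
        have : s * α j ≤ (Λ + β) * α j := mul_le_mul_of_nonneg_right hs1 hαj
        linarith only [this, ih2]
      calc δ * (α j + ρ j) ≤ δ * ((1 + Λ + β) * α j) := mul_le_mul_of_nonneg_left e1 hδ0.le
        _ = ε₁ * α j := by rw [hε₁]; ring
    have hA : M (j + 1) * ((1 - ε₁) * α j) ≤ α (j + 1) := by
      refine le_trans (mul_le_mul_of_nonneg_left ?_ hMj.le) (h1 j (by omega))
      linarith only [hsum]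
    constructor
    · rw [Finset.prod_Icc_succ_top (by omega)]
      have e1 : (∏ i ∈ Finset.Icc 1 j, (1 - ε) * M i) * α 0 ≤ α j := ih1
      have e2 : 0 ≤ (1 - ε) * M (j + 1) := mul_nonneg (by linarith only [hε1]) hMj.le
      calc ((∏ i ∈ Finset.Icc 1 j, (1 - ε) * M i) * ((1 - ε) * M (j + 1))) * α 0
          = ((1 - ε) * M (j + 1)) * ((∏ i ∈ Finset.Icc 1 j, (1 - ε) * M i) * α 0) := by ring
        _ ≤ ((1 - ε) * M (j + 1)) * α j := mul_le_mul_of_nonneg_left e1 e2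
        _ ≤ M (j + 1) * ((1 - ε₁) * α j) := by
            have : (1 - ε) * α j ≤ (1 - ε₁) * α j :=
              mul_le_mul_of_nonneg_right (by linarith only [hδ1]) hαj
            calc ((1 - ε) * M (j + 1)) * α j = M (j + 1) * ((1 - ε) * α j) := by ring
              _ ≤ M (j + 1) * ((1 - ε₁) * α j) := mul_le_mul_of_nonneg_left this hMj.le
        _ ≤ α (j + 1) := hA
    · have e1 : ρ (j + 1) ≤ M (j + 1) * ((θ * s + ε₁) * α j) := by
        refine (h2 j (by omega)).trans (mul_le_mul_of_nonneg_left ?_ hMj.le)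
        have : θ * ρ j ≤ θ * (s * α j) := mul_le_mul_of_nonneg_left ih2 hθ0.le
        linarith only [this, hsum]
      have e2 : θ * s + ε₁ ≤ (1 - ε₁) * (((1 + θ) / 2) ^ (j + 1) * Λ + β) := by
        have f1 : θ * (((1 + θ) / 2) ^ j * Λ) ≤ (1 - ε₁) * (((1 + θ) / 2) ^ (j + 1) * Λ) := by
          have f2 : θ ≤ (1 - ε₁) * ((1 + θ) / 2) := by linarith only [hε₁θ]
          have f3 : 0 ≤ ((1 + θ) / 2) ^ j * Λ := by positivity
          calc θ * (((1 + θ) / 2) ^ j * Λ) ≤ ((1 - ε₁) * ((1 + θ) / 2)) * (((1 + θ) / 2) ^ j * Λ) :=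
                mul_le_mul_of_nonneg_right f2 f3
            _ = (1 - ε₁) * (((1 + θ) / 2) ^ (j + 1) * Λ) := by rw [pow_succ]; ring
        have f4 : θ * β + ε₁ ≤ (1 - ε₁) * β := by
          have : ε₁ * (1 + β) ≤ (1 - θ) * β := hδ2
          linarith only [hδ2]
        rw [hs]
        linarith only [f1, hδ2]
      have e3 : M (j + 1) * ((θ * s + ε₁) * α j) ≤
          (((1 + θ) / 2) ^ (j + 1) * Λ + β) * (M (j + 1) * ((1 - ε₁) * α j)) := by
        have f5 := mul_le_mul_of_nonneg_right e2 (mul_nonneg hMj.le hαj)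
        linarith only [f5]
      have e4 : 0 ≤ ((1 + θ) / 2) ^ (j + 1) * Λ + β := by
        have : 0 < (1 + θ) / 2 := by linarith only [hθ0]
        positivity
      exact (e1.trans e3).trans (mul_le_mul_of_nonneg_left hA e4)

end SlowL

/-- Lower bound and alignment for slowly varying products with a dominant eigenvalue. -/
theorem slow_lower {E : Type*} [NormedAddCommGroup E] [NormedSpace ℂ E] [FiniteDimensional ℂ E]
    (T : ℝ) (hT : 0 ≤ T) (A : ℝ → E →L[ℂ] E) (hA : ContinuousOn A (Icc 0 T))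
    (μ : ℝ → ℂ) (hμ : ContinuousOn μ (Icc 0 T)) (hμ0 : ∀ t ∈ Icc 0 T, μ t ≠ 0)
    (v : ℝ → E) (hv : ContinuousOn v (Icc 0 T))
    (ℓ : ℝ → E →L[ℂ] ℂ) (hℓ : ContinuousOn ℓ (Icc 0 T))
    (h1 : ∀ t ∈ Icc 0 T, A t (v t) = μ t • v t)
    (h2 : ∀ t ∈ Icc 0 T, ∀ x, ℓ t (A t x) = μ t * ℓ t x)
    (h3 : ∀ t ∈ Icc 0 T, ℓ t (v t) = 1)
    (h4 : ∀ t ∈ Icc 0 T, ∀ z : ℂ, ∀ x : E, x ≠ 0 → A t x = z • x → ℓ t x = 0 → ‖z‖ < ‖μ t‖)
    (ε : ℝ) (hε : 0 < ε) (hε1 : ε < 1) (L : ℝ) :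
    ∃ c : ℝ, ∃ η : ℝ, ∃ K0 : ℕ, 0 < c ∧ 0 < η ∧ ∀ h : ℝ, 0 < h → h < η →
      ∀ (B : ℕ → E →L[ℂ] E) (x : ℕ → E) (K : ℕ), K0 ≤ K → (K : ℝ) * h ≤ T →
        (∀ j, 1 ≤ j → j ≤ K → ‖B j - A (j * h)‖ ≤ η) →
        (∀ j < K, x (j + 1) = B (j + 1) (x j)) →
        ‖x 0‖ ≤ L * ‖ℓ 0 (x 0)‖ →
        c * (∏ j ∈ Finset.Icc 1 K, (1 - ε) * ‖μ (j * h)‖) * ‖x 0‖ ≤ ‖ℓ (K * h) (x K)‖ ∧
        ‖x K - ℓ (K * h) (x K) • v (K * h)‖ ≤ ε * ‖ℓ (K * h) (x K)‖ := by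
  obtain ⟨θ, C, n, hθ0, hθ1, hC1, hn1, hn2, hvC, hstep⟩ :=
    slowL_step T A hA μ hμ hμ0 v hv ℓ hℓ h1 h2 h3 h4
  set L' : ℝ := max L 1 with hL'
  have hL'1 : 1 ≤ L' := le_max_right _ _
  set Λ : ℝ := C * (L' + C) with hΛ
  have hΛ0 : 0 ≤ Λ := by positivity
  set β : ℝ := ε / 2 with hβ
  have hβ0 : 0 < β := by positivity
  have hβ1 : β < 1 := by rw [hβ]; linarith only [hε1]
  obtain ⟨δ, hδ0, hδ1, hδ2⟩ : ∃ δ : ℝ, 0 < δ ∧ δ * (1 + Λ + β) ≤ ε ∧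
      δ * (1 + Λ + β) * (1 + β) ≤ (1 - θ) * β := by
    have hS : 0 < 1 + Λ + β := by positivity
    refine ⟨min (ε / (1 + Λ + β)) ((1 - θ) * β / ((1 + Λ + β) * (1 + β))), ?_, ?_, ?_⟩
    · have : 0 < 1 - θ := by linarith only [hθ1]
      positivity
    · rw [← le_div_iff₀ hS]
      exact min_le_left _ _
    · rw [mul_assoc, ← le_div_iff₀ (by positivity)]
      exact min_le_right _ _
  obtain ⟨η, hη, hst⟩ := hstep δ hδ0
  obtain ⟨K0, hK0⟩ : ∃ K0 : ℕ, ((1 + θ) / 2) ^ K0 * Λ ≤ β := by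
    have hθ' : (1 + θ) / 2 < 1 := by linarith only [hθ1]
    have hθ'0 : 0 ≤ (1 + θ) / 2 := by linarith only [hθ0, hε1, hε]
    have ht := (tendsto_pow_atTop_nhds_zero_of_lt_one hθ'0 hθ').mul_const Λ
    rw [zero_mul] at ht
    obtain ⟨K0, h⟩ := (ht.eventually (gt_mem_nhds hβ0)).exists
    exact ⟨K0, h.le⟩
  refine ⟨L'⁻¹, η, K0, by positivity, hη, ?_⟩
  intro h hh0 hhη B x K hK hKT hB hx hx0
  have hmem : ∀ j ≤ K, (j : ℝ) * h ∈ Icc 0 T := by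
    intro j hj
    refine ⟨by positivity, le_trans ?_ hKT⟩
    have : (j : ℝ) ≤ K := by exact_mod_cast hj
    exact mul_le_mul_of_nonneg_right this hh0.le
  set α : ℕ → ℝ := fun j => if j ≤ K then ‖ℓ (j * h) (x j)‖ else 0 with hα
  set ρ : ℕ → ℝ := fun j => if j ≤ K then n (j * h) (x j - ℓ (j * h) (x j) • v (j * h)) else 0
    with hρ
  have hα' : ∀ j ≤ K, α j = ‖ℓ (j * h) (x j)‖ := fun j hj => by simp [hα, hj]
  have hρ' : ∀ j ≤ K, ρ j = n (j * h) (x j - ℓ (j * h) (x j) • v (j * h)) := fun j hj => by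
    simp [hρ, hj]
  have hx0' : ‖x 0‖ ≤ L' * α 0 := by
    rw [hα' 0 (Nat.zero_le _)]
    simp only [Nat.cast_zero, zero_mul]
    exact hx0.trans (mul_le_mul_of_nonneg_right (le_max_left _ _) (norm_nonneg _))
  have hrec := slowL_rec hθ0 hθ1 hΛ0 hβ0 hβ1 hε1 hδ0 hδ1 hδ2 (fun j => ‖μ (j * h)‖) α ρ K
    (fun j _ hj => norm_pos_iff.2 (hμ0 _ (hmem j hj)))
    (fun j => by
      simp only [hα]
      split_ifs
      · exact norm_nonneg _
      · exact le_rfl)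
    (fun j => by
      simp only [hρ]
      split_ifs with hj
      · exact (norm_nonneg _).trans (hn1 _ (hmem j hj) _)
      · exact le_rfl)
    (by
      have e0 : (0 : ℝ) ∈ Icc 0 T := ⟨le_rfl, hT⟩
      rw [hρ' 0 (Nat.zero_le _)]
      simp only [Nat.cast_zero, zero_mul]
      refine (hn2 0 e0 _).trans ?_
      rw [hΛ, mul_assoc]
      refine mul_le_mul_of_nonneg_left ?_ (by linarith only [hC1, hε1, hε])
      refine (norm_sub_le _ _).trans ?_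
      rw [norm_smul]
      have e1 : ‖ℓ 0 (x 0)‖ = α 0 := by
        rw [hα' 0 (Nat.zero_le _)]
        simp
      rw [e1]
      have e2 : 0 ≤ α 0 := by rw [← e1]; exact norm_nonneg _
      have e3 := mul_le_mul_of_nonneg_left (hvC 0 e0) e2
      linarith only [e3, hx0'])
    (fun j hj => by
      rw [hα' j hj.le, hρ' j hj.le, hα' (j + 1) hj, hx j hj]
      have e1 : |((j + 1 : ℕ) : ℝ) * h - j * h| < η := by
        push_cast
        have : ((j : ℝ) + 1) * h - j * h = h := by ring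
        rw [this, abs_of_pos hh0]
        exact hhη
      exact (hst _ (hmem j hj.le) _ (hmem (j + 1) hj) e1 (B (j + 1))
        (hB (j + 1) (by omega) hj) (x j)).1)
    (fun j hj => by
      rw [hα' j hj.le, hρ' j hj.le, hρ' (j + 1) hj, hx j hj]
      have e1 : |((j + 1 : ℕ) : ℝ) * h - j * h| < η := by
        push_cast
        have : ((j : ℝ) + 1) * h - j * h = h := by ring
        rw [this, abs_of_pos hh0]
        exact hhη
      exact (hst _ (hmem j hj.le) _ (hmem (j + 1) hj) e1 (B (j + 1))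
        (hB (j + 1) (by omega) hj) (x j)).2)
    K le_rfl
  obtain ⟨r1, r2⟩ := hrec
  rw [hα' K le_rfl] at r1 r2
  rw [hρ' K le_rfl] at r2
  constructor
  · refine le_trans ?_ r1
    have hprod : 0 ≤ ∏ i ∈ Finset.Icc 1 K, (1 - ε) * ‖μ (i * h)‖ :=
      Finset.prod_nonneg fun i _ => mul_nonneg (by linarith only [hε1]) (norm_nonneg _)
    have e1 : L'⁻¹ * ‖x 0‖ ≤ α 0 := by
      rw [inv_mul_le_iff₀ (by positivity)]
      exact hx0'
    calc L'⁻¹ * (∏ i ∈ Finset.Icc 1 K, (1 - ε) * ‖μ (i * h)‖) * ‖x 0‖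
        = (∏ i ∈ Finset.Icc 1 K, (1 - ε) * ‖μ (i * h)‖) * (L'⁻¹ * ‖x 0‖) := by ring
      _ ≤ (∏ i ∈ Finset.Icc 1 K, (1 - ε) * ‖μ (i * h)‖) * α 0 :=
          mul_le_mul_of_nonneg_left e1 hprod
  · refine (hn1 _ (hmem K le_rfl) _).trans (r2.trans ?_)
    refine mul_le_mul_of_nonneg_right ?_ (norm_nonneg _)
    have e1 : ((1 + θ) / 2) ^ K ≤ ((1 + θ) / 2) ^ K0 :=
      pow_le_pow_of_le_one (by linarith only [hθ0, hε1, hε]) (by linarith only [hθ1]) hK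
    have e2 : ((1 + θ) / 2) ^ K * Λ ≤ ((1 + θ) / 2) ^ K0 * Λ := mul_le_mul_of_nonneg_right e1 hΛ0
    have e3 : ε = β + β := by rw [hβ]; ring
    linarith only [e2, hK0, hβ]

end Pool.Agent.H63.VC
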