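import Mathlib

/-! # Slowly varying products of operators -/

namespace Pool.Agent.H63.VC

open Set

/-- Ordered products `b (m-1) * ... * b 0`. -/
def slowUProd {𝔸 : Type*} [Monoid 𝔸] (b : ℕ → 𝔸) : ℕ → 𝔸
  | 0 => 1
  | m + 1 => b m * slowUProd b m

theorem slowUProd_close {𝔸 : Type*} [NormedRing 𝔸] (a : 𝔸) (m : ℕ) :
    ∀ ε : ℝ, 0 < ε → ∃ δ : ℝ, 0 < δ ∧ ∀ b : ℕ → 𝔸, (∀ i < m, ‖b i - a‖ ≤ δ) →
      ‖slowUProd b m - a ^ m‖ ≤ ε := by
  induction m with
  | zero =>
    intro ε hε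
    exact ⟨1, one_pos, fun b _ => by simp [slowUProd, hε.le]⟩
  | succ m ih =>
    intro ε hε
    have hc : 0 < ‖a‖ + 1 := by positivity
    have hd : 0 < ‖a ^ m‖ + 1 := by positivity
    obtain ⟨δ', hδ', h⟩ := ih (min 1 (ε / (2 * (‖a‖ + 1)))) (by positivity)
    refine ⟨min δ' (ε / (2 * (‖a ^ m‖ + 1))), by positivity, fun b hb => ?_⟩
    have h1 := h b fun i hi => (hb i (Nat.lt_succ_of_lt hi)).trans (min_le_left _ _)
    have h2 : ‖b m - a‖ ≤ ε / (2 * (‖a ^ m‖ + 1)) :=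
      (hb m (Nat.lt_succ_self m)).trans (min_le_right _ _)
    have h3 : ‖slowUProd b m‖ ≤ ‖a ^ m‖ + 1 := by
      have := norm_add_le (slowUProd b m - a ^ m) (a ^ m)
      rw [sub_add_cancel] at this
      linarith [h1.trans (min_le_left _ _)]
    have h4 : slowUProd b (m + 1) - a ^ (m + 1) =
        (b m - a) * slowUProd b m + a * (slowUProd b m - a ^ m) := by
      rw [slowUProd, pow_succ', sub_mul, mul_sub]
      abel
    rw [h4]
    calc ‖(b m - a) * slowUProd b m + a * (slowUProd b m - a ^ m)‖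
        ≤ ‖b m - a‖ * ‖slowUProd b m‖ + ‖a‖ * ‖slowUProd b m - a ^ m‖ :=
          (norm_add_le _ _).trans (add_le_add (norm_mul_le _ _) (norm_mul_le _ _))
      _ ≤ ε / (2 * (‖a ^ m‖ + 1)) * (‖a ^ m‖ + 1) + (‖a‖ + 1) * (ε / (2 * (‖a‖ + 1))) := by
          gcongr
          · linarith
          · exact h1.trans (min_le_right _ _)
      _ = ε := by
          field_simp
          ring

theorem slowUProd_real (r : ℕ → ℝ) (m : ℕ) : slowUProd r m = ∏ i ∈ Finset.range m, r i := by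
  induction m with
  | zero => simp [slowUProd]
  | succ m ih => rw [slowUProd, ih, Finset.prod_range_succ, mul_comm]

theorem slowUProd_Icc (f : ℕ → ℝ) (K : ℕ) :
    ∏ j ∈ Finset.Icc 1 K, f j = ∏ i ∈ Finset.range K, f (i + 1) := by
  induction K with
  | zero => simp
  | succ K ih => rw [Finset.prod_Icc_succ_top (by omega), ih, Finset.prod_range_succ]

theorem slowU_exists_pow {E : Type*} [NormedAddCommGroup E] [NormedSpace ℂ E]
    [FiniteDimensional ℂ E] (A : E →L[ℂ] E) (R : ℝ) (hR : 0 < R)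
    (h : ∀ z : ℂ, ∀ v : E, v ≠ 0 → A v = z • v → ‖z‖ < R) :
    ∃ m : ℕ, 1 ≤ m ∧ ‖A ^ m‖ < R ^ m := by
  have : CompleteSpace E := FiniteDimensional.complete ℂ E
  rcases subsingleton_or_nontrivial E with hE | hE
  · refine ⟨1, le_rfl, ?_⟩
    have : A ^ 1 = 0 := by ext x; exact Subsingleton.elim _ _
    rw [this, norm_zero]
    positivity
  · have h1 : spectralRadius ℂ A < (R.toNNReal : ENNReal) := by
      refine spectrum.spectralRadius_lt_of_forall_lt A fun z hz => ?_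
      rw [ContinuousLinearMap.spectrum_eq, ← Module.End.hasEigenvalue_iff_mem_spectrum] at hz
      obtain ⟨v, hv⟩ := hz.exists_hasEigenvector
      have h2 := h z v hv.2 hv.apply_eq_smul
      rw [← NNReal.coe_lt_coe, coe_nnnorm, Real.coe_toNNReal R hR.le]
      exact h2
    have h2 := spectrum.pow_norm_pow_one_div_tendsto_nhds_spectralRadius A
    have h3 := (h2.eventually (gt_mem_nhds h1)).and (Filter.eventually_ge_atTop 1)
    obtain ⟨m, hm, hm1⟩ := h3.exists
    refine ⟨m, hm1, ?_⟩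
    rw [show ((R.toNNReal : NNReal) : ENNReal) = ENNReal.ofReal R from rfl,
      ENNReal.ofReal_lt_ofReal_iff hR] at hm
    have hm0 : (m : ℝ) ≠ 0 := by positivity
    have h4 : (‖A ^ m‖ ^ (1 / (m : ℝ))) ^ m = ‖A ^ m‖ := by
      rw [← Real.rpow_natCast, ← Real.rpow_mul (norm_nonneg _), one_div_mul_cancel hm0,
        Real.rpow_one]
    rw [← h4]
    exact pow_lt_pow_left₀ hm (by positivity) (by omega)

/-- The local estimate near one point, with uniform constants. -/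
theorem slowU_uniform {E : Type*} [NormedAddCommGroup E] [NormedSpace ℂ E]
    [FiniteDimensional ℂ E] (T : ℝ) (A : ℝ → E →L[ℂ] E) (hA : ContinuousOn A (Icc 0 T))
    (R : ℝ → ℝ) (hR : ContinuousOn R (Icc 0 T)) (hpos : ∀ t ∈ Icc 0 T, 0 < R t)
    (hspec : ∀ t ∈ Icc 0 T, ∀ z : ℂ, ∀ v : E, v ≠ 0 → A t v = z • v → ‖z‖ < R t) :
    ∃ (δ : ℝ) (M : ℕ), 0 < δ ∧ ∀ t ∈ Icc 0 T, ∃ m : ℕ, 1 ≤ m ∧ m ≤ M ∧
      ∀ (B : ℕ → E →L[ℂ] E) (τ : ℕ → ℝ), (∀ i < m, τ i ∈ Icc 0 T ∧ |τ i - t| < δ ∧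
        ‖B i - A (τ i)‖ ≤ δ) → ‖slowUProd B m‖ ≤ ∏ i ∈ Finset.range m, R (τ i) := by
  refine isCompact_Icc.induction_on (p := fun s => ∃ (δ : ℝ) (M : ℕ), 0 < δ ∧ ∀ t ∈ s,
    ∃ m : ℕ, 1 ≤ m ∧ m ≤ M ∧
      ∀ (B : ℕ → E →L[ℂ] E) (τ : ℕ → ℝ), (∀ i < m, τ i ∈ Icc 0 T ∧ |τ i - t| < δ ∧
        ‖B i - A (τ i)‖ ≤ δ) → ‖slowUProd B m‖ ≤ ∏ i ∈ Finset.range m, R (τ i)) ?_ ?_ ?_ ?_
  · exact ⟨1, 1, one_pos, fun t ht => absurd ht (notMem_empty t)⟩
  · rintro s t hst ⟨δ, M, hδ, h⟩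
    exact ⟨δ, M, hδ, fun x hx => h x (hst hx)⟩
  · rintro s t ⟨δ, M, hδ, h⟩ ⟨δ', M', hδ', h'⟩
    refine ⟨min δ δ', max M M', lt_min hδ hδ', ?_⟩
    rintro x (hx | hx)
    · obtain ⟨m, h1, h2, h3⟩ := h x hx
      exact ⟨m, h1, h2.trans (le_max_left _ _), fun B τ hB => h3 B τ fun i hi =>
        ⟨(hB i hi).1, (hB i hi).2.1.trans_le (min_le_left _ _),
          (hB i hi).2.2.trans (min_le_left _ _)⟩⟩
    · obtain ⟨m, h1, h2, h3⟩ := h' x hx
      exact ⟨m, h1, h2.trans (le_max_right _ _), fun B τ hB => h3 B τ fun i hi =>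
        ⟨(hB i hi).1, (hB i hi).2.1.trans_le (min_le_right _ _),
          (hB i hi).2.2.trans (min_le_right _ _)⟩⟩
  · intro t₀ ht₀
    obtain ⟨m, hm, hlt⟩ := slowU_exists_pow (A t₀) (R t₀) (hpos t₀ ht₀) (hspec t₀ ht₀)
    set g := R t₀ ^ m - ‖A t₀ ^ m‖ with hg
    have hg0 : 0 < g := by rw [hg]; linarith
    obtain ⟨δ₁, hδ₁, h₁⟩ := slowUProd_close (A t₀) m (g / 2) (by positivity)
    obtain ⟨δ₂, hδ₂, h₂⟩ := slowUProd_close (R t₀) m (g / 2) (by positivity)
    obtain ⟨ρ₁, hρ₁, hA₁⟩ := Metric.continuousOn_iff.1 hA t₀ ht₀ (δ₁ / 2) (by positivity)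
    obtain ⟨ρ₂, hρ₂, hR₂⟩ := Metric.continuousOn_iff.1 hR t₀ ht₀ δ₂ hδ₂
    set ρ := min ρ₁ ρ₂ with hρ
    have hρ0 : 0 < ρ := lt_min hρ₁ hρ₂
    refine ⟨Metric.ball t₀ (ρ / 2), mem_nhdsWithin_of_mem_nhds (Metric.ball_mem_nhds _ (by positivity)),
      min (ρ / 2) (δ₁ / 2), m, by positivity, fun t ht => ⟨m, hm, le_rfl, fun B τ hB => ?_⟩⟩
    have hdist : ∀ i < m, dist (τ i) t₀ < ρ := by
      intro i hi
      have h3 : |τ i - t| < ρ / 2 := (hB i hi).2.1.trans_le (min_le_left _ _)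
      have h4 : dist t t₀ < ρ / 2 := ht
      have h5 : dist (τ i) t < ρ / 2 := by rw [Real.dist_eq]; exact h3
      linarith [dist_triangle (τ i) t t₀]
    have e1 := h₁ B (by
      intro i hi
      have h3 := hA₁ (τ i) (hB i hi).1 ((hdist i hi).trans_le (min_le_left _ _))
      rw [dist_eq_norm] at h3
      have h4 := (hB i hi).2.2.trans (min_le_right _ _)
      have h5 := norm_add_le (B i - A (τ i)) (A (τ i) - A t₀)
      rw [sub_add_sub_cancel] at h5
      linarith)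
    have e2 := h₂ (fun i => R (τ i)) (by
      intro i hi
      have h3 := hR₂ (τ i) (hB i hi).1 ((hdist i hi).trans_le (min_le_right _ _))
      rw [dist_eq_norm] at h3
      exact h3.le)
    rw [slowUProd_real, Real.norm_eq_abs, abs_le] at e2
    have e3 := norm_add_le (slowUProd B m - A t₀ ^ m) (A t₀ ^ m)
    rw [sub_add_cancel] at e3
    linarith [e2.1]

/-- Upper bound for slowly varying products. -/
theorem slow_upper {E : Type*} [NormedAddCommGroup E] [NormedSpace ℂ E] [FiniteDimensional ℂ E]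
    (T : ℝ) (hT : 0 ≤ T) (A : ℝ → E →L[ℂ] E) (hA : ContinuousOn A (Icc 0 T))
    (R : ℝ → ℝ) (hR : ContinuousOn R (Icc 0 T)) (hpos : ∀ t ∈ Icc 0 T, 0 < R t)
    (hspec : ∀ t ∈ Icc 0 T, ∀ z : ℂ, ∀ v : E, v ≠ 0 → A t v = z • v → ‖z‖ < R t) :
    ∃ C : ℝ, ∃ η : ℝ, 0 < C ∧ 0 < η ∧ ∀ h : ℝ, 0 < h → h < η →
      ∀ (B : ℕ → E →L[ℂ] E) (x : ℕ → E) (K : ℕ), (K : ℝ) * h ≤ T →
        (∀ j, 1 ≤ j → j ≤ K → ‖B j - A (j * h)‖ ≤ η) →
        (∀ j < K, x (j + 1) = B (j + 1) (x j)) →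
        ‖x K‖ ≤ C * (∏ j ∈ Finset.Icc 1 K, R (j * h)) * ‖x 0‖ := by
  obtain ⟨δ, M, hδ, hloc⟩ := slowU_uniform T A hA R hR hpos hspec
  -- crude one step bound
  obtain ⟨a, ha⟩ := isCompact_Icc.exists_bound_of_continuousOn hA
  obtain ⟨t₁, ht₁, hmin⟩ := isCompact_Icc.exists_isMinOn (nonempty_Icc.2 hT) hR
  have hr : 0 < R t₁ := hpos t₁ ht₁
  set Q := max 1 ((|a| + δ) / R t₁) with hQ
  have hQ1 : 1 ≤ Q := le_max_left _ _
  refine ⟨Q ^ M, min δ (δ / (M + 1)), by positivity, by positivity, ?_⟩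
  intro h hh hhη B x K hK hB hx
  have hhδ : h * (M + 1) < δ := by
    have := hhη.trans_le (min_le_right _ _)
    rwa [lt_div_iff₀ (by positivity)] at this
  have hmem : ∀ j : ℕ, j ≤ K → (j : ℝ) * h ∈ Icc 0 T := by
    intro j hj
    refine ⟨by positivity, le_trans ?_ hK⟩
    have : (j : ℝ) ≤ K := by exact_mod_cast hj
    gcongr
  have hBδ : ∀ j, 1 ≤ j → j ≤ K → ‖B j - A (j * h)‖ ≤ δ := fun j h1 h2 =>
    (hB j h1 h2).trans (min_le_left _ _)
  have hone : ∀ j < K, ‖x (j + 1)‖ ≤ Q * R ((j + 1 : ℕ) * h) * ‖x j‖ := by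
    intro j hj
    have h1 := hBδ (j + 1) (by omega) hj
    have h2 := ha _ (hmem (j + 1) hj)
    have h3 : ‖B (j + 1)‖ ≤ |a| + δ := by
      have := norm_add_le (B (j + 1) - A ((j + 1 : ℕ) * h)) (A ((j + 1 : ℕ) * h))
      rw [sub_add_cancel] at this
      linarith [le_abs_self a]
    have h4 : R t₁ ≤ R ((j + 1 : ℕ) * h) := hmin (hmem (j + 1) hj)
    have h5 : |a| + δ ≤ Q * R ((j + 1 : ℕ) * h) := by
      have h6 : (|a| + δ) / R t₁ ≤ Q := le_max_right _ _
      rw [div_le_iff₀ hr] at h6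
      exact h6.trans (by gcongr)
    rw [hx j hj]
    exact ((B (j + 1)).le_opNorm (x j)).trans (by gcongr; exact h3.trans h5)
  set G : ℕ → ℝ := fun i => R ((i : ℝ) * h) with hG
  have hGpos : ∀ i ≤ K, 0 < G i := fun i hi => hpos _ (hmem i hi)
  have hprod0 : ∀ j n, j + n ≤ K → 0 ≤ ∏ i ∈ Finset.range n, G (j + i + 1) := by
    intro j n hn
    exact (Finset.prod_pos fun i hi => hGpos _ (by have := Finset.mem_range.1 hi; omega)).le
  -- crude bound
  have crude : ∀ n : ℕ, ∀ j : ℕ, j + n = K →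
      ‖x K‖ ≤ Q ^ n * (∏ i ∈ Finset.range n, G (j + i + 1)) * ‖x j‖ := by
    intro n
    induction n with
    | zero =>
      intro j hj
      have : j = K := by omega
      subst this
      simp
    | succ n ih =>
      intro j hj
      have h1 := ih (j + 1) (by omega)
      have h2 := hone j (by omega)
      have h3 : ∏ i ∈ Finset.range (n + 1), G (j + i + 1) =
          (∏ i ∈ Finset.range n, G (j + 1 + i + 1)) * G (j + 1) := by
        rw [Finset.prod_range_succ']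
        congr 1
        refine Finset.prod_congr rfl fun i _ => ?_
        rw [show j + (i + 1) + 1 = j + 1 + i + 1 by omega]
      have h4 := hprod0 (j + 1) n (by omega)
      rw [h3]
      calc ‖x K‖ ≤ Q ^ n * (∏ i ∈ Finset.range n, G (j + 1 + i + 1)) * ‖x (j + 1)‖ := h1
        _ ≤ Q ^ n * (∏ i ∈ Finset.range n, G (j + 1 + i + 1)) * (Q * G (j + 1) * ‖x j‖) := by
            gcongr
        _ = Q ^ (n + 1) * ((∏ i ∈ Finset.range n, G (j + 1 + i + 1)) * G (j + 1)) * ‖x j‖ := by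
            ring
  -- the main induction
  have key : ∀ n : ℕ, ∀ j : ℕ, j + n = K →
      ‖x K‖ ≤ Q ^ M * (∏ i ∈ Finset.range n, G (j + i + 1)) * ‖x j‖ := by
    intro n
    induction n using Nat.strong_induction_on with
    | _ n ih =>
      intro j hj
      obtain ⟨m, hm1, hmM, hm⟩ := hloc (j * h) (hmem j (by omega))
      by_cases hn : m ≤ n
      · -- one block
        have hm2 := hm (fun i => B (j + i + 1)) (fun i => ((j + i + 1 : ℕ) : ℝ) * h) (by
          intro i hi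
          refine ⟨hmem _ (by omega), ?_, hBδ _ (by omega) (by omega)⟩
          have h1 : ((j + i + 1 : ℕ) : ℝ) * h - j * h = (i + 1) * h := by push_cast; ring
          rw [h1, abs_of_nonneg (by positivity)]
          have h2 : ((i : ℝ) + 1) ≤ M + 1 := by
            have : (i : ℝ) ≤ M := by exact_mod_cast (by omega : i ≤ M)
            linarith
          calc ((i : ℝ) + 1) * h ≤ (M + 1) * h := by gcongr
            _ = h * (M + 1) := by ring
            _ < δ := hhδ)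
        have hxm : ∀ i, i ≤ m → x (j + i) = slowUProd (fun i => B (j + i + 1)) i (x j) := by
          intro i
          induction i with
          | zero => intro _; simp [slowUProd]
          | succ i ihi =>
            intro hi
            rw [← add_assoc, hx (j + i) (by omega), ihi (by omega), slowUProd]
            rfl
        have h3 : ‖x (j + m)‖ ≤ (∏ i ∈ Finset.range m, G (j + i + 1)) * ‖x j‖ := by
          rw [hxm m le_rfl]
          exact (ContinuousLinearMap.le_opNorm _ _).trans (by gcongr)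
        have h4 := ih (n - m) (by omega) (j + m) (by omega)
        have h5 : ∏ i ∈ Finset.range n, G (j + i + 1) =
            (∏ i ∈ Finset.range m, G (j + i + 1)) *
              ∏ i ∈ Finset.range (n - m), G (j + m + i + 1) := by
          conv_lhs => rw [show n = m + (n - m) by omega, Finset.prod_range_add]
          congr 1
          refine Finset.prod_congr rfl fun i _ => ?_
          rw [add_assoc j m i]
        have h6 := hprod0 (j + m) (n - m) (by omega)
        rw [h5]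
        calc ‖x K‖ ≤ Q ^ M * (∏ i ∈ Finset.range (n - m), G (j + m + i + 1)) * ‖x (j + m)‖ := h4
          _ ≤ Q ^ M * (∏ i ∈ Finset.range (n - m), G (j + m + i + 1)) *
              ((∏ i ∈ Finset.range m, G (j + i + 1)) * ‖x j‖) := by gcongr
          _ = _ := by ring
      · -- the end
        have h1 := crude n j hj
        have h2 := hprod0 j n (by omega)
        refine h1.trans ?_
        gcongr
        omega
  have h1 := key K 0 (by omega)
  have h2 : ∏ j ∈ Finset.Icc 1 K, R (j * h) = ∏ i ∈ Finset.range K, G (0 + i + 1) := by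
    rw [slowUProd_Icc (fun j : ℕ => R ((j : ℝ) * h))]
    refine Finset.prod_congr rfl fun i _ => by rw [hG, zero_add]
  rw [h2]
  exact h1

end Pool.Agent.H63.VC
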