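import Pool.Agent.H63.VC.Defs

/-! # Products of sines -/

namespace Pool.Agent.H63.VC

open Filter Topology MeasureTheory Real

noncomputable def sg (M m : ℕ) : ℝ := 2 * Real.sin (π * m / M)

noncomputable def S (M k : ℕ) : ℝ := ∏ m ∈ Finset.Ico 1 (k + 1), sg M m

theorem sg_pos {M m : ℕ} (h1 : 1 ≤ m) (h2 : m < M) : 0 < sg M m := by
  have hM : (0 : ℝ) < M := by exact_mod_cast (by omega : 0 < M)
  have hm : (0 : ℝ) < m := by exact_mod_cast (by omega : 0 < m)
  have hmM : (m : ℝ) < M := by exact_mod_cast h2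
  refine mul_pos two_pos (Real.sin_pos_of_pos_of_lt_pi (by positivity) ?_)
  rw [div_lt_iff₀ hM]
  exact mul_lt_mul_of_pos_left hmM pi_pos

theorem sg_symm {M m : ℕ} (h1 : m ≤ M) (hM : 0 < M) : sg M (M - m) = sg M m := by
  have hM' : (M : ℝ) ≠ 0 := by exact_mod_cast hM.ne'
  unfold sg
  rw [Nat.cast_sub h1]
  have : π * ((M : ℝ) - m) / M = π - π * m / M := by field_simp
  rw [this, Real.sin_pi_sub]

theorem S_pos {M k : ℕ} (h : k < M) : 0 < S M k := by
  refine Finset.prod_pos fun m hm => ?_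
  rw [Finset.mem_Ico] at hm
  exact sg_pos hm.1 (by omega)

theorem S_full (M : ℕ) (hM : 0 < M) : S M (M - 1) = M := by
  obtain ⟨n, rfl⟩ : ∃ n, M = n + 1 := ⟨M - 1, by omega⟩
  have hprim : IsPrimitiveRoot (Complex.exp (2 * π * Complex.I / ((n + 1 : ℕ) : ℂ))) (n + 1) :=
    Complex.isPrimitiveRoot_exp (n + 1) (by omega)
  have h := hprim.prod_one_sub_pow_eq_order
  have h2 := congrArg (fun z : ℂ => ‖z‖) h
  simp only [norm_prod] at h2
  have h3 : ∀ k ∈ Finset.range n, ‖1 - Complex.exp (2 * π * Complex.I / ((n + 1 : ℕ) : ℂ)) ^ (k + 1)‖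
      = sg (n + 1) (k + 1) := by
    intro k hk
    rw [Finset.mem_range] at hk
    rw [← Complex.exp_nat_mul]
    have hpos := sg_pos (M := n + 1) (m := k + 1) (by omega) (by omega)
    have e1 : (((k + 1 : ℕ) : ℂ) * (2 * π * Complex.I / ((n + 1 : ℕ) : ℂ)))
        = ((π * ((k + 1 : ℕ) : ℝ) / ((n + 1 : ℕ) : ℝ) : ℝ) : ℂ) * Complex.I
          + ((π * ((k + 1 : ℕ) : ℝ) / ((n + 1 : ℕ) : ℝ) : ℝ) : ℂ) * Complex.I := by
      push_cast; ring
    set θ : ℝ := π * ((k + 1 : ℕ) : ℝ) / ((n + 1 : ℕ) : ℝ) with hθ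
    rw [e1, Complex.exp_add]
    have e2 : (1 : ℂ) - Complex.exp (θ * Complex.I) * Complex.exp (θ * Complex.I)
        = Complex.exp (θ * Complex.I) * (Complex.exp (-(θ * Complex.I)) - Complex.exp (θ * Complex.I)) := by
      rw [mul_sub, ← Complex.exp_add, ← Complex.exp_add, add_neg_cancel, Complex.exp_zero]
    rw [e2, norm_mul, Complex.norm_exp_ofReal_mul_I, one_mul]
    have e3 : Complex.exp (-(θ * Complex.I)) - Complex.exp (θ * Complex.I)
        = -(2 * Complex.sin θ * Complex.I) := by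
      rw [Complex.two_sin]
      have : Complex.I * Complex.I = -1 := Complex.I_mul_I
      rw [mul_assoc, this, neg_mul]; ring
    rw [e3, norm_neg, norm_mul, Complex.norm_I, mul_one, ← Complex.ofReal_sin]
    have e4 : (2 : ℂ) * ((Real.sin θ : ℝ) : ℂ) = ((2 * Real.sin θ : ℝ) : ℂ) := by push_cast; rfl
    rw [e4, Complex.norm_real]
    exact abs_of_pos hpos
  rw [Finset.prod_congr rfl h3] at h2
  have h4 : S (n + 1) (n + 1 - 1) = ∏ k ∈ Finset.range n, sg (n + 1) (k + 1) := by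
    unfold S
    rw [Finset.prod_Ico_eq_prod_range]
    simp [add_comm]
  rw [h4, h2]
  have : ((n : ℂ) + 1) = ((n + 1 : ℝ) : ℂ) := by push_cast; rfl
  rw [this, Complex.norm_real]
  push_cast
  exact abs_of_pos (by positivity)

theorem S_succ (M k : ℕ) : S M (k + 1) = S M k * sg M (k + 1) := by
  unfold S
  rw [Finset.prod_Ico_succ_top (by omega)]

theorem S_split {M k l : ℕ} (h : k ≤ l) :
    S M l = S M k * ∏ m ∈ Finset.Ico (k + 1) (l + 1), sg M m := by
  unfold S
  rw [Finset.prod_Ico_consecutive _ (by omega) (by omega)]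

theorem S_refl {M k : ℕ} (h : k < M) :
    ∏ m ∈ Finset.Ico (k + 1) M, sg M m = S M (M - 1 - k) := by
  unfold S
  have h1 : ∏ m ∈ Finset.Ico (k + 1) M, sg M m = ∏ m ∈ Finset.Ico (k + 1) M, sg M (M - m) := by
    apply Finset.prod_congr rfl
    intro m hm
    rw [Finset.mem_Ico] at hm
    rw [sg_symm (by omega) (by omega)]
  rw [h1, Finset.prod_Ico_reflect _ _ (by omega)]
  congr 1
  congr 1
  · omega
  · omega

theorem S_mul {M k : ℕ} (h : k < M) : S M k * S M (M - 1 - k) = M := by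
  have h1 := S_split (M := M) (k := k) (l := M - 1) (by omega)
  rw [S_full M (by omega)] at h1
  have h2 : M - 1 + 1 = M := by omega
  rw [h2, S_refl h] at h1
  exact h1.symm

theorem sg_mono {M m m' : ℕ} (hM : 0 < M) (h : m ≤ m') (h2 : 2 * m' ≤ M) : sg M m ≤ sg M m' := by
  have hM' : (0 : ℝ) < M := by exact_mod_cast hM
  unfold sg
  apply mul_le_mul_of_nonneg_left _ two_pos.le
  apply Real.sin_le_sin_of_le_of_le_pi_div_two
  · have : (0 : ℝ) ≤ π * m / M := by positivity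
    linarith [pi_pos]
  · rw [div_le_iff₀ hM']
    have : (2 * m' : ℝ) ≤ M := by exact_mod_cast h2
    nlinarith [pi_pos]
  · have : (m : ℝ) ≤ m' := by exact_mod_cast h
    gcongr

theorem sg_le_two (M m : ℕ) : sg M m ≤ 2 := by
  unfold sg
  linarith [Real.sin_le_one (π * m / M)]

theorem sg_ge {M m : ℕ} (h1 : 1 ≤ m) (h2 : m < M) : 1 / (M : ℝ) ≤ sg M m := by
  have hM : (0 : ℝ) < M := by exact_mod_cast (by omega : 0 < M)
  have key : ∀ j : ℕ, 1 ≤ j → 2 * j ≤ M → 1 / (M : ℝ) ≤ sg M j := by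
    intro j hj1 hj2
    have hj1' : (1 : ℝ) ≤ j := by exact_mod_cast hj1
    have hj2' : (2 * j : ℝ) ≤ M := by exact_mod_cast hj2
    have h3 := Real.mul_le_sin (x := π * j / M) (by positivity) (by
      rw [div_le_iff₀ hM]; nlinarith [pi_pos])
    unfold sg
    have h4 : 2 / π * (π * j / M) = 2 * j / M := by
      field_simp
    rw [h4] at h3
    have h5 : 1 / (M : ℝ) ≤ 2 * (2 * j / M) := by
      rw [← mul_div_assoc]
      apply div_le_div_of_nonneg_right _ hM.le
      linarith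
    linarith
  rcases le_or_gt (2 * m) M with h | h
  · exact key m h1 h
  · rw [← sg_symm h2.le (by omega)]
    exact key (M - m) (by omega) (by omega)

theorem S_le (M k : ℕ) (h : k < M) : S M k ≤ 2 ^ k := by
  unfold S
  have : ∏ m ∈ Finset.Ico 1 (k + 1), sg M m ≤ ∏ m ∈ Finset.Ico 1 (k + 1), (2 : ℝ) := by
    apply Finset.prod_le_prod
    · intro m hm
      rw [Finset.mem_Ico] at hm
      exact (sg_pos hm.1 (by omega)).le
    · intro m _
      exact sg_le_two M m
  simpa using this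

theorem S_ge (M k : ℕ) (h : k < M) : (1 / (M : ℝ)) ^ k ≤ S M k := by
  unfold S
  have : ∏ m ∈ Finset.Ico 1 (k + 1), (1 / (M : ℝ)) ≤ ∏ m ∈ Finset.Ico 1 (k + 1), sg M m := by
    apply Finset.prod_le_prod
    · intro m _
      positivity
    · intro m hm
      rw [Finset.mem_Ico] at hm
      exact sg_ge hm.1 (by omega)
  simpa using this

theorem S_shift_le (M k c : ℕ) (h : k + c < M) : S M (c + k) ≤ S M k * 2 ^ c := by
  rw [add_comm c k, S_split (M := M) (Nat.le_add_right k c)]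
  apply mul_le_mul_of_nonneg_left _ (S_pos (by omega)).le
  have : ∏ m ∈ Finset.Ico (k + 1) (k + c + 1), sg M m ≤ ∏ m ∈ Finset.Ico (k + 1) (k + c + 1), (2 : ℝ) := by
    apply Finset.prod_le_prod
    · intro m hm
      rw [Finset.mem_Ico] at hm
      exact (sg_pos (by omega) (by omega)).le
    · intro m _
      exact sg_le_two M m
  have e : k + c + 1 - (k + 1) = c := by omega
  simpa [e] using this

theorem riemann_sum (h : ℝ → ℝ) (hc : Continuous h) :
    Tendsto (fun M : ℕ => (∑ m ∈ Finset.range M, h (m / M)) / M) atTop (𝓝 (∫ x in (0:ℝ)..1, h x)) := by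
  rw [Metric.tendsto_atTop]
  intro ε hε
  have huc : UniformContinuousOn h (Set.Icc 0 1) :=
    isCompact_Icc.uniformContinuousOn_of_continuous hc.continuousOn
  rw [Metric.uniformContinuousOn_iff] at huc
  obtain ⟨δ, hδ, hδh⟩ := huc (ε / 2) (by positivity)
  obtain ⟨N, hN⟩ := exists_nat_gt (1 / δ)
  refine ⟨N + 1, fun M hM => ?_⟩
  have hM0 : (0 : ℝ) < M := by exact_mod_cast (by omega : 0 < M)
  have hM1 : 1 / (M : ℝ) < δ := by
    rw [div_lt_iff₀ hM0]
    rw [div_lt_iff₀ hδ] at hN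
    have : (N : ℝ) ≤ M := by exact_mod_cast (by omega : N ≤ M)
    nlinarith
  have hint : ∀ a b : ℝ, IntervalIntegrable h volume a b := fun a b => hc.intervalIntegrable a b
  have hsum : ∫ x in (0:ℝ)..1, h x = ∑ m ∈ Finset.range M, ∫ x in ((m : ℝ) / M)..((m + 1 : ℕ) : ℝ) / M, h x := by
    rw [intervalIntegral.sum_integral_adjacent_intervals (a := fun m : ℕ => (m : ℝ) / M)
      (fun k _ => hint _ _)]
    simp [hM0.ne']
  rw [Real.dist_eq, hsum, Finset.sum_div, ← Finset.sum_sub_distrib]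
  have hterm : ∀ m ∈ Finset.range M, |h (m / M) / M - ∫ x in ((m : ℝ) / M)..((m + 1 : ℕ) : ℝ) / M, h x|
      ≤ ε / 2 / M := by
    intro m hm
    rw [Finset.mem_range] at hm
    have hmM : ((m : ℝ) + 1) / M ≤ 1 := by
      rw [div_le_one hM0]
      exact_mod_cast hm
    have e1 : h (m / M) / M = ∫ x in ((m : ℝ) / M)..((m + 1 : ℕ) : ℝ) / M, h (m / M) := by
      rw [intervalIntegral.integral_const, smul_eq_mul]
      push_cast
      field_simp
      ring
    rw [e1, ← intervalIntegral.integral_sub (by simp) (hint _ _)]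
    have h2 := intervalIntegral.norm_integral_le_of_norm_le_const
      (a := (m : ℝ) / M) (b := ((m + 1 : ℕ) : ℝ) / M) (C := ε / 2)
      (f := fun x => h (m / M) - h x) (by
        intro x hx
        push_cast at hx
        rw [Set.uIoc_of_le (by gcongr; linarith)] at hx
        have hm0 : (0 : ℝ) ≤ m / M := by positivity
        rw [Real.norm_eq_abs, ← Real.dist_eq]
        apply (hδh _ ⟨hm0, hx.1.le.trans (hx.2.trans hmM)⟩ _ ⟨hm0.trans hx.1.le, hx.2.trans hmM⟩ _).le
        rw [Real.dist_eq, abs_sub_comm, abs_of_pos (by linarith [hx.1])]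
        have : x ≤ m / M + 1 / M := by rw [← add_div]; exact hx.2
        linarith)
    rw [Real.norm_eq_abs] at h2
    refine h2.trans (le_of_eq ?_)
    push_cast
    rw [abs_of_pos (by rw [← sub_div]; simp [hM0])]
    field_simp
    ring
  calc |∑ m ∈ Finset.range M, (h (m / M) / M - ∫ x in ((m : ℝ) / M)..((m + 1 : ℕ) : ℝ) / M, h x)|
      ≤ ∑ m ∈ Finset.range M, |h (m / M) / M - ∫ x in ((m : ℝ) / M)..((m + 1 : ℕ) : ℝ) / M, h x| :=
        Finset.abs_sum_le_sum_abs _ _
    _ ≤ ∑ m ∈ Finset.range M, ε / 2 / M := Finset.sum_le_sum hterm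
    _ = ε / 2 := by
        rw [Finset.sum_const, Finset.card_range, nsmul_eq_mul]
        field_simp
    _ < ε := by linarith

noncomputable def fac (M n a i : ℕ) : ℝ :=
  sg M (a + i) * sg M (n - a + i) * (sg M (n - 1 + i) / sg M (i + 1))

noncomputable def T (M n a k : ℕ) : ℝ := ∏ i ∈ Finset.range k, fac M n a i

theorem cb_exp (M : ℕ) (m : ℤ) :
    cb (Complex.exp (π * Complex.I / M) ^ m) = (2 * Real.sin (π * m / M) : ℝ) * Complex.I := by
  unfold cb
  rw [← Complex.exp_int_mul, ← Complex.exp_neg]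
  have e1 : (m : ℂ) * (π * Complex.I / M) = ((π * m / M : ℝ) : ℂ) * Complex.I := by
    push_cast; ring
  rw [e1]
  set θ : ℝ := π * m / M
  have h := Complex.two_sin (θ : ℂ)
  have hI : Complex.I * Complex.I = -1 := Complex.I_mul_I
  push_cast
  rw [h, mul_assoc, hI]
  ring_nf

theorem sin_shift {M : ℕ} (hM : 0 < M) (j : ℕ) :
    2 * Real.sin (π * ((M : ℝ) + j) / M) = - sg M j := by
  have hM' : (M : ℝ) ≠ 0 := by exact_mod_cast hM.ne'
  unfold sg
  have : π * ((M : ℝ) + j) / M = π * j / M + π := by field_simp; ring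
  rw [this, Real.sin_add_pi]
  ring

theorem sin_refl {M : ℕ} (hM : 0 < M) (j : ℕ) :
    2 * Real.sin (π * ((M : ℝ) - j) / M) = sg M j := by
  have hM' : (M : ℝ) ≠ 0 := by exact_mod_cast hM.ne'
  unfold sg
  have : π * ((M : ℝ) - j) / M = π - π * j / M := by field_simp
  rw [this, Real.sin_pi_sub]

theorem factor_eq (n a N i : ℕ) (ha : 1 ≤ a) (han : a ≤ n - 1) (hn : 2 ≤ n) (hi : i < N) :
    (cb (Complex.exp (π * Complex.I / ((N + a : ℕ) : ℂ)) ^ ((N : ℤ) - i)) /
      cb (Complex.exp (π * Complex.I / ((N + a : ℕ) : ℂ)) ^ ((i : ℤ) + 1))) *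
      (cb (Complex.exp (π * Complex.I / ((N + a : ℕ) : ℂ)) ^ n *
        Complex.exp (π * Complex.I / ((N + a : ℕ) : ℂ)) ^ ((N : ℤ) + i)) *
       cb (Complex.exp (π * Complex.I / ((N + a : ℕ) : ℂ)) ^ n *
        Complex.exp (π * Complex.I / ((N + a : ℕ) : ℂ)) ^ ((i : ℤ) - 1)))
      = ((fac (N + a) n a i : ℝ) : ℂ) := by
  have hM : 0 < N + a := by omega
  have hq : Complex.exp (π * Complex.I / ((N + a : ℕ) : ℂ)) ≠ 0 := Complex.exp_ne_zero _
  rw [← zpow_natCast (Complex.exp (π * Complex.I / ((N + a : ℕ) : ℂ))) n, ← zpow_add₀ hq,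
    ← zpow_add₀ hq, cb_exp, cb_exp, cb_exp, cb_exp]
  have e1 : 2 * Real.sin (π * (((N : ℤ) - (i : ℤ) : ℤ) : ℝ) / ((N + a : ℕ) : ℝ)) = sg (N + a) (a + i) := by
    rw [← sin_refl hM (a + i)]
    push_cast
    congr 3
    ring
  have e2 : 2 * Real.sin (π * (((i : ℤ) + 1 : ℤ) : ℝ) / ((N + a : ℕ) : ℝ)) = sg (N + a) (i + 1) := by
    unfold sg
    push_cast
    rfl
  have e3 : 2 * Real.sin (π * (((n : ℤ) + ((N : ℤ) + i) : ℤ) : ℝ) / ((N + a : ℕ) : ℝ))
      = - sg (N + a) (n - a + i) := by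
    rw [← sin_shift hM (n - a + i)]
    rw [Nat.cast_add (n - a) i, Nat.cast_sub (by omega : a ≤ n)]
    push_cast
    congr 3
    ring
  have e4 : 2 * Real.sin (π * (((n : ℤ) + ((i : ℤ) - 1) : ℤ) : ℝ) / ((N + a : ℕ) : ℝ))
      = sg (N + a) (n - 1 + i) := by
    unfold sg
    rw [Nat.cast_add (n - 1) i, Nat.cast_sub (by omega : 1 ≤ n)]
    push_cast
    congr 3
    ring
  rw [e1, e2, e3, e4]
  have hpos : 0 < sg (N + a) (i + 1) := sg_pos (by omega) (by omega)
  have hne : ((sg (N + a) (i + 1) : ℝ) : ℂ) ≠ 0 := by exact_mod_cast hpos.ne'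
  have hI : Complex.I ≠ 0 := Complex.I_ne_zero
  have hII : Complex.I ^ 2 = -1 := Complex.I_sq
  unfold fac
  push_cast
  field_simp
  rw [hII]
  ring

theorem S_mul_prod (M c k : ℕ) (hc : 1 ≤ c) :
    S M (c - 1) * ∏ i ∈ Finset.range k, sg M (c + i) = S M (c - 1 + k) := by
  induction k with
  | zero => simp
  | succ k ih =>
    rw [Finset.prod_range_succ, ← mul_assoc, ih, ← add_assoc, S_succ]
    congr 2
    omega

theorem S_zero (M : ℕ) : S M 0 = 1 := by simp [S]

theorem T_eq (M n a k : ℕ) (ha : 1 ≤ a) (han : a ≤ n - 1) (hn : 2 ≤ n) (hk : k + n ≤ M + 1) :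
    T M n a k = S M (a - 1 + k) * S M (n - a - 1 + k) * S M (n - 2 + k) /
      (S M (a - 1) * S M (n - a - 1) * S M (n - 2) * S M k) := by
  have h1 := S_mul_prod M a k ha
  have h2 := S_mul_prod M (n - a) k (by omega)
  have h3 := S_mul_prod M (n - 1) k (by omega)
  have h4 := S_mul_prod M 1 k le_rfl
  have hS1 : 0 < S M (a - 1) := S_pos (by omega)
  have hS2 : 0 < S M (n - a - 1) := S_pos (by omega)
  have hS3 : 0 < S M (n - 2) := S_pos (by omega)
  have hS4 : 0 < S M k := S_pos (by omega)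
  have e3 : n - 1 - 1 = n - 2 := by omega
  rw [e3] at h3
  have h4' : ∏ i ∈ Finset.range k, sg M (i + 1) = S M k := by
    have : S M (1 - 1 + k) = S M k := by congr 1; omega
    rw [← this, ← h4]
    have : S M (1 - 1) = 1 := S_zero M
    rw [this, one_mul]
    apply Finset.prod_congr rfl
    intro i _
    rw [add_comm]
  have h5 : T M n a k = (∏ i ∈ Finset.range k, sg M (a + i)) * (∏ i ∈ Finset.range k, sg M (n - a + i))
      * ((∏ i ∈ Finset.range k, sg M (n - 1 + i)) / ∏ i ∈ Finset.range k, sg M (i + 1)) := by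
    unfold T fac
    rw [← Finset.prod_div_distrib, ← Finset.prod_mul_distrib, ← Finset.prod_mul_distrib]
  rw [h5, h4', ← h1, ← h2, ← h3]
  field_simp

theorem sg_self {M : ℕ} (hM : 0 < M) : sg M M = 0 := by
  have hM' : (M : ℝ) ≠ 0 := by exact_mod_cast hM.ne'
  unfold sg
  rw [mul_div_assoc, div_self hM', mul_one, Real.sin_pi, mul_zero]

theorem T_eq_zero (M n a k : ℕ) (hn : 2 ≤ n) (hM : n ≤ M) (hk : M + 1 < k + n) : T M n a k = 0 := by
  unfold T
  apply Finset.prod_eq_zero (i := M + 1 - n)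
  · rw [Finset.mem_range]; omega
  · unfold fac
    have : n - 1 + (M + 1 - n) = M := by omega
    rw [this, sg_self (by omega)]
    simp

theorem T_nonneg (M n a k : ℕ) (ha : 1 ≤ a) (han : a ≤ n - 1) (hn : 2 ≤ n) (hM : n ≤ M) :
    0 ≤ T M n a k := by
  rcases le_or_gt (k + n) (M + 1) with h | h
  · rw [T_eq M n a k ha han hn h]
    have hS1 : 0 < S M (a - 1) := S_pos (by omega)
    have hS2 : 0 < S M (n - a - 1) := S_pos (by omega)
    have hS3 : 0 < S M (n - 2) := S_pos (by omega)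
    have hS4 : 0 < S M k := S_pos (by omega)
    have hS5 : 0 < S M (a - 1 + k) := S_pos (by omega)
    have hS6 : 0 < S M (n - a - 1 + k) := S_pos (by omega)
    have hS7 : 0 < S M (n - 2 + k) := S_pos (by omega)
    positivity
  · rw [T_eq_zero M n a k hn hM h]

theorem tendsto_ratio (a : ℕ) : Tendsto (fun N : ℕ => ((N + a : ℕ) : ℝ) / (N + 1)) atTop (𝓝 1) := by
  have h : Tendsto (fun N : ℕ => 1 + ((a : ℝ) - 1) / ((N : ℝ) + 1)) atTop (𝓝 (1 + 0)) :=
    tendsto_const_nhds.add (tendsto_const_nhds.div_atTop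
      (tendsto_natCast_atTop_atTop.atTop_add tendsto_const_nhds))
  rw [add_zero] at h
  refine h.congr fun N => ?_
  have : (N : ℝ) + 1 ≠ 0 := by positivity
  field_simp
  push_cast
  ring

theorem tendsto_log_ratio (a : ℕ) :
    Tendsto (fun N : ℕ => Real.log ((N + a : ℕ) : ℝ) / (N + 1)) atTop (𝓝 0) := by
  have h1 : Tendsto (fun N : ℕ => Real.log ((N + a : ℕ) : ℝ) / ((N + a : ℕ) : ℝ)) atTop (𝓝 0) := by
    have h2 : Tendsto (fun x : ℝ => Real.log x / x) atTop (𝓝 0) := by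
      have := Real.isLittleO_log_id_atTop.tendsto_div_nhds_zero
      simpa using this
    exact h2.comp (tendsto_natCast_atTop_atTop.comp (tendsto_add_atTop_nat a))
  have h3 := h1.mul (tendsto_ratio a)
  rw [zero_mul] at h3
  refine h3.congr' ?_
  filter_upwards [eventually_gt_atTop 0] with N hN
  have : ((N + a : ℕ) : ℝ) ≠ 0 := by
    have : 0 < N + a := by omega
    exact_mod_cast this.ne'
  have h4 : (N : ℝ) + 1 ≠ 0 := by positivity
  field_simp

end Pool.Agent.H63.VC
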