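import Pool.Agent.H63.VC.EndA
import Pool.Agent.H63.VC.Base

/-! # The twist coefficients for small `k` -/

namespace Pool.Agent.H63.VC

open Complex

theorem Small_norm_rt (M : ℕ) : ‖rt M‖ = 1 := by
  unfold rt
  have : (2 * Real.pi * I / M : ℂ) = ((2 * Real.pi / M : ℝ) : ℂ) * I := by
    push_cast; ring
  rw [this, Complex.norm_exp_ofReal_mul_I]

theorem Small_norm_one_sub (M i : ℕ) (h1 : 1 ≤ i) (h2 : i < M) : ‖1 - rt M ^ i‖ = sg M i := by
  unfold rt
  rw [← Complex.exp_nat_mul]
  have hpos := sg_pos (M := M) (m := i) h1 h2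
  have e1 : (i : ℂ) * (2 * Real.pi * I / (M : ℂ))
      = ((Real.pi * (i : ℝ) / (M : ℝ) : ℝ) : ℂ) * Complex.I
        + ((Real.pi * (i : ℝ) / (M : ℝ) : ℝ) : ℂ) * Complex.I := by
    push_cast; ring
  set θ : ℝ := Real.pi * (i : ℝ) / (M : ℝ) with hθ
  rw [e1, Complex.exp_add]
  have e2 : (1 : ℂ) - Complex.exp (θ * Complex.I) * Complex.exp (θ * Complex.I)
      = Complex.exp (θ * Complex.I) * (Complex.exp (-(θ * Complex.I)) - Complex.exp (θ * Complex.I)) := by
    rw [mul_sub, ← Complex.exp_add, ← Complex.exp_add, add_neg_cancel, Complex.exp_zero]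
  rw [e2, norm_mul, Complex.norm_exp_ofReal_mul_I, one_mul]
  have e3 : Complex.exp (-(θ * Complex.I)) - Complex.exp (θ * Complex.I)
      = -(2 * Complex.sin θ * Complex.I) := by
    rw [Complex.two_sin]
    have : Complex.I * Complex.I = -1 := Complex.I_mul_I
    rw [mul_assoc, this, neg_mul]; ring
  rw [e3, norm_neg, norm_mul, Complex.norm_I, mul_one, ← Complex.ofReal_sin]
  have e4 : (2 : ℂ) * ((Real.sin θ : ℝ) : ℂ) = ((2 * Real.sin θ : ℝ) : ℂ) := by push_cast; rfl
  rw [e4, Complex.norm_real]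
  exact abs_of_pos hpos

theorem Small_norm_prod (M k : ℕ) (h : k < M) :
    ‖∏ i ∈ Finset.range k, (1 - rt M ^ (i + 1))‖ = S M k := by
  induction k with
  | zero => simp [S_zero]
  | succ k ih =>
    rw [Finset.prod_range_succ, norm_mul, ih (by omega), S_succ,
      Small_norm_one_sub M (k + 1) (by omega) h]

theorem Small_qbin_eq_zero (q : ℂ) (k j : ℕ) (h : k < j) : qbin q k j = 0 := by
  induction k generalizing j with
  | zero =>
    obtain ⟨j, rfl⟩ : ∃ i, j = i + 1 := ⟨j - 1, by omega⟩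
    rfl
  | succ k ih =>
    obtain ⟨j, rfl⟩ : ∃ i, j = i + 1 := ⟨j - 1, by omega⟩
    show qbin q k j + q ^ (j + 1) * qbin q k (j + 1) = 0
    rw [ih j (by omega), ih (j + 1) (by omega)]
    ring

theorem Small_qbin_zero (q : ℂ) (k : ℕ) : qbin q k 0 = 1 := by
  cases k <;> rfl

theorem Small_qbin_prod (q : ℂ) (l r : ℕ) :
    qbin q (l + r) l * ((∏ i ∈ Finset.range l, (1 - q ^ (i + 1))) *
      ∏ i ∈ Finset.range r, (1 - q ^ (i + 1))) = ∏ i ∈ Finset.range (l + r), (1 - q ^ (i + 1)) := by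
  have key : ∀ s l r : ℕ, l + r = s → qbin q (l + r) l * ((∏ i ∈ Finset.range l, (1 - q ^ (i + 1))) *
      ∏ i ∈ Finset.range r, (1 - q ^ (i + 1))) = ∏ i ∈ Finset.range (l + r), (1 - q ^ (i + 1)) := by
    intro s
    induction s with
    | zero =>
      intro l r h
      have hl : l = 0 := by omega
      have hr : r = 0 := by omega
      subst hl; subst hr
      simp [Small_qbin_zero]
    | succ s ih =>
      intro l r h
      rcases Nat.eq_zero_or_pos l with rfl | hl
      · simp [Small_qbin_zero]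
      obtain ⟨l, rfl⟩ : ∃ i, l = i + 1 := ⟨l - 1, by omega⟩
      rcases Nat.eq_zero_or_pos r with rfl | hr
      · have h1 := ih l 0 (by omega)
        simp only [Finset.prod_range_zero, mul_one, add_zero] at h1 ⊢
        rw [Finset.prod_range_succ]
        have e : qbin q (l + 1) (l + 1) = qbin q l l + q ^ (l + 1) * qbin q l (l + 1) := rfl
        rw [e, Small_qbin_eq_zero q l (l + 1) (by omega), mul_zero, add_zero, ← mul_assoc, h1]
      obtain ⟨r, rfl⟩ : ∃ i, r = i + 1 := ⟨r - 1, by omega⟩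
      have h1 := ih l (r + 1) (by omega)
      have h2 := ih (l + 1) r (by omega)
      have e : qbin q (l + 1 + (r + 1)) (l + 1)
          = qbin q (l + (r + 1)) l + q ^ (l + 1) * qbin q (l + 1 + r) (l + 1) := by
        have e1 : l + 1 + (r + 1) = (l + (r + 1)) + 1 := by ring
        have e2 : l + 1 + r = l + (r + 1) := by ring
        rw [e1, e2]
        rfl
      rw [e, add_mul]
      have e3 : l + 1 + (r + 1) = (l + (r + 1)) + 1 := by ring
      rw [e3, Finset.prod_range_succ (n := l + (r + 1))]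
      have h1' : qbin q (l + (r + 1)) l * ((∏ i ∈ Finset.range (l + 1), (1 - q ^ (i + 1))) *
          ∏ i ∈ Finset.range (r + 1), (1 - q ^ (i + 1)))
          = (∏ i ∈ Finset.range (l + (r + 1)), (1 - q ^ (i + 1))) * (1 - q ^ (l + 1)) := by
        rw [← h1, Finset.prod_range_succ (n := l)]
        ring
      have e2 : l + 1 + r = l + (r + 1) := by ring
      have h2' : q ^ (l + 1) * qbin q (l + 1 + r) (l + 1) * ((∏ i ∈ Finset.range (l + 1), (1 - q ^ (i + 1))) *
          ∏ i ∈ Finset.range (r + 1), (1 - q ^ (i + 1)))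
          = (∏ i ∈ Finset.range (l + (r + 1)), (1 - q ^ (i + 1))) * (q ^ (l + 1) * (1 - q ^ (r + 1))) := by
        have h3 : ∏ i ∈ Finset.range (l + (r + 1)), (1 - q ^ (i + 1))
            = ∏ i ∈ Finset.range (l + 1 + r), (1 - q ^ (i + 1)) := by rw [e2]
        rw [h3, ← h2, Finset.prod_range_succ (n := r)]
        ring
      rw [h1', h2']
      ring
  exact key _ l r rfl

theorem Small_norm_qbin (M k l : ℕ) (hl : l ≤ k) (hk : k < M) :
    ‖qbin (rt M) k l‖ * (S M l * S M (k - l)) = S M k := by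
  have h := congrArg (fun z : ℂ => ‖z‖) (Small_qbin_prod (rt M) l (k - l))
  simp only [norm_mul] at h
  rw [Small_norm_prod M l (by omega), Small_norm_prod M (k - l) (by omega),
    Nat.add_sub_cancel' hl, Small_norm_prod M k hk] at h
  exact h

/-- log-concavity -/
theorem Small_S_sq (M k l : ℕ) (hl : l ≤ k) (h : 2 * k < M) :
    S M k * S M k ≤ S M (k - l) * S M (k + l) := by
  induction l with
  | zero => simp
  | succ l ih =>
    have h1 := ih (by omega)
    have e1 : S M (k - l) = S M (k - (l + 1)) * sg M (k - l) := by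
      have : k - l = (k - (l + 1)) + 1 := by omega
      rw [this, S_succ]
    have e2 : S M (k + (l + 1)) = S M (k + l) * sg M (k + l + 1) := by
      rw [← add_assoc, S_succ]
    have h3 : sg M (k - l) ≤ sg M (k + l + 1) := by
      rcases le_or_gt (2 * (k + l + 1)) M with h4 | h4
      · exact sg_mono (by omega) (by omega) h4
      · rw [← sg_symm (m := k + l + 1) (by omega) (by omega)]
        exact sg_mono (by omega) (by omega) (by omega)
    have p1 : 0 < S M (k - (l + 1)) := S_pos (by omega)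
    have p2 : 0 < S M (k + l) := S_pos (by omega)
    calc S M k * S M k ≤ S M (k - l) * S M (k + l) := h1
      _ = (S M (k - (l + 1)) * S M (k + l)) * sg M (k - l) := by rw [e1]; ring
      _ ≤ (S M (k - (l + 1)) * S M (k + l)) * sg M (k + l + 1) :=
          mul_le_mul_of_nonneg_left h3 (mul_pos p1 p2).le
      _ = S M (k - (l + 1)) * S M (k + (l + 1)) := by rw [e2]; ring

theorem Small_S_ge (M k c : ℕ) (h : k + c < M) : S M k ≤ S M (k + c) * (M : ℝ) ^ c := by
  induction c with
  | zero => simp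
  | succ c ih =>
    have h1 := ih (by omega)
    have hM : (0 : ℝ) < M := by exact_mod_cast (by omega : 0 < M)
    rw [← add_assoc, S_succ]
    have h2 := sg_ge (M := M) (m := k + c + 1) (by omega) (by omega)
    have h3 : 1 ≤ sg M (k + c + 1) * M := by
      rw [div_le_iff₀ hM] at h2
      exact h2
    have p : 0 < S M (k + c) := S_pos (by omega)
    calc S M k ≤ S M (k + c) * (M : ℝ) ^ c := h1
      _ = S M (k + c) * (M : ℝ) ^ c * 1 := by ring
      _ ≤ S M (k + c) * (M : ℝ) ^ c * (sg M (k + c + 1) * M) :=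
          mul_le_mul_of_nonneg_left h3 (by positivity)
      _ = S M (k + c) * sg M (k + c + 1) * (M : ℝ) ^ (c + 1) := by ring

theorem Small_eig (n M k l : ℕ) (hn : 2 ≤ n) (h : 2 * k + n ≤ M) (hl : l ≤ k) :
    ‖eig (rt M ^ (n - 1)) (rt M) l k‖ * S M k ≤ 2 ^ (n - 1) * (M : ℝ) ^ (n - 1) := by
  have hM : (0 : ℝ) < M := by exact_mod_cast (by omega : 0 < M)
  unfold eig
  rw [norm_div, norm_mul]
  have hq := Small_norm_qbin M k l hl (by omega)
  have hp : ‖∏ i ∈ Finset.range (k + 1), (1 - rt M ^ (n - 1) * rt M ^ (l + i))‖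
      = ∏ i ∈ Finset.range (k + 1), sg M (n - 1 + l + i) := by
    rw [norm_prod]
    apply Finset.prod_congr rfl
    intro i hi
    rw [Finset.mem_range] at hi
    rw [← pow_add, ← add_assoc]
    exact Small_norm_one_sub M (n - 1 + l + i) (by omega) (by omega)
  have hS := S_mul_prod M (n - 1 + l) (k + 1) (by omega)
  have e1 : n - 1 + l - 1 = (n - 2) + l := by omega
  have e2 : n - 1 + l - 1 + (k + 1) = (k + l) + (n - 1) := by omega
  rw [e2, e1] at hS
  rw [hp]
  have h2 : ‖1 - rt M ^ (n - 1) * rt M ^ (2 * l)‖ ≤ 2 := by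
    refine (norm_sub_le _ _).trans ?_
    rw [norm_mul, norm_pow, norm_pow, Small_norm_rt]
    norm_num
  have h3 := S_shift_le M l (n - 2) (by omega)
  have h4 := Small_S_ge M (k + l) (n - 1) (by omega)
  have h5 := Small_S_sq M k l hl (by omega)
  have pk : 0 < S M k := S_pos (by omega)
  have pl : 0 < S M l := S_pos (by omega)
  have pkl : 0 < S M (k - l) := S_pos (by omega)
  have pkl' : 0 < S M (k + l) := S_pos (by omega)
  have pn : 0 < S M (n - 2 + l) := S_pos (by omega)
  have pN : 0 < S M (k + l + (n - 1)) := S_pos (by omega)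
  set P := ∏ i ∈ Finset.range (k + 1), sg M (n - 1 + l + i) with hP
  have pP : 0 < P := by
    apply Finset.prod_pos
    intro i hi
    rw [Finset.mem_range] at hi
    exact sg_pos (by omega) (by omega)
  rw [div_mul_eq_mul_div, div_le_iff₀ pP]
  set A := ‖qbin (rt M) k l‖ with hA
  set B := ‖1 - rt M ^ (n - 1) * rt M ^ (2 * l)‖ with hB
  have pA : 0 ≤ A := norm_nonneg _
  have pB : 0 ≤ B := norm_nonneg _
  have e3 : (2 : ℝ) ^ (n - 1) = 2 * 2 ^ (n - 2) := by
    have : n - 1 = (n - 2) + 1 := by omega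
    rw [this, pow_succ]; ring
  rw [e3]
  -- multiply by everything
  have pX : 0 < S M l * S M (k - l) * S M (n - 2 + l) := by positivity
  refine le_of_mul_le_mul_left ?_ pX
  have lhs : S M l * S M (k - l) * S M (n - 2 + l) * (A * B * S M k)
      = (A * (S M l * S M (k - l))) * S M k * (S M (n - 2 + l) * B) := by ring
  have rhs : S M l * S M (k - l) * S M (n - 2 + l) * (2 * 2 ^ (n - 2) * (M : ℝ) ^ (n - 1) * P)
      = S M (k - l) * ((S M (n - 2 + l) * P) * (M : ℝ) ^ (n - 1)) * ((S M l * 2 ^ (n - 2)) * 2) := by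
    ring
  rw [lhs, rhs, hq, hS]
  have i1 : S M (n - 2 + l) * B ≤ (S M l * 2 ^ (n - 2)) * 2 :=
    mul_le_mul h3 h2 pB (by positivity)
  have i2 : S M k * S M k ≤ S M (k - l) * (S M (k + l + (n - 1)) * (M : ℝ) ^ (n - 1)) :=
    h5.trans (mul_le_mul_of_nonneg_left h4 pkl.le)
  exact mul_le_mul i2 i1 (by positivity) (by positivity)

theorem twist_small (p n M k : ℕ) (hn : 2 ≤ n) (h : 2 * k + n ≤ M) :
    ‖twistCoeff (rt M ^ n) (rt M) p k‖ * S M k ≤ 2 ^ n * (M : ℝ) ^ (n + 1) := by
  have hM : (0 : ℝ) < M := by exact_mod_cast (by omega : 0 < M)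
  have hM1 : (1 : ℝ) ≤ M := by exact_mod_cast (by omega : 1 ≤ M)
  have e0 : rt M ^ n = rt M ^ (n - 1) * rt M := by
    rw [← pow_succ]; congr 1; omega
  have hne : ∀ i ≤ 2 * k, 1 - rt M ^ (n - 1) * rt M ^ i ≠ 0 := by
    intro i hi
    rw [← pow_add, ← norm_pos_iff, Small_norm_one_sub M (n - 1 + i) (by omega) (by omega)]
    exact sg_pos (by omega) (by omega)
  rw [e0, twistCoeff_expand (rt M ^ (n - 1)) (rt M) p k hne]
  have pk : 0 < S M k := S_pos (by omega)
  have h1 : ‖∑ l ∈ Finset.range (k + 1), (-1) ^ l * rt M ^ (l * (l - 1) / 2) *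
      ((rt M ^ (n - 1) * rt M) ^ l * rt M ^ (l * (l - 1))) ^ p * eig (rt M ^ (n - 1)) (rt M) l k‖
      ≤ ∑ l ∈ Finset.range (k + 1), ‖eig (rt M ^ (n - 1)) (rt M) l k‖ := by
    refine (norm_sum_le _ _).trans (le_of_eq ?_)
    apply Finset.sum_congr rfl
    intro l _
    simp only [norm_mul, norm_pow, norm_neg, norm_one, Small_norm_rt, one_pow, one_mul, mul_one]
  calc _ ≤ (∑ l ∈ Finset.range (k + 1), ‖eig (rt M ^ (n - 1)) (rt M) l k‖) * S M k :=
        mul_le_mul_of_nonneg_right h1 pk.le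
    _ = ∑ l ∈ Finset.range (k + 1), ‖eig (rt M ^ (n - 1)) (rt M) l k‖ * S M k := by
        rw [Finset.sum_mul]
    _ ≤ ∑ l ∈ Finset.range (k + 1), 2 ^ (n - 1) * (M : ℝ) ^ (n - 1) := by
        apply Finset.sum_le_sum
        intro l hl
        rw [Finset.mem_range] at hl
        exact Small_eig n M k l hn h (by omega)
    _ = (k + 1 : ℕ) * (2 ^ (n - 1) * (M : ℝ) ^ (n - 1)) := by
        rw [Finset.sum_const, Finset.card_range, nsmul_eq_mul]
    _ ≤ M * (2 ^ (n - 1) * (M : ℝ) ^ (n - 1)) := by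
        apply mul_le_mul_of_nonneg_right _ (by positivity)
        exact_mod_cast (by omega : k + 1 ≤ M)
    _ ≤ 2 ^ n * (M : ℝ) ^ (n + 1) := by
        have e5 : (M : ℝ) * (2 ^ (n - 1) * (M : ℝ) ^ (n - 1)) = 2 ^ (n - 1) * (M : ℝ) ^ n := by
          have : (M : ℝ) ^ n = M * M ^ (n - 1) := by
            rw [← pow_succ']; congr 1; omega
          rw [this]; ring
        rw [e5]
        apply mul_le_mul
        · exact pow_le_pow_right₀ (by norm_num) (by omega)
        · exact pow_le_pow_right₀ hM1 (by omega)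
        · positivity
        · positivity

end Pool.Agent.H63.VC
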