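import Pool.Agent.H63.VC.Defs

/-! # The Bloch-Wigner function: continuity and derivative -/

namespace Pool.Agent.H63.VC

open MeasureTheory Filter Topology in
/-- The integrand of the Lobachevsky function. -/
theorem volA_integrable (a b : ℝ) :
    IntervalIntegrable (fun t => Real.log |2 * Real.sin t|) volume a b := by
  have h : MeromorphicOn (fun t : ℝ => 2 * Real.sin t) (Set.uIcc a b) := by
    intro x _
    exact ((analyticAt_const).mul (Real.analyticAt_sin)).meromorphicAt
  simpa [Real.norm_eq_abs] using h.intervalIntegrable_log_norm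

theorem volA_integral_pi : ∫ t in (0 : ℝ)..Real.pi, Real.log |2 * Real.sin t| = 0 := by
  have h1 : ∫ t in (0 : ℝ)..Real.pi, Real.log |2 * Real.sin t| =
      ∫ t in (0 : ℝ)..Real.pi, (Real.log 2 + Real.log (Real.sin t)) := by
    apply intervalIntegral.integral_congr_Ioo_of_le Real.pi_pos.le
    intro t ht
    have hs : 0 < Real.sin t := Real.sin_pos_of_pos_of_lt_pi ht.1 ht.2
    simp only
    rw [abs_of_pos (by positivity), Real.log_mul (by norm_num) hs.ne']
  rw [h1, intervalIntegral.integral_add (by simp) (by exact intervalIntegrable_log_sin),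
    integral_log_sin_zero_pi]
  simp
  ring

theorem volA_periodic : Function.Periodic (fun t => Real.log |2 * Real.sin t|) Real.pi := by
  intro t
  simp [Real.sin_add_pi]

theorem volA_lob_zero : lob 0 = 0 := by simp [lob]

theorem volA_lob_pi : lob Real.pi = 0 := by rw [lob, volA_integral_pi, neg_zero]

theorem volA_lob_add_pi (θ : ℝ) : lob (θ + Real.pi) = lob θ := by
  unfold lob
  have h := intervalIntegral.integral_add_adjacent_intervals (volA_integrable 0 θ)
    (volA_integrable θ (θ + Real.pi))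
  have h2 := volA_periodic.intervalIntegral_add_eq θ 0
  rw [← h, h2, zero_add, volA_integral_pi, add_zero]

theorem volA_lob_periodic : Function.Periodic lob Real.pi := volA_lob_add_pi

theorem volA_lob_periodic_two_pi : Function.Periodic lob (2 * Real.pi) := by
  have := volA_lob_periodic.nat_mul 2
  simpa using this

theorem volA_lob_neg (θ : ℝ) : lob (-θ) = -lob θ := by
  unfold lob
  have h : ∫ t in (0 : ℝ)..(-θ), Real.log |2 * Real.sin t| =
      -∫ t in (0 : ℝ)..θ, Real.log |2 * Real.sin t| := by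
    have := intervalIntegral.integral_comp_neg (a := 0) (b := θ)
      (fun t => Real.log |2 * Real.sin t|)
    simp only [Real.sin_neg, mul_neg, abs_neg, neg_zero] at this
    rw [this, intervalIntegral.integral_symm]
  rw [h]

theorem volA_lob_continuous : Continuous lob := by
  unfold lob
  exact (intervalIntegral.continuous_primitive volA_integrable 0).neg

theorem volA_lob_hasDerivAt (θ : ℝ) (h : Real.sin θ ≠ 0) :
    HasDerivAt lob (-Real.log |2 * Real.sin θ|) θ := by
  unfold lob
  apply HasDerivAt.neg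
  have hc : ContinuousAt (fun t => Real.log |2 * Real.sin t|) θ := by
    apply ContinuousAt.log
    · fun_prop
    · simpa using h
  refine intervalIntegral.integral_hasDerivAt_right (volA_integrable 0 θ) ?_ hc
  refine ⟨Set.univ, Filter.univ_mem, ?_⟩
  have hm : Measurable (fun t : ℝ => Real.log |2 * Real.sin t|) := by fun_prop
  exact hm.aestronglyMeasurable

/-- The Lobachevsky function on angles. -/
noncomputable def volA_lobA : Real.Angle → ℝ := volA_lob_periodic_two_pi.lift

theorem volA_lobA_coe (θ : ℝ) : volA_lobA (θ : Real.Angle) = lob θ := rfl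

theorem volA_lobA_continuous : Continuous volA_lobA := by
  refine continuous_coinduced_dom.2 ?_
  exact volA_lob_continuous

theorem volA_lob_arg_continuousAt (z : ℂ) (h0 : z ≠ 0) :
    ContinuousAt (fun z => lob (Complex.arg z)) z := by
  have h := Complex.continuousAt_arg_coe_angle h0
  have h2 := ContinuousAt.comp (f := ((↑) ∘ Complex.arg : ℂ → Real.Angle)) (g := volA_lobA)
    volA_lobA_continuous.continuousAt h
  exact h2

theorem volA_lob_arg_real (x : ℝ) : lob (Complex.arg (x : ℂ)) = 0 := by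
  rcases le_or_gt 0 x with h | h
  · rw [Complex.arg_ofReal_of_nonneg h, volA_lob_zero]
  · rw [Complex.arg_ofReal_of_neg h, volA_lob_pi]

theorem blochWigner_real (x : ℝ) : blochWigner (x : ℂ) = 0 := by
  unfold blochWigner
  have h1 := volA_lob_arg_real x
  have h2 := volA_lob_arg_real (1 - x)⁻¹
  have h3 := volA_lob_arg_real (1 - x⁻¹)
  push_cast at h2 h3
  rw [h1, h2, h3]
  simp

theorem blochWigner_continuousAt (z : ℂ) (h0 : z ≠ 0) (h1 : z ≠ 1) :
    ContinuousAt blochWigner z := by
  unfold blochWigner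
  have h1' : 1 - z ≠ 0 := sub_ne_zero.2 (Ne.symm h1)
  have hz : 1 - z⁻¹ ≠ 0 := by
    intro h
    rw [sub_eq_zero] at h
    exact h1 (inv_eq_one.1 h.symm)
  refine ((volA_lob_arg_continuousAt z h0).add ?_).add ?_
  · have hc : ContinuousAt (fun z : ℂ => (1 - z)⁻¹) z :=
      (continuousAt_const.sub continuousAt_id).inv₀ h1'
    exact ContinuousAt.comp (f := fun z : ℂ => (1 - z)⁻¹)
      (g := fun z => lob (Complex.arg z)) (volA_lob_arg_continuousAt _ (inv_ne_zero h1')) hc
  · have hc : ContinuousAt (fun z : ℂ => 1 - z⁻¹) z :=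
      continuousAt_const.sub (continuousAt_id.inv₀ h0)
    exact ContinuousAt.comp (f := fun z : ℂ => 1 - z⁻¹)
      (g := fun z => lob (Complex.arg z)) (volA_lob_arg_continuousAt _ hz) hc

/-- Derivative of `lob ∘ arg ∘ f`. -/
theorem volA_lob_arg_hasDerivAt (f : ℝ → ℂ) (f' : ℂ) (t : ℝ) (hf : HasDerivAt f f' t)
    (him : (f t).im ≠ 0) :
    HasDerivAt (fun s => lob (Complex.arg (f s)))
      (-Real.log |2 * ((f t).im / ‖f t‖)| * (f' / f t).im) t := by
  have hs : f t ∈ Complex.slitPlane := by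
    rw [Complex.mem_slitPlane_iff]
    exact Or.inr him
  have h0 : f t ≠ 0 := Complex.slitPlane_ne_zero hs
  have hl := hf.clog_real hs
  have ha : HasDerivAt (fun s => Complex.arg (f s)) ((f' / f t).im) t := by
    have := Complex.imCLM.hasFDerivAt.comp_hasDerivAt t hl
    simpa [Function.comp_def, Complex.log_im] using this
  have hsin : Real.sin (Complex.arg (f t)) = (f t).im / ‖f t‖ := Complex.sin_arg (f t)
  have hne : Real.sin (Complex.arg (f t)) ≠ 0 := by
    rw [hsin]
    exact div_ne_zero him (norm_ne_zero_iff.2 h0)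
  have h2 := (volA_lob_hasDerivAt _ hne).comp t ha
  rw [hsin] at h2
  exact h2

theorem blochWigner_hasDerivAt (u : ℝ → ℂ) (u' : ℂ) (t : ℝ) (hu : HasDerivAt u u' t)
    (him : (u t).im ≠ 0) :
    HasDerivAt (fun s => blochWigner (u s))
      (Real.log ‖u t‖ * (-u' / (1 - u t)).im - Real.log ‖1 - u t‖ * (u' / u t).im) t := by
  have h0 : u t ≠ 0 := by
    intro h
    rw [h] at him
    simp at him
  have h1 : 1 - u t ≠ 0 := by
    intro h
    apply him
    have : (1 - u t).im = 0 := by rw [h]; simp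
    simpa using this
  have hc : u t - 1 ≠ 0 := by
    intro h
    apply h1
    rw [← neg_sub, h, neg_zero]
  have hv : HasDerivAt (fun s => (1 - u s)⁻¹) (u' / (1 - u t) ^ 2) t := by
    have := ((hu.const_sub 1).fun_inv h1)
    refine this.congr_deriv ?_
    rw [neg_neg]
  have hw : HasDerivAt (fun s => 1 - (u s)⁻¹) (u' / (u t) ^ 2) t := by
    have := ((hu.fun_inv h0).const_sub 1)
    refine this.congr_deriv ?_
    rw [neg_div, neg_neg]
  have hvim : ((1 - u t)⁻¹).im = (u t).im / ‖1 - u t‖ ^ 2 := by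
    rw [Complex.inv_im, Complex.normSq_eq_norm_sq]
    simp
  have hwim : (1 - (u t)⁻¹).im = (u t).im / ‖u t‖ ^ 2 := by
    rw [Complex.sub_im, Complex.inv_im, Complex.normSq_eq_norm_sq]
    simp
    ring
  have n0 : 0 < ‖u t‖ := norm_pos_iff.2 h0
  have n1 : 0 < ‖1 - u t‖ := norm_pos_iff.2 h1
  have ev : |((1 - u t)⁻¹).im / ‖(1 - u t)⁻¹‖| = |(u t).im| / ‖1 - u t‖ := by
    rw [hvim, norm_inv, abs_div, abs_div, abs_of_pos (inv_pos.2 n1), abs_of_pos (pow_pos n1 2)]
    field_simp
  have nw : ‖1 - (u t)⁻¹‖ = ‖1 - u t‖ / ‖u t‖ := by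
    have : 1 - (u t)⁻¹ = (u t - 1) / u t := by
      field_simp
    rw [this, norm_div, ← norm_neg (u t - 1), neg_sub]
  have ew : |(1 - (u t)⁻¹).im / ‖1 - (u t)⁻¹‖| = |(u t).im| / (‖1 - u t‖ * ‖u t‖) := by
    rw [hwim, nw, abs_div, abs_div, abs_of_pos (div_pos n1 n0), abs_of_pos (pow_pos n0 2)]
    field_simp
  have d1 := volA_lob_arg_hasDerivAt u u' t hu him
  have d2 := volA_lob_arg_hasDerivAt (fun s => (1 - u s)⁻¹) _ t hv (by
    rw [hvim]; exact div_ne_zero him (pow_ne_zero _ n1.ne'))
  have d3 := volA_lob_arg_hasDerivAt (fun s => 1 - (u s)⁻¹) _ t hw (by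
    rw [hwim]; exact div_ne_zero him (pow_ne_zero _ n0.ne'))
  have hd := (d1.add d2).add d3
  refine hd.congr_deriv ?_
  have e1 : |2 * ((u t).im / ‖u t‖)| = 2 * |(u t).im| / ‖u t‖ := by
    rw [abs_mul, abs_div, abs_of_pos n0, abs_two]
    ring
  have e2 : |2 * (((1 - u t)⁻¹).im / ‖(1 - u t)⁻¹‖)| = 2 * |(u t).im| / ‖1 - u t‖ := by
    rw [abs_mul, ev, abs_two]
    ring
  have e3 : |2 * ((1 - (u t)⁻¹).im / ‖1 - (u t)⁻¹‖)| =
      2 * |(u t).im| / (‖1 - u t‖ * ‖u t‖) := by
    rw [abs_mul, ew, abs_two]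
    ring
  have hI : 0 < 2 * |(u t).im| := by
    have := abs_pos.2 him
    positivity
  have q2 : u' / (1 - u t) ^ 2 / (1 - u t)⁻¹ = u' / (1 - u t) := by
    field_simp
  have q3 : u' / (u t) ^ 2 / (1 - (u t)⁻¹) = -(u' / (1 - u t)) - u' / u t := by
    have hx : 1 - (u t)⁻¹ = (u t - 1) / u t := by
      field_simp
    rw [hx]
    field_simp
    ring
  have q4 : -u' / (1 - u t) = -(u' / (1 - u t)) := neg_div _ _
  rw [e1, e2, e3, q2, q3, q4, Real.log_div hI.ne' n0.ne', Real.log_div hI.ne' n1.ne',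
    Real.log_div hI.ne' (mul_pos n1 n0).ne', Real.log_mul n1.ne' n0.ne']
  simp only [Complex.sub_im, Complex.neg_im]
  ring

end Pool.Agent.H63.VC
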