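import Pool.Agent.H63.VC.Vec

/-! # Upper and lower bounds for the invariant -/

namespace Pool.Agent.H63.VC

open Filter Topology Real Set

theorem S_shift_ge (M k c : ℕ) (h : k + c < M) : S M k * (1 / (M : ℝ)) ^ c ≤ S M (c + k) := by
  rw [add_comm c k, S_split (M := M) (Nat.le_add_right k c)]
  apply mul_le_mul_of_nonneg_left _ (S_pos (by omega)).le
  have : ∏ m ∈ Finset.Ico (k + 1) (k + c + 1), (1 / (M : ℝ)) ≤ ∏ m ∈ Finset.Ico (k + 1) (k + c + 1), sg M m := by
    apply Finset.prod_le_prod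
    · intro m _; positivity
    · intro m hm
      rw [Finset.mem_Ico] at hm
      exact sg_ge (by omega) (by omega)
  have e : k + c + 1 - (k + 1) = c := by omega
  simpa [e] using this

theorem T_le (M n a k : ℕ) (ha : 1 ≤ a) (han : a ≤ n - 1) (hn : 2 ≤ n) (hk : k + n ≤ M + 1)
    (hM : n ≤ M) : T M n a k ≤ (2 * (M : ℝ)) ^ (2 * n - 4) * S M k ^ 2 := by
  have hM0 : (0 : ℝ) < M := by exact_mod_cast (by omega : 0 < M)
  rw [T_eq M n a k ha han hn hk]
  have h1 := S_shift_le M k (a - 1) (by omega)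
  have h2 := S_shift_le M k (n - a - 1) (by omega)
  have h3 := S_shift_le M k (n - 2) (by omega)
  have g1 := S_ge M (a - 1) (by omega)
  have g2 := S_ge M (n - a - 1) (by omega)
  have g3 := S_ge M (n - 2) (by omega)
  have pk : 0 < S M k := S_pos (by omega)
  have p1 : 0 < S M (a - 1) := S_pos (by omega)
  have p2 : 0 < S M (n - a - 1) := S_pos (by omega)
  have p3 : 0 < S M (n - 2) := S_pos (by omega)
  have q1 : 0 < S M (a - 1 + k) := S_pos (by omega)
  have q2 : 0 < S M (n - a - 1 + k) := S_pos (by omega)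
  have q3 : 0 < S M (n - 2 + k) := S_pos (by omega)
  have r1 : S M (a - 1 + k) / S M (a - 1) ≤ S M k * 2 ^ (a - 1) * M ^ (a - 1) := by
    rw [div_le_iff₀ p1]
    have : (1 : ℝ) ≤ M ^ (a - 1) * S M (a - 1) := by
      have := mul_le_mul_of_nonneg_left g1 (pow_nonneg hM0.le (a - 1))
      rwa [← mul_pow, mul_one_div_cancel hM0.ne', one_pow] at this
    calc _ ≤ S M k * 2 ^ (a - 1) * 1 := by rw [mul_one]; exact h1
      _ ≤ S M k * 2 ^ (a - 1) * (M ^ (a - 1) * S M (a - 1)) :=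
        mul_le_mul_of_nonneg_left this (by positivity)
      _ = _ := by ring
  have r2 : S M (n - a - 1 + k) / S M (n - a - 1) ≤ S M k * 2 ^ (n - a - 1) * M ^ (n - a - 1) := by
    rw [div_le_iff₀ p2]
    have : (1 : ℝ) ≤ M ^ (n - a - 1) * S M (n - a - 1) := by
      have := mul_le_mul_of_nonneg_left g2 (pow_nonneg hM0.le (n - a - 1))
      rwa [← mul_pow, mul_one_div_cancel hM0.ne', one_pow] at this
    calc _ ≤ S M k * 2 ^ (n - a - 1) * 1 := by rw [mul_one]; exact h2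
      _ ≤ S M k * 2 ^ (n - a - 1) * (M ^ (n - a - 1) * S M (n - a - 1)) :=
        mul_le_mul_of_nonneg_left this (by positivity)
      _ = _ := by ring
  have r3 : S M (n - 2 + k) / S M (n - 2) ≤ S M k * 2 ^ (n - 2) * M ^ (n - 2) := by
    rw [div_le_iff₀ p3]
    have : (1 : ℝ) ≤ M ^ (n - 2) * S M (n - 2) := by
      have := mul_le_mul_of_nonneg_left g3 (pow_nonneg hM0.le (n - 2))
      rwa [← mul_pow, mul_one_div_cancel hM0.ne', one_pow] at this
    calc _ ≤ S M k * 2 ^ (n - 2) * 1 := by rw [mul_one]; exact h3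
      _ ≤ S M k * 2 ^ (n - 2) * (M ^ (n - 2) * S M (n - 2)) :=
        mul_le_mul_of_nonneg_left this (by positivity)
      _ = _ := by ring
  have e : S M (a - 1 + k) * S M (n - a - 1 + k) * S M (n - 2 + k) /
      (S M (a - 1) * S M (n - a - 1) * S M (n - 2) * S M k)
      = (S M (a - 1 + k) / S M (a - 1)) * (S M (n - a - 1 + k) / S M (n - a - 1)) *
        (S M (n - 2 + k) / S M (n - 2)) / S M k := by
    field_simp
  rw [e, div_le_iff₀ pk]
  have e2 : 2 * n - 4 = (a - 1) + (n - a - 1) + (n - 2) := by omega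
  calc _ ≤ (S M k * 2 ^ (a - 1) * M ^ (a - 1)) * (S M k * 2 ^ (n - a - 1) * M ^ (n - a - 1)) *
        (S M k * 2 ^ (n - 2) * M ^ (n - 2)) := by gcongr
    _ = _ := by rw [e2, pow_add, pow_add, mul_pow, mul_pow, mul_pow]; ring

theorem T_ge (M n a k : ℕ) (ha : 1 ≤ a) (han : a ≤ n - 1) (hn : 2 ≤ n) (hk : k + n ≤ M + 1)
    (hM : n ≤ M) : S M k ^ 2 ≤ (2 * (M : ℝ)) ^ (2 * n - 4) * T M n a k := by
  have hM0 : (0 : ℝ) < M := by exact_mod_cast (by omega : 0 < M)
  rw [T_eq M n a k ha han hn hk]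
  have h1 := S_shift_ge M k (a - 1) (by omega)
  have h2 := S_shift_ge M k (n - a - 1) (by omega)
  have h3 := S_shift_ge M k (n - 2) (by omega)
  have g1 := S_le M (a - 1) (by omega)
  have g2 := S_le M (n - a - 1) (by omega)
  have g3 := S_le M (n - 2) (by omega)
  have pk : 0 < S M k := S_pos (by omega)
  have p1 : 0 < S M (a - 1) := S_pos (by omega)
  have p2 : 0 < S M (n - a - 1) := S_pos (by omega)
  have p3 : 0 < S M (n - 2) := S_pos (by omega)
  have q1 : 0 < S M (a - 1 + k) := S_pos (by omega)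
  have q2 : 0 < S M (n - a - 1 + k) := S_pos (by omega)
  have q3 : 0 < S M (n - 2 + k) := S_pos (by omega)
  have aux : ∀ c : ℕ, 0 < S M c → S M c ≤ 2 ^ c → S M k * (1 / (M : ℝ)) ^ c ≤ S M (c + k) →
      S M k ≤ (2 ^ c * M ^ c) * (S M (c + k) / S M c) := by
    intro c hc hc2 hc3
    have hMc : (0 : ℝ) < (M : ℝ) ^ c := by positivity
    rw [one_div, inv_pow, ← div_eq_mul_inv, div_le_iff₀ hMc] at hc3
    rw [← mul_div_assoc, le_div_iff₀ hc]
    calc S M k * S M c ≤ (S M (c + k) * M ^ c) * 2 ^ c := by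
          apply mul_le_mul hc3 hc2 hc.le
          exact (pk.le).trans hc3
      _ = _ := by ring
  have r1 := aux _ p1 g1 h1
  have r2 := aux _ p2 g2 h2
  have r3 := aux _ p3 g3 h3
  have e : S M (a - 1 + k) * S M (n - a - 1 + k) * S M (n - 2 + k) /
      (S M (a - 1) * S M (n - a - 1) * S M (n - 2) * S M k)
      = (S M (a - 1 + k) / S M (a - 1)) * (S M (n - a - 1 + k) / S M (n - a - 1)) *
        (S M (n - 2 + k) / S M (n - 2)) / S M k := by
    field_simp
  rw [e, ← mul_div_assoc, le_div_iff₀ pk]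
  have e2 : 2 * n - 4 = (a - 1) + (n - a - 1) + (n - 2) := by omega
  calc S M k ^ 2 * S M k = S M k * S M k * S M k := by ring
    _ ≤ ((2 ^ (a - 1) * M ^ (a - 1)) * (S M (a - 1 + k) / S M (a - 1))) *
        ((2 ^ (n - a - 1) * M ^ (n - a - 1)) * (S M (n - a - 1 + k) / S M (n - a - 1))) *
        ((2 ^ (n - 2) * M ^ (n - 2)) * (S M (n - 2 + k) / S M (n - 2))) := by gcongr
    _ = _ := by rw [e2, pow_add, pow_add, mul_pow, mul_pow, mul_pow]; ring

theorem norm_ext_le {p : ℕ} (x : Fin p → ℂ) (a : ℕ) : ‖ext x a‖ ≤ ‖x‖ := by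
  unfold ext
  split_ifs with h
  · exact norm_le_pi_norm x _
  · simp

theorem tri_sub_norm (p : ℕ) (β w : ℂ) (hw : ‖w‖ = 1) : ‖tri p β w - tri p 1 w‖ ≤ 3 * ‖β - 1‖ := by
  apply ContinuousLinearMap.opNorm_le_bound _ (by positivity)
  intro x
  rw [pi_norm_le_iff_of_nonneg (by positivity)]
  intro i
  have e : (tri p β w - tri p 1 w) x i = (β - 1) * (w * x i - ext x (i.1 + 1)
      - (if i.1 + 1 = p then w * x i else 0)) := by
    rw [sub_apply, Pi.sub_apply, tri_apply, tri_apply]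
    split_ifs <;> ring
  rw [e, norm_mul, mul_comm 3 ‖β - 1‖, mul_assoc]
  apply mul_le_mul_of_nonneg_left _ (norm_nonneg _)
  have h1 : ‖w * x i‖ ≤ ‖x‖ := by rw [norm_mul, hw, one_mul]; exact norm_le_pi_norm x i
  have h2 := norm_ext_le x (i.1 + 1)
  have h3 : ‖(if i.1 + 1 = p then w * x i else 0)‖ ≤ ‖x‖ := by
    split_ifs
    · exact h1
    · simp
  calc _ ≤ ‖w * x i‖ + ‖ext x (i.1 + 1)‖ + ‖(if i.1 + 1 = p then w * x i else 0)‖ :=
        (norm_sub_le _ _).trans (add_le_add_left (norm_sub_le _ _) _)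
    _ ≤ 3 * ‖x‖ := by linarith

theorem tri_norm_le (p : ℕ) (β w : ℂ) (hβ : ‖β‖ = 1) (hw : ‖w‖ = 1) (x : Fin p → ℂ) :
    ‖tri p β w x‖ ≤ 5 * ‖x‖ := by
  rw [pi_norm_le_iff_of_nonneg (by positivity)]
  intro i
  rw [tri_apply]
  have hx := norm_le_pi_norm x i
  have h1 : ‖(w⁻¹ + β * w) * x i‖ ≤ 2 * ‖x‖ := by
    rw [norm_mul]
    have : ‖w⁻¹ + β * w‖ ≤ 2 := by
      refine (norm_add_le _ _).trans ?_
      rw [norm_inv, norm_mul, hw, hβ]; norm_num
    exact mul_le_mul this hx (norm_nonneg _) two_pos.le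
  have h2 : ‖β * ext x (i.1 + 1)‖ ≤ ‖x‖ := by
    rw [norm_mul, hβ, one_mul]; exact norm_ext_le x _
  have h3 : ‖(if i.1 = 0 then x i else ext x (i.1 - 1))‖ ≤ ‖x‖ := by
    split_ifs
    · exact hx
    · exact norm_ext_le x _
  have h4 : ‖(if i.1 + 1 = p then β * w * x i else 0)‖ ≤ ‖x‖ := by
    split_ifs
    · rw [norm_mul, norm_mul, hβ, hw, one_mul, one_mul]; exact hx
    · simp
  calc _ ≤ ‖(w⁻¹ + β * w) * x i‖ + ‖β * ext x (i.1 + 1)‖ + ‖(if i.1 = 0 then x i else ext x (i.1 - 1))‖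
        + ‖(if i.1 + 1 = p then β * w * x i else 0)‖ :=
        (norm_sub_le _ _).trans (add_le_add_left ((norm_sub_le _ _).trans
          (add_le_add_left (norm_sub_le _ _) _)) _)
    _ ≤ 5 * ‖x‖ := by linarith

theorem yy_steps (p n M K s : ℕ) (hp : 2 ≤ p) (hn : 1 ≤ n) (h : K + s < M) :
    ‖yy p n M (K + s)‖ ≤ 5 ^ s * ‖yy p n M K‖ := by
  induction s with
  | zero => simp
  | succ s ih =>
    have hb : ‖(rt M)⁻¹ ^ (n - 1)‖ = 1 := by rw [norm_pow, norm_inv, rt_norm, inv_one, one_pow]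
    have hw : ‖rt M ^ (K + s + 1)‖ = 1 := by rw [norm_pow, rt_norm, one_pow]
    have e := yy_succ p n M (K + s) hp hn (by omega)
    have e1 : K + (s + 1) = K + s + 1 := by ring
    rw [e1, e]
    calc _ ≤ 5 * ‖yy p n M (K + s)‖ := tri_norm_le p _ _ hb hw _
      _ ≤ 5 * (5 ^ s * ‖yy p n M K‖) := by
        apply mul_le_mul_of_nonneg_left (ih (by omega)) (by norm_num)
      _ = _ := by ring

/-- the limit operators -/
noncomputable def AA (p : ℕ) (t : ℝ) : (Fin p → ℂ) →L[ℂ] (Fin p → ℂ) :=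
  tri p 1 (Complex.exp (t * Complex.I))

theorem AA_continuous (p : ℕ) : Continuous (AA p) := by
  unfold AA
  have h : Continuous (fun t : ℝ => ((1 : ℂ), Complex.exp (t * Complex.I))) := by fun_prop
  have h2 := (tri_continuous p).comp_continuous h (fun t => Complex.exp_ne_zero _)
  exact h2

theorem exp_inv_add (t : ℝ) : (Complex.exp (t * Complex.I))⁻¹ + Complex.exp (t * Complex.I)
    = 2 * (Real.cos t : ℂ) := by
  rw [← Complex.exp_neg, Complex.ofReal_cos, Complex.two_cos]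
  rw [add_comm]
  congr 2
  ring

theorem AA_close (p n : ℕ) (η : ℝ) (hη : 0 < η) : ∃ M0 : ℕ, ∀ M ≥ M0, ∀ j : ℕ,
    ‖tri p ((rt M)⁻¹ ^ (n - 1)) (rt M ^ j) - AA p (j * (2 * π / M))‖ ≤ η := by
  have h1 : Tendsto (fun M : ℕ => (rt M)⁻¹ ^ (n - 1)) atTop (𝓝 1) := by
    have h2 : Tendsto (fun M : ℕ => rt M) atTop (𝓝 1) := by
      unfold rt
      have h3 : Tendsto (fun M : ℕ => (2 * π * Complex.I / M : ℂ)) atTop (𝓝 0) := by
        exact tendsto_const_div_atTop_nhds_zero_nat _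
      have := (Complex.continuous_exp.tendsto 0).comp h3
      rwa [Complex.exp_zero] at this
    have h4 := (h2.inv₀ one_ne_zero).pow (n - 1)
    simpa using h4
  rw [Metric.tendsto_atTop] at h1
  obtain ⟨M0, hM0⟩ := h1 (η / 3) (by positivity)
  refine ⟨M0, fun M hM j => ?_⟩
  have h5 := hM0 M hM
  rw [dist_eq_norm] at h5
  have hw : ‖rt M ^ j‖ = 1 := by rw [norm_pow, rt_norm, one_pow]
  have e : AA p (j * (2 * π / M)) = tri p 1 (rt M ^ j) := by
    unfold AA
    rw [rt_pow]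
    congr 3
    push_cast
    ring
  rw [e]
  refine (tri_sub_norm p _ _ hw).trans ?_
  linarith

end Pool.Agent.H63.VC
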