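import Pool.Agent.H63.VC.Strips

/-! # Comparison of `|z - 2 cos t|` with `2 - 2 cos t` and the crossing points -/

namespace Pool.Agent.H63.VC

open Real Set

/-- `g < 0` iff `2 - 2 cos t < |z - 2 cos t|`. -/
noncomputable def gg (p : ℕ) (c d : ℝ) : ℝ :=
  (Real.cosh (2 * p * c) - Real.cos (2 * p * d)) - (Real.cosh c + Real.cos d)

/-- Addition formula `cosh (a + b) + cosh (a - b) = 2 cosh a cosh b`. -/
theorem cross_cosh_add_sub (a b : ℂ) :
    Complex.cosh (a + b) + Complex.cosh (a - b) = 2 * Complex.cosh a * Complex.cosh b := by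
  rw [Complex.cosh_add, Complex.cosh_sub]; ring

/-- Addition formula `cosh (a + b) - cosh (a - b) = 2 sinh a sinh b`. -/
theorem cross_cosh_add_sub' (a b : ℂ) :
    Complex.cosh (a + b) - Complex.cosh (a - b) = 2 * Complex.sinh a * Complex.sinh b := by
  rw [Complex.cosh_add, Complex.cosh_sub]; ring

/-- `V_m (2 cosh ξ) cosh (ξ/2) = cosh ((m + 1/2) ξ)`. -/
theorem cross_chV (ξ : ℂ) : ∀ m : ℕ, chV m (2 * Complex.cosh ξ) * Complex.cosh (ξ / 2)
    = Complex.cosh ((m + 1 / 2) * ξ)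
  | 0 => by
      simp only [chV, one_mul, Nat.cast_zero, zero_add]
      congr 1; ring
  | 1 => by
      have h1 := cross_cosh_add_sub ξ (ξ / 2)
      have e1 : ξ - ξ / 2 = ξ / 2 := by ring
      have e2 : ((1 : ℕ) + 1 / 2 : ℂ) * ξ = ξ + ξ / 2 := by push_cast; ring
      rw [e1] at h1
      rw [e2]
      simp only [chV]
      linear_combination (-1 : ℂ) * h1
  | m + 2 => by
      have i1 := cross_chV ξ (m + 1)
      have i2 := cross_chV ξ m
      have h1 := cross_cosh_add_sub (((m + 1 : ℕ) + 1 / 2) * ξ) ξ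
      have e1 : (((m + 1 : ℕ) : ℂ) + 1 / 2) * ξ - ξ = ((m : ℂ) + 1 / 2) * ξ := by push_cast; ring
      have e2 : (((m + 1 : ℕ) : ℂ) + 1 / 2) * ξ + ξ = (((m + 2 : ℕ) : ℂ) + 1 / 2) * ξ := by
        push_cast; ring
      rw [e1, e2] at h1
      simp only [chV]
      linear_combination (2 * Complex.cosh ξ) * i1 - i2 - h1

/-- `|cosh (a + ib)|^2`. -/
theorem cross_norm_cosh (a b : ℝ) : ‖Complex.cosh (a + b * Complex.I)‖ ^ 2
    = (Real.cosh (2 * a) + Real.cos (2 * b)) / 2 := by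
  have h : Complex.cosh (a + b * Complex.I)
      = ((Real.cosh a * Real.cos b : ℝ) : ℂ) + ((Real.sinh a * Real.sin b : ℝ) : ℂ) * Complex.I := by
    rw [Complex.cosh_add, Complex.cosh_mul_I, Complex.sinh_mul_I]
    push_cast; ring
  rw [← Complex.normSq_eq_norm_sq, h, Complex.normSq_add_mul_I, Real.cosh_two_mul, Real.cos_two_mul]
  have h1 := Real.cosh_sq a
  have h2 := Real.sin_sq_add_cos_sq b
  have h3 : Real.sin b ^ 2 = 1 - Real.cos b ^ 2 := by linarith only [h2]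
  rw [mul_pow, mul_pow, h3, h1]
  ring

/-- `|sinh (a + ib)|^2`. -/
theorem cross_norm_sinh (a b : ℝ) : ‖Complex.sinh (a + b * Complex.I)‖ ^ 2
    = (Real.cosh (2 * a) - Real.cos (2 * b)) / 2 := by
  have h : Complex.sinh (a + b * Complex.I)
      = ((Real.sinh a * Real.cos b : ℝ) : ℂ) + ((Real.cosh a * Real.sin b : ℝ) : ℂ) * Complex.I := by
    rw [Complex.sinh_add, Complex.cosh_mul_I, Complex.sinh_mul_I]
    push_cast; ring
  rw [← Complex.normSq_eq_norm_sq, h, Complex.normSq_add_mul_I, Real.cosh_two_mul, Real.cos_two_mul]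
  have h1 := Real.cosh_sq a
  have h2 := Real.sin_sq_add_cos_sq b
  have h3 : Real.sin b ^ 2 = 1 - Real.cos b ^ 2 := by linarith only [h2]
  rw [mul_pow, mul_pow, h3, h1]
  ring

/-- `V_p^2 + V_{p-1}^2 - z V_p V_{p-1} = 2 - z`. -/
theorem cross_invariant (z : ℂ) : ∀ m : ℕ,
    chV (m + 1) z ^ 2 + chV m z ^ 2 - z * chV (m + 1) z * chV m z = 2 - z
  | 0 => by simp only [chV]; ring
  | m + 1 => by
      have h := cross_invariant z m
      have e : chV (m + 1 + 1) z = z * chV (m + 1) z - chV m z := rfl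
      rw [e]
      linear_combination h

theorem cross_cos_gt (d : ℝ) (hd : 0 < d) (hd' : d < π) : -1 < Real.cos d := by
  have h := Real.cos_lt_cos_of_nonneg_of_le_pi hd.le le_rfl hd'
  rwa [Real.cos_pi] at h

theorem cross_cos_lt (d : ℝ) (hd : 0 < d) (hd' : d < π) : Real.cos d < 1 := by
  have h := Real.cos_lt_cos_of_nonneg_of_le_pi le_rfl hd'.le hd
  rwa [Real.cos_zero] at h

/-- Formulas for `2 - 2 cos t` and `|z - 2 cos t|` at a root. -/
theorem root_formulas (p : ℕ) (hp : 1 ≤ p) (t c d : ℝ) (hd : 0 < d) (hd' : d < π)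
    (h : chV p (zz c d) = Complex.exp (t * Complex.I) * chV (p - 1) (zz c d))
    (hne : chV (p - 1) (zz c d) ≠ 0) :
    ∃ W : ℝ, 0 < W ∧
      (2 - 2 * Real.cos t) * W
        = 2 * (Real.cosh (2 * p * c) - Real.cos (2 * p * d)) * (Real.cosh c - Real.cos d) ∧
      ‖zz c d - 2 * (Real.cos t : ℂ)‖ * W
        = 2 * (Real.cosh c - Real.cos d) * (Real.cosh c + Real.cos d) := by
  obtain ⟨q, rfl⟩ : ∃ q, p = q + 1 := ⟨p - 1, by omega⟩
  simp only [Nat.add_sub_cancel] at h hne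
  set z := zz c d with hz
  set ξ : ℂ := c + d * Complex.I with hξ
  have hzξ : z = 2 * Complex.cosh ξ := rfl
  set w : ℂ := Complex.exp (t * Complex.I) with hw
  set V : ℂ := chV q z with hV
  have hQ1 : 1 ≤ Real.cosh c := Real.one_le_cosh c
  have hc1 := cross_cos_gt d hd hd'
  -- the half angle
  have hhalf : ξ / 2 = ((c / 2 : ℝ) : ℂ) + ((d / 2 : ℝ) : ℂ) * Complex.I := by
    rw [hξ]; push_cast; ring
  have hK : ‖Complex.cosh (ξ / 2)‖ ^ 2 = (Real.cosh c + Real.cos d) / 2 := by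
    rw [hhalf, cross_norm_cosh]
    congr 3 <;> ring
  have hS : ‖Complex.sinh (ξ / 2)‖ ^ 2 = (Real.cosh c - Real.cos d) / 2 := by
    rw [hhalf, cross_norm_sinh]
    congr 3 <;> ring
  have hKpos : 0 < ‖Complex.cosh (ξ / 2)‖ ^ 2 := by rw [hK]; linarith only [hc1, hQ1]
  have h1 : V * Complex.cosh (ξ / 2) = Complex.cosh (((q : ℂ) + 1 / 2) * ξ) := by
    rw [hV, hzξ]; exact cross_chV ξ q
  have h2 : chV (q + 1) z * Complex.cosh (ξ / 2)
      = Complex.cosh ((((q + 1 : ℕ) : ℂ) + 1 / 2) * ξ) := by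
    rw [hzξ]; exact cross_chV ξ (q + 1)
  -- W
  set W : ℝ := 2 * (‖V‖ ^ 2 * ‖Complex.cosh (ξ / 2)‖ ^ 2) with hWdef
  have hVpos : 0 < ‖V‖ ^ 2 := by positivity
  have hWpos : 0 < W := by positivity
  refine ⟨W, hWpos, ?_, ?_⟩
  · -- |1 - w|^2
    have hw1 : ‖w - 1‖ ^ 2 = 2 - 2 * Real.cos t := by
      rw [← Complex.normSq_eq_norm_sq, hw, Complex.exp_mul_I, Complex.normSq_apply]
      simp only [Complex.sub_re, Complex.add_re, Complex.mul_re, Complex.I_re, Complex.I_im,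
        Complex.one_re, Complex.sub_im, Complex.add_im, Complex.mul_im, Complex.one_im,
        Complex.cos_ofReal_re, Complex.cos_ofReal_im, Complex.sin_ofReal_re, Complex.sin_ofReal_im]
      have := Real.sin_sq_add_cos_sq t
      linarith only [this]
    have h3 : (w - 1) * (V * Complex.cosh (ξ / 2))
        = 2 * Complex.sinh ((q + 1 : ℕ) * ξ) * Complex.sinh (ξ / 2) := by
      have h4 := cross_cosh_add_sub' ((q + 1 : ℕ) * ξ) (ξ / 2)
      have e1 : ((q + 1 : ℕ) : ℂ) * ξ + ξ / 2 = (((q + 1 : ℕ) : ℂ) + 1 / 2) * ξ := by ring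
      have e2 : ((q + 1 : ℕ) : ℂ) * ξ - ξ / 2 = ((q : ℂ) + 1 / 2) * ξ := by push_cast; ring
      rw [e1, e2, ← h1, ← h2] at h4
      rw [h] at h4
      linear_combination h4
    have h5 : ‖w - 1‖ ^ 2 * (‖V‖ ^ 2 * ‖Complex.cosh (ξ / 2)‖ ^ 2)
        = 4 * ‖Complex.sinh ((q + 1 : ℕ) * ξ)‖ ^ 2 * ‖Complex.sinh (ξ / 2)‖ ^ 2 := by
      have := congrArg (fun x => ‖x‖ ^ 2) h3
      simp only [norm_mul, mul_pow] at this
      rw [this]
      norm_num
    have h6 : ‖Complex.sinh ((q + 1 : ℕ) * ξ)‖ ^ 2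
        = (Real.cosh (2 * (q + 1 : ℕ) * c) - Real.cos (2 * (q + 1 : ℕ) * d)) / 2 := by
      have e : ((q + 1 : ℕ) : ℂ) * ξ = (((q + 1 : ℕ) * c : ℝ) : ℂ)
          + (((q + 1 : ℕ) * d : ℝ) : ℂ) * Complex.I := by
        rw [hξ]; push_cast; ring
      rw [e, cross_norm_sinh]
      congr 3 <;> ring
    rw [hw1, h6, hS] at h5
    rw [hWdef]
    linarith only [h5]
  · have hwn : ‖w‖ = 1 := by rw [hw]; exact Complex.norm_exp_ofReal_mul_I t
    have hwc : w ^ 2 + 1 = 2 * (Real.cos t : ℂ) * w := by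
      have e1 : w * Complex.exp (-(t * Complex.I)) = 1 := by
        rw [hw, ← Complex.exp_add]; simp
      have e2 : 2 * (Real.cos t : ℂ) = w + Complex.exp (-(t * Complex.I)) := by
        rw [Complex.ofReal_cos, Complex.two_cos]
        rw [hw]
        congr 2
        ring
      rw [e2]
      linear_combination (-1 : ℂ) * e1
    have hinv := cross_invariant z q
    rw [h] at hinv
    have h7 : w * (z - 2 * (Real.cos t : ℂ)) * V ^ 2 = z - 2 := by
      linear_combination (-1 : ℂ) * hinv + V ^ 2 * hwc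
    have h8 : z - 2 = 4 * Complex.sinh (ξ / 2) ^ 2 := by
      rw [hzξ]
      have e : Complex.cosh ξ = Complex.cosh (2 * (ξ / 2)) := by congr 1; ring
      rw [e, Complex.cosh_two_mul, Complex.cosh_sq]; ring
    rw [h8] at h7
    have h9 : ‖z - 2 * (Real.cos t : ℂ)‖ * ‖V‖ ^ 2 = 4 * ‖Complex.sinh (ξ / 2)‖ ^ 2 := by
      have := congrArg (fun x => ‖x‖) h7
      simp only [norm_mul, norm_pow, hwn, one_mul] at this
      rw [this]
      norm_num
    rw [hWdef]
    calc ‖z - 2 * (Real.cos t : ℂ)‖ * (2 * (‖V‖ ^ 2 * ‖Complex.cosh (ξ / 2)‖ ^ 2))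
        = 2 * (‖z - 2 * (Real.cos t : ℂ)‖ * ‖V‖ ^ 2) * ‖Complex.cosh (ξ / 2)‖ ^ 2 := by ring
      _ = _ := by rw [h9, hK, hS]; ring

/-- The sign of `gg` compares `‖z - 2 cos t‖` with `2 - 2 cos t`. -/
theorem gg_nonneg_iff (p : ℕ) (hp : 1 ≤ p) (t c d : ℝ) (hd : 0 < d) (hd' : d < π)
    (h : chV p (zz c d) = Complex.exp (t * Complex.I) * chV (p - 1) (zz c d))
    (hne : chV (p - 1) (zz c d) ≠ 0) :
    (0 ≤ gg p c d ↔ ‖zz c d - 2 * (Real.cos t : ℂ)‖ ≤ 2 - 2 * Real.cos t) ∧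
    (gg p c d = 0 ↔ ‖zz c d - 2 * (Real.cos t : ℂ)‖ = 2 - 2 * Real.cos t) := by
  obtain ⟨W, hW, h1, h2⟩ := root_formulas p hp t c d hd hd' h hne
  have hQ1 : 1 ≤ Real.cosh c := Real.one_le_cosh c
  have hc1 := cross_cos_lt d hd hd'
  have hX : 0 < Real.cosh c - Real.cos d := by linarith only [hc1, hQ1]
  set A := Real.cosh (2 * p * c) - Real.cos (2 * p * d) with hA
  set B := Real.cosh c + Real.cos d with hB
  set X := Real.cosh c - Real.cos d with hXd
  set N := ‖zz c d - 2 * (Real.cos t : ℂ)‖ with hN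
  set T := 2 - 2 * Real.cos t with hT
  have hg : gg p c d = A - B := rfl
  have hkey : (T - N) * W = 2 * X * (A - B) := by
    linear_combination h1 - h2
  rw [hg]
  constructor
  · constructor
    · intro h0
      by_contra hlt
      push Not at hlt
      have : (T - N) * W < 0 := mul_neg_of_neg_of_pos (by linarith only [hlt]) hW
      have h3 : 0 ≤ 2 * X * (A - B) := by positivity
      linarith only [h3, this, h1, h2]
    · intro h0
      by_contra hlt
      push Not at hlt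
      have h3 : 2 * X * (A - B) < 0 := mul_neg_of_pos_of_neg (by positivity) hlt
      have : 0 ≤ (T - N) * W := mul_nonneg (by linarith only [h0]) hW.le
      linarith only [this, h3, h1, h2]
  · constructor
    · intro h0
      rw [h0, mul_zero] at hkey
      have := (mul_eq_zero.mp hkey).resolve_right hW.ne'
      linarith only [this]
    · intro h0
      rw [h0, sub_self, zero_mul] at hkey
      have := (mul_eq_zero.mp hkey.symm).resolve_left (by positivity)
      exact this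

/-- Real and imaginary parts of `zz`. -/
theorem cross_zz_parts (c d : ℝ) : (zz c d).re = 2 * Real.cosh c * Real.cos d ∧
    (zz c d).im = 2 * Real.sinh c * Real.sin d := by
  have h : zz c d = ((2 * Real.cosh c * Real.cos d : ℝ) : ℂ)
      + ((2 * Real.sinh c * Real.sin d : ℝ) : ℂ) * Complex.I := by
    unfold zz
    rw [Complex.cosh_add, Complex.cosh_mul_I, Complex.sinh_mul_I]
    push_cast; ring
  rw [h]
  constructor
  · simp only [Complex.add_re, Complex.mul_re, Complex.ofReal_re, Complex.ofReal_im, Complex.I_re,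
      Complex.I_im]
    ring
  · simp only [Complex.add_im, Complex.mul_im, Complex.ofReal_re, Complex.ofReal_im, Complex.I_re,
      Complex.I_im]
    ring

/-- Squared distance. -/
theorem dist_sq (c d C : ℝ) : ‖zz c d - 2 * (C : ℂ)‖ ^ 2
    = 4 * (Real.cos d ^ 2 + Real.sinh c ^ 2 + C ^ 2 - 2 * Real.cosh c * Real.cos d * C) := by
  obtain ⟨h1, h2⟩ := cross_zz_parts c d
  rw [← Complex.normSq_eq_norm_sq, Complex.normSq_apply]
  simp only [Complex.sub_re, Complex.sub_im, Complex.mul_re, Complex.mul_im, Complex.ofReal_re,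
    Complex.ofReal_im, Complex.re_ofNat, Complex.im_ofNat, h1, h2]
  have h3 := Real.cosh_sq c
  have h4 : Real.sin d ^ 2 = 1 - Real.cos d ^ 2 := by
    have := Real.sin_sq_add_cos_sq d; linarith only [this]
  linear_combination (4 * Real.cos d ^ 2) * h3 + (4 * Real.sinh c ^ 2) * h4

/-- At a crossing. -/
theorem cross_eq (p : ℕ) (c d : ℝ)
    (h : Real.sinh (2 * p * c) * Real.sinh c = Real.sin (2 * p * d) * Real.sin d)
    (hg : gg p c d = 0) :
    Real.cosh (2 * p * c) * Real.cosh c - Real.cos (2 * p * d) * Real.cos d = 2 := by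
  unfold gg at hg
  have hP1 : 1 ≤ Real.cosh (2 * p * c) := Real.one_le_cosh _
  have hQ1 : 1 ≤ Real.cosh c := Real.one_le_cosh c
  have hP := Real.cosh_sq (2 * p * c)
  have hQ := Real.cosh_sq c
  have hu := Real.sin_sq_add_cos_sq (2 * p * d)
  have hv := Real.sin_sq_add_cos_sq d
  have hu1 := Real.cos_le_one (2 * p * d)
  have hu2 := Real.neg_one_le_cos (2 * p * d)
  have hv1 := Real.cos_le_one d
  have hv2 := Real.neg_one_le_cos d
  set P := Real.cosh (2 * p * c)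
  set Q := Real.cosh c
  set u := Real.cos (2 * p * d)
  set v := Real.cos d
  have h2 : (Real.sinh (2 * p * c) * Real.sinh c) ^ 2 = (Real.sin (2 * p * d) * Real.sin d) ^ 2 := by
    rw [h]
  rw [mul_pow, mul_pow] at h2
  have e1 : Real.sinh (2 * p * c) ^ 2 = P ^ 2 - 1 := by linarith only [hP]
  have e2 : Real.sinh c ^ 2 = Q ^ 2 - 1 := by linarith only [hQ]
  have e3 : Real.sin (2 * p * d) ^ 2 = 1 - u ^ 2 := by linarith only [hu]
  have e4 : Real.sin d ^ 2 = 1 - v ^ 2 := by linarith only [hv]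
  rw [e1, e2, e3, e4] at h2
  have h3 : (P * Q - 1) ^ 2 = (1 + u * v) ^ 2 := by
    have h4 : (P - Q) ^ 2 = (u + v) ^ 2 := by
      have : P - Q = u + v := by linarith only [hg]
      rw [this]
    linear_combination h2 + h4
  have h5 : 0 ≤ P * Q - 1 := by (refine le_of_not_gt fun hng => ?_; linarith only [hng, hP,
                                  sq_nonneg (sinh (2 * ↑p * c)),
                                  mul_nonneg (sub_nonneg.2 hP1) (sub_nonneg.2 hP1),
                                  mul_nonneg (sub_nonneg.2 hng.le) (sub_nonneg.2 hP1),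
                                  mul_nonneg (sq_nonneg (P)) (sub_nonneg.2 hQ1)])
  have h6 : 0 ≤ 1 + u * v := by linarith only [hu, sq_nonneg (sin (2 * ↑p * d)),
                                  sq_nonneg (1 + u * v),
                                  mul_nonneg (sq_nonneg (u)) (sub_nonneg.2 hv.le),
                                  mul_nonneg (sq_nonneg (u)) (sub_nonneg.2 hv.ge),
                                  mul_nonneg (sq_nonneg (u)) (sq_nonneg (sin d))]
  have h7 : P * Q - 1 = 1 + u * v := by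
    have := abs_eq_abs.mpr (sq_eq_sq_iff_eq_or_eq_neg.mp h3)
    rwa [abs_of_nonneg h5, abs_of_nonneg h6] at this
  linarith only [h7]

/-- `cosh (2pc) - cosh c` is strictly increasing on `c ≥ 0`. -/
theorem cross_mono (p : ℕ) (hp : 1 ≤ p) {a b : ℝ} (ha : 0 ≤ a) (hab : a < b) :
    Real.cosh (2 * p * a) - Real.cosh a < Real.cosh (2 * p * b) - Real.cosh b := by
  have hp' : (1 : ℝ) ≤ p := by exact_mod_cast hp
  have key : ∀ x : ℝ, Real.cosh (2 * p * x) - Real.cosh x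
      = 2 * (Real.sinh ((p + 1 / 2) * x) * Real.sinh ((p - 1 / 2) * x)) := by
    intro x
    have e1 : 2 * p * x = (p + 1 / 2) * x + (p - 1 / 2) * x := by ring
    have e2 : Real.cosh x = Real.cosh ((p + 1 / 2) * x - (p - 1 / 2) * x) := by congr 1; ring
    rw [e1, e2, Real.cosh_add, Real.cosh_sub]; ring
  rw [key, key]
  have h1 : Real.sinh ((p + 1 / 2) * a) < Real.sinh ((p + 1 / 2) * b) := by
    apply Real.sinh_lt_sinh.mpr
    have : (0 : ℝ) < p + 1 / 2 := by linarith only []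
    exact mul_lt_mul_of_pos_left hab this
  have h2 : Real.sinh ((p - 1 / 2) * a) < Real.sinh ((p - 1 / 2) * b) := by
    apply Real.sinh_lt_sinh.mpr
    have : (0 : ℝ) < p - 1 / 2 := by linarith only [hp']
    exact mul_lt_mul_of_pos_left hab this
  have h3 : 0 ≤ Real.sinh ((p + 1 / 2) * a) := Real.sinh_nonneg_iff.mpr (by
    have : (0 : ℝ) < p + 1 / 2 := by linarith only []
    positivity)
  have h4 : 0 ≤ Real.sinh ((p - 1 / 2) * a) := Real.sinh_nonneg_iff.mpr (by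
    have : (0 : ℝ) < p - 1 / 2 := by linarith only [hp']
    positivity)
  have := mul_lt_mul'' h1 h2 h3 h4
  linarith only [this]

theorem cross_cosh_lt {a b : ℝ} (ha : 0 ≤ a) (hab : a < b) : Real.cosh a < Real.cosh b := by
  rw [Real.cosh_lt_cosh, abs_of_nonneg ha, abs_of_nonneg (ha.trans hab.le)]
  exact hab

/-- the `cos (2pd)` are decreasing on the last strip -/
theorem cross_cos_strip (p : ℕ) (hp : 1 ≤ p) {d₁ d₂ : ℝ} (h1 : π - π / p < d₁)
    (h2 : d₂ < π - π / (2 * p)) (h : d₁ < d₂) :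
    Real.cos (2 * p * d₂) < Real.cos (2 * p * d₁) := by
  have hp' : (1 : ℝ) ≤ p := by exact_mod_cast hp
  have hp0 : (0 : ℝ) < p := by linarith only [hp']
  -- shift by `2 π (p - 1)`: the angle lies in `(0, π)`
  have key : ∀ x : ℝ, Real.cos (2 * p * x) = Real.cos (2 * p * x - (p - 1 : ℤ) * (2 * π)) := by
    intro x
    rw [Real.cos_sub_int_mul_two_pi]
  rw [key d₁, key d₂]
  apply Real.cos_lt_cos_of_nonneg_of_le_pi
  · have : 2 * p * (π - π / p) = 2 * p * π - 2 * π := by field_simp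
    have h3 : 2 * p * (π - π / p) < 2 * p * d₁ := mul_lt_mul_of_pos_left h1 (by positivity)
    push_cast
    linarith only [h3, this]
  · have : 2 * p * (π - π / (2 * p)) = 2 * p * π - π := by field_simp
    have h3 : 2 * p * d₂ < 2 * p * (π - π / (2 * p)) := mul_lt_mul_of_pos_left h2 (by positivity)
    push_cast
    linarith only [h3, this]
  · have h3 : 2 * p * d₁ < 2 * p * d₂ := mul_lt_mul_of_pos_left h (by positivity)
    linarith only [h3]

theorem cross_unique_aux (p : ℕ) (hp : 1 ≤ p) (c₁ d₁ c₂ d₂ : ℝ) (hc₁ : 0 < c₁) (hc₂ : 0 < c₂)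
    (h₁ : Real.sinh (2 * p * c₁) * Real.sinh c₁ = Real.sin (2 * p * d₁) * Real.sin d₁)
    (h₂ : Real.sinh (2 * p * c₂) * Real.sinh c₂ = Real.sin (2 * p * d₂) * Real.sin d₂)
    (hd₁ : π - π / p < d₁) (hd₂' : d₂ < π - π / (2 * p))
    (hg₁ : gg p c₁ d₁ = 0) (hg₂ : gg p c₂ d₂ = 0) (hlt : d₁ < d₂) : False := by
  have hp' : (1 : ℝ) ≤ p := by exact_mod_cast hp
  have hp0 : (0 : ℝ) < p := by linarith only [hp']
  have hpi := Real.pi_pos
  have hu := cross_cos_strip p hp hd₁ hd₂' hlt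
  have hd0 : 0 ≤ d₁ := by
    have : π / p ≤ π := div_le_self hpi.le hp'
    linarith only [this, hd₁]
  have hdpi : d₂ ≤ π := by
    have : 0 < π / (2 * p) := by positivity
    linarith only [this, hd₂']
  have hv : Real.cos d₂ < Real.cos d₁ := Real.cos_lt_cos_of_nonneg_of_le_pi hd0 hdpi hlt
  have e₁ := cross_eq p c₁ d₁ h₁ hg₁
  have e₂ := cross_eq p c₂ d₂ h₂ hg₂
  unfold gg at hg₁ hg₂
  have hc : c₂ < c₁ := by
    by_contra hcon
    push Not at hcon
    rcases hcon.lt_or_eq with h | h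
    · have := cross_mono p hp hc₁.le h
      linarith only [this, hv, hu, hg₂, hg₁]
    · rw [h] at hg₁
      linarith only [hv, hu, hg₂, hg₁]
  have hQ : Real.cosh c₂ < Real.cosh c₁ := cross_cosh_lt hc₂.le hc
  have hQ1 : 1 < Real.cosh c₂ := Real.one_lt_cosh.mpr hc₂.ne'
  have a1 := Real.cos_le_one (2 * p * d₁)
  have a2 := Real.neg_one_le_cos (2 * p * d₁)
  have a3 := Real.cos_le_one (2 * p * d₂)
  have a4 := Real.neg_one_le_cos (2 * p * d₂)
  have b1 := Real.cos_le_one d₁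
  have b2 := Real.neg_one_le_cos d₁
  have b3 := Real.cos_le_one d₂
  have b4 := Real.neg_one_le_cos d₂
  set P₁ := Real.cosh (2 * p * c₁)
  set P₂ := Real.cosh (2 * p * c₂)
  set Q₁ := Real.cosh c₁
  set Q₂ := Real.cosh c₂
  set u₁ := Real.cos (2 * p * d₁)
  set u₂ := Real.cos (2 * p * d₂)
  set v₁ := Real.cos d₁
  set v₂ := Real.cos d₂
  -- `P = Q + u + v`, `2 = PQ - uv`
  have p1 : P₁ = Q₁ + u₁ + v₁ := by linarith only [hg₁]
  have p2 : P₂ = Q₂ + u₂ + v₂ := by linarith only [hg₂]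
  rw [p1] at e₁
  rw [p2] at e₂
  have f1 : 0 < (Q₁ - Q₂) * (Q₁ + Q₂ + u₁ + v₁) := mul_pos (by linarith only [hQ]) (by linarith only [b2,
                                                                                         a2, hQ,
                                                                                         hQ1])
  have f2 : 0 < (u₁ - u₂) * (Q₂ - v₁) := mul_pos (by linarith only [hu]) (by linarith only [b1, hQ1])
  have f3 : 0 < (v₁ - v₂) * (Q₂ - u₂) := mul_pos (by linarith only [hv]) (by linarith only [a3, hQ1])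
  linarith only [f3, f2, f1, e₂, e₁]

/-- Uniqueness of the crossing in the last strip. -/
theorem cross_unique (p : ℕ) (hp : 1 ≤ p) (c₁ d₁ c₂ d₂ : ℝ) (hc₁ : 0 < c₁) (hc₂ : 0 < c₂)
    (h₁ : Real.sinh (2 * p * c₁) * Real.sinh c₁ = Real.sin (2 * p * d₁) * Real.sin d₁)
    (h₂ : Real.sinh (2 * p * c₂) * Real.sinh c₂ = Real.sin (2 * p * d₂) * Real.sin d₂)
    (hd₁ : π - π / p < d₁) (hd₁' : d₁ < π - π / (2 * p))
    (hd₂ : π - π / p < d₂) (hd₂' : d₂ < π - π / (2 * p))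
    (hg₁ : gg p c₁ d₁ = 0) (hg₂ : gg p c₂ d₂ = 0) : d₁ = d₂ ∧ c₁ = c₂ := by
  have hd : d₁ = d₂ := by
    rcases lt_trichotomy d₁ d₂ with h | h | h
    · exact (cross_unique_aux p hp c₁ d₁ c₂ d₂ hc₁ hc₂ h₁ h₂ hd₁ hd₂' hg₁ hg₂ h).elim
    · exact h
    · exact (cross_unique_aux p hp c₂ d₂ c₁ d₁ hc₂ hc₁ h₂ h₁ hd₂ hd₁' hg₂ hg₁ h).elim
  refine ⟨hd, ?_⟩
  unfold gg at hg₁ hg₂
  rw [hd] at hg₁
  rcases lt_trichotomy c₁ c₂ with h | h | h
  · have := cross_mono p hp hc₁.le h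
    linarith only [this, hg₂, hg₁, h]
  · exact h
  · have := cross_mono p hp hc₂.le h
    linarith only [h, this, hg₂, hg₁]

/-- Value of `cos t` at a crossing. -/
theorem cos_at_cross (c d C : ℝ) (hd : 0 < d) (hd' : d < π)
    (h : ‖zz c d - 2 * (C : ℂ)‖ = 2 - 2 * C) :
    2 * (1 - Real.cosh c * Real.cos d) * C = 2 - Real.cos d ^ 2 - Real.cosh c ^ 2 := by
  have h1 := dist_sq c d C
  rw [h] at h1
  have h2 := Real.cosh_sq c
  linarith only [h2, h1]

/-- `cosh (2pc) / cosh c` is strictly increasing on `c > 0`. -/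
theorem cross_ratio (p : ℕ) (hp : 1 ≤ p) {a b : ℝ} (ha : 0 < a) (hab : a < b) :
    Real.cosh (2 * p * a) * Real.cosh b < Real.cosh (2 * p * b) * Real.cosh a := by
  have hp' : (1 : ℝ) ≤ p := by exact_mod_cast hp
  have key : ∀ x y : ℝ, Real.cosh x * Real.cosh y = (Real.cosh (x + y) + Real.cosh (x - y)) / 2 := by
    intro x y
    rw [Real.cosh_add, Real.cosh_sub]; ring
  rw [key, key]
  have hb : 0 < b := ha.trans hab
  have h1 : Real.cosh (2 * p * a + b) < Real.cosh (2 * p * b + a) := by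
    apply cross_cosh_lt (by positivity)
    nlinarith
  have h2 : Real.cosh (2 * p * a - b) < Real.cosh (2 * p * b - a) := by
    rw [Real.cosh_lt_cosh]
    have h3 : 0 ≤ 2 * p * b - a := by nlinarith
    rw [abs_of_nonneg h3, abs_lt]
    constructor
    · nlinarith
    · nlinarith
  linarith only [h2, h1]

/-- Order of the crossings on the left side: smaller `d` crosses earlier (larger cosine). -/
theorem cross_order (p : ℕ) (hp : 1 ≤ p) (c₁ d₁ C₁ c₂ d₂ C₂ : ℝ) (hc₁ : 0 < c₁) (hc₂ : 0 < c₂)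
    (h₁ : Real.sinh (2 * p * c₁) * Real.sinh c₁ = Real.sin (2 * p * d₁) * Real.sin d₁)
    (h₂ : Real.sinh (2 * p * c₂) * Real.sinh c₂ = Real.sin (2 * p * d₂) * Real.sin d₂)
    (hd₂ : π / 2 ≤ d₂) (hd : d₂ < d₁) (hd₁ : d₁ < π)
    (hg₁ : gg p c₁ d₁ = 0) (hg₂ : gg p c₂ d₂ = 0)
    (hC₁ : ‖zz c₁ d₁ - 2 * (C₁ : ℂ)‖ = 2 - 2 * C₁) (hC₂ : ‖zz c₂ d₂ - 2 * (C₂ : ℂ)‖ = 2 - 2 * C₂) :
    C₁ < C₂ := by
  have hp' : (1 : ℝ) ≤ p := by exact_mod_cast hp
  have hpi := Real.pi_pos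
  have k₁ := cos_at_cross c₁ d₁ C₁ (by linarith only [hd₁, hd, hd₂]) hd₁ hC₁
  have k₂ := cos_at_cross c₂ d₂ C₂ (by linarith only [hd₁, hd, hd₂]) (by linarith only [hd₁, hd]) hC₂
  have e₁ := cross_eq p c₁ d₁ h₁ hg₁
  have e₂ := cross_eq p c₂ d₂ h₂ hg₂
  have hv : Real.cos d₁ < Real.cos d₂ :=
    Real.cos_lt_cos_of_nonneg_of_le_pi (by linarith only [hd₁, hd, hd₂]) hd₁.le hd
  have hv2 : Real.cos d₂ ≤ 0 := Real.cos_nonpos_of_pi_div_two_le_of_le hd₂ (by linarith only [hd₁,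
                                                                                 hd, hd₂])
  have hratio := fun h : c₁ < c₂ => cross_ratio p hp hc₁ h
  have s₁pos : 0 < Real.cosh (2 * p * c₁) - Real.cosh c₁ := by
    have := cross_mono p hp le_rfl hc₁
    simpa using this
  have s₂pos : 0 < Real.cosh (2 * p * c₂) - Real.cosh c₂ := by
    have := cross_mono p hp le_rfl hc₂
    simpa using this
  have hmono12 : c₁ < c₂ → Real.cosh (2 * p * c₁) - Real.cosh c₁
      < Real.cosh (2 * p * c₂) - Real.cosh c₂ := fun h => cross_mono p hp hc₁.le h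
  have hQle : c₂ ≤ c₁ → Real.cosh c₂ ≤ Real.cosh c₁ := by
    intro h
    rw [Real.cosh_le_cosh, abs_of_pos hc₁, abs_of_pos hc₂]
    exact h
  have hmono21 : c₂ ≤ c₁ → Real.cosh (2 * p * c₂) - Real.cosh c₂
      ≤ Real.cosh (2 * p * c₁) - Real.cosh c₁ := by
    intro h
    rcases h.lt_or_eq with h | h
    · exact (cross_mono p hp hc₂.le h).le
    · rw [h]
  have hQ1 : 1 ≤ Real.cosh c₁ := Real.one_le_cosh _
  have hQ2 : 1 ≤ Real.cosh c₂ := Real.one_le_cosh _
  unfold gg at hg₁ hg₂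
  set P₁ := Real.cosh (2 * p * c₁)
  set P₂ := Real.cosh (2 * p * c₂)
  set Q₁ := Real.cosh c₁
  set Q₂ := Real.cosh c₂
  set u₁ := Real.cos (2 * p * d₁)
  set u₂ := Real.cos (2 * p * d₂)
  set x₁ := Real.cos d₁
  set x₂ := Real.cos d₂
  obtain ⟨s₁, hs₁⟩ : ∃ s, s = P₁ - Q₁ := ⟨_, rfl⟩
  obtain ⟨s₂, hs₂⟩ : ∃ s, s = P₂ - Q₂ := ⟨_, rfl⟩
  obtain ⟨v₁, hv₁⟩ : ∃ v, v = -x₁ := ⟨_, rfl⟩
  obtain ⟨v₂, hv₂⟩ : ∃ v, v = -x₂ := ⟨_, rfl⟩
  have p1 : P₁ = Q₁ + s₁ := by linarith only [hs₁]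
  have p2 : P₂ = Q₂ + s₂ := by linarith only [hs₂]
  have u1 : u₁ = v₁ + s₁ := by linarith only [hv₁, hs₁, hg₁]
  have u2 : u₂ = v₂ + s₂ := by linarith only [hv₂, hs₂, hg₂]
  have y1 : x₁ = -v₁ := by linarith only [hv₁]
  have y2 : x₂ = -v₂ := by linarith only [hv₂]
  rw [← hs₁] at s₁pos
  rw [← hs₂] at s₂pos
  have v2nn : 0 ≤ v₂ := by linarith only [hv₂, hv2]
  have v21 : v₂ < v₁ := by linarith only [hv₂, hv₁, hv]
  have r₁ : Q₁ ^ 2 + Q₁ * s₁ + v₁ ^ 2 + v₁ * s₁ = 2 := by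
    rw [p1, u1, y1] at e₁; linarith only [e₁]
  have r₂ : Q₂ ^ 2 + Q₂ * s₂ + v₂ ^ 2 + v₂ * s₂ = 2 := by
    rw [p2, u2, y2] at e₂; linarith only [e₂]
  have hc : c₁ < c₂ := by
    by_contra hcon
    push Not at hcon
    have q1 := hQle hcon
    have q2 := hmono21 hcon
    rw [← hs₁, ← hs₂] at q2
    have g1 : Q₂ ^ 2 ≤ Q₁ ^ 2 := pow_le_pow_left₀ (by linarith only [hQ2]) q1 2
    have g2 : Q₂ * s₂ ≤ Q₁ * s₁ := mul_le_mul q1 q2 s₂pos.le (by linarith only [hQ1])
    have g3 : v₂ ^ 2 < v₁ ^ 2 := pow_lt_pow_left₀ v21 v2nn (by norm_num)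
    have g4 : v₂ * s₂ ≤ v₁ * s₁ := mul_le_mul v21.le q2 s₂pos.le (by linarith only [hv₁, hv, hv2])
    linarith only [g4, g3, g2, g1, r₂, r₁]
  have hs : s₁ < s₂ := by
    have := hmono12 hc
    rwa [← hs₁, ← hs₂] at this
  have hr := hratio hc
  rw [p1, p2] at hr
  have hr' : Q₂ * s₁ < Q₁ * s₂ := by linarith only [hr]
  have hcmp : (Q₂ + v₂) * s₁ < (Q₁ + v₁) * s₂ := by
    have : v₂ * s₁ ≤ v₁ * s₂ := mul_le_mul v21.le hs.le s₁pos.le (by linarith only [hv₁, hv, hv2])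
    linarith only [this, hr]
  -- C = s / (Q + v + s)
  have hC : ∀ Q v s x C : ℝ, 1 ≤ Q → 0 ≤ v → 0 < s → x = -v →
      Q ^ 2 + Q * s + v ^ 2 + v * s = 2 →
      2 * (1 - Q * x) * C = 2 - x ^ 2 - Q ^ 2 → C * (Q + v + s) = s := by
    intro Q v s x C hQ hv hs hx hrel hCC
    subst hx
    have : (Q + v) * (C * (Q + v + s) - s) = 0 := by
      have e : 2 * (1 - Q * -v) = (Q + v) * (Q + v + s) := by
        linear_combination (-1 : ℝ) * hrel
      rw [e] at hCC
      linear_combination hCC - hrel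
    rcases mul_eq_zero.mp this with h | h
    · linarith only [h, hv, hQ]
    · linarith only [h]
  have c1 := hC Q₁ v₁ s₁ x₁ C₁ hQ1 (by linarith only [hv₁, hv, hv2]) s₁pos y1 r₁ k₁
  have c2 := hC Q₂ v₂ s₂ x₂ C₂ hQ2 v2nn s₂pos y2 r₂ k₂
  have D1 : 0 < Q₁ + v₁ + s₁ := by linarith only [hv₁, s₁pos, hv, hv2, hQ1]
  have D2 : 0 < Q₂ + v₂ + s₂ := by linarith only [hv₂, s₂pos, hv2, hQ2]
  have E1 : C₁ = s₁ / (Q₁ + v₁ + s₁) := by
    rw [eq_div_iff D1.ne']; exact c1
  have E2 : C₂ = s₂ / (Q₂ + v₂ + s₂) := by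
    rw [eq_div_iff D2.ne']; exact c2
  rw [E1, E2, div_lt_div_iff₀ D1 D2]
  linarith only [hcmp]

end Pool.Agent.H63.VC
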