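import Pool.Agent.H63.VC.SWalg

/-! # Positivity of the Sakuma-Weeks shapes -/

namespace Pool.Agent.H63.VC

open Real Set

theorem SWpos_sinh (x y : ℝ) (hx : 0 < x) (hxy : x < y) :
    y * Real.sinh x < x * Real.sinh y := by
  have hconv : StrictConvexOn ℝ (Ici (0 : ℝ)) Real.sinh := by
    apply strictConvexOn_of_deriv2_pos (convex_Ici 0) Real.continuous_sinh.continuousOn
    intro u hu
    rw [interior_Ici] at hu
    have h1 : deriv^[2] Real.sinh u = Real.sinh u := by
      simp [Real.deriv_sinh, Real.deriv_cosh]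
    rw [h1]
    exact Real.sinh_pos_iff.2 hu
  have hy : 0 < y := hx.trans hxy
  have h := hconv.2 (show (0 : ℝ) ∈ Ici (0 : ℝ) from Set.mem_Ici.2 le_rfl) (show y ∈ Ici (0 : ℝ) from hy.le)
    hy.ne (show 0 < 1 - x / y by rw [sub_pos, div_lt_one hy]; exact hxy)
    (show 0 < x / y from div_pos hx hy) (by ring)
  simp only [smul_eq_mul, mul_zero, zero_add, Real.sinh_zero] at h
  rw [div_mul_cancel₀ x hy.ne'] at h
  have h2 := mul_lt_mul_of_pos_left h hy
  calc y * Real.sinh x < y * (x / y * Real.sinh y) := h2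
    _ = x * Real.sinh y := by field_simp

theorem SWpos_sin (x y : ℝ) (hx : 0 < x) (hxy : x < y) (hy : y ≤ π) :
    x * Real.sin y < y * Real.sin x := by
  have hy0 : 0 < y := hx.trans hxy
  have h := strictConcaveOn_sin_Icc.2 (show (0 : ℝ) ∈ Icc (0 : ℝ) π from ⟨le_rfl, pi_pos.le⟩)
    (show y ∈ Icc (0 : ℝ) π from ⟨hy0.le, hy⟩)
    hy0.ne (show 0 < 1 - x / y by rw [sub_pos, div_lt_one hy0]; exact hxy)
    (show 0 < x / y from div_pos hx hy0) (by ring)
  simp only [smul_eq_mul, mul_zero, zero_add, Real.sin_zero] at h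
  rw [div_mul_cancel₀ x hy0.ne'] at h
  have h2 := mul_lt_mul_of_pos_left h hy0
  calc x * Real.sin y = y * (x / y * Real.sin y) := by field_simp
    _ < y * Real.sin x := h2

/-- `Im (sinh (l σ) conj (sinh (k σ))) < 0`, `σ = a - i b`. -/
theorem SWpos_im (a b : ℝ) (ha : 0 < a) (p : ℕ) (hb : 0 < b) (hb2 : 2 * p * b < π)
    (k l : ℕ) (hk : 1 ≤ k) (hkl : k < l) (hl : l ≤ 2 * p) :
    (Real.sinh (l * a) * Real.cos (l * b)) * (Real.cosh (k * a) * Real.sin (k * b)) -
      (Real.cosh (l * a) * Real.sin (l * b)) * (Real.sinh (k * a) * Real.cos (k * b)) < 0 := by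
  have hkR : (1 : ℝ) ≤ k := by exact_mod_cast hk
  have hklR : (k : ℝ) < l := by exact_mod_cast hkl
  have hlR : (l : ℝ) ≤ 2 * p := by exact_mod_cast hl
  set x : ℝ := (l - k) * b with hx
  set y : ℝ := (l + k) * b with hy
  have hx0 : 0 < x := mul_pos (by linarith) hb
  have hxy : x < y := mul_lt_mul_of_pos_right (by linarith) hb
  have hlb : (l : ℝ) * b ≤ 2 * p * b := mul_le_mul_of_nonneg_right hlR hb.le
  have hkb : (k : ℝ) * b < l * b := mul_lt_mul_of_pos_right hklR hb
  have hkb0 : 0 < (k : ℝ) * b := mul_pos (by linarith) hb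
  have hxpi : x < π := by rw [hx, sub_mul]; linarith
  have hy2 : y < 2 * π := by rw [hy, add_mul]; linarith
  have hid : (Real.sinh (l * a) * Real.cos (l * b)) * (Real.cosh (k * a) * Real.sin (k * b)) -
      (Real.cosh (l * a) * Real.sin (l * b)) * (Real.sinh (k * a) * Real.cos (k * b)) =
      (1 / 2) * (Real.sinh ((l - k) * a) * Real.sin y - Real.sinh ((l + k) * a) * Real.sin x) := by
    have e1 : Real.sin y = Real.sin (l * b) * Real.cos (k * b) +
        Real.cos (l * b) * Real.sin (k * b) := by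
      rw [hy, add_mul, Real.sin_add]
    have e2 : Real.sin x = Real.sin (l * b) * Real.cos (k * b) -
        Real.cos (l * b) * Real.sin (k * b) := by
      rw [hx, sub_mul, Real.sin_sub]
    have e3 : Real.sinh ((l + k) * a) = Real.sinh (l * a) * Real.cosh (k * a) +
        Real.cosh (l * a) * Real.sinh (k * a) := by
      rw [add_mul, Real.sinh_add]
    have e4 : Real.sinh ((l - k) * a) = Real.sinh (l * a) * Real.cosh (k * a) -
        Real.cosh (l * a) * Real.sinh (k * a) := by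
      rw [sub_mul, Real.sinh_sub]
    rw [e1, e2, e3, e4]
    ring
  rw [hid]
  have hB : 0 < Real.sinh ((l - k) * a) := Real.sinh_pos_iff.2 (mul_pos (by linarith) ha)
  have hA : 0 < Real.sinh ((l + k) * a) := Real.sinh_pos_iff.2 (mul_pos (by linarith) ha)
  have hQ : 0 < Real.sin x := Real.sin_pos_of_pos_of_lt_pi hx0 hxpi
  have hAQ := mul_pos hA hQ
  rcases le_or_gt (Real.sin y) 0 with hP | hP
  · nlinarith [mul_nonneg hB.le (neg_nonneg.2 hP)]
  · have hypi : y < π := by
      by_contra hcon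
      push Not at hcon
      have h1 : Real.sin y ≤ 0 := by
        have h2 : Real.sin (y - π) = -Real.sin y := Real.sin_sub_pi y
        have h3 : 0 ≤ Real.sin (y - π) :=
          Real.sin_nonneg_of_nonneg_of_le_pi (by linarith) (by linarith)
        linarith
      linarith
    have h1 := SWpos_sin x y hx0 hxy hypi.le
    have h2 := SWpos_sinh ((l - k) * a) ((l + k) * a) (mul_pos (by linarith) ha)
      (mul_lt_mul_of_pos_right (by linarith) ha)
    -- `(l-k) sin y < (l+k) sin x`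
    have h3 : ((l : ℝ) - k) * Real.sin y < (l + k) * Real.sin x := by
      have : b * (((l : ℝ) - k) * Real.sin y) < b * ((l + k) * Real.sin x) := by
        rw [hx, hy] at h1
        calc b * (((l : ℝ) - k) * Real.sin y) = (l - k) * b * Real.sin y := by ring
          _ < (l + k) * b * Real.sin x := by rw [hx, hy]; exact h1
          _ = _ := by ring
      exact lt_of_mul_lt_mul_left this hb.le
    have h4 : ((l : ℝ) + k) * Real.sinh ((l - k) * a) < (l - k) * Real.sinh ((l + k) * a) := by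
      have : a * (((l : ℝ) + k) * Real.sinh ((l - k) * a)) <
          a * ((l - k) * Real.sinh ((l + k) * a)) := by
        calc a * (((l : ℝ) + k) * Real.sinh ((l - k) * a))
            = (l + k) * a * Real.sinh ((l - k) * a) := by ring
          _ < (l - k) * a * Real.sinh ((l + k) * a) := h2
          _ = _ := by ring
      exact lt_of_mul_lt_mul_left this ha.le
    have h5 : (((l : ℝ) - k) * Real.sin y) * ((l + k) * Real.sinh ((l - k) * a)) <
        ((l + k) * Real.sin x) * ((l - k) * Real.sinh ((l + k) * a)) :=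
      mul_lt_mul'' h3 h4 (mul_nonneg (by linarith) hP.le) (mul_nonneg (by linarith) hB.le)
    have h6 : 0 < ((l : ℝ) - k) * (l + k) := mul_pos (by linarith) (by linarith)
    have h7 : ((l : ℝ) - k) * (l + k) * (Real.sinh ((l - k) * a) * Real.sin y) <
        ((l : ℝ) - k) * (l + k) * (Real.sinh ((l + k) * a) * Real.sin x) := by
      nlinarith [h5]
    have h8 := lt_of_mul_lt_mul_left h7 h6.le
    linarith

theorem SWpos_Xs (σ ε : ℂ) (hε : ε ^ 2 = 1) (k : ℕ) :
    Xs (ε * (2 * Complex.cosh σ)) k * Complex.sinh σ = ε ^ (k + 1) * Complex.sinh (k * σ) := by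
  induction k using Nat.strong_induction_on with
  | _ k ih =>
    match k, ih with
    | 0, _ => simp [Xs]
    | 1, _ => simp [Xs, hε]
    | k + 2, ih =>
      have h1 := ih (k + 1) (by omega)
      have h2 := ih k (by omega)
      rw [Xs_rec]
      have e1 : Complex.sinh (((k + 2 : ℕ) : ℂ) * σ) =
          2 * Complex.cosh σ * Complex.sinh (((k + 1 : ℕ) : ℂ) * σ) - Complex.sinh ((k : ℂ) * σ) := by
        have a1 : (((k + 2 : ℕ) : ℂ) * σ) = ((k + 1 : ℕ) : ℂ) * σ + σ := by push_cast; ring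
        have a2 : ((k : ℂ) * σ) = ((k + 1 : ℕ) : ℂ) * σ - σ := by push_cast; ring
        rw [a1, a2, Complex.sinh_add, Complex.sinh_sub]
        ring
      rw [e1]
      have e2 : ε ^ (k + 2 + 1) = ε ^ (k + 1) := by
        rw [show k + 2 + 1 = (k + 1) + 2 by ring, pow_add, hε, mul_one]
      have e3 : ε * ε ^ (k + 1 + 1) = ε ^ (k + 1) := by
        rw [← pow_succ', show k + 1 + 1 + 1 = (k + 1) + 2 by ring, pow_add, hε, mul_one]
      calc (ε * (2 * Complex.cosh σ) * Xs (ε * (2 * Complex.cosh σ)) (k + 1) -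
            Xs (ε * (2 * Complex.cosh σ)) k) * Complex.sinh σ
          = ε * (2 * Complex.cosh σ) * (Xs (ε * (2 * Complex.cosh σ)) (k + 1) * Complex.sinh σ) -
            Xs (ε * (2 * Complex.cosh σ)) k * Complex.sinh σ := by ring
        _ = (ε * ε ^ (k + 1 + 1)) * (2 * Complex.cosh σ * Complex.sinh (((k + 1 : ℕ) : ℂ) * σ)) -
            ε ^ (k + 1) * Complex.sinh ((k : ℂ) * σ) := by rw [h1, h2]; ring
        _ = _ := by rw [e3, e2]; ring

theorem SWpos_sinh_parts (a b : ℝ) (k : ℕ) :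
    Complex.sinh (k * ((a : ℂ) - b * Complex.I)) =
      ((Real.sinh (k * a) * Real.cos (k * b) : ℝ) : ℂ) -
        ((Real.cosh (k * a) * Real.sin (k * b) : ℝ) : ℂ) * Complex.I := by
  have h : (k : ℂ) * ((a : ℂ) - b * Complex.I) = ((k * a : ℝ) : ℂ) - ((k * b : ℝ) : ℂ) * Complex.I := by
    push_cast; ring
  rw [h, Complex.sinh_sub, Complex.cosh_mul_I, Complex.sinh_mul_I]
  push_cast
  ring

theorem sw_pos (p : ℕ) (hp : 2 ≤ p) (t c d : ℝ) (ht : t ∈ Ioo 0 π) (hc : 0 < c)
    (hd : π - π / p < d) (hd1 : d < π)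
    (h : chV p (zz c d) = Complex.exp (t * Complex.I) * chV (p - 1) (zz c d))
    (y : ℂ) (hy : y ^ 2 = 2 - zz c d) (k : ℕ) (hk : 2 ≤ k) (hk2 : k ≤ 2 * p) :
    0 < ((Xs y k ^ 2)⁻¹).im := by
  have hp0 : (0 : ℝ) < p := by
    have : 0 < p := by omega
    exact_mod_cast this
  -- `Im z > 0`
  have hdpos : 0 < d := by
    have h1 : π / p ≤ π := div_le_self pi_pos.le (by exact_mod_cast (by omega : 1 ≤ p))
    linarith
  have hzim : 0 < (zz c d).im := by
    rw [strips_zz_im]
    have h1 : 0 < Real.sinh c := Real.sinh_pos_iff.2 hc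
    have h2 : 0 < Real.sin d := Real.sin_pos_of_pos_of_lt_pi hdpos hd1
    positivity
  have hroot := Xs_root p (by omega) y (zz c d) hy t h
  have hcos : Real.cos t < 1 := by
    have h1 : Real.cos t < Real.cos 0 :=
      Real.cos_lt_cos_of_nonneg_of_le_pi le_rfl ht.2.le ht.1
    rwa [Real.cos_zero] at h1
  set r : ℝ := 2 - 2 * Real.cos t with hr
  have hr0 : 0 < r := by rw [hr]; linarith
  have hroot' : Xs y (2 * p) ^ 2 * (zz c d - 2 * (Real.cos t : ℂ)) = (r : ℂ) := by
    rw [hroot, hr]; push_cast; ring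
  have hX0 : Xs y (2 * p) ^ 2 ≠ 0 := by
    intro h0
    rw [h0, zero_mul] at hroot'
    have : (r : ℂ) ≠ 0 := by exact_mod_cast hr0.ne'
    exact this hroot'.symm
  have hinv : (Xs y (2 * p) ^ 2)⁻¹ = (zz c d - 2 * (Real.cos t : ℂ)) / (r : ℂ) := by
    rw [← hroot']
    have h1 : zz c d - 2 * (Real.cos t : ℂ) ≠ 0 := by
      intro h0
      have := congrArg Complex.im h0
      simp at this
      linarith
    field_simp
  have htop : 0 < ((Xs y (2 * p) ^ 2)⁻¹).im := by
    rw [hinv, Complex.div_ofReal_im]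
    apply div_pos _ hr0
    have : (zz c d - 2 * (Real.cos t : ℂ)).im = (zz c d).im := by simp
    rw [this]
    exact hzim
  rcases Nat.eq_or_lt_of_le hk2 with hkp | hkp
  · rw [hkp]; exact htop
  -- the hyperbolic sine formula
  set a : ℝ := c / 2 with ha
  set b : ℝ := (π - d) / 2 with hb
  have ha0 : 0 < a := by rw [ha]; linarith
  have hb0 : 0 < b := by rw [hb]; linarith
  have hb2 : 2 * p * b < π := by
    have h1 : π - d < π / p := by linarith
    have h2 : (π - d) * p < π := (lt_div_iff₀ hp0).1 h1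
    rw [hb]; linarith
  set σ : ℂ := (a : ℂ) - b * Complex.I with hσ
  have hz2 : zz c d = -(2 * Complex.cosh (2 * σ)) := by
    have e1 : (c : ℂ) + d * Complex.I = 2 * σ + (π : ℂ) * Complex.I := by
      rw [hσ, ha, hb]; push_cast; ring
    change 2 * Complex.cosh ((c : ℂ) + d * Complex.I) = _
    rw [e1, Complex.cosh_add, Complex.cosh_mul_I, Complex.sinh_mul_I, Complex.cos_pi,
      Complex.sin_pi]
    ring
  have hy2 : y ^ 2 = (2 * Complex.cosh σ) ^ 2 := by
    rw [hy, hz2, Complex.cosh_two_mul, Complex.sinh_sq]; ring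
  obtain ⟨ε, hε, hyε⟩ : ∃ ε : ℂ, ε ^ 2 = 1 ∧ y = ε * (2 * Complex.cosh σ) := by
    rcases sq_eq_sq_iff_eq_or_eq_neg.1 hy2 with h1 | h1
    · exact ⟨1, by ring, by rw [h1]; ring⟩
    · exact ⟨-1, by ring, by rw [h1]; ring⟩
  have hX : ∀ j, Xs y j * Complex.sinh σ = ε ^ (j + 1) * Complex.sinh (j * σ) := by
    intro j
    rw [hyε]
    exact SWpos_Xs σ ε hε j
  -- real and imaginary parts
  set P : ℕ → ℝ := fun j => Real.sinh (j * a) * Real.cos (j * b) with hP
  set Q : ℕ → ℝ := fun j => Real.cosh (j * a) * Real.sin (j * b) with hQ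
  have hS : ∀ j : ℕ, Complex.sinh (j * σ) = (P j : ℂ) - (Q j : ℂ) * Complex.I := fun j =>
    SWpos_sinh_parts a b j
  have hcross : ∀ i j : ℕ, 1 ≤ i → i < j → j ≤ 2 * p → P j * Q i - Q j * P i < 0 := by
    intro i j hi hij hj
    exact SWpos_im a b ha0 p hb0 hb2 i j hi hij hj
  have hS1 : Complex.sinh σ = (P 1 : ℂ) - (Q 1 : ℂ) * Complex.I := by
    have := hS 1
    simpa using this
  set n : ℝ := P 1 ^ 2 + Q 1 ^ 2 with hn
  have hP1 : 0 < Q 1 := by
    simp only [hQ, Nat.cast_one, one_mul]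
    have h1 : 0 < Real.sin b := by
      apply Real.sin_pos_of_pos_of_lt_pi hb0
      have h2 : (1 : ℝ) ≤ 2 * p := by
        have : (2 : ℝ) ≤ p := by exact_mod_cast hp
        linarith
      nlinarith [mul_le_mul_of_nonneg_right h2 hb0.le]
    exact mul_pos (Real.cosh_pos _) h1
  have hn0 : 0 < n := by rw [hn]; positivity
  -- `F j = sinh (j σ) / sinh σ = (U j + i W j) / n`
  set U : ℕ → ℝ := fun j => P j * P 1 + Q j * Q 1 with hU
  set W : ℕ → ℝ := fun j => P j * Q 1 - Q j * P 1 with hW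
  have hF : ∀ j : ℕ, Complex.sinh (j * σ) * (n : ℂ) = ((U j : ℂ) + (W j : ℂ) * Complex.I) *
      Complex.sinh σ := by
    intro j
    rw [hS j, hS1, hn, hU, hW]
    push_cast
    linear_combination (((P j : ℂ) * Q 1 - Q j * P 1) * Q 1) * Complex.I_sq
  have hs0 : Complex.sinh σ ≠ 0 := by
    rw [hS1]
    intro h0
    have h1 := congrArg Complex.im h0
    simp at h1
    linarith
  have hnC : (n : ℂ) ≠ 0 := by exact_mod_cast hn0.ne'
  have hXsq : ∀ j : ℕ, Xs y j ^ 2 * (n : ℂ) ^ 2 = ((U j : ℂ) + (W j : ℂ) * Complex.I) ^ 2 := by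
    intro j
    have h1 : (Xs y j * (n : ℂ)) * Complex.sinh σ =
        (ε ^ (j + 1) * ((U j : ℂ) + (W j : ℂ) * Complex.I)) * Complex.sinh σ := by
      calc (Xs y j * (n : ℂ)) * Complex.sinh σ = (Xs y j * Complex.sinh σ) * n := by ring
        _ = ε ^ (j + 1) * (Complex.sinh (j * σ) * n) := by rw [hX j]; ring
        _ = _ := by rw [hF j]; ring
    have h2 := mul_right_cancel₀ hs0 h1
    calc Xs y j ^ 2 * (n : ℂ) ^ 2 = (Xs y j * (n : ℂ)) ^ 2 := by ring
      _ = (ε ^ 2) ^ (j + 1) * ((U j : ℂ) + (W j : ℂ) * Complex.I) ^ 2 := by rw [h2]; ring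
      _ = _ := by rw [hε, one_pow, one_mul]
  have him : ∀ j : ℕ, (Xs y j ^ 2).im * n ^ 2 = 2 * (U j * W j) := by
    intro j
    have h1 := congrArg Complex.im (hXsq j)
    have h2 : (Xs y j ^ 2 * (n : ℂ) ^ 2).im = (Xs y j ^ 2).im * n ^ 2 := by
      rw [← Complex.ofReal_pow, Complex.im_mul_ofReal]
    have h3 : (((U j : ℂ) + (W j : ℂ) * Complex.I) ^ 2).im = 2 * (U j * W j) := by
      rw [sq]
      simp
      ring
    rw [← h2, h1, h3]
  have hWneg : ∀ j : ℕ, 2 ≤ j → j ≤ 2 * p → W j < 0 := by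
    intro j hj hj2
    exact hcross 1 j le_rfl (by omega) hj2
  have hsign : ∀ w : ℂ, w ≠ 0 → (0 < (w⁻¹).im ↔ w.im < 0) := by
    intro w hw
    rw [Complex.inv_im]
    have h1 : 0 < Complex.normSq w := Complex.normSq_pos.2 hw
    rw [div_pos_iff_of_pos_right h1]
    constructor <;> intro h <;> linarith
  have htop' : (Xs y (2 * p) ^ 2).im < 0 := (hsign _ hX0).1 htop
  have hn2 : 0 < n ^ 2 := by positivity
  have hUtop : 0 < U (2 * p) := by
    have h1 := him (2 * p)
    have h2 : 2 * (U (2 * p) * W (2 * p)) < 0 := by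
      rw [← h1]; exact mul_neg_of_neg_of_pos htop' hn2
    have h3 := hWneg (2 * p) (by omega) le_rfl
    by_contra hcon
    push Not at hcon
    have h4 := mul_nonneg_of_nonpos_of_nonpos hcon h3.le
    linarith
  -- the pair `(2p, k)`
  have hpair := hcross k (2 * p) (by omega) hkp le_rfl
  have hid : W (2 * p) * U k - U (2 * p) * W k = n * (P (2 * p) * Q k - Q (2 * p) * P k) := by
    rw [hU, hW, hn]
    ring
  have hneg : W (2 * p) * U k - U (2 * p) * W k < 0 := by
    rw [hid]; exact mul_neg_of_pos_of_neg hn0 hpair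
  have hWk := hWneg k hk hk2
  have hWtop := hWneg (2 * p) (by omega) le_rfl
  have hUk : 0 < U k := by
    have h1 : U (2 * p) * W k < 0 := mul_neg_of_pos_of_neg hUtop hWk
    by_contra hcon
    push Not at hcon
    have h4 := mul_nonneg_of_nonpos_of_nonpos hWtop.le hcon
    linarith
  have h1 : (Xs y k ^ 2).im < 0 := by
    have h2 := him k
    have h3 : U k * W k < 0 := mul_neg_of_pos_of_neg hUk hWk
    by_contra hcon
    push Not at hcon
    have h4 := mul_nonneg hcon hn2.le
    linarith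
  have h2 : Xs y k ^ 2 ≠ 0 := by
    intro h0
    rw [h0] at h1
    simp at h1
  exact (hsign _ h2).2 h1

end Pool.Agent.H63.VC
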