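import Pool.Agent.H63.VC.Defs

/-! # The transfer matrix -/

namespace Pool.Agent.H63.VC

open Complex

/-- Extension by zero. -/
noncomputable def ext {p : ℕ} (x : Fin p → ℂ) (a : ℕ) : ℂ := if h : a < p then x ⟨a, h⟩ else 0

theorem ext_of_lt {p : ℕ} (x : Fin p → ℂ) (a : ℕ) (h : a < p) : ext x a = x ⟨a, h⟩ := by
  unfold ext; rw [dif_pos h]

theorem ext_of_ge {p : ℕ} (x : Fin p → ℂ) (a : ℕ) (h : p ≤ a) : ext x a = 0 := by
  unfold ext; rw [dif_neg (by omega)]

theorem sum_ext {p : ℕ} (x : Fin p → ℂ) (a : ℕ) (c : ℂ) :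
    ∑ j : Fin p, (if j.1 = a then c else 0) * x j = c * ext x a := by
  by_cases h : a < p
  · rw [ext_of_lt x a h, Finset.sum_eq_single ⟨a, h⟩]
    · simp
    · intro j _ hj
      rw [if_neg, zero_mul]
      intro h2
      exact hj (Fin.ext h2)
    · intro h2; exact absurd (Finset.mem_univ _) h2
  · rw [ext_of_ge x a (by omega), mul_zero]
    apply Finset.sum_eq_zero
    intro j _
    rw [if_neg, zero_mul]
    intro h2
    exact h (h2 ▸ j.2)

/-- The transfer matrix. -/
noncomputable def tmat (p : ℕ) (β w : ℂ) : Matrix (Fin p) (Fin p) ℂ := fun i j =>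
  (if j.1 = i.1 then w⁻¹ + β * w else 0) + (if j.1 = i.1 + 1 then -β else 0)
    + (if j.1 = i.1 - 1 then (if i.1 = 0 then 0 else -1) else 0)
    + (if j.1 = i.1 then (if i.1 = 0 then -1 else 0) else 0)
    + (if j.1 = i.1 then (if i.1 + 1 = p then -(β * w) else 0) else 0)

/-- The transfer operator. -/
noncomputable def tri (p : ℕ) (β w : ℂ) : (Fin p → ℂ) →L[ℂ] (Fin p → ℂ) :=
  LinearMap.toContinuousLinearMap (Matrix.toLin' (tmat p β w))

theorem tri_apply (p : ℕ) (β w : ℂ) (x : Fin p → ℂ) (i : Fin p) :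
    tri p β w x i = (w⁻¹ + β * w) * x i - β * ext x (i.1 + 1)
      - (if i.1 = 0 then x i else ext x (i.1 - 1)) - (if i.1 + 1 = p then β * w * x i else 0) := by
  have h : tri p β w x i = ∑ j : Fin p, tmat p β w i j * x j := by
    unfold tri
    rw [LinearMap.coe_toContinuousLinearMap', Matrix.toLin'_apply]
    rfl
  rw [h]
  unfold tmat
  simp only [add_mul, Finset.sum_add_distrib]
  rw [sum_ext, sum_ext, sum_ext, sum_ext, sum_ext, ext_of_lt x i.1 i.2]
  split_ifs <;> ring

/-- The vector `V_m(z)`. -/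
noncomputable def vv (p : ℕ) (z : ℂ) : Fin p → ℂ := fun m => chV m.1 z

theorem chV_succ (m : ℕ) (z : ℂ) : chV (m + 2) z = z * chV (m + 1) z - chV m z := rfl
theorem chV_zero (z : ℂ) : chV 0 z = 1 := rfl
theorem chV_one (z : ℂ) : chV 1 z = z - 1 := rfl

theorem tri_vv (p : ℕ) (hp : 1 ≤ p) (w z : ℂ) (h : chV p z = w * chV (p - 1) z) :
    tri p 1 w (vv p z) = (w⁻¹ + w - z) • vv p z := by
  funext i
  rw [tri_apply, Pi.smul_apply, smul_eq_mul]
  obtain ⟨i, hi⟩ := i
  simp only [vv]
  have key : ext (vv p z) (i + 1) + (if i + 1 = p then w * chV i z else 0) = chV (i + 1) z := by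
    split_ifs with h1
    · subst h1
      rw [ext_of_ge _ _ (by omega), zero_add, h]
      simp
    · rw [ext_of_lt _ _ (by omega), add_zero]
      rfl
  have key2 : (if i = 0 then chV i z else ext (vv p z) (i - 1)) = z * chV i z - chV (i + 1) z := by
    split_ifs with h1
    · subst h1; rw [chV_zero, chV_one]; ring
    · rw [ext_of_lt _ _ (by omega)]
      obtain ⟨k, rfl⟩ : ∃ k, i = k + 1 := ⟨i - 1, by omega⟩
      rw [chV_succ]
      simp [vv]
  have key' : (if i + 1 = p then 1 * w * chV i z else 0) = chV (i + 1) z - ext (vv p z) (i + 1) := by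
    rw [← key, one_mul]; ring
  change (w⁻¹ + 1 * w) * chV i z - 1 * ext (vv p z) (i + 1)
    - (if i = 0 then chV i z else ext (vv p z) (i - 1)) - (if i + 1 = p then 1 * w * chV i z else 0)
    = (w⁻¹ + w - z) * chV i z
  rw [key2, key']
  ring

theorem tri_eigen (p : ℕ) (hp : 2 ≤ p) (w lam : ℂ) (x : Fin p → ℂ) (hx : x ≠ 0)
    (h : tri p 1 w x = lam • x) :
    x = x ⟨0, by omega⟩ • vv p (w⁻¹ + w - lam) ∧ x ⟨0, by omega⟩ ≠ 0 ∧
      chV p (w⁻¹ + w - lam) = w * chV (p - 1) (w⁻¹ + w - lam) := by
  set z := w⁻¹ + w - lam with hz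
  have hcoord : ∀ i (hi : i < p), (w⁻¹ + 1 * w) * x ⟨i, hi⟩ - 1 * ext x (i + 1)
      - (if i = 0 then x ⟨i, hi⟩ else ext x (i - 1)) - (if i + 1 = p then 1 * w * x ⟨i, hi⟩ else 0)
      = lam * x ⟨i, hi⟩ := by
    intro i hi
    have := congrFun h ⟨i, hi⟩
    rw [tri_apply, Pi.smul_apply, smul_eq_mul] at this
    exact this
  have hrec : ∀ i (hi : i + 1 < p), ext x (i + 1) = z * ext x i - (if i = 0 then ext x 0 else ext x (i - 1)) := by
    intro i hi
    have h1 := hcoord i (by omega)
    rw [if_neg (by omega : ¬ (i + 1 = p))] at h1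
    rw [ext_of_lt x i (by omega)]
    split_ifs at h1 ⊢ with h2
    · subst h2
      rw [ext_of_lt x 0 (by omega)]
      rw [hz]; linear_combination (-1 : ℂ) * h1
    · rw [hz]; linear_combination (-1 : ℂ) * h1
  have hval : ∀ i, i < p → ext x i = x ⟨0, by omega⟩ * chV i z := by
    intro i
    induction i using Nat.strong_induction_on with
    | _ i ih =>
      intro hi
      match i, ih, hi with
      | 0, _, hi => rw [ext_of_lt x 0 hi, chV_zero, mul_one]
      | 1, ih, hi =>
        have h1 := hrec 0 (by omega)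
        rw [if_pos rfl] at h1
        have h0 := ih 0 (by omega) (by omega)
        rw [chV_zero, mul_one] at h0
        rw [h0] at h1
        rw [chV_one]
        linear_combination h1
      | k + 2, ih, hi =>
        have h1 := hrec (k + 1) (by omega)
        rw [if_neg (by omega)] at h1
        have ha := ih (k + 1) (by omega) (by omega)
        have hb := ih k (by omega) (by omega)
        have e : k + 1 - 1 = k := by omega
        rw [e, ha, hb] at h1
        rw [chV_succ]
        linear_combination h1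
  have hx1 : x = x ⟨0, by omega⟩ • vv p z := by
    funext i
    have := hval i.1 i.2
    rw [ext_of_lt x i.1 i.2] at this
    rw [Pi.smul_apply, smul_eq_mul]
    exact this
  have hx0 : x ⟨0, by omega⟩ ≠ 0 := by
    intro h0
    apply hx
    rw [hx1, h0, zero_smul]
  refine ⟨hx1, hx0, ?_⟩
  have h1 := hcoord (p - 1) (by omega)
  rw [if_neg (by omega), if_pos (by omega), ext_of_ge x _ (by omega)] at h1
  have ha := hval (p - 1) (by omega)
  have hb := hval (p - 1 - 1) (by omega)
  rw [ext_of_lt x (p - 1) (by omega)] at ha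
  rw [ha, hb] at h1
  obtain ⟨k, rfl⟩ : ∃ k, p = k + 2 := ⟨p - 2, by omega⟩
  have e1 : k + 2 - 1 = k + 1 := by omega
  have e2 : k + 2 - 1 - 1 = k := by omega
  rw [e2, e1] at h1
  rw [e1, chV_succ]
  apply mul_left_cancel₀ hx0
  rw [hz]
  linear_combination h1

/-- The matrix for `β = 1` is symmetric. -/
theorem tri_symm (p : ℕ) (w : ℂ) (x y : Fin p → ℂ) :
    ∑ m, y m * tri p 1 w x m = ∑ m, tri p 1 w y m * x m := by
  have h : ∀ x i, tri p 1 w x i = ∑ j : Fin p, tmat p 1 w i j * x j := by
    intro x i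
    unfold tri
    rw [LinearMap.coe_toContinuousLinearMap', Matrix.toLin'_apply]
    rfl
  have hs : ∀ i j, tmat p 1 w i j = tmat p 1 w j i := by
    intro i j
    obtain ⟨i, hi⟩ := i
    obtain ⟨j, hj⟩ := j
    unfold tmat
    simp only
    rcases lt_trichotomy i j with hij | hij | hij
    · rw [if_neg (by omega : ¬ (j = i)), if_neg (by omega : ¬ (j = i - 1)),
        if_neg (by omega : ¬ (j = i)), if_neg (by omega : ¬ (j = i)),
        if_neg (by omega : ¬ (i = j)), if_neg (by omega : ¬ (i = j + 1)),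
        if_neg (by omega : ¬ (i = j)), if_neg (by omega : ¬ (i = j))]
      by_cases h1 : j = i + 1
      · rw [if_pos h1, if_pos (by omega : i = j - 1), if_neg (by omega : ¬ (j = 0))]
        ring
      · rw [if_neg h1, if_neg (by omega : ¬ (i = j - 1))]
    · subst hij; rfl
    · rw [if_neg (by omega : ¬ (j = i)), if_neg (by omega : ¬ (j = i + 1)),
        if_neg (by omega : ¬ (j = i)), if_neg (by omega : ¬ (j = i)),
        if_neg (by omega : ¬ (i = j)), if_neg (by omega : ¬ (i = j - 1)),
        if_neg (by omega : ¬ (i = j)), if_neg (by omega : ¬ (i = j))]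
      by_cases h1 : i = j + 1
      · rw [if_pos h1, if_pos (by omega : j = i - 1), if_neg (by omega : ¬ (i = 0))]
        ring
      · rw [if_neg h1, if_neg (by omega : ¬ (j = i - 1))]
  simp only [h, Finset.mul_sum, Finset.sum_mul]
  rw [Finset.sum_comm]
  apply Finset.sum_congr rfl
  intro j _
  apply Finset.sum_congr rfl
  intro i _
  rw [hs i j]
  ring

/-- The left eigenfunctional. -/
noncomputable def ellf (p : ℕ) (z : ℂ) : (Fin p → ℂ) →L[ℂ] ℂ :=
  ∑ m : Fin p, (chV m.1 z / ∑ i ∈ Finset.range p, chV i z ^ 2) • ContinuousLinearMap.proj (R := ℂ) m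

theorem ellf_apply (p : ℕ) (z : ℂ) (x : Fin p → ℂ) :
    ellf p z x = (∑ m : Fin p, chV m.1 z * x m) / ∑ i ∈ Finset.range p, chV i z ^ 2 := by
  unfold ellf
  rw [sum_apply, Finset.sum_div]
  apply Finset.sum_congr rfl
  intro m _
  rw [smul_apply, ContinuousLinearMap.proj_apply, smul_eq_mul]
  ring

theorem ellf_vv (p : ℕ) (z : ℂ) (h : ∑ i ∈ Finset.range p, chV i z ^ 2 ≠ 0) :
    ellf p z (vv p z) = 1 := by
  rw [ellf_apply, div_eq_one_iff_eq h, Finset.sum_range]
  apply Finset.sum_congr rfl
  intro m _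
  unfold vv
  ring

theorem ellf_tri (p : ℕ) (hp : 1 ≤ p) (w z : ℂ) (h : chV p z = w * chV (p - 1) z) (x : Fin p → ℂ) :
    ellf p z (tri p 1 w x) = (w⁻¹ + w - z) * ellf p z x := by
  rw [ellf_apply, ellf_apply, ← mul_div_assoc]
  congr 1
  have h1 := tri_symm p w x (vv p z)
  rw [tri_vv p hp w z h] at h1
  unfold vv at h1
  rw [h1, Finset.mul_sum]
  apply Finset.sum_congr rfl
  intro m _
  rw [Pi.smul_apply, smul_eq_mul]
  ring

theorem tri_continuous (p : ℕ) : ContinuousOn (fun s : ℂ × ℂ => tri p s.1 s.2) {s | s.2 ≠ 0} := by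
  have h1 : Continuous (fun A : Matrix (Fin p) (Fin p) ℂ =>
      (LinearMap.toContinuousLinearMap (Matrix.toLin' A) : (Fin p → ℂ) →L[ℂ] (Fin p → ℂ))) :=
    LinearMap.continuous_of_finiteDimensional
      ((LinearMap.toContinuousLinearMap (𝕜 := ℂ) (E := Fin p → ℂ) (F' := Fin p → ℂ)).toLinearMap ∘ₗ
        (Matrix.toLin' (R := ℂ) (m := Fin p) (n := Fin p)).toLinearMap)
  have h2 : ContinuousOn (fun s : ℂ × ℂ => tmat p s.1 s.2) {s | s.2 ≠ 0} := by
    apply continuousOn_pi.2
    intro i
    apply continuousOn_pi.2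
    intro j
    unfold tmat
    have hc1 : ContinuousOn (fun s : ℂ × ℂ => s.1) {s | s.2 ≠ 0} := continuous_fst.continuousOn
    have hc2 : ContinuousOn (fun s : ℂ × ℂ => s.2) {s | s.2 ≠ 0} := continuous_snd.continuousOn
    have hc3 : ContinuousOn (fun s : ℂ × ℂ => s.2⁻¹) {s | s.2 ≠ 0} := hc2.inv₀ (fun s hs => hs)
    refine ((((ContinuousOn.add ?_ ?_).add ?_).add ?_).add ?_)
    · split_ifs
      · exact hc3.add (hc1.mul hc2)
      · exact continuousOn_const
    · split_ifs
      · exact hc1.neg
      · exact continuousOn_const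
    · exact continuousOn_const
    · exact continuousOn_const
    · split_ifs
      · exact (hc1.mul hc2).neg
      · exact continuousOn_const
      · exact continuousOn_const
  exact h1.comp_continuousOn h2

theorem vv_continuous (p : ℕ) : Continuous (fun z => vv p z) := by
  have h : ∀ m, Continuous (fun z => chV m z) := by
    intro m
    induction m using Nat.strong_induction_on with
    | _ m ih =>
      match m, ih with
      | 0, _ => exact continuous_const
      | 1, _ => exact continuous_id.sub continuous_const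
      | k + 2, ih => exact (continuous_id.mul (ih (k + 1) (by omega))).sub (ih k (by omega))
  exact continuous_pi fun m => h m.1

theorem chV_continuous (m : ℕ) : Continuous (fun z => chV m z) := by
  induction m using Nat.strong_induction_on with
  | _ m ih =>
    match m, ih with
    | 0, _ => exact continuous_const
    | 1, _ => exact continuous_id.sub continuous_const
    | k + 2, ih => exact (continuous_id.mul (ih (k + 1) (by omega))).sub (ih k (by omega))

theorem ellf_continuousOn (p : ℕ) :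
    ContinuousOn (fun z => ellf p z) {z | ∑ i ∈ Finset.range p, chV i z ^ 2 ≠ 0} := by
  unfold ellf
  apply continuousOn_finsetSum
  intro m _
  apply ContinuousOn.fun_smul _ continuousOn_const
  apply ContinuousOn.div (chV_continuous _).continuousOn
  · exact (continuous_finsetSum _ fun i _ => (chV_continuous i).pow 2).continuousOn
  · intro z hz; exact hz

end Pool.Agent.H63.VC
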