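import Pool.Agent.H63.VC.Base
import Pool.Agent.H63.VC.EndA
import Pool.Agent.H63.VC.Tri

/-! # The vectors `u(k)` and `y(j)` -/

namespace Pool.Agent.H63.VC

open Complex

theorem qbin_conj (q : ℂ) : ∀ k j : ℕ, qbin (starRingEnd ℂ q) k j = starRingEnd ℂ (qbin q k j)
  | k, 0 => by rw [qbin_zero, qbin_zero, map_one]
  | 0, j + 1 => by simp [qbin]
  | k + 1, j + 1 => by
    rw [qbin_succ, qbin_succ, qbin_conj q k j, qbin_conj q k (j + 1), map_add, map_mul, map_pow]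

theorem Bop_conj (a q : ℂ) (f : ℕ → ℂ) (k : ℕ) :
    Bop (starRingEnd ℂ a) (starRingEnd ℂ q) (fun j => starRingEnd ℂ (f j)) k
      = starRingEnd ℂ (Bop a q f k) := by
  unfold Bop
  rw [map_sum]
  apply Finset.sum_congr rfl
  intro j _
  rw [qbin_conj, map_mul, map_mul, map_mul, map_pow, map_pow]

theorem lad_conj (a q : ℂ) (r m k : ℕ) :
    lad (starRingEnd ℂ a) (starRingEnd ℂ q) r m k = starRingEnd ℂ (lad a q r m k) := by
  induction r generalizing k with
  | zero =>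
    induction m generalizing k with
    | zero => simp [lad]
    | succ m ih =>
      rw [lad_zero_succ, lad_zero_succ, ← Bop_conj]
      congr 1
      funext j
      rw [ih, map_mul, map_pow]
  | succ r ih =>
    rw [lad_succ, lad_succ, ← Bop_conj]
    congr 1
    funext j
    rw [ih]

theorem twistCoeff_conj (a q : ℂ) (p k : ℕ) :
    twistCoeff (starRingEnd ℂ a) (starRingEnd ℂ q) p k = starRingEnd ℂ (twistCoeff a q p k) := by
  cases p with
  | zero => simp only [twistCoeff]; split_ifs <;> simp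
  | succ p => rw [twistCoeff_eq_lad, twistCoeff_eq_lad, lad_conj]

theorem rt_ne_zero (M : ℕ) : rt M ≠ 0 := exp_ne_zero _

theorem rt_conj (M : ℕ) : starRingEnd ℂ (rt M) = (rt M)⁻¹ := by
  unfold rt
  rw [← exp_conj, ← exp_neg]
  congr 1
  rw [map_div₀, map_mul, map_mul, conj_ofReal, conj_I, map_natCast, map_ofNat]
  ring

theorem rt_norm (M : ℕ) : ‖rt M‖ = 1 := by
  unfold rt
  have : (2 * Real.pi * I / M : ℂ) = ((2 * Real.pi / M : ℝ) : ℂ) * I := by push_cast; ring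
  rw [this, norm_exp_ofReal_mul_I]

theorem rt_pow_self (M : ℕ) (hM : 0 < M) : rt M ^ M = 1 := by
  unfold rt
  rw [← exp_nat_mul]
  have hM' : (M : ℂ) ≠ 0 := by exact_mod_cast hM.ne'
  have : (M : ℂ) * (2 * Real.pi * I / M) = 2 * Real.pi * I := by field_simp
  rw [this, exp_two_pi_mul_I]

theorem rt_pow (M j : ℕ) : rt M ^ j = exp (((2 * Real.pi / M : ℝ) * j : ℝ) * I) := by
  unfold rt
  rw [← exp_nat_mul]
  congr 1
  push_cast
  ring

theorem norm_one_sub_exp (θ : ℝ) : ‖1 - exp ((2 * θ : ℝ) * I)‖ = |2 * Real.sin θ| := by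
  have e1 : (((2 * θ : ℝ)) : ℂ) * I = θ * I + θ * I := by push_cast; ring
  rw [e1, exp_add]
  have e2 : (1 : ℂ) - exp (θ * I) * exp (θ * I)
      = exp (θ * I) * (exp (-(θ * I)) - exp (θ * I)) := by
    rw [mul_sub, ← exp_add, ← exp_add, add_neg_cancel, exp_zero]
  rw [e2, norm_mul, norm_exp_ofReal_mul_I, one_mul]
  have e3 : exp (-(θ * I)) - exp (θ * I) = -(2 * sin θ * I) := by
    rw [two_sin]
    have : I * I = -1 := I_mul_I
    rw [mul_assoc, this, neg_mul]; ring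
  rw [e3, norm_neg, norm_mul, norm_I, mul_one, ← ofReal_sin]
  have e4 : (2 : ℂ) * ((Real.sin θ : ℝ) : ℂ) = ((2 * Real.sin θ : ℝ) : ℂ) := by push_cast; rfl
  rw [e4, norm_real]
  rfl

theorem norm_one_sub_rt (M j : ℕ) (h1 : 1 ≤ j) (h2 : j < M) : ‖1 - rt M ^ j‖ = sg M j := by
  have hM : (M : ℝ) ≠ 0 := by exact_mod_cast (by omega : M ≠ 0)
  rw [rt_pow]
  have e : (2 * Real.pi / M : ℝ) * j = 2 * (Real.pi * j / M) := by ring
  rw [e, norm_one_sub_exp]
  exact abs_of_pos (sg_pos h1 h2)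

/-- The vectors `u(k)`. -/
noncomputable def uu (p n M k : ℕ) : Fin p → ℂ :=
  fun m => lad ((rt M)⁻¹ ^ n) (rt M)⁻¹ (p - 1 - m.1) m.1 k

theorem uu_conj (p n M k : ℕ) (m : Fin p) :
    uu p n M k m = starRingEnd ℂ (lad (rt M ^ n) (rt M) (p - 1 - m.1) m.1 k) := by
  rw [← lad_conj, map_pow, rt_conj]
  rfl

theorem norm_uu (p n M k : ℕ) (m : Fin p) :
    ‖uu p n M k m‖ = ‖lad (rt M ^ n) (rt M) (p - 1 - m.1) m.1 k‖ := by
  rw [uu_conj, RCLike.norm_conj]

theorem norm_twist (p n M k : ℕ) (hp : 1 ≤ p) :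
    ‖twistCoeff (rt M ^ n) (rt M) p k‖ = ‖uu p n M k ⟨0, hp⟩‖ := by
  rw [norm_uu]
  obtain ⟨r, rfl⟩ : ∃ r, p = r + 1 := ⟨p - 1, by omega⟩
  rw [twistCoeff_eq_lad]
  simp

theorem uu_rec (p n M j : ℕ) (hp : 2 ≤ p) (hn : 1 ≤ n) (h1 : 1 ≤ j) (h2 : j < M) :
    (1 - rt M ^ j) • uu p n M (M - 1 - j)
      = rt M ^ j • tri p ((rt M)⁻¹ ^ (n - 1)) (rt M ^ j) (uu p n M (M - j)) := by
  have hM : 0 < M := by omega
  set q : ℂ := (rt M)⁻¹ with hq
  have hq0 : q ≠ 0 := inv_ne_zero (rt_ne_zero M)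
  set α : ℂ := q ^ (n - 1) with hα
  have ha : q ^ n = α * q := by rw [hα, ← pow_succ]; congr 1; omega
  have hs0 : rt M ^ j ≠ 0 := pow_ne_zero _ (rt_ne_zero M)
  have hs : q ^ (M - 1 - j + 1) = rt M ^ j := by
    have e : M - 1 - j + 1 = M - j := by omega
    rw [e, hq, inv_pow]
    apply inv_eq_of_mul_eq_one_left
    rw [← pow_add]
    have : j + (M - j) = M := by omega
    rw [this, rt_pow_self M hM]
  set s : ℂ := rt M ^ j with hsdef
  have hk : M - j = M - 1 - j + 1 := by omega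
  rw [hk]
  set k := M - 1 - j with hkdef
  funext i
  obtain ⟨i, hi⟩ := i
  rw [Pi.smul_apply, Pi.smul_apply, smul_eq_mul, smul_eq_mul, tri_apply]
  have hss : s⁻¹ * s = 1 := inv_mul_cancel₀ hs0
  by_cases hip : i + 1 = p
  · -- last row
    obtain ⟨m, rfl⟩ : ∃ m, i = m + 1 := ⟨i - 1, by omega⟩
    have h := lad_rec_last α q hq0 m k
    rw [ext_of_ge _ _ (by simp only; omega), if_neg (by simp), if_pos hip]
    rw [ext_of_lt _ _ (by simp only; omega)]
    simp only [uu]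
    rw [← hq, ha]
    have e1 : p - 1 - (m + 1) = 0 := by omega
    have e2 : m + 1 - 1 = m := by omega
    have e3 : p - 1 - m = 1 := by omega
    rw [e1, e2, e3]
    rw [hs] at h
    linear_combination h - (lad (α * q) q 0 (m + 1) (k + 1)) * hss
  · have h := lad_rec α q hq0 (p - 1 - i - 1) i k
    have e0 : p - 1 - i - 1 + 1 = p - 1 - i := by omega
    have e2 : q ^ (2 * (k + 1)) = s * s := by rw [← hs, ← pow_add]; congr 1; ring
    rw [e0, hs, e2] at h
    rw [if_neg hip, ext_of_lt _ _ (by simp only; omega)]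
    by_cases hi0 : i = 0
    · subst hi0
      rw [if_pos rfl] at h
      rw [if_pos rfl]
      simp only [uu]
      rw [← hq, ha]
      have e3 : p - 1 - (0 + 1) = p - 1 - 0 - 1 := by omega
      rw [e3]
      linear_combination h - (lad (α * q) q (p - 1 - 0) 0 (k + 1)) * hss
    · rw [if_neg hi0] at h
      rw [if_neg hi0, ext_of_lt _ _ (by simp only; omega)]
      simp only [uu]
      rw [← hq, ha]
      have e3 : p - 1 - (i + 1) = p - 1 - i - 1 := by omega
      have e4 : p - 1 - (i - 1) = p - 1 - i - 1 + 2 := by omega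
      rw [e3, e4]
      linear_combination h - (lad (α * q) q (p - 1 - i) i (k + 1)) * hss

/-- The rescaled vectors. -/
noncomputable def yy (p n M j : ℕ) : Fin p → ℂ :=
  (∏ i ∈ Finset.Icc 1 j, ((1 - rt M ^ i) * (rt M ^ i)⁻¹)) • uu p n M (M - 1 - j)

theorem yy_zero (p n M : ℕ) : yy p n M 0 = uu p n M (M - 1) := by
  unfold yy; simp

theorem yy_succ (p n M j : ℕ) (hp : 2 ≤ p) (hn : 1 ≤ n) (h2 : j + 1 < M) :
    yy p n M (j + 1) = tri p ((rt M)⁻¹ ^ (n - 1)) (rt M ^ (j + 1)) (yy p n M j) := by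
  unfold yy
  rw [map_smul, Finset.prod_Icc_succ_top (by omega), mul_smul]
  congr 1
  have h := uu_rec p n M (j + 1) hp hn (by omega) h2
  have e : M - (j + 1) = M - 1 - j := by omega
  rw [e] at h
  rw [mul_comm, mul_smul, h, smul_smul, inv_mul_cancel₀ (pow_ne_zero _ (rt_ne_zero M)), one_smul]

theorem norm_prod (M j : ℕ) (h : j < M) :
    ‖∏ i ∈ Finset.Icc 1 j, ((1 - rt M ^ i) * (rt M ^ i)⁻¹)‖ = S M j := by
  rw [_root_.norm_prod]
  unfold S
  have e : Finset.Icc 1 j = Finset.Ico 1 (j + 1) := by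
    ext i; simp only [Finset.mem_Icc, Finset.mem_Ico]; omega
  rw [e]
  apply Finset.prod_congr rfl
  intro i hi
  rw [Finset.mem_Ico] at hi
  rw [norm_mul, norm_inv, norm_pow, rt_norm, one_pow, inv_one, mul_one,
    norm_one_sub_rt M i (by omega) (by omega)]

theorem norm_yy_zero (p n M j : ℕ) (hp : 1 ≤ p) (h : j < M) :
    ‖yy p n M j ⟨0, hp⟩‖ = S M j * ‖twistCoeff (rt M ^ n) (rt M) p (M - 1 - j)‖ := by
  rw [norm_twist p n M _ hp]
  unfold yy
  rw [Pi.smul_apply, norm_smul, norm_prod M j h]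

/-- The invariant as a real sum. -/
noncomputable def JJ (p n b N : ℕ) : ℝ :=
  ∑ k ∈ Finset.range (N + 1), T (N + b) n b k * ‖twistCoeff (rt (N + b) ^ n) (rt (N + b)) p k‖ ^ 2

theorem su_eq (p n b N : ℕ) (hn : 2 ≤ n) (hb : 1 ≤ b) (hbn : b ≤ n - 1) :
    suDoubleTwist p n N (exp (Real.pi * I / ((N + b : ℕ) : ℂ))) = ((JJ p n b N : ℝ) : ℂ) := by
  unfold suDoubleTwist homflyDoubleTwist JJ
  rw [ofReal_sum]
  apply Finset.sum_congr rfl
  intro k hk
  rw [Finset.mem_range] at hk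
  rw [ofReal_mul]
  set q : ℂ := exp (Real.pi * I / ((N + b : ℕ) : ℂ)) with hq
  have hq2 : q ^ 2 = rt (N + b) := by
    rw [hq, ← exp_nat_mul]
    unfold rt
    congr 1
    push_cast
    ring
  have hA : (q ^ n) ^ 2 = rt (N + b) ^ n := by rw [← hq2]; ring
  have hA' : ((q ^ n)⁻¹) ^ 2 = starRingEnd ℂ (rt (N + b) ^ n) := by
    rw [inv_pow, hA, map_pow, rt_conj, inv_pow]
  have hq2' : (q⁻¹) ^ 2 = starRingEnd ℂ (rt (N + b)) := by rw [inv_pow, hq2, rt_conj]
  congr 1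
  · unfold T
    rw [ofReal_prod]
    apply Finset.prod_congr rfl
    intro i hi
    rw [Finset.mem_range] at hi
    exact factor_eq n b N i hb hbn hn (by omega)
  · rw [hA, hA', hq2, hq2', twistCoeff_conj]
    rw [mul_conj, normSq_eq_norm_sq]

end Pool.Agent.H63.VC
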