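import Mathlib

/-!
# The colored `SU(n)` invariants of the figure-eight knot at all gap roots of unity

For the figure-eight knot `4₁` the reduced HOMFLY-PT polynomial colored by the `N`-th symmetric power
is given by the well-known closed formula

`P_N(A, q) = ∑_{k=0}^{N} [N choose k] ∏_{i=0}^{k-1} {A q^{N+i}} {A q^{i-1}}`,

where `{x} = x - x⁻¹` and `[N choose k] = ∏_{i=0}^{k-1} {q^{N-i}} / {q^{i+1}}`.  Its specialization
`A = q^n` is `J_N^{SU(n)}(4₁; q)`.  We prove the limit formula of the volume conjecture for all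
`n ≥ 2` and all gaps `a = 1, …, n - 1`.
-/

namespace Pool.Agent.H63.FigEight

open Filter Topology MeasureTheory Real

/-- `{x} = x - x⁻¹`. -/
noncomputable def cb (x : ℂ) : ℂ := x - x⁻¹

/-- The reduced HOMFLY-PT polynomial of the figure-eight knot colored by the `N`-th symmetric
power, given by its closed formula. -/
noncomputable def homflyFigureEight (N : ℕ) (A q : ℂ) : ℂ :=
  ∑ k ∈ Finset.range (N + 1), ∏ i ∈ Finset.range k,
    (cb (q ^ ((N : ℤ) - i)) / cb (q ^ ((i : ℤ) + 1))) *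
      (cb (A * q ^ ((N : ℤ) + i)) * cb (A * q ^ ((i : ℤ) - 1)))

/-- The reduced colored `SU(n)` invariant of the figure-eight knot (specialization `A = q^n`). -/
noncomputable def suFigureEight (n N : ℕ) (q : ℂ) : ℂ := homflyFigureEight N (q ^ n) q

/-- The Lobachevsky function `Λ(θ) = -∫_0^θ log |2 sin t| dt`. -/
noncomputable def lob (θ : ℝ) : ℝ := -∫ t in (0 : ℝ)..θ, Real.log |2 * Real.sin t|

/-- The hyperbolic volume of the figure-eight knot complement: the complement is the union of two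
regular ideal tetrahedra, each of volume `3 Λ(π/3)`. -/
noncomputable def volFigureEight : ℝ := 6 * lob (π / 3)


/-- `σ M m = 2 sin(π m / M)`. -/
noncomputable def sg (M m : ℕ) : ℝ := 2 * Real.sin (π * m / M)

noncomputable def S (M k : ℕ) : ℝ := ∏ m ∈ Finset.Ico 1 (k + 1), sg M m

noncomputable def P (M : ℕ) : ℝ := ∏ m ∈ Finset.Ico 1 M, max (sg M m) 1

theorem sg_pos {M m : ℕ} (h1 : 1 ≤ m) (h2 : m < M) : 0 < sg M m := by
  have hM : (0 : ℝ) < M := by exact_mod_cast (by omega : 0 < M)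
  have hm : (0 : ℝ) < m := by exact_mod_cast (by omega : 0 < m)
  have hmM : (m : ℝ) < M := by exact_mod_cast h2
  refine mul_pos two_pos (Real.sin_pos_of_pos_of_lt_pi (by positivity) ?_)
  rw [div_lt_iff₀ hM]
  exact mul_lt_mul_of_pos_left hmM pi_pos

theorem sg_symm {M m : ℕ} (h1 : m ≤ M) (hM : 0 < M) : sg M (M - m) = sg M m := by
  have hM' : (M : ℝ) ≠ 0 := by exact_mod_cast hM.ne'
  unfold sg
  rw [Nat.cast_sub h1]
  have : π * ((M : ℝ) - m) / M = π - π * m / M := by field_simp
  rw [this, Real.sin_pi_sub]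

theorem S_pos {M k : ℕ} (h : k < M) : 0 < S M k := by
  refine Finset.prod_pos fun m hm => ?_
  rw [Finset.mem_Ico] at hm
  exact sg_pos hm.1 (by omega)

theorem P_ge_one (M : ℕ) : 1 ≤ P M := by
  unfold P
  have h : ∏ m ∈ Finset.Ico 1 M, (1 : ℝ) ≤ ∏ m ∈ Finset.Ico 1 M, max (sg M m) 1 :=
    Finset.prod_le_prod (fun _ _ => zero_le_one) fun _ _ => le_max_right _ _
  simpa using h

theorem S_full (M : ℕ) (hM : 0 < M) : S M (M - 1) = M := by
  obtain ⟨n, rfl⟩ : ∃ n, M = n + 1 := ⟨M - 1, by omega⟩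
  have hprim : IsPrimitiveRoot (Complex.exp (2 * π * Complex.I / ((n + 1 : ℕ) : ℂ))) (n + 1) :=
    Complex.isPrimitiveRoot_exp (n + 1) (by omega)
  have h := hprim.prod_one_sub_pow_eq_order
  have h2 := congrArg (fun z : ℂ => ‖z‖) h
  simp only [norm_prod] at h2
  have h3 : ∀ k ∈ Finset.range n, ‖1 - Complex.exp (2 * π * Complex.I / ((n + 1 : ℕ) : ℂ)) ^ (k + 1)‖
      = sg (n + 1) (k + 1) := by
    intro k hk
    rw [Finset.mem_range] at hk
    rw [← Complex.exp_nat_mul]
    have hpos := sg_pos (M := n + 1) (m := k + 1) (by omega) (by omega)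
    have e1 : (((k + 1 : ℕ) : ℂ) * (2 * π * Complex.I / ((n + 1 : ℕ) : ℂ)))
        = ((π * ((k + 1 : ℕ) : ℝ) / ((n + 1 : ℕ) : ℝ) : ℝ) : ℂ) * Complex.I
          + ((π * ((k + 1 : ℕ) : ℝ) / ((n + 1 : ℕ) : ℝ) : ℝ) : ℂ) * Complex.I := by
      push_cast; ring
    set θ : ℝ := π * ((k + 1 : ℕ) : ℝ) / ((n + 1 : ℕ) : ℝ) with hθ
    rw [e1, Complex.exp_add]
    have e2 : (1 : ℂ) - Complex.exp (θ * Complex.I) * Complex.exp (θ * Complex.I)
        = Complex.exp (θ * Complex.I) * (Complex.exp (-(θ * Complex.I)) - Complex.exp (θ * Complex.I)) := by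
      rw [mul_sub, ← Complex.exp_add, ← Complex.exp_add, add_neg_cancel, Complex.exp_zero]
    rw [e2, norm_mul, Complex.norm_exp_ofReal_mul_I, one_mul]
    have e3 : Complex.exp (-(θ * Complex.I)) - Complex.exp (θ * Complex.I)
        = -(2 * Complex.sin θ * Complex.I) := by
      rw [Complex.two_sin]
      have : Complex.I * Complex.I = -1 := Complex.I_mul_I
      rw [mul_assoc, this, neg_mul]; ring
    rw [e3, norm_neg, norm_mul, Complex.norm_I, mul_one, ← Complex.ofReal_sin]
    have e4 : (2 : ℂ) * ((Real.sin θ : ℝ) : ℂ) = ((2 * Real.sin θ : ℝ) : ℂ) := by push_cast; rfl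
    rw [e4, Complex.norm_real]
    exact abs_of_pos hpos
  rw [Finset.prod_congr rfl h3] at h2
  have h4 : S (n + 1) (n + 1 - 1) = ∏ k ∈ Finset.range n, sg (n + 1) (k + 1) := by
    unfold S
    rw [Finset.prod_Ico_eq_prod_range]
    simp [add_comm]
  rw [h4, h2]
  have : ((n : ℂ) + 1) = ((n + 1 : ℝ) : ℂ) := by push_cast; rfl
  rw [this, Complex.norm_real]
  push_cast
  exact abs_of_pos (by positivity)


theorem S_succ (M k : ℕ) : S M (k + 1) = S M k * sg M (k + 1) := by
  unfold S
  rw [Finset.prod_Ico_succ_top (by omega)]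

theorem S_split {M k l : ℕ} (h : k ≤ l) :
    S M l = S M k * ∏ m ∈ Finset.Ico (k + 1) (l + 1), sg M m := by
  unfold S
  rw [Finset.prod_Ico_consecutive _ (by omega) (by omega)]

theorem S_refl {M k : ℕ} (h : k < M) :
    ∏ m ∈ Finset.Ico (k + 1) M, sg M m = S M (M - 1 - k) := by
  unfold S
  have h1 : ∏ m ∈ Finset.Ico (k + 1) M, sg M m = ∏ m ∈ Finset.Ico (k + 1) M, sg M (M - m) := by
    apply Finset.prod_congr rfl
    intro m hm
    rw [Finset.mem_Ico] at hm
    rw [sg_symm (by omega) (by omega)]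
  rw [h1, Finset.prod_Ico_reflect _ _ (by omega)]
  congr 1
  congr 1
  · omega
  · omega

theorem S_mul {M k : ℕ} (h : k < M) : S M k * S M (M - 1 - k) = M := by
  have h1 := S_split (M := M) (k := k) (l := M - 1) (by omega)
  rw [S_full M (by omega)] at h1
  have h2 : M - 1 + 1 = M := by omega
  rw [h2, S_refl h] at h1
  exact h1.symm

/-- the sub-product over a sub-interval is at most `P`. -/
theorem prod_le_P {M k l : ℕ} (hk : 1 ≤ k) (hl : l ≤ M) :
    ∏ m ∈ Finset.Ico k l, sg M m ≤ P M := by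
  have h1 : ∏ m ∈ Finset.Ico k l, sg M m ≤ ∏ m ∈ Finset.Ico k l, max (sg M m) 1 := by
    apply Finset.prod_le_prod
    · intro m hm
      rw [Finset.mem_Ico] at hm
      exact (sg_pos (by omega) (by omega)).le
    · intro m _
      exact le_max_left _ _
  refine h1.trans ?_
  unfold P
  apply Finset.prod_le_prod_of_subset_of_one_le
  · intro m hm
    rw [Finset.mem_Ico] at hm ⊢
    omega
  · intro m _
    exact zero_le_one.trans (le_max_right _ _)
  · intro m _ _
    exact le_max_right _ _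

theorem sg_mono {M m m' : ℕ} (hM : 0 < M) (h : m ≤ m') (h2 : 2 * m' ≤ M) : sg M m ≤ sg M m' := by
  have hM' : (0 : ℝ) < M := by exact_mod_cast hM
  unfold sg
  apply mul_le_mul_of_nonneg_left _ two_pos.le
  apply Real.sin_le_sin_of_le_of_le_pi_div_two
  · have : (0 : ℝ) ≤ π * m / M := by positivity
    linarith only [pi_pos, this]
  · rw [div_le_iff₀ hM']
    have : (2 * m' : ℝ) ≤ M := by exact_mod_cast h2
    nlinarith [pi_pos]
  · have : (m : ℝ) ≤ m' := by exact_mod_cast h
    gcongr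

/-- Upper bound for the partial products. -/
theorem S_sq_le {M k : ℕ} (h : k < M) : S M k ^ 2 ≤ M * P M := by
  have hSM := S_mul h
  have hS := S_pos h
  have hP := P_ge_one M
  have hM1 : (1 : ℝ) ≤ M := by exact_mod_cast (by omega : 1 ≤ M)
  rcases le_or_gt (M - 1 - k) k with hk | hk
  · -- k large
    have h1 := S_split (M := M) hk
    have h2 : ∏ m ∈ Finset.Ico (M - 1 - k + 1) (k + 1), sg M m ≤ P M := prod_le_P (by omega) (by omega)
    calc S M k ^ 2 = S M k * S M k := by ring
      _ = S M k * (S M (M - 1 - k) * ∏ m ∈ Finset.Ico (M - 1 - k + 1) (k + 1), sg M m) := by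
          rw [← h1]
      _ = (S M k * S M (M - 1 - k)) * ∏ m ∈ Finset.Ico (M - 1 - k + 1) (k + 1), sg M m := by ring
      _ ≤ M * P M := by
          rw [hSM]
          exact mul_le_mul_of_nonneg_left h2 (by positivity)
  · rcases le_or_gt 1 (sg M (k + 1)) with h1 | h1
    · -- all the middle factors are ≥ 1
      have h2 := S_split (M := M) hk.le
      have h3 : 1 ≤ ∏ m ∈ Finset.Ico (k + 1) (M - 1 - k + 1), sg M m := by
        have : ∏ m ∈ Finset.Ico (k + 1) (M - 1 - k + 1), (1 : ℝ)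
            ≤ ∏ m ∈ Finset.Ico (k + 1) (M - 1 - k + 1), sg M m := by
          apply Finset.prod_le_prod (fun _ _ => zero_le_one)
          intro m hm
          rw [Finset.mem_Ico] at hm
          rcases le_or_gt (2 * m) M with h4 | h4
          · exact h1.trans (sg_mono (by omega) (by omega) h4)
          · rw [← sg_symm (by omega) (by omega)]
            exact h1.trans (sg_mono (by omega) (by omega) (by omega))
        simpa using this
      have h4 : S M k ≤ S M (M - 1 - k) := by
        rw [h2]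
        linarith only [mul_nonneg (sub_nonneg.2 hS.le) (sub_nonneg.2 h3)]
      calc S M k ^ 2 = S M k * S M k := by ring
        _ ≤ S M k * S M (M - 1 - k) := mul_le_mul_of_nonneg_left h4 hS.le
        _ = M := hSM
        _ ≤ M * P M := by nlinarith
    · -- all factors are < 1
      have h5 : S M k ≤ 1 := by
        unfold S
        apply Finset.prod_le_one
        · intro m hm
          rw [Finset.mem_Ico] at hm
          exact (sg_pos (by omega) (by omega)).le
        · intro m hm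
          rw [Finset.mem_Ico] at hm
          exact (sg_mono (by omega) (by omega) (by omega)).trans h1.le
      have : S M k ^ 2 ≤ 1 := by linarith only [h5,
                                   mul_nonneg (sub_nonneg.2 hS.le) (sub_nonneg.2 h5)]
      nlinarith

theorem sg_ge_one {M m : ℕ} (hM : 0 < M) (h1 : M ≤ 6 * m) (h2 : 6 * m ≤ 5 * M) : 1 ≤ sg M m := by
  have hM' : (0 : ℝ) < M := by exact_mod_cast hM
  have key : ∀ t : ℝ, π / 6 ≤ t → t ≤ π / 2 → 1 ≤ 2 * Real.sin t := by
    intro t ht1 ht2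
    have := Real.sin_le_sin_of_le_of_le_pi_div_two (by linarith only [ht2, ht1]) ht2 ht1
    rw [Real.sin_pi_div_six] at this
    linarith only [this]
  have ht1 : π / 6 ≤ π * m / M := by
    rw [le_div_iff₀ hM']
    have : (M : ℝ) ≤ 6 * m := by exact_mod_cast h1
    nlinarith [pi_pos]
  have ht2 : π * m / M ≤ 5 * π / 6 := by
    rw [div_le_iff₀ hM']
    have : (6 * m : ℝ) ≤ 5 * M := by exact_mod_cast h2
    nlinarith [pi_pos]
  unfold sg
  rcases le_or_gt (π * m / M) (π / 2) with h | h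
  · exact key _ ht1 h
  · rw [← Real.sin_pi_sub]
    exact key _ (by linarith only [ht2]) (by linarith only [h])

theorem sg_le_one {M m : ℕ} (hM : 0 < M) (h0 : m ≤ M) (h : 6 * m ≤ M ∨ 5 * M ≤ 6 * m) :
    sg M m ≤ 1 := by
  have hM' : (0 : ℝ) < M := by exact_mod_cast hM
  have key : ∀ t : ℝ, 0 ≤ t → t ≤ π / 6 → 2 * Real.sin t ≤ 1 := by
    intro t ht1 ht2
    have := Real.sin_le_sin_of_le_of_le_pi_div_two (by linarith only [ht2, ht1]) (by linarith only [ht2,
                                                                                       ht1]) ht2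
    rw [Real.sin_pi_div_six] at this
    linarith only [this]
  have hm : (0 : ℝ) ≤ π * m / M := by positivity
  have hmM : π * m / M ≤ π := by
    rw [div_le_iff₀ hM']
    have : (m : ℝ) ≤ M := by exact_mod_cast h0
    nlinarith [pi_pos]
  unfold sg
  rcases h with h | h
  · apply key _ hm
    rw [div_le_iff₀ hM']
    have : (6 * m : ℝ) ≤ M := by exact_mod_cast h
    nlinarith [pi_pos]
  · rw [← Real.sin_pi_sub]
    apply key _ (by linarith only [hmM])
    have : 5 * π / 6 ≤ π * m / M := by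
      rw [le_div_iff₀ hM']
      have : (5 * M : ℝ) ≤ 6 * m := by exact_mod_cast h
      nlinarith [pi_pos]
    linarith only [this]

/-- Lower bound: the maximal partial product. -/
theorem le_S_sq {M j : ℕ} (hM : 0 < M) (hj1 : 6 * j ≤ 5 * M) (hj2 : 5 * M < 6 * j + 6) (hjM : j < M) :
    M * P M ≤ S M j ^ 2 := by
  have hSM := S_mul hjM
  have hk : M - 1 - j ≤ j := by omega
  have h1 := S_split (M := M) hk
  have h2 : P M = ∏ m ∈ Finset.Ico (M - 1 - j + 1) (j + 1), max (sg M m) 1 := by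
    unfold P
    symm
    apply Finset.prod_subset
    · intro m hm
      rw [Finset.mem_Ico] at hm ⊢
      omega
    · intro m hm hm2
      rw [Finset.mem_Ico] at hm hm2
      rw [max_eq_right]
      apply sg_le_one hM (by omega)
      omega
  have h3 : ∏ m ∈ Finset.Ico (M - 1 - j + 1) (j + 1), max (sg M m) 1
      = ∏ m ∈ Finset.Ico (M - 1 - j + 1) (j + 1), sg M m := by
    apply Finset.prod_congr rfl
    intro m hm
    rw [Finset.mem_Ico] at hm
    exact max_eq_left (sg_ge_one hM (by omega) (by omega))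
  calc (M : ℝ) * P M = (S M j * S M (M - 1 - j)) * ∏ m ∈ Finset.Ico (M - 1 - j + 1) (j + 1), sg M m := by
        rw [hSM, h2, h3]
    _ = S M j * (S M (M - 1 - j) * ∏ m ∈ Finset.Ico (M - 1 - j + 1) (j + 1), sg M m) := by ring
    _ = S M j ^ 2 := by rw [← h1]; ring
    _ ≤ _ := le_rfl


theorem riemann_sum (h : ℝ → ℝ) (hc : Continuous h) :
    Tendsto (fun M : ℕ => (∑ m ∈ Finset.range M, h (m / M)) / M) atTop (𝓝 (∫ x in (0:ℝ)..1, h x)) := by
  rw [Metric.tendsto_atTop]
  intro ε hε
  have huc : UniformContinuousOn h (Set.Icc 0 1) :=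
    isCompact_Icc.uniformContinuousOn_of_continuous hc.continuousOn
  rw [Metric.uniformContinuousOn_iff] at huc
  obtain ⟨δ, hδ, hδh⟩ := huc (ε / 2) (by positivity)
  obtain ⟨N, hN⟩ := exists_nat_gt (1 / δ)
  refine ⟨N + 1, fun M hM => ?_⟩
  have hM0 : (0 : ℝ) < M := by exact_mod_cast (by omega : 0 < M)
  have hM1 : 1 / (M : ℝ) < δ := by
    rw [div_lt_iff₀ hM0]
    rw [div_lt_iff₀ hδ] at hN
    have : (N : ℝ) ≤ M := by exact_mod_cast (by omega : N ≤ M)
    nlinarith
  have hint : ∀ a b : ℝ, IntervalIntegrable h volume a b := fun a b => hc.intervalIntegrable a b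
  have hsum : ∫ x in (0:ℝ)..1, h x = ∑ m ∈ Finset.range M, ∫ x in ((m : ℝ) / M)..((m + 1 : ℕ) : ℝ) / M, h x := by
    rw [intervalIntegral.sum_integral_adjacent_intervals (a := fun m : ℕ => (m : ℝ) / M)
      (fun k _ => hint _ _)]
    simp [hM0.ne']
  rw [Real.dist_eq, hsum, Finset.sum_div, ← Finset.sum_sub_distrib]
  have hterm : ∀ m ∈ Finset.range M, |h (m / M) / M - ∫ x in ((m : ℝ) / M)..((m + 1 : ℕ) : ℝ) / M, h x|
      ≤ ε / 2 / M := by
    intro m hm
    rw [Finset.mem_range] at hm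
    have hmM : ((m : ℝ) + 1) / M ≤ 1 := by
      rw [div_le_one hM0]
      exact_mod_cast hm
    have e1 : h (m / M) / M = ∫ x in ((m : ℝ) / M)..((m + 1 : ℕ) : ℝ) / M, h (m / M) := by
      rw [intervalIntegral.integral_const, smul_eq_mul]
      push_cast
      field_simp
      ring
    rw [e1, ← intervalIntegral.integral_sub (by simp) (hint _ _)]
    have h2 := intervalIntegral.norm_integral_le_of_norm_le_const
      (a := (m : ℝ) / M) (b := ((m + 1 : ℕ) : ℝ) / M) (C := ε / 2)
      (f := fun x => h (m / M) - h x) (by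
        intro x hx
        push_cast at hx
        rw [Set.uIoc_of_le (by gcongr; linarith only [])] at hx
        have hm0 : (0 : ℝ) ≤ m / M := by positivity
        rw [Real.norm_eq_abs, ← Real.dist_eq]
        apply (hδh _ ⟨hm0, hx.1.le.trans (hx.2.trans hmM)⟩ _ ⟨hm0.trans hx.1.le, hx.2.trans hmM⟩ _).le
        rw [Real.dist_eq, abs_sub_comm, abs_of_pos (by linarith only [hx.1])]
        have : x ≤ m / M + 1 / M := by rw [← add_div]; exact hx.2
        linarith only [this, hM1])
    rw [Real.norm_eq_abs] at h2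
    refine h2.trans (le_of_eq ?_)
    push_cast
    rw [abs_of_pos (by rw [← sub_div]; simp [hM0])]
    field_simp
    ring
  calc |∑ m ∈ Finset.range M, (h (m / M) / M - ∫ x in ((m : ℝ) / M)..((m + 1 : ℕ) : ℝ) / M, h x)|
      ≤ ∑ m ∈ Finset.range M, |h (m / M) / M - ∫ x in ((m : ℝ) / M)..((m + 1 : ℕ) : ℝ) / M, h x| :=
        Finset.abs_sum_le_sum_abs _ _
    _ ≤ ∑ m ∈ Finset.range M, ε / 2 / M := Finset.sum_le_sum hterm
    _ = ε / 2 := by
        rw [Finset.sum_const, Finset.card_range, nsmul_eq_mul]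
        field_simp
    _ < ε := by linarith only [hε]


theorem ii (a b : ℝ) : IntervalIntegrable (fun t => Real.log (Real.sin t)) volume a b :=
  intervalIntegrable_log_sin

theorem iic (a b : ℝ) : IntervalIntegrable (fun t => Real.log (Real.cos t)) volume a b :=
  intervalIntegrable_log_cos

theorem ae_log (a b : ℝ) (hab : a ≤ b) (ha : 0 ≤ a) (hb : b ≤ π) :
    ∫ t in a..b, Real.log |2 * Real.sin t| = (b - a) * Real.log 2 + ∫ t in a..b, Real.log (Real.sin t) := by
  have h1 : ∫ t in a..b, Real.log |2 * Real.sin t| = ∫ t in a..b, (Real.log 2 + Real.log (Real.sin t)) := by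
    apply intervalIntegral.integral_congr_ae
    have hne : ∀ᵐ t : ℝ ∂volume, t ≠ π := by
      simp [ae_iff, measure_singleton]
    filter_upwards [hne] with t ht htab
    rw [Set.uIoc_of_le hab] at htab
    have hs : 0 < Real.sin t := Real.sin_pos_of_pos_of_lt_pi (lt_of_le_of_lt ha htab.1)
      (lt_of_le_of_ne (htab.2.trans hb) ht)
    rw [Real.log_abs, Real.log_mul two_ne_zero hs.ne']
  rw [h1, intervalIntegral.integral_add (by simp) (ii a b), intervalIntegral.integral_const, smul_eq_mul]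

theorem log_cos_int : ∫ t in (0 : ℝ)..(π / 6), Real.log (Real.cos t)
    = (∫ t in (0 : ℝ)..(π / 2), Real.log (Real.sin t)) - ∫ t in (0 : ℝ)..(π / 3), Real.log (Real.sin t) := by
  have h1 : ∫ t in (0 : ℝ)..(π / 6), Real.log (Real.cos t)
      = ∫ t in (0 : ℝ)..(π / 6), Real.log (Real.sin (π / 2 - t)) := by
    simp [Real.sin_pi_div_two_sub]
  rw [h1, intervalIntegral.integral_comp_sub_left (fun t => Real.log (Real.sin t)) (π / 2)]
  have e1 : π / 2 - π / 6 = π / 3 := by ring
  rw [e1, sub_zero]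
  have h2 := intervalIntegral.integral_add_adjacent_intervals (ii 0 (π / 3)) (ii (π / 3) (π / 2))
  linarith only [h2]

theorem dup : 3 * ∫ t in (0 : ℝ)..(π / 3), Real.log (Real.sin t)
    = 2 * (∫ t in (0 : ℝ)..(π / 6), Real.log (Real.sin t)) - 2 * π / 3 * Real.log 2 := by
  have h1 : ∫ t in (0 : ℝ)..(π / 6), Real.log (Real.sin (2 * t))
      = (1 / 2) * ∫ t in (0 : ℝ)..(π / 3), Real.log (Real.sin t) := by
    rw [intervalIntegral.integral_comp_mul_left (fun t => Real.log (Real.sin t)) two_ne_zero]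
    have e1 : 2 * (π / 6) = π / 3 := by ring
    rw [e1, mul_zero, smul_eq_mul]
    ring
  have h2 : ∫ t in (0 : ℝ)..(π / 6), Real.log (Real.sin (2 * t))
      = ∫ t in (0 : ℝ)..(π / 6), (Real.log 2 + (Real.log (Real.sin t) + Real.log (Real.cos t))) := by
    apply intervalIntegral.integral_congr_ae
    filter_upwards with t ht
    rw [Set.uIoc_of_le (by positivity)] at ht
    have hs : 0 < Real.sin t := Real.sin_pos_of_pos_of_lt_pi ht.1 (by linarith only [pi_pos, ht.2])
    have hc : 0 < Real.cos t := Real.cos_pos_of_mem_Ioo ⟨by linarith only [pi_pos, ht.1], by linarith only [pi_pos,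
                                                                                               ht.2]⟩
    rw [Real.sin_two_mul, Real.log_mul (by positivity) hc.ne', Real.log_mul two_ne_zero hs.ne']
    ring
  rw [h2, intervalIntegral.integral_add (by simp) ((ii _ _).add (iic _ _)),
    intervalIntegral.integral_add (ii _ _) (iic _ _), intervalIntegral.integral_const, smul_eq_mul,
    log_cos_int] at h1
  have h3 : ∫ t in (0 : ℝ)..(π / 2), Real.log (Real.sin t) = -Real.log 2 * π / 2 :=
    integral_log_sin_zero_pi_div_two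
  rw [h3] at h1
  linarith only [h1]

theorem mid : ∫ t in (π / 6)..(5 * π / 6), Real.log (Real.sin t)
    = - (π * Real.log 2) - 2 * ∫ t in (0 : ℝ)..(π / 6), Real.log (Real.sin t) := by
  have h1 := intervalIntegral.integral_add_adjacent_intervals (ii 0 (π / 6)) (ii (π / 6) (5 * π / 6))
  have h2 := intervalIntegral.integral_add_adjacent_intervals (ii 0 (5 * π / 6)) (ii (5 * π / 6) π)
  have h3 : ∫ t in (5 * π / 6)..π, Real.log (Real.sin t) = ∫ t in (0 : ℝ)..(π / 6), Real.log (Real.sin t) := by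
    have e : ∫ t in (0 : ℝ)..(π / 6), Real.log (Real.sin t)
        = ∫ t in (0 : ℝ)..(π / 6), Real.log (Real.sin (π - t)) := by simp [Real.sin_pi_sub]
    rw [e, intervalIntegral.integral_comp_sub_left (fun t => Real.log (Real.sin t)) π]
    have e1 : π - π / 6 = 5 * π / 6 := by ring
    rw [e1, sub_zero]
  have h4 : ∫ t in (0 : ℝ)..π, Real.log (Real.sin t) = -Real.log 2 * π := integral_log_sin_zero_pi
  linarith only [h4, h3, h2, h1]

theorem cont_h : Continuous (fun x : ℝ => Real.log (max (2 * Real.sin (π * x)) 1)) := by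
  apply Continuous.log
  · fun_prop
  · intro x
    exact (lt_of_lt_of_le one_pos (le_max_right _ _)).ne'

theorem cont_g : Continuous (fun x : ℝ => Real.log (max (2 * Real.sin x) 1)) := by
  apply Continuous.log
  · fun_prop
  · intro x
    exact (lt_of_lt_of_le one_pos (le_max_right _ _)).ne'

theorem main_int : π * ∫ x in (0 : ℝ)..1, Real.log (max (2 * Real.sin (π * x)) 1) = 3 * lob (π / 3) := by
  have hg : ∀ a b : ℝ, IntervalIntegrable (fun x : ℝ => Real.log (max (2 * Real.sin x) 1)) volume a b :=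
    fun a b => cont_g.intervalIntegrable a b
  have h1 : ∫ x in (0 : ℝ)..1, Real.log (max (2 * Real.sin (π * x)) 1)
      = π⁻¹ * ∫ t in (0 : ℝ)..π, Real.log (max (2 * Real.sin t) 1) := by
    rw [intervalIntegral.integral_comp_mul_left (fun t => Real.log (max (2 * Real.sin t) 1)) pi_ne_zero]
    simp
  rw [h1, ← mul_assoc, mul_inv_cancel₀ pi_ne_zero, one_mul]
  have h2 := intervalIntegral.integral_add_adjacent_intervals (hg 0 (π / 6)) (hg (π / 6) (5 * π / 6))
  have h3 := intervalIntegral.integral_add_adjacent_intervals (hg 0 (5 * π / 6)) (hg (5 * π / 6) π)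
  have h4 : ∫ x in (0 : ℝ)..(π / 6), Real.log (max (2 * Real.sin x) 1) = 0 := by
    have : ∫ x in (0 : ℝ)..(π / 6), Real.log (max (2 * Real.sin x) 1) = ∫ x in (0 : ℝ)..(π / 6), (0 : ℝ) := by
      apply intervalIntegral.integral_congr
      intro t ht
      rw [Set.uIcc_of_le (by positivity)] at ht
      have : Real.sin t ≤ Real.sin (π / 6) :=
        Real.sin_le_sin_of_le_of_le_pi_div_two (by linarith only [pi_pos, ht.1]) (by linarith only [pi_pos]) ht.2
      rw [Real.sin_pi_div_six] at this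
      simp only
      rw [max_eq_right (by linarith only [this]), Real.log_one]
    rw [this]; simp
  have h5 : ∫ x in (5 * π / 6)..π, Real.log (max (2 * Real.sin x) 1) = 0 := by
    have : ∫ x in (5 * π / 6)..π, Real.log (max (2 * Real.sin x) 1) = ∫ x in (5 * π / 6)..π, (0 : ℝ) := by
      apply intervalIntegral.integral_congr
      intro t ht
      rw [Set.uIcc_of_le (by linarith only [pi_pos])] at ht
      have : Real.sin (π - t) ≤ Real.sin (π / 6) :=
        Real.sin_le_sin_of_le_of_le_pi_div_two (by linarith only [pi_pos, ht.2]) (by linarith only [pi_pos])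
          (by linarith only [ht.1])
      rw [Real.sin_pi_div_six, Real.sin_pi_sub] at this
      simp only
      rw [max_eq_right (by linarith only [this]), Real.log_one]
    rw [this]; simp
  have h6 : ∫ x in (π / 6)..(5 * π / 6), Real.log (max (2 * Real.sin x) 1)
      = ∫ x in (π / 6)..(5 * π / 6), Real.log |2 * Real.sin x| := by
    apply intervalIntegral.integral_congr
    intro t ht
    rw [Set.uIcc_of_le (by linarith only [pi_pos])] at ht
    have key : ∀ t : ℝ, π / 6 ≤ t → t ≤ π / 2 → 1 ≤ 2 * Real.sin t := by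
      intro t ht1 ht2
      have := Real.sin_le_sin_of_le_of_le_pi_div_two (by linarith only [ht2, ht1]) ht2 ht1
      rw [Real.sin_pi_div_six] at this
      linarith only [this]
    have h1 : 1 ≤ 2 * Real.sin t := by
      rcases le_or_gt t (π / 2) with h | h
      · exact key t ht.1 h
      · rw [← Real.sin_pi_sub]
        exact key _ (by linarith only [ht.2]) (by linarith only [h])
    simp only
    rw [max_eq_left h1, Real.log_abs]
  have h7 := ae_log (π / 6) (5 * π / 6) (by linarith only [pi_pos]) (by positivity) (by linarith only [pi_pos])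
  have h8 := ae_log 0 (π / 3) (by positivity) le_rfl (by linarith only [pi_pos])
  have h9 := mid
  have h10 := dup
  unfold lob
  rw [h8]
  linarith only [h10, h9, h7, h6, h5, h4, h3, h2]

/-! ### The terms of the sum -/

/-- The factor `f_i` of the terms, in terms of `sg`. -/
noncomputable def fac (M n a i : ℕ) : ℝ :=
  sg M (a + i) * sg M (n - a + i) * (sg M (n - 1 + i) / sg M (i + 1))

/-- The `k`-th term of the sum. -/
noncomputable def T (M n a k : ℕ) : ℝ := ∏ i ∈ Finset.range k, fac M n a i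

theorem cb_exp (M : ℕ) (m : ℤ) :
    cb (Complex.exp (π * Complex.I / M) ^ m) = (2 * Real.sin (π * m / M) : ℝ) * Complex.I := by
  unfold cb
  rw [← Complex.exp_int_mul, ← Complex.exp_neg]
  have e1 : (m : ℂ) * (π * Complex.I / M) = ((π * m / M : ℝ) : ℂ) * Complex.I := by
    push_cast; ring
  rw [e1]
  set θ : ℝ := π * m / M
  have h := Complex.two_sin (θ : ℂ)
  have hI : Complex.I * Complex.I = -1 := Complex.I_mul_I
  push_cast
  rw [h, mul_assoc, hI]
  ring_nf

theorem sin_shift {M : ℕ} (hM : 0 < M) (j : ℕ) :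
    2 * Real.sin (π * ((M : ℝ) + j) / M) = - sg M j := by
  have hM' : (M : ℝ) ≠ 0 := by exact_mod_cast hM.ne'
  unfold sg
  have : π * ((M : ℝ) + j) / M = π * j / M + π := by field_simp; ring
  rw [this, Real.sin_add_pi]
  ring

theorem sin_refl {M : ℕ} (hM : 0 < M) (j : ℕ) :
    2 * Real.sin (π * ((M : ℝ) - j) / M) = sg M j := by
  have hM' : (M : ℝ) ≠ 0 := by exact_mod_cast hM.ne'
  unfold sg
  have : π * ((M : ℝ) - j) / M = π - π * j / M := by field_simp
  rw [this, Real.sin_pi_sub]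

theorem factor_eq (n a N i : ℕ) (ha : 1 ≤ a) (han : a ≤ n - 1) (hn : 2 ≤ n) (hi : i < N) :
    (cb (Complex.exp (π * Complex.I / ((N + a : ℕ) : ℂ)) ^ ((N : ℤ) - i)) /
      cb (Complex.exp (π * Complex.I / ((N + a : ℕ) : ℂ)) ^ ((i : ℤ) + 1))) *
      (cb (Complex.exp (π * Complex.I / ((N + a : ℕ) : ℂ)) ^ n *
        Complex.exp (π * Complex.I / ((N + a : ℕ) : ℂ)) ^ ((N : ℤ) + i)) *
       cb (Complex.exp (π * Complex.I / ((N + a : ℕ) : ℂ)) ^ n *
        Complex.exp (π * Complex.I / ((N + a : ℕ) : ℂ)) ^ ((i : ℤ) - 1)))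
      = ((fac (N + a) n a i : ℝ) : ℂ) := by
  have hM : 0 < N + a := by omega
  have hq : Complex.exp (π * Complex.I / ((N + a : ℕ) : ℂ)) ≠ 0 := Complex.exp_ne_zero _
  rw [← zpow_natCast (Complex.exp (π * Complex.I / ((N + a : ℕ) : ℂ))) n, ← zpow_add₀ hq,
    ← zpow_add₀ hq, cb_exp, cb_exp, cb_exp, cb_exp]
  have e1 : 2 * Real.sin (π * (((N : ℤ) - (i : ℤ) : ℤ) : ℝ) / ((N + a : ℕ) : ℝ)) = sg (N + a) (a + i) := by
    rw [← sin_refl hM (a + i)]
    push_cast
    congr 3
    ring
  have e2 : 2 * Real.sin (π * (((i : ℤ) + 1 : ℤ) : ℝ) / ((N + a : ℕ) : ℝ)) = sg (N + a) (i + 1) := by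
    unfold sg
    push_cast
    rfl
  have e3 : 2 * Real.sin (π * (((n : ℤ) + ((N : ℤ) + i) : ℤ) : ℝ) / ((N + a : ℕ) : ℝ))
      = - sg (N + a) (n - a + i) := by
    rw [← sin_shift hM (n - a + i)]
    rw [Nat.cast_add (n - a) i, Nat.cast_sub (by omega : a ≤ n)]
    push_cast
    congr 3
    ring
  have e4 : 2 * Real.sin (π * (((n : ℤ) + ((i : ℤ) - 1) : ℤ) : ℝ) / ((N + a : ℕ) : ℝ))
      = sg (N + a) (n - 1 + i) := by
    unfold sg
    rw [Nat.cast_add (n - 1) i, Nat.cast_sub (by omega : 1 ≤ n)]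
    push_cast
    congr 3
    ring
  rw [e1, e2, e3, e4]
  have hpos : 0 < sg (N + a) (i + 1) := sg_pos (by omega) (by omega)
  have hne : ((sg (N + a) (i + 1) : ℝ) : ℂ) ≠ 0 := by exact_mod_cast hpos.ne'
  have hI : Complex.I ≠ 0 := Complex.I_ne_zero
  have hII : Complex.I ^ 2 = -1 := Complex.I_sq
  unfold fac
  push_cast
  field_simp
  rw [hII]
  ring

theorem su_eq_sum (n a N : ℕ) (ha : 1 ≤ a) (han : a ≤ n - 1) (hn : 2 ≤ n) :
    suFigureEight n N (Complex.exp (π * Complex.I / ((N + a : ℕ) : ℂ)))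
      = ((∑ k ∈ Finset.range (N + 1), T (N + a) n a k : ℝ) : ℂ) := by
  unfold suFigureEight homflyFigureEight T
  rw [Complex.ofReal_sum]
  apply Finset.sum_congr rfl
  intro k hk
  rw [Finset.mem_range] at hk
  rw [Complex.ofReal_prod]
  apply Finset.prod_congr rfl
  intro i hi
  rw [Finset.mem_range] at hi
  exact factor_eq n a N i ha han hn (by omega)

theorem S_mul_prod (M c k : ℕ) (hc : 1 ≤ c) :
    S M (c - 1) * ∏ i ∈ Finset.range k, sg M (c + i) = S M (c - 1 + k) := by
  induction k with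
  | zero => simp
  | succ k ih =>
    rw [Finset.prod_range_succ, ← mul_assoc, ih, ← add_assoc, S_succ]
    congr 2
    omega

theorem S_zero (M : ℕ) : S M 0 = 1 := by simp [S]

/-- formula for the nonzero terms -/
theorem T_eq (M n a k : ℕ) (ha : 1 ≤ a) (han : a ≤ n - 1) (hn : 2 ≤ n) (hk : k + n ≤ M + 1) :
    T M n a k = S M (a - 1 + k) * S M (n - a - 1 + k) * S M (n - 2 + k) /
      (S M (a - 1) * S M (n - a - 1) * S M (n - 2) * S M k) := by
  have h1 := S_mul_prod M a k ha
  have h2 := S_mul_prod M (n - a) k (by omega)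
  have h3 := S_mul_prod M (n - 1) k (by omega)
  have h4 := S_mul_prod M 1 k le_rfl
  have hS1 : 0 < S M (a - 1) := S_pos (by omega)
  have hS2 : 0 < S M (n - a - 1) := S_pos (by omega)
  have hS3 : 0 < S M (n - 2) := S_pos (by omega)
  have hS4 : 0 < S M k := S_pos (by omega)
  have e3 : n - 1 - 1 = n - 2 := by omega
  rw [e3] at h3
  have h4' : ∏ i ∈ Finset.range k, sg M (i + 1) = S M k := by
    have : S M (1 - 1 + k) = S M k := by congr 1; omega
    rw [← this, ← h4]
    have : S M (1 - 1) = 1 := S_zero M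
    rw [this, one_mul]
    apply Finset.prod_congr rfl
    intro i _
    rw [add_comm]
  have h5 : T M n a k = (∏ i ∈ Finset.range k, sg M (a + i)) * (∏ i ∈ Finset.range k, sg M (n - a + i))
      * ((∏ i ∈ Finset.range k, sg M (n - 1 + i)) / ∏ i ∈ Finset.range k, sg M (i + 1)) := by
    unfold T fac
    rw [← Finset.prod_div_distrib, ← Finset.prod_mul_distrib, ← Finset.prod_mul_distrib]
  rw [h5, h4', ← h1, ← h2, ← h3]
  field_simp

theorem sg_self {M : ℕ} (hM : 0 < M) : sg M M = 0 := by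
  have hM' : (M : ℝ) ≠ 0 := by exact_mod_cast hM.ne'
  unfold sg
  rw [mul_div_assoc, div_self hM', mul_one, Real.sin_pi, mul_zero]

theorem T_eq_zero (M n a k : ℕ) (hn : 2 ≤ n) (hM : n ≤ M) (hk : M + 1 < k + n) : T M n a k = 0 := by
  unfold T
  apply Finset.prod_eq_zero (i := M + 1 - n)
  · rw [Finset.mem_range]; omega
  · unfold fac
    have : n - 1 + (M + 1 - n) = M := by omega
    rw [this, sg_self (by omega)]
    simp

theorem sg_le_two (M m : ℕ) : sg M m ≤ 2 := by
  unfold sg
  linarith only [Real.sin_le_one (π * m / M)]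

theorem sg_ge {M m : ℕ} (h1 : 1 ≤ m) (h2 : m < M) : 1 / (M : ℝ) ≤ sg M m := by
  have hM : (0 : ℝ) < M := by exact_mod_cast (by omega : 0 < M)
  have key : ∀ j : ℕ, 1 ≤ j → 2 * j ≤ M → 1 / (M : ℝ) ≤ sg M j := by
    intro j hj1 hj2
    have hj1' : (1 : ℝ) ≤ j := by exact_mod_cast hj1
    have hj2' : (2 * j : ℝ) ≤ M := by exact_mod_cast hj2
    have h3 := Real.mul_le_sin (x := π * j / M) (by positivity) (by
      rw [div_le_iff₀ hM]; nlinarith [pi_pos])
    unfold sg
    have h4 : 2 / π * (π * j / M) = 2 * j / M := by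
      field_simp
    rw [h4] at h3
    have h5 : 1 / (M : ℝ) ≤ 2 * (2 * j / M) := by
      rw [← mul_div_assoc]
      apply div_le_div_of_nonneg_right _ hM.le
      linarith only [hj1']
    linarith only [h5, h3]
  rcases le_or_gt (2 * m) M with h | h
  · exact key m h1 h
  · rw [← sg_symm h2.le (by omega)]
    exact key (M - m) (by omega) (by omega)

theorem S_le (M k : ℕ) (h : k < M) : S M k ≤ 2 ^ k := by
  unfold S
  have : ∏ m ∈ Finset.Ico 1 (k + 1), sg M m ≤ ∏ m ∈ Finset.Ico 1 (k + 1), (2 : ℝ) := by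
    apply Finset.prod_le_prod
    · intro m hm
      rw [Finset.mem_Ico] at hm
      exact (sg_pos hm.1 (by omega)).le
    · intro m _
      exact sg_le_two M m
  simpa using this

theorem S_ge (M k : ℕ) (h : k < M) : (1 / (M : ℝ)) ^ k ≤ S M k := by
  unfold S
  have : ∏ m ∈ Finset.Ico 1 (k + 1), (1 / (M : ℝ)) ≤ ∏ m ∈ Finset.Ico 1 (k + 1), sg M m := by
    apply Finset.prod_le_prod
    · intro m _
      positivity
    · intro m hm
      rw [Finset.mem_Ico] at hm
      exact sg_ge hm.1 (by omega)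
  simpa using this

theorem S_shift_le (M k c : ℕ) (h : k + c < M) : S M (c + k) ≤ S M k * 2 ^ c := by
  rw [add_comm c k, S_split (M := M) (Nat.le_add_right k c)]
  apply mul_le_mul_of_nonneg_left _ (S_pos (by omega)).le
  have : ∏ m ∈ Finset.Ico (k + 1) (k + c + 1), sg M m ≤ ∏ m ∈ Finset.Ico (k + 1) (k + c + 1), (2 : ℝ) := by
    apply Finset.prod_le_prod
    · intro m hm
      rw [Finset.mem_Ico] at hm
      exact (sg_pos (by omega) (by omega)).le
    · intro m _
      exact sg_le_two M m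
  have e : k + c + 1 - (k + 1) = c := by omega
  simpa [e] using this

theorem sg_ge_third {M m : ℕ} (hM : 0 < M) (h1 : M ≤ 6 * m) (h2 : 12 * m ≤ 11 * M) :
    1 / 3 ≤ sg M m := by
  have hM' : (0 : ℝ) < M := by exact_mod_cast hM
  rcases le_or_gt (6 * m) (5 * M) with h | h
  · linarith only [sg_ge_one hM h1 h]
  · rw [← sg_symm (by omega) hM]
    have hmM : m ≤ M := by omega
    have hj : (M : ℝ) ≤ 12 * ((M - m : ℕ) : ℝ) := by
      have : M ≤ 12 * (M - m) := by omega
      exact_mod_cast this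
    have hj2 : 2 * ((M - m : ℕ) : ℝ) ≤ M := by
      have : 2 * (M - m) ≤ M := by omega
      exact_mod_cast this
    have h3 := Real.mul_le_sin (x := π * ((M - m : ℕ) : ℝ) / M) (by positivity) (by
      rw [div_le_iff₀ hM']; nlinarith [pi_pos])
    unfold sg
    have h4 : 2 / π * (π * ((M - m : ℕ) : ℝ) / M) = 2 * ((M - m : ℕ) : ℝ) / M := by
      field_simp
    rw [h4] at h3
    have h5 : 1 / 6 ≤ 2 * ((M - m : ℕ) : ℝ) / M := by
      rw [le_div_iff₀ hM']
      linarith only [hj]
    linarith only [h5, h3]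

theorem S_shift_ge (M k c : ℕ) (hM : 0 < M) (h1 : M ≤ 6 * (k + 1)) (h2 : 12 * (k + c) ≤ 11 * M) :
    S M k * (1 / 3) ^ c ≤ S M (c + k) := by
  rw [add_comm c k, S_split (M := M) (Nat.le_add_right k c)]
  apply mul_le_mul_of_nonneg_left _ (S_pos (by omega)).le
  have : ∏ m ∈ Finset.Ico (k + 1) (k + c + 1), (1 / 3 : ℝ) ≤ ∏ m ∈ Finset.Ico (k + 1) (k + c + 1), sg M m := by
    apply Finset.prod_le_prod
    · intro m _
      norm_num
    · intro m hm
      rw [Finset.mem_Ico] at hm
      exact sg_ge_third hM (by omega) (by omega)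
  have e : k + c + 1 - (k + 1) = c := by omega
  simpa [e] using this

theorem T_nonneg (M n a k : ℕ) (ha : 1 ≤ a) (han : a ≤ n - 1) (hn : 2 ≤ n) (hM : n ≤ M) :
    0 ≤ T M n a k := by
  rcases le_or_gt (k + n) (M + 1) with h | h
  · rw [T_eq M n a k ha han hn h]
    have hS1 : 0 < S M (a - 1) := S_pos (by omega)
    have hS2 : 0 < S M (n - a - 1) := S_pos (by omega)
    have hS3 : 0 < S M (n - 2) := S_pos (by omega)
    have hS4 : 0 < S M k := S_pos (by omega)
    have hS5 : 0 < S M (a - 1 + k) := S_pos (by omega)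
    have hS6 : 0 < S M (n - a - 1 + k) := S_pos (by omega)
    have hS7 : 0 < S M (n - 2 + k) := S_pos (by omega)
    positivity
  · rw [T_eq_zero M n a k hn hM h]

theorem T_le (M n a k : ℕ) (ha : 1 ≤ a) (han : a ≤ n - 1) (hn : 2 ≤ n) (hM : n ≤ M) :
    T M n a k ≤ (M * P M) * (2 ^ (n - 2) * (M : ℝ) ^ (2 * (n - 2))) := by
  have hM0 : (0 : ℝ) < M := by exact_mod_cast (by omega : 0 < M)
  have hP := P_ge_one M
  rcases le_or_gt (k + n) (M + 1) with h | h
  · rw [T_eq M n a k ha han hn h]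
    have hS1 : 0 < S M (a - 1) := S_pos (by omega)
    have hS2 : 0 < S M (n - a - 1) := S_pos (by omega)
    have hS3 : 0 < S M (n - 2) := S_pos (by omega)
    have hS4 : 0 < S M k := S_pos (by omega)
    have hS5 : 0 < S M (a - 1 + k) := S_pos (by omega)
    have hS6 : 0 < S M (n - a - 1 + k) := S_pos (by omega)
    have hS7 : 0 < S M (n - 2 + k) := S_pos (by omega)
    have g1 := S_sq_le (M := M) (k := a - 1 + k) (by omega)
    have g2 := S_sq_le (M := M) (k := n - a - 1 + k) (by omega)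
    have g3 := S_shift_le M k (n - 2) (by omega)
    have g4 : S M (a - 1 + k) * S M (n - a - 1 + k) ≤ M * P M := by
      linarith only [sq_nonneg (S M (a - 1 + k) - S M (n - a - 1 + k)), g2, g1]
    have g5 := S_ge M (a - 1) (by omega)
    have g6 := S_ge M (n - a - 1) (by omega)
    have g7 := S_ge M (n - 2) (by omega)
    have g8 : (1 / (M : ℝ)) ^ (2 * (n - 2)) ≤ S M (a - 1) * S M (n - a - 1) * S M (n - 2) := by
      have e : 2 * (n - 2) = (a - 1) + (n - a - 1) + (n - 2) := by omega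
      rw [e, pow_add, pow_add]
      gcongr
    rw [div_le_iff₀ (by positivity)]
    have e9 : (M : ℝ) ^ (2 * (n - 2)) * (1 / (M : ℝ)) ^ (2 * (n - 2)) = 1 := by
      rw [← mul_pow]
      rw [mul_one_div_cancel hM0.ne', one_pow]
    calc S M (a - 1 + k) * S M (n - a - 1 + k) * S M (n - 2 + k)
        ≤ (M * P M) * (S M k * 2 ^ (n - 2)) := by gcongr
      _ = (M * P M) * (2 ^ (n - 2) * ((M : ℝ) ^ (2 * (n - 2)) * (1 / (M : ℝ)) ^ (2 * (n - 2)))) * S M k := by
          rw [e9]; ring
      _ ≤ (M * P M) * (2 ^ (n - 2) * ((M : ℝ) ^ (2 * (n - 2)) * (S M (a - 1) * S M (n - a - 1) * S M (n - 2)))) * S M k := by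
          gcongr
      _ = _ := by ring
  · rw [T_eq_zero M n a k hn hM h]
    positivity

theorem le_T (M n a : ℕ) (ha : 1 ≤ a) (han : a ≤ n - 1) (hn : 2 ≤ n) (hM : 12 * n ≤ M) :
    (M * P M) * (1 / 6) ^ (2 * (n - 2)) ≤ T M n a (5 * M / 6) := by
  have hP := P_ge_one M
  set j := 5 * M / 6 with hj
  have hj1 : 6 * j ≤ 5 * M := by omega
  have hj2 : 5 * M < 6 * j + 6 := by omega
  rw [T_eq M n a j ha han hn (by omega)]
  have hS1 : 0 < S M (a - 1) := S_pos (by omega)
  have hS2 : 0 < S M (n - a - 1) := S_pos (by omega)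
  have hS3 : 0 < S M (n - 2) := S_pos (by omega)
  have hS4 : 0 < S M j := S_pos (by omega)
  have hS5 : 0 < S M (a - 1 + j) := S_pos (by omega)
  have hS6 : 0 < S M (n - a - 1 + j) := S_pos (by omega)
  have g1 := le_S_sq (M := M) (j := j) (by omega) hj1 hj2 (by omega)
  have g2 := S_shift_ge M j (a - 1) (by omega) (by omega) (by omega)
  have g3 := S_shift_ge M j (n - a - 1) (by omega) (by omega) (by omega)
  have g4 := S_shift_ge M j (n - 2) (by omega) (by omega) (by omega)
  have g5 := S_le M (a - 1) (by omega)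
  have g6 := S_le M (n - a - 1) (by omega)
  have g7 := S_le M (n - 2) (by omega)
  rw [le_div_iff₀ (by positivity)]
  have e2 : (1 / 6 : ℝ) ^ (2 * (n - 2)) = (1 / 3) ^ (a - 1) * (1 / 3) ^ (n - a - 1) * (1 / 3) ^ (n - 2)
      * ((1 / 2) ^ (a - 1) * (1 / 2) ^ (n - a - 1) * (1 / 2) ^ (n - 2)) := by
    have e : 2 * (n - 2) = (a - 1) + (n - a - 1) + (n - 2) := by omega
    have e3 : (1 / 6 : ℝ) = (1 / 3) * (1 / 2) := by norm_num
    rw [e, e3, mul_pow, pow_add, pow_add, pow_add, pow_add]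
  have e4 : ∀ c : ℕ, (1 / 2 : ℝ) ^ c * 2 ^ c = 1 := by
    intro c
    rw [← mul_pow]; norm_num
  calc M * P M * (1 / 6) ^ (2 * (n - 2)) * (S M (a - 1) * S M (n - a - 1) * S M (n - 2) * S M j)
      ≤ (S M j ^ 2) * (1 / 6) ^ (2 * (n - 2)) * (2 ^ (a - 1) * 2 ^ (n - a - 1) * 2 ^ (n - 2) * S M j) := by
        gcongr
    _ = (S M j * (1 / 3) ^ (a - 1)) * (S M j * (1 / 3) ^ (n - a - 1)) * (S M j * (1 / 3) ^ (n - 2))
        * (((1 / 2) ^ (a - 1) * 2 ^ (a - 1)) * ((1 / 2) ^ (n - a - 1) * 2 ^ (n - a - 1))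
          * ((1 / 2) ^ (n - 2) * 2 ^ (n - 2))) := by
        rw [e2]; ring
    _ = (S M j * (1 / 3) ^ (a - 1)) * (S M j * (1 / 3) ^ (n - a - 1)) * (S M j * (1 / 3) ^ (n - 2)) := by
        rw [e4, e4, e4]; ring
    _ ≤ S M (a - 1 + j) * S M (n - a - 1 + j) * S M (n - 2 + j) := by
        gcongr

/-! ### The limit -/

theorem log_P (M : ℕ) (hM : 0 < M) :
    Real.log (P M) = ∑ m ∈ Finset.range M, Real.log (max (2 * Real.sin (π * ((m : ℝ) / M))) 1) := by
  unfold P
  rw [Real.log_prod]
  · rw [Finset.range_eq_Ico, Finset.sum_eq_sum_Ico_succ_bot hM]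
    simp only [Nat.cast_zero, zero_div, mul_zero, Real.sin_zero, zero_add]
    rw [max_eq_right zero_le_one, Real.log_one, zero_add]
    apply Finset.sum_congr rfl
    intro m _
    unfold sg
    rw [mul_div_assoc]
  · intro m _
    exact (lt_of_lt_of_le one_pos (le_max_right _ _)).ne'

theorem tendsto_log_P : Tendsto (fun M : ℕ => Real.log (P M) / M) atTop (𝓝 (3 * lob (π / 3) / π)) := by
  have h := riemann_sum (fun x : ℝ => Real.log (max (2 * Real.sin (π * x)) 1)) cont_h
  have e : ∫ x in (0 : ℝ)..1, Real.log (max (2 * Real.sin (π * x)) 1) = 3 * lob (π / 3) / π := by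
    rw [eq_div_iff pi_ne_zero, mul_comm]
    exact main_int
  rw [e] at h
  refine h.congr' ?_
  filter_upwards [eventually_gt_atTop 0] with M hM
  rw [log_P M hM]

theorem tendsto_ratio (a : ℕ) : Tendsto (fun N : ℕ => ((N + a : ℕ) : ℝ) / (N + 1)) atTop (𝓝 1) := by
  have h : Tendsto (fun N : ℕ => 1 + ((a : ℝ) - 1) / ((N : ℝ) + 1)) atTop (𝓝 (1 + 0)) :=
    tendsto_const_nhds.add (tendsto_const_nhds.div_atTop
      (tendsto_natCast_atTop_atTop.atTop_add tendsto_const_nhds))
  rw [add_zero] at h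
  refine h.congr fun N => ?_
  have : (N : ℝ) + 1 ≠ 0 := by positivity
  field_simp
  push_cast
  ring

theorem tendsto_log_ratio (a : ℕ) :
    Tendsto (fun N : ℕ => Real.log ((N + a : ℕ) : ℝ) / (N + 1)) atTop (𝓝 0) := by
  have h1 : Tendsto (fun N : ℕ => Real.log ((N + a : ℕ) : ℝ) / ((N + a : ℕ) : ℝ)) atTop (𝓝 0) := by
    have h2 : Tendsto (fun x : ℝ => Real.log x / x) atTop (𝓝 0) := by
      have := Real.isLittleO_log_id_atTop.tendsto_div_nhds_zero
      simpa using this
    exact h2.comp (tendsto_natCast_atTop_atTop.comp (tendsto_add_atTop_nat a))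
  have h3 := h1.mul (tendsto_ratio a)
  rw [zero_mul] at h3
  refine h3.congr' ?_
  filter_upwards [eventually_gt_atTop 0] with N hN
  have : ((N + a : ℕ) : ℝ) ≠ 0 := by
    have : 0 < N + a := by omega
    exact_mod_cast this.ne'
  have h4 : (N : ℝ) + 1 ≠ 0 := by positivity
  field_simp

/-- The real value of the invariant at the gap root of unity. -/
noncomputable def J (n a N : ℕ) : ℝ := ∑ k ∈ Finset.range (N + 1), T (N + a) n a k

theorem J_le (n a N : ℕ) (ha : 1 ≤ a) (han : a ≤ n - 1) (hn : 2 ≤ n) (hN : n ≤ N) :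
    J n a N ≤ (((N + a : ℕ) : ℝ) * P (N + a)) * (2 ^ (n - 2) * ((N + a : ℕ) : ℝ) ^ (2 * (n - 2) + 1)) := by
  have hP := P_ge_one (N + a)
  have h : J n a N ≤ ∑ k ∈ Finset.range (N + 1),
      (((N + a : ℕ) : ℝ) * P (N + a)) * (2 ^ (n - 2) * ((N + a : ℕ) : ℝ) ^ (2 * (n - 2))) :=
    Finset.sum_le_sum fun k _ => T_le (N + a) n a k ha han hn (by omega)
  rw [Finset.sum_const, Finset.card_range, nsmul_eq_mul] at h
  refine h.trans ?_
  have h2 : ((N + 1 : ℕ) : ℝ) ≤ ((N + a : ℕ) : ℝ) := by exact_mod_cast (by omega : N + 1 ≤ N + a)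
  calc ((N + 1 : ℕ) : ℝ) * ((((N + a : ℕ) : ℝ) * P (N + a)) * (2 ^ (n - 2) * ((N + a : ℕ) : ℝ) ^ (2 * (n - 2))))
      ≤ ((N + a : ℕ) : ℝ) * ((((N + a : ℕ) : ℝ) * P (N + a)) * (2 ^ (n - 2) * ((N + a : ℕ) : ℝ) ^ (2 * (n - 2)))) := by
        gcongr
    _ = _ := by ring

theorem le_J (n a N : ℕ) (ha : 1 ≤ a) (han : a ≤ n - 1) (hn : 2 ≤ n) (hN : 12 * n ≤ N) :
    (((N + a : ℕ) : ℝ) * P (N + a)) * (1 / 6) ^ (2 * (n - 2)) ≤ J n a N := by
  refine (le_T (N + a) n a ha han hn (by omega)).trans ?_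
  unfold J
  apply Finset.single_le_sum (f := fun k => T (N + a) n a k)
  · intro k _
    exact T_nonneg (N + a) n a k ha han hn (by omega)
  · rw [Finset.mem_range]; omega

theorem real_limit (n a : ℕ) (hn : 2 ≤ n) (ha : 1 ≤ a) (han : a ≤ n - 1) :
    Tendsto (fun N : ℕ => 2 * π * Real.log (J n a N) / (N + 1)) atTop (𝓝 volFigureEight) := by
  -- main term
  have hmain : Tendsto (fun N : ℕ => Real.log (P (N + a)) / (N + 1)) atTop (𝓝 (3 * lob (π / 3) / π)) := by
    have h1 := (tendsto_log_P.comp (tendsto_add_atTop_nat a)).mul (tendsto_ratio a)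
    rw [mul_one] at h1
    refine h1.congr' ?_
    filter_upwards [eventually_gt_atTop 0] with N hN
    have h3 : ((N + a : ℕ) : ℝ) ≠ 0 := by
      have : 0 < N + a := by omega
      exact_mod_cast this.ne'
    have h4 : (N : ℝ) + 1 ≠ 0 := by positivity
    simp only [Function.comp]
    field_simp
  have hlog := tendsto_log_ratio a
  have hconst : ∀ c : ℝ, Tendsto (fun N : ℕ => c / ((N : ℝ) + 1)) atTop (𝓝 0) := fun c =>
    tendsto_const_nhds.div_atTop (tendsto_natCast_atTop_atTop.atTop_add tendsto_const_nhds)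
  have hlow : Tendsto (fun N : ℕ => 2 * π * (Real.log ((N + a : ℕ) : ℝ) / (N + 1) + Real.log (P (N + a)) / (N + 1)
      + Real.log ((1 / 6) ^ (2 * (n - 2))) / ((N : ℝ) + 1))) atTop (𝓝 volFigureEight) := by
    have := ((hlog.add hmain).add (hconst (Real.log ((1 / 6) ^ (2 * (n - 2)))))).const_mul (2 * π)
    convert this using 2
    unfold volFigureEight
    field_simp
    ring
  have hup : Tendsto (fun N : ℕ => 2 * π * (Real.log ((N + a : ℕ) : ℝ) / (N + 1) + Real.log (P (N + a)) / (N + 1)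
      + Real.log (2 ^ (n - 2)) / ((N : ℝ) + 1)
      + ((2 * (n - 2) + 1 : ℕ) : ℝ) * (Real.log ((N + a : ℕ) : ℝ) / (N + 1)))) atTop (𝓝 volFigureEight) := by
    have := (((hlog.add hmain).add (hconst (Real.log (2 ^ (n - 2))))).add
      (hlog.const_mul ((2 * (n - 2) + 1 : ℕ) : ℝ))).const_mul (2 * π)
    convert this using 2
    unfold volFigureEight
    field_simp
    ring
  refine tendsto_of_tendsto_of_tendsto_of_le_of_le' hlow hup ?_ ?_
  · filter_upwards [eventually_ge_atTop (12 * n)] with N hN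
    have hM : (0 : ℝ) < ((N + a : ℕ) : ℝ) := by exact_mod_cast (by omega : 0 < N + a)
    have hP : (0 : ℝ) < P (N + a) := lt_of_lt_of_le one_pos (P_ge_one _)
    have h1 := le_J n a N ha han hn hN
    have h2 := Real.log_le_log (by positivity) h1
    rw [Real.log_mul (by positivity) (by positivity), Real.log_mul hM.ne' hP.ne'] at h2
    have h3 : (0 : ℝ) < (N : ℝ) + 1 := by positivity
    rw [← add_div, ← add_div, mul_div_assoc]
    gcongr
  · filter_upwards [eventually_ge_atTop (12 * n)] with N hN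
    have hM : (0 : ℝ) < ((N + a : ℕ) : ℝ) := by exact_mod_cast (by omega : 0 < N + a)
    have hP : (0 : ℝ) < P (N + a) := lt_of_lt_of_le one_pos (P_ge_one _)
    have h0 := le_J n a N ha han hn hN
    have hJ : 0 < J n a N := lt_of_lt_of_le (by positivity) h0
    have h1 := J_le n a N ha han hn (by omega)
    have h2 := Real.log_le_log hJ h1
    rw [Real.log_mul (by positivity) (by positivity), Real.log_mul hM.ne' hP.ne',
      Real.log_mul (by positivity) (by positivity), Real.log_pow ((N + a : ℕ) : ℝ)] at h2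
    have h3 : (0 : ℝ) < (N : ℝ) + 1 := by positivity
    have e : Real.log ((N + a : ℕ) : ℝ) / ((N : ℝ) + 1) + Real.log (P (N + a)) / (N + 1)
      + Real.log (2 ^ (n - 2)) / ((N : ℝ) + 1)
      + ((2 * (n - 2) + 1 : ℕ) : ℝ) * (Real.log ((N + a : ℕ) : ℝ) / (N + 1))
      = (Real.log ((N + a : ℕ) : ℝ) + Real.log (P (N + a)) + (Real.log (2 ^ (n - 2))
      + ((2 * (n - 2) + 1 : ℕ) : ℝ) * Real.log ((N + a : ℕ) : ℝ))) / (N + 1) := by
      field_simp
      ring
    rw [e, mul_div_assoc]
    gcongr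

/-- Sanity check: for `n = 2` the invariant is the colored Jones polynomial in the convention of
the problem file. -/
theorem su_two (N : ℕ) (q : ℂ) (hq : q ≠ 0) (h : ∀ i < N, cb (q ^ ((i : ℤ) + 1)) ≠ 0) :
    suFigureEight 2 N q = 1 + ∑ k ∈ Finset.Ico 1 (N + 1), ∏ i ∈ Finset.Ico 1 (k + 1),
      (cb (q ^ ((N : ℤ) + 1 - i)) * cb (q ^ ((N : ℤ) + 1 + i))) := by
  unfold suFigureEight homflyFigureEight
  rw [Finset.range_eq_Ico, Finset.sum_eq_sum_Ico_succ_bot (by omega)]
  simp only [zero_add]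
  congr 1
  apply Finset.sum_congr rfl
  intro k hk
  rw [Finset.mem_Ico] at hk
  rw [Finset.prod_Ico_eq_prod_range]
  simp only [Finset.range_eq_Ico]
  have e : k + 1 - 1 = k := by omega
  rw [e]
  apply Finset.prod_congr rfl
  intro i hi
  rw [Finset.mem_Ico] at hi
  have hne := h i (by omega)
  rw [← zpow_natCast q 2, ← zpow_add₀ hq, ← zpow_add₀ hq]
  have e1 : ((2 : ℕ) : ℤ) + ((i : ℤ) - 1) = (i : ℤ) + 1 := by push_cast; ring
  have e2 : ((2 : ℕ) : ℤ) + ((N : ℤ) + i) = (N : ℤ) + 1 + ((1 + i : ℕ) : ℤ) := by push_cast; ring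
  have e3 : (N : ℤ) + 1 - ((1 + i : ℕ) : ℤ) = (N : ℤ) - i := by push_cast; ring
  rw [e1, e2, e3]
  field_simp

/-- **Volume conjecture for the colored `SU(n)` invariants of the figure-eight knot at all gap
roots of unity.** -/
theorem figEight_limit (n a : ℕ) (hn : 2 ≤ n) (ha : 1 ≤ a) (han : a ≤ n - 1) :
    Tendsto (fun N : ℕ =>
      2 * (π : ℂ) * Complex.log (suFigureEight n N (Complex.exp (π * Complex.I / (N + a)))) / (N + 1))
      atTop (𝓝 (volFigureEight : ℂ)) := by
  have h := (Complex.continuous_ofReal.tendsto volFigureEight).comp (real_limit n a hn ha han)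
  refine h.congr' ?_
  filter_upwards [eventually_ge_atTop (12 * n)] with N hN
  have h0 := le_J n a N ha han hn hN
  have hP : (0 : ℝ) < P (N + a) := lt_of_lt_of_le one_pos (P_ge_one _)
  have hM : (0 : ℝ) < ((N + a : ℕ) : ℝ) := by exact_mod_cast (by omega : 0 < N + a)
  have hJ : 0 < J n a N := lt_of_lt_of_le (by positivity) h0
  have e : suFigureEight n N (Complex.exp (π * Complex.I / (N + a))) = ((J n a N : ℝ) : ℂ) := by
    have := su_eq_sum n a N ha han hn
    push_cast at this
    rw [this]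
    unfold J
    push_cast
    rfl
  rw [e, ← Complex.ofReal_log hJ.le]
  simp only [Function.comp]
  push_cast
  ring

end Pool.Agent.H63.FigEight
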