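import Pool.Agent.H63.VC.LimitVol
import Pool.Agent.H63.VC.FigEight

/-! # The figure-eight knot as the double twist knot `K_{1,-1}` -/

namespace Pool.Agent.H63.VC

open Filter Topology Real

theorem twistCoeff_one (a q : ℂ) (k : ℕ) : twistCoeff a q 1 k = 1 := by
  rw [twistCoeff, Finset.sum_eq_single_of_mem 0 (by simp)]
  · cases k <;> simp [twistCoeff, qbin]
  · intro j _ hj
    simp [twistCoeff, hj]

theorem suDoubleTwist_one (n N : ℕ) (q : ℂ) :
    suDoubleTwist 1 n N q = FigEight.suFigureEight n N q := by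
  unfold suDoubleTwist homflyDoubleTwist FigEight.suFigureEight FigEight.homflyFigureEight
  refine Finset.sum_congr rfl fun k _ => ?_
  rw [twistCoeff_one, twistCoeff_one, mul_one, mul_one]
  rfl

theorem hinge_two_two : IsHinge [2, 2] 1 := ⟨1, by decide, by decide, by decide⟩

theorem sum_two_two (w : ℕ → ℝ) : structureVolume [2, 2] w =
    2 * (lob (angX [2, 2] w 1) + lob (angY [2, 2] w 1) + lob (angZ w 1)) := by
  simp [structureVolume]

theorem greatest_two_two : IsGreatest (structureVolumes [2, 2]) FigEight.volFigureEight := by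
  have hpi := Real.pi_pos
  have hX : ∀ w : ℕ → ℝ, angX [2, 2] w 1 = (w 0 + w 1 - w 2) / 2 := by
    intro w
    simp [angX, hinge_two_two]
  have hY : ∀ w : ℕ → ℝ, angY [2, 2] w 1 = (w 2 + w 1 - w 0) / 2 := by
    intro w
    simp [angY, hinge_two_two]
  constructor
  · refine ⟨fun i => if i = 1 then 2 * π / 3 else π, ⟨by simp, by simp, ?_⟩, ?_⟩
    · intro i hi
      have : i = 1 := by simpa using hi
      subst this
      rw [hX, hY, angZ]
      norm_num
      constructor
      · positivity
      · linarith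
    · rw [sum_two_two, hX, hY, angZ]
      norm_num
      rw [show 2 * π / 3 / 2 = π / 3 by ring, show π - 2 * π / 3 = π / 3 by ring]
      rw [FigEight.volFigureEight]
      change 6 * lob (π / 3) = _
      ring
  · rintro v ⟨w, ⟨h0, h2, h⟩, rfl⟩
    have h1 := h 1 (by simp)
    rw [hX, hY, angZ] at h1
    obtain ⟨h3, h4, h5⟩ := h1
    rw [sum_two_two, hX, hY, angZ]
    have h2' : w 2 = π := by simpa using h2
    rw [h0, h2'] at h3 h4
    rw [h0, h2']
    have ht := tet_tangent (π / 3) (π / 3) (π / 3) ((π + w 1 - π) / 2) ((π + w 1 - π) / 2)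
      (π - w 1) (by positivity) (by positivity) (by positivity) (by ring) h3 h4 h5 (by ring)
    have hs : Real.log (2 * Real.sin (π / 3)) * ((π + w 1 - π) / 2 - π / 3) +
        Real.log (2 * Real.sin (π / 3)) * ((π + w 1 - π) / 2 - π / 3) +
        Real.log (2 * Real.sin (π / 3)) * (π - w 1 - π / 3) = 0 := by ring
    rw [hs] at ht
    rw [FigEight.volFigureEight]
    change _ ≤ 6 * lob (π / 3)
    linarith

/-- For every `p ≥ 1`, every `n ≥ 2` and every gap `1 ≤ a ≤ n - 1` the limit of the colored `SU(n)`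
invariants of `K_{p,-p}` is the volume of its complement. -/
theorem dt_all (p : ℕ) (hp : 1 ≤ p) : ∃ V : ℝ, IsGreatest (structureVolumes [2 * p, 2 * p]) V ∧
    ∀ n a : ℕ, 2 ≤ n → 1 ≤ a → a ≤ n - 1 →
      Tendsto (fun N : ℕ => 2 * (π : ℂ) *
        Complex.log (suDoubleTwist p n N (Complex.exp (π * Complex.I / (N + a)))) / (N + 1))
        atTop (𝓝 (V : ℂ)) := by
  rcases hp.eq_or_lt with h | h
  · subst h
    refine ⟨FigEight.volFigureEight, greatest_two_two, fun n a hn ha han => ?_⟩
    have h := FigEight.figEight_limit n a hn ha han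
    refine h.congr fun N => ?_
    rw [suDoubleTwist_one]
  · obtain ⟨V, h1, h3⟩ := limit_vol p h
    refine ⟨V, h1, fun n a hn ha han => ?_⟩
    obtain ⟨hpos, hlim⟩ := h3 n a hn ha han
    have h := (Complex.continuous_ofReal.tendsto V).comp hlim
    refine h.congr' ?_
    filter_upwards [hpos] with N hN
    have e := su_eq p n a N hn ha han
    push_cast at e
    rw [e, ← Complex.ofReal_log hN.le]
    simp only [Function.comp]
    push_cast
    ring

end Pool.Agent.H63.VC
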