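import Pool.Agent.H63.VC.Rec

/-! # Expansion in eigenfunctions of the twist operator -/

namespace Pool.Agent.H63.VC

/-- Eigenfunctions of the twist operator. -/
noncomputable def eig (α q : ℂ) (l k : ℕ) : ℂ :=
  qbin q k l * (1 - α * q ^ (2 * l)) / ∏ i ∈ Finset.range (k + 1), (1 - α * q ^ (l + i))

theorem Bailey_qbin_zero (q : ℂ) (k : ℕ) : qbin q k 0 = 1 := by
  cases k <;> rfl

theorem Bailey_qbin_zero_succ (q : ℂ) (j : ℕ) : qbin q 0 (j + 1) = 0 := rfl

theorem Bailey_qbin_succ (q : ℂ) (k j : ℕ) :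
    qbin q (k + 1) (j + 1) = qbin q k j + q ^ (j + 1) * qbin q k (j + 1) := rfl

theorem Bailey_qbin_eq_zero (q : ℂ) {k j : ℕ} (h : k < j) : qbin q k j = 0 := by
  induction k generalizing j with
  | zero =>
    obtain ⟨j, rfl⟩ : ∃ i, j = i + 1 := ⟨j - 1, by omega⟩
    rfl
  | succ k ih =>
    obtain ⟨j, rfl⟩ : ∃ i, j = i + 1 := ⟨j - 1, by omega⟩
    rw [Bailey_qbin_succ, ih (by omega), ih (by omega)]
    simp

theorem Bailey_qbin_self (q : ℂ) (k : ℕ) : qbin q k k = 1 := by
  induction k with
  | zero => rfl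
  | succ k ih =>
    rw [Bailey_qbin_succ, ih, Bailey_qbin_eq_zero q (Nat.lt_succ_self k)]
    simp

/-- The second Pascal rule. -/
theorem Bailey_pascal (q : ℂ) (k j : ℕ) (h : j ≤ k) :
    qbin q (k + 1) (j + 1) = qbin q k (j + 1) + q ^ (k - j) * qbin q k j := by
  induction k generalizing j with
  | zero =>
    obtain rfl : j = 0 := by omega
    rw [Bailey_qbin_succ, Bailey_qbin_zero, Bailey_qbin_zero_succ]
    simp
  | succ k ih =>
    rcases Nat.eq_zero_or_pos j with rfl | hj
    · have h1 := ih 0 (Nat.zero_le _)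
      rw [Bailey_qbin_succ q (k + 1) 0, Bailey_qbin_zero]
      have h2 := Bailey_qbin_succ q k 0
      rw [Bailey_qbin_zero] at h1 h2
      simp only [Nat.sub_zero, zero_add, pow_one, mul_one] at *
      rw [pow_succ]
      linear_combination q * h1 - h2
    · obtain ⟨i, rfl⟩ : ∃ i, j = i + 1 := ⟨j - 1, by omega⟩
      have hi : i ≤ k := by omega
      have h1 := ih i hi
      have e1 : k + 1 - (i + 1) = k - i := by omega
      have h5 := Bailey_qbin_succ q k (i + 1)
      rw [Bailey_qbin_succ q (k + 1) (i + 1), e1]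
      rcases Nat.lt_or_ge k (i + 1) with h3 | h3
      · rw [Bailey_qbin_eq_zero q (show k + 1 < i + 1 + 1 by omega)]
        have : k = i := by omega
        subst this
        simp
      · have h2 := ih (i + 1) h3
        have h4 := Bailey_qbin_succ q k i
        have e2 : q ^ (i + 1 + 1) * q ^ (k - (i + 1)) = q ^ (k - i) * q ^ (i + 1) := by
          rw [← pow_add, ← pow_add]
          congr 1
          omega
        linear_combination h1 + q ^ (i + 1 + 1) * h2 + e2 * qbin q k (i + 1) - h5
          - q ^ (k - i) * h4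

theorem Bailey_mul (q : ℂ) (n l i : ℕ) :
    qbin q n (l + i) * qbin q (l + i) l = qbin q n l * qbin q (n - l) i := by
  induction n generalizing l i with
  | zero =>
    rcases Nat.eq_zero_or_pos l with rfl | hl
    · rw [Bailey_qbin_zero, Bailey_qbin_zero]
      simp
    · rw [Bailey_qbin_eq_zero q (show 0 < l + i by omega), Bailey_qbin_eq_zero q hl]
      simp
  | succ n ih =>
    rcases Nat.eq_zero_or_pos l with rfl | hl
    · rw [Bailey_qbin_zero, Bailey_qbin_zero]
      simp
    · obtain ⟨l, rfl⟩ : ∃ i, l = i + 1 := ⟨l - 1, by omega⟩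
      rcases Nat.eq_zero_or_pos i with rfl | hi
      · rw [Bailey_qbin_zero, add_zero, Bailey_qbin_self]
      · obtain ⟨i, rfl⟩ : ∃ j, i = j + 1 := ⟨i - 1, by omega⟩
        have h1 := ih l (i + 1)
        have h2 := ih (l + 1) i
        have h3 := ih (l + 1) (i + 1)
        have e1 : l + (i + 1) = l + 1 + i := by omega
        have e2 : l + 1 + (i + 1) = l + 1 + i + 1 := by omega
        have e3 : n + 1 - (l + 1) = n - l := by omega
        rw [e1] at h1
        rw [e2] at h3
        rw [e2, e3, Bailey_qbin_succ q n (l + 1 + i), Bailey_qbin_succ q n l]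
        have h4 : qbin q (l + 1 + i + 1) (l + 1) =
            qbin q (l + 1 + i) l + q ^ (l + 1) * qbin q (l + 1 + i) (l + 1) :=
          Bailey_qbin_succ q (l + 1 + i) l
        have h5 : qbin q n (l + 1) * qbin q (n - l) (i + 1) = qbin q n (l + 1) *
            (qbin q (n - (l + 1)) i + q ^ (i + 1) * qbin q (n - (l + 1)) (i + 1)) := by
          rcases Nat.lt_or_ge n (l + 1) with h6 | h6
          · rw [Bailey_qbin_eq_zero q h6]
            simp
          · have e4 : n - l = (n - (l + 1)) + 1 := by omega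
            rw [e4, Bailey_qbin_succ]
        have e5 : q ^ (l + 1 + i + 1) = q ^ (l + 1) * q ^ (i + 1) := by
          rw [← pow_add]
          congr 1
        rw [e5]
        rw [h4] at h3 ⊢
        linear_combination h1 + q ^ (l + 1) * h2 + q ^ (l + 1) * q ^ (i + 1) * h3
          - q ^ (l + 1) * h5

/-- `(b;q)_i`. -/
noncomputable def Bailey_poch (b q : ℂ) (i : ℕ) : ℂ := ∏ s ∈ Finset.range i, (1 - b * q ^ s)

theorem Bailey_poch_succ (b q : ℂ) (i : ℕ) :
    Bailey_poch b q (i + 1) = Bailey_poch b q i * (1 - b * q ^ i) := by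
  unfold Bailey_poch
  rw [Finset.prod_range_succ]

theorem Bailey_poch_succ' (b q : ℂ) (i : ℕ) :
    Bailey_poch b q (i + 1) = (1 - b) * Bailey_poch (b * q) q i := by
  unfold Bailey_poch
  rw [Finset.prod_range_succ', mul_comm]
  congr 1
  · simp
  · refine Finset.prod_congr rfl fun s _ => ?_
    rw [pow_succ]
    ring

theorem Bailey_sum (q : ℂ) (K : ℕ) : ∀ b : ℂ, (∀ s < K, 1 - b * q ^ s ≠ 0) →
    ∑ i ∈ Finset.range (K + 1), qbin q K i * (b ^ i * q ^ (i * (i - 1))) / Bailey_poch b q i
      = 1 / Bailey_poch b q K := by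
  induction K with
  | zero =>
    intro b _
    simp [Bailey_poch, Bailey_qbin_zero]
  | succ K ih =>
    intro b hb
    have hb0 : 1 - b ≠ 0 := by simpa using hb 0 (Nat.succ_pos K)
    have hbK : 1 - b * q ^ K ≠ 0 := hb K (Nat.lt_succ_self K)
    have hP : ∀ i ≤ K + 1, Bailey_poch b q i ≠ 0 := by
      intro i hi
      refine Finset.prod_ne_zero_iff.2 fun s hs => hb s ?_
      rw [Finset.mem_range] at hs
      omega
    have h1 := ih b fun s hs => hb s (by omega)
    have h2 := ih (b * q) fun s hs => by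
      have := hb (s + 1) (by omega)
      rw [pow_succ'] at this
      rwa [mul_assoc]
    have h3 : ∑ i ∈ Finset.range (K + 1 + 1), qbin q (K + 1) i * (b ^ i * q ^ (i * (i - 1))) /
        Bailey_poch b q i =
        (∑ i ∈ Finset.range (K + 1), qbin q K i * (b ^ i * q ^ (i * (i - 1))) /
          Bailey_poch b q i) +
        b * q ^ K / (1 - b) * (∑ i ∈ Finset.range (K + 1), qbin q K i *
          ((b * q) ^ i * q ^ (i * (i - 1))) / Bailey_poch (b * q) q i) := by
      have h4 : (∑ i ∈ Finset.range (K + 1), qbin q K i * (b ^ i * q ^ (i * (i - 1))) /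
          Bailey_poch b q i) = ∑ i ∈ Finset.range (K + 1 + 1), qbin q K i *
          (b ^ i * q ^ (i * (i - 1))) / Bailey_poch b q i := by
        rw [Finset.sum_range_succ _ (K + 1), Bailey_qbin_eq_zero q (Nat.lt_succ_self K)]
        simp
      rw [h4, Finset.sum_range_succ' _ (K + 1), Finset.sum_range_succ' _ (K + 1), Finset.mul_sum]
      rw [add_right_comm, ← Finset.sum_add_distrib]
      congr 1
      · refine Finset.sum_congr rfl fun i hi => ?_
        rw [Finset.mem_range] at hi
        have hPi : Bailey_poch (b * q) q i ≠ 0 := by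
          have := hP (i + 1) (by omega)
          rw [Bailey_poch_succ'] at this
          exact right_ne_zero_of_mul this
        rw [Bailey_pascal q K i (by omega), Bailey_poch_succ' b q i]
        have e1 : q ^ (K - i) * q ^ ((i + 1) * (i + 1 - 1)) = q ^ K * q ^ i * q ^ (i * (i - 1)) := by
          rw [← pow_add, ← pow_add, ← pow_add]
          congr 1
          rcases Nat.eq_zero_or_pos i with rfl | hi0
          · simp
          · obtain ⟨j, rfl⟩ : ∃ j, i = j + 1 := ⟨i - 1, by omega⟩
            simp only [Nat.add_sub_cancel]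
            have : K - (j + 1) + (j + 1) = K := by omega
            nlinarith
        rw [add_mul, add_div]
        congr 1
        rw [div_mul_div_comm]
        congr 1
        rw [mul_pow, pow_succ]
        linear_combination (b ^ i * b * qbin q K i) * e1
      · rw [Bailey_qbin_zero, Bailey_qbin_zero]
    rw [h3, h1, h2]
    have hP1 := hP (K + 1) le_rfl
    have hP2 := hP K (Nat.le_succ K)
    have hP3 : Bailey_poch (b * q) q K ≠ 0 := by
      rw [Bailey_poch_succ'] at hP1
      exact right_ne_zero_of_mul hP1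
    have h5 : b * q ^ K / (1 - b) * (1 / Bailey_poch (b * q) q K) =
        b * q ^ K / Bailey_poch b q (K + 1) := by
      rw [Bailey_poch_succ']
      field_simp
    rw [h5, Bailey_poch_succ]
    field_simp
    ring

theorem Bop_eig (α q : ℂ) (l k : ℕ) (h : ∀ i ≤ 2 * k, 1 - α * q ^ i ≠ 0) :
    Bop (α * q) q (eig α q l) k = (α * q) ^ l * q ^ (l * (l - 1)) * eig α q l k := by
  rcases Nat.lt_or_ge k l with hlk | hlk
  · have h1 : ∀ j ≤ k, eig α q l j = 0 := by
      intro j hj
      unfold eig
      rw [Bailey_qbin_eq_zero q (show j < l by omega)]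
      simp
    rw [h1 k le_rfl, mul_zero]
    unfold Bop
    refine Finset.sum_eq_zero fun j hj => ?_
    rw [Finset.mem_range] at hj
    rw [h1 j (by omega)]
    ring
  · obtain ⟨K, rfl⟩ : ∃ K, k = l + K := ⟨k - l, by omega⟩
    unfold Bop
    rw [add_assoc, Finset.sum_range_add]
    have h0 : ∑ j ∈ Finset.range l, qbin q (l + K) j * ((α * q) ^ j * q ^ (j * (j - 1)) *
        eig α q l j) = 0 := by
      refine Finset.sum_eq_zero fun j hj => ?_
      rw [Finset.mem_range] at hj
      unfold eig
      rw [Bailey_qbin_eq_zero q hj]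
      simp
    rw [h0, zero_add]
    have hprod : ∀ i, ∏ s ∈ Finset.range (l + i + 1), (1 - α * q ^ (l + s)) =
        (∏ s ∈ Finset.range (l + 1), (1 - α * q ^ (l + s))) *
          Bailey_poch (α * q ^ (2 * l + 1)) q i := by
      intro i
      rw [show l + i + 1 = (l + 1) + i by ring, Finset.prod_range_add]
      congr 1
      unfold Bailey_poch
      refine Finset.prod_congr rfl fun s _ => ?_
      rw [mul_assoc, ← pow_add]
      congr 3
      ring
    have hsum := Bailey_sum q K (α * q ^ (2 * l + 1)) fun s hs => by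
      rw [mul_assoc, ← pow_add]
      exact h _ (by omega)
    have hl0 : (∏ s ∈ Finset.range (l + 1), (1 - α * q ^ (l + s))) ≠ 0 := by
      refine Finset.prod_ne_zero_iff.2 fun s hs => h _ ?_
      rw [Finset.mem_range] at hs
      omega
    have hterm : ∀ i ∈ Finset.range (K + 1), qbin q (l + K) (l + i) *
        ((α * q) ^ (l + i) * q ^ ((l + i) * (l + i - 1)) * eig α q l (l + i)) =
        (qbin q (l + K) l * (α * q) ^ l * q ^ (l * (l - 1)) * (1 - α * q ^ (2 * l)) /
          ∏ s ∈ Finset.range (l + 1), (1 - α * q ^ (l + s))) *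
        (qbin q K i * ((α * q ^ (2 * l + 1)) ^ i * q ^ (i * (i - 1))) /
          Bailey_poch (α * q ^ (2 * l + 1)) q i) := by
      intro i _
      unfold eig
      rw [hprod i]
      have e1 := Bailey_mul q (l + K) l i
      rw [Nat.add_sub_cancel_left] at e1
      have e2 : (α * q) ^ (l + i) * q ^ ((l + i) * (l + i - 1)) =
          (α * q) ^ l * q ^ (l * (l - 1)) * ((α * q ^ (2 * l + 1)) ^ i * q ^ (i * (i - 1))) := by
        have e3 : q ^ ((l + i) * (l + i - 1)) = q ^ (l * (l - 1)) * q ^ (2 * l * i) *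
            q ^ (i * (i - 1)) := by
          rw [← pow_add, ← pow_add]
          congr 1
          rcases Nat.eq_zero_or_pos l with rfl | hl
          · simp
          · obtain ⟨l, rfl⟩ : ∃ j, l = j + 1 := ⟨l - 1, by omega⟩
            rcases Nat.eq_zero_or_pos i with rfl | hi
            · simp
            · obtain ⟨i, rfl⟩ : ∃ j, i = j + 1 := ⟨i - 1, by omega⟩
              have : l + 1 + (i + 1) - 1 = l + i + 1 := by omega
              rw [this]
              simp only [Nat.add_sub_cancel]
              ring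
        rw [e3]
        rw [pow_add, mul_pow α (q ^ (2 * l + 1)) i, ← pow_mul, mul_pow α q i]
        have e4 : q ^ ((2 * l + 1) * i) = q ^ (2 * l * i) * q ^ i := by
          rw [← pow_add]
          congr 1
          ring
        rw [e4]
        ring
      rw [e2]
      rw [mul_div_assoc' , mul_div_assoc', div_mul_div_comm]
      congr 1
      linear_combination ((α * q) ^ l * q ^ (l * (l - 1)) *
        ((α * q ^ (2 * l + 1)) ^ i * q ^ (i * (i - 1))) * (1 - α * q ^ (2 * l))) * e1
    rw [Finset.sum_congr rfl hterm, ← Finset.mul_sum, hsum]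
    unfold eig
    rw [hprod K]
    rw [div_mul_div_comm, mul_one, mul_div_assoc']
    congr 1
    ring

theorem Bailey_eig_eq_zero (α q : ℂ) {l k : ℕ} (h : k < l) : eig α q l k = 0 := by
  unfold eig
  rw [Bailey_qbin_eq_zero q h]
  simp

theorem Bailey_tele (α q : ℂ) (K L : ℕ) (hL : L ≤ K + 1)
    (h : ∀ i ≤ 2 * (K + 1), 1 - α * q ^ i ≠ 0) :
    ∑ l ∈ Finset.range (L + 1), (-1) ^ l * q ^ (l * (l - 1) / 2) * eig α q l (K + 1) =
      (-1) ^ L * q ^ (L * (L + 1) / 2) * qbin q K L /
        ∏ i ∈ Finset.range (K + 1), (1 - α * q ^ (L + 1 + i)) := by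
  induction L with
  | zero =>
    have h0 : 1 - α ≠ 0 := by simpa using h 0 (Nat.zero_le _)
    rw [Finset.sum_range_one]
    unfold eig
    rw [Bailey_qbin_zero, Bailey_qbin_zero, Finset.prod_range_succ' _ (K + 1)]
    have hprod : ∏ i ∈ Finset.range (K + 1), (1 - α * q ^ (0 + (i + 1))) =
        ∏ i ∈ Finset.range (K + 1), (1 - α * q ^ (0 + 1 + i)) := by
      refine Finset.prod_congr rfl fun i _ => ?_
      congr 3
      ring
    rw [hprod]
    have hne : ∏ i ∈ Finset.range (K + 1), (1 - α * q ^ (0 + 1 + i)) ≠ 0 := by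
      refine Finset.prod_ne_zero_iff.2 fun i hi => h _ ?_
      rw [Finset.mem_range] at hi
      omega
    simp only [pow_zero, mul_zero, Nat.zero_div, Nat.zero_mul, mul_one, one_mul, add_zero]
    field_simp
  | succ L ih =>
    rw [Finset.sum_range_succ, ih (by omega)]
    have e1 : (L + 1) * (L + 1 - 1) / 2 = L * (L + 1) / 2 := by
      rw [Nat.add_sub_cancel, mul_comm]
    have e2 : (L + 1) * (L + 1 + 1) / 2 = L * (L + 1) / 2 + (L + 1) := by
      have : (L + 1) * (L + 1 + 1) = L * (L + 1) + (L + 1) * 2 := by ring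
      rw [this, Nat.add_mul_div_right _ _ two_pos]
    rw [e1, e2]
    unfold eig
    have hA : ∏ i ∈ Finset.range (K + 1 + 1), (1 - α * q ^ (L + 1 + i)) =
        (∏ i ∈ Finset.range (K + 1), (1 - α * q ^ (L + 1 + i))) * (1 - α * q ^ (L + 1 + (K + 1))) :=
      Finset.prod_range_succ _ _
    have hB : ∏ i ∈ Finset.range (K + 1 + 1), (1 - α * q ^ (L + 1 + i)) =
        (∏ i ∈ Finset.range (K + 1), (1 - α * q ^ (L + 1 + 1 + i))) * (1 - α * q ^ (L + 1)) := by
      rw [Finset.prod_range_succ']
      congr 1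
      refine Finset.prod_congr rfl fun i _ => ?_
      congr 3
      ring
    set P0 := ∏ i ∈ Finset.range (K + 1 + 1), (1 - α * q ^ (L + 1 + i)) with hP0
    set P1 := ∏ i ∈ Finset.range (K + 1), (1 - α * q ^ (L + 1 + i)) with hP1
    set P2 := ∏ i ∈ Finset.range (K + 1), (1 - α * q ^ (L + 1 + 1 + i)) with hP2
    have hP0ne : P0 ≠ 0 := by
      refine Finset.prod_ne_zero_iff.2 fun i hi => h _ ?_
      rw [Finset.mem_range] at hi
      omega
    have hP1ne : P1 ≠ 0 := by
      rw [hA] at hP0ne
      exact left_ne_zero_of_mul hP0ne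
    have hP2ne : P2 ≠ 0 := by
      rw [hB] at hP0ne
      exact left_ne_zero_of_mul hP0ne
    have f1 : (-1) ^ L * q ^ (L * (L + 1) / 2) * qbin q K L / P1 =
        (-1) ^ L * q ^ (L * (L + 1) / 2) * qbin q K L * (1 - α * q ^ (L + 1 + (K + 1))) / P0 := by
      have hx : 1 - α * q ^ (L + 1 + (K + 1)) ≠ 0 := by
        rw [hA] at hP0ne
        exact right_ne_zero_of_mul hP0ne
      rw [hA, mul_div_mul_right _ _ hx]
    have f2 : (-1) ^ (L + 1) * q ^ (L * (L + 1) / 2 + (L + 1)) * qbin q K (L + 1) / P2 =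
        (-1) ^ (L + 1) * q ^ (L * (L + 1) / 2 + (L + 1)) * qbin q K (L + 1) *
          (1 - α * q ^ (L + 1)) / P0 := by
      have hx : 1 - α * q ^ (L + 1) ≠ 0 := by
        rw [hB] at hP0ne
        exact right_ne_zero_of_mul hP0ne
      rw [hB, mul_div_mul_right _ _ hx]
    rw [f1, f2, mul_div_assoc', ← add_div]
    congr 1
    have g1 := Bailey_qbin_succ q K L
    have g2 : q ^ (K + 1) * qbin q K L + q ^ (L + 1) * qbin q K (L + 1) =
        q ^ (L + 1) * qbin q (K + 1) (L + 1) := by
      rcases Nat.lt_or_ge K L with hKL | hKL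
      · rw [Bailey_qbin_eq_zero q hKL, Bailey_qbin_eq_zero q (show K < L + 1 by omega),
          Bailey_qbin_eq_zero q (show K + 1 < L + 1 by omega)]
        simp
      · rw [Bailey_pascal q K L hKL, mul_add, ← mul_assoc (q ^ (L + 1)) (q ^ (K - L)), ← pow_add]
        have : L + 1 + (K - L) = K + 1 := by omega
        rw [this]
        ring
    have e3 : q ^ (L + 1 + (K + 1)) = q ^ (L + 1) * q ^ (K + 1) := pow_add _ _ _
    have e4 : q ^ (2 * (L + 1)) = q ^ (L + 1) * q ^ (L + 1) := by
      rw [← pow_add]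
      congr 1
      ring
    rw [e3, e4, pow_succ (-1 : ℂ) L, pow_add q (L * (L + 1) / 2) (L + 1)]
    linear_combination ((-1) ^ L * q ^ (L * (L + 1) / 2)) * (-g1 - α * q ^ (L + 1) * g2)

theorem twistCoeff_expand (α q : ℂ) (p k : ℕ) (h : ∀ i ≤ 2 * k, 1 - α * q ^ i ≠ 0) :
    twistCoeff (α * q) q p k = ∑ l ∈ Finset.range (k + 1), (-1) ^ l * q ^ (l * (l - 1) / 2) *
      ((α * q) ^ l * q ^ (l * (l - 1))) ^ p * eig α q l k := by
  induction p generalizing k with
  | zero =>
    simp only [pow_zero, mul_one]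
    rcases Nat.eq_zero_or_pos k with rfl | hk
    · have h0 : 1 - α ≠ 0 := by simpa using h 0 (Nat.zero_le _)
      simp [twistCoeff, eig, Bailey_qbin_zero, h0]
    · obtain ⟨K, rfl⟩ : ∃ j, k = j + 1 := ⟨k - 1, by omega⟩
      rw [Bailey_tele α q K (K + 1) le_rfl h, Bailey_qbin_eq_zero q (Nat.lt_succ_self K)]
      simp [twistCoeff]
  | succ p ih =>
    have h1 : ∀ j ∈ Finset.range (k + 1), twistCoeff (α * q) q p j =
        ∑ l ∈ Finset.range (k + 1), (-1) ^ l * q ^ (l * (l - 1) / 2) *
          ((α * q) ^ l * q ^ (l * (l - 1))) ^ p * eig α q l j := by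
      intro j hj
      rw [Finset.mem_range] at hj
      rw [ih j fun i hi => h i (by omega)]
      refine Finset.sum_subset (Finset.range_mono (by omega)) fun l _ hl => ?_
      rw [Finset.mem_range, not_lt] at hl
      rw [Bailey_eig_eq_zero α q (show j < l by omega), mul_zero]
    have h2 : twistCoeff (α * q) q (p + 1) k = ∑ j ∈ Finset.range (k + 1), qbin q k j *
        ((α * q) ^ j * q ^ (j * (j - 1)) * twistCoeff (α * q) q p j) := rfl
    rw [h2, Finset.sum_congr rfl fun j hj => by rw [h1 j hj, Finset.mul_sum, Finset.mul_sum]]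
    rw [Finset.sum_comm]
    refine Finset.sum_congr rfl fun l _ => ?_
    have h3 := Bop_eig α q l k h
    unfold Bop at h3
    rw [pow_succ]
    have h4 : ∑ j ∈ Finset.range (k + 1), qbin q k j * ((α * q) ^ j * q ^ (j * (j - 1)) *
        ((-1) ^ l * q ^ (l * (l - 1) / 2) * ((α * q) ^ l * q ^ (l * (l - 1))) ^ p *
          eig α q l j)) = ((-1) ^ l * q ^ (l * (l - 1) / 2) *
          ((α * q) ^ l * q ^ (l * (l - 1))) ^ p) * ∑ j ∈ Finset.range (k + 1), qbin q k j *
          ((α * q) ^ j * q ^ (j * (j - 1)) * eig α q l j) := by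
      rw [Finset.mul_sum]
      refine Finset.sum_congr rfl fun j _ => ?_
      ring
    rw [h4, h3]
    ring

end Pool.Agent.H63.VC
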