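import Mathlib

/-!
# Definitions for the double twist knots

Closed formulas for the colored HOMFLY-PT polynomials of the double twist knots `K_{p,-p}` and the
quantities describing their hyperbolic volume.
-/

namespace Pool.Agent.H63.VC

/-- `{x} = x - x⁻¹`. -/
noncomputable def cb (x : ℂ) : ℂ := x - x⁻¹

/-- Gaussian binomial coefficient `[k choose j]_q`. -/
noncomputable def qbin (q : ℂ) : ℕ → ℕ → ℂ
  | _, 0 => 1
  | 0, _ + 1 => 0
  | k + 1, j + 1 => qbin q k j + q ^ (j + 1) * qbin q k (j + 1)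

/-- The coefficient `T_{p,k}(a, q)` of `p` full twists: `T_{0,k} = δ_{k,0}` and
`T_{p+1,k} = ∑_{j ≤ k} [k choose j]_q a^j q^{j(j-1)} T_{p,j}`. -/
noncomputable def twistCoeff (a q : ℂ) : ℕ → ℕ → ℂ
  | 0, k => if k = 0 then 1 else 0
  | p + 1, k => ∑ j ∈ Finset.range (k + 1), qbin q k j * (a ^ j * q ^ (j * (j - 1)) *
      twistCoeff a q p j)

/-- The reduced HOMFLY-PT polynomial of the double twist knot `K_{p,-p}` colored by the `N`-th
symmetric power. -/
noncomputable def homflyDoubleTwist (p N : ℕ) (A q : ℂ) : ℂ :=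
  ∑ k ∈ Finset.range (N + 1), (∏ i ∈ Finset.range k,
    (cb (q ^ ((N : ℤ) - i)) / cb (q ^ ((i : ℤ) + 1))) *
      (cb (A * q ^ ((N : ℤ) + i)) * cb (A * q ^ ((i : ℤ) - 1)))) *
    (twistCoeff (A ^ 2) (q ^ 2) p k * twistCoeff (A⁻¹ ^ 2) (q⁻¹ ^ 2) p k)

/-- The reduced colored `SU(n)` invariant of `K_{p,-p}` (specialization `A = q^n`). -/
noncomputable def suDoubleTwist (p n N : ℕ) (q : ℂ) : ℂ := homflyDoubleTwist p N (q ^ n) q

/-- The Lobachevsky function `Λ(θ) = -∫_0^θ log |2 sin t| dt`. -/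
noncomputable def lob (θ : ℝ) : ℝ := -∫ t in (0 : ℝ)..θ, Real.log |2 * Real.sin t|

/-- The Bloch-Wigner dilogarithm (signed volume of the ideal tetrahedron with shape `z`). -/
noncomputable def blochWigner (z : ℂ) : ℝ :=
  lob (Complex.arg z) + lob (Complex.arg (1 - z)⁻¹) + lob (Complex.arg (1 - z⁻¹))

/-- The polynomials `V_0 = 1`, `V_1 = z - 1`, `V_{m+1} = z V_m - V_{m-1}`. -/
noncomputable def chV : ℕ → ℂ → ℂ
  | 0, _ => 1
  | 1, z => z - 1
  | m + 2, z => z * chV (m + 1) z - chV m z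

/-- The geometric parameter of `K_{p,-p}`. -/
def IsGeom (p : ℕ) (z : ℂ) : Prop :=
  0 < z.im ∧ z.re < -2 * Real.cos (Real.pi / p) ∧ ‖chV p z‖ = ‖chV (p - 1) z‖ ∧
    ‖z - 2 * ((chV p z / chV (p - 1) z).re : ℂ)‖ = 2 - 2 * (chV p z / chV (p - 1) z).re

/-- The volume as a function of the parameter: a sum of signed volumes of ideal tetrahedra. -/
noncomputable def volOf (p : ℕ) (z : ℂ) : ℝ :=
  4 * blochWigner (chV p z / chV (p - 1) z) +
    2 * ∑ i ∈ Finset.range p, blochWigner ((2 - z) / chV i z ^ 2)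

end Pool.Agent.H63.VC
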