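import Pool.Agent.H63.VC.Cross

/-! # The leftmost root dominates -/

namespace Pool.Agent.H63.VC

open Real Set

/-- `m sinh x ≤ sinh (m x)` for `x ≥ 0`. -/
theorem dom_sinh_mul (x : ℝ) (hx : 0 ≤ x) : ∀ m : ℕ, (m : ℝ) * Real.sinh x ≤ Real.sinh (m * x)
  | 0 => by simp
  | m + 1 => by
      have ih := dom_sinh_mul x hx m
      have h0 : 0 ≤ Real.sinh x := Real.sinh_nonneg_iff.mpr hx
      have h1 : 0 ≤ Real.sinh (m * x) := Real.sinh_nonneg_iff.mpr (by positivity)
      have h2 : 1 ≤ Real.cosh x := Real.one_le_cosh x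
      have h3 : 1 ≤ Real.cosh (m * x) := Real.one_le_cosh _
      have e : ((m + 1 : ℕ) : ℝ) * x = m * x + x := by push_cast; ring
      rw [e, Real.sinh_add]
      push_cast
      nlinarith [mul_le_mul_of_nonneg_left h2 h1, mul_le_mul_of_nonneg_right h3 h0]

/-- `p ≥ 4` under the hypotheses. -/
theorem dom_four_le (p : ℕ) (hp : 2 ≤ p) (d' : ℝ) (hd' : π / 2 < d')
    (hd1' : d' ≤ π - 3 * π / (2 * p)) : 4 ≤ p := by
  by_contra hcon
  push Not at hcon
  have hp3 : (p : ℝ) ≤ 3 := by exact_mod_cast (by omega : p ≤ 3)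
  have hp0 : (0 : ℝ) < p := by exact_mod_cast (by omega : 0 < p)
  have hpi := Real.pi_pos
  have h1 : π / 2 ≤ 3 * π / (2 * p) := by
    rw [div_le_div_iff₀ (by norm_num) (by positivity)]
    nlinarith
  linarith

/-- The basic estimate. -/
theorem dom_key (p : ℕ) (hp : 2 ≤ p) (c' d' : ℝ)
    (hd' : π / 2 < d') (hd1' : d' ≤ π - 3 * π / (2 * p)) (hc' : 0 ≤ c')
    (h' : Real.sinh (2 * p * c') * Real.sinh c' = Real.sin (2 * p * d') * Real.sin d') :
    2 * p * Real.sinh c' ^ 2 ≤ Real.sin d' ∧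
    Real.sin (π / p) ^ 2 < Real.sin d' ^ 2 - Real.sin d' / (2 * p) := by
  have hp4 := dom_four_le p hp d' hd' hd1'
  have hp4' : (4 : ℝ) ≤ p := by exact_mod_cast hp4
  have hp0 : (0 : ℝ) < p := by linarith
  have hpi := Real.pi_pos
  have hdpi : d' < π := by
    have : 0 < 3 * π / (2 * p) := by positivity
    linarith
  have hs : 0 < Real.sin d' := Real.sin_pos_of_pos_of_lt_pi (by linarith) hdpi
  constructor
  · have h1 := dom_sinh_mul c' hc' (2 * p)
    push_cast at h1
    have h0 : 0 ≤ Real.sinh c' := Real.sinh_nonneg_iff.mpr hc'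
    have h2 : 2 * p * Real.sinh c' * Real.sinh c' ≤ Real.sinh (2 * p * c') * Real.sinh c' :=
      mul_le_mul_of_nonneg_right h1 h0
    have h3 : Real.sin (2 * p * d') * Real.sin d' ≤ 1 * Real.sin d' :=
      mul_le_mul_of_nonneg_right (Real.sin_le_one _) hs.le
    nlinarith
  · -- x = π / (2p)
    obtain ⟨x, hx⟩ : ∃ x, x = π / (2 * p) := ⟨_, rfl⟩
    have hx0 : 0 < x := by rw [hx]; positivity
    have hx8 : 8 * x ≤ π := by
      rw [hx, mul_div_assoc', div_le_iff₀ (by positivity)]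
      nlinarith
    have e3 : 3 * π / (2 * p) = 3 * x := by rw [hx]; ring
    have e2 : π / p = 2 * x := by rw [hx]; field_simp
    have einv : 1 / p = 2 * x / π := by
      rw [hx]; field_simp
    rw [e3] at hd1'
    rw [e2]
    -- sin d' ≥ sin 3x
    have hs3 : Real.sin (3 * x) ≤ Real.sin d' := by
      rw [← Real.sin_pi_sub d']
      apply Real.sin_le_sin_of_le_of_le_pi_div_two
      · linarith
      · linarith
      · linarith
    have hs3pos : 0 < Real.sin (3 * x) := Real.sin_pos_of_pos_of_lt_pi (by linarith) (by linarith)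
    have hsin5 : Real.sin (3 * x) ≤ Real.sin (5 * x) := by
      by_cases h5 : 5 * x ≤ π / 2
      · apply Real.sin_le_sin_of_le_of_le_pi_div_two <;> linarith
      · push Not at h5
        rw [← Real.sin_pi_sub (5 * x)]
        apply Real.sin_le_sin_of_le_of_le_pi_div_two <;> linarith
    have hsinx : 1 / p ≤ Real.sin x := by
      rw [einv]
      have := Real.mul_le_sin hx0.le (by linarith)
      calc 2 * x / π = 2 / π * x := by ring
        _ ≤ _ := this
    have hsub : Real.sin (3 * x) ^ 2 - Real.sin (2 * x) ^ 2 = Real.sin (5 * x) * Real.sin x := by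
      have a1 : Real.sin (5 * x) = Real.sin (3 * x) * Real.cos (2 * x)
          + Real.cos (3 * x) * Real.sin (2 * x) := by
        rw [← Real.sin_add]; congr 1; ring
      have a2 : Real.sin x = Real.sin (3 * x) * Real.cos (2 * x)
          - Real.cos (3 * x) * Real.sin (2 * x) := by
        rw [← Real.sin_sub]; congr 1; ring
      rw [a1, a2]
      have b1 := Real.sin_sq_add_cos_sq (3 * x)
      have b2 := Real.sin_sq_add_cos_sq (2 * x)
      have b3 : Real.cos (2 * x) ^ 2 = 1 - Real.sin (2 * x) ^ 2 := by linarith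
      have b4 : Real.cos (3 * x) ^ 2 = 1 - Real.sin (3 * x) ^ 2 := by linarith
      linear_combination (-Real.sin (3 * x) ^ 2) * b3 + Real.sin (2 * x) ^ 2 * b4
    have h7 : Real.sin (3 * x) * (1 / p) ≤ Real.sin (5 * x) * Real.sin x :=
      mul_le_mul hsin5 hsinx (by positivity) (by linarith)
    have h8 : Real.sin (2 * x) ^ 2 < Real.sin (3 * x) ^ 2 - Real.sin (3 * x) / (2 * p) := by
      have : Real.sin (3 * x) / (2 * p) < Real.sin (3 * x) * (1 / p) := by
        rw [mul_one_div]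
        apply div_lt_div_of_pos_left hs3pos hp0 (by linarith)
      linarith
    -- monotonicity in s
    have h9 : 1 / (2 * p) ≤ Real.sin (3 * x) + Real.sin d' := by
      have : 1 / (2 * p) ≤ Real.sin x := le_trans (by
        apply one_div_le_one_div_of_le hp0 (by linarith)) hsinx
      have h10 : Real.sin x ≤ Real.sin (3 * x) := by
        apply Real.sin_le_sin_of_le_of_le_pi_div_two <;> linarith
      linarith
    have h11 : Real.sin (3 * x) ^ 2 - Real.sin (3 * x) / (2 * p)
        ≤ Real.sin d' ^ 2 - Real.sin d' / (2 * p) := by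
      have h12 : 0 ≤ (Real.sin d' - Real.sin (3 * x)) *
          (Real.sin (3 * x) + Real.sin d' - 1 / (2 * p)) :=
        mul_nonneg (by linarith) (by linarith)
      have h13 : (Real.sin d' - Real.sin (3 * x)) *
          (Real.sin (3 * x) + Real.sin d' - 1 / (2 * p)) = (Real.sin d' ^ 2 - Real.sin d' / (2 * p))
          - (Real.sin (3 * x) ^ 2 - Real.sin (3 * x) / (2 * p)) := by ring
      linarith
    linarith

/-- `cosh c' |cos d'| < cos (π/p)`. -/
theorem dom_cosh_cos (p : ℕ) (hp : 2 ≤ p) (c' d' : ℝ)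
    (hd' : π / 2 < d') (hd1' : d' ≤ π - 3 * π / (2 * p)) (hc' : 0 ≤ c')
    (h' : Real.sinh (2 * p * c') * Real.sinh c' = Real.sin (2 * p * d') * Real.sin d') :
    Real.cosh c' * (-Real.cos d') < Real.cos (π / p) := by
  obtain ⟨k1, k2⟩ := dom_key p hp c' d' hd' hd1' hc' h'
  have hp4 := dom_four_le p hp d' hd' hd1'
  have hp4' : (4 : ℝ) ≤ p := by exact_mod_cast hp4
  have hp0 : (0 : ℝ) < p := by linarith
  have hpi := Real.pi_pos
  have hcospos : 0 ≤ Real.cos (π / p) := by
    apply Real.cos_nonneg_of_neg_pi_div_two_le_of_le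
    · have : 0 < π / p := by positivity
      linarith
    · apply div_le_div_of_nonneg_left hpi.le (by norm_num) (by linarith)
  have hs1 := Real.sin_le_one d'
  have hs0 : 0 ≤ Real.sin d' := by
    have : 0 ≤ 2 * p * Real.sinh c' ^ 2 := by positivity
    linarith
  have h1 : Real.sinh c' ^ 2 ≤ Real.sin d' / (2 * p) := by
    rw [le_div_iff₀ (by positivity)]; linarith
  have h2 := Real.cosh_sq c'
  have h3 := Real.sin_sq_add_cos_sq d'
  have h4 := Real.sin_sq_add_cos_sq (π / p)
  apply lt_of_pow_lt_pow_left₀ 2 hcospos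
  have h5 : (Real.cosh c' * (-Real.cos d')) ^ 2
      = (Real.sinh c' ^ 2 + 1) * (1 - Real.sin d' ^ 2) := by
    rw [mul_pow, neg_sq, h2]
    have : Real.cos d' ^ 2 = 1 - Real.sin d' ^ 2 := by linarith
    rw [this]
  rw [h5]
  have h6 : 0 ≤ 1 - Real.sin d' ^ 2 := by nlinarith
  have h7 : Real.sinh c' ^ 2 * (1 - Real.sin d' ^ 2) ≤ Real.sin d' / (2 * p) * 1 := by
    apply mul_le_mul h1 _ h6 (by positivity)
    nlinarith
  nlinarith

/-- Comparison with the other roots on the left side. -/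
theorem dom_left (p : ℕ) (hp : 2 ≤ p) (C c d c' d' : ℝ) (hC : 0 ≤ C)
    (hd : π - π / p ≤ d) (hd1 : d ≤ π)
    (hd' : π / 2 < d') (hd1' : d' ≤ π - 3 * π / (2 * p)) (hc' : 0 ≤ c')
    (h' : Real.sinh (2 * p * c') * Real.sinh c' = Real.sin (2 * p * d') * Real.sin d') :
    ‖zz c' d' - 2 * (C : ℂ)‖ < ‖zz c d - 2 * (C : ℂ)‖ := by
  obtain ⟨k1, k2⟩ := dom_key p hp c' d' hd' hd1' hc' h'
  have k3 := dom_cosh_cos p hp c' d' hd' hd1' hc' h'
  have hp4 := dom_four_le p hp d' hd' hd1'
  have hp4' : (4 : ℝ) ≤ p := by exact_mod_cast hp4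
  have hp0 : (0 : ℝ) < p := by linarith
  have hpi := Real.pi_pos
  have hpp : π / p ≤ π / 2 := div_le_div_of_nonneg_left hpi.le (by norm_num) (by linarith)
  have hpp0 : 0 < π / p := by positivity
  -- cos d ≤ - cos (π/p)
  have hcosd : Real.cos d ≤ -Real.cos (π / p) := by
    rw [← Real.cos_pi_sub]
    apply Real.cos_le_cos_of_nonneg_of_le_pi <;> linarith
  have hcp : 0 ≤ Real.cos (π / p) := by
    apply Real.cos_nonneg_of_neg_pi_div_two_le_of_le <;> linarith
  have h1 : Real.sinh c' ^ 2 ≤ Real.sin d' / (2 * p) := by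
    rw [le_div_iff₀ (by positivity)]; linarith
  apply lt_of_pow_lt_pow_left₀ 2 (norm_nonneg _)
  rw [dist_sq, dist_sq]
  have hQ : 1 ≤ Real.cosh c := Real.one_le_cosh c
  have hS : 0 ≤ Real.sinh c ^ 2 := sq_nonneg _
  have h3 := Real.sin_sq_add_cos_sq d'
  have h4 := Real.sin_sq_add_cos_sq (π / p)
  have h5 : Real.cos (π / p) ^ 2 ≤ Real.cos d ^ 2 := by nlinarith
  have h6 : Real.cosh c * Real.cos d ≤ -Real.cos (π / p) := by nlinarith
  have h7 : Real.cosh c * Real.cos d * C ≤ Real.cosh c' * Real.cos d' * C := by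
    apply mul_le_mul_of_nonneg_right _ hC
    linarith
  have h8 : Real.cos d' ^ 2 + Real.sinh c' ^ 2 < Real.cos d ^ 2 + Real.sinh c ^ 2 := by
    linarith
  nlinarith

/-- Roots of the other strips on the left side are to the right of `-2 cos (π/p)`. -/
theorem re_left (p : ℕ) (hp : 2 ≤ p) (c' d' : ℝ)
    (hd' : π / 2 < d') (hd1' : d' ≤ π - 3 * π / (2 * p)) (hc' : 0 ≤ c')
    (h' : Real.sinh (2 * p * c') * Real.sinh c' = Real.sin (2 * p * d') * Real.sin d') :
    -2 * Real.cos (π / p) < (zz c' d').re := by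
  have k3 := dom_cosh_cos p hp c' d' hd' hd1' hc' h'
  rw [(cross_zz_parts c' d').1]
  linarith

/-- Lower bound for the distance of the leftmost root. -/
theorem dist_last (p : ℕ) (hp : 2 ≤ p) (C c d : ℝ) (hC : 0 ≤ C)
    (hd : π - π / p ≤ d) (hd1 : d ≤ π) :
    2 * (-Real.cos d + C) ≤ ‖zz c d - 2 * (C : ℂ)‖ ∧ (zz c d).re ≤ 2 * Real.cos d := by
  have hp2 : (2 : ℝ) ≤ p := by exact_mod_cast hp
  have hpi := Real.pi_pos
  have hpp : π / p ≤ π / 2 := div_le_div_of_nonneg_left hpi.le (by norm_num) hp2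
  have hcos : Real.cos d ≤ 0 := Real.cos_nonpos_of_pi_div_two_le_of_le (by linarith) (by linarith)
  have hQ : 1 ≤ Real.cosh c := Real.one_le_cosh c
  have hre : (zz c d).re ≤ 2 * Real.cos d := by
    rw [(cross_zz_parts c d).1]
    nlinarith
  refine ⟨?_, hre⟩
  have h1 := Complex.abs_re_le_norm (zz c d - 2 * (C : ℂ))
  have h2 : (zz c d - 2 * (C : ℂ)).re = (zz c d).re - 2 * C := by
    simp
  rw [h2] at h1
  have h3 := neg_abs_le ((zz c d).re - 2 * C)
  linarith

end Pool.Agent.H63.VC
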