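import Pool.Agent.H63.VC.Defs

/-! # Location of the roots of `V_p(z) = e^{it} V_{p-1}(z)` -/

namespace Pool.Agent.H63.VC

open Real Set

theorem NumRange_im_pos (m : ℕ) (z : ℂ) (hz : 0 < z.im) :
    0 < (chV (m + 1) z * (starRingEnd ℂ) (chV m z)).im := by
  induction m with
  | zero => simpa [chV] using hz
  | succ m ih =>
    have h1 : chV (m + 1) z ≠ 0 := by
      intro h
      rw [h] at ih
      simp at ih
    have h2 : chV (m + 2) z * (starRingEnd ℂ) (chV (m + 1) z) =
        z * (Complex.normSq (chV (m + 1) z) : ℂ) -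
          chV m z * (starRingEnd ℂ) (chV (m + 1) z) := by
      rw [← Complex.mul_conj]
      simp only [chV]
      ring
    have h3 : (chV m z * (starRingEnd ℂ) (chV (m + 1) z)).im =
        - (chV (m + 1) z * (starRingEnd ℂ) (chV m z)).im := by
      simp only [Complex.mul_im, Complex.conj_re, Complex.conj_im]
      ring
    rw [h2, Complex.sub_im, h3, Complex.im_mul_ofReal]
    have h4 : 0 < Complex.normSq (chV (m + 1) z) := Complex.normSq_pos.2 h1
    have h5 : 0 < z.im * Complex.normSq (chV (m + 1) z) := mul_pos hz h4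
    linarith

theorem chV_ne_zero (m : ℕ) (z : ℂ) (hz : 0 < z.im) : chV m z ≠ 0 := by
  intro h
  have := NumRange_im_pos m z hz
  rw [h] at this
  simp at this

/-- `‖v‖²` -/
noncomputable def NumRange_N (k : ℕ) (z : ℂ) : ℝ := ∑ m ∈ Finset.range (k + 1), Complex.normSq (chV m z)

/-- `2 Re ∑ conj(v_m) v_{m+1}` -/
noncomputable def NumRange_R (k : ℕ) (z : ℂ) : ℝ :=
  ∑ m ∈ Finset.range k, 2 * ((starRingEnd ℂ) (chV m z) * chV (m + 1) z).re

theorem NumRange_identity (k : ℕ) (z : ℂ) :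
    z * (NumRange_N k z : ℂ) = (starRingEnd ℂ) (chV k z) * chV (k + 1) z + ((1 + NumRange_R k z : ℝ) : ℂ) := by
  induction k with
  | zero => simp [NumRange_N, NumRange_R, chV]
  | succ k ih =>
    have h1 : NumRange_N (k + 1) z = NumRange_N k z + Complex.normSq (chV (k + 1) z) := by
      unfold NumRange_N; rw [Finset.sum_range_succ]
    have h2 : NumRange_R (k + 1) z = NumRange_R k z + 2 * ((starRingEnd ℂ) (chV k z) * chV (k + 1) z).re := by
      unfold NumRange_R; rw [Finset.sum_range_succ]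
    have h3 : (starRingEnd ℂ) (chV k z) * chV (k + 1) z + chV k z * (starRingEnd ℂ) (chV (k + 1) z)
        = ((2 * ((starRingEnd ℂ) (chV k z) * chV (k + 1) z).re : ℝ) : ℂ) := by
      apply Complex.ext
      · simp only [Complex.add_re, Complex.mul_re, Complex.conj_re, Complex.conj_im,
          Complex.ofReal_re]
        ring
      · simp only [Complex.add_im, Complex.mul_im, Complex.conj_re, Complex.conj_im,
          Complex.ofReal_im]
        ring
    have h4 : z * (Complex.normSq (chV (k + 1) z) : ℂ) =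
        (starRingEnd ℂ) (chV (k + 1) z) * chV (k + 2) z +
          chV k z * (starRingEnd ℂ) (chV (k + 1) z) := by
      rw [← Complex.mul_conj]
      simp only [chV]
      ring
    rw [h1, h2]
    push_cast at ih h3 ⊢
    rw [mul_add, ih, h4, ← h3]
    ring

theorem NumRange_N_pos (k : ℕ) (z : ℂ) : 1 ≤ NumRange_N k z := by
  unfold NumRange_N
  rw [Finset.sum_range_succ']
  have : 0 ≤ ∑ m ∈ Finset.range k, Complex.normSq (chV (m + 1) z) :=
    Finset.sum_nonneg fun _ _ => Complex.normSq_nonneg _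
  simpa [chV] using this

theorem NumRange_last_le (k : ℕ) (z : ℂ) : Complex.normSq (chV k z) ≤ NumRange_N k z := by
  unfold NumRange_N
  rw [Finset.sum_range_succ]
  have : 0 ≤ ∑ m ∈ Finset.range k, Complex.normSq (chV m z) :=
    Finset.sum_nonneg fun _ _ => Complex.normSq_nonneg _
  linarith

theorem NumRange_upper (k : ℕ) (z : ℂ) :
    0 ≤ 2 * NumRange_N k z - 1 - Complex.normSq (chV k z) - NumRange_R k z := by
  induction k with
  | zero => simp [NumRange_N, NumRange_R, chV]; norm_num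
  | succ k ih =>
    have h1 : NumRange_N (k + 1) z = NumRange_N k z + Complex.normSq (chV (k + 1) z) := by
      unfold NumRange_N; rw [Finset.sum_range_succ]
    have h2 : NumRange_R (k + 1) z = NumRange_R k z + 2 * ((starRingEnd ℂ) (chV k z) * chV (k + 1) z).re := by
      unfold NumRange_R; rw [Finset.sum_range_succ]
    have h3 : 0 ≤ Complex.normSq (chV (k + 1) z - chV k z) := Complex.normSq_nonneg _
    have h4 : Complex.normSq (chV (k + 1) z - chV k z) = Complex.normSq (chV (k + 1) z) +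
        Complex.normSq (chV k z) - 2 * ((starRingEnd ℂ) (chV k z) * chV (k + 1) z).re := by
      simp only [Complex.normSq_apply, Complex.sub_re, Complex.sub_im, Complex.mul_re,
        Complex.conj_re, Complex.conj_im]
      ring
    rw [h1, h2]
    linarith

theorem NumRange_lower (k : ℕ) (z : ℂ) :
    0 ≤ 1 + NumRange_R k z + 2 * NumRange_N k z - Complex.normSq (chV k z) := by
  induction k with
  | zero => simp [NumRange_N, NumRange_R, chV]
  | succ k ih =>
    have h1 : NumRange_N (k + 1) z = NumRange_N k z + Complex.normSq (chV (k + 1) z) := by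
      unfold NumRange_N; rw [Finset.sum_range_succ]
    have h2 : NumRange_R (k + 1) z = NumRange_R k z + 2 * ((starRingEnd ℂ) (chV k z) * chV (k + 1) z).re := by
      unfold NumRange_R; rw [Finset.sum_range_succ]
    have h3 : 0 ≤ Complex.normSq (chV (k + 1) z + chV k z) := Complex.normSq_nonneg _
    have h4 : Complex.normSq (chV (k + 1) z + chV k z) = Complex.normSq (chV (k + 1) z) +
        Complex.normSq (chV k z) + 2 * ((starRingEnd ℂ) (chV k z) * chV (k + 1) z).re := by
      simp only [Complex.normSq_apply, Complex.add_re, Complex.add_im, Complex.mul_re,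
        Complex.conj_re, Complex.conj_im]
      ring
    rw [h1, h2]
    linarith

theorem NumRange_not_both (k : ℕ) (z : ℂ) (h0 : chV k z = 0) (h1 : chV (k + 1) z = 0) : False := by
  induction k with
  | zero => simp [chV] at h0
  | succ k ih =>
    apply ih _ h0
    have h2 : chV (k + 2) z = z * chV (k + 1) z - chV k z := by simp only [chV]
    have h3 : chV (k + 2) z = 0 := h1
    rw [h0, h3] at h2
    simpa using h2.symm

/-- Numerical range: every root is `α + β e^{it}` with `0 < β ≤ 1` and `|α| ≤ 2 - β`. -/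
theorem root_num (p : ℕ) (hp : 1 ≤ p) (t : ℝ) (z : ℂ)
    (h : chV p z = Complex.exp (t * Complex.I) * chV (p - 1) z) :
    ∃ α β : ℝ, 0 < β ∧ β ≤ 1 ∧ α + β ≤ 2 ∧ -2 + β ≤ α ∧
      z = (α : ℂ) + (β : ℂ) * Complex.exp (t * Complex.I) := by
  obtain ⟨k, rfl⟩ : ∃ k, p = k + 1 := ⟨p - 1, by omega⟩
  rw [Nat.add_sub_cancel] at h
  have hN := NumRange_N_pos k z
  have hN0 : 0 < NumRange_N k z := by linarith
  have hv : chV k z ≠ 0 := by
    intro h0
    rw [h0, mul_zero] at h
    exact NumRange_not_both k z h0 h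
  have hv' : 0 < Complex.normSq (chV k z) := Complex.normSq_pos.2 hv
  refine ⟨(1 + NumRange_R k z) / NumRange_N k z, Complex.normSq (chV k z) / NumRange_N k z, by positivity, ?_, ?_, ?_,
    ?_⟩
  · rw [div_le_one hN0]; exact NumRange_last_le k z
  · rw [← add_div, div_le_iff₀ hN0]
    have := NumRange_upper k z
    linarith
  · have h1 : -2 + Complex.normSq (chV k z) / NumRange_N k z =
        (-2 * NumRange_N k z + Complex.normSq (chV k z)) / NumRange_N k z := by
      field_simp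
    rw [h1]
    apply div_le_div_of_nonneg_right _ hN0.le
    have := NumRange_lower k z
    linarith
  · have hid := NumRange_identity k z
    have hN1 : (NumRange_N k z : ℂ) ≠ 0 := by exact_mod_cast hN0.ne'
    have h2 : (starRingEnd ℂ) (chV k z) * chV (k + 1) z =
        (Complex.normSq (chV k z) : ℂ) * Complex.exp (t * Complex.I) := by
      rw [h, ← Complex.mul_conj]; ring
    rw [h2] at hid
    push_cast at hid ⊢
    field_simp
    rw [hid]
    ring

theorem NumRange_re_im (α β t : ℝ) (z : ℂ)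
    (h : z = (α : ℂ) + (β : ℂ) * Complex.exp (t * Complex.I)) :
    z.re = α + β * Real.cos t ∧ z.im = β * Real.sin t := by
  rw [h]
  constructor
  · rw [Complex.add_re, Complex.ofReal_re, Complex.re_ofReal_mul, Complex.exp_ofReal_mul_I_re]
  · rw [Complex.add_im, Complex.ofReal_im, Complex.im_ofReal_mul, Complex.exp_ofReal_mul_I_im,
      zero_add]

theorem root_bounds (p : ℕ) (hp : 1 ≤ p) (t : ℝ) (ht : t ∈ Ioo 0 π) (z : ℂ)
    (h : chV p z = Complex.exp (t * Complex.I) * chV (p - 1) z) :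
    0 < z.im ∧ z.im ≤ Real.sin t ∧
      z.re * Real.sin t + z.im * (1 - Real.cos t) ≤ 2 * Real.sin t ∧
      -2 * Real.sin t + z.im * (1 + Real.cos t) ≤ z.re * Real.sin t := by
  obtain ⟨α, β, hβ, hβ1, h1, h2, hz⟩ := root_num p hp t z h
  obtain ⟨hre, him⟩ := NumRange_re_im α β t z hz
  have hs : 0 < Real.sin t := Real.sin_pos_of_mem_Ioo ht
  rw [hre, him]
  refine ⟨by positivity, ?_, ?_, ?_⟩
  · nlinarith
  · have : (α + β * Real.cos t) * Real.sin t + β * Real.sin t * (1 - Real.cos t) =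
        (α + β) * Real.sin t := by ring
    rw [this]
    exact mul_le_mul_of_nonneg_right h1 hs.le
  · have : (α + β * Real.cos t) * Real.sin t - (-2 * Real.sin t + β * Real.sin t *
        (1 + Real.cos t)) = (α + 2 - β) * Real.sin t := by ring
    have h3 : 0 ≤ (α + 2 - β) * Real.sin t := mul_nonneg (by linarith) hs.le
    linarith

theorem NumRange_norm_sq (z : ℂ) (C : ℝ) : ‖z - 2 * (C : ℂ)‖ ^ 2 = (z.re - 2 * C) ^ 2 + z.im ^ 2 := by
  rw [← Complex.normSq_eq_norm_sq, Complex.normSq_apply]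
  simp
  ring

/-- On the second half of the circle all roots are in the disc. -/
theorem root_disc (p : ℕ) (hp : 1 ≤ p) (t : ℝ) (ht : t ∈ Icc (π / 2) π) (z : ℂ)
    (h : chV p z = Complex.exp (t * Complex.I) * chV (p - 1) z) :
    ‖z - 2 * (Real.cos t : ℂ)‖ ≤ 2 - 2 * Real.cos t := by
  obtain ⟨α, β, hβ, hβ1, h1, h2, hz⟩ := root_num p hp t z h
  obtain ⟨hre, him⟩ := NumRange_re_im α β t z hz
  have hC : Real.cos t ≤ 0 :=
    Real.cos_nonpos_of_pi_div_two_le_of_le ht.1 (by have := Real.pi_pos; linarith [ht.2])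
  have hC1 : -1 ≤ Real.cos t := Real.neg_one_le_cos t
  have hS : Real.sin t ^ 2 = 1 - Real.cos t ^ 2 := by
    have := Real.sin_sq_add_cos_sq t; linarith
  apply le_of_sq_le_sq _ (by linarith)
  rw [NumRange_norm_sq, hre, him, mul_pow, hS]
  set C := Real.cos t with hCdef
  have e : (α + β * C - 2 * C) ^ 2 + β ^ 2 * (1 - C ^ 2) =
      α ^ 2 + 2 * (α * ((2 - β) * (-C))) + (2 - β) ^ 2 * C ^ 2 + β ^ 2 * (1 - C ^ 2) := by ring
  rw [e]
  have a1 : α ^ 2 ≤ (2 - β) ^ 2 := by nlinarith
  have a2 : α * ((2 - β) * (-C)) ≤ (2 - β) * ((2 - β) * (-C)) :=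
    mul_le_mul_of_nonneg_right (by linarith) (mul_nonneg (by linarith) (by linarith))
  have a3 : (2 - β) ^ 2 * (1 - C) ^ 2 + β ^ 2 * (1 - C ^ 2) ≤ (2 - 2 * C) ^ 2 := by
    have : (2 - 2 * C) ^ 2 - ((2 - β) ^ 2 * (1 - C) ^ 2 + β ^ 2 * (1 - C ^ 2)) =
        2 * β * (1 - C) * (2 * (1 - C) - β) := by ring
    have h5 : 0 ≤ 2 * β * (1 - C) * (2 * (1 - C) - β) := by
      apply mul_nonneg
      · apply mul_nonneg <;> linarith
      · linarith
    linarith
  nlinarith

/-- Roots to the right of `2 cos t`, for `cos t < 1/2`. -/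
theorem root_right (p : ℕ) (hp : 1 ≤ p) (t : ℝ) (ht : t ∈ Ioo 0 π) (z : ℂ)
    (h : chV p z = Complex.exp (t * Complex.I) * chV (p - 1) z) (hre : 2 * Real.cos t ≤ z.re)
    (hC : Real.cos t < 1 / 2) :
    ‖z - 2 * (Real.cos t : ℂ)‖ < 2 - 2 * Real.cos t := by
  obtain ⟨α, β, hβ, hβ1, h1, h2, hz⟩ := root_num p hp t z h
  obtain ⟨hre', him⟩ := NumRange_re_im α β t z hz
  have hS : Real.sin t ^ 2 = 1 - Real.cos t ^ 2 := by
    have := Real.sin_sq_add_cos_sq t; linarith
  apply lt_of_pow_lt_pow_left₀ 2 (by linarith)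
  rw [NumRange_norm_sq, him, mul_pow, hS]
  set C := Real.cos t with hCdef
  have b1 : 0 ≤ z.re - 2 * C := by linarith
  have b2 : z.re - 2 * C ≤ (2 - β) * (1 - C) := by
    rw [hre']
    have : (2 - β) * (1 - C) - (α + β * C - 2 * C) = 2 - β - α := by ring
    linarith
  have b3 : (z.re - 2 * C) ^ 2 ≤ ((2 - β) * (1 - C)) ^ 2 := by
    apply pow_le_pow_left₀ b1 b2
  have a3 : (2 - β) ^ 2 * (1 - C) ^ 2 + β ^ 2 * (1 - C ^ 2) < (2 - 2 * C) ^ 2 := by
    have : (2 - 2 * C) ^ 2 - ((2 - β) ^ 2 * (1 - C) ^ 2 + β ^ 2 * (1 - C ^ 2)) =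
        2 * β * (1 - C) * (2 * (1 - C) - β) := by ring
    have h5 : 0 < 2 * β * (1 - C) * (2 * (1 - C) - β) := by
      apply mul_pos
      · apply mul_pos <;> linarith
      · linarith
    linarith
  rw [mul_pow] at b3
  linarith

/-- Roots to the right of `2 cos t`, for `cos t ≥ 1/2`. -/
theorem root_right' (p : ℕ) (hp : 1 ≤ p) (t : ℝ) (ht : t ∈ Ioo 0 π) (z : ℂ)
    (h : chV p z = Complex.exp (t * Complex.I) * chV (p - 1) z) (hre : 2 * Real.cos t ≤ z.re)
    (hC : 1 / 2 ≤ Real.cos t) :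
    ‖z - 2 * (Real.cos t : ℂ)‖ ≤ 1 := by
  obtain ⟨α, β, hβ, hβ1, h1, h2, hz⟩ := root_num p hp t z h
  obtain ⟨hre', him⟩ := NumRange_re_im α β t z hz
  have hS : Real.sin t ^ 2 = 1 - Real.cos t ^ 2 := by
    have := Real.sin_sq_add_cos_sq t; linarith
  have hC1 : Real.cos t ≤ 1 := Real.cos_le_one t
  apply le_of_sq_le_sq _ zero_le_one
  rw [NumRange_norm_sq, him, mul_pow, hS]
  set C := Real.cos t with hCdef
  have b1 : 0 ≤ z.re - 2 * C := by linarith
  have b2 : z.re - 2 * C ≤ (2 - β) * (1 - C) := by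
    rw [hre']
    have : (2 - β) * (1 - C) - (α + β * C - 2 * C) = 2 - β - α := by ring
    linarith
  have b3 : (z.re - 2 * C) ^ 2 ≤ ((2 - β) * (1 - C)) ^ 2 := by
    apply pow_le_pow_left₀ b1 b2
  have b4 : β ^ 2 ≤ β := by nlinarith
  have b5 : (1 - C) ^ 2 ≤ 1 / 4 := by nlinarith
  have b6 : (2 - β) ^ 2 * (1 - C) ^ 2 + β ^ 2 * (1 - C ^ 2) =
      4 * (1 - β) * (1 - C) ^ 2 + β ^ 2 * (2 * (1 - C)) := by ring
  have b7 : 4 * (1 - β) * (1 - C) ^ 2 ≤ 4 * (1 - β) * (1 / 4) :=
    mul_le_mul_of_nonneg_left b5 (by linarith)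
  have b8 : β ^ 2 * (2 * (1 - C)) ≤ β * 1 :=
    mul_le_mul b4 (by linarith) (by linarith) hβ.le
  rw [mul_pow] at b3
  linarith

end Pool.Agent.H63.VC
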