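import Pool.Agent.H63.VC.Strips
import Pool.Agent.H63.VC.NumRange

/-! # The shapes are not real -/

namespace Pool.Agent.H63.VC

open Real Set

theorem VolB_sinh_lt {a b c : ℝ} (hb : 0 < b) (hab : b < a) (hc : 0 < c) :
    a * Real.sinh (b * c) < b * Real.sinh (a * c) := by
  have hd : ∀ x : ℝ, HasDerivAt (fun x => b * Real.sinh (a * x) - a * Real.sinh (b * x))
      (b * (Real.cosh (a * x) * a) - a * (Real.cosh (b * x) * b)) x := by
    intro x
    have h1 : HasDerivAt (fun x : ℝ => a * x) a x := by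
      simpa using (hasDerivAt_id x).const_mul a
    have h2 : HasDerivAt (fun x : ℝ => b * x) b x := by
      simpa using (hasDerivAt_id x).const_mul b
    exact ((h1.sinh).const_mul b).sub ((h2.sinh).const_mul a)
  have hm : StrictMonoOn (fun x => b * Real.sinh (a * x) - a * Real.sinh (b * x)) (Ici 0) := by
    apply strictMonoOn_of_deriv_pos (convex_Ici 0)
    · intro x _
      exact (hd x).continuousAt.continuousWithinAt
    · intro x hx
      rw [interior_Ici] at hx
      have hx' : 0 < x := hx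
      rw [(hd x).deriv]
      have ha : 0 < a := hb.trans hab
      have h1 : Real.cosh (b * x) < Real.cosh (a * x) := by
        rw [Real.cosh_lt_cosh, abs_of_pos (mul_pos hb hx'), abs_of_pos (mul_pos ha hx')]
        exact mul_lt_mul_of_pos_right hab hx'
      have h2 : 0 < a * b := mul_pos ha hb
      linarith only [mul_pos (sub_pos.2 h1) (sub_pos.2 h2)]
  have := hm (Set.mem_Ici.2 le_rfl) (Set.mem_Ici.2 hc.le) hc
  simp only [mul_zero, Real.sinh_zero, sub_zero] at this
  linarith only [this]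

theorem VolB_sin_lt {a b x : ℝ} (hb : 0 < b) (hab : b < a) (hx : 0 < x) (hbx : b * x < π)
    (hax : a * x < 2 * π) : b * Real.sin (a * x) < a * Real.sin (b * x) := by
  have ha : 0 < a := hb.trans hab
  have h1 : 0 < Real.sin (b * x) := Real.sin_pos_of_pos_of_lt_pi (mul_pos hb hx) hbx
  rcases le_or_gt π (a * x) with h | h
  · have h2 : Real.sin (a * x) = - Real.sin (a * x - π) := by rw [Real.sin_sub_pi]; ring
    have h3 : 0 ≤ Real.sin (a * x - π) :=
      Real.sin_nonneg_of_nonneg_of_le_pi (by linarith only [h]) (by linarith only [hax])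
    have h4 : b * Real.sin (a * x) ≤ 0 := by
      rw [h2]; linarith only [mul_nonneg (sub_nonneg.2 hb.le) (sub_nonneg.2 h3)]
    have h5 : 0 < a * Real.sin (b * x) := mul_pos ha h1
    linarith only [h5, h4]
  · have hba : b / a < 1 := (div_lt_one ha).2 hab
    have hba0 : 0 < b / a := div_pos hb ha
    have h2 := strictConcaveOn_sin_Icc.2 (⟨le_rfl, Real.pi_pos.le⟩ : (0 : ℝ) ∈ Icc 0 π)
      (⟨(mul_pos ha hx).le, h.le⟩ : a * x ∈ Icc 0 π) (mul_pos ha hx).ne
      (by linarith only [hba] : (0 : ℝ) < 1 - b / a) hba0 (by ring)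
    simp only [smul_eq_mul, Real.sin_zero, mul_zero, zero_add] at h2
    have h3 : b / a * (a * x) = b * x := by field_simp
    rw [h3] at h2
    rw [div_mul_eq_mul_div, div_lt_iff₀ ha] at h2
    linarith only [h2]

theorem VolB_two_re (X Y : ℝ) : (2 * ((X : ℂ) + (Y : ℂ) * Complex.I)).re = 2 * X := by
  simp

theorem VolB_cosh (a b : ℝ) : Complex.cosh (a + b * Complex.I) =
    ((Real.cosh a * Real.cos b : ℝ) : ℂ) + ((Real.sinh a * Real.sin b : ℝ) : ℂ) * Complex.I := by
  rw [Complex.cosh_add, Complex.cosh_mul_I, Complex.sinh_mul_I]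
  push_cast
  ring

theorem VolB_sinh (a b : ℝ) : Complex.sinh (a + b * Complex.I) =
    ((Real.sinh a * Real.cos b : ℝ) : ℂ) + ((Real.cosh a * Real.sin b : ℝ) : ℂ) * Complex.I := by
  rw [Complex.sinh_add, Complex.cosh_mul_I, Complex.sinh_mul_I]
  push_cast
  ring

theorem VolB_chV_cosh (m : ℕ) (x : ℂ) :
    chV m (2 * Complex.cosh (2 * x)) * Complex.cosh x = Complex.cosh ((2 * m + 1) * x) := by
  induction m using Nat.twoStepInduction with
  | zero => simp [chV]
  | one =>
    have h1 : Complex.cosh ((2 * (1 : ℕ) + 1) * x) =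
        Complex.cosh (2 * x) * Complex.cosh x + Complex.sinh (2 * x) * Complex.sinh x := by
      rw [← Complex.cosh_add]; congr 1; push_cast; ring
    rw [h1, Complex.cosh_two_mul, Complex.sinh_two_mul]
    simp only [chV]
    have := Complex.cosh_sq x
    linear_combination (Complex.cosh x) * this
  | more m ih1 ih2 =>
    have h1 : Complex.cosh ((2 * (m + 2 : ℕ) + 1) * x) =
        2 * Complex.cosh (2 * x) * Complex.cosh ((2 * (m + 1 : ℕ) + 1) * x) -
          Complex.cosh ((2 * m + 1) * x) := by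
      have e1 : (2 * ((m + 2 : ℕ) : ℂ) + 1) * x = (2 * ((m + 1 : ℕ) : ℂ) + 1) * x + 2 * x := by
        push_cast; ring
      have e2 : (2 * (m : ℂ) + 1) * x = (2 * ((m + 1 : ℕ) : ℂ) + 1) * x - 2 * x := by
        push_cast; ring
      rw [e1, e2, Complex.cosh_add, Complex.cosh_sub]
      ring
    rw [h1, ← ih1, ← ih2]
    simp only [chV]
    ring

/-- `-R/2` -/
noncomputable def VolB_r (c δ y : ℝ) : ℝ :=
  -(Real.sinh c * Real.cos δ * Real.cosh (y * c) * Real.sin (y * δ)) +
    Real.cosh c * Real.sin δ * Real.sinh (y * c) * Real.cos (y * δ)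

/-- `-I/2` -/
noncomputable def VolB_g (c δ y : ℝ) : ℝ :=
  Real.cosh c * Real.sin δ * Real.cosh (y * c) * Real.sin (y * δ) +
    Real.sinh c * Real.cos δ * Real.sinh (y * c) * Real.cos (y * δ)

theorem VolB_im (i : ℕ) (c δ : ℝ) (hc : 0 < c) (hV : chV i (zz c (π - δ)) ≠ 0) :
    ∃ N : ℝ, 0 < N ∧ ((2 - zz c (π - δ)) / chV i (zz c (π - δ)) ^ 2).im =
      -(2 * (VolB_r c δ (i + 1 / 2) * VolB_g c δ (i + 1 / 2))) / N := by
  set d := π - δ with hd
  set y : ℝ := i + 1 / 2 with hy
  set x : ℂ := ((c / 2 : ℝ) : ℂ) + ((d / 2 : ℝ) : ℂ) * Complex.I with hx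
  have h2x : 2 * x = c + d * Complex.I := by rw [hx]; push_cast; ring
  have hz : zz c d = 2 * Complex.cosh (2 * x) := by rw [h2x]; rfl
  have hK : Complex.cosh x ≠ 0 := by
    rw [hx, VolB_cosh]
    intro h
    have h1 := congrArg Complex.re h
    have h2 := congrArg Complex.im h
    simp only [Complex.add_re, Complex.ofReal_re, Complex.mul_re, Complex.I_re, mul_zero,
      Complex.ofReal_im, Complex.I_im, mul_one, sub_self, add_zero, Complex.zero_re] at h1
    simp only [Complex.add_im, Complex.ofReal_im, Complex.mul_im, Complex.I_re, mul_zero,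
      Complex.ofReal_re, Complex.I_im, mul_one, add_zero, zero_add, Complex.zero_im] at h2
    have h3 : 0 < Real.cosh (c / 2) := Real.cosh_pos _
    have h4 : 0 < Real.sinh (c / 2) := Real.sinh_pos_iff.2 (by linarith only [hc])
    have h5 : Real.cos (d / 2) = 0 := by
      rcases mul_eq_zero.1 h1 with h | h
      · exact absurd h h3.ne'
      · exact h
    have h6 : Real.sin (d / 2) = 0 := by
      rcases mul_eq_zero.1 h2 with h | h
      · exact absurd h h4.ne'
      · exact h
    have := Real.sin_sq_add_cos_sq (d / 2)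
    rw [h5, h6] at this
    norm_num at this
  have hC := VolB_chV_cosh i x
  rw [← hz] at hC
  set Cy := Complex.cosh ((2 * i + 1) * x) with hCy
  have hCy0 : Cy ≠ 0 := by rw [← hC]; exact mul_ne_zero hV hK
  have hs : (2 - zz c d) * Complex.cosh x ^ 2 = - Complex.sinh (2 * x) ^ 2 := by
    rw [hz, Complex.sinh_two_mul, Complex.cosh_two_mul]
    have := Complex.cosh_sq x
    linear_combination (-2 * Complex.cosh x ^ 2) * this
  have hu : (2 - zz c d) / chV i (zz c d) ^ 2 = -(Complex.sinh (2 * x) / Cy) ^ 2 := by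
    rw [div_pow, ← hC, mul_pow, ← neg_div, ← hs]
    field_simp
  have hN : 0 < Complex.normSq Cy := Complex.normSq_pos.2 hCy0
  refine ⟨Complex.normSq Cy ^ 2, by positivity, ?_⟩
  have hdiv : Complex.sinh (2 * x) / Cy =
      (Complex.sinh (2 * x) * (starRingEnd ℂ) Cy) / (Complex.normSq Cy : ℂ) := by
    rw [← Complex.mul_conj]
    have : (starRingEnd ℂ) Cy ≠ 0 := by simpa using hCy0
    field_simp
  set P := Complex.sinh (2 * x) * (starRingEnd ℂ) Cy with hP
  have h1 : ((2 - zz c d) / chV i (zz c d) ^ 2).im = -(2 * (P.re * P.im)) /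
      Complex.normSq Cy ^ 2 := by
    rw [hu, hdiv, div_pow, Complex.neg_im]
    have e : (P ^ 2 / (Complex.normSq Cy : ℂ) ^ 2).im = (P ^ 2).im / Complex.normSq Cy ^ 2 := by
      have : ((Complex.normSq Cy : ℂ) ^ 2) = ((Complex.normSq Cy ^ 2 : ℝ) : ℂ) := by push_cast; rfl
      rw [this, Complex.div_ofReal_im]
    rw [e, pow_two P, Complex.mul_im]
    ring
  rw [h1]
  congr 3
  -- the product of real and imaginary parts
  have hyc : (2 * (i : ℂ) + 1) * x = ((y * c : ℝ) : ℂ) + ((y * d : ℝ) : ℂ) * Complex.I := by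
    rw [hx, hy]; push_cast; ring
  have hcos : Real.cos (y * d) = (-1) ^ i * Real.sin (y * δ) := by
    have : y * d = (π / 2 - y * δ) + i * π := by rw [hd, hy]; ring
    rw [this, Real.cos_add_nat_mul_pi, Real.cos_pi_div_two_sub]
  have hsin : Real.sin (y * d) = (-1) ^ i * Real.cos (y * δ) := by
    have : y * d = (π / 2 - y * δ) + i * π := by rw [hd, hy]; ring
    rw [this, Real.sin_add_nat_mul_pi, Real.sin_pi_div_two_sub]
  have hcd : Real.cos d = - Real.cos δ := by rw [hd, Real.cos_pi_sub]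
  have hsd : Real.sin d = Real.sin δ := by rw [hd, Real.sin_pi_sub]
  have hP1 : P.re = (-1) ^ i * VolB_r c δ y := by
    rw [hP, hCy, hyc, h2x, VolB_cosh, VolB_sinh, hcos, hsin, hcd, hsd]
    simp only [VolB_r, Complex.mul_re, Complex.mul_im, Complex.add_re, Complex.add_im,
      Complex.conj_re, Complex.conj_im, Complex.ofReal_re, Complex.ofReal_im, Complex.I_re,
      Complex.I_im]
    ring
  have hP2 : P.im = (-1) ^ i * VolB_g c δ y := by
    rw [hP, hCy, hyc, h2x, VolB_cosh, VolB_sinh, hcos, hsin, hcd, hsd]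
    simp only [VolB_g, Complex.mul_re, Complex.mul_im, Complex.add_re, Complex.add_im,
      Complex.conj_re, Complex.conj_im, Complex.ofReal_re, Complex.ofReal_im, Complex.I_re,
      Complex.I_im]
    ring
  rw [hP1, hP2]
  have : ((-1 : ℝ) ^ i) * ((-1 : ℝ) ^ i) = 1 := by
    rw [← mul_pow]; norm_num
  calc (-1) ^ i * VolB_r c δ y * ((-1) ^ i * VolB_g c δ y)
      = ((-1 : ℝ) ^ i * (-1) ^ i) * (VolB_r c δ y * VolB_g c δ y) := by ring
    _ = _ := by rw [this, one_mul]

theorem VolB_r_neg {c δ y : ℝ} (hc : 0 < c) (hδ : 0 < δ) (hy : 1 < y) (h1 : (y - 1) * δ < π)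
    (h2 : (y + 1) * δ < 2 * π) : VolB_r c δ y < 0 := by
  have hs := VolB_sinh_lt (a := y + 1) (b := y - 1) (c := c) (by linarith only [hy]) (by linarith only []) hc
  have ht := VolB_sin_lt (a := y + 1) (b := y - 1) (x := δ) (by linarith only [hy]) (by linarith only []) hδ h1 h2
  have hsb : 0 < Real.sinh ((y - 1) * c) := Real.sinh_pos_iff.2 (mul_pos (by linarith only [hy]) hc)
  have htb : 0 < Real.sin ((y - 1) * δ) :=
    Real.sin_pos_of_pos_of_lt_pi (mul_pos (by linarith only [hy]) hδ) h1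
  have e : -2 * VolB_r c δ y = Real.sinh ((y + 1) * c) * Real.sin ((y - 1) * δ) -
      Real.sinh ((y - 1) * c) * Real.sin ((y + 1) * δ) := by
    have e1 : (y + 1) * c = y * c + c := by ring
    have e2 : (y - 1) * c = y * c - c := by ring
    have e3 : (y + 1) * δ = y * δ + δ := by ring
    have e4 : (y - 1) * δ = y * δ - δ := by ring
    rw [e1, e2, e3, e4, Real.sinh_add, Real.sinh_sub, Real.sin_add, Real.sin_sub, VolB_r]
    ring
  have hb : 0 < y - 1 := by linarith only [hy]
  have k1 : (y + 1) * Real.sinh ((y - 1) * c) * Real.sin ((y - 1) * δ) <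
      (y - 1) * Real.sinh ((y + 1) * c) * Real.sin ((y - 1) * δ) :=
    mul_lt_mul_of_pos_right hs htb
  have k2 : Real.sinh ((y - 1) * c) * ((y - 1) * Real.sin ((y + 1) * δ)) <
      Real.sinh ((y - 1) * c) * ((y + 1) * Real.sin ((y - 1) * δ)) :=
    mul_lt_mul_of_pos_left ht hsb
  have k3 : 0 < (y - 1) * (Real.sinh ((y + 1) * c) * Real.sin ((y - 1) * δ) -
      Real.sinh ((y - 1) * c) * Real.sin ((y + 1) * δ)) := by linarith only [k2, k1]
  have k4 := (mul_pos_iff_of_pos_left hb).1 k3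
  linarith only [k4, e]

theorem VolB_g_pos {c δ y Y : ℝ} (hc : 0 < c) (hδ : 0 < δ) (hδ' : δ < π / 2) (hy : 0 < y)
    (hyY : y ≤ Y) (hY : Y * δ < π) (hg : 0 < VolB_g c δ Y) : 0 < VolB_g c δ y := by
  have hsc : 0 < Real.sinh c := Real.sinh_pos_iff.2 hc
  have hcc : 0 < Real.cosh c := Real.cosh_pos _
  have hsd : 0 < Real.sin δ := Real.sin_pos_of_pos_of_lt_pi hδ (by linarith only [hδ', hδ])
  have hcd : 0 < Real.cos δ := Real.cos_pos_of_mem_Ioo ⟨by linarith only [hδ', hδ], hδ'⟩
  have hyd : 0 < y * δ := mul_pos hy hδ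
  have hydY : y * δ ≤ Y * δ := mul_le_mul_of_nonneg_right hyY hδ.le
  have hsy : 0 < Real.sin (y * δ) := Real.sin_pos_of_pos_of_lt_pi hyd (by linarith only [hydY, hY])
  have hshy : 0 < Real.sinh (y * c) := Real.sinh_pos_iff.2 (mul_pos hy hc)
  have hchy : 0 < Real.cosh (y * c) := Real.cosh_pos _
  rcases le_or_gt 0 (Real.cos (y * δ)) with h | h
  · unfold VolB_g
    have k1 : 0 < Real.cosh c * Real.sin δ * Real.cosh (y * c) * Real.sin (y * δ) := by positivity
    have k2 : 0 ≤ Real.sinh c * Real.cos δ * Real.sinh (y * c) * Real.cos (y * δ) := by positivity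
    linarith only [k2, k1]
  · -- now `π/2 < y δ ≤ Y δ < π`
    have hhalf : π / 2 < y * δ := by
      by_contra hcon
      push Not at hcon
      exact absurd (Real.cos_nonneg_of_mem_Icc ⟨by linarith only [hyd, hδ', hδ], hcon⟩) (by linarith only [h])
    have hsY : Real.sin (Y * δ) ≤ Real.sin (y * δ) := by
      rw [← Real.sin_pi_sub (Y * δ), ← Real.sin_pi_sub (y * δ)]
      apply Real.sin_le_sin_of_le_of_le_pi_div_two <;> linarith
    have hcY : Real.cos (Y * δ) ≤ Real.cos (y * δ) :=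
      Real.cos_le_cos_of_nonneg_of_le_pi hyd.le hY.le hydY
    have hshY : 0 < Real.sinh (Y * c) := Real.sinh_pos_iff.2 (mul_pos (by linarith only [hyY, hy]) hc)
    have hchY : 0 < Real.cosh (Y * c) := Real.cosh_pos _
    have hsub : 0 ≤ Real.sinh (Y * c - y * c) := by
      apply Real.sinh_nonneg_iff.2
      linarith only [mul_nonneg (sub_nonneg.2 hc.le) (sub_nonneg.2 hyY)]
    rw [Real.sinh_sub] at hsub
    unfold VolB_g at hg ⊢
    set A := Real.cosh c * Real.sin δ with hA
    set B := Real.sinh c * Real.cos δ with hB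
    have hA0 : 0 < A := by positivity
    have hB0 : 0 < B := by positivity
    -- step 1
    have s1 : B * (Real.sinh (y * c) * Real.cosh (Y * c)) * (-Real.cos (y * δ)) ≤
        B * (Real.sinh (Y * c) * Real.cosh (y * c)) * (-Real.cos (Y * δ)) := by
      apply mul_le_mul
      · exact mul_le_mul_of_nonneg_left (by linarith only [hsub]) hB0.le
      · linarith only [hcY]
      · linarith only [h]
      · positivity
    have s2 : B * (Real.sinh (Y * c) * Real.cosh (y * c)) * (-Real.cos (Y * δ)) <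
        A * (Real.cosh (Y * c) * Real.cosh (y * c)) * Real.sin (Y * δ) := by
      have := mul_pos hchy hg
      linarith only [this]
    have s3 : A * (Real.cosh (Y * c) * Real.cosh (y * c)) * Real.sin (Y * δ) ≤
        A * (Real.cosh (Y * c) * Real.cosh (y * c)) * Real.sin (y * δ) :=
      mul_le_mul_of_nonneg_left hsY (by positivity)
    have s4 : 0 < Real.cosh (Y * c) * (A * Real.cosh (y * c) * Real.sin (y * δ) +
        B * Real.sinh (y * c) * Real.cos (y * δ)) := by linarith only [s3, s2, s1]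
    exact (mul_pos_iff_of_pos_left hchY).1 s4

/-- The invariant of the recursion. -/
theorem chV_invariant (m : ℕ) (z : ℂ) :
    chV (m + 1) z ^ 2 + chV m z ^ 2 - z * (chV (m + 1) z * chV m z) = 2 - z := by
  induction m with
  | zero => simp only [chV]; ring
  | succ m ih =>
    have h : chV (m + 2) z = z * chV (m + 1) z - chV m z := by simp only [chV]
    rw [h, ← ih]
    ring

theorem VolB_last_im (p : ℕ) (hp : 1 ≤ p) (t : ℝ) (z : ℂ) (ht : t ∈ Ioc 0 (π / 2))
    (hre : z.re < 0) (h : chV p z = Complex.exp (t * Complex.I) * chV (p - 1) z) :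
    0 < ((2 - z) / chV (p - 1) z ^ 2).im := by
  have hpi := Real.pi_pos
  have ht' : t ∈ Ioo 0 π := ⟨ht.1, by linarith only [ht.2, hpi]⟩
  obtain ⟨h1, h2, -, -⟩ := root_bounds p hp t ht' z h
  have hV := chV_ne_zero (p - 1) z h1
  obtain ⟨k, rfl⟩ : ∃ k, p = k + 1 := ⟨p - 1, by omega⟩
  rw [Nat.add_sub_cancel] at h hV ⊢
  have hinv := chV_invariant k z
  rw [h] at hinv
  have hu : (2 - z) / chV k z ^ 2 = Complex.exp (t * Complex.I) ^ 2 + 1 -
      z * Complex.exp (t * Complex.I) := by
    rw [← hinv]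
    field_simp
  rw [hu, pow_two]
  simp only [Complex.sub_im, Complex.add_im, Complex.mul_im, Complex.one_im,
    Complex.exp_ofReal_mul_I_re, Complex.exp_ofReal_mul_I_im]
  have hs : 0 < Real.sin t := Real.sin_pos_of_mem_Ioo ht'
  have hc : 0 ≤ Real.cos t := Real.cos_nonneg_of_mem_Icc ⟨by linarith only [ht.1, hpi], ht.2⟩
  have k1 : z.im * Real.cos t ≤ Real.sin t * Real.cos t := mul_le_mul_of_nonneg_right h2 hc
  have k2 : z.re * Real.sin t < 0 := mul_neg_of_neg_of_pos hre hs
  have k3 : 0 ≤ Real.sin t * Real.cos t := mul_nonneg hs.le hc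
  linarith only [k3, k2, k1]

theorem shape_im (p : ℕ) (hp : 2 ≤ p) (t c d : ℝ) (ht : t ∈ Ioc 0 (π / 2)) (hc : 0 < c)
    (hd : π - π / p < d) (hd1 : d < π - π / (2 * p))
    (h : chV p (zz c d) = Complex.exp (t * Complex.I) * chV (p - 1) (zz c d))
    (i : ℕ) (hi : i < p) : ((2 - zz c d) / chV i (zz c d) ^ 2).im ≠ 0 := by
  have hpi := Real.pi_pos
  have ht' : t ∈ Ioo 0 π := ⟨ht.1, by linarith only [ht.2, hpi]⟩
  obtain ⟨him, -, -, -⟩ := root_bounds p (by omega) t ht' _ h
  have hp' : (2 : ℝ) ≤ p := by exact_mod_cast hp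
  have hp0 : (0 : ℝ) < p := by linarith only [hp']
  obtain ⟨δ, rfl⟩ : ∃ δ, d = π - δ := ⟨π - d, by ring⟩
  have hδ1 : δ < π / p := by linarith only [hd]
  have hδ0 : 0 < δ := by
    have : 0 < π / (2 * p) := by positivity
    linarith only [this, hd1]
  have hδ2 : δ < π / 2 := by
    have : π / p ≤ π / 2 := div_le_div_of_nonneg_left hpi.le (by norm_num) hp'
    linarith only [this, hd]
  have hpδ : p * δ < π := by
    rw [lt_div_iff₀ hp0] at hδ1
    linarith only [hδ1]
  rcases Nat.eq_zero_or_pos i with rfl | hi0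
  · simp only [chV, one_pow, div_one]
    rw [Complex.sub_im]
    have : (2 : ℂ).im = 0 := by simp
    rw [this]
    intro h0
    linarith only [h0, him]
  · have hre : (zz c (π - δ)).re < 0 := by
      unfold zz
      rw [VolB_cosh, Real.cos_pi_sub]
      have hcd : 0 < Real.cos δ := Real.cos_pos_of_mem_Ioo ⟨by linarith only [hδ0, hpi], hδ2⟩
      have hcc : 0 < Real.cosh c := Real.cosh_pos c
      rw [VolB_two_re]
      have := mul_pos hcc hcd
      linarith only [this]
    have hr : ∀ j : ℕ, 1 ≤ j → j < p → VolB_r c δ (j + 1 / 2) < 0 := by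
      intro j hj hjp
      have hj1 : (1 : ℝ) ≤ j := by exact_mod_cast hj
      have hj2 : (j : ℝ) + 1 ≤ p := by exact_mod_cast hjp
      apply VolB_r_neg hc hδ0 (by linarith only [hj1])
      · have : ((j : ℝ) + 1 / 2 - 1) * δ ≤ p * δ :=
          mul_le_mul_of_nonneg_right (by linarith only [hj2]) hδ0.le
        linarith only [this, hpδ]
      · have : ((j : ℝ) + 1 / 2 + 1) * δ ≤ (2 * p) * δ :=
          mul_le_mul_of_nonneg_right (by linarith only [hj2, hp']) hδ0.le
        linarith only [this, hpδ]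
    -- the last shape
    have hlast : 0 < VolB_g c δ (((p - 1 : ℕ) : ℝ) + 1 / 2) := by
      have h1 := VolB_last_im p (by omega) t _ ht hre h
      obtain ⟨N, hN, hN2⟩ := VolB_im (p - 1) c δ hc (chV_ne_zero _ _ him)
      rw [hN2] at h1
      have h2 : 0 < -(2 * (VolB_r c δ (((p - 1 : ℕ) : ℝ) + 1 / 2) *
          VolB_g c δ (((p - 1 : ℕ) : ℝ) + 1 / 2))) := by
        have := mul_pos h1 hN
        rwa [div_mul_cancel₀ _ hN.ne'] at this
      have h3 := hr (p - 1) (by omega) (by omega)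
      by_contra hcon
      push Not at hcon
      have := mul_nonneg_of_nonpos_of_nonpos h3.le hcon
      linarith only [this, h2]
    obtain ⟨N, hN, hN2⟩ := VolB_im i c δ hc (chV_ne_zero _ _ him)
    rw [hN2]
    have h3 := hr i hi0 hi
    have hip : (i : ℝ) ≤ ((p - 1 : ℕ) : ℝ) := by
      exact_mod_cast (by omega : i ≤ p - 1)
    have hpp : ((p - 1 : ℕ) : ℝ) = (p : ℝ) - 1 := by
      rw [Nat.cast_sub (by omega)]; simp
    have h4 : 0 < VolB_g c δ (i + 1 / 2) := by
      apply VolB_g_pos hc hδ0 hδ2 (by positivity) _ _ hlast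
      · linarith only [hip]
      · rw [hpp]
        have : ((p : ℝ) - 1 + 1 / 2) * δ ≤ p * δ := mul_le_mul_of_nonneg_right (by linarith only []) hδ0.le
        linarith only [hpδ, hδ0]
    have h5 := mul_neg_of_neg_of_pos h3 h4
    have h6 : 0 < -(2 * (VolB_r c δ (i + 1 / 2) * VolB_g c δ (i + 1 / 2))) / N := by
      apply div_pos _ hN
      linarith only [h5]
    exact h6.ne'

/-- The real starting point. -/
theorem start_ne (p : ℕ) (hp : 2 ≤ p) (i : ℕ) (hi : i ≤ p) :
    chV i ((-2 * Real.cos (π / p) : ℝ) : ℂ) ≠ 0 := by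
  have hpi := Real.pi_pos
  have hp' : (2 : ℝ) ≤ p := by exact_mod_cast hp
  have hp0 : (0 : ℝ) < p := by linarith only [hp']
  set φ : ℝ := π - π / p with hφ
  have hz : ((-2 * Real.cos (π / p) : ℝ) : ℂ) =
      2 * Complex.cosh (2 * (((φ / 2 : ℝ) : ℂ) * Complex.I)) := by
    have : (2 : ℂ) * (((φ / 2 : ℝ) : ℂ) * Complex.I) = (φ : ℂ) * Complex.I := by
      push_cast; ring
    rw [this, Complex.cosh_mul_I, ← Complex.ofReal_cos, hφ, Real.cos_pi_sub]
    push_cast
    ring
  intro h0
  have h1 := VolB_chV_cosh i (((φ / 2 : ℝ) : ℂ) * Complex.I)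
  rw [← hz, h0, zero_mul] at h1
  have h2 : (2 * (i : ℂ) + 1) * (((φ / 2 : ℝ) : ℂ) * Complex.I) =
      (((i + 1 / 2) * φ : ℝ) : ℂ) * Complex.I := by push_cast; ring
  rw [h2, Complex.cosh_mul_I, ← Complex.ofReal_cos] at h1
  have h3 : Real.cos ((i + 1 / 2) * φ) = 0 := by exact_mod_cast h1.symm
  have h4 : ((i : ℝ) + 1 / 2) * φ = (π / 2 - (i + 1 / 2) * (π / p)) + i * π := by
    rw [hφ]; ring
  rw [h4, Real.cos_add_nat_mul_pi, Real.cos_pi_div_two_sub] at h3
  have h5 : Real.sin ((i + 1 / 2) * (π / p)) = 0 := by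
    rcases mul_eq_zero.1 h3 with h | h
    · exact absurd h (pow_ne_zero _ (by norm_num))
    · exact h
  have h6 : ((i : ℝ) + 1 / 2) * (π / p) = (i + 1 / 2) / p * π := by ring
  rw [h6] at h5
  rcases Nat.lt_or_ge i p with hip | hip
  · have hip' : (i : ℝ) + 1 ≤ p := by exact_mod_cast hip
    have k1 : 0 < ((i : ℝ) + 1 / 2) / p * π := by positivity
    have k2 : ((i : ℝ) + 1 / 2) / p * π < π := by
      have : ((i : ℝ) + 1 / 2) / p < 1 := by rw [div_lt_one hp0]; linarith only [hip']
      linarith only [mul_pos (sub_pos.2 hpi) (sub_pos.2 this)]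
    exact absurd h5 (Real.sin_pos_of_pos_of_lt_pi k1 k2).ne'
  · have hip' : i = p := le_antisymm hi hip
    subst hip'
    have k0 : ((i : ℝ) + 1 / 2) / i * π = π / (2 * i) + π := by
      field_simp
      ring
    rw [k0, Real.sin_add_pi] at h5
    have k1 : 0 < π / (2 * (i : ℝ)) := by positivity
    have k2 : π / (2 * (i : ℝ)) < π := by
      rw [div_lt_iff₀ (by positivity)]
      nlinarith
    have := Real.sin_pos_of_pos_of_lt_pi k1 k2
    linarith only [this, h5]

end Pool.Agent.H63.VC
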