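import Pool.Agent.H63.VC.Dom
import Pool.Agent.H63.VC.VolB

/-! # The path of the dominant root -/

namespace Pool.Agent.H63.VC

open Real Set

theorem rm_zz (c d : ℝ) : zz c d
    = ((2 * Real.cosh c * Real.cos d : ℝ) : ℂ) + ((2 * Real.sinh c * Real.sin d : ℝ) : ℂ) * Complex.I := by
  unfold zz
  rw [Complex.cosh_add, Complex.cosh_mul_I, Complex.sinh_mul_I]
  push_cast
  ring

theorem rm_zz_re (c d : ℝ) : (zz c d).re = 2 * Real.cosh c * Real.cos d := by
  rw [rm_zz, Complex.add_re, Complex.ofReal_re, Complex.re_ofReal_mul, Complex.I_re]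
  ring

theorem rm_zz_im (c d : ℝ) : (zz c d).im = 2 * Real.sinh c * Real.sin d := by
  rw [rm_zz, Complex.add_im, Complex.ofReal_im, Complex.im_ofReal_mul, Complex.I_im]
  ring

theorem rm_zz_zero (d : ℝ) : zz 0 d = ((2 * Real.cos d : ℝ) : ℂ) := by
  apply Complex.ext
  · rw [rm_zz_re, Complex.ofReal_re, Real.cosh_zero]; ring
  · rw [rm_zz_im, Complex.ofReal_im, Real.sinh_zero]; ring

theorem rm_two (w z z' : ℂ) (h : chV 2 z = w * chV 1 z) (h' : chV 2 z' = w * chV 1 z')
    (hne : z ≠ z') : z + z' = 1 + w := by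
  have e : ∀ z, chV 2 z = z * (z - 1) - 1 := fun z => rfl
  have e1 : ∀ z, chV 1 z = z - 1 := fun z => rfl
  rw [e, e1] at h h'
  have : (z - z') * (z + z' - (1 + w)) = 0 := by linear_combination h - h'
  rcases mul_eq_zero.1 this with h1 | h1
  · exact absurd (sub_eq_zero.1 h1) hne
  · exact sub_eq_zero.1 h1

theorem rm_norm_sq (z : ℂ) (C : ℝ) : ‖z - 2 * (C : ℂ)‖ ^ 2 = (z.re - 2 * C) ^ 2 + z.im ^ 2 := by
  rw [← Complex.normSq_eq_norm_sq, Complex.normSq_apply]
  simp
  ring

/-- Right half plane, `0 ≤ Re z < 2 cos t`. -/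
theorem rm_right (p : ℕ) (hp : 2 ≤ p) (t c d : ℝ) (ht : t ∈ Ioo 0 π) (z : ℂ)
    (hz : chV p z = Complex.exp (t * Complex.I) * chV (p - 1) z)
    (hroot : chV p (zz c d) = Complex.exp (t * Complex.I) * chV (p - 1) (zz c d))
    (hd : π - π / p < d) (hd' : d < π)
    (hre : 0 ≤ z.re) (hre2 : z.re < 2 * Real.cos t) :
    3 ≤ p ∧ ‖z - 2 * (Real.cos t : ℂ)‖ ^ 2 ≤ 4 * Real.cos t ^ 2 + Real.sin t ^ 2 ∧
      1 / 2 ≤ -Real.cos d := by
  have hpR : (2 : ℝ) ≤ p := by exact_mod_cast hp
  have hpi := pi_pos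
  have hC1 : Real.cos t ≤ 1 := Real.cos_le_one t
  have hC0 : 0 < Real.cos t := by linarith only [hre2, hre]
  have hd2 : π / 2 < d := by
    have : π / p ≤ π / 2 := by gcongr
    linarith only [this, hd]
  have hcosd : Real.cos d < 0 := Real.cos_neg_of_pi_div_two_lt_of_lt hd2 (by linarith only [hpi,
                                                                               hd'])
  have hdl := dist_last p hp (Real.cos t) c d hC0.le hd.le hd'.le
  have hp3 : 3 ≤ p := by
    by_contra hlt
    have hp2 : p = 2 := by omega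
    subst hp2
    have hne : z ≠ zz c d := by
      intro h
      rw [h] at hre
      linarith only [hdl.2, hcosd, hre]
    have h2 := rm_two _ z (zz c d) hz hroot hne
    have h3 := congrArg Complex.re h2
    rw [Complex.add_re, Complex.add_re, Complex.exp_ofReal_mul_I_re, Complex.one_re] at h3
    linarith only [h3, hdl.2, hcosd, hC1, hre2]
  refine ⟨hp3, ?_, ?_⟩
  · have hb := root_bounds p (by omega) t ht z hz
    rw [rm_norm_sq]
    have h1 : (z.re - 2 * Real.cos t) ^ 2 ≤ 4 * Real.cos t ^ 2 := by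
      have h3 := mul_nonneg hre (by linarith only [hre2, hre] : 0 ≤ 4 * Real.cos t - z.re)
      have e : (z.re - 2 * Real.cos t) ^ 2 = 4 * Real.cos t ^ 2 - z.re * (4 * Real.cos t - z.re) := by
        ring
      linarith only [h3]
    have h2 : z.im ^ 2 ≤ Real.sin t ^ 2 := pow_le_pow_left₀ hb.1.le hb.2.1 2
    linarith only [h2, h1]
  · have hp3R : (3 : ℝ) ≤ p := by exact_mod_cast hp3
    have h1 : π / p ≤ π / 3 := by gcongr
    have h2 : Real.cos d ≤ Real.cos (π - π / 3) := by
      apply Real.cos_le_cos_of_nonneg_of_le_pi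
      · linarith only [hpi]
      · exact hd'.le
      · linarith only [h1, hd]
    rw [Real.cos_pi_sub, Real.cos_pi_div_three] at h2
    linarith only [h2]

theorem roots_main (p : ℕ) (hp : 2 ≤ p) : ∃ (ts : ℝ) (zd : ℝ → ℂ),
    0 < ts ∧ ts ≤ π / 2 ∧ ContinuousOn zd (Icc 0 ts) ∧
    (∀ t ∈ Icc 0 ts, chV p (zd t) = Complex.exp (t * Complex.I) * chV (p - 1) (zd t)) ∧
    (∀ t ∈ Icc 0 ts, ∀ i ≤ p, chV i (zd t) ≠ 0) ∧
    (∀ t ∈ Icc 0 ts, ∑ m ∈ Finset.range p, chV m (zd t) ^ 2 ≠ 0) ∧
    zd 0 = ((-2 * Real.cos (π / p) : ℝ) : ℂ) ∧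
    (∀ t ∈ Ioc 0 ts, ∀ i < p, ((2 - zd t) / chV i (zd t) ^ 2).im ≠ 0) ∧
    (∀ t ∈ Icc 0 ts, ∀ z : ℂ, chV p z = Complex.exp (t * Complex.I) * chV (p - 1) z → z ≠ zd t →
      ‖z - 2 * (Real.cos t : ℂ)‖ < ‖zd t - 2 * (Real.cos t : ℂ)‖) ∧
    (∀ t ∈ Icc 0 ts, 2 - 2 * Real.cos t ≤ ‖zd t - 2 * (Real.cos t : ℂ)‖) ∧
    ‖zd ts - 2 * (Real.cos ts : ℂ)‖ = 2 - 2 * Real.cos ts ∧
    (∀ t ∈ Icc ts π, ∀ z : ℂ, chV p z = Complex.exp (t * Complex.I) * chV (p - 1) z →
      ‖z - 2 * (Real.cos t : ℂ)‖ ≤ 2 - 2 * Real.cos t) ∧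
    (∀ t ∈ Ioc 0 ts, ∃ c d : ℝ, zd t = zz c d ∧ 0 < c ∧ π - π / p < d ∧ d < π) ∧
    IsGeom p (zd ts) ∧ ∀ z, IsGeom p z → z = zd ts := by
  obtain ⟨c, d, hcd, hroot, hstrict, hall⟩ := strips p (by omega)
  have hpi := pi_pos
  have hpR : (2 : ℝ) ≤ p := by exact_mod_cast hp
  have hp0 : (0 : ℝ) < p := by linarith only [hpR]
  have hlt : p - 1 < p := by omega
  have hcast : ((p - 1 : ℕ) : ℝ) = p - 1 := by
    rw [Nat.cast_sub (by omega)]; simp
  have e1 : π * ((p - 1 : ℕ) : ℝ) / p = π - π / p := by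
    rw [hcast]; field_simp
  have e2 : π * (2 * ((p - 1 : ℕ) : ℝ) + 1) / (2 * p) = π - π / (2 * p) := by
    rw [hcast]; field_simp; ring
  have hpp : π / p ≤ π / 2 := by gcongr
  have hpp0 : 0 < π / p := by positivity
  have hpp2 : 0 < π / (2 * p) := by positivity
  -- facts about the last strip
  have hLc : ContinuousOn (c (p - 1)) (Icc 0 π) := (hcd _ hlt).1
  have hLd : ContinuousOn (d (p - 1)) (Icc 0 π) := (hcd _ hlt).2.1
  have hLmono := (hcd _ hlt).2.2.1
  have hLd0 : d (p - 1) 0 = π - π / p := by rw [(hcd _ hlt).2.2.2.1, e1]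
  have hLc0 : c (p - 1) 0 = 0 := (hcd _ hlt).2.2.2.2
  have hLb : ∀ t ∈ Icc 0 π, π - π / p ≤ d (p - 1) t ∧ d (p - 1) t ≤ π - π / (2 * p) := by
    intro t ht
    have h := hroot _ hlt t ht
    rw [e1, e2] at h
    exact ⟨h.1, h.2.1⟩
  have hLs : ∀ t ∈ Ioo 0 π, 0 < c (p - 1) t ∧ π - π / p < d (p - 1) t ∧
      d (p - 1) t < π - π / (2 * p) := by
    intro t ht
    have h := hstrict _ hlt t ht
    rw [e1, e2] at h
    exact h
  -- facts about other strips
  have hOb : ∀ j < p - 1, ∀ t ∈ Icc 0 π, 0 ≤ d j t ∧ d j t ≤ π - 3 * π / (2 * p) := by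
    intro j hj t ht
    have h := hroot j (by omega) t ht
    refine ⟨le_trans (by positivity) h.1, h.2.1.trans ?_⟩
    have hjR : (j : ℝ) + 1 ≤ p - 1 := by
      rw [← hcast]; exact_mod_cast hj
    have : π * (2 * (j : ℝ) + 1) / (2 * p) ≤ π * (2 * (p - 2) + 1) / (2 * p) := by
      gcongr
      linarith only [hjR]
    refine this.trans (le_of_eq ?_)
    field_simp
    ring
  have hpos : ∀ j < p, ∀ t ∈ Ioo 0 π, 0 < d j t ∧ d j t < π := by
    intro j hj t ht
    have h := hstrict j hj t ht
    refine ⟨lt_of_le_of_lt (by positivity) h.2.1, ?_⟩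
    refine lt_of_lt_of_le h.2.2 ?_
    have hjR : (j : ℝ) + 1 ≤ p := by exact_mod_cast hj
    rw [div_le_iff₀ (by positivity)]
    exact mul_le_mul_of_nonneg_left (by linarith only [hjR]) hpi.le
  have hzdroot : ∀ t ∈ Icc 0 π, chV p (zz (c (p - 1) t) (d (p - 1) t))
      = Complex.exp (t * Complex.I) * chV (p - 1) (zz (c (p - 1) t) (d (p - 1) t)) :=
    fun t ht => (hroot _ hlt t ht).2.2.2.2.1
  have hgg : ∀ j < p, ∀ t ∈ Ioo 0 π,
      (0 ≤ gg p (c j t) (d j t) ↔ ‖zz (c j t) (d j t) - 2 * (Real.cos t : ℂ)‖ ≤ 2 - 2 * Real.cos t) ∧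
      (gg p (c j t) (d j t) = 0 ↔ ‖zz (c j t) (d j t) - 2 * (Real.cos t : ℂ)‖ = 2 - 2 * Real.cos t) := by
    intro j hj t ht
    have h := hroot j hj t ⟨ht.1.le, ht.2.le⟩
    exact gg_nonneg_iff p (by omega) t _ _ (hpos j hj t ht).1 (hpos j hj t ht).2 h.2.2.2.2.1
      h.2.2.2.2.2.1
  have hgc : ∀ j < p, ContinuousOn (fun t => gg p (c j t) (d j t)) (Icc 0 π) := by
    intro j hj
    have h1 := (hcd j hj).1
    have h2 := (hcd j hj).2.1
    unfold gg
    fun_prop
  have hghalf : ∀ j < p, 0 ≤ gg p (c j (π / 2)) (d j (π / 2)) := by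
    intro j hj
    have ht : π / 2 ∈ Ioo 0 π := ⟨by linarith only [hpi], by linarith only [hpi]⟩
    rw [(hgg j hj _ ht).1]
    exact root_disc p (by omega) (π / 2) ⟨le_rfl, by linarith only [hpi]⟩ _
      (hroot j hj _ ⟨ht.1.le, ht.2.le⟩).2.2.2.2.1
  have hG0 : gg p (c (p - 1) 0) (d (p - 1) 0) < 0 := by
    rw [hLc0, hLd0]
    unfold gg
    have h1 : Real.cos (2 * p * (π - π / p)) = 1 := by
      have : 2 * (p : ℝ) * (π - π / p) = ((p - 1 : ℕ) : ℝ) * (2 * π) := by
        rw [hcast]; field_simp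
      rw [this, Real.cos_nat_mul_two_pi]
    rw [h1, mul_zero, Real.cosh_zero, Real.cos_pi_sub]
    have h2 : Real.cos (π / p) < 1 := by
      have := Real.cos_lt_cos_of_nonneg_of_le_pi le_rfl (by linarith only [hpp, hpi] : π / p ≤ π) hpp0
      rwa [Real.cos_zero] at this
    linarith only [h2]
  -- the crossing
  obtain ⟨ts, hts, hGts⟩ : ∃ ts ∈ Icc 0 (π / 2), gg p (c (p - 1) ts) (d (p - 1) ts) = 0 := by
    have h := intermediate_value_Icc (by linarith only [hpi] : (0 : ℝ) ≤ π / 2)
      ((hgc _ hlt).mono (Icc_subset_Icc_right (by linarith only [hpi])))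
    obtain ⟨ts, h1, h2⟩ := h ⟨hG0.le, hghalf _ hlt⟩
    exact ⟨ts, h1, h2⟩
  have hts0 : 0 < ts := by
    rcases hts.1.eq_or_lt with h | h
    · rw [← h] at hGts; linarith only [hGts, hG0]
    · exact h
  have htsπ : ts ∈ Ioo 0 π := ⟨hts0, by linarith only [hts.2, hpp0, hpp]⟩
  have huniq : ∀ t ∈ Ioo 0 π, gg p (c (p - 1) t) (d (p - 1) t) = 0 → t = ts := by
    intro t ht hg
    have h1 := hroot _ hlt t ⟨ht.1.le, ht.2.le⟩
    have h2 := hroot _ hlt ts ⟨htsπ.1.le, htsπ.2.le⟩
    have h3 := hLs t ht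
    have h4 := hLs ts htsπ
    have h := cross_unique p (by omega) (c (p - 1) t) (d (p - 1) t) (c (p - 1) ts) (d (p - 1) ts)
      h3.1 h4.1 h1.2.2.2.1 h2.2.2.2.1 h3.2.1 h3.2.2 h4.2.1 h4.2.2 hg hGts
    exact hLmono.injOn ⟨ht.1.le, ht.2.le⟩ ⟨htsπ.1.le, htsπ.2.le⟩ h.1
  have hGneg : ∀ t ∈ Icc 0 ts, gg p (c (p - 1) t) (d (p - 1) t) ≤ 0 := by
    intro t ht
    by_contra hcon
    push Not at hcon
    have h := intermediate_value_Icc ht.1
      ((hgc _ hlt).mono (Icc_subset_Icc_right (by linarith only [htsπ.2, ht.2])))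
    obtain ⟨s, h1, h2⟩ := h ⟨hG0.le, hcon.le⟩
    simp only at h2
    have hs0 : 0 < s := by
      rcases h1.1.eq_or_lt with h | h
      · rw [← h] at h2; linarith only [h2, hG0]
      · exact h
    have h3 := huniq s ⟨hs0, by linarith only [htsπ.2, ht.2, h1.2]⟩ h2
    have h4 : t = ts := le_antisymm ht.2 (h3 ▸ h1.2)
    rw [h4] at hcon
    linarith only [hcon, hGts]
  have hGpos : ∀ t ∈ Icc ts (π / 2), 0 ≤ gg p (c (p - 1) t) (d (p - 1) t) := by
    intro t ht
    by_contra hcon
    push Not at hcon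
    have h := intermediate_value_Icc ht.2
      ((hgc _ hlt).mono (Icc_subset_Icc (by linarith only [ht.1, hts0]) (by linarith only [hpi])))
    obtain ⟨s, h1, h2⟩ := h ⟨hcon.le, hghalf _ hlt⟩
    simp only at h2
    have h3 := huniq s ⟨by linarith only [ht.1, h1.1, hts0], by linarith only [h1.2, hpp0, hpp]⟩ h2
    have h4 : t = ts := le_antisymm (h3 ▸ h1.1) ht.1
    rw [h4] at hcon
    linarith only [hcon, hGts]
  have hcosneg : ∀ t ∈ Ioo 0 π, Real.cos (d (p - 1) t) < 0 := by
    intro t ht
    have h := hLs t ht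
    exact Real.cos_neg_of_pi_div_two_lt_of_lt (by linarith only [h.2.1, hpp]) (by linarith only [h.2.2,
                                                                                    hpp2, hpp0, hpp])
  have hge : ∀ t ∈ Icc 0 ts, 2 - 2 * Real.cos t ≤
      ‖zz (c (p - 1) t) (d (p - 1) t) - 2 * (Real.cos t : ℂ)‖ := by
    intro t ht
    rcases ht.1.eq_or_lt with h | h
    · rw [← h]; simp
    · by_contra hcon
      push Not at hcon
      have ht' : t ∈ Ioo 0 π := ⟨h, by linarith only [htsπ.2, ht.2]⟩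
      have h1 := (hgg _ hlt t ht').1.2 hcon.le
      have h2 := le_antisymm (hGneg t ht) h1
      have h3 := (hgg _ hlt t ht').2.1 h2
      linarith only [h3, hcon]
  have heq := (hgg _ hlt ts htsπ).2.1 hGts
  have hctsle : 2 * Real.cos ts ≤ 1 + Real.cos (d (p - 1) ts) := by
    have h := (dist_last p hp (Real.cos ts) (c (p - 1) ts) (d (p - 1) ts)
      (Real.cos_nonneg_of_mem_Icc ⟨by linarith only [hts0, hpp0, hpp], hts.2⟩) (hLs ts htsπ).2.1.le (by linarith only [(hLs ts htsπ).2.2,
                                                                                                          hpp2])).1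
    rw [heq] at h
    linarith only [h]
  refine ⟨ts, fun t => zz (c (p - 1) t) (d (p - 1) t), hts0, hts.2, ?_, ?_, ?_, ?_, ?_, ?_, ?_, hge,
    heq, ?_, ?_, ?_, ?_⟩
  · -- continuity
    have h1 : ContinuousOn (c (p - 1)) (Icc 0 ts) := hLc.mono (Icc_subset_Icc_right (by linarith only [hts.2,
                                                                                          hpp0, hpp]))
    have h2 : ContinuousOn (d (p - 1)) (Icc 0 ts) := hLd.mono (Icc_subset_Icc_right (by linarith only [hts.2,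
                                                                                          hpp0, hpp]))
    unfold zz
    fun_prop
  · intro t ht
    exact hzdroot t ⟨ht.1, by linarith only [htsπ.2, ht.2]⟩
  · intro t ht i hi
    rcases ht.1.eq_or_lt with h | h
    · have h1 := start_ne p hp i hi
      have h2 : zz (c (p - 1) t) (d (p - 1) t) = ((-2 * Real.cos (π / p) : ℝ) : ℂ) := by
        rw [← h, hLc0, hLd0, rm_zz_zero, Real.cos_pi_sub]
        congr 1; ring
      simp only
      rw [h2]
      exact h1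
    · have ht' : t ∈ Ioo 0 π := ⟨h, by linarith only [htsπ.2, ht.2]⟩
      exact chV_ne_zero i _ (root_bounds p (by omega) t ht' _ (hzdroot t ⟨ht.1, ht'.2.le⟩)).1
  · intro t ht
    exact (hroot _ hlt t ⟨ht.1, by linarith only [htsπ.2, ht.2]⟩).2.2.2.2.2.2
  · simp only
    rw [hLc0, hLd0, rm_zz_zero, Real.cos_pi_sub]
    congr 1; ring
  · intro t ht i hi
    have ht' : t ∈ Ioo 0 π := ⟨ht.1, by linarith only [htsπ.2, ht.2]⟩
    have h := hLs t ht'
    exact shape_im p hp t _ _ ⟨ht.1, ht.2.trans hts.2⟩ h.1 h.2.1 h.2.2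
      (hzdroot t ⟨ht.1.le, ht'.2.le⟩) i hi
  · -- dominance
    intro t ht z hz hne
    have htπ : t ∈ Icc 0 π := ⟨ht.1, by linarith only [htsπ.2, ht.2]⟩
    obtain ⟨j, hj, rfl⟩ := hall t htπ z hz
    simp only at hne ⊢
    have hj1 : j < p - 1 := by
      rcases Nat.lt_or_ge j (p - 1) with h | h
      · exact h
      · have : j = p - 1 := by omega
        subst this
        exact absurd rfl hne
    rcases ht.1.eq_or_lt with h | h
    · subst h
      rw [hLc0, hLd0, (hcd j hj).2.2.2.1, (hcd j hj).2.2.2.2, rm_zz_zero, rm_zz_zero, Real.cos_zero]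
      have e3 : ∀ x : ℝ, ‖((2 * Real.cos x : ℝ) : ℂ) - 2 * ((1 : ℝ) : ℂ)‖ = 2 - 2 * Real.cos x := by
        intro x
        have : ((2 * Real.cos x : ℝ) : ℂ) - 2 * ((1 : ℝ) : ℂ) = ((2 * Real.cos x - 2 : ℝ) : ℂ) := by
          push_cast; ring
        rw [this, Complex.norm_real, Real.norm_eq_abs, abs_of_nonpos (by linarith only [Real.cos_le_one x])]
        ring
      rw [e3, e3]
      have h1 : π * j / p < π - π / p := by
        rw [← e1]
        have : (j : ℝ) < ((p - 1 : ℕ) : ℝ) := by exact_mod_cast hj1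
        gcongr
      have := Real.cos_lt_cos_of_nonneg_of_le_pi (by positivity : 0 ≤ π * j / p)
        (by linarith only [hpp0] : π - π / p ≤ π) h1
      linarith only [this]
    · have ht' : t ∈ Ioo 0 π := ⟨h, by linarith only [htsπ.2, ht.2]⟩
      have hC0 : 0 ≤ Real.cos t := Real.cos_nonneg_of_mem_Icc ⟨by linarith only [h, hpp0, hpp], ht.2.trans hts.2⟩
      have hLt := hLs t ht'
      have hOt := hOb j hj1 t htπ
      have hrj := hroot j hj t htπ
      have hdl := dist_last p hp (Real.cos t) (c (p - 1) t) (d (p - 1) t) hC0 hLt.2.1.le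
        (by linarith only [hLt.2.2, hpp2])
      rcases lt_or_ge (π / 2) (d j t) with hd2 | hd2
      · exact dom_left p hp (Real.cos t) _ _ _ _ hC0 hLt.2.1.le (by linarith only [hLt.2.2, hpp2]) hd2 hOt.2
          hrj.2.2.1 hrj.2.2.2.1
      · have hre0 : 0 ≤ (zz (c j t) (d j t)).re := by
          rw [rm_zz_re]
          have h1 : 0 ≤ Real.cos (d j t) := Real.cos_nonneg_of_mem_Icc ⟨by linarith only [hOt.1,
                                                                             hLt.2.2, hLt.2.1, hpp2,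
                                                                             hpp], hd2⟩
          have h2 := Real.cosh_pos (c j t)
          positivity
        rcases le_or_gt (2 * Real.cos t) (zz (c j t) (d j t)).re with hre | hre
        · rcases lt_or_ge (Real.cos t) (1 / 2) with hC | hC
          · exact lt_of_lt_of_le (root_right p (by omega) t ht' _ hz hre hC) (hge t ht)
          · have h1 := root_right' p (by omega) t ht' _ hz hre hC
            have h2 := hcosneg t ht'
            linarith only [h2, h1, hC, hdl.1]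
        · obtain ⟨hp3, h1, h2⟩ := rm_right p hp t _ _ ht' _ hz (hzdroot t htπ) hLt.2.1
            (by linarith only [hLt.2.2, hpp2]) hre0 hre
          have h3 : 1 + 2 * Real.cos t ≤ ‖zz (c (p - 1) t) (d (p - 1) t) - 2 * (Real.cos t : ℂ)‖ := by
            linarith only [h2, hdl.1]
          have hCpos : 0 < Real.cos t := by linarith only [hre, hre0]
          have h4 : Real.sin t ^ 2 ≤ 1 := Real.sin_sq_le_one t
          have h5 := pow_le_pow_left₀ (by linarith only [hC0] : 0 ≤ 1 + 2 * Real.cos t) h3 2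
          have h6 : (1 + 2 * Real.cos t) ^ 2 = 1 + 4 * Real.cos t + 4 * Real.cos t ^ 2 := by ring
          apply lt_of_pow_lt_pow_left₀ 2 (norm_nonneg _)
          linarith only [h5, h4, hCpos, h1]
  · -- upper bound on [ts, π]
    intro t ht z hz
    rcases le_or_gt (π / 2) t with hhalf | hhalf
    · exact root_disc p (by omega) t ⟨hhalf, ht.2⟩ z hz
    have htπ : t ∈ Icc 0 π := ⟨hts0.le.trans ht.1, ht.2⟩
    have ht' : t ∈ Ioo 0 π := ⟨lt_of_lt_of_le hts0 ht.1, by linarith only [hhalf, hpp0, hpp]⟩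
    have hC0 : 0 < Real.cos t := Real.cos_pos_of_mem_Ioo ⟨by linarith only [ht'.1, hpp0, hpp], hhalf⟩
    obtain ⟨j, hj, rfl⟩ := hall t htπ z hz
    rcases Nat.lt_or_ge j (p - 1) with hj1 | hj1
    swap
    · have : j = p - 1 := by omega
      subst this
      exact (hgg _ hlt t ht').1.1 (hGpos t ⟨ht.1, hhalf.le⟩)
    have hLt := hLs t ht'
    have hOt := hOb j hj1 t htπ
    have hrj := hroot j hj t htπ
    rcases lt_or_ge (π / 2) (d j t) with hd2 | hd2
    · by_contra hcon
      rw [← (hgg j hj t ht').1] at hcon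
      push Not at hcon
      have h := intermediate_value_Icc hhalf.le
        ((hgc j hj).mono (Icc_subset_Icc ht'.1.le (by linarith only [hpi])))
      obtain ⟨s, h1, h2⟩ := h ⟨hcon.le, hghalf j hj⟩
      simp only at h2
      have hs' : s ∈ Ioo 0 π := ⟨by linarith only [ht'.1, h1.1], by linarith only [h1.2, hLt.2.2,
                                                                      hLt.2.1, hpp2, hpp]⟩
      have hs2 : s ∈ Icc 0 π := ⟨hs'.1.le, hs'.2.le⟩
      have hmono : d j t ≤ d j s := (hcd j hj).2.2.1.monotoneOn htπ hs2 h1.1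
      have hLts := hLs ts htsπ
      have h3 := cross_order p (by omega) (c (p - 1) ts) (d (p - 1) ts) (Real.cos ts) (c j s) (d j s)
        (Real.cos s) hLts.1 (hstrict j hj s hs').1
        (hroot _ hlt ts ⟨htsπ.1.le, htsπ.2.le⟩).2.2.2.1 (hroot j hj s hs2).2.2.2.1 (by linarith only [hmono,
                                                                                         hd2])
        (by
          have := (hOb j hj1 s hs2).2
          have h5 := hLts.2.1
          have h6 : 3 * π / (2 * p) = π / p + π / (2 * p) := by field_simp; ring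
          linarith only [h6, this, hLts.2.1, hpp2])
        (by linarith only [hLts.2.2, hpp2]) hGts h2 heq ((hgg j hj s hs').2.1 h2)
      have h4 : Real.cos s ≤ Real.cos ts :=
        Real.cos_le_cos_of_nonneg_of_le_pi hts0.le hs'.2.le (by linarith only [ht.1, h1.1])
      linarith only [h4, h3]
    · have hre0 : 0 ≤ (zz (c j t) (d j t)).re := by
        rw [rm_zz_re]
        have h1 : 0 ≤ Real.cos (d j t) := Real.cos_nonneg_of_mem_Icc ⟨by linarith only [hOt.1,
                                                                           hLt.2.2, hLt.2.1, hpp2,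
                                                                           hpp], hd2⟩
        have h2 := Real.cosh_pos (c j t)
        positivity
      have hcle : Real.cos t ≤ Real.cos ts :=
        Real.cos_le_cos_of_nonneg_of_le_pi hts0.le ht'.2.le ht.1
      have hcts := hcosneg ts htsπ
      rcases le_or_gt (2 * Real.cos t) (zz (c j t) (d j t)).re with hre | hre
      · exact (root_right p (by omega) t ht' _ hz hre (by linarith only [hcts, hcle, hctsle])).le
      · obtain ⟨hp3, h1, -⟩ := rm_right p hp t _ _ ht' _ hz (hzdroot t htπ) hLt.2.1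
          (by linarith only [hLt.2.2, hpp2]) hre0 hre
        have hp3R : (3 : ℝ) ≤ p := by exact_mod_cast hp3
        have h5 : π / p ≤ π / 3 := by gcongr
        have hLts := hLs ts htsπ
        have h6 : Real.cos (d (p - 1) ts) ≤ Real.cos (π - π / 3) := by
          apply Real.cos_le_cos_of_nonneg_of_le_pi
          · linarith only [hpi]
          · linarith only [hLts.2.2, hpp2]
          · linarith only [hLts.2.1, h5]
        rw [Real.cos_pi_sub, Real.cos_pi_div_three] at h6
        have h7 : Real.cos t ≤ 1 / 4 := by linarith only [h6, hcle, hctsle]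
        have h8 : Real.sin t ^ 2 = 1 - Real.cos t ^ 2 := by
          have := Real.sin_sq_add_cos_sq t
          linarith only [this]
        have h9 : (2 - 2 * Real.cos t) ^ 2 = 4 - 8 * Real.cos t + 4 * Real.cos t ^ 2 := by ring
        have h10 := sq_nonneg (Real.cos t)
        apply le_of_sq_le_sq _ (by linarith only [hcts, hcle, hctsle])
        linarith only [h10, h8, h6, h1, hcle, hC0, hctsle]
  · intro t ht
    have ht' : t ∈ Ioo 0 π := ⟨ht.1, by linarith only [htsπ.2, ht.2]⟩
    have h := hLs t ht'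
    exact ⟨c (p - 1) t, d (p - 1) t, rfl, h.1, h.2.1, by linarith only [h.2.2, hpp2]⟩
  · -- IsGeom
    have hr := hzdroot ts ⟨htsπ.1.le, htsπ.2.le⟩
    have hne : chV (p - 1) (zz (c (p - 1) ts) (d (p - 1) ts)) ≠ 0 :=
      (hroot _ hlt ts ⟨htsπ.1.le, htsπ.2.le⟩).2.2.2.2.2.1
    have hLts := hLs ts htsπ
    have hw : chV p (zz (c (p - 1) ts) (d (p - 1) ts)) / chV (p - 1) (zz (c (p - 1) ts) (d (p - 1) ts))
        = Complex.exp (ts * Complex.I) := by
      rw [hr, mul_div_assoc, div_self hne, mul_one]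
    have hb := root_bounds p (by omega) ts htsπ _ hr
    have hdl := dist_last p hp (Real.cos ts) (c (p - 1) ts) (d (p - 1) ts)
      (Real.cos_nonneg_of_mem_Icc ⟨by linarith only [hts0, hpp0, hpp], hts.2⟩) hLts.2.1.le (by linarith only [hLts.2.2,
                                                                                                 hpp2])
    refine ⟨hb.1, ?_, ?_, ?_⟩
    · have h1 : Real.cos (d (p - 1) ts) < Real.cos (π - π / p) := by
        apply Real.cos_lt_cos_of_nonneg_of_le_pi
        · linarith only [hpp, hpi]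
        · linarith only [hLts.2.2, hpp2]
        · exact hLts.2.1
      rw [Real.cos_pi_sub] at h1
      simp only
      linarith only [h1, hdl.2]
    · simp only
      rw [hr, norm_mul, Complex.norm_exp_ofReal_mul_I, one_mul]
    · simp only
      rw [hw, Complex.exp_ofReal_mul_I_re]
      exact heq
  · -- uniqueness
    intro z hz
    obtain ⟨him, hre, hnorm, hdist⟩ := hz
    have hne : chV (p - 1) z ≠ 0 := chV_ne_zero _ _ him
    set w : ℂ := chV p z / chV (p - 1) z with hw
    have hw1 : ‖w‖ = 1 := by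
      rw [hw, norm_div, hnorm, div_self (norm_ne_zero_iff.2 hne)]
    set t : ℝ := Complex.arg w with ht
    have hwe : w = Complex.exp (t * Complex.I) := by
      have := Complex.norm_mul_exp_arg_mul_I w
      rw [hw1, Complex.ofReal_one, one_mul] at this
      exact this.symm
    have hr : chV p z = Complex.exp (t * Complex.I) * chV (p - 1) z := by
      rw [← hwe, hw, div_mul_cancel₀ _ hne]
    have htpos : 0 < Real.sin t := by
      obtain ⟨α, β, hβ, -, -, -, hz⟩ := root_num p (by omega) t z hr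
      have h1 : z.im = β * Real.sin t := by
        rw [hz, Complex.add_im, Complex.ofReal_im, Complex.im_ofReal_mul, Complex.exp_ofReal_mul_I_im]
        ring
      rw [h1] at him
      exact (pos_iff_pos_of_mul_pos him).1 hβ
    have ht0 : 0 < t := by
      by_contra hcon
      push Not at hcon
      have : Real.sin t ≤ 0 := Real.sin_nonpos_of_nonpos_of_neg_pi_le hcon (Complex.neg_pi_lt_arg w).le
      linarith only [this, htpos]
    have ht1 : t < π := by
      rcases (Complex.arg_le_pi w).eq_or_lt with h | h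
      · rw [← ht] at h; rw [h, Real.sin_pi] at htpos; exact absurd htpos (lt_irrefl _)
      · exact h
    have ht' : t ∈ Ioo 0 π := ⟨ht0, ht1⟩
    have htπ : t ∈ Icc 0 π := ⟨ht0.le, ht1.le⟩
    obtain ⟨j, hj, hzj⟩ := hall t htπ z hr
    have hcos0 : 0 ≤ Real.cos (π / p) := Real.cos_nonneg_of_mem_Icc ⟨by linarith only [hpp0, hpi], hpp⟩
    rcases Nat.lt_or_ge j (p - 1) with hj1 | hj1
    · exfalso
      have hOt := hOb j hj1 t htπ
      have hrj := hroot j hj t htπ
      rcases lt_or_ge (π / 2) (d j t) with hd2 | hd2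
      · have := re_left p hp (c j t) (d j t) hd2 hOt.2 hrj.2.2.1 hrj.2.2.2.1
        rw [← hzj] at this
        linarith only [this, hre]
      · have hre0 : 0 ≤ (zz (c j t) (d j t)).re := by
          rw [rm_zz_re]
          have h1 : 0 ≤ Real.cos (d j t) := Real.cos_nonneg_of_mem_Icc ⟨by linarith only [hOt.1,
                                                                             hpp0, hpp], hd2⟩
          have h2 := Real.cosh_pos (c j t)
          positivity
        rw [← hzj] at hre0
        linarith only [hre0, hcos0, hre]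
    · have hjp : j = p - 1 := by omega
      subst hjp
      have hdist' : ‖z - 2 * (Real.cos t : ℂ)‖ = 2 - 2 * Real.cos t := by
        have : w.re = Real.cos t := by rw [hwe, Complex.exp_ofReal_mul_I_re]
        rw [this] at hdist
        exact hdist
      rw [hzj] at hdist'
      have hg := (hgg _ hlt t ht').2.2 hdist'
      have := huniq t ht' hg
      rw [hzj, this]

end Pool.Agent.H63.VC
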