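import Pool.Agent.H63.VC.VolA
import Pool.Agent.H63.VC.VolB

/-! # The volume as an integral -/

namespace Pool.Agent.H63.VC

open Real Set

/-- Derivatives of the polynomials `V_m`. -/
noncomputable def volDd : ℕ → ℂ → ℂ
  | 0, _ => 0
  | 1, _ => 1
  | m + 2, z => chV (m + 1) z + z * volDd (m + 1) z - volDd m z

theorem volD_hasStrictDerivAt (m : ℕ) (z : ℂ) : HasStrictDerivAt (chV m) (volDd m z) z := by
  induction m using Nat.twoStepInduction with
  | zero => exact hasStrictDerivAt_const z (1 : ℂ)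
  | one => exact (hasStrictDerivAt_id z).sub_const 1
  | more m ih1 ih2 =>
    have h := ((hasStrictDerivAt_id z).mul ih2).sub ih1
    have h1 : (id * chV (m + 1) - chV m : ℂ → ℂ) = chV (m + 2) := by
      funext x
      rfl
    rw [h1] at h
    have h2 : volDd (m + 2) z = 1 * chV (m + 1) z + id z * volDd (m + 1) z - volDd m z := by
      rw [one_mul]
      rfl
    rw [h2]
    exact h

theorem volD_wronskian (m : ℕ) (z : ℂ) :
    ∑ i ∈ Finset.range (m + 1), chV i z ^ 2 =
      volDd (m + 1) z * chV m z - chV (m + 1) z * volDd m z := by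
  induction m with
  | zero => simp [chV, volDd]
  | succ m ih =>
    rw [Finset.sum_range_succ, ih]
    simp only [chV, volDd]
    ring

theorem volD_continuous (m : ℕ) : Continuous (chV m) :=
  continuous_iff_continuousAt.2 fun z => (volD_hasStrictDerivAt m z).hasDerivAt.continuousAt

/-- The root depends differentiably on `t`. -/
theorem root_differentiable (p : ℕ) (hp : 1 ≤ p) (t : ℝ) (zd : ℝ → ℂ) (hc : ContinuousAt zd t)
    (hroot : ∀ᶠ s in nhds t, chV p (zd s) = Complex.exp (s * Complex.I) * chV (p - 1) (zd s))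
    (hne : chV (p - 1) (zd t) ≠ 0) (hs : ∑ m ∈ Finset.range p, chV m (zd t) ^ 2 ≠ 0) :
    ∃ z' : ℂ, HasDerivAt zd z' t := by
  obtain ⟨q, rfl⟩ : ∃ q, p = q + 1 := ⟨p - 1, by omega⟩
  rw [Nat.add_sub_cancel] at hroot hne
  rw [volD_wronskian] at hs
  have hm := (volD_hasStrictDerivAt (q + 1) (zd t)).fun_div (volD_hasStrictDerivAt q (zd t)) hne
  have hm' : (volDd (q + 1) (zd t) * chV q (zd t) - chV (q + 1) (zd t) * volDd q (zd t)) /
      chV q (zd t) ^ 2 ≠ 0 := div_ne_zero hs (pow_ne_zero _ hne)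
  have hev : ∀ᶠ s in nhds t, chV (q + 1) (zd s) / chV q (zd s) =
      Complex.exp (s * Complex.I) := by
    have h1 : ∀ᶠ s in nhds t, chV q (zd s) ≠ 0 :=
      ((volD_continuous q).continuousAt.comp hc).eventually_ne hne
    filter_upwards [hroot, h1] with s h2 h3
    rw [h2, mul_div_cancel_right₀ _ h3]
  have hleft := hc.eventually (hm.eventually_left_inverse hm')
  have hg := (hm.to_localInverse hm').hasDerivAt
  have hexp : HasDerivAt (fun s : ℝ => Complex.exp (s * Complex.I))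
      (Complex.exp (t * Complex.I) * Complex.I) t := by
    have h1 : HasDerivAt (fun s : ℝ => (s : ℂ) * Complex.I) (1 * Complex.I) t :=
      (HasDerivAt.ofReal_comp (hasDerivAt_id t)).mul_const Complex.I
    rw [one_mul] at h1
    exact h1.cexp
  rw [hev.self_of_nhds] at hg
  have hcomp := HasDerivAt.comp_of_eq (𝕜 := ℝ) t hg hexp rfl
  refine ⟨_, hcomp.congr_of_eventuallyEq ?_⟩
  filter_upwards [hleft, hev] with s h1 h2
  rw [h2] at h1
  exact h1.symm

/-- The shifted sequence `V_{-1} = 1, V_0, V_1, ...`. -/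
noncomputable def volDW : ℕ → ℂ → ℂ
  | 0, _ => 1
  | m + 1, z => chV m z

/-- Its derivatives. -/
noncomputable def volDW' : ℕ → ℂ → ℂ
  | 0, _ => 0
  | m + 1, z => volDd m z

theorem volDW_hasDerivAt (m : ℕ) (z : ℂ) : HasDerivAt (volDW m) (volDW' m z) z := by
  cases m with
  | zero => exact hasDerivAt_const z (1 : ℂ)
  | succ m => exact (volD_hasStrictDerivAt m z).hasDerivAt

theorem volDW_invariant (m : ℕ) (z : ℂ) :
    volDW (m + 1) z ^ 2 - volDW (m + 2) z * volDW m z = 2 - z := by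
  cases m with
  | zero => simp [volDW, chV]; ring
  | succ m =>
    have h := chV_invariant (m + 1) z
    simp only [volDW]
    have h1 : chV (m + 2) z = z * chV (m + 1) z - chV m z := rfl
    have h2 : chV m z = z * chV (m + 1) z - chV (m + 2) z := by rw [h1]; ring
    rw [← h, h2]
    ring

/-- The telescoping sum. -/
theorem volD_telescope (L Θ : ℕ → ℝ) (l φ : ℝ) (p : ℕ) :
    ∑ i ∈ Finset.range p, ((l - 2 * L (i + 1)) * (Θ (i + 2) + Θ i - 2 * Θ (i + 1)) -
      (L (i + 2) + L i - 2 * L (i + 1)) * (φ - 2 * Θ (i + 1))) =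
      l * ((Θ (p + 1) - Θ p) - (Θ 1 - Θ 0)) - φ * ((L (p + 1) - L p) - (L 1 - L 0)) +
        2 * (Θ p * L (p + 1) - L p * Θ (p + 1)) - 2 * (Θ 0 * L 1 - L 0 * Θ 1) := by
  induction p with
  | zero => simp
  | succ p ih =>
    rw [Finset.sum_range_succ, ih]
    ring

/-- Derivative of one summand. -/
theorem volD_summand (i : ℕ) (zd : ℝ → ℂ) (z' : ℂ) (t : ℝ) (hz : HasDerivAt zd z' t)
    (hW0 : volDW i (zd t) ≠ 0) (hW1 : volDW (i + 1) (zd t) ≠ 0) (hW2 : volDW (i + 2) (zd t) ≠ 0)
    (h2 : zd t ≠ 2) (him : ((2 - zd t) / chV i (zd t) ^ 2).im ≠ 0) :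
    HasDerivAt (fun s => blochWigner ((2 - zd s) / chV i (zd s) ^ 2))
      ((Real.log ‖2 - zd t‖ - 2 * Real.log ‖volDW (i + 1) (zd t)‖) *
        ((volDW' (i + 2) (zd t) * z' / volDW (i + 2) (zd t)).im +
          (volDW' i (zd t) * z' / volDW i (zd t)).im -
          2 * (volDW' (i + 1) (zd t) * z' / volDW (i + 1) (zd t)).im) -
        (Real.log ‖volDW (i + 2) (zd t)‖ + Real.log ‖volDW i (zd t)‖ -
          2 * Real.log ‖volDW (i + 1) (zd t)‖) *
        ((-z' / (2 - zd t)).im - 2 * (volDW' (i + 1) (zd t) * z' / volDW (i + 1) (zd t)).im)) t := by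
  set z := zd t with hzdef
  set W0 := volDW i z with hW0d
  set W1 := volDW (i + 1) z with hW1d
  set W2 := volDW (i + 2) z with hW2d
  set D0 := volDW' i z with hD0d
  set D1 := volDW' (i + 1) z with hD1d
  set D2 := volDW' (i + 2) z with hD2d
  have hchV : chV i z = W1 := rfl
  have h2z : (2 : ℂ) - z ≠ 0 := sub_ne_zero.2 (Ne.symm h2)
  have hinv : ∀ s, volDW (i + 1) (zd s) ^ 2 - volDW (i + 2) (zd s) * volDW i (zd s) = 2 - zd s :=
    fun s => volDW_invariant i (zd s)
  have hinv0 : W1 ^ 2 - W2 * W0 = 2 - z := hinv t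
  have d0 : HasDerivAt (fun s => volDW i (zd s)) (D0 * z') t :=
    (volDW_hasDerivAt i z).comp_of_eq t hz rfl
  have d1 : HasDerivAt (fun s => volDW (i + 1) (zd s)) (D1 * z') t :=
    (volDW_hasDerivAt (i + 1) z).comp_of_eq t hz rfl
  have d2 : HasDerivAt (fun s => volDW (i + 2) (zd s)) (D2 * z') t :=
    (volDW_hasDerivAt (i + 2) z).comp_of_eq t hz rfl
  have dz : HasDerivAt (fun s => 2 - zd s) (-z') t := by
    simpa using hz.const_sub 2
  have dd := ((d1.pow 2).sub (d2.mul d0)).congr_of_eventuallyEq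
    (Filter.Eventually.of_forall fun s => (hinv s).symm)
  have hd' : (2 : ℂ) * (D1 * z') * W1 - (D2 * z' * W0 + W2 * (D0 * z')) = -z' := by
    have := dd.unique dz
    simpa [mul_comm, mul_left_comm, mul_assoc] using this
  have du := dz.fun_div (d1.fun_pow 2) (pow_ne_zero 2 hW1)
  have hD := blochWigner_hasDerivAt _ _ t du him
  refine HasDerivAt.congr_deriv hD ?_
  rw [← hzdef, ← hW1d]
  have e1 : Real.log ‖(2 - z) / W1 ^ 2‖ = Real.log ‖2 - z‖ - 2 * Real.log ‖W1‖ := by
    rw [norm_div, norm_pow, Real.log_div (norm_ne_zero_iff.2 h2z)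
      (pow_ne_zero 2 (norm_ne_zero_iff.2 hW1)), Real.log_pow]
    norm_num
  have e2 : 1 - (2 - z) / W1 ^ 2 = W2 * W0 / W1 ^ 2 := by
    rw [← hinv0]
    field_simp
    ring
  have e3 : Real.log ‖W2 * W0 / W1 ^ 2‖ = Real.log ‖W2‖ + Real.log ‖W0‖ - 2 * Real.log ‖W1‖ := by
    rw [norm_div, norm_mul, norm_pow, Real.log_div (mul_ne_zero (norm_ne_zero_iff.2 hW2)
      (norm_ne_zero_iff.2 hW0)) (pow_ne_zero 2 (norm_ne_zero_iff.2 hW1)), Real.log_pow,
      Real.log_mul (norm_ne_zero_iff.2 hW2) (norm_ne_zero_iff.2 hW0)]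
    norm_num
  have e4 : (-z' * W1 ^ 2 - (2 - z) * ((2 : ℕ) * W1 ^ (2 - 1) * (D1 * z'))) / (W1 ^ 2) ^ 2 /
      ((2 - z) / W1 ^ 2) = -z' / (2 - z) - 2 * (D1 * z' / W1) := by
    push_cast
    field_simp
  have e5 : -((-z' * W1 ^ 2 - (2 - z) * ((2 : ℕ) * W1 ^ (2 - 1) * (D1 * z'))) / (W1 ^ 2) ^ 2) /
      (W2 * W0 / W1 ^ 2) = D2 * z' / W2 + D0 * z' / W0 - 2 * (D1 * z' / W1) := by
    have h3 : z' = (D2 * z' * W0 + W2 * (D0 * z')) - 2 * (D1 * z') * W1 := by
      linear_combination hd'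
    push_cast
    rw [← hinv0]
    generalize D0 * z' = a0 at *
    generalize D1 * z' = a1 at *
    generalize D2 * z' = a2 at *
    rw [h3]
    field_simp
    ring
  rw [e2, e1, e3, e4, e5]
  have e6 : ∀ x : ℂ, (2 * x).im = 2 * x.im := fun x => by simp
  rw [Complex.sub_im, Complex.add_im, Complex.sub_im, e6]

theorem volD_shape_last (q : ℕ) (t : ℝ) (z : ℂ) (hV : chV q z ≠ 0)
    (h : chV (q + 1) z = Complex.exp (t * Complex.I) * chV q z) :
    ‖(2 - z) / chV q z ^ 2‖ = ‖z - 2 * (Real.cos t : ℂ)‖ := by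
  have h1 := chV_invariant q z
  rw [h] at h1
  set w := Complex.exp (t * Complex.I) with hw
  have hw0 : w ≠ 0 := Complex.exp_ne_zero _
  have hcos : 2 * (Real.cos t : ℂ) = w + w⁻¹ := by
    rw [hw, ← Complex.exp_neg, Complex.ofReal_cos, Complex.cos]
    ring_nf
  have h2 : (2 - z) / chV q z ^ 2 = -w * (z - 2 * (Real.cos t : ℂ)) := by
    rw [hcos, ← h1]
    field_simp
    ring
  rw [h2, norm_mul, norm_neg, hw, Complex.norm_exp_ofReal_mul_I, one_mul]

/-- The derivative of the sum of the volumes. -/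
theorem volD_sum_hasDerivAt (q : ℕ) (zd : ℝ → ℂ) (z' : ℂ) (t : ℝ) (hz : HasDerivAt zd z' t)
    (hroot : ∀ᶠ s in nhds t, chV (q + 1) (zd s) = Complex.exp (s * Complex.I) * chV q (zd s))
    (hne : ∀ i ≤ q + 1, chV i (zd t) ≠ 0) (h2 : zd t ≠ 2)
    (him : ∀ i < q + 1, ((2 - zd t) / chV i (zd t) ^ 2).im ≠ 0) :
    HasDerivAt (fun s => ∑ i ∈ Finset.range (q + 1), blochWigner ((2 - zd s) / chV i (zd s) ^ 2))
      (Real.log ‖zd t - 2 * (Real.cos t : ℂ)‖) t := by
  have hW : ∀ i ≤ q + 2, volDW i (zd t) ≠ 0 := by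
    intro i hi
    cases i with
    | zero => exact one_ne_zero
    | succ i => exact hne i (by omega)
  have hsum := HasDerivAt.fun_sum (u := Finset.range (q + 1)) fun i hi =>
    volD_summand i zd z' t hz (hW i (by have := Finset.mem_range.1 hi; omega))
      (hW (i + 1) (by have := Finset.mem_range.1 hi; omega))
      (hW (i + 2) (by have := Finset.mem_range.1 hi; omega)) h2 (him i (Finset.mem_range.1 hi))
  refine HasDerivAt.congr_deriv hsum ?_
  have htel := volD_telescope (fun i => Real.log ‖volDW i (zd t)‖)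
    (fun i => (volDW' i (zd t) * z' / volDW i (zd t)).im) (Real.log ‖2 - zd t‖)
    ((-z' / (2 - zd t)).im) (q + 1)
  rw [htel]
  have r0 := hroot.self_of_nhds
  have hq : chV q (zd t) ≠ 0 := hne q (by omega)
  have hw : Complex.exp (t * Complex.I) ≠ 0 := Complex.exp_ne_zero _
  have a0 : volDW 0 (zd t) = 1 := rfl
  have a1 : volDW 1 (zd t) = 1 := rfl
  have b0 : volDW' 0 (zd t) = 0 := rfl
  have b1 : volDW' 1 (zd t) = 0 := rfl
  have hL : Real.log ‖volDW (q + 1 + 1) (zd t)‖ = Real.log ‖volDW (q + 1) (zd t)‖ := by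
    change Real.log ‖chV (q + 1) (zd t)‖ = Real.log ‖chV q (zd t)‖
    rw [r0, norm_mul, Complex.norm_exp_ofReal_mul_I, one_mul]
  have hΘ : (volDW' (q + 1 + 1) (zd t) * z' / volDW (q + 1 + 1) (zd t)).im =
      (volDW' (q + 1) (zd t) * z' / volDW (q + 1) (zd t)).im + 1 := by
    have d1 : HasDerivAt (fun s => chV (q + 1) (zd s)) (volDd (q + 1) (zd t) * z') t :=
      (volD_hasStrictDerivAt (q + 1) (zd t)).hasDerivAt.comp_of_eq t hz rfl
    have d2 : HasDerivAt (fun s => chV q (zd s)) (volDd q (zd t) * z') t :=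
      (volD_hasStrictDerivAt q (zd t)).hasDerivAt.comp_of_eq t hz rfl
    have hexp : HasDerivAt (fun s : ℝ => Complex.exp (s * Complex.I))
        (Complex.exp (t * Complex.I) * Complex.I) t := by
      have h1 : HasDerivAt (fun s : ℝ => (s : ℂ) * Complex.I) (1 * Complex.I) t :=
        (HasDerivAt.ofReal_comp (hasDerivAt_id t)).mul_const Complex.I
      rw [one_mul] at h1
      exact h1.cexp
    have d3 := (hexp.fun_mul d2).congr_of_eventuallyEq hroot
    have d4 := d1.unique d3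
    have h3 : volDW' (q + 1 + 1) (zd t) * z' / volDW (q + 1 + 1) (zd t) =
        volDW' (q + 1) (zd t) * z' / volDW (q + 1) (zd t) + Complex.I := by
      change volDd (q + 1) (zd t) * z' / chV (q + 1) (zd t) =
        volDd q (zd t) * z' / chV q (zd t) + Complex.I
      rw [d4, r0]
      field_simp
      ring
    rw [h3, Complex.add_im, Complex.I_im]
  have hlast := volD_shape_last q t (zd t) hq r0
  have h2z : ‖2 - zd t‖ ≠ 0 := norm_ne_zero_iff.2 (sub_ne_zero.2 (Ne.symm h2))
  have hlog : Real.log ‖zd t - 2 * (Real.cos t : ℂ)‖ =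
      Real.log ‖2 - zd t‖ - 2 * Real.log ‖volDW (q + 1) (zd t)‖ := by
    rw [← hlast, norm_div, norm_pow, Real.log_div h2z
      (pow_ne_zero 2 (norm_ne_zero_iff.2 hq)), Real.log_pow]
    norm_num [volDW]
  rw [hL, hΘ, hlog, a0, a1, b0, b1]
  simp
  ring

/-- The second integral. -/
theorem volD_circle (ts : ℝ) (hts : ts ∈ Ioo 0 π) :
    blochWigner (Complex.exp (ts * Complex.I)) =
      ∫ t in ts..π, Real.log (2 * Real.sin (t / 2)) := by
  have hsin : ∀ t ∈ Icc ts π, 0 < Real.sin (t / 2) := fun t ht =>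
    Real.sin_pos_of_pos_of_lt_pi (by have := hts.1; have := ht.1; linarith)
      (by have := ht.2; have := Real.pi_pos; linarith)
  have hnorm : ∀ t ∈ Icc ts π, ‖1 - Complex.exp (t * Complex.I)‖ = 2 * Real.sin (t / 2) := by
    intro t ht
    rw [← norm_neg, neg_sub, mul_comm, Complex.norm_exp_I_mul_ofReal_sub_one, Real.norm_eq_abs,
      abs_of_pos (by have := hsin t ht; positivity)]
  have hcont : ContinuousOn (fun t : ℝ => blochWigner (Complex.exp (t * Complex.I))) (Icc ts π) := by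
    intro t ht
    refine ContinuousAt.continuousWithinAt ?_
    have h1 : ContinuousAt (fun t : ℝ => Complex.exp (t * Complex.I)) t := by fun_prop
    refine ContinuousAt.comp (g := blochWigner) (f := fun t : ℝ => Complex.exp (t * Complex.I))
      (blochWigner_continuousAt _ (Complex.exp_ne_zero _) fun h => ?_) h1
    have h2 := hnorm t ht
    rw [h, sub_self, norm_zero] at h2
    have := hsin t ht
    linarith
  have hderiv : ∀ t ∈ Ioo ts π, HasDerivAt (fun t : ℝ => blochWigner (Complex.exp (t * Complex.I)))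
      (-Real.log (2 * Real.sin (t / 2))) t := by
    intro t ht
    have hexp : HasDerivAt (fun s : ℝ => Complex.exp (s * Complex.I))
        (Complex.exp (t * Complex.I) * Complex.I) t := by
      have h1 : HasDerivAt (fun s : ℝ => (s : ℂ) * Complex.I) (1 * Complex.I) t :=
        (HasDerivAt.ofReal_comp (hasDerivAt_id t)).mul_const Complex.I
      rw [one_mul] at h1
      exact h1.cexp
    have him : (Complex.exp (t * Complex.I)).im ≠ 0 := by
      rw [Complex.exp_ofReal_mul_I_im]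
      exact (Real.sin_pos_of_pos_of_lt_pi (by have := hts.1; have := ht.1; linarith) ht.2).ne'
    have h := blochWigner_hasDerivAt _ _ t hexp him
    refine HasDerivAt.congr_deriv h ?_
    rw [Complex.norm_exp_ofReal_mul_I, Real.log_one, zero_mul, hnorm t ⟨ht.1.le, ht.2.le⟩,
      mul_div_cancel_left₀ _ (Complex.exp_ne_zero _), Complex.I_im]
    ring
  have hint : IntervalIntegrable (fun t => -Real.log (2 * Real.sin (t / 2)))
      MeasureTheory.volume ts π := by
    refine ContinuousOn.intervalIntegrable_of_Icc hts.2.le ?_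
    refine ContinuousOn.neg (ContinuousOn.log (by fun_prop) fun t ht => ?_)
    have := hsin t ht
    positivity
  have h := intervalIntegral.integral_eq_sub_of_hasDerivAt_of_le hts.2.le hcont hderiv hint
  rw [intervalIntegral.integral_neg, Complex.exp_pi_mul_I] at h
  have h1 : blochWigner (-1) = 0 := by
    have := blochWigner_real (-1)
    rwa [Complex.ofReal_neg, Complex.ofReal_one] at this
  rw [h1] at h
  linarith

theorem volD_chV_real (m : ℕ) (x : ℝ) : ∃ y : ℝ, chV m (x : ℂ) = y := by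
  induction m using Nat.twoStepInduction with
  | zero => exact ⟨1, by simp [chV]⟩
  | one => exact ⟨x - 1, by simp [chV]⟩
  | more m ih1 ih2 =>
    obtain ⟨a, ha⟩ := ih1
    obtain ⟨b, hb⟩ := ih2
    exact ⟨x * b - a, by simp [chV, ha, hb]⟩

/-- The volume as an integral. -/
theorem volume_identity (p : ℕ) (hp : 2 ≤ p) (ts : ℝ) (hts : ts ∈ Ioo 0 π) (zd : ℝ → ℂ)
    (hc : ContinuousOn zd (Icc 0 ts))
    (hroot : ∀ t ∈ Icc 0 ts, chV p (zd t) = Complex.exp (t * Complex.I) * chV (p - 1) (zd t))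
    (hne : ∀ t ∈ Icc 0 ts, ∀ i ≤ p, chV i (zd t) ≠ 0)
    (hs : ∀ t ∈ Icc 0 ts, ∑ m ∈ Finset.range p, chV m (zd t) ^ 2 ≠ 0)
    (h0 : (zd 0).im = 0) (h2 : zd 0 ≠ 2)
    (him : ∀ t ∈ Ioc 0 ts, ∀ i < p, ((2 - zd t) / chV i (zd t) ^ 2).im ≠ 0) :
    volOf p (zd ts) = 2 * (∫ t in (0 : ℝ)..ts, Real.log ‖zd t - 2 * (Real.cos t : ℂ)‖)
      + 4 * ∫ t in ts..π, Real.log (2 * Real.sin (t / 2)) := by
  obtain ⟨q, rfl⟩ : ∃ q, p = q + 1 := ⟨p - 1, by omega⟩
  rw [Nat.add_sub_cancel] at hroot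
  have hts0 : 0 ≤ ts := hts.1.le
  have hz2 : ∀ t ∈ Icc 0 ts, zd t ≠ 2 := by
    intro t ht h
    rcases eq_or_lt_of_le ht.1 with h1 | h1
    · exact h2 (h1 ▸ h)
    · exact him t ⟨h1, ht.2⟩ 0 (by omega) (by simp [h])
  have hW : ∀ t ∈ Icc 0 ts, ∀ i ≤ q + 2, volDW i (zd t) ≠ 0 := by
    intro t ht i hi
    cases i with
    | zero => exact one_ne_zero
    | succ i => exact hne t ht i (by omega)
  -- the first integral
  set F : ℝ → ℝ := fun s => ∑ i ∈ Finset.range (q + 1),
    blochWigner ((2 - zd s) / chV i (zd s) ^ 2) with hF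
  have hFc : ContinuousOn F (Icc 0 ts) := by
    refine continuousOn_finsetSum _ fun i hi => ?_
    have hi' := Finset.mem_range.1 hi
    intro t ht
    have h1 : ContinuousWithinAt (fun s => (2 - zd s) / chV i (zd s) ^ 2) (Icc 0 ts) t := by
      refine ContinuousWithinAt.div ((continuousWithinAt_const).sub (hc t ht)) ?_
        (pow_ne_zero 2 (hne t ht i (by omega)))
      exact ((volD_continuous i).continuousAt.comp_continuousWithinAt (hc t ht)).pow 2
    have hV : chV i (zd t) ≠ 0 := hne t ht i (by omega)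
    refine ContinuousAt.comp_continuousWithinAt (g := blochWigner)
      (f := fun s => (2 - zd s) / chV i (zd s) ^ 2)
      (blochWigner_continuousAt _ (div_ne_zero (sub_ne_zero.2 (Ne.symm (hz2 t ht)))
        (pow_ne_zero 2 hV)) fun h3 => ?_) h1
    rw [div_eq_one_iff_eq (pow_ne_zero 2 hV)] at h3
    have h4 := volDW_invariant i (zd t)
    rw [h3] at h4
    have h5 : volDW (i + 2) (zd t) * volDW i (zd t) = 0 := by
      have h6 : volDW (i + 1) (zd t) = chV i (zd t) := rfl
      rw [h6] at h4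
      linear_combination -h4
    rcases mul_eq_zero.1 h5 with h6 | h6
    · exact hW t ht (i + 2) (by omega) h6
    · exact hW t ht i (by omega) h6
  have hFd : ∀ t ∈ Ioo 0 ts, HasDerivAt F (Real.log ‖zd t - 2 * (Real.cos t : ℂ)‖) t := by
    intro t ht
    have ht' : t ∈ Icc 0 ts := ⟨ht.1.le, ht.2.le⟩
    have hnhds : Icc 0 ts ∈ nhds t := Icc_mem_nhds ht.1 ht.2
    have hct : ContinuousAt zd t := (hc t ht').continuousAt hnhds
    have hroot' : ∀ᶠ s in nhds t, chV (q + 1) (zd s) =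
        Complex.exp (s * Complex.I) * chV q (zd s) :=
      Filter.mem_of_superset hnhds fun s hs => hroot s hs
    obtain ⟨z', hz'⟩ := root_differentiable (q + 1) (by omega) t zd hct hroot'
      (hne t ht' _ (by omega)) (hs t ht')
    exact volD_sum_hasDerivAt q zd z' t hz' hroot' (hne t ht') (hz2 t ht')
      (him t ⟨ht.1, ht.2.le⟩)
  have hint : IntervalIntegrable (fun t => Real.log ‖zd t - 2 * (Real.cos t : ℂ)‖)
      MeasureTheory.volume 0 ts := by
    refine ContinuousOn.intervalIntegrable_of_Icc hts0 ?_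
    refine ContinuousOn.log ?_ fun t ht => ?_
    · refine ContinuousOn.norm (hc.sub ?_)
      fun_prop
    · rw [← volD_shape_last q t (zd t) (hne t ht q (by omega)) (hroot t ht)]
      exact norm_ne_zero_iff.2 (div_ne_zero (sub_ne_zero.2 (Ne.symm (hz2 t ht)))
        (pow_ne_zero 2 (hne t ht q (by omega))))
  have h1 := intervalIntegral.integral_eq_sub_of_hasDerivAt_of_le hts0 hFc hFd hint
  have hF0 : F 0 = 0 := by
    rw [hF]
    refine Finset.sum_eq_zero fun i _ => ?_
    have hz0 : zd 0 = ((zd 0).re : ℂ) := by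
      apply Complex.ext
      · simp
      · simp [h0]
    obtain ⟨y, hy⟩ := volD_chV_real i (zd 0).re
    rw [hz0, hy]
    have h3 := blochWigner_real ((2 - (zd 0).re) / y ^ 2)
    push_cast at h3
    exact h3
  rw [hF0, sub_zero] at h1
  have h3 : chV (q + 1) (zd ts) / chV (q + 1 - 1) (zd ts) = Complex.exp (ts * Complex.I) := by
    have hmem : ts ∈ Icc 0 ts := ⟨hts0, le_rfl⟩
    rw [Nat.add_sub_cancel, hroot ts hmem, mul_div_cancel_right₀ _ (hne ts hmem q (by omega))]
  rw [volOf, h3, volD_circle ts hts, h1]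
  ring

end Pool.Agent.H63.VC
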