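import Pool.Agent.H63.VC.Lower
import Pool.Agent.H63.VC.Roots
import Pool.Agent.H63.VC.VolD

/-! # The limit -/

namespace Pool.Agent.H63.VC

open Filter Topology Real Set MeasureTheory

theorem limit_real (p n b : ℕ)
    (r : ℝ → ℝ) (hrc : ContinuousOn r (Icc 0 π)) (hrpos : ∀ t ∈ Icc 0 π, 0 < r t)
    (hrge : ∀ t ∈ Icc 0 π, 2 - 2 * Real.cos t ≤ r t)
    (hup : ∀ ε : ℝ, 0 < ε → ∃ C : ℝ, 0 < C ∧ ∃ D : ℕ, ∀ᶠ N : ℕ in atTop,
      JJ p n b N ≤ C * ((N + b : ℕ) : ℝ) ^ D * (1 + ε) ^ (N + b) * QQ r (N + b) ^ 2)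
    (hlo : ∀ ε : ℝ, 0 < ε → ε < 1 → ∃ c : ℝ, 0 < c ∧ ∃ D : ℕ, ∀ᶠ N : ℕ in atTop,
      c * (1 - ε) ^ (N + b) * QQ r (N + b) ^ 2 ≤ JJ p n b N * ((N + b : ℕ) : ℝ) ^ D) :
    (∀ᶠ N : ℕ in atTop, 0 < JJ p n b N) ∧
    Tendsto (fun N : ℕ => 2 * π * Real.log (JJ p n b N) / (N + 1)) atTop
      (𝓝 (2 * ∫ t in (0 : ℝ)..π, Real.log (r t))) := by
  have hpi := pi_pos
  set I : ℝ := ∫ t in (0 : ℝ)..π, Real.log (r t) with hI
  have hq : Tendsto (fun N : ℕ => (2 * π / ((N + b : ℕ) : ℝ)) * Real.log (QQ r (N + b))) atTop (𝓝 I) :=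
    (QQ_log r hrc hrpos).comp (tendsto_add_atTop_nat b)
  have hρ := tendsto_ratio b
  have hl := tendsto_log_ratio b
  have hconst : ∀ x : ℝ, Tendsto (fun N : ℕ => x / ((N : ℝ) + 1)) atTop (𝓝 0) := fun x =>
    tendsto_const_nhds.div_atTop (tendsto_natCast_atTop_atTop.atTop_add tendsto_const_nhds)
  have hQpos : ∀ᶠ N : ℕ in atTop, 0 < QQ r (N + b) := by
    filter_upwards [eventually_ge_atTop 2] with N hN
    have h1 := QQ_ge r (N + b) (by omega) hrge
    have h2 : (0 : ℝ) < ((N + b : ℕ) : ℝ) := by exact_mod_cast (by omega : 0 < N + b)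
    linarith
  have hJpos : ∀ᶠ N : ℕ in atTop, 0 < JJ p n b N := by
    obtain ⟨c, hc, D, h⟩ := hlo (1 / 2) (by norm_num) (by norm_num)
    filter_upwards [h, hQpos, eventually_ge_atTop 1] with N h1 h2 h3
    have h4 : (0 : ℝ) < ((N + b : ℕ) : ℝ) ^ D := by
      have : (0 : ℝ) < ((N + b : ℕ) : ℝ) := by exact_mod_cast (by omega : 0 < N + b)
      positivity
    have h5 : 0 < c * (1 - 1 / 2) ^ (N + b) * QQ r (N + b) ^ 2 := by
      have : (0 : ℝ) < 1 - 1 / 2 := by norm_num
      positivity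
    by_contra hcon
    push Not at hcon
    nlinarith [mul_nonpos_of_nonpos_of_nonneg hcon h4.le]
  refine ⟨hJpos, ?_⟩
  rw [tendsto_order]
  constructor
  · intro a ha
    set δ : ℝ := 2 * I - a with hδ
    have hδ0 : 0 < δ := by linarith
    set ε : ℝ := 1 - Real.exp (-(δ / (4 * π))) with hε
    have hε0 : 0 < ε := by
      have : Real.exp (-(δ / (4 * π))) < 1 := by
        rw [Real.exp_lt_one_iff]
        have : 0 < δ / (4 * π) := by positivity
        linarith
      linarith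
    have hε1 : ε < 1 := by
      have := Real.exp_pos (-(δ / (4 * π)))
      linarith
    have hlogε : 2 * π * Real.log (1 - ε) = -(δ / 2) := by
      have : 1 - ε = Real.exp (-(δ / (4 * π))) := by rw [hε]; ring
      rw [this, Real.log_exp]
      field_simp
      ring
    obtain ⟨c, hc, D, h⟩ := hlo ε hε0 hε1
    have hlim : Tendsto (fun N : ℕ => 2 * π * Real.log c / ((N : ℝ) + 1)
        - 2 * π * D * (Real.log ((N + b : ℕ) : ℝ) / ((N : ℝ) + 1))
        + 2 * π * Real.log (1 - ε) * (((N + b : ℕ) : ℝ) / (N + 1))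
        + 2 * ((2 * π / ((N + b : ℕ) : ℝ)) * Real.log (QQ r (N + b))) * (((N + b : ℕ) : ℝ) / (N + 1)))
        atTop (𝓝 (0 - 2 * π * D * 0 + 2 * π * Real.log (1 - ε) * 1 + 2 * I * 1)) :=
      (((hconst _).sub (hl.const_mul _)).add (hρ.const_mul _)).add ((hq.const_mul 2).mul hρ)
    rw [hlogε] at hlim
    have hev := (tendsto_order.1 hlim).1 a (by rw [hδ]; linarith)
    filter_upwards [hev, h, hJpos, hQpos, eventually_ge_atTop 1] with N h1 h2 h3 h4 h5
    refine lt_of_lt_of_le h1 ?_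
    have hM0 : (0 : ℝ) < ((N + b : ℕ) : ℝ) := by exact_mod_cast (by omega : 0 < N + b)
    have hN0 : (0 : ℝ) < (N : ℝ) + 1 := by positivity
    have hε2 : 0 < 1 - ε := by linarith
    have h6 := Real.log_le_log (by positivity) h2
    rw [Real.log_mul (by positivity) (by positivity), Real.log_mul (by positivity) (by positivity),
      Real.log_pow, Real.log_pow, Real.log_mul (by positivity) (by positivity), Real.log_pow] at h6
    rw [le_div_iff₀ hN0]
    have e : (2 * π * Real.log c / ((N : ℝ) + 1)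
        - 2 * π * D * (Real.log ((N + b : ℕ) : ℝ) / ((N : ℝ) + 1))
        + -(δ / 2) * (((N + b : ℕ) : ℝ) / (N + 1))
        + 2 * ((2 * π / ((N + b : ℕ) : ℝ)) * Real.log (QQ r (N + b))) * (((N + b : ℕ) : ℝ) / (N + 1)))
        * ((N : ℝ) + 1)
        = 2 * π * (Real.log c - D * Real.log ((N + b : ℕ) : ℝ) + ((N + b : ℕ) : ℝ) * Real.log (1 - ε)
          + 2 * Real.log (QQ r (N + b))) := by
      rw [← hlogε]
      field_simp
    rw [e]
    apply mul_le_mul_of_nonneg_left _ (by positivity)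
    push_cast at h6 ⊢
    linarith
  · intro a ha
    set δ : ℝ := a - 2 * I with hδ
    have hδ0 : 0 < δ := by linarith
    set ε : ℝ := Real.exp (δ / (4 * π)) - 1 with hε
    have hε0 : 0 < ε := by
      have : 1 < Real.exp (δ / (4 * π)) := by
        rw [Real.one_lt_exp_iff]
        positivity
      linarith
    have hlogε : 2 * π * Real.log (1 + ε) = δ / 2 := by
      have : 1 + ε = Real.exp (δ / (4 * π)) := by rw [hε]; ring
      rw [this, Real.log_exp]
      field_simp
      ring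
    obtain ⟨C, hC, D, h⟩ := hup ε hε0
    have hlim : Tendsto (fun N : ℕ => 2 * π * Real.log C / ((N : ℝ) + 1)
        + 2 * π * D * (Real.log ((N + b : ℕ) : ℝ) / ((N : ℝ) + 1))
        + 2 * π * Real.log (1 + ε) * (((N + b : ℕ) : ℝ) / (N + 1))
        + 2 * ((2 * π / ((N + b : ℕ) : ℝ)) * Real.log (QQ r (N + b))) * (((N + b : ℕ) : ℝ) / (N + 1)))
        atTop (𝓝 (0 + 2 * π * D * 0 + 2 * π * Real.log (1 + ε) * 1 + 2 * I * 1)) :=
      (((hconst _).add (hl.const_mul _)).add (hρ.const_mul _)).add ((hq.const_mul 2).mul hρ)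
    rw [hlogε] at hlim
    have hev := (tendsto_order.1 hlim).2 a (by rw [hδ]; linarith)
    filter_upwards [hev, h, hJpos, hQpos, eventually_ge_atTop 1] with N h1 h2 h3 h4 h5
    refine lt_of_le_of_lt ?_ h1
    have hM0 : (0 : ℝ) < ((N + b : ℕ) : ℝ) := by exact_mod_cast (by omega : 0 < N + b)
    have hN0 : (0 : ℝ) < (N : ℝ) + 1 := by positivity
    have hε2 : 0 < 1 + ε := by linarith
    have h6 := Real.log_le_log h3 h2
    rw [Real.log_mul (by positivity) (by positivity), Real.log_mul (by positivity) (by positivity),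
      Real.log_mul (by positivity) (by positivity), Real.log_pow, Real.log_pow, Real.log_pow] at h6
    rw [div_le_iff₀ hN0]
    have e : (2 * π * Real.log C / ((N : ℝ) + 1)
        + 2 * π * D * (Real.log ((N + b : ℕ) : ℝ) / ((N : ℝ) + 1))
        + δ / 2 * (((N + b : ℕ) : ℝ) / (N + 1))
        + 2 * ((2 * π / ((N + b : ℕ) : ℝ)) * Real.log (QQ r (N + b))) * (((N + b : ℕ) : ℝ) / (N + 1)))
        * ((N : ℝ) + 1)
        = 2 * π * (Real.log C + D * Real.log ((N + b : ℕ) : ℝ) + ((N + b : ℕ) : ℝ) * Real.log (1 + ε)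
          + 2 * Real.log (QQ r (N + b))) := by
      rw [← hlogε]
      field_simp
    rw [e]
    apply mul_le_mul_of_nonneg_left _ (by positivity)
    push_cast at h6 ⊢
    linarith

/-- The main theorem in terms of the real sum `JJ`. -/
theorem limit_main (p : ℕ) (hp : 2 ≤ p) : ∃ z : ℂ, IsGeom p z ∧ (∀ z', IsGeom p z' → z' = z) ∧
    ∀ n b : ℕ, 2 ≤ n → 1 ≤ b → b ≤ n - 1 →
      (∀ᶠ N : ℕ in atTop, 0 < JJ p n b N) ∧
      Tendsto (fun N : ℕ => 2 * π * Real.log (JJ p n b N) / (N + 1)) atTop (𝓝 (volOf p z)) := by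
  have hpi := pi_pos
  obtain ⟨ts, zd, hts0, hts2, hzc, hroot, hne, hsum, hz0, him, hdom, hge, heq, hupp, -, hgeom, huniq⟩ :=
    roots_main p hp
  refine ⟨zd ts, hgeom, huniq, ?_⟩
  have htsπ : ts < π := by linarith
  set r : ℝ → ℝ := fun t => if t ≤ ts then ‖zd t - 2 * (Real.cos t : ℂ)‖ else 2 - 2 * Real.cos t with hr
  have hr1 : ∀ t ∈ Icc 0 ts, r t = ‖zd t - 2 * (Real.cos t : ℂ)‖ := by
    intro t ht
    simp only [hr]
    rw [if_pos ht.2]
  have hr2 : ∀ t ∈ Icc ts π, r t = 2 - 2 * Real.cos t := by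
    intro t ht
    simp only [hr]
    split_ifs with h
    · have : t = ts := le_antisymm h ht.1
      rw [this]; exact heq
    · rfl
  have hrge : ∀ t ∈ Icc 0 π, 2 - 2 * Real.cos t ≤ r t := by
    intro t ht
    rcases le_total t ts with h | h
    · rw [hr1 t ⟨ht.1, h⟩]; exact hge t ⟨ht.1, h⟩
    · rw [hr2 t ⟨h, ht.2⟩]
  have hrpos : ∀ t ∈ Icc 0 π, 0 < r t := by
    intro t ht
    rcases ht.1.eq_or_lt with h | h
    · rw [← h, hr1 0 ⟨le_rfl, hts0.le⟩, hz0, Real.cos_zero]
      rw [norm_pos_iff]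
      have h2 : 0 ≤ Real.cos (π / p) := by
        apply Real.cos_nonneg_of_mem_Icc
        have hpR : (2 : ℝ) ≤ p := by exact_mod_cast hp
        constructor
        · have : 0 ≤ π / p := by positivity
          linarith
        · gcongr
      have e : ((-2 * Real.cos (π / p) : ℝ) : ℂ) - 2 * ((1 : ℝ) : ℂ)
          = ((-2 * Real.cos (π / p) - 2 : ℝ) : ℂ) := by push_cast; ring
      rw [e, Ne, Complex.ofReal_eq_zero]
      intro h3
      linarith
    · have h1 : Real.cos t < 1 := by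
        have := Real.cos_lt_cos_of_nonneg_of_le_pi le_rfl ht.2 h
        rwa [Real.cos_zero] at this
      have := hrge t ht
      linarith
  have hrc : ContinuousOn r (Icc 0 π) := by
    have h1 : ContinuousOn r (Icc 0 ts) := by
      have h2 : ContinuousOn (fun t => ‖zd t - 2 * (Real.cos t : ℂ)‖) (Icc 0 ts) :=
        (hzc.sub (continuous_const.mul
          (Complex.continuous_ofReal.comp Real.continuous_cos)).continuousOn).norm
      exact h2.congr hr1
    have h3 : ContinuousOn r (Icc ts π) := by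
      have h4 : ContinuousOn (fun t => 2 - 2 * Real.cos t) (Icc ts π) := by fun_prop
      exact h4.congr hr2
    have h5 := h1.union_of_isClosed h3 isClosed_Icc isClosed_Icc
    rwa [Icc_union_Icc_eq_Icc hts0.le htsπ.le] at h5
  have hrroot : ∀ t ∈ Icc 0 π, ∀ z : ℂ, chV p z = Complex.exp (t * Complex.I) * chV (p - 1) z →
      ‖z - 2 * (Real.cos t : ℂ)‖ ≤ r t := by
    intro t ht z hz
    rcases le_total t ts with h | h
    · rw [hr1 t ⟨ht.1, h⟩]
      by_cases hzz : z = zd t
      · rw [hzz]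
      · exact (hdom t ⟨ht.1, h⟩ z hz hzz).le
    · rw [hr2 t ⟨h, ht.2⟩]
      exact hupp t ⟨h, ht.2⟩ z hz
  -- the volume
  have hlogc : ContinuousOn (fun t => Real.log (r t)) (Icc 0 π) :=
    hrc.log fun t ht => (hrpos t ht).ne'
  have hvol : volOf p (zd ts) = 2 * ∫ t in (0 : ℝ)..π, Real.log (r t) := by
    have hz0ne : zd 0 ≠ 2 := by
      have h1 := hrpos 0 ⟨le_rfl, hpi.le⟩
      rw [hr1 0 ⟨le_rfl, hts0.le⟩, Real.cos_zero] at h1
      intro h
      rw [h] at h1
      simp at h1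
    have h1 := volume_identity p hp ts ⟨hts0, htsπ⟩ zd hzc hroot hne hsum (by
      rw [hz0, Complex.ofReal_im]) hz0ne him
    rw [h1]
    have hi1 : IntervalIntegrable (fun t => Real.log (r t)) volume 0 ts := by
      apply ContinuousOn.intervalIntegrable
      rw [uIcc_of_le hts0.le]
      exact hlogc.mono (Icc_subset_Icc_right htsπ.le)
    have hi2 : IntervalIntegrable (fun t => Real.log (r t)) volume ts π := by
      apply ContinuousOn.intervalIntegrable
      rw [uIcc_of_le htsπ.le]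
      exact hlogc.mono (Icc_subset_Icc_left hts0.le)
    rw [← intervalIntegral.integral_add_adjacent_intervals hi1 hi2]
    have e1 : ∫ t in (0 : ℝ)..ts, Real.log (r t)
        = ∫ t in (0 : ℝ)..ts, Real.log ‖zd t - 2 * (Real.cos t : ℂ)‖ := by
      apply intervalIntegral.integral_congr
      intro t ht
      rw [uIcc_of_le hts0.le] at ht
      simp only
      rw [hr1 t ht]
    have e2 : ∫ t in ts..π, Real.log (r t) = 2 * ∫ t in ts..π, Real.log (2 * Real.sin (t / 2)) := by
      rw [← intervalIntegral.integral_const_mul]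
      apply intervalIntegral.integral_congr
      intro t ht
      rw [uIcc_of_le htsπ.le] at ht
      simp only
      rw [hr2 t ht]
      have h3 : 2 - 2 * Real.cos t = (2 * Real.sin (t / 2)) ^ 2 := by
        have h4 : Real.cos t = Real.cos (2 * (t / 2)) := by congr 1; ring
        rw [h4, Real.cos_two_mul]
        have := Real.sin_sq_add_cos_sq (t / 2)
        linear_combination (-4 : ℝ) * this
      rw [h3, Real.log_pow]
      push_cast
      ring
    rw [e1, e2]
    ring
  intro n b hn hb hbn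
  rw [hvol]
  exact limit_real p n b r hrc hrpos hrge
    (fun ε hε => upper_bound p n b hp hn hb hbn r hrc hrpos hrge hrroot ε hε)
    (fun ε hε hε1 => lower_bound p n b hp hn hb hbn r hrpos hrge ts zd hts0 hts2 hzc hroot hsum hz0
      hdom hr1 hr2 ε hε hε1)

end Pool.Agent.H63.VC
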