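import Pool.Agent.H63.VC.VolA

/-! # Concavity of the volume of an ideal tetrahedron in its dihedral angles -/

namespace Pool.Agent.H63.VC

open Real

/-- the quadratic form in the cotangents is nonnegative -/
theorem swtan_form (x y z p q r : ℝ) (hx : 0 < x) (hy : 0 < y) (hz : 0 < z) (hs : x + y + z = π)
    (hp : p + q + r = 0) :
    0 ≤ cos x / sin x * p ^ 2 + cos y / sin y * q ^ 2 + cos z / sin z * r ^ 2 := by
  have sx : 0 < sin x := sin_pos_of_pos_of_lt_pi hx (by linarith)
  have sy : 0 < sin y := sin_pos_of_pos_of_lt_pi hy (by linarith)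
  have sz : 0 < sin z := sin_pos_of_pos_of_lt_pi hz (by linarith)
  have h1 : sin x * cos y * cos z + cos x * sin y * cos z + cos x * cos y * sin z =
      sin x * sin y * sin z := by
    have h2 : sin (x + y + z) = 0 := by rw [hs, sin_pi]
    rw [sin_add, sin_add, cos_add] at h2
    linear_combination h2
  have h2 : sin x * cos z + cos x * sin z = sin y := by
    rw [← sin_add]
    have : x + z = π - y := by linarith
    rw [this, sin_pi_sub]
  set a := cos x / sin x with ha
  set b := cos y / sin y with hb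
  set c := cos z / sin z with hc
  have hac : 0 < a + c := by
    have : a + c = sin y / (sin x * sin z) := by
      rw [ha, hc, div_add_div _ _ sx.ne' sz.ne', ← h2]
      ring
    rw [this]
    positivity
  have habc : a * b + b * c + a * c = 1 := by
    rw [ha, hb, hc]
    field_simp
    linear_combination h1
  have hr : r = -(p + q) := by linarith
  subst hr
  have key : (a + c) * (a * p ^ 2 + b * q ^ 2 + c * (-(p + q)) ^ 2) =
      ((a + c) * p + c * q) ^ 2 + q ^ 2 := by
    linear_combination (q ^ 2) * habc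
  by_contra hcon
  push Not at hcon
  have h3 : (a + c) * (a * p ^ 2 + b * q ^ 2 + c * (-(p + q)) ^ 2) < 0 :=
    mul_neg_of_pos_of_neg hac hcon
  rw [key] at h3
  nlinarith [sq_nonneg ((a + c) * p + c * q), sq_nonneg q]

theorem tet_tangent (x y z x' y' z' : ℝ) (hx : 0 < x) (hy : 0 < y) (hz : 0 < z)
    (hs : x + y + z = π) (hx' : 0 < x') (hy' : 0 < y') (hz' : 0 < z') (hs' : x' + y' + z' = π) :
    lob x' + lob y' + lob z' ≤ lob x + lob y + lob z
      - (Real.log (2 * Real.sin x) * (x' - x) + Real.log (2 * Real.sin y) * (y' - y)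
        + Real.log (2 * Real.sin z) * (z' - z)) := by
  -- the segment
  have hpos : ∀ a a' : ℝ, 0 < a → 0 < a' → ∀ s ∈ Set.Icc (0 : ℝ) 1, 0 < a + s * (a' - a) := by
    intro a a' ha ha' s hs0
    have h1 : a + s * (a' - a) = (1 - s) * a + s * a' := by ring
    rw [h1]
    rcases eq_or_lt_of_le hs0.1 with h2 | h2
    · rw [← h2]; simpa using ha
    · have : 0 ≤ (1 - s) * a := mul_nonneg (by linarith [hs0.2]) ha.le
      have : 0 < s * a' := mul_pos h2 ha'
      linarith
  have hsum : ∀ s : ℝ, (x + s * (x' - x)) + (y + s * (y' - y)) + (z + s * (z' - z)) = π := by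
    intro s
    linear_combination (1 - s) * hs + s * hs'
  have hsin : ∀ s ∈ Set.Icc (0 : ℝ) 1, 0 < sin (x + s * (x' - x)) ∧ 0 < sin (y + s * (y' - y)) ∧
      0 < sin (z + s * (z' - z)) := by
    intro s hs0
    have h1 := hpos x x' hx hx' s hs0
    have h2 := hpos y y' hy hy' s hs0
    have h3 := hpos z z' hz hz' s hs0
    have h4 := hsum s
    exact ⟨sin_pos_of_pos_of_lt_pi h1 (by linarith), sin_pos_of_pos_of_lt_pi h2 (by linarith),
      sin_pos_of_pos_of_lt_pi h3 (by linarith)⟩
  -- derivatives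
  have hlin : ∀ a a' s : ℝ, HasDerivAt (fun s : ℝ => a + s * (a' - a)) (a' - a) s := by
    intro a a' s
    have := ((hasDerivAt_id s).mul_const (a' - a)).const_add a
    simpa using this
  have hlobd : ∀ a a' s : ℝ, 0 < sin (a + s * (a' - a)) →
      HasDerivAt (fun s : ℝ => lob (a + s * (a' - a)))
        (-Real.log (2 * sin (a + s * (a' - a))) * (a' - a)) s := by
    intro a a' s h
    have h1 := (volA_lob_hasDerivAt (a + s * (a' - a)) h.ne').comp s (hlin a a' s)
    rw [abs_of_pos (by positivity)] at h1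
    exact h1
  have hlogd : ∀ a a' s : ℝ, 0 < sin (a + s * (a' - a)) →
      HasDerivAt (fun s : ℝ => Real.log (2 * sin (a + s * (a' - a))) * (a' - a))
        (cos (a + s * (a' - a)) / sin (a + s * (a' - a)) * (a' - a) ^ 2) s := by
    intro a a' s h
    have h1 := (((hlin a a' s).sin).const_mul 2).log (by positivity)
    have h2 := h1.mul_const (a' - a)
    have h3 : 2 * (cos (a + s * (a' - a)) * (a' - a)) / (2 * sin (a + s * (a' - a))) * (a' - a) =
        cos (a + s * (a' - a)) / sin (a + s * (a' - a)) * (a' - a) ^ 2 := by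
      field_simp
    rw [h3] at h2
    exact h2
  set g : ℝ → ℝ := fun s => Real.log (2 * sin (x + s * (x' - x))) * (x' - x)
    + Real.log (2 * sin (y + s * (y' - y))) * (y' - y)
    + Real.log (2 * sin (z + s * (z' - z))) * (z' - z) with hg
  set f : ℝ → ℝ := fun s => lob (x + s * (x' - x)) + lob (y + s * (y' - y)) + lob (z + s * (z' - z))
    with hf
  have hgd : ∀ s ∈ Set.Icc (0 : ℝ) 1, HasDerivAt g
      (cos (x + s * (x' - x)) / sin (x + s * (x' - x)) * (x' - x) ^ 2
        + cos (y + s * (y' - y)) / sin (y + s * (y' - y)) * (y' - y) ^ 2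
        + cos (z + s * (z' - z)) / sin (z + s * (z' - z)) * (z' - z) ^ 2) s := by
    intro s hs0
    obtain ⟨h1, h2, h3⟩ := hsin s hs0
    exact ((hlogd x x' s h1).add (hlogd y y' s h2)).add (hlogd z z' s h3)
  have hgmono : MonotoneOn g (Set.Icc 0 1) := by
    apply monotoneOn_of_deriv_nonneg (convex_Icc 0 1)
    · intro s hs0
      exact (hgd s hs0).continuousAt.continuousWithinAt
    · intro s hs0
      exact (hgd s (interior_subset hs0)).differentiableAt.differentiableWithinAt
    · intro s hs0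
      have hs1 := interior_subset hs0
      rw [(hgd s hs1).deriv]
      exact swtan_form _ _ _ _ _ _ (hpos x x' hx hx' s hs1) (hpos y y' hy hy' s hs1)
        (hpos z z' hz hz' s hs1) (hsum s) (by linarith)
  have hfd : ∀ s ∈ Set.Icc (0 : ℝ) 1, HasDerivAt (fun s => f s + s * g 0) (-g s + g 0) s := by
    intro s hs0
    obtain ⟨h1, h2, h3⟩ := hsin s hs0
    have h4 := ((hlobd x x' s h1).add (hlobd y y' s h2)).add (hlobd z z' s h3)
    have h5 := h4.add ((hasDerivAt_id s).mul_const (g 0))
    have h6 : -Real.log (2 * sin (x + s * (x' - x))) * (x' - x) +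
        -Real.log (2 * sin (y + s * (y' - y))) * (y' - y) +
        -Real.log (2 * sin (z + s * (z' - z))) * (z' - z) + 1 * g 0 = -g s + g 0 := by
      rw [hg]
      ring
    rw [h6] at h5
    exact h5
  have hfanti : AntitoneOn (fun s => f s + s * g 0) (Set.Icc 0 1) := by
    apply antitoneOn_of_deriv_nonpos (convex_Icc 0 1)
    · intro s hs0
      exact (hfd s hs0).continuousAt.continuousWithinAt
    · intro s hs0
      exact (hfd s (interior_subset hs0)).differentiableAt.differentiableWithinAt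
    · intro s hs0
      have hs1 := interior_subset hs0
      rw [(hfd s hs1).deriv]
      have := hgmono (Set.left_mem_Icc.2 zero_le_one) hs1 hs1.1
      linarith
  have hfin := hfanti (Set.left_mem_Icc.2 zero_le_one) (Set.right_mem_Icc.2 zero_le_one) zero_le_one
  simp only [hf, hg, one_mul, zero_mul, add_zero, add_sub_cancel] at hfin
  linarith

theorem swtan_arg (w : ℂ) (h : 0 < w.im) : 0 < Complex.arg w ∧ Complex.arg w < π := by
  have h1 : 0 ≤ Complex.arg w := Complex.arg_nonneg_iff.2 h.le
  have h2 : Complex.arg w ≠ 0 := by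
    intro h0
    rw [Complex.arg_eq_zero_iff] at h0
    exact h.ne' h0.2
  have h3 : Complex.arg w ≠ π := by
    intro h0
    rw [Complex.arg_eq_pi_iff] at h0
    exact h.ne' h0.2
  exact ⟨lt_of_le_of_ne h1 h2.symm, lt_of_le_of_ne (Complex.arg_le_pi w) h3⟩

/-- The three arguments in the Bloch-Wigner function are the angles of a triangle, and the sine
law. -/
theorem tet_angles (u : ℂ) (hu : 0 < u.im) :
    0 < Complex.arg u ∧ 0 < Complex.arg (1 - u)⁻¹ ∧ 0 < Complex.arg (1 - u⁻¹) ∧
      Complex.arg u + Complex.arg (1 - u)⁻¹ + Complex.arg (1 - u⁻¹) = π ∧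
      Real.sin (Complex.arg (1 - u)⁻¹) = ‖u‖ * Real.sin (Complex.arg (1 - u⁻¹)) ∧
      Real.sin (Complex.arg u) = ‖1 - u‖ * Real.sin (Complex.arg (1 - u⁻¹)) := by
  have hu0 : u ≠ 0 := by rintro rfl; simp at hu
  have hu1 : 1 - u ≠ 0 := by
    intro h0
    have h1 := congrArg Complex.im h0
    simp at h1
    linarith
  have hn0 : 0 < ‖u‖ := norm_pos_iff.2 hu0
  have hn1 : 0 < ‖1 - u‖ := norm_pos_iff.2 hu1
  have i2 : ((1 - u)⁻¹).im = u.im / ‖1 - u‖ ^ 2 := by
    rw [Complex.inv_im, Complex.normSq_eq_norm_sq]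
    simp
  have i3 : (1 - u⁻¹).im = u.im / ‖u‖ ^ 2 := by
    rw [Complex.sub_im, Complex.inv_im, Complex.normSq_eq_norm_sq, Complex.one_im]
    ring
  have n2 : ‖(1 - u)⁻¹‖ = ‖1 - u‖⁻¹ := norm_inv _
  have n3 : ‖1 - u⁻¹‖ = ‖1 - u‖ / ‖u‖ := by
    have h1 : 1 - u⁻¹ = -((1 - u) / u) := by field_simp; ring
    rw [h1, norm_neg, norm_div]
  have h1 := swtan_arg u hu
  have h2 := swtan_arg (1 - u)⁻¹ (by rw [i2]; positivity)
  have h3 := swtan_arg (1 - u⁻¹) (by rw [i3]; positivity)
  refine ⟨h1.1, h2.1, h3.1, ?_, ?_, ?_⟩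
  · have w3 : 1 - u⁻¹ ≠ 0 := by
      intro h0
      rw [h0] at h3
      simp at h3
    have hprod : u * (1 - u)⁻¹ * (1 - u⁻¹) = -1 := by
      field_simp
      ring
    have ha : ((Complex.arg u + Complex.arg (1 - u)⁻¹ + Complex.arg (1 - u⁻¹) : ℝ) : Real.Angle) =
        (π : ℝ) := by
      rw [Real.Angle.coe_add, Real.Angle.coe_add, ← Complex.arg_mul_coe_angle hu0 (inv_ne_zero hu1),
        ← Complex.arg_mul_coe_angle (mul_ne_zero hu0 (inv_ne_zero hu1)) w3, hprod, Complex.arg_neg_one]
    rw [Real.Angle.angle_eq_iff_two_pi_dvd_sub] at ha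
    obtain ⟨k, hk⟩ := ha
    have hk0 : k = 0 := by
      have b1 : -1 < (k : ℝ) := by
        by_contra hcon
        push Not at hcon
        nlinarith [pi_pos, h1.1, h2.1, h3.1]
      have b2 : (k : ℝ) < 1 := by
        by_contra hcon
        push Not at hcon
        nlinarith [pi_pos, h1.2, h2.2, h3.2]
      have b3 : -1 < k := by exact_mod_cast b1
      have b4 : k < 1 := by exact_mod_cast b2
      omega
    rw [hk0] at hk
    simp at hk
    linarith
  · rw [Complex.sin_arg, Complex.sin_arg, i2, i3, n2, n3]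
    field_simp
  · rw [Complex.sin_arg, Complex.sin_arg, i3, n3]
    field_simp

end Pool.Agent.H63.VC
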