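import Pool.Agent.H63.VC.SWalg
import Pool.Agent.H63.VC.SWtan

/-! # The maximum of the volume functional -/

namespace Pool.Agent.H63.VC

open Real Set

theorem swmax_isHinge_iff (p i : ℕ) : IsHinge [2 * p, 2 * p] i ↔ i + 1 = 2 * p := by
  unfold IsHinge
  constructor
  · rintro ⟨j, h1, h2, h3⟩
    simp only [List.length_cons, List.length_nil] at h2
    have : j = 1 := by omega
    subst this
    simpa using h3
  · intro h
    exact ⟨1, le_rfl, by simp, by simpa using h⟩

/-- The shape parameters. -/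
noncomputable def swU (y : ℂ) (k : ℕ) : ℂ := (Xs y k ^ 2)⁻¹

/-- The symmetric index. -/
def swM (p i : ℕ) : ℕ := min (i + 1) (4 * p - 1 - i)

/-- The geometric angle structure. -/
noncomputable def swW (p : ℕ) (y : ℂ) (i : ℕ) : ℝ := π - Complex.arg (swU y (swM p i))

section
variable (p : ℕ) (hp : 2 ≤ p) (y : ℂ)
    (hpos : ∀ k, 2 ≤ k → k ≤ 2 * p → 0 < ((Xs y k ^ 2)⁻¹).im)
include hp hpos

theorem swmax_X_ne (k : ℕ) (hk : 1 ≤ k) (hk2 : k ≤ 2 * p) : Xs y k ≠ 0 := by
  rcases hk.eq_or_lt with h | h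
  · rw [← h, Xs_one]; exact one_ne_zero
  · intro h0
    have := hpos k h hk2
    rw [h0] at this
    simp at this

theorem swmax_U_ne (k : ℕ) (hk : 1 ≤ k) (hk2 : k ≤ 2 * p) : swU y k ≠ 0 :=
  inv_ne_zero (pow_ne_zero 2 (swmax_X_ne p hp y hpos k hk hk2))

omit hp hpos in
theorem swmax_one_sub (k : ℕ) (hk : 1 ≤ k) :
    1 - (swU y k)⁻¹ = -(Xs y (k + 1) * Xs y (k - 1)) := by
  obtain ⟨j, rfl⟩ : ∃ j, k = j + 1 := ⟨k - 1, by omega⟩
  have e : j + 1 - 1 = j := by omega
  unfold swU
  rw [inv_inv, Xs_inv, e]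
  ring

/-- The angle relation. -/
theorem swmax_arg_rel (k : ℕ) (hk : 2 ≤ k) (hk2 : k + 1 ≤ 2 * p) :
    2 * Complex.arg (1 - (swU y k)⁻¹) = 2 * π - Complex.arg (swU y (k + 1)) - Complex.arg (swU y (k - 1)) := by
  have hX1 := swmax_X_ne p hp y hpos (k + 1) (by omega) hk2
  have hX2 := swmax_X_ne p hp y hpos (k - 1) (by omega) (by omega)
  have hU1 := swmax_U_ne p hp y hpos (k + 1) (by omega) hk2
  have hU2 := swmax_U_ne p hp y hpos (k - 1) (by omega) (by omega)
  have hA := swmax_one_sub y k (by omega)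
  set A : ℂ := 1 - (swU y k)⁻¹ with hAdef
  have hA0 : A ≠ 0 := by
    rw [hA, neg_ne_zero]
    exact mul_ne_zero hX1 hX2
  have hprod : A * A * (swU y (k + 1) * swU y (k - 1)) = 1 := by
    rw [hA]
    unfold swU
    field_simp
  have hang : ((Complex.arg A + Complex.arg A + (Complex.arg (swU y (k + 1)) +
      Complex.arg (swU y (k - 1))) : ℝ) : Real.Angle) = 0 := by
    rw [Real.Angle.coe_add, Real.Angle.coe_add, Real.Angle.coe_add,
      ← Complex.arg_mul_coe_angle hA0 hA0, ← Complex.arg_mul_coe_angle hU1 hU2,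
      ← Complex.arg_mul_coe_angle (mul_ne_zero hA0 hA0) (mul_ne_zero hU1 hU2), hprod,
      Complex.arg_one, Real.Angle.coe_zero]
  rw [Real.Angle.coe_eq_zero_iff] at hang
  obtain ⟨n, hn⟩ := hang
  rw [zsmul_eq_mul] at hn
  have hu := hpos k hk (by omega)
  have hγ := (tet_angles _ hu).2.2.1
  have hAeq : 1 - ((Xs y k ^ 2)⁻¹)⁻¹ = A := rfl
  rw [hAeq] at hγ
  have hγ2 : Complex.arg A < π := by
    have h := tet_angles _ hu
    have h1 := h.1
    have h2 := h.2.1
    have h3 := h.2.2.2.1
    rw [hAeq] at h3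
    linarith
  have h1 : 0 < Complex.arg (swU y (k + 1)) := (tet_angles _ (hpos (k + 1) (by omega) hk2)).1
  have h1' : Complex.arg (swU y (k + 1)) < π := by
    have h := tet_angles _ (hpos (k + 1) (by omega) hk2)
    have e : swU y (k + 1) = (Xs y (k + 1) ^ 2)⁻¹ := rfl
    rw [e]
    linarith [h.2.1, h.2.2.1, h.2.2.2.1]
  have h2 : 0 ≤ Complex.arg (swU y (k - 1)) ∧ Complex.arg (swU y (k - 1)) < π := by
    rcases hk.eq_or_lt with h | h
    · have : k - 1 = 1 := by omega
      rw [this]
      unfold swU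
      rw [Xs_one]
      simp [pi_pos]
    · have h3 := tet_angles _ (hpos (k - 1) (by omega) (by omega))
      have e : swU y (k - 1) = (Xs y (k - 1) ^ 2)⁻¹ := rfl
      rw [e]
      exact ⟨h3.1.le, by linarith [h3.2.1, h3.2.2.1, h3.2.2.2.1]⟩
  have hpi := pi_pos
  have hn1 : (0 : ℝ) < n := by
    by_contra hcon
    push Not at hcon
    nlinarith [h2.1]
  have hn2 : (n : ℝ) < 2 := by
    by_contra hcon
    push Not at hcon
    nlinarith [h2.2]
  have hn3 : n = 1 := by
    have a1 : 0 < n := by exact_mod_cast hn1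
    have a2 : n < 2 := by exact_mod_cast hn2
    omega
  rw [hn3] at hn
  push_cast at hn
  linarith

end

theorem swmax_angles (p : ℕ) (hp : 2 ≤ p) (y : ℂ)
    (hpos : ∀ k, 2 ≤ k → k ≤ 2 * p → 0 < ((Xs y k ^ 2)⁻¹).im)
    (hnorm : ‖Xs y (2 * p)‖ = 1) (i : ℕ) (h1 : 1 ≤ i) (h2 : i ≤ 4 * p - 3) :
    angX [2 * p, 2 * p] (swW p y) i = Complex.arg (1 - (swU y (swM p i))⁻¹) ∧
    angY [2 * p, 2 * p] (swW p y) i = Complex.arg (1 - swU y (swM p i))⁻¹ ∧
    angZ (swW p y) i = Complex.arg (swU y (swM p i)) := by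
  have hk1 : 2 ≤ swM p i := by unfold swM; omega
  have hk2 : swM p i ≤ 2 * p := by unfold swM; omega
  have hu := hpos (swM p i) hk1 hk2
  have htet := tet_angles _ hu
  have eU : (Xs y (swM p i) ^ 2)⁻¹ = swU y (swM p i) := rfl
  rw [eU] at htet
  have hZ : angZ (swW p y) i = Complex.arg (swU y (swM p i)) := by
    unfold angZ swW; ring
  have hwi : swW p y i = π - Complex.arg (swU y (swM p i)) := rfl
  by_cases hi : i + 1 = 2 * p
  · -- hinge
    have hM : swM p i = 2 * p := by unfold swM; omega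
    have hM1 : swM p (i - 1) = 2 * p - 1 := by unfold swM; omega
    have hM2 : swM p (i + 1) = 2 * p - 1 := by unfold swM; omega
    have hww : swW p y (i - 1) = swW p y (i + 1) := by
      unfold swW; rw [hM1, hM2]
    have hnu : ‖swU y (swM p i)‖ = 1 := by
      rw [hM]; unfold swU; rw [norm_inv, norm_pow, hnorm]; norm_num
    have hβγ : Complex.arg (1 - swU y (swM p i))⁻¹ = Complex.arg (1 - (swU y (swM p i))⁻¹) := by
      have hs := htet.2.2.2.2.1
      rw [hnu, one_mul] at hs
      set β := Complex.arg (1 - swU y (swM p i))⁻¹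
      set γ := Complex.arg (1 - (swU y (swM p i))⁻¹)
      have hsum := htet.2.2.2.1
      have h3 := htet.1
      have h4 := htet.2.1
      have h5 := htet.2.2.1
      -- sin β = sin γ and β + γ < π
      have h6 : Real.sin β - Real.sin γ = 0 := by rw [hs, sub_self]
      rw [Real.sin_sub_sin] at h6
      have h7 : 0 < Real.cos ((β + γ) / 2) := Real.cos_pos_of_mem_Ioo ⟨by linarith [pi_pos], by linarith⟩
      have h8 : Real.sin ((β - γ) / 2) = 0 := by
        rcases mul_eq_zero.1 h6 with h | h
        · linarith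
        · exact absurd h h7.ne'
      have h9 : (β - γ) / 2 = 0 := by
        rwa [Real.sin_eq_zero_iff_of_lt_of_lt (by linarith) (by linarith)] at h8
      linarith
    unfold angX angY
    rw [if_pos ((swmax_isHinge_iff p i).2 hi), if_pos ((swmax_isHinge_iff p i).2 hi), hww, hwi]
    have hsum := htet.2.2.2.1
    refine ⟨by linarith, by linarith, hZ⟩
  · have hX : angX [2 * p, 2 * p] (swW p y) i = Complex.arg (1 - (swU y (swM p i))⁻¹) := by
      unfold angX
      rw [if_neg (fun h => hi ((swmax_isHinge_iff p i).1 h))]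
      have hrel := swmax_arg_rel p hp y hpos (swM p i) hk1 (by unfold swM; omega)
      have hcase : (swM p (i - 1) = swM p i - 1 ∧ swM p (i + 1) = swM p i + 1) ∨
          (swM p (i - 1) = swM p i + 1 ∧ swM p (i + 1) = swM p i - 1) := by
        unfold swM; omega
      unfold swW
      rcases hcase with ⟨a, b⟩ | ⟨a, b⟩
      · rw [a, b]; linarith
      · rw [a, b]; linarith
    refine ⟨hX, ?_, hZ⟩
    have hsum := htet.2.2.2.1
    have hY : angY [2 * p, 2 * p] (swW p y) i = swW p y i - angX [2 * p, 2 * p] (swW p y) i := by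
      unfold angX angY
      rw [if_neg (fun h => hi ((swmax_isHinge_iff p i).1 h)),
        if_neg (fun h => hi ((swmax_isHinge_iff p i).1 h))]
    rw [hY, hX, hwi]
    linarith

theorem swmax_sum_ang (a : List ℕ) (w : ℕ → ℝ) (i : ℕ) :
    angX a w i + angY a w i + angZ w i = π := by
  unfold angX angY angZ
  split_ifs <;> ring

theorem sw_max (p : ℕ) (hp : 2 ≤ p) (y : ℂ)
    (hpos : ∀ k, 2 ≤ k → k ≤ 2 * p → 0 < ((Xs y k ^ 2)⁻¹).im)
    (hnorm : ‖Xs y (2 * p)‖ = 1) (hnorm2 : ‖Xs y (2 * p + 1)‖ = ‖Xs y (2 * p - 1)‖) :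
    IsGreatest (structureVolumes [2 * p, 2 * p])
      (4 * ∑ k ∈ Finset.Icc 2 (2 * p - 1), blochWigner ((Xs y k ^ 2)⁻¹)
        + 2 * blochWigner ((Xs y (2 * p) ^ 2)⁻¹)) := by
  have hpi := pi_pos
  have hasum : ([2 * p, 2 * p] : List ℕ).sum = 4 * p := by simp; ring
  have hang := swmax_angles p hp y hpos hnorm
  have hMb : ∀ i, 1 ≤ i → i ≤ 4 * p - 3 → 2 ≤ swM p i ∧ swM p i ≤ 2 * p := by
    intro i h1 h2; unfold swM; omega
  -- the volume of the geometric structure
  have hvol : structureVolume [2 * p, 2 * p] (swW p y)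
      = 4 * ∑ k ∈ Finset.Icc 2 (2 * p - 1), blochWigner ((Xs y k ^ 2)⁻¹)
        + 2 * blochWigner ((Xs y (2 * p) ^ 2)⁻¹) := by
    unfold structureVolume
    rw [hasum]
    have h1 : ∀ i ∈ Finset.Icc 1 (4 * p - 3),
        lob (angX [2 * p, 2 * p] (swW p y) i) + lob (angY [2 * p, 2 * p] (swW p y) i)
          + lob (angZ (swW p y) i) = blochWigner (swU y (swM p i)) := by
      intro i hi
      rw [Finset.mem_Icc] at hi
      obtain ⟨a, b, c⟩ := hang i hi.1 hi.2
      rw [a, b, c]
      unfold blochWigner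
      ring
    rw [Finset.sum_congr rfl h1]
    -- split the sum
    have e1 : Finset.Icc 1 (4 * p - 3) = Finset.Ico 1 (4 * p - 2) := by
      ext i; simp only [Finset.mem_Icc, Finset.mem_Ico]; omega
    have e2 : Finset.Icc 2 (2 * p - 1) = Finset.Ico 2 (2 * p) := by
      ext i; simp only [Finset.mem_Icc, Finset.mem_Ico]; omega
    rw [e1, e2, ← Finset.sum_Ico_consecutive _ (by omega : 1 ≤ 2 * p - 1) (by omega : 2 * p - 1 ≤ 4 * p - 2),
      ← Finset.sum_Ico_consecutive _ (by omega : 2 * p - 1 ≤ 2 * p) (by omega : 2 * p ≤ 4 * p - 2)]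
    have s1 : ∑ i ∈ Finset.Ico 1 (2 * p - 1), blochWigner (swU y (swM p i))
        = ∑ k ∈ Finset.Ico 2 (2 * p), blochWigner ((Xs y k ^ 2)⁻¹) := by
      apply Finset.sum_nbij' (fun i => i + 1) (fun k => k - 1)
      · intro i hi; rw [Finset.mem_Ico] at hi ⊢; omega
      · intro k hk; rw [Finset.mem_Ico] at hk ⊢; omega
      · intro i _; omega
      · intro k hk; rw [Finset.mem_Ico] at hk; omega
      · intro i hi
        rw [Finset.mem_Ico] at hi
        have : swM p i = i + 1 := by unfold swM; omega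
        rw [this]; rfl
    have s2 : ∑ i ∈ Finset.Ico (2 * p - 1) (2 * p), blochWigner (swU y (swM p i))
        = blochWigner ((Xs y (2 * p) ^ 2)⁻¹) := by
      have e3 : Finset.Ico (2 * p - 1) (2 * p) = {2 * p - 1} := by
        ext i; simp only [Finset.mem_Ico, Finset.mem_singleton]; omega
      have : swM p (2 * p - 1) = 2 * p := by unfold swM; omega
      rw [e3, Finset.sum_singleton, this]; rfl
    have s3 : ∑ i ∈ Finset.Ico (2 * p) (4 * p - 2), blochWigner (swU y (swM p i))
        = ∑ k ∈ Finset.Ico 2 (2 * p), blochWigner ((Xs y k ^ 2)⁻¹) := by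
      apply Finset.sum_nbij' (fun i => 4 * p - 1 - i) (fun k => 4 * p - 1 - k)
      · intro i hi; rw [Finset.mem_Ico] at hi ⊢; omega
      · intro k hk; rw [Finset.mem_Ico] at hk ⊢; omega
      · intro i hi; rw [Finset.mem_Ico] at hi; omega
      · intro k hk; rw [Finset.mem_Ico] at hk; omega
      · intro i hi
        rw [Finset.mem_Ico] at hi
        have : swM p i = 4 * p - 1 - i := by unfold swM; omega
        rw [this]; rfl
    rw [s1, s2, s3]
    ring
  have hU1 : swU y 1 = 1 := by unfold swU; rw [Xs_one]; simp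
  have hw0 : swW p y 0 = π := by
    have : swM p 0 = 1 := by unfold swM; omega
    unfold swW
    rw [this, hU1, Complex.arg_one, sub_zero]
  have hwl : swW p y (4 * p - 2) = π := by
    have : swM p (4 * p - 2) = 1 := by unfold swM; omega
    unfold swW
    rw [this, hU1, Complex.arg_one, sub_zero]
  constructor
  · refine ⟨swW p y, ⟨hw0, ?_, ?_⟩, hvol.symm⟩
    · rw [hasum]; exact hwl
    · rw [hasum]
      intro i hi
      rw [Finset.mem_Icc] at hi
      obtain ⟨a, b, c⟩ := hang i hi.1 hi.2
      have hk := hMb i hi.1 hi.2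
      have htet := tet_angles _ (hpos (swM p i) hk.1 hk.2)
      rw [a, b, c]
      exact ⟨htet.2.2.1, htet.2.1, htet.1⟩
  · rintro v ⟨w', ⟨hw'0, hw'l, hw'a⟩, rfl⟩
    rw [hasum] at hw'l hw'a
    rw [← hvol]
    set δ : ℕ → ℝ := fun i => w' i - swW p y i with hδ
    set l : ℕ → ℝ := fun i => Real.log ‖Xs y (swM p i)‖ with hl
    set E : ℕ → ℝ := fun i => l i * δ (i + 1) - l (i + 1) * δ i with hE
    have hlin : ∀ i ∈ Finset.Icc 1 (4 * p - 3),
        lob (angX [2 * p, 2 * p] w' i) + lob (angY [2 * p, 2 * p] w' i) + lob (angZ w' i)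
        ≤ lob (angX [2 * p, 2 * p] (swW p y) i) + lob (angY [2 * p, 2 * p] (swW p y) i)
          + lob (angZ (swW p y) i) - (E i - E (i - 1)) := by
      intro i hi
      have hi2 := hi
      rw [Finset.mem_Icc] at hi2
      obtain ⟨a', b', c'⟩ := hw'a i hi
      obtain ⟨a, b, c⟩ := hang i hi2.1 hi2.2
      have hk := hMb i hi2.1 hi2.2
      have htet := tet_angles _ (hpos (swM p i) hk.1 hk.2)
      have eU : (Xs y (swM p i) ^ 2)⁻¹ = swU y (swM p i) := rfl
      rw [eU] at htet
      set u : ℂ := swU y (swM p i) with hu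
      have htan := tet_tangent (angX [2 * p, 2 * p] (swW p y) i) (angY [2 * p, 2 * p] (swW p y) i)
        (angZ (swW p y) i) (angX [2 * p, 2 * p] w' i) (angY [2 * p, 2 * p] w' i) (angZ w' i)
        (by rw [a]; exact htet.2.2.1) (by rw [b]; exact htet.2.1) (by rw [c]; exact htet.1)
        (swmax_sum_ang _ _ _) a' b' c' (swmax_sum_ang _ _ _)
      refine htan.trans (le_of_eq ?_)
      congr 1
      -- the linear term
      have hXne : Xs y (swM p i) ≠ 0 := swmax_X_ne p hp y hpos _ (by omega) hk.2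
      have hune : u ≠ 0 := swmax_U_ne p hp y hpos _ (by omega) hk.2
      have hnu : 0 < ‖u‖ := norm_pos_iff.2 hune
      have hlogu : Real.log ‖u‖ = -2 * l i := by
        rw [hu]
        unfold swU
        rw [norm_inv, norm_pow, Real.log_inv, Real.log_pow, hl]
        push_cast; ring
      have hone : 1 - u = u * (Xs y (swM p i + 1) * Xs y (swM p i - 1)) := by
        have h1 := swmax_one_sub y (swM p i) (by omega)
        rw [← hu] at h1
        have h2 : u * u⁻¹ = 1 := mul_inv_cancel₀ hune
        linear_combination (-u) * h1 - h2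
      have hn1 : ‖Xs y (swM p i + 1)‖ ≠ 0 := by
        rcases hk.2.eq_or_lt with h | h
        · rw [h, hnorm2]
          exact norm_ne_zero_iff.2 (swmax_X_ne p hp y hpos _ (by omega) (by omega))
        · exact norm_ne_zero_iff.2 (swmax_X_ne p hp y hpos _ (by omega) (by omega))
      have hn2 : ‖Xs y (swM p i - 1)‖ ≠ 0 :=
        norm_ne_zero_iff.2 (swmax_X_ne p hp y hpos _ (by omega) (by omega))
      have hsumlog : Real.log ‖Xs y (swM p i + 1)‖ + Real.log ‖Xs y (swM p i - 1)‖
          = l (i + 1) + l (i - 1) := by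
        simp only [hl]
        by_cases hih : i + 1 = 2 * p
        · have e1 : swM p i = 2 * p := by unfold swM; omega
          have e2 : swM p (i + 1) = 2 * p - 1 := by unfold swM; omega
          have e3 : swM p (i - 1) = 2 * p - 1 := by unfold swM; omega
          rw [e1, e2, e3, hnorm2]
        · have hcase : (swM p (i - 1) = swM p i - 1 ∧ swM p (i + 1) = swM p i + 1) ∨
              (swM p (i - 1) = swM p i + 1 ∧ swM p (i + 1) = swM p i - 1) := by
            unfold swM; omega
          rcases hcase with ⟨x1, x2⟩ | ⟨x1, x2⟩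
          · rw [x1, x2]
          · rw [x1, x2]; ring
      have hlog1 : Real.log ‖1 - u‖ = -2 * l i + (l (i + 1) + l (i - 1)) := by
        rw [hone, norm_mul, norm_mul, Real.log_mul hnu.ne' (mul_ne_zero hn1 hn2),
          Real.log_mul hn1 hn2, hlogu, hsumlog]
      have hn3 : 0 < ‖1 - u‖ := by
        rw [hone, norm_mul, norm_mul]
        positivity
      have hsX : 0 < Real.sin (angX [2 * p, 2 * p] (swW p y) i) := by
        rw [a]
        exact Real.sin_pos_of_pos_of_lt_pi htet.2.2.1 (by linarith [htet.1, htet.2.1, htet.2.2.2.1])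
      have hsY : Real.sin (angY [2 * p, 2 * p] (swW p y) i)
          = ‖u‖ * Real.sin (angX [2 * p, 2 * p] (swW p y) i) := by
        rw [a, b]; exact htet.2.2.2.2.1
      have hsZ : Real.sin (angZ (swW p y) i)
          = ‖1 - u‖ * Real.sin (angX [2 * p, 2 * p] (swW p y) i) := by
        rw [a, c]; exact htet.2.2.2.2.2
      set sX := Real.sin (angX [2 * p, 2 * p] (swW p y) i) with hsXdef
      have hLY : Real.log (2 * Real.sin (angY [2 * p, 2 * p] (swW p y) i))
          = Real.log ‖u‖ + Real.log (2 * sX) := by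
        rw [hsY, ← Real.log_mul hnu.ne' (by positivity)]
        congr 1; ring
      have hLZ : Real.log (2 * Real.sin (angZ (swW p y) i))
          = Real.log ‖1 - u‖ + Real.log (2 * sX) := by
        rw [hsZ, ← Real.log_mul hn3.ne' (by positivity)]
        congr 1; ring
      rw [hLY, hLZ, hlogu, hlog1]
      have hs1 := swmax_sum_ang [2 * p, 2 * p] w' i
      have hs2 := swmax_sum_ang [2 * p, 2 * p] (swW p y) i
      have hZ : angZ w' i - angZ (swW p y) i = - δ i := by
        simp only [hδ]
        unfold angZ; ring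
      have hEE : E i - E (i - 1) = l i * (δ (i - 1) + δ (i + 1)) - (l (i + 1) + l (i - 1)) * δ i := by
        simp only [hE]
        have e4 : i - 1 + 1 = i := by omega
        rw [e4]; ring
      rw [hEE]
      by_cases hih : i + 1 = 2 * p
      · have hli : l i = 0 := by
          simp only [hl]
          have e1 : swM p i = 2 * p := by unfold swM; omega
          rw [e1, hnorm, Real.log_one]
        rw [hli]
        linear_combination (Real.log (2 * sX)) * (hs1 - hs2) + (l (i + 1) + l (i - 1)) * hZ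
      · have hY : angY [2 * p, 2 * p] w' i - angY [2 * p, 2 * p] (swW p y) i
            = δ i - (δ (i - 1) + δ (i + 1)) / 2 := by
          simp only [hδ]
          unfold angY
          rw [if_neg (fun h => hih ((swmax_isHinge_iff p i).1 h)),
            if_neg (fun h => hih ((swmax_isHinge_iff p i).1 h))]
          ring
        linear_combination (Real.log (2 * sX)) * (hs1 - hs2) + (-2 * l i) * hY
          + (-2 * l i + (l (i + 1) + l (i - 1))) * hZ
    have htel : ∀ m, ∑ i ∈ Finset.Icc 1 m, (E i - E (i - 1)) = E m - E 0 := by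
      intro m
      induction m with
      | zero => simp
      | succ m ih =>
        rw [Finset.sum_Icc_succ_top (by omega), ih]
        have : m + 1 - 1 = m := by omega
        rw [this]; ring
    have hsum := Finset.sum_le_sum hlin
    rw [Finset.sum_sub_distrib, htel] at hsum
    have hδ0 : δ 0 = 0 := by simp only [hδ]; rw [hw0, hw'0, sub_self]
    have hδl : δ (4 * p - 2) = 0 := by simp only [hδ]; rw [hwl, hw'l, sub_self]
    have hl0 : l 0 = 0 := by
      simp only [hl]
      have : swM p 0 = 1 := by unfold swM; omega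
      rw [this, Xs_one, norm_one, Real.log_one]
    have hll : l (4 * p - 2) = 0 := by
      simp only [hl]
      have : swM p (4 * p - 2) = 1 := by unfold swM; omega
      rw [this, Xs_one, norm_one, Real.log_one]
    have hE0 : E 0 = 0 := by simp only [hE]; rw [hl0, hδ0]; ring
    have hEl : E (4 * p - 3) = 0 := by
      simp only [hE]
      have : 4 * p - 3 + 1 = 4 * p - 2 := by omega
      rw [this, hll, hδl]; ring
    rw [hE0, hEl, sub_zero, sub_zero] at hsum
    unfold structureVolume
    rw [hasum]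
    linarith

end Pool.Agent.H63.VC
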