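import Pool.Agent.H63.VC.SWalg
import Pool.Agent.H63.VC.VolD

/-! # The volume of the Sakuma-Weeks solution as an integral -/

namespace Pool.Agent.H63.VC

open Real Set

section continuity

open Filter Topology

theorem SWpath_lob_angle (a b : ℝ) (h : (a : Real.Angle) = b) : lob a = lob b := by
  rw [← volA_lobA_coe, ← volA_lobA_coe, h]

theorem SWpath_lob_arg_inv (w : ℂ) : lob (Complex.arg w⁻¹) = -lob (Complex.arg w) := by
  rw [← volA_lob_neg]
  apply SWpath_lob_angle
  rw [Complex.arg_inv_coe_angle, Real.Angle.coe_neg]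

theorem SWpath_inv (v : ℂ) : blochWigner v⁻¹ = -blochWigner v := by
  unfold blochWigner
  rw [inv_inv, SWpath_lob_arg_inv, SWpath_lob_arg_inv, SWpath_lob_arg_inv]
  ring

theorem SWpath_one_sub (z : ℂ) : blochWigner (1 - z) = -blochWigner z := by
  rcases eq_or_ne z 0 with h0 | h0
  · have h1 := blochWigner_real 0
    have h2 := blochWigner_real 1
    push_cast at h1 h2
    rw [h0, sub_zero, h1, h2, neg_zero]
  rcases eq_or_ne z 1 with h1 | h1
  · have h3 := blochWigner_real 0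
    have h2 := blochWigner_real 1
    push_cast at h3 h2
    rw [h1, sub_self, h3, h2, neg_zero]
  have h1' : 1 - z ≠ 0 := sub_ne_zero.2 (Ne.symm h1)
  have h2' : z - 1 ≠ 0 := sub_ne_zero.2 h1
  have e : 1 - (1 - z)⁻¹ = (1 - z⁻¹)⁻¹ := by
    have h3 : 1 - z⁻¹ = (z - 1) / z := by field_simp
    rw [h3, inv_div]
    have h4 : (1 - z)⁻¹ = -(z - 1)⁻¹ := by rw [← neg_sub, inv_neg]
    rw [h4]
    field_simp
    ring
  unfold blochWigner
  rw [e, sub_sub_cancel, SWpath_lob_arg_inv, SWpath_lob_arg_inv, SWpath_lob_arg_inv]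
  ring

theorem SWpath_lob_uniform (ε : ℝ) (hε : 0 < ε) :
    ∃ δ > 0, ∀ a e : ℝ, |e| < δ → |lob a - lob (a - e)| < ε := by
  have : Fact (0 < 2 * π) := ⟨Real.two_pi_pos⟩
  have : CompactSpace Real.Angle := inferInstanceAs (CompactSpace (AddCircle (2 * π)))
  have hu : UniformContinuous volA_lobA :=
    CompactSpace.uniformContinuous_of_continuous volA_lobA_continuous
  obtain ⟨δ, hδ, h⟩ := Metric.uniformContinuous_iff.1 hu ε hε
  refine ⟨δ, hδ, fun a e he => ?_⟩
  have h1 : dist (a : Real.Angle) ((a - e : ℝ) : Real.Angle) < δ := by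
    rw [dist_eq_norm, ← Real.Angle.coe_sub, sub_sub_cancel]
    refine lt_of_le_of_lt ?_ he
    exact QuotientAddGroup.norm_mk_le_norm (S := AddSubgroup.zmultiples (2 * π)) (m := e)
  have h2 := h h1
  rwa [volA_lobA_coe, volA_lobA_coe, Real.dist_eq] at h2

theorem SWpath_near_zero (z : ℂ) (h1 : z ≠ 1) :
    blochWigner z = (lob (Complex.arg z) - lob (Complex.arg z - Complex.arg (1 - z))) -
      lob (Complex.arg (1 - z)) := by
  rcases eq_or_ne z 0 with h0 | h0
  · have h2 := blochWigner_real 0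
    push_cast at h2
    rw [h0, h2]
    simp [volA_lob_zero]
  have h1' : 1 - z ≠ 0 := sub_ne_zero.2 (Ne.symm h1)
  unfold blochWigner
  rw [SWpath_lob_arg_inv]
  have h3 : lob (Complex.arg (1 - z⁻¹)) = -lob (Complex.arg z - Complex.arg (1 - z)) := by
    have e : 1 - z⁻¹ = (-(1 - z)) * z⁻¹ := by field_simp; ring
    rw [← volA_lob_neg, ← volA_lob_add_pi (-(Complex.arg z - Complex.arg (1 - z)))]
    apply SWpath_lob_angle
    rw [e, Complex.arg_mul_coe_angle (neg_ne_zero.2 h1') (inv_ne_zero h0),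
      Complex.arg_neg_coe_angle h1', Complex.arg_inv_coe_angle]
    rw [Real.Angle.coe_add, Real.Angle.coe_neg, Real.Angle.coe_sub]
    abel
  rw [h3]
  ring

theorem SWpath_continuousAt_zero : ContinuousAt blochWigner 0 := by
  have harg : Tendsto (fun z : ℂ => Complex.arg (1 - z)) (𝓝 0) (𝓝 0) := by
    have h1 : ContinuousAt Complex.arg (1 - 0) := by
      apply Complex.continuousAt_arg
      simp
    have h2 : ContinuousAt (fun z : ℂ => Complex.arg (1 - z)) 0 :=
      ContinuousAt.comp (g := Complex.arg) (f := fun z : ℂ => 1 - z) h1 (by fun_prop)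
    have h3 := h2.tendsto
    simpa using h3
  have ht : Tendsto (fun z : ℂ => (lob (Complex.arg z) - lob (Complex.arg z - Complex.arg (1 - z))) -
      lob (Complex.arg (1 - z))) (𝓝 0) (𝓝 0) := by
    have hA : Tendsto (fun z : ℂ => lob (Complex.arg z) -
        lob (Complex.arg z - Complex.arg (1 - z))) (𝓝 0) (𝓝 0) := by
      rw [Metric.tendsto_nhds]
      intro ε hε
      obtain ⟨δ, hδ, h⟩ := SWpath_lob_uniform ε hε
      have h1 : ∀ᶠ z : ℂ in 𝓝 0, |Complex.arg (1 - z)| < δ := by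
        have := Metric.tendsto_nhds.1 harg δ hδ
        filter_upwards [this] with z hz
        rwa [Real.dist_eq, sub_zero] at hz
      filter_upwards [h1] with z hz
      rw [Real.dist_eq, sub_zero]
      exact h _ _ hz
    have hB : Tendsto (fun z : ℂ => lob (Complex.arg (1 - z))) (𝓝 0) (𝓝 0) := by
      have := (volA_lob_continuous.tendsto 0).comp harg
      rwa [volA_lob_zero] at this
    simpa using hA.sub hB
  have h0 : blochWigner 0 = 0 := by
    have := blochWigner_real 0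
    rwa [Complex.ofReal_zero] at this
  unfold ContinuousAt
  rw [h0]
  refine ht.congr' ?_
  have h1 : ∀ᶠ z : ℂ in 𝓝 0, z ≠ 1 := isOpen_ne.mem_nhds (by norm_num)
  filter_upwards [h1] with z hz
  exact (SWpath_near_zero z hz).symm

theorem SWpath_continuous : Continuous blochWigner := by
  rw [continuous_iff_continuousAt]
  intro z
  rcases eq_or_ne z 0 with h0 | h0
  · rw [h0]; exact SWpath_continuousAt_zero
  rcases eq_or_ne z 1 with h1 | h1
  · have h2 : ContinuousAt (fun z => -blochWigner (1 - z)) z := by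
      have h3 : ContinuousAt blochWigner (1 - z) := by
        rw [h1, sub_self]; exact SWpath_continuousAt_zero
      exact (ContinuousAt.comp (g := blochWigner) (f := fun z : ℂ => 1 - z) h3
        (by fun_prop)).neg
    refine h2.congr (Filter.Eventually.of_forall fun w => ?_)
    change -blochWigner (1 - w) = _
    rw [SWpath_one_sub, neg_neg]
  · exact blochWigner_continuousAt z h0 h1

end continuity

theorem SWpath_Xs_continuous (k : ℕ) : Continuous (fun y : ℂ => Xs y k) := by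
  induction k using Nat.twoStepInduction with
  | zero => exact continuous_const
  | one => exact continuous_const
  | more k ih1 ih2 => exact (continuous_id.mul ih2).sub ih1

theorem SWpath_Xs_real (k : ℕ) (x : ℝ) : ∃ r : ℝ, Xs (x : ℂ) k = (r : ℂ) := by
  induction k using Nat.twoStepInduction with
  | zero => exact ⟨0, by simp [Xs]⟩
  | one => exact ⟨1, by simp [Xs]⟩
  | more k ih1 ih2 =>
    obtain ⟨a, ha⟩ := ih1
    obtain ⟨b, hb⟩ := ih2
    exact ⟨x * b - a, by rw [Xs_rec, ha, hb]; push_cast; ring⟩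

theorem SWpath_Xs_hasDerivAt (yd : ℝ → ℂ) (y' : ℂ) (t : ℝ) (hy : HasDerivAt yd y' t) (k : ℕ) :
    ∃ x' : ℂ, HasDerivAt (fun s => Xs (yd s) k) x' t := by
  induction k using Nat.twoStepInduction with
  | zero => exact ⟨0, hasDerivAt_const t (0 : ℂ)⟩
  | one => exact ⟨0, hasDerivAt_const t (1 : ℂ)⟩
  | more k ih1 ih2 =>
    obtain ⟨a, ha⟩ := ih1
    obtain ⟨b, hb⟩ := ih2
    exact ⟨_, (hy.fun_mul hb).fun_sub ha⟩

/-- Derivative of one summand. -/
theorem SWpath_summand (f g h : ℝ → ℂ) (f' g' h' : ℂ) (t : ℝ) (hf : HasDerivAt f f' t)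
    (hg : HasDerivAt g g' t) (hh : HasDerivAt h h' t) (hinv : ∀ s, g s ^ 2 = 1 + h s * f s)
    (f0 : f t ≠ 0) (g0 : g t ≠ 0) (h0 : h t ≠ 0) (him : ((g t ^ 2)⁻¹).im ≠ 0) :
    HasDerivAt (fun s => blochWigner ((g s ^ 2)⁻¹))
      (-2 * Real.log ‖g t‖ * ((h' / h t).im + (f' / f t).im - 2 * (g' / g t).im) +
        2 * (g' / g t).im * (Real.log ‖h t‖ + Real.log ‖f t‖ - 2 * Real.log ‖g t‖)) t := by
  have hd' : 2 * g t * g' = h' * f t + h t * f' := by
    have h1 := (hg.fun_pow 2)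
    have h2 := ((hh.fun_mul hf).const_add 1).congr_of_eventuallyEq
      (Filter.Eventually.of_forall fun s => hinv s)
    have h3 := h1.unique h2
    rw [← h3]
    push_cast
    ring
  have hg2 : g t ^ 2 ≠ 0 := pow_ne_zero 2 g0
  have du := (hg.fun_pow 2).fun_inv hg2
  have hD := blochWigner_hasDerivAt _ _ t du him
  refine HasDerivAt.congr_deriv hD ?_
  have hi := hinv t
  generalize g t = G at *
  generalize h t = H at *
  generalize f t = F at *
  have e1 : Real.log ‖(G ^ 2)⁻¹‖ = -2 * Real.log ‖G‖ := by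
    rw [norm_inv, norm_pow, Real.log_inv, Real.log_pow]
    push_cast
    ring
  have e2 : 1 - (G ^ 2)⁻¹ = H * F / G ^ 2 := by
    have : H * F = G ^ 2 - 1 := by rw [hi]; ring
    rw [this]
    field_simp
  have e3 : Real.log ‖H * F / G ^ 2‖ = Real.log ‖H‖ + Real.log ‖F‖ - 2 * Real.log ‖G‖ := by
    rw [norm_div, norm_mul, norm_pow, Real.log_div (mul_ne_zero (norm_ne_zero_iff.2 h0)
      (norm_ne_zero_iff.2 f0)) (pow_ne_zero 2 (norm_ne_zero_iff.2 g0)), Real.log_pow,
      Real.log_mul (norm_ne_zero_iff.2 h0) (norm_ne_zero_iff.2 f0)]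
    norm_num
  have e4 : -((2 : ℕ) * G ^ (2 - 1) * g') / (G ^ 2) ^ 2 / (G ^ 2)⁻¹ = -(2 * (g' / G)) := by
    push_cast
    field_simp
  have e5 : -(-((2 : ℕ) * G ^ (2 - 1) * g') / (G ^ 2) ^ 2) / (H * F / G ^ 2) =
      h' / H + f' / F - 2 * (g' / G) := by
    have e6 : h' / H + f' / F = 2 * G * g' / (H * F) := by
      rw [hd']
      field_simp
    rw [e6]
    push_cast
    have e8 : G ^ 2 - 1 = H * F := by rw [hi]; ring
    field_simp
    linear_combination (-g') * e8
  rw [e2, e1, e3, e4, e5]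
  have e6 : ∀ x : ℂ, (2 * x).im = 2 * x.im := fun x => by simp
  rw [Complex.neg_im, Complex.sub_im, Complex.add_im, e6]
  ring

theorem SWpath_telescope (W : ℕ → ℝ) (n : ℕ) (hn : 1 ≤ n) :
    ∑ k ∈ Finset.Icc 2 n, (-2 * (W k - W (k - 1))) = -2 * (W n - W 1) := by
  induction n, hn using Nat.le_induction with
  | base => simp
  | succ n hn ih =>
    rw [Finset.sum_Icc_succ_top (by omega), ih, Nat.add_sub_cancel]
    ring

theorem SWpath_circle_deriv (t : ℝ) (ht : t ∈ Ioo 0 π) :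
    HasDerivAt (fun t : ℝ => blochWigner (Complex.exp (t * Complex.I)))
      (-Real.log (2 * Real.sin (t / 2))) t := by
  have hsin : 0 < Real.sin (t / 2) :=
    Real.sin_pos_of_pos_of_lt_pi (by have := ht.1; linarith)
      (by have := ht.2; have := Real.pi_pos; linarith)
  have hnorm : ‖1 - Complex.exp (t * Complex.I)‖ = 2 * Real.sin (t / 2) := by
    rw [← norm_neg, neg_sub, mul_comm, Complex.norm_exp_I_mul_ofReal_sub_one, Real.norm_eq_abs,
      abs_of_pos (by positivity)]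
  have hexp : HasDerivAt (fun s : ℝ => Complex.exp (s * Complex.I))
      (Complex.exp (t * Complex.I) * Complex.I) t := by
    have h1 : HasDerivAt (fun s : ℝ => (s : ℂ) * Complex.I) (1 * Complex.I) t :=
      (HasDerivAt.ofReal_comp (hasDerivAt_id t)).mul_const Complex.I
    rw [one_mul] at h1
    exact h1.cexp
  have him : (Complex.exp (t * Complex.I)).im ≠ 0 := by
    rw [Complex.exp_ofReal_mul_I_im]
    exact (Real.sin_pos_of_pos_of_lt_pi ht.1 ht.2).ne'
  have h := blochWigner_hasDerivAt _ _ t hexp him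
  refine HasDerivAt.congr_deriv h ?_
  rw [Complex.norm_exp_ofReal_mul_I, Real.log_one, zero_mul, hnorm,
    mul_div_cancel_left₀ _ (Complex.exp_ne_zero _), Complex.I_im]
  ring

/-- Derivative of the whole expression. -/
theorem SWpath_deriv (p : ℕ) (hp : 2 ≤ p) (zd yd : ℝ → ℂ) (t : ℝ) (ht : t ∈ Ioo 0 π) (y' : ℂ)
    (hyd : HasDerivAt yd y' t) (hy : ∀ᶠ s in nhds t, yd s ^ 2 = 2 - zd s)
    (hroot : ∀ᶠ s in nhds t,
      chV p (zd s) = Complex.exp (s * Complex.I) * chV (p - 1) (zd s))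
    (hpos : ∀ k, 2 ≤ k → k ≤ 2 * p → 0 < ((Xs (yd t) k ^ 2)⁻¹).im)
    (hV : chV (p - 1) (zd t) ≠ 0) (hz : zd t - 2 * (Real.cos t : ℂ) ≠ 0) :
    HasDerivAt (fun s => 4 * ∑ k ∈ Finset.Icc 2 (2 * p - 1), blochWigner ((Xs (yd s) k ^ 2)⁻¹)
        + 2 * blochWigner ((Xs (yd s) (2 * p) ^ 2)⁻¹)
        - 4 * blochWigner (Complex.exp (s * Complex.I)))
      (2 * Real.log ‖zd t - 2 * (Real.cos t : ℂ)‖) t := by
  choose x' hx' using SWpath_Xs_hasDerivAt yd y' t hyd
  have x1 : x' 1 = 0 := (hx' 1).unique (hasDerivAt_const t (1 : ℂ))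
  have hne : ∀ k, 1 ≤ k → k ≤ 2 * p → Xs (yd t) k ≠ 0 := by
    intro k h1 h2 h0
    rcases Nat.lt_or_ge 1 k with h | h
    · have := hpos k h h2
      rw [h0] at this
      simp at this
    · have : k = 1 := by omega
      rw [this, Xs_one] at h0
      exact one_ne_zero h0
  -- the relation for `X_{2p+1}`
  have hlast : ∀ᶠ s in nhds t, Xs (yd s) (2 * p + 1) =
      -Complex.exp (s * Complex.I) * Xs (yd s) (2 * p - 1) := by
    filter_upwards [hy, hroot] with s h1 h2
    have e0 : 2 - yd s ^ 2 = zd s := by rw [h1]; ring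
    have e1 : 2 * p - 1 = 2 * (p - 1) + 1 := by omega
    rw [e1, Xs_odd, Xs_odd, e0, h2]
    have e2 : (-1 : ℂ) ^ p = -(-1) ^ (p - 1) := by
      obtain ⟨m, rfl⟩ : ∃ m, p = m + 1 := ⟨p - 1, by omega⟩
      rw [Nat.add_sub_cancel, pow_succ]
      ring
    rw [e2]
    ring
  have hexp : HasDerivAt (fun s : ℝ => -Complex.exp (s * Complex.I))
      (-(Complex.exp (t * Complex.I) * Complex.I)) t := by
    have h1 : HasDerivAt (fun s : ℝ => (s : ℂ) * Complex.I) (1 * Complex.I) t :=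
      (HasDerivAt.ofReal_comp (hasDerivAt_id t)).mul_const Complex.I
    rw [one_mul] at h1
    exact h1.cexp.fun_neg
  have hlast0 := hlast.self_of_nhds
  have hw : Complex.exp (t * Complex.I) ≠ 0 := Complex.exp_ne_zero _
  have hm1 : Xs (yd t) (2 * p - 1) ≠ 0 := hne _ (by omega) (by omega)
  have hp1 : Xs (yd t) (2 * p + 1) ≠ 0 := by
    rw [hlast0]
    exact mul_ne_zero (neg_ne_zero.2 hw) hm1
  have hL : Real.log ‖Xs (yd t) (2 * p + 1)‖ = Real.log ‖Xs (yd t) (2 * p - 1)‖ := by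
    rw [hlast0, norm_mul, norm_neg, Complex.norm_exp_ofReal_mul_I, one_mul]
  have hΘ : (x' (2 * p + 1) / Xs (yd t) (2 * p + 1)).im =
      (x' (2 * p - 1) / Xs (yd t) (2 * p - 1)).im + 1 := by
    have d1 := (hexp.fun_mul (hx' (2 * p - 1))).congr_of_eventuallyEq hlast
    have d2 := (hx' (2 * p + 1)).unique d1
    have h3 : x' (2 * p + 1) / Xs (yd t) (2 * p + 1) =
        x' (2 * p - 1) / Xs (yd t) (2 * p - 1) + Complex.I := by
      rw [d2, hlast0]
      field_simp
      ring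
    rw [h3, Complex.add_im, Complex.I_im]
  set L : ℕ → ℝ := fun k => Real.log ‖Xs (yd t) k‖ with hLdef
  set Θ : ℕ → ℝ := fun k => (x' k / Xs (yd t) k).im with hΘdef
  have hL1 : L 1 = 0 := by simp [hLdef, Xs_one]
  have hΘ1 : Θ 1 = 0 := by simp [hΘdef, x1]
  have hsummand : ∀ k, 2 ≤ k → k ≤ 2 * p → HasDerivAt (fun s => blochWigner ((Xs (yd s) k ^ 2)⁻¹))
      (-2 * L k * (Θ (k + 1) + Θ (k - 1) - 2 * Θ k) +
        2 * Θ k * (L (k + 1) + L (k - 1) - 2 * L k)) t := by
    intro k h2 h3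
    obtain ⟨j, rfl⟩ : ∃ j, k = j + 1 := ⟨k - 1, by omega⟩
    have h4 : Xs (yd t) (j + 1 + 1) ≠ 0 := by
      rcases Nat.lt_or_ge (j + 1) (2 * p) with h | h
      · exact hne _ (by omega) (by omega)
      · have : j + 1 = 2 * p := by omega
        rw [this]; exact hp1
    rw [Nat.add_sub_cancel]
    exact SWpath_summand (fun s => Xs (yd s) j) (fun s => Xs (yd s) (j + 1))
      (fun s => Xs (yd s) (j + 1 + 1)) (x' j) (x' (j + 1)) (x' (j + 1 + 1)) t (hx' _) (hx' _)
      (hx' _) (fun s => Xs_inv (yd s) j) (hne j (by omega) (by omega))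
      (hne (j + 1) (by omega) (by omega)) h4 (hpos (j + 1) h2 h3).ne'
  have hsum := HasDerivAt.fun_sum (u := Finset.Icc 2 (2 * p - 1)) fun k hk =>
    hsummand k (Finset.mem_Icc.1 hk).1 (by have := (Finset.mem_Icc.1 hk).2; omega)
  have hU := hsummand (2 * p) (by omega) le_rfl
  have hC := SWpath_circle_deriv t ht
  have htot := ((hsum.const_mul 4).fun_add (hU.const_mul 2)).fun_sub (hC.const_mul 4)
  refine HasDerivAt.congr_deriv htot ?_
  have hW : ∑ k ∈ Finset.Icc 2 (2 * p - 1), (-2 * L k * (Θ (k + 1) + Θ (k - 1) - 2 * Θ k) +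
        2 * Θ k * (L (k + 1) + L (k - 1) - 2 * L k)) =
      -2 * ((L (2 * p - 1) * Θ (2 * p) - L (2 * p) * Θ (2 * p - 1)) - (L 1 * Θ 2 - L 2 * Θ 1)) := by
    have h := SWpath_telescope (fun k => L k * Θ (k + 1) - L (k + 1) * Θ k) (2 * p - 1) (by omega)
    have e : 2 * p - 1 + 1 = 2 * p := by omega
    simp only [e] at h
    rw [← h]
    refine Finset.sum_congr rfl fun k hk => ?_
    have h2 := (Finset.mem_Icc.1 hk).1
    have e2 : k - 1 + 1 = k := by omega
    rw [e2]
    ring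
  rw [hW, hL1, hΘ1]
  have hL' : L (2 * p + 1) = L (2 * p - 1) := hL
  have hΘ' : Θ (2 * p + 1) = Θ (2 * p - 1) + 1 := hΘ
  rw [hL', hΘ']
  -- the norm of `X_{2p}`
  have hr := Xs_root p (by omega) (yd t) (zd t) hy.self_of_nhds t hroot.self_of_nhds
  have hsin : 0 < Real.sin (t / 2) :=
    Real.sin_pos_of_pos_of_lt_pi (by have := ht.1; linarith)
      (by have := ht.2; have := Real.pi_pos; linarith)
  have hnorm : ‖Xs (yd t) (2 * p)‖ ^ 2 * ‖zd t - 2 * (Real.cos t : ℂ)‖ =
      (2 * Real.sin (t / 2)) ^ 2 := by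
    rw [← norm_pow, ← norm_mul, hr]
    have e : (2 : ℂ) - 2 * (Real.cos t : ℂ) = (((2 * Real.sin (t / 2)) ^ 2 : ℝ) : ℂ) := by
      have h1 : Real.cos t = 1 - 2 * Real.sin (t / 2) ^ 2 := by
        have := Real.cos_sq' (t / 2)
        have h2 := Real.cos_two_mul (t / 2)
        have h3 : 2 * (t / 2) = t := by ring
        rw [h3] at h2
        rw [h2, this]
        ring
      rw [h1]
      push_cast
      ring
    rw [e, Complex.norm_real, Real.norm_eq_abs, abs_of_nonneg (by positivity)]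
  have hlog : 2 * L (2 * p) + Real.log ‖zd t - 2 * (Real.cos t : ℂ)‖ =
      2 * Real.log (2 * Real.sin (t / 2)) := by
    have h1 := congrArg Real.log hnorm
    rw [Real.log_mul (pow_ne_zero 2 (norm_ne_zero_iff.2 (hne _ (by omega) le_rfl)))
      (norm_ne_zero_iff.2 hz), Real.log_pow, Real.log_pow] at h1
    simp only [Nat.cast_ofNat] at h1
    exact h1
  linear_combination (-2) * hlog

theorem SWpath_sqrt_hasDerivAt (yd : ℝ → ℂ) (zd : ℝ → ℂ) (z' : ℂ) (t : ℝ)
    (hyc : ContinuousAt yd t) (hz : HasDerivAt zd z' t)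
    (hy : ∀ᶠ s in nhds t, yd s ^ 2 = 2 - zd s) (h0 : yd t ≠ 0) :
    ∃ y' : ℂ, HasDerivAt yd y' t := by
  have hm : HasStrictDerivAt (fun y : ℂ => y ^ 2) (2 * yd t) (yd t) := by
    have := hasStrictDerivAt_pow 2 (yd t)
    simpa using this
  have hm' : 2 * yd t ≠ 0 := mul_ne_zero two_ne_zero h0
  have hleft := hyc.eventually (hm.eventually_left_inverse hm')
  have hg := (hm.to_localInverse hm').hasDerivAt
  have dz : HasDerivAt (fun s => yd s ^ 2) (-z') t := by
    have h1 : HasDerivAt (fun s => 2 - zd s) (-z') t := by simpa using hz.const_sub 2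
    exact h1.congr_of_eventuallyEq hy
  have hcomp := HasDerivAt.comp_of_eq (𝕜 := ℝ) t hg dz rfl
  refine ⟨_, hcomp.congr_of_eventuallyEq ?_⟩
  filter_upwards [hleft] with s h1
  exact h1.symm

theorem sw_path (p : ℕ) (hp : 2 ≤ p) (ts : ℝ) (hts : ts ∈ Ioo 0 π) (zd yd : ℝ → ℂ)
    (hc : ContinuousOn zd (Icc 0 ts)) (hyc : ContinuousOn yd (Icc 0 ts))
    (hy : ∀ t ∈ Icc 0 ts, yd t ^ 2 = 2 - zd t)
    (hroot : ∀ t ∈ Icc 0 ts, chV p (zd t) = Complex.exp (t * Complex.I) * chV (p - 1) (zd t))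
    (hne : ∀ t ∈ Icc 0 ts, ∀ i ≤ p, chV i (zd t) ≠ 0)
    (hs : ∀ t ∈ Icc 0 ts, ∑ m ∈ Finset.range p, chV m (zd t) ^ 2 ≠ 0)
    (h0 : zd 0 = ((-2 * Real.cos (π / p) : ℝ) : ℂ))
    (him : ∀ t ∈ Ioc 0 ts, 0 < (zd t).im)
    (hpos : ∀ t ∈ Ioc 0 ts, ∀ k, 2 ≤ k → k ≤ 2 * p → 0 < ((Xs (yd t) k ^ 2)⁻¹).im) :
    4 * ∑ k ∈ Finset.Icc 2 (2 * p - 1), blochWigner ((Xs (yd ts) k ^ 2)⁻¹)
        + 2 * blochWigner ((Xs (yd ts) (2 * p) ^ 2)⁻¹)
      = 2 * (∫ t in (0 : ℝ)..ts, Real.log ‖zd t - 2 * (Real.cos t : ℂ)‖)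
        + 4 * ∫ t in ts..π, Real.log (2 * Real.sin (t / 2)) := by
  have hts0 : 0 ≤ ts := hts.1.le
  have hcos : 0 ≤ Real.cos (π / p) := by
    apply Real.cos_nonneg_of_mem_Icc
    have hp' : (2 : ℝ) ≤ p := by exact_mod_cast hp
    have hpi := Real.pi_pos
    constructor
    · have : 0 ≤ π / p := by positivity
      linarith
    · apply div_le_div_of_nonneg_left hpi.le (by norm_num) hp'
  set F : ℝ → ℝ := fun s => 4 * ∑ k ∈ Finset.Icc 2 (2 * p - 1),
      blochWigner ((Xs (yd s) k ^ 2)⁻¹) + 2 * blochWigner ((Xs (yd s) (2 * p) ^ 2)⁻¹)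
        - 4 * blochWigner (Complex.exp (s * Complex.I)) with hF
  have hXc : ∀ k, ContinuousOn (fun s => blochWigner ((Xs (yd s) k ^ 2)⁻¹)) (Icc 0 ts) := by
    intro k
    have h1 : ContinuousOn (fun s => -blochWigner (Xs (yd s) k ^ 2)) (Icc 0 ts) := by
      refine ContinuousOn.neg ?_
      refine SWpath_continuous.comp_continuousOn ?_
      exact ((SWpath_Xs_continuous k).comp_continuousOn hyc).pow 2
    refine h1.congr fun s _ => ?_
    exact SWpath_inv _
  have hFc : ContinuousOn F (Icc 0 ts) := by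
    refine ((continuousOn_const.mul (continuousOn_finsetSum _ fun k _ => hXc k)).add
      (continuousOn_const.mul (hXc _))).sub (continuousOn_const.mul ?_)
    refine SWpath_continuous.comp_continuousOn ?_
    fun_prop
  have hznz : ∀ t ∈ Icc 0 ts, zd t - 2 * (Real.cos t : ℂ) ≠ 0 := by
    intro t ht h
    rcases eq_or_lt_of_le ht.1 with h1 | h1
    · rw [← h1, h0] at h
      have h2 := congrArg Complex.re h
      simp only [Complex.sub_re, Complex.ofReal_re, Complex.mul_re, Complex.re_ofNat,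
        Complex.im_ofNat, Complex.ofReal_im, Real.cos_zero, Complex.zero_re] at h2
      linarith
    · have h2 := congrArg Complex.im h
      have h3 := him t ⟨h1, ht.2⟩
      simp only [Complex.sub_im, Complex.mul_im, Complex.re_ofNat, Complex.im_ofNat,
        Complex.ofReal_im, Complex.zero_im] at h2
      linarith
  have hFd : ∀ t ∈ Ioo 0 ts, HasDerivAt F (2 * Real.log ‖zd t - 2 * (Real.cos t : ℂ)‖) t := by
    intro t ht
    have ht' : t ∈ Icc 0 ts := ⟨ht.1.le, ht.2.le⟩
    have hnhds : Icc 0 ts ∈ nhds t := Icc_mem_nhds ht.1 ht.2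
    have hct : ContinuousAt zd t := (hc t ht').continuousAt hnhds
    have hyct : ContinuousAt yd t := (hyc t ht').continuousAt hnhds
    have hroot' : ∀ᶠ s in nhds t, chV p (zd s) =
        Complex.exp (s * Complex.I) * chV (p - 1) (zd s) :=
      Filter.mem_of_superset hnhds fun s hs => hroot s hs
    have hy' : ∀ᶠ s in nhds t, yd s ^ 2 = 2 - zd s :=
      Filter.mem_of_superset hnhds fun s hs => hy s hs
    obtain ⟨z', hz'⟩ := root_differentiable p (by omega) t zd hct hroot'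
      (hne t ht' _ (by omega)) (hs t ht')
    have hy0 : yd t ≠ 0 := by
      intro h
      have h1 := hpos t ⟨ht.1, ht.2.le⟩ 2 le_rfl (by omega)
      rw [Xs_two, h] at h1
      simp at h1
    obtain ⟨y', hyd⟩ := SWpath_sqrt_hasDerivAt yd zd z' t hyct hz' hy' hy0
    exact SWpath_deriv p hp zd yd t ⟨ht.1, ht.2.trans hts.2⟩ y' hyd hy' hroot'
      (hpos t ⟨ht.1, ht.2.le⟩) (hne t ht' _ (by omega)) (hznz t ht')
  have hint : IntervalIntegrable (fun t => 2 * Real.log ‖zd t - 2 * (Real.cos t : ℂ)‖)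
      MeasureTheory.volume 0 ts := by
    refine ContinuousOn.intervalIntegrable_of_Icc hts0 ?_
    refine continuousOn_const.mul (ContinuousOn.log ?_ fun t ht => ?_)
    · refine ContinuousOn.norm (hc.sub ?_)
      fun_prop
    · exact norm_ne_zero_iff.2 (hznz t ht)
  have h1 := intervalIntegral.integral_eq_sub_of_hasDerivAt_of_le hts0 hFc hFd hint
  have hyr : yd 0 = ((yd 0).re : ℂ) := by
    have h2 := hy 0 ⟨le_rfl, hts0⟩
    rw [h0] at h2
    have hre := congrArg Complex.re h2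
    have him' := congrArg Complex.im h2
    rw [pow_two] at hre him'
    simp only [Complex.mul_re, Complex.mul_im, Complex.sub_re, Complex.sub_im,
      Complex.ofReal_re, Complex.ofReal_im, Complex.re_ofNat, Complex.im_ofNat] at hre him'
    have h3 : (yd 0).im = 0 := by
      by_contra h4
      have h5 : (yd 0).re = 0 := by
        have h6 : 2 * ((yd 0).re * (yd 0).im) = 0 := by linarith
        rcases mul_eq_zero.1 h6 with h7 | h7
        · norm_num at h7
        · rcases mul_eq_zero.1 h7 with h8 | h8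
          · exact h8
          · exact absurd h8 h4
      rw [h5] at hre
      have := mul_self_nonneg (yd 0).im
      linarith
    apply Complex.ext
    · simp
    · simp [h3]
  have hD0 : ∀ k, blochWigner ((Xs (yd 0) k ^ 2)⁻¹) = 0 := by
    intro k
    obtain ⟨r, hr⟩ := SWpath_Xs_real k (yd 0).re
    rw [hyr, hr]
    have h3 := blochWigner_real ((r ^ 2)⁻¹)
    push_cast at h3
    exact h3
  have hF0 : F 0 = 0 := by
    have h3 := blochWigner_real 1
    rw [Complex.ofReal_one] at h3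
    simp only [hF]
    rw [Finset.sum_eq_zero fun k _ => hD0 k, hD0]
    simp [h3]
  rw [hF0, sub_zero, intervalIntegral.integral_const_mul] at h1
  rw [← volD_circle ts hts, h1]
  simp only [hF]
  ring

end Pool.Agent.H63.VC
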