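import Pool.Agent.H63.VC.Limit
import Pool.Agent.H63.VC.SWmax
import Pool.Agent.H63.VC.SWpos
import Pool.Agent.H63.VC.SWpath

/-! # The limit is the hyperbolic volume -/

namespace Pool.Agent.H63.VC

open Filter Topology Real Set

theorem limit_vol (p : ℕ) (hp : 2 ≤ p) : ∃ V : ℝ, IsGreatest (structureVolumes [2 * p, 2 * p]) V ∧
    ∀ n b : ℕ, 2 ≤ n → 1 ≤ b → b ≤ n - 1 →
      (∀ᶠ N : ℕ in atTop, 0 < JJ p n b N) ∧
      Tendsto (fun N : ℕ => 2 * π * Real.log (JJ p n b N) / (N + 1)) atTop (𝓝 V) := by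
  have hpi := pi_pos
  obtain ⟨z, hz, huz, hlim⟩ := limit_main p hp
  obtain ⟨ts, zd, hts0, hts2, hzc, hroot, hne, hsum, hz0, him, hdom, hge, heq, hupp, hzz, hgeom, huniq⟩ :=
    roots_main p hp
  have hzts : z = zd ts := huniq z hz
  have htsπ : ts < π := by linarith
  have hpR : (2 : ℝ) ≤ p := by exact_mod_cast hp
  have hpp : π / p ≤ π / 2 := by gcongr
  have hpp0 : 0 < π / p := by positivity
  have hcos0 : 0 ≤ Real.cos (π / p) := Real.cos_nonneg_of_mem_Icc ⟨by linarith, hpp⟩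
  -- real part
  have hre : ∀ t ∈ Icc 0 ts, (zd t).re ≤ 0 := by
    intro t ht
    rcases ht.1.eq_or_lt with h | h
    · rw [← h, hz0, Complex.ofReal_re]
      linarith
    · obtain ⟨c, d, h1, h2, h3, h4⟩ := hzz t ⟨h, ht.2⟩
      rw [h1, rm_zz_re]
      have h5 : Real.cos d ≤ 0 := Real.cos_nonpos_of_pi_div_two_le_of_le (by linarith) (by linarith)
      have h6 := Real.cosh_pos c
      nlinarith
  have himz : ∀ t ∈ Ioc 0 ts, 0 < (zd t).im := by
    intro t ht
    exact (root_bounds p (by omega) t ⟨ht.1, by linarith [ht.2]⟩ _ (hroot t ⟨ht.1.le, ht.2⟩)).1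
  set yd : ℝ → ℂ := fun t => Complex.exp (Complex.log (2 - zd t) / 2) with hyd
  have hslit : ∀ t ∈ Icc 0 ts, 2 - zd t ∈ Complex.slitPlane := by
    intro t ht
    rw [Complex.mem_slitPlane_iff]
    left
    rw [Complex.sub_re]
    have := hre t ht
    simp only [Complex.re_ofNat]
    linarith
  have hyc : ContinuousOn yd (Icc 0 ts) := by
    have h1 : ContinuousOn (fun t => Complex.log (2 - zd t)) (Icc 0 ts) :=
      (continuousOn_const.sub hzc).clog hslit
    exact (h1.div_const 2).cexp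
  have hy : ∀ t ∈ Icc 0 ts, yd t ^ 2 = 2 - zd t := by
    intro t ht
    simp only [hyd]
    rw [← Complex.exp_nat_mul]
    push_cast
    rw [mul_div_cancel₀ _ (two_ne_zero), Complex.exp_log (Complex.slitPlane_ne_zero (hslit t ht))]
  have hpos : ∀ t ∈ Ioc 0 ts, ∀ k, 2 ≤ k → k ≤ 2 * p → 0 < ((Xs (yd t) k ^ 2)⁻¹).im := by
    intro t ht k hk hk2
    obtain ⟨c, d, h1, h2, h3, h4⟩ := hzz t ht
    have hr := hroot t ⟨ht.1.le, ht.2⟩
    have hy' := hy t ⟨ht.1.le, ht.2⟩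
    rw [h1] at hr hy'
    exact sw_pos p hp t c d ⟨ht.1, by linarith [ht.2]⟩ h2 h3 h4 hr (yd t) hy' k hk hk2
  have htsmem : ts ∈ Icc 0 ts := ⟨hts0.le, le_rfl⟩
  have htsmem' : ts ∈ Ioc 0 ts := ⟨hts0, le_rfl⟩
  have hcos1 : Real.cos ts < 1 := by
    have := Real.cos_lt_cos_of_nonneg_of_le_pi le_rfl htsπ.le hts0
    rwa [Real.cos_zero] at this
  have hnorm : ‖Xs (yd ts) (2 * p)‖ = 1 := by
    have h1 := Xs_root p (by omega) (yd ts) (zd ts) (hy ts htsmem) ts (hroot ts htsmem)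
    have h2 := congrArg (fun x : ℂ => ‖x‖) h1
    simp only [norm_mul, norm_pow] at h2
    have h3 : ‖2 - 2 * (Real.cos ts : ℂ)‖ = 2 - 2 * Real.cos ts := by
      have e : 2 - 2 * (Real.cos ts : ℂ) = ((2 - 2 * Real.cos ts : ℝ) : ℂ) := by push_cast; ring
      rw [e, Complex.norm_real, Real.norm_eq_abs, abs_of_pos (by linarith)]
    rw [h3, heq] at h2
    have h4 : ‖Xs (yd ts) (2 * p)‖ ^ 2 = 1 := by
      have h5 : 0 < 2 - 2 * Real.cos ts := by linarith
      exact mul_right_cancel₀ h5.ne' (by rw [h2, one_mul])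
    have h6 := norm_nonneg (Xs (yd ts) (2 * p))
    nlinarith
  have hnorm2 : ‖Xs (yd ts) (2 * p + 1)‖ = ‖Xs (yd ts) (2 * p - 1)‖ := by
    have e1 : 2 * p - 1 = 2 * (p - 1) + 1 := by omega
    have e2 : 2 - yd ts ^ 2 = zd ts := by rw [hy ts htsmem]; ring
    rw [e1, Xs_odd, Xs_odd, e2, norm_mul, norm_mul, norm_pow, norm_pow, norm_neg, norm_one, one_pow,
      one_pow, one_mul, one_mul, hroot ts htsmem, norm_mul, Complex.norm_exp_ofReal_mul_I, one_mul]
  have hmax := sw_max p hp (yd ts) (fun k hk hk2 => hpos ts htsmem' k hk hk2) hnorm hnorm2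
  have hz0ne : zd 0 ≠ 2 := by
    rw [hz0]
    intro h
    have h1 := congrArg Complex.re h
    rw [Complex.ofReal_re] at h1
    simp only [Complex.re_ofNat] at h1
    linarith
  have hvol := volume_identity p hp ts ⟨hts0, htsπ⟩ zd hzc hroot hne hsum
    (by rw [hz0, Complex.ofReal_im]) hz0ne him
  have hpath := sw_path p hp ts ⟨hts0, htsπ⟩ zd yd hzc hyc hy hroot hne hsum hz0 himz hpos
  rw [hpath, ← hvol, ← hzts] at hmax
  exact ⟨volOf p z, hmax, hlim⟩

end Pool.Agent.H63.VC
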