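import Pool.Agent.H63.VC.Asym
import Pool.Agent.H63.VC.EndB
import Pool.Agent.H63.VC.Riem
import Pool.Agent.H63.VC.SlowU
import Pool.Agent.H63.VC.Small

/-! # The upper bound -/

namespace Pool.Agent.H63.VC

open Filter Topology Real Set

theorem chV_start (a : ℝ) (m : ℕ) : chV m ((-2 * Real.cos a : ℝ) : ℂ) * (Real.sin (a / 2) : ℂ)
    = (((-1) ^ m * Real.sin ((m + 1 / 2) * a) : ℝ) : ℂ) := by
  induction m using Nat.strong_induction_on with
  | _ m ih =>
    match m, ih with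
    | 0, _ =>
      rw [chV_zero, one_mul]
      congr 1
      push_cast
      rw [pow_zero, one_mul]
      congr 1
      ring
    | 1, _ =>
      rw [chV_one, ← Complex.ofReal_one, ← Complex.ofReal_sub, ← Complex.ofReal_mul]
      congr 1
      have e1 : (((1 : ℕ) : ℝ) + 1 / 2) * a = a + a / 2 := by push_cast; ring
      have e2 : Real.sin (a / 2) = Real.sin (a - a / 2) := by congr 1; ring
      rw [e1, Real.sin_add]
      have h := Real.sin_sub a (a / 2)
      rw [← e2] at h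
      have : Real.sin a * Real.cos (a / 2) = Real.sin (a / 2) + Real.cos a * Real.sin (a / 2) := by
        linarith
      rw [this]
      ring
    | k + 2, ih =>
      have h1 := ih (k + 1) (by omega)
      have h2 := ih k (by omega)
      rw [chV_succ, sub_mul, h2, mul_assoc, h1, ← Complex.ofReal_mul, ← Complex.ofReal_sub]
      congr 1
      have e1 : ((((k + 2 : ℕ) : ℝ)) + 1 / 2) * a = (((k + 1 : ℕ) : ℝ) + 1 / 2) * a + a := by
        push_cast; ring
      have e2 : ((k : ℝ) + 1 / 2) * a = (((k + 1 : ℕ) : ℝ) + 1 / 2) * a - a := by push_cast; ring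
      rw [e1, e2, Real.sin_add, Real.sin_sub, pow_succ (-1 : ℝ) (k + 1), pow_succ (-1 : ℝ) k]
      ring

/-- Size and alignment of the starting vector. -/
theorem yy_start (p n : ℕ) (hp : 2 ≤ p) (hn : 1 ≤ n) : ∃ c C L : ℝ, 0 < c ∧ 0 < C ∧ ∃ M0 : ℕ,
    ∀ M ≥ M0, ‖yy p n M 0‖ ≤ C * M ∧ c ≤ ‖yy p n M 0‖ ∧
      ‖yy p n M 0‖ ≤ L * ‖ellf p ((-2 * Real.cos (π / p) : ℝ) : ℂ) (yy p n M 0)‖ := by
  obtain ⟨c, C, hc, M0, h⟩ := end_bounds p n hp hn
  set z0 : ℂ := ((-2 * Real.cos (π / p) : ℝ) : ℂ) with hz0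
  set sig0 : ℂ := ∑ i ∈ Finset.range p, chV i z0 ^ 2 with hsig0
  have hpR : (0 : ℝ) < p := by exact_mod_cast (by omega : 0 < p)
  refine ⟨c / p, max C 1, (max C 1 / c) * (‖sig0‖ * ‖(Real.sin (π / p / 2) : ℂ)‖), by positivity,
    by positivity, max M0 1, fun M hM => ?_⟩
  have hM1 : (1 : ℝ) ≤ M := by exact_mod_cast (le_trans (le_max_right _ _) hM)
  have hsq1 : 1 ≤ √(M : ℝ) := by rw [Real.one_le_sqrt]; exact hM1
  have hsqM : √(M : ℝ) ≤ M := by
    rw [Real.sqrt_le_left (by linarith)]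
    nlinarith
  obtain ⟨h1, h2⟩ := h M (le_trans (le_max_left _ _) hM)
  have hy : yy p n M 0 = uu p n M (M - 1) := yy_zero p n M
  have hle : ‖yy p n M 0‖ ≤ max C 1 * √M := by
    rw [hy, pi_norm_le_iff_of_nonneg (by positivity)]
    intro m
    rw [norm_uu]
    exact (h1 m.1 m.2).trans (mul_le_mul_of_nonneg_right (le_max_left _ _) (Real.sqrt_nonneg _))
  -- the sum
  have hsum : ‖∑ m ∈ Finset.range p, (((-1) ^ m * Real.sin ((m + 1 / 2) * (π / p)) : ℝ) : ℂ) *
        lad (rt M ^ n) (rt M) (p - 1 - m) m (M - 1)‖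
      = ‖∑ m : Fin p, (((-1) ^ m.1 * Real.sin ((m.1 + 1 / 2) * (π / p)) : ℝ) : ℂ) *
        yy p n M 0 m‖ := by
    rw [Finset.sum_range, ← RCLike.norm_conj, map_sum]
    congr 1
    apply Finset.sum_congr rfl
    intro m _
    rw [map_mul, Complex.conj_ofReal, hy, uu_conj]
  rw [hsum] at h2
  refine ⟨hle.trans (mul_le_mul_of_nonneg_left hsqM (by positivity)), ?_, ?_⟩
  · have h3 : ‖∑ m : Fin p, (((-1) ^ m.1 * Real.sin ((m.1 + 1 / 2) * (π / p)) : ℝ) : ℂ) *
        yy p n M 0 m‖ ≤ p * ‖yy p n M 0‖ := by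
      refine (norm_sum_le _ _).trans ?_
      have : ∀ m ∈ (Finset.univ : Finset (Fin p)),
          ‖(((-1) ^ m.1 * Real.sin ((m.1 + 1 / 2) * (π / p)) : ℝ) : ℂ) * yy p n M 0 m‖
            ≤ ‖yy p n M 0‖ := by
        intro m _
        rw [norm_mul, Complex.norm_real, norm_mul, norm_pow, norm_neg, norm_one, one_pow, one_mul]
        have h5 : ‖Real.sin ((m.1 + 1 / 2) * (π / p))‖ ≤ 1 := Real.abs_sin_le_one _
        calc _ ≤ 1 * ‖yy p n M 0‖ := mul_le_mul h5 (norm_le_pi_norm _ _) (norm_nonneg _) zero_le_one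
          _ = _ := one_mul _
      refine (Finset.sum_le_sum this).trans (le_of_eq ?_)
      rw [Finset.sum_const, Finset.card_univ, Fintype.card_fin, nsmul_eq_mul]
    rw [div_le_iff₀ hpR]
    have : c * 1 ≤ c * √(M : ℝ) := mul_le_mul_of_nonneg_left hsq1 hc.le
    linarith
  · -- alignment
    have h6 : ∑ m : Fin p, (((-1) ^ m.1 * Real.sin ((m.1 + 1 / 2) * (π / p)) : ℝ) : ℂ) *
        yy p n M 0 m = (Real.sin (π / p / 2) : ℂ) * ∑ m : Fin p, chV m.1 z0 * yy p n M 0 m := by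
      rw [Finset.mul_sum]
      apply Finset.sum_congr rfl
      intro m _
      rw [← chV_start (π / p) m.1]
      ring
    have h7 : ∑ m : Fin p, chV m.1 z0 * yy p n M 0 m = sig0 * ellf p z0 (yy p n M 0) := by
      rw [ellf_apply, ← hsig0]
      have hne : sig0 ≠ 0 := by
        rw [hsig0]
        intro h0
        have e : ∑ i ∈ Finset.range p, chV i z0 ^ 2
            = ((∑ i ∈ Finset.range p, (chV i z0).re ^ 2 : ℝ) : ℂ) := by
          push_cast
          apply Finset.sum_congr rfl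
          intro i _
          have hreal : ∀ i, ∃ x : ℝ, chV i z0 = (x : ℂ) := by
            intro i
            induction i using Nat.strong_induction_on with
            | _ i ih =>
              match i, ih with
              | 0, _ => exact ⟨1, by rw [chV_zero]; simp⟩
              | 1, _ => exact ⟨-2 * Real.cos (π / p) - 1, by rw [chV_one, hz0]; push_cast; ring⟩
              | k + 2, ih =>
                obtain ⟨x, hx⟩ := ih (k + 1) (by omega)
                obtain ⟨y, hy⟩ := ih k (by omega)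
                exact ⟨-2 * Real.cos (π / p) * x - y, by rw [chV_succ, hx, hy, hz0]; push_cast; ring⟩
          obtain ⟨x, hx⟩ := hreal i
          rw [hx, Complex.ofReal_re]
        rw [e] at h0
        have h1 : ∑ i ∈ Finset.range p, (chV i z0).re ^ 2 = 0 := by exact_mod_cast h0
        rw [Finset.sum_eq_zero_iff_of_nonneg (fun i _ => sq_nonneg _)] at h1
        have h2 := h1 0 (Finset.mem_range.2 (by omega))
        rw [chV_zero] at h2
        simp at h2
      field_simp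
    rw [h6, h7, norm_mul, norm_mul] at h2
    calc ‖yy p n M 0‖ ≤ max C 1 * √M := hle
      _ = (max C 1 / c) * (c * √M) := by field_simp
      _ ≤ (max C 1 / c) * (‖(Real.sin (π / p / 2) : ℂ)‖ * (‖sig0‖ * ‖ellf p z0 (yy p n M 0)‖)) :=
        mul_le_mul_of_nonneg_left h2 (by positivity)
      _ = _ := by ring

theorem upper_bound (p n b : ℕ) (hp : 2 ≤ p) (hn : 2 ≤ n) (hb : 1 ≤ b) (hbn : b ≤ n - 1)
    (r : ℝ → ℝ) (hrc : ContinuousOn r (Icc 0 π)) (hrpos : ∀ t ∈ Icc 0 π, 0 < r t)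
    (hrge : ∀ t ∈ Icc 0 π, 2 - 2 * Real.cos t ≤ r t)
    (hroot : ∀ t ∈ Icc 0 π, ∀ z : ℂ, chV p z = Complex.exp (t * Complex.I) * chV (p - 1) z →
      ‖z - 2 * (Real.cos t : ℂ)‖ ≤ r t) (ε : ℝ) (hε : 0 < ε) :
    ∃ C : ℝ, 0 < C ∧ ∃ D : ℕ, ∀ᶠ N : ℕ in atTop,
      JJ p n b N ≤ C * ((N + b : ℕ) : ℝ) ^ D * (1 + ε) ^ (N + b) * QQ r (N + b) ^ 2 := by
  have hpi := pi_pos
  obtain ⟨C1, η, hC1, hη, hslow⟩ := slow_upper π hpi.le (AA p) (AA_continuous p).continuousOn
    (fun t => (1 + ε) * r t) (continuousOn_const.mul hrc)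
    (fun t ht => mul_pos (by linarith) (hrpos t ht)) (by
      intro t ht z v hv hzv
      unfold AA at hzv
      obtain ⟨-, -, h3⟩ := tri_eigen p hp _ z v hv hzv
      rw [exp_inv_add] at h3
      have h4 := hroot t ht _ h3
      have e : 2 * (Real.cos t : ℂ) - z - 2 * (Real.cos t : ℂ) = -z := by ring
      rw [e, norm_neg] at h4
      have := hrpos t ht
      nlinarith)
  obtain ⟨M1, hM1⟩ := AA_close p n η hη
  obtain ⟨c2, C2, L, hc2, hC2, M2, hM2⟩ := yy_start p n hp (by omega)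
  obtain ⟨M3, hM3⟩ := exists_nat_gt (2 * π / η)
  set C3 : ℝ := 5 ^ n * C1 * C2 with hC3
  refine ⟨2 ^ (2 * n - 4) * (C3 ^ 2 + 4 ^ n), by positivity, 6 * n + 1, ?_⟩
  filter_upwards [eventually_ge_atTop (max (max M1 M2) (max M3 (4 * n + 4)))] with N hN
  have hN1 : M1 ≤ N := le_trans (le_trans (le_max_left _ _) (le_max_left _ _)) hN
  have hN2 : M2 ≤ N := le_trans (le_trans (le_max_right _ _) (le_max_left _ _)) hN
  have hN3 : M3 ≤ N := le_trans (le_trans (le_max_left _ _) (le_max_right _ _)) hN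
  have hN4 : 4 * n + 4 ≤ N := le_trans (le_trans (le_max_right _ _) (le_max_right _ _)) hN
  set M : ℕ := N + b with hMdef
  have hM0 : (0 : ℝ) < (M : ℝ) := by exact_mod_cast (by omega : 0 < M)
  have hMge1 : (1 : ℝ) ≤ (M : ℝ) := by exact_mod_cast (by omega : 1 ≤ M)
  have hQ : (M : ℝ) ≤ QQ r M := QQ_ge r M (by omega) hrge
  have hQ1 : 1 ≤ QQ r M := hMge1.trans hQ
  have hε1 : (1 : ℝ) ≤ 1 + ε := by linarith
  have hh : 2 * π / (M : ℝ) < η := by
    rw [div_lt_iff₀ hM0]
    rw [div_lt_iff₀ hη] at hM3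
    have : (M3 : ℝ) ≤ M := by exact_mod_cast (by omega : M3 ≤ M)
    nlinarith
  have hh0 : 0 < 2 * π / (M : ℝ) := by positivity
  -- bound of `yy` on the first half
  have hyK : ∀ K ≤ M / 2, ‖yy p n M K‖ ≤ C1 * C2 * M * (1 + ε) ^ K *
      ∏ i ∈ Finset.Icc 1 K, r (i * (2 * π / M)) := by
    intro K hK
    have h1 := hslow (2 * π / M) hh0 hh
      (fun j => tri p ((rt M)⁻¹ ^ (n - 1)) (rt M ^ j)) (fun j => yy p n M j) K
      (half_mem M K (by omega) hK).2 (fun j _ _ => hM1 M (by omega) j)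
      (fun j hj => yy_succ p n M j hp (by omega) (by omega))
    rw [Finset.prod_mul_distrib, Finset.prod_const, Nat.card_Icc] at h1
    have e : K + 1 - 1 = K := by omega
    rw [e] at h1
    have hprod : 0 ≤ ∏ i ∈ Finset.Icc 1 K, r (i * (2 * π / M)) := by
      apply Finset.prod_nonneg
      intro i hi
      rw [Finset.mem_Icc] at hi
      exact (hrpos _ (half_mem M i (by omega) (by omega))).le
    calc ‖yy p n M K‖ ≤ C1 * ((1 + ε) ^ K * ∏ i ∈ Finset.Icc 1 K, r (i * (2 * π / M))) *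
          ‖yy p n M 0‖ := h1
      _ ≤ C1 * ((1 + ε) ^ K * ∏ i ∈ Finset.Icc 1 K, r (i * (2 * π / M))) * (C2 * M) :=
        mul_le_mul_of_nonneg_left (hM2 M (by omega)).1 (by positivity)
      _ = _ := by ring
  -- each term
  have hterm : ∀ k ∈ Finset.range (N + 1), T M n b k * ‖twistCoeff (rt M ^ n) (rt M) p k‖ ^ 2
      ≤ 2 ^ (2 * n - 4) * (C3 ^ 2 + 4 ^ n) * (M : ℝ) ^ (6 * n) * (1 + ε) ^ M * QQ r M ^ 2 := by
    intro k hk
    rw [Finset.mem_range] at hk
    rcases le_or_gt (k + n) (M + 1) with hkn | hkn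
    swap
    · rw [T_eq_zero M n b k hn (by omega) hkn, zero_mul]
      positivity
    have hTle := T_le M n b k hb hbn hn hkn (by omega)
    have hsk : 0 < S M k := S_pos (by omega)
    set tw : ℝ := ‖twistCoeff (rt M ^ n) (rt M) p k‖ with htw
    have htw0 : 0 ≤ tw := norm_nonneg _
    -- it suffices to bound `S M k * tw`
    have hmain : (S M k * tw) ^ 2 ≤ (C3 ^ 2 + 4 ^ n) * (M : ℝ) ^ (4 * n + 4) * (1 + ε) ^ M * QQ r M ^ 2 := by
      rcases le_or_gt (2 * k + n) M with hsm | hsm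
      · have h1 := twist_small p n M k hn hsm
        rw [mul_comm] at h1
        have h2 := pow_le_pow_left₀ (mul_nonneg hsk.le htw0) h1 2
        refine h2.trans ?_
        have e1 : ((2 : ℝ) ^ n * (M : ℝ) ^ (n + 1)) ^ 2 = 4 ^ n * (M : ℝ) ^ (2 * n + 2) := by
          have h4n : (4 : ℝ) ^ n = (2 ^ n) ^ 2 := by
            rw [← pow_mul, mul_comm n 2, pow_mul]; norm_num
          rw [h4n]
          ring
        rw [e1]
        have h3 : (M : ℝ) ^ (2 * n + 2) ≤ (M : ℝ) ^ (4 * n + 4) := pow_le_pow_right₀ hMge1 (by omega)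
        have h4 : (1 : ℝ) ≤ (1 + ε) ^ M := one_le_pow₀ hε1
        have h5 : (1 : ℝ) ≤ QQ r M ^ 2 := one_le_pow₀ hQ1
        have h6 : (4 : ℝ) ^ n ≤ C3 ^ 2 + 4 ^ n := by nlinarith [sq_nonneg C3]
        calc (4 : ℝ) ^ n * (M : ℝ) ^ (2 * n + 2)
            ≤ (C3 ^ 2 + 4 ^ n) * (M : ℝ) ^ (4 * n + 4) := by gcongr
          _ = (C3 ^ 2 + 4 ^ n) * (M : ℝ) ^ (4 * n + 4) * 1 * 1 := by ring
          _ ≤ _ := by gcongr
      · -- the second case
        set j := M - 1 - k with hj
        have hkj : M - 1 - j = k := by omega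
        set K := min j (M / 2) with hK
        have hKj : K ≤ j := min_le_left _ _
        have hKM : K ≤ M / 2 := min_le_right _ _
        have hjK : j - K ≤ n := by omega
        have hsj : 0 < S M j := S_pos (by omega)
        have hsK : 0 < S M K := S_pos (by omega)
        have hmul : S M k * S M j = M := by
          have := S_mul (M := M) (k := k) (by omega)
          rwa [← hj] at this
        have hy0 := norm_yy_zero p n M j (by omega) (by omega)
        rw [hkj, ← htw] at hy0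
        have hyj : S M j * tw ≤ ‖yy p n M j‖ := by
          rw [← hy0]; exact norm_le_pi_norm _ _
        have hsteps := yy_steps p n M K (j - K) hp (by omega) (by omega)
        have e2 : K + (j - K) = j := by omega
        rw [e2] at hsteps
        have h5 : (5 : ℝ) ^ (j - K) ≤ 5 ^ n := pow_le_pow_right₀ (by norm_num) hjK
        have hsjK : S M K ≤ S M j * (M : ℝ) ^ n := by
          have h6 := S_shift_ge M K (j - K) (by omega)
          have e3 : j - K + K = j := by omega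
          rw [e3, one_div, inv_pow, ← div_eq_mul_inv, div_le_iff₀ (by positivity)] at h6
          refine h6.trans (mul_le_mul_of_nonneg_left (pow_le_pow_right₀ hMge1 hjK) hsj.le)
        set P : ℝ := ∏ i ∈ Finset.Icc 1 K, r (i * (2 * π / M)) with hP
        have hP0 : 0 ≤ P := by
          apply Finset.prod_nonneg
          intro i hi
          rw [Finset.mem_Icc] at hi
          exact (hrpos _ (half_mem M i (by omega) (by omega))).le
        have hcomp := compare_le r M K (by omega) hKM hrge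
        rw [← hP] at hcomp
        have hPQ : P ≤ QQ r M * S M K ^ 2 := by
          have h7 := (S_half M (by omega)).1
          calc P = P * 1 := (mul_one P).symm
            _ ≤ P * S M (M / 2) ^ 2 := mul_le_mul_of_nonneg_left (hMge1.trans h7) hP0
            _ ≤ _ := hcomp
        -- `S k * tw * S j ^ 2 = M * (S j * tw)`
        have hW : S M k * tw ≤ C3 * (M : ℝ) ^ (2 * n + 2) * (1 + ε) ^ K * QQ r M := by
          have h8 : S M k * tw * S M j ^ 2 = M * (S M j * tw) := by rw [← hmul]; ring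
          have hpos : 0 < S M j ^ 2 := by positivity
          rw [← mul_le_mul_iff_of_pos_right hpos, h8]
          calc (M : ℝ) * (S M j * tw) ≤ M * (5 ^ n * ‖yy p n M K‖) := by
                apply mul_le_mul_of_nonneg_left _ hM0.le
                exact hyj.trans (hsteps.trans (mul_le_mul_of_nonneg_right h5 (norm_nonneg _)))
            _ ≤ M * (5 ^ n * (C1 * C2 * M * (1 + ε) ^ K * P)) := by
                have := hyK K hKM
                gcongr
            _ ≤ M * (5 ^ n * (C1 * C2 * M * (1 + ε) ^ K * (QQ r M * S M K ^ 2))) := by gcongr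
            _ ≤ M * (5 ^ n * (C1 * C2 * M * (1 + ε) ^ K * (QQ r M * (S M j * (M : ℝ) ^ n) ^ 2))) := by
                gcongr
            _ = C3 * (M : ℝ) ^ (2 * n + 2) * (1 + ε) ^ K * QQ r M * S M j ^ 2 := by
                rw [hC3]; ring
        have hW2 := pow_le_pow_left₀ (mul_nonneg hsk.le htw0) hW 2
        refine hW2.trans ?_
        have h9 : (1 + ε) ^ (2 * K) ≤ (1 + ε) ^ M := pow_le_pow_right₀ hε1 (by omega)
        calc (C3 * (M : ℝ) ^ (2 * n + 2) * (1 + ε) ^ K * QQ r M) ^ 2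
            = C3 ^ 2 * (M : ℝ) ^ (4 * n + 4) * (1 + ε) ^ (2 * K) * QQ r M ^ 2 := by ring
          _ ≤ (C3 ^ 2 + 4 ^ n) * (M : ℝ) ^ (4 * n + 4) * (1 + ε) ^ M * QQ r M ^ 2 := by
              have : C3 ^ 2 ≤ C3 ^ 2 + (4 : ℝ) ^ n := by
                have : (0 : ℝ) ≤ 4 ^ n := by positivity
                linarith
              gcongr
    calc T M n b k * tw ^ 2 ≤ ((2 * (M : ℝ)) ^ (2 * n - 4) * S M k ^ 2) * tw ^ 2 := by gcongr
      _ = (2 * (M : ℝ)) ^ (2 * n - 4) * (S M k * tw) ^ 2 := by ring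
      _ ≤ (2 * (M : ℝ)) ^ (2 * n - 4) * ((C3 ^ 2 + 4 ^ n) * (M : ℝ) ^ (4 * n + 4) * (1 + ε) ^ M *
          QQ r M ^ 2) := by gcongr
      _ = 2 ^ (2 * n - 4) * (C3 ^ 2 + 4 ^ n) * (M : ℝ) ^ (6 * n) * (1 + ε) ^ M * QQ r M ^ 2 := by
          have e : 6 * n = (2 * n - 4) + (4 * n + 4) := by omega
          rw [e, pow_add (M : ℝ) (2 * n - 4) (4 * n + 4), mul_pow]
          ring
  have hsum := Finset.sum_le_sum hterm
  rw [Finset.sum_const, Finset.card_range, nsmul_eq_mul] at hsum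
  have hJ : JJ p n b N = ∑ k ∈ Finset.range (N + 1), T M n b k *
      ‖twistCoeff (rt M ^ n) (rt M) p k‖ ^ 2 := rfl
  rw [hJ]
  refine hsum.trans ?_
  have hNM : ((N + 1 : ℕ) : ℝ) ≤ M := by exact_mod_cast (by omega : N + 1 ≤ M)
  calc ((N + 1 : ℕ) : ℝ) * (2 ^ (2 * n - 4) * (C3 ^ 2 + 4 ^ n) * (M : ℝ) ^ (6 * n) * (1 + ε) ^ M *
        QQ r M ^ 2)
      ≤ (M : ℝ) * (2 ^ (2 * n - 4) * (C3 ^ 2 + 4 ^ n) * (M : ℝ) ^ (6 * n) * (1 + ε) ^ M *
        QQ r M ^ 2) := mul_le_mul_of_nonneg_right hNM (by positivity)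
    _ = _ := by ring

end Pool.Agent.H63.VC
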