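import Pool.Agent.H63.VC.SlowL
import Pool.Agent.H63.VC.Upper

/-! # The lower bound -/

namespace Pool.Agent.H63.VC

open Filter Topology Real Set

theorem lower_bound (p n b : ℕ) (hp : 2 ≤ p) (hn : 2 ≤ n) (hb : 1 ≤ b) (hbn : b ≤ n - 1)
    (r : ℝ → ℝ) (hrpos : ∀ t ∈ Icc 0 π, 0 < r t)
    (hrge : ∀ t ∈ Icc 0 π, 2 - 2 * Real.cos t ≤ r t) (ts : ℝ) (zd : ℝ → ℂ)
    (hts : 0 < ts) (hts2 : ts ≤ π / 2) (hzc : ContinuousOn zd (Icc 0 ts))
    (hroot : ∀ t ∈ Icc 0 ts, chV p (zd t) = Complex.exp (t * Complex.I) * chV (p - 1) (zd t))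
    (hsum : ∀ t ∈ Icc 0 ts, ∑ m ∈ Finset.range p, chV m (zd t) ^ 2 ≠ 0)
    (hz0 : zd 0 = ((-2 * Real.cos (π / p) : ℝ) : ℂ))
    (hdom : ∀ t ∈ Icc 0 ts, ∀ z : ℂ, chV p z = Complex.exp (t * Complex.I) * chV (p - 1) z →
      z ≠ zd t → ‖z - 2 * (Real.cos t : ℂ)‖ < ‖zd t - 2 * (Real.cos t : ℂ)‖)
    (hr1 : ∀ t ∈ Icc 0 ts, r t = ‖zd t - 2 * (Real.cos t : ℂ)‖)
    (hr2 : ∀ t ∈ Icc ts π, r t = 2 - 2 * Real.cos t) (ε : ℝ) (hε : 0 < ε) (hε1 : ε < 1) :
    ∃ c : ℝ, 0 < c ∧ ∃ D : ℕ, ∀ᶠ N : ℕ in atTop,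
      c * (1 - ε) ^ (N + b) * QQ r (N + b) ^ 2 ≤ JJ p n b N * ((N + b : ℕ) : ℝ) ^ D := by
  have hpi := pi_pos
  have hμnorm : ∀ t ∈ Icc 0 ts, ‖2 * (Real.cos t : ℂ) - zd t‖ = r t := by
    intro t ht
    rw [hr1 t ht, norm_sub_rev]
  obtain ⟨c2, C2, L, hc2, hC2, M2, hM2⟩ := yy_start p n hp (by omega)
  obtain ⟨c1, η, K0, hc1, hη, hslow⟩ := slow_lower ts hts.le (AA p) (AA_continuous p).continuousOn
    (fun t => 2 * (Real.cos t : ℂ) - zd t)
    ((continuous_const.mul (Complex.continuous_ofReal.comp Real.continuous_cos)).continuousOn.sub hzc)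
    (by
      intro t ht h0
      have h1 := hμnorm t ht
      rw [h0, norm_zero] at h1
      have := hrpos t ⟨ht.1, by linarith [ht.2]⟩
      linarith)
    (fun t => vv p (zd t)) ((vv_continuous p).comp_continuousOn hzc)
    (fun t => ellf p (zd t)) ((ellf_continuousOn p).comp hzc (fun t ht => hsum t ht))
    (by
      intro t ht
      unfold AA
      rw [tri_vv p (by omega) _ _ (hroot t ht), exp_inv_add])
    (by
      intro t ht x
      unfold AA
      rw [ellf_tri p (by omega) _ _ (hroot t ht), exp_inv_add])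
    (by
      intro t ht
      exact ellf_vv p _ (hsum t ht))
    (by
      intro t ht z x hx hAx hlx
      unfold AA at hAx
      obtain ⟨h1, h2, h3⟩ := tri_eigen p hp _ z x hx hAx
      rw [exp_inv_add] at h1 h3
      have hne : 2 * (Real.cos t : ℂ) - z ≠ zd t := by
        intro h
        rw [h] at h1
        rw [h1, map_smul, ellf_vv p _ (hsum t ht), smul_eq_mul, mul_one] at hlx
        exact h2 hlx
      have h4 := hdom t ht _ h3 hne
      have e : 2 * (Real.cos t : ℂ) - z - 2 * (Real.cos t : ℂ) = -z := by ring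
      rw [e, norm_neg] at h4
      rw [norm_sub_rev]
      exact h4)
    ε hε hε1 L
  obtain ⟨M1, hM1⟩ := AA_close p n η hη
  obtain ⟨M3, hM3⟩ := exists_nat_gt (2 * π / η)
  obtain ⟨M4, hM4⟩ := exists_nat_gt (((K0 : ℝ) + n + 1) * (2 * π) / ts)
  set c3 : ℝ := (1 - ε) * c1 * c2 / 2 with hc3
  have hε2 : 0 < 1 - ε := by linarith
  have hε3 : 1 - ε ≤ 1 := by linarith
  have hc30 : 0 < c3 := by positivity
  refine ⟨c3 ^ 2 / 2 ^ (2 * n - 4), by positivity, 2 * n - 4, ?_⟩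
  filter_upwards [eventually_ge_atTop (max (max M1 M2) (max (max M3 M4) (4 * n + 4)))] with N hN
  have hN1 : M1 ≤ N := le_trans (le_trans (le_max_left _ _) (le_max_left _ _)) hN
  have hN2 : M2 ≤ N := le_trans (le_trans (le_max_right _ _) (le_max_left _ _)) hN
  have hN3 : M3 ≤ N := le_trans (le_trans (le_trans (le_max_left _ _) (le_max_left _ _)) (le_max_right _ _)) hN
  have hN5 : M4 ≤ N := le_trans (le_trans (le_trans (le_max_right _ _) (le_max_left _ _)) (le_max_right _ _)) hN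
  have hN4 : 4 * n + 4 ≤ N := le_trans (le_trans (le_max_right _ _) (le_max_right _ _)) hN
  set M : ℕ := N + b with hMdef
  have hM0 : (0 : ℝ) < (M : ℝ) := by exact_mod_cast (by omega : 0 < M)
  have hMge1 : (1 : ℝ) ≤ (M : ℝ) := by exact_mod_cast (by omega : 1 ≤ M)
  have hQ : (M : ℝ) ≤ QQ r M := QQ_ge r M (by omega) hrge
  have hQ1 : 1 ≤ QQ r M := hMge1.trans hQ
  have hh : 2 * π / (M : ℝ) < η := by
    rw [div_lt_iff₀ hM0]
    rw [div_lt_iff₀ hη] at hM3
    have : (M3 : ℝ) ≤ M := by exact_mod_cast (by omega : M3 ≤ M)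
    have h2 := mul_le_mul_of_nonneg_right this hη.le
    linarith
  have hh0 : 0 < 2 * π / (M : ℝ) := by positivity
  -- the index
  set K : ℕ := ⌊ts * M / (2 * π)⌋₊ with hK
  have hKle : (K : ℝ) ≤ ts * M / (2 * π) := Nat.floor_le (by positivity)
  have hKlt : ts * M / (2 * π) < (K : ℝ) + 1 := Nat.lt_floor_add_one _
  have hKh : (K : ℝ) * (2 * π / M) ≤ ts := by
    rw [le_div_iff₀ (by positivity)] at hKle
    rw [← mul_div_assoc, div_le_iff₀ hM0]
    linarith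
  have hKh2 : ts ≤ ((K : ℝ) + 1) * (2 * π / M) := by
    rw [div_lt_iff₀ (by positivity)] at hKlt
    rw [← mul_div_assoc, le_div_iff₀ hM0]
    linarith
  have hKbig : K0 + n < K + 1 := by
    have h1 : (K0 : ℝ) + n + 1 < (K : ℝ) + 1 := by
      refine lt_trans ?_ hKlt
      rw [div_lt_iff₀ hts] at hM4
      rw [lt_div_iff₀ (by positivity)]
      have : (M4 : ℝ) ≤ M := by exact_mod_cast (by omega : M4 ≤ M)
      have h2 := mul_le_mul_of_nonneg_left this hts.le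
      linarith
    have h2 : K0 + n + 1 < K + 1 := by exact_mod_cast h1
    omega
  have hKM : 4 * K ≤ M := by
    have h1 : (4 : ℝ) * K ≤ M := by
      have h2 : ts * M / (2 * π) ≤ M / 4 := by
        rw [div_le_div_iff₀ (by positivity) (by norm_num)]
        have := mul_le_mul_of_nonneg_right hts2 hM0.le
        linarith
      linarith
    exact_mod_cast h1
  have hslow' := hslow (2 * π / M) hh0 hh
      (fun j => tri p ((rt M)⁻¹ ^ (n - 1)) (rt M ^ j)) (fun j => yy p n M j) K (by omega) hKh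
      (fun j _ _ => hM1 M (by omega) j)
      (fun j hj => yy_succ p n M j hp (by omega) (by omega)) (by
        rw [hz0]
        exact (hM2 M (by omega)).2.2)
  obtain ⟨h1, h2⟩ := hslow'
  rw [Finset.prod_mul_distrib, Finset.prod_const, Nat.card_Icc] at h1
  have e : K + 1 - 1 = K := by omega
  rw [e] at h1
  have hprod : ∏ i ∈ Finset.Icc 1 K, ‖2 * ((Real.cos (i * (2 * π / M)) : ℝ) : ℂ) - zd (i * (2 * π / M))‖
      = ∏ i ∈ Finset.Icc 1 K, r (i * (2 * π / M)) := by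
    apply Finset.prod_congr rfl
    intro i hi
    rw [Finset.mem_Icc] at hi
    apply hμnorm
    refine ⟨by positivity, le_trans ?_ hKh⟩
    have : (i : ℝ) ≤ K := by exact_mod_cast hi.2
    gcongr
  rw [hprod] at h1
  set P : ℝ := ∏ i ∈ Finset.Icc 1 K, r (i * (2 * π / M)) with hP
  have hP0 : 0 ≤ P := by
    apply Finset.prod_nonneg
    intro i hi
    rw [Finset.mem_Icc] at hi
    exact (hrpos _ (half_mem M i (by omega) (by omega))).le
  set ℓK : ℂ := ellf p (zd (K * (2 * π / M))) (yy p n M K) with hℓK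
  -- the first coordinate
  have hcoord : (1 - ε) * ‖ℓK‖ ≤ ‖yy p n M K ⟨0, by omega⟩‖ := by
    have h3 : ‖yy p n M K ⟨0, by omega⟩ - ℓK‖ ≤ ε * ‖ℓK‖ := by
      have h4 := norm_le_pi_norm (yy p n M K - ℓK • vv p (zd (K * (2 * π / M)))) ⟨0, by omega⟩
      have h5 : (yy p n M K - ℓK • vv p (zd (K * (2 * π / M)))) ⟨0, by omega⟩
          = yy p n M K ⟨0, by omega⟩ - ℓK := by
        rw [Pi.sub_apply, Pi.smul_apply, smul_eq_mul]
        unfold vv
        rw [chV_zero, mul_one]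
      rw [h5] at h4
      exact h4.trans h2
    have h6 : ‖ℓK‖ ≤ ‖yy p n M K ⟨0, by omega⟩‖ + ‖yy p n M K ⟨0, by omega⟩ - ℓK‖ := by
      have h7 := norm_sub_norm_le ℓK (yy p n M K ⟨0, by omega⟩)
      rw [norm_sub_rev ℓK] at h7
      linarith
    linarith
  -- the term
  set k := M - 1 - K with hk
  have hkn : k + n ≤ M + 1 := by omega
  have hTge := T_ge M n b k hb hbn hn hkn (by omega)
  have hsk : 0 < S M k := S_pos (by omega)
  have hsK : 0 < S M K := S_pos (by omega)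
  set tw : ℝ := ‖twistCoeff (rt M ^ n) (rt M) p k‖ with htw
  have htw0 : 0 ≤ tw := norm_nonneg _
  have hmul : S M k * S M K = M := by
    have := S_mul (M := M) (k := K) (by omega)
    rw [← hk] at this
    rw [mul_comm]; exact this
  have hy0 := norm_yy_zero p n M K (by omega) (by omega)
  rw [← hk, ← htw] at hy0
  have hcomp := compare_eq r ts M K (by omega) (by omega) hKh2 hr2
  rw [← hP] at hcomp
  have hPge : QQ r M * S M K ^ 2 ≤ P * (2 * M) := by
    rw [← hcomp]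
    exact mul_le_mul_of_nonneg_left (S_half M (by omega)).2 hP0
  have hW : c3 * (1 - ε) ^ K * QQ r M ≤ S M k * tw := by
    have h8 : S M k * tw * S M K ^ 2 = M * (S M K * tw) := by rw [← hmul]; ring
    have hpos : 0 < S M K ^ 2 := by positivity
    rw [← mul_le_mul_iff_of_pos_right hpos, h8, ← hy0]
    have h9 : c1 * ((1 - ε) ^ K * P) * c2 ≤ ‖ℓK‖ := by
      refine le_trans ?_ h1
      exact mul_le_mul_of_nonneg_left (hM2 M (by omega)).2.1 (by positivity)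
    calc c3 * (1 - ε) ^ K * QQ r M * S M K ^ 2 = c3 * (1 - ε) ^ K * (QQ r M * S M K ^ 2) := by ring
      _ ≤ c3 * (1 - ε) ^ K * (P * (2 * M)) := mul_le_mul_of_nonneg_left hPge (by positivity)
      _ = M * ((1 - ε) * (c1 * ((1 - ε) ^ K * P) * c2)) := by rw [hc3]; ring
      _ ≤ M * ((1 - ε) * ‖ℓK‖) := by gcongr
      _ ≤ M * ‖yy p n M K ⟨0, by omega⟩‖ := by gcongr
  have hW2 := pow_le_pow_left₀ (by positivity) hW 2
  have hεM : (1 - ε) ^ M ≤ (1 - ε) ^ (2 * K) := pow_le_pow_of_le_one hε2.le hε3 (by omega)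
  -- the term is at most the sum
  have hJ : T M n b k * tw ^ 2 ≤ JJ p n b N := by
    have hJ2 : JJ p n b N = ∑ k ∈ Finset.range (N + 1), T M n b k *
      ‖twistCoeff (rt M ^ n) (rt M) p k‖ ^ 2 := rfl
    rw [hJ2, htw]
    exact Finset.single_le_sum (f := fun k => T M n b k * ‖twistCoeff (rt M ^ n) (rt M) p k‖ ^ 2)
      (fun i _ => mul_nonneg (T_nonneg M n b i hb hbn hn (by omega)) (sq_nonneg _))
      (Finset.mem_range.2 (by omega))
  have h10 : c3 ^ 2 * (1 - ε) ^ M * QQ r M ^ 2 ≤ (2 * (M : ℝ)) ^ (2 * n - 4) * JJ p n b N := by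
    calc c3 ^ 2 * (1 - ε) ^ M * QQ r M ^ 2 ≤ c3 ^ 2 * (1 - ε) ^ (2 * K) * QQ r M ^ 2 := by gcongr
      _ = (c3 * (1 - ε) ^ K * QQ r M) ^ 2 := by ring
      _ ≤ (S M k * tw) ^ 2 := hW2
      _ = S M k ^ 2 * tw ^ 2 := by ring
      _ ≤ ((2 * (M : ℝ)) ^ (2 * n - 4) * T M n b k) * tw ^ 2 :=
        mul_le_mul_of_nonneg_right hTge (sq_nonneg _)
      _ = (2 * (M : ℝ)) ^ (2 * n - 4) * (T M n b k * tw ^ 2) := by ring
      _ ≤ _ := mul_le_mul_of_nonneg_left hJ (by positivity)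
  rw [mul_pow] at h10
  calc c3 ^ 2 / 2 ^ (2 * n - 4) * (1 - ε) ^ M * QQ r M ^ 2
      = (c3 ^ 2 * (1 - ε) ^ M * QQ r M ^ 2) / 2 ^ (2 * n - 4) := by ring
    _ ≤ (2 ^ (2 * n - 4) * (M : ℝ) ^ (2 * n - 4) * JJ p n b N) / 2 ^ (2 * n - 4) := by gcongr
    _ = _ := by field_simp

end Pool.Agent.H63.VC
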