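import Pool.Agent.H63.VC.Defs

/-! # The vector recurrence -/

namespace Pool.Agent.H63.VC

/-- The twist operator `(B f)(k) = ∑_{j ≤ k} [k, j] a^j q^{j(j-1)} f(j)`. -/
noncomputable def Bop (a q : ℂ) (f : ℕ → ℂ) (k : ℕ) : ℂ :=
  ∑ j ∈ Finset.range (k + 1), qbin q k j * (a ^ j * q ^ (j * (j - 1)) * f j)

/-- `lad a q r m = B^r (B Q)^m 1`, where `Q` is multiplication by `q^j`. -/
noncomputable def lad (a q : ℂ) (r m : ℕ) : ℕ → ℂ :=
  (Bop a q)^[r] ((fun f => Bop a q (fun j => q ^ j * f j))^[m] (fun _ => 1))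

theorem qbin_zero (q : ℂ) (k : ℕ) : qbin q k 0 = 1 := by
  cases k <;> simp [qbin]

theorem qbin_succ (q : ℂ) (k j : ℕ) :
    qbin q (k + 1) (j + 1) = qbin q k j + q ^ (j + 1) * qbin q k (j + 1) := by
  simp [qbin]

theorem qbin_eq_zero (q : ℂ) : ∀ k j : ℕ, k < j → qbin q k j = 0
  | 0, j + 1, _ => by simp [qbin]
  | k + 1, j + 1, h => by
    rw [qbin_succ, qbin_eq_zero q k j (by omega), qbin_eq_zero q k (j + 1) (by omega)]
    ring

theorem qbin_succ' (q : ℂ) : ∀ k j : ℕ, j ≤ k →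
    qbin q (k + 1) (j + 1) = q ^ (k - j) * qbin q k j + qbin q k (j + 1)
  | 0, 0, _ => by simp [qbin]
  | k + 1, 0, _ => by
    rw [qbin_succ, qbin_succ' q k 0 (by omega), qbin_zero, qbin_zero]
    have h := qbin_succ q k 0
    rw [qbin_zero] at h
    have h2 := qbin_succ' q k 0 (by omega)
    rw [qbin_zero] at h2
    simp only [Nat.sub_zero, zero_add, pow_one, mul_one] at *
    rw [h2] at h
    rw [pow_succ]
    linear_combination (-1 : ℂ) * h
  | k + 1, j + 1, h => by
    rcases Nat.lt_or_ge j k with hj | hj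
    · have a1 := qbin_succ q (k + 1) (j + 1)
      have a2 := qbin_succ' q k j (by omega)
      have a3 := qbin_succ' q k (j + 1) (by omega)
      have a4 := qbin_succ q k j
      have a5 := qbin_succ q k (j + 1)
      have e1 : k + 1 - (j + 1) = k - j := by omega
      have e3 : q ^ (j + 1 + 1) * q ^ (k - (j + 1)) = q ^ (k - j) * q ^ (j + 1) := by
        rw [← pow_add, ← pow_add]; congr 1; omega
      rw [e1]
      linear_combination a1 + a2 + q ^ (j + 1 + 1) * a3 - q ^ (k - j) * a4 - a5 + (qbin q k (j + 1)) * e3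
    · have hjk : j = k := by omega
      subst hjk
      rw [qbin_succ q (j + 1) (j + 1), qbin_eq_zero q (j + 1) (j + 1 + 1) (by omega)]
      simp

theorem qbin_absorb (q : ℂ) (k j : ℕ) :
    qbin q (k + 1) (j + 1) * (1 - q ^ (j + 1)) = (1 - q ^ (k + 1)) * qbin q k j := by
  rcases Nat.lt_or_ge k j with h | h
  · rw [qbin_eq_zero q (k + 1) (j + 1) (by omega), qbin_eq_zero q k j h]; ring
  · have h1 := qbin_succ q k j
    have h2 := qbin_succ' q k j h
    have e : q ^ (j + 1) * q ^ (k - j) = q ^ (k + 1) := by rw [← pow_add]; congr 1; omega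
    linear_combination h1 - q ^ (j + 1) * h2 - (qbin q k j) * e

theorem qbin_absorb' (q : ℂ) (hq : q ≠ 0) (k j : ℕ) (hj : j ≤ k + 1) :
    qbin q (k + 1) j * (1 - q ^ (k + 1) * (q⁻¹) ^ j) = (1 - q ^ (k + 1)) * qbin q k j := by
  cases j with
  | zero => simp [qbin_zero]
  | succ j =>
    have h1 := qbin_succ q k j
    have h2 := qbin_succ' q k j (by omega)
    have e : q ^ (k + 1) * (q⁻¹) ^ (j + 1) = q ^ (k - j) := by
      have : q ^ (k + 1) = q ^ (k - j) * q ^ (j + 1) := by rw [← pow_add]; congr 1; omega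
      rw [this, mul_assoc, ← mul_pow, mul_inv_cancel₀ hq, one_pow, mul_one]
    have e2 : q ^ (k - j) * q ^ (j + 1) = q ^ (k + 1) := by rw [← pow_add]; congr 1; omega
    rw [e]
    linear_combination h2 - q ^ (k - j) * h1 - (qbin q k (j + 1)) * e2

/-- The first relation. -/
theorem Bop_D (a q : ℂ) (hq : q ≠ 0) (f : ℕ → ℂ) (k : ℕ) :
    (1 - q ^ (k + 1)) * Bop a q f k
      = Bop a q f (k + 1) - q ^ (k + 1) * Bop a q (fun j => (q⁻¹) ^ j * f j) (k + 1) := by
  unfold Bop
  rw [Finset.mul_sum, Finset.mul_sum, ← Finset.sum_sub_distrib,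
    Finset.sum_range_succ (fun j => qbin q (k + 1) j * (a ^ j * q ^ (j * (j - 1)) * f j) -
      q ^ (k + 1) * (qbin q (k + 1) j * (a ^ j * q ^ (j * (j - 1)) * ((q⁻¹) ^ j * f j)))) (k + 1)]
  have h0 : qbin q (k + 1) (k + 1) * (a ^ (k + 1) * q ^ ((k + 1) * (k + 1 - 1)) * f (k + 1)) -
      q ^ (k + 1) * (qbin q (k + 1) (k + 1) * (a ^ (k + 1) * q ^ ((k + 1) * (k + 1 - 1)) *
        ((q⁻¹) ^ (k + 1) * f (k + 1)))) = 0 := by
    have h := qbin_absorb' q hq k (k + 1) le_rfl
    rw [qbin_eq_zero q k (k + 1) (by omega), mul_zero] at h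
    linear_combination (a ^ (k + 1) * q ^ ((k + 1) * (k + 1 - 1)) * f (k + 1)) * h
  rw [h0, add_zero]
  apply Finset.sum_congr rfl
  intro j hj
  rw [Finset.mem_range] at hj
  have h := qbin_absorb' q hq k j (by omega)
  linear_combination (-(a ^ j * q ^ (j * (j - 1)) * f j)) * h

/-- The key identity. -/
theorem Bop_key (α q : ℂ) (hq : q ≠ 0) (g : ℕ → ℂ) (k : ℕ) :
    Bop (α * q) q (fun j => (q⁻¹) ^ j * Bop (α * q) q g j) k
      - Bop (α * q) q (fun j => Bop (α * q) q (fun i => (q⁻¹) ^ i * g i) j) k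
    = α * (Bop (α * q) q (fun j => q ^ j * Bop (α * q) q g j) k
      - q ^ k * Bop (α * q) q (fun j => Bop (α * q) q g j) k) := by
  set h : ℕ → ℂ := Bop (α * q) q g with hh
  set h' : ℕ → ℂ := Bop (α * q) q (fun i => (q⁻¹) ^ i * g i) with hh'
  have hz : h 0 = h' 0 := by simp [hh, hh', Bop]
  have hD : ∀ j, (1 - q ^ (j + 1)) * h j = h (j + 1) - q ^ (j + 1) * h' (j + 1) := fun j =>
    Bop_D (α * q) q hq g j
  cases k with
  | zero =>
    simp [Bop, hz]
  | succ K =>
    have hD2 := Bop_D (α * q) q hq (fun j => q ^ j * h j) K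
    have e0 : (fun j => (q⁻¹) ^ j * (q ^ j * h j)) = fun j => h j := by
      funext j
      rw [← mul_assoc, ← mul_pow, inv_mul_cancel₀ hq, one_pow, one_mul]
    rw [e0] at hD2
    rw [← hD2]
    unfold Bop
    rw [← Finset.sum_sub_distrib, Finset.sum_range_succ', Finset.mul_sum, Finset.mul_sum]
    have e1 : qbin q (K + 1) 0 * ((α * q) ^ 0 * q ^ (0 * (0 - 1)) * ((q⁻¹) ^ 0 * h 0)) -
        qbin q (K + 1) 0 * ((α * q) ^ 0 * q ^ (0 * (0 - 1)) * h' 0) = 0 := by
      rw [hz]; simp
    rw [e1, add_zero]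
    apply Finset.sum_congr rfl
    intro i _
    have hA := qbin_absorb q K i
    have hD3 := hD i
    have e2 : (i + 1) * (i + 1 - 1) = i * (i - 1) + 2 * i := by
      cases i with
      | zero => rfl
      | succ i => simp; ring
    have hqi : (q⁻¹) ^ (i + 1) * q ^ (i + 1) = 1 := by
      rw [← mul_pow, inv_mul_cancel₀ hq, one_pow]
    have e3 : (q⁻¹) ^ (i + 1) * h (i + 1) - h' (i + 1) = (q⁻¹) ^ (i + 1) * ((1 - q ^ (i + 1)) * h i) := by
      rw [hD3]
      linear_combination (h' (i + 1)) * hqi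
    have e4 : q ^ ((i + 1) * (i + 1 - 1)) * q * (q⁻¹) ^ (i + 1) = q ^ (i * (i - 1)) * q ^ i := by
      rw [e2]
      have : q ^ (i * (i - 1) + 2 * i) * q = q ^ (i * (i - 1)) * q ^ i * q ^ (i + 1) := by
        rw [← pow_succ, ← pow_add, ← pow_add]; congr 1; ring
      rw [this]
      linear_combination (q ^ (i * (i - 1)) * q ^ i) * hqi
    calc qbin q (K + 1) (i + 1) * ((α * q) ^ (i + 1) * q ^ ((i + 1) * (i + 1 - 1)) *
          ((q⁻¹) ^ (i + 1) * h (i + 1))) -
          qbin q (K + 1) (i + 1) * ((α * q) ^ (i + 1) * q ^ ((i + 1) * (i + 1 - 1)) * h' (i + 1))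
        = qbin q (K + 1) (i + 1) * ((α * q) ^ (i + 1) * q ^ ((i + 1) * (i + 1 - 1)) *
          ((q⁻¹) ^ (i + 1) * h (i + 1) - h' (i + 1))) := by ring
      _ = (qbin q (K + 1) (i + 1) * (1 - q ^ (i + 1))) * ((α * q) ^ i * α *
          (q ^ ((i + 1) * (i + 1 - 1)) * q * (q⁻¹) ^ (i + 1)) * h i) := by
          rw [e3, pow_succ (α * q) i]; ring
      _ = _ := by rw [hA, e4]; ring

theorem lad_succ (a q : ℂ) (r m : ℕ) : lad a q (r + 1) m = Bop a q (lad a q r m) := by
  unfold lad
  rw [Function.iterate_succ_apply']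

theorem lad_zero_succ (a q : ℂ) (m : ℕ) :
    lad a q 0 (m + 1) = Bop a q (fun j => q ^ j * lad a q 0 m j) := by
  unfold lad
  simp only [Function.iterate_zero, id]
  rw [Function.iterate_succ_apply']

theorem Bop_delta (a q : ℂ) : Bop a q (fun k => if k = 0 then 1 else 0) = fun _ => 1 := by
  funext k
  unfold Bop
  rw [Finset.sum_eq_single 0]
  · simp [qbin_zero]
  · intro j _ hj; simp [hj]
  · simp

theorem twistCoeff_succ (a q : ℂ) (p : ℕ) : twistCoeff a q (p + 1) = Bop a q (twistCoeff a q p) := by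
  funext k; rfl

theorem twistCoeff_eq_lad (a q : ℂ) (p k : ℕ) : twistCoeff a q (p + 1) k = lad a q p 0 k := by
  have : ∀ p, twistCoeff a q (p + 1) = lad a q p 0 := by
    intro p
    induction p with
    | zero =>
      rw [twistCoeff_succ]
      have : twistCoeff a q 0 = fun k => if k = 0 then 1 else 0 := by funext k; rfl
      rw [this, Bop_delta]
      rfl
    | succ p ih => rw [twistCoeff_succ, ih, lad_succ]
  rw [this]

/-- the shifted term -/
noncomputable def ladm (a q : ℂ) (r m : ℕ) : ℕ → ℂ :=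
  if m = 0 then lad a q r 0 else lad a q (r + 1) (m - 1)

theorem Bop_add (a q : ℂ) (f g : ℕ → ℂ) (k : ℕ) :
    Bop a q (fun j => f j + g j) k = Bop a q f k + Bop a q g k := by
  unfold Bop
  rw [← Finset.sum_add_distrib]
  apply Finset.sum_congr rfl
  intro j _; ring

theorem Bop_smul (a q c : ℂ) (f : ℕ → ℂ) (k : ℕ) :
    Bop a q (fun j => c * f j) k = c * Bop a q f k := by
  unfold Bop
  rw [Finset.mul_sum]
  apply Finset.sum_congr rfl
  intro j _; ring

theorem ladm_succ (a q : ℂ) (r m : ℕ) : Bop a q (ladm a q r m) = ladm a q (r + 1) m := by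
  unfold ladm
  split_ifs <;> rw [← lad_succ]

theorem lad_inv (α q : ℂ) (hq : q ≠ 0) (r m k : ℕ) :
    Bop (α * q) q (fun j => (q⁻¹) ^ j * lad (α * q) q r m j) k
      = α * lad (α * q) q r (m + 1) k + ladm (α * q) q (r + 1) m k
        - α * q ^ k * lad (α * q) q (r + 1) m k := by
  induction r generalizing k with
  | zero =>
    cases m with
    | zero =>
      have h := Bop_key α q hq (fun k => if k = 0 then 1 else 0) k
      have e : (fun i => (q⁻¹) ^ i * (if i = 0 then (1 : ℂ) else 0)) = fun i => if i = 0 then 1 else 0 := by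
        funext i; split_ifs with hi
        · simp [hi]
        · simp
      rw [e, Bop_delta] at h
      have e1 : lad (α * q) q 0 0 = fun _ => 1 := rfl
      have e2 : lad (α * q) q (0 + 1) 0 = Bop (α * q) q (fun _ => 1) := by rw [lad_succ, e1]
      have e3 : lad (α * q) q 0 (0 + 1) = Bop (α * q) q (fun j => q ^ j * 1) := by
        rw [lad_zero_succ, e1]
      have e4 : ladm (α * q) q (0 + 1) 0 = Bop (α * q) q (fun _ => 1) := by
        unfold ladm; rw [if_pos rfl, e2]
      rw [e4, e3, e2, e1]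
      linear_combination h
    | succ m =>
      have h := Bop_key α q hq (fun j => q ^ j * lad (α * q) q 0 m j) k
      have e : (fun i => (q⁻¹) ^ i * (q ^ i * lad (α * q) q 0 m i)) = lad (α * q) q 0 m := by
        funext i
        rw [← mul_assoc, ← mul_pow, inv_mul_cancel₀ hq, one_pow, one_mul]
      rw [e, ← lad_zero_succ] at h
      have e4 : ladm (α * q) q (0 + 1) (m + 1) = Bop (α * q) q (Bop (α * q) q (lad (α * q) q 0 m)) := by
        unfold ladm
        rw [if_neg (by omega), lad_succ, lad_succ]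
        simp
      rw [e4, lad_zero_succ (α * q) q (m + 1), lad_succ]
      have e5 : (fun j => Bop (α * q) q (lad (α * q) q 0 m) j) = Bop (α * q) q (lad (α * q) q 0 m) := rfl
      have e6 : (fun j => lad (α * q) q 0 (m + 1) j) = lad (α * q) q 0 (m + 1) := rfl
      rw [e5, e6] at h
      linear_combination h
  | succ r ih =>
    have h := Bop_key α q hq (lad (α * q) q r m) k
    have e : (fun j => Bop (α * q) q (fun i => (q⁻¹) ^ i * lad (α * q) q r m i) j)
        = fun j => (α * lad (α * q) q r (m + 1) j + ladm (α * q) q (r + 1) m j)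
          + (-α) * (q ^ j * lad (α * q) q (r + 1) m j) := by
      funext j; rw [ih]; ring
    rw [e, Bop_add, Bop_add, Bop_smul, Bop_smul, ← lad_succ, ladm_succ] at h
    have e2 : Bop (α * q) q (fun j => lad (α * q) q r (m + 1) j) k = lad (α * q) q (r + 1) (m + 1) k := by
      rw [lad_succ]
    have e3 : Bop (α * q) q (fun j => lad (α * q) q (r + 1) m j) k = lad (α * q) q (r + 1 + 1) m k := by
      rw [lad_succ (α * q) q (r + 1)]
    rw [e2, e3] at h
    linear_combination h

theorem lad_rec (α q : ℂ) (hq : q ≠ 0) (r m k : ℕ) :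
    (1 - q ^ (k + 1)) * lad (α * q) q (r + 1) m k
      = (1 + α * q ^ (2 * (k + 1))) * lad (α * q) q (r + 1) m (k + 1)
        - q ^ (k + 1) * (α * lad (α * q) q r (m + 1) (k + 1) +
          (if m = 0 then lad (α * q) q (r + 1) 0 (k + 1)
            else lad (α * q) q (r + 2) (m - 1) (k + 1))) := by
  have h1 := Bop_D (α * q) q hq (lad (α * q) q r m) k
  rw [lad_inv α q hq] at h1
  rw [lad_succ]
  have e : ladm (α * q) q (r + 1) m (k + 1) = (if m = 0 then lad (α * q) q (r + 1) 0 (k + 1)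
            else lad (α * q) q (r + 2) (m - 1) (k + 1)) := by
    unfold ladm; split_ifs <;> rfl
  rw [← e]
  rw [lad_succ] at h1
  rw [h1]
  have e2 : q ^ (2 * (k + 1)) = q ^ (k + 1) * q ^ (k + 1) := by rw [← pow_add]; congr 1; ring
  rw [e2]
  ring

theorem lad_rec_last (α q : ℂ) (hq : q ≠ 0) (m k : ℕ) :
    (1 - q ^ (k + 1)) * lad (α * q) q 0 (m + 1) k
      = lad (α * q) q 0 (m + 1) (k + 1) - q ^ (k + 1) * lad (α * q) q 1 m (k + 1) := by
  have h1 := Bop_D (α * q) q hq (fun j => q ^ j * lad (α * q) q 0 m j) k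
  have e : (fun i => (q⁻¹) ^ i * (q ^ i * lad (α * q) q 0 m i)) = lad (α * q) q 0 m := by
    funext i
    rw [← mul_assoc, ← mul_pow, inv_mul_cancel₀ hq, one_pow, one_mul]
  rw [e, ← lad_zero_succ, ← lad_succ] at h1
  exact h1

end Pool.Agent.H63.VC
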