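import Pool.Agent.H63.VC.VolDefs
import Pool.Agent.H63.VC.VolB

/-! # Algebra of the polynomials `X_k` -/

namespace Pool.Agent.H63.VC

theorem Xs_zero (y : ℂ) : Xs y 0 = 0 := rfl
theorem Xs_one (y : ℂ) : Xs y 1 = 1 := rfl
theorem Xs_rec (y : ℂ) (k : ℕ) : Xs y (k + 2) = y * Xs y (k + 1) - Xs y k := rfl

theorem Xs_two (y : ℂ) : Xs y 2 = y := by
  rw [Xs_rec y 0, Xs_zero, Xs_one]; ring

theorem Xs_step (y : ℂ) (k : ℕ) : Xs y (k + 4) = (y ^ 2 - 2) * Xs y (k + 2) - Xs y k := by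
  have h1 := Xs_rec y (k + 2)
  have h2 := Xs_rec y (k + 1)
  have h3 := Xs_rec y k
  rw [h1, h2, h3]
  ring

/-- `X_k² = 1 + X_{k+1} X_{k-1}`. -/
theorem Xs_inv (y : ℂ) (k : ℕ) : Xs y (k + 1) ^ 2 = 1 + Xs y (k + 2) * Xs y k := by
  induction k with
  | zero => rw [Xs_one, Xs_zero]; ring
  | succ k ih =>
    have h1 := Xs_rec y (k + 1)
    have h2 := Xs_rec y k
    rw [h1]
    have h3 : Xs y (k + 1 + 1) = Xs y (k + 2) := rfl
    rw [h3]
    linear_combination ih + (Xs y (k + 2)) * h2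

theorem Xs_odd (y : ℂ) (m : ℕ) : Xs y (2 * m + 1) = (-1) ^ m * chV m (2 - y ^ 2) := by
  induction m using Nat.strong_induction_on with
  | _ m ih =>
    match m, ih with
    | 0, _ => simp [chV, Xs]
    | 1, _ =>
      have h : Xs y (2 * 1 + 1) = y * Xs y 2 - Xs y 1 := rfl
      rw [h, Xs_two, Xs_one]
      simp only [chV]
      ring
    | k + 2, ih =>
      have h1 := ih (k + 1) (by omega)
      have h2 := ih k (by omega)
      have e1 : 2 * (k + 2) + 1 = (2 * k + 1) + 4 := by ring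
      have e2 : 2 * (k + 1) + 1 = (2 * k + 1) + 2 := by ring
      rw [e2] at h1
      rw [e1, Xs_step, h1, h2]
      have h3 : chV (k + 2) (2 - y ^ 2) = (2 - y ^ 2) * chV (k + 1) (2 - y ^ 2) - chV k (2 - y ^ 2) := rfl
      rw [h3]
      ring

theorem Xs_even_sq (p : ℕ) (hp : 1 ≤ p) (y : ℂ) :
    Xs y (2 * p) ^ 2 = 1 - chV p (2 - y ^ 2) * chV (p - 1) (2 - y ^ 2) := by
  obtain ⟨m, rfl⟩ : ∃ m, p = m + 1 := ⟨p - 1, by omega⟩
  have h := Xs_inv y (2 * m + 1)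
  have e1 : 2 * (m + 1) = 2 * m + 1 + 1 := by ring
  have e2 : 2 * m + 1 + 2 = 2 * (m + 1) + 1 := by ring
  rw [e1, h, e2, Xs_odd, Xs_odd]
  have e3 : m + 1 - 1 = m := by omega
  rw [e3]
  have h4 : ((-1 : ℂ) ^ (m + 1)) * (-1) ^ m = -1 := by
    rw [← pow_add]
    exact Odd.neg_one_pow ⟨m, by ring⟩
  linear_combination (chV (m + 1) (2 - y ^ 2) * chV m (2 - y ^ 2)) * h4

/-- At a root, `X_{2p}² (z - 2 cos t) = 2 - 2 cos t`. -/
theorem Xs_root (p : ℕ) (hp : 1 ≤ p) (y z : ℂ) (hy : y ^ 2 = 2 - z) (t : ℝ)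
    (h : chV p z = Complex.exp (t * Complex.I) * chV (p - 1) z) :
    Xs y (2 * p) ^ 2 * (z - 2 * (Real.cos t : ℂ)) = 2 - 2 * (Real.cos t : ℂ) := by
  have hz : 2 - y ^ 2 = z := by rw [hy]; ring
  rw [Xs_even_sq p hp, hz]
  obtain ⟨m, rfl⟩ : ∃ m, p = m + 1 := ⟨p - 1, by omega⟩
  have e3 : m + 1 - 1 = m := by omega
  rw [e3] at h ⊢
  have hinv := chV_invariant m z
  set w : ℂ := Complex.exp (t * Complex.I) with hw
  have hw2 : w * Complex.exp (-(t * Complex.I)) = 1 := by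
    rw [hw, ← Complex.exp_add, add_neg_cancel, Complex.exp_zero]
  have hcos : 2 * (Real.cos t : ℂ) = w + Complex.exp (-(t * Complex.I)) := by
    rw [Complex.ofReal_cos, Complex.two_cos, hw]
    congr 2
    ring
  set v : ℂ := Complex.exp (-(t * Complex.I)) with hv
  rw [hcos]
  rw [h] at hinv ⊢
  linear_combination hinv + (chV m z ^ 2) * hw2

end Pool.Agent.H63.VC
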