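import Pool.Agent.H63.VC.Defs

/-! # The roots of `V_p(z) = w V_{p-1}(z)` for `w` on the unit circle -/

namespace Pool.Agent.H63.VC

open Real Set

/-- the parametrization `z = 2 cosh (c + i d)` -/
noncomputable def zz (c d : ℝ) : ℂ := 2 * Complex.cosh (c + d * Complex.I)

theorem strips_cosh (a b : ℝ) : Complex.cosh (a + b * Complex.I)
    = ((cosh a * cos b : ℝ) : ℂ) + ((sinh a * sin b : ℝ) : ℂ) * Complex.I := by
  rw [Complex.cosh_add, Complex.cosh_mul_I, Complex.sinh_mul_I]
  push_cast
  ring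

theorem strips_mk_re (x y : ℝ) : ((x : ℂ) + (y : ℂ) * Complex.I).re = x := by simp

theorem strips_mk_im (x y : ℝ) : ((x : ℂ) + (y : ℂ) * Complex.I).im = y := by simp

theorem strips_cosh_re (a b : ℝ) : (Complex.cosh (a + b * Complex.I)).re = cosh a * cos b := by
  rw [strips_cosh, strips_mk_re]

theorem strips_cosh_im (a b : ℝ) : (Complex.cosh (a + b * Complex.I)).im = sinh a * sin b := by
  rw [strips_cosh, strips_mk_im]

theorem strips_zz_re (c d : ℝ) : (zz c d).re = 2 * (cosh c * cos d) := by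
  unfold zz
  rw [Complex.mul_re, strips_cosh_re]
  simp

theorem strips_zz_im (c d : ℝ) : (zz c d).im = 2 * (sinh c * sin d) := by
  unfold zz
  rw [Complex.mul_im, strips_cosh_im]
  simp

theorem strips_normSq_cosh (a b : ℝ) : Complex.normSq (Complex.cosh (a + b * Complex.I))
    = (cosh (2 * a) + cos (2 * b)) / 2 := by
  rw [Complex.normSq_apply, strips_cosh_re, strips_cosh_im, Real.cosh_two_mul, Real.cos_two_mul]
  have h1 : sinh a ^ 2 = cosh a ^ 2 - 1 := by rw [Real.sinh_sq]
  have h2 : sin b ^ 2 = 1 - cos b ^ 2 := by rw [Real.sin_sq]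
  have : cosh a * cos b * (cosh a * cos b) + sinh a * sin b * (sinh a * sin b)
      = cosh a ^ 2 * cos b ^ 2 + sinh a ^ 2 * sin b ^ 2 := by ring
  rw [this, h1, h2]
  ring

theorem strips_chV_cosh (ξ : ℂ) (m : ℕ) :
    chV m (2 * Complex.cosh ξ) * Complex.cosh (ξ / 2) = Complex.cosh ((m + 1 / 2) * ξ) := by
  have key : ∀ m : ℕ,
      chV m (2 * Complex.cosh ξ) * Complex.cosh (ξ / 2) = Complex.cosh ((m + 1 / 2) * ξ) ∧
      chV (m + 1) (2 * Complex.cosh ξ) * Complex.cosh (ξ / 2)
        = Complex.cosh (((m + 1 : ℕ) + 1 / 2) * ξ) := by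
    intro m
    induction m with
    | zero =>
      constructor
      · simp only [chV, one_mul, Nat.cast_zero, zero_add]
        congr 1
        ring
      · simp only [chV]
        have e1 : (((0 + 1 : ℕ) : ℂ) + 1 / 2) * ξ = ξ + ξ / 2 := by
          push_cast
          ring
        have e2 : ξ = ξ / 2 + ξ / 2 := by ring
        rw [e1, Complex.cosh_add]
        have h1 : Complex.cosh ξ = Complex.cosh (ξ / 2) ^ 2 + Complex.sinh (ξ / 2) ^ 2 := by
          conv_lhs => rw [e2, Complex.cosh_add]
          ring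
        have h2 : Complex.sinh ξ = 2 * Complex.sinh (ξ / 2) * Complex.cosh (ξ / 2) := by
          conv_lhs => rw [e2, Complex.sinh_add]
          ring
        have h3 := Complex.cosh_sq (ξ / 2)
        rw [h1, h2]
        have h4 : Complex.sinh (ξ / 2) ^ 2 = Complex.cosh (ξ / 2) ^ 2 - 1 := by
          rw [h3]
          ring
        linear_combination (-Complex.cosh (ξ / 2)) * h4
    | succ m ih =>
      refine ⟨ih.2, ?_⟩
      have e1 : chV (m + 1 + 1) (2 * Complex.cosh ξ)
          = 2 * Complex.cosh ξ * chV (m + 1) (2 * Complex.cosh ξ) - chV m (2 * Complex.cosh ξ) := rfl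
      rw [e1, sub_mul, mul_assoc, ih.1, ih.2]
      have e2 : (((m + 1 + 1 : ℕ) : ℂ) + 1 / 2) * ξ = ((m + 1 : ℕ) + 1 / 2) * ξ + ξ := by
        push_cast
        ring
      have e3 : ((m : ℂ) + 1 / 2) * ξ = ((m + 1 : ℕ) + 1 / 2) * ξ - ξ := by
        push_cast
        ring
      rw [e2, e3, Complex.cosh_add, Complex.cosh_sub]
      ring
  exact (key m).1

/-- `cosh (ξ/2) ≠ 0` for `d < π`. -/
theorem strips_half_ne (c d : ℝ) (hd : 0 ≤ d) (hd' : d < π) :
    Complex.cosh ((c + d * Complex.I) / 2) ≠ 0 := by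
  have e1 : ((c : ℂ) + d * Complex.I) / 2 = ((c / 2 : ℝ) : ℂ) + ((d / 2 : ℝ) : ℂ) * Complex.I := by
    push_cast
    ring
  rw [e1]
  intro h
  have h2 := strips_normSq_cosh (c / 2) (d / 2)
  rw [h, Complex.normSq_zero] at h2
  have h3 : 2 * (d / 2) = d := by ring
  rw [h3] at h2
  have h4 := Real.one_le_cosh (2 * (c / 2))
  have h5 : -1 < cos d := by
    rw [← Real.cos_pi]
    exact Real.cos_lt_cos_of_nonneg_of_le_pi hd le_rfl hd'
  linarith

theorem strips_normSq (c d : ℝ) (m : ℕ) :
    Complex.normSq (chV m (zz c d)) * Complex.normSq (Complex.cosh ((c + d * Complex.I) / 2))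
      = (cosh ((2 * m + 1) * c) + cos ((2 * m + 1) * d)) / 2 := by
  rw [← Complex.normSq_mul]
  unfold zz
  rw [strips_chV_cosh]
  have e1 : ((m : ℂ) + 1 / 2) * (c + d * Complex.I)
      = (((m + 1 / 2) * c : ℝ) : ℂ) + (((m + 1 / 2) * d : ℝ) : ℂ) * Complex.I := by
    push_cast
    ring
  rw [e1, strips_normSq_cosh]
  congr 3
  · ring
  · ring

/-- The relation between `c` and `d` gives `|V_p| = |V_{p-1}|`. -/
theorem strips_norm_eq (p : ℕ) (hp : 1 ≤ p) (c d : ℝ) (hd : 0 ≤ d) (hd' : d < π)
    (h : sinh (2 * p * c) * sinh c = sin (2 * p * d) * sin d) :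
    ‖chV p (zz c d)‖ = ‖chV (p - 1) (zz c d)‖ := by
  have hne := strips_half_ne c d hd hd'
  have h1 := strips_normSq c d p
  have h2 := strips_normSq c d (p - 1)
  have hp' : ((p - 1 : ℕ) : ℝ) = p - 1 := by
    rw [Nat.cast_sub hp]
    simp
  rw [hp'] at h2
  have h3 : cosh ((2 * p + 1) * c) - cosh ((2 * (p - 1) + 1) * c)
      = 2 * (sinh (2 * p * c) * sinh c) := by
    have e1 : (2 * p + 1) * c = 2 * p * c + c := by ring
    have e2 : (2 * ((p : ℝ) - 1) + 1) * c = 2 * p * c - c := by ring
    rw [e1, e2, Real.cosh_add, Real.cosh_sub]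
    ring
  have h4 : cos ((2 * (p - 1) + 1) * d) - cos ((2 * p + 1) * d)
      = 2 * (sin (2 * p * d) * sin d) := by
    have e1 : (2 * p + 1) * d = 2 * p * d + d := by ring
    have e2 : (2 * ((p : ℝ) - 1) + 1) * d = 2 * p * d - d := by ring
    rw [e1, e2, Real.cos_add, Real.cos_sub]
    ring
  have h5 : Complex.normSq (chV p (zz c d)) * Complex.normSq (Complex.cosh ((c + d * Complex.I) / 2))
      = Complex.normSq (chV (p - 1) (zz c d))
        * Complex.normSq (Complex.cosh ((c + d * Complex.I) / 2)) := by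
    rw [h1, h2]
    linarith
  have h6 : Complex.normSq (Complex.cosh ((c + d * Complex.I) / 2)) ≠ 0 := by
    rw [ne_eq, Complex.normSq_eq_zero]
    exact hne
  have h7 := mul_right_cancel₀ h6 h5
  rw [Complex.normSq_eq_norm_sq, Complex.normSq_eq_norm_sq] at h7
  exact (pow_left_inj₀ (norm_nonneg _) (norm_nonneg _) two_ne_zero).mp h7

/-- The case `c = 0` of the relation. -/
theorem strips_ne_zero (p : ℕ) (hp : 1 ≤ p) (c d : ℝ) (hc : 0 ≤ c)
    (hD : c = 0 → -1 < cos ((2 * (p : ℝ) - 1) * d)) :
    chV (p - 1) (zz c d) ≠ 0 := by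
  intro h0
  have h2 := strips_normSq c d (p - 1)
  rw [h0, Complex.normSq_zero, zero_mul] at h2
  have hp' : ((p - 1 : ℕ) : ℝ) = p - 1 := by
    rw [Nat.cast_sub hp]
    simp
  have hp1 : (1 : ℝ) ≤ p := by exact_mod_cast hp
  rw [hp'] at h2
  have e2 : (2 * ((p : ℝ) - 1) + 1) = 2 * p - 1 := by ring
  rw [e2] at h2
  rcases hc.eq_or_lt with h | h
  · have := hD h.symm
    rw [← h] at h2
    simp only [mul_zero, Real.cosh_zero] at h2
    linarith
  · have h3 : 1 < cosh ((2 * (p : ℝ) - 1) * c) := by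
      rw [Real.one_lt_cosh]
      have : 0 < (2 * (p : ℝ) - 1) * c := mul_pos (by linarith) h
      exact this.ne'
    have h4 := Real.neg_one_le_cos ((2 * (p : ℝ) - 1) * d)
    linarith

/-- `V_m(z) ≠ 0` and `Im (V_{m+1}/V_m) > 0` for `Im z > 0`. -/
theorem strips_im_pos (z : ℂ) (hz : 0 < z.im) (m : ℕ) :
    chV m z ≠ 0 ∧ 0 < (chV (m + 1) z / chV m z).im := by
  induction m with
  | zero =>
    refine ⟨one_ne_zero, ?_⟩
    simp only [chV, div_one, Complex.sub_im, Complex.one_im, sub_zero]
    exact hz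
  | succ m ih =>
    obtain ⟨h1, h2⟩ := ih
    have h3 : chV (m + 1) z ≠ 0 := by
      intro h
      rw [h, zero_div, Complex.zero_im] at h2
      exact lt_irrefl _ h2
    refine ⟨h3, ?_⟩
    have e1 : chV (m + 1 + 1) z = z * chV (m + 1) z - chV m z := rfl
    have e2 : chV (m + 1 + 1) z / chV (m + 1) z = z - (chV (m + 1) z / chV m z)⁻¹ := by
      rw [e1]
      field_simp
    rw [e2, Complex.sub_im, Complex.inv_im]
    have h4 : 0 < Complex.normSq (chV (m + 1) z / chV m z) := by
      rw [Complex.normSq_pos]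
      exact div_ne_zero h3 h1
    have : -(chV (m + 1) z / chV m z).im / Complex.normSq (chV (m + 1) z / chV m z) < 0 :=
      div_neg_of_neg_of_pos (by linarith) h4
    linarith

/-- `z` determines `c` and `d`. -/
theorem strips_inj (c d c' d' : ℝ) (hc : 0 ≤ c) (hc' : 0 ≤ c') (hd : 0 ≤ d) (hdp : d ≤ π)
    (hd' : 0 ≤ d') (hdp' : d' ≤ π) (h : zz c d = zz c' d') : c = c' ∧ d = d' := by
  have h1 := congrArg Complex.re h
  have h2 := congrArg Complex.im h
  rw [strips_zz_re, strips_zz_re] at h1
  rw [strips_zz_im, strips_zz_im] at h2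
  have hC := Real.one_le_cosh c
  have hC' := Real.one_le_cosh c'
  have hu := Real.neg_one_le_cos d
  have hu1 := Real.cos_le_one d
  have hu' := Real.neg_one_le_cos d'
  have hu1' := Real.cos_le_one d'
  have hs : sinh c ^ 2 = cosh c ^ 2 - 1 := Real.sinh_sq c
  have hs' : sinh c' ^ 2 = cosh c' ^ 2 - 1 := Real.sinh_sq c'
  have ht : sin d ^ 2 = 1 - cos d ^ 2 := Real.sin_sq d
  have ht' : sin d' ^ 2 = 1 - cos d' ^ 2 := Real.sin_sq d'
  have h3 : sinh c ^ 2 * sin d ^ 2 = sinh c' ^ 2 * sin d' ^ 2 := by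
    have : sinh c * sin d = sinh c' * sin d' := by linarith
    calc sinh c ^ 2 * sin d ^ 2 = (sinh c * sin d) ^ 2 := by ring
      _ = (sinh c' * sin d') ^ 2 := by rw [this]
      _ = _ := by ring
  rw [hs, hs', ht, ht'] at h3
  have h4 : cosh c * cos d = cosh c' * cos d' := by linarith
  have h5 : (cosh c + cos d) ^ 2 = (cosh c' + cos d') ^ 2 := by
    have e1 : (cosh c + cos d) ^ 2
        = (cosh c * cos d) ^ 2 + 2 * (cosh c * cos d) + 1 + (cosh c ^ 2 - 1) * (1 - cos d ^ 2) := by
      ring
    have e2 : (cosh c' + cos d') ^ 2 = (cosh c' * cos d') ^ 2 + 2 * (cosh c' * cos d') + 1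
        + (cosh c' ^ 2 - 1) * (1 - cos d' ^ 2) := by
      ring
    rw [e1, e2, h3, h4]
  have h6 : (cosh c - cos d) ^ 2 = (cosh c' - cos d') ^ 2 := by
    have e1 : (cosh c - cos d) ^ 2 = (cosh c + cos d) ^ 2 - 4 * (cosh c * cos d) := by ring
    have e2 : (cosh c' - cos d') ^ 2 = (cosh c' + cos d') ^ 2 - 4 * (cosh c' * cos d') := by ring
    rw [e1, e2, h5, h4]
  have h7 := (pow_left_inj₀ (by linarith : 0 ≤ cosh c + cos d)
    (by linarith : 0 ≤ cosh c' + cos d') two_ne_zero).mp h5
  have h8 := (pow_left_inj₀ (by linarith : 0 ≤ cosh c - cos d)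
    (by linarith : 0 ≤ cosh c' - cos d') two_ne_zero).mp h6
  constructor
  · have h9 : cosh c = cosh c' := by linarith
    have h10 : |c| ≤ |c'| := Real.cosh_le_cosh.mp h9.le
    have h11 : |c'| ≤ |c| := Real.cosh_le_cosh.mp h9.ge
    rw [abs_of_nonneg hc, abs_of_nonneg hc'] at h10 h11
    exact le_antisymm h10 h11
  · have h9 : cos d = cos d' := by linarith
    exact Real.injOn_cos ⟨hd, hdp⟩ ⟨hd', hdp'⟩ h9

/-- The curve `c = cc d`. -/
theorem strips_curve (p : ℕ) (hp : 1 ≤ p) : ∃ cc : ℝ → ℝ, Continuous cc ∧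
    ∀ d, 0 ≤ sin (2 * p * d) * sin d → 0 ≤ cc d ∧
      sinh (2 * p * cc d) * sinh (cc d) = sin (2 * p * d) * sin d ∧
      (0 < sin (2 * p * d) * sin d → 0 < cc d) ∧ (sin (2 * p * d) * sin d = 0 → cc d = 0) := by
  have hp1 : (1 : ℝ) ≤ p := by exact_mod_cast hp
  set F : ℝ → ℝ := fun c => sinh (2 * p * c) * |sinh c| with hF
  have hodd : ∀ x, F (-x) = -F x := by
    intro x
    simp only [hF]
    rw [Real.sinh_neg, abs_neg, mul_neg, Real.sinh_neg, neg_mul]
  have hcont : Continuous F := by
    simp only [hF]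
    exact (Real.continuous_sinh.comp (by fun_prop)).mul Real.continuous_sinh.abs
  have hmono : StrictMono F := by
    apply strictMono_of_odd_strictMonoOn_nonneg hodd
    intro x hx y hy hxy
    simp only [Set.mem_Ici] at hx hy
    simp only [hF]
    have h1 : 0 ≤ sinh x := Real.sinh_nonneg_iff.mpr hx
    have h2 : 0 ≤ sinh y := Real.sinh_nonneg_iff.mpr hy
    rw [abs_of_nonneg h1, abs_of_nonneg h2]
    apply mul_lt_mul''
    · rw [Real.sinh_lt_sinh]
      exact mul_lt_mul_of_pos_left hxy (by positivity)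
    · exact Real.sinh_lt_sinh.mpr hxy
    · exact Real.sinh_nonneg_iff.mpr (by positivity)
    · exact h1
  have htop : Filter.Tendsto F Filter.atTop Filter.atTop := by
    apply Filter.tendsto_atTop_mono' Filter.atTop _ Filter.tendsto_id
    filter_upwards [Filter.eventually_ge_atTop 1] with x hx
    simp only [hF, id_eq]
    have h0 : 0 ≤ x := by linarith
    have h1 : x ≤ sinh x := Real.self_le_sinh_iff.mpr h0
    have h2 : 2 * p * x ≤ sinh (2 * p * x) := Real.self_le_sinh_iff.mpr (by positivity)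
    rw [abs_of_nonneg (h0.trans h1)]
    have h3 : x ≤ 2 * p * x := by nlinarith
    nlinarith
  have hbot : Filter.Tendsto F Filter.atBot Filter.atBot := by
    have : F = fun x => -F (-x) := by
      funext x
      rw [hodd, neg_neg]
    rw [this]
    exact Filter.tendsto_neg_atTop_atBot.comp (htop.comp Filter.tendsto_neg_atBot_atTop)
  have hsurj : Function.Surjective F := hcont.surjective htop hbot
  set e := StrictMono.orderIsoOfSurjective F hmono hsurj with he
  have hFe : ∀ y, F (e.symm y) = y := fun y => e.apply_symm_apply y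
  have hF0 : F 0 = 0 := by simp [hF]
  refine ⟨fun d => e.symm (sin (2 * p * d) * sin d), ?_, ?_⟩
  · exact e.symm.continuous.comp (by fun_prop)
  · intro d hd
    set g := sin (2 * p * d) * sin d with hg
    have h1 := hFe g
    have h2 : 0 ≤ e.symm g := by
      rw [← hmono.le_iff_le, h1, hF0]
      exact hd
    refine ⟨h2, ?_, ?_, ?_⟩
    · have h3 : 0 ≤ sinh (e.symm g) := Real.sinh_nonneg_iff.mpr h2
      have h4 : F (e.symm g) = sinh (2 * p * e.symm g) * sinh (e.symm g) := by
        simp only [hF]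
        rw [abs_of_nonneg h3]
      rw [← h4, h1]
    · intro h3
      rw [← hmono.lt_iff_lt, h1, hF0]
      exact h3
    · intro h3
      apply hmono.injective
      rw [h1, hF0]
      exact h3

/-- The polynomials `V_m`. -/
noncomputable def stripsP : ℕ → Polynomial ℂ
  | 0 => 1
  | 1 => Polynomial.X - 1
  | m + 2 => Polynomial.X * stripsP (m + 1) - stripsP m

theorem stripsP_eval (z : ℂ) (m : ℕ) : (stripsP m).eval z = chV m z := by
  have key : ∀ m : ℕ, (stripsP m).eval z = chV m z ∧ (stripsP (m + 1)).eval z = chV (m + 1) z := by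
    intro m
    induction m with
    | zero => simp [stripsP, chV]
    | succ m ih =>
      refine ⟨ih.2, ?_⟩
      have e1 : stripsP (m + 1 + 1) = Polynomial.X * stripsP (m + 1) - stripsP m := rfl
      have e2 : chV (m + 1 + 1) z = z * chV (m + 1) z - chV m z := rfl
      rw [e1, e2, Polynomial.eval_sub, Polynomial.eval_mul, Polynomial.eval_X, ih.1, ih.2]
  exact (key m).1

theorem stripsP_monic (m : ℕ) : (stripsP m).Monic ∧ (stripsP m).natDegree = m := by
  have key : ∀ m : ℕ, ((stripsP m).Monic ∧ (stripsP m).natDegree = m) ∧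
      ((stripsP (m + 1)).Monic ∧ (stripsP (m + 1)).natDegree = m + 1) := by
    intro m
    induction m with
    | zero =>
      refine ⟨⟨Polynomial.monic_one, Polynomial.natDegree_one⟩, ?_⟩
      have e1 : stripsP (0 + 1) = Polynomial.X - Polynomial.C 1 := by simp [stripsP]
      rw [e1]
      exact ⟨Polynomial.monic_X_sub_C 1, Polynomial.natDegree_X_sub_C 1⟩
    | succ m ih =>
      refine ⟨ih.2, ?_⟩
      have e1 : stripsP (m + 1 + 1) = Polynomial.X * stripsP (m + 1) - stripsP m := rfl
      have h1 : (Polynomial.X * stripsP (m + 1)).Monic := Polynomial.monic_X.mul ih.2.1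
      have h2 : (Polynomial.X * stripsP (m + 1)).natDegree = m + 1 + 1 := by
        rw [Polynomial.monic_X.natDegree_mul ih.2.1, Polynomial.natDegree_X, ih.2.2]
        ring
      have h3 : (stripsP m).natDegree < (Polynomial.X * stripsP (m + 1)).natDegree := by
        rw [h2, ih.1.2]
        omega
      have h4 : (stripsP m).degree < (Polynomial.X * stripsP (m + 1)).degree :=
        Polynomial.degree_lt_degree h3
      rw [e1]
      refine ⟨h1.sub_of_left h4, ?_⟩
      rw [Polynomial.natDegree_sub_eq_left_of_natDegree_lt h3, h2]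
  exact (key m).1

theorem stripsP_sum (m : ℕ) : Polynomial.derivative (stripsP (m + 1)) * stripsP m
      - stripsP (m + 1) * Polynomial.derivative (stripsP m)
    = ∑ i ∈ Finset.range (m + 1), stripsP i ^ 2 := by
  induction m with
  | zero => simp [stripsP]
  | succ m ih =>
    rw [Finset.sum_range_succ, ← ih]
    have e1 : stripsP (m + 1 + 1) = Polynomial.X * stripsP (m + 1) - stripsP m := rfl
    rw [e1, Polynomial.derivative_sub, Polynomial.derivative_mul, Polynomial.derivative_X]
    ring

/-- The polynomial `V_p - w V_{p-1}`. -/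
noncomputable def stripsQ (p : ℕ) (w : ℂ) : Polynomial ℂ :=
  stripsP p - Polynomial.C w * stripsP (p - 1)

theorem stripsQ_eval (p : ℕ) (w z : ℂ) : (stripsQ p w).eval z = chV p z - w * chV (p - 1) z := by
  unfold stripsQ
  rw [Polynomial.eval_sub, Polynomial.eval_mul, Polynomial.eval_C, stripsP_eval, stripsP_eval]

theorem stripsQ_monic (p : ℕ) (hp : 1 ≤ p) (w : ℂ) :
    (stripsQ p w).Monic ∧ (stripsQ p w).natDegree = p := by
  obtain ⟨h1, h2⟩ := stripsP_monic p
  obtain ⟨h3, h4⟩ := stripsP_monic (p - 1)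
  have h5 : (Polynomial.C w * stripsP (p - 1)).natDegree < (stripsP p).natDegree := by
    calc (Polynomial.C w * stripsP (p - 1)).natDegree ≤ (stripsP (p - 1)).natDegree :=
          Polynomial.natDegree_C_mul_le _ _
      _ < (stripsP p).natDegree := by
          rw [h2, h4]
          omega
  refine ⟨h1.sub_of_left (Polynomial.degree_lt_degree h5), ?_⟩
  unfold stripsQ
  rw [Polynomial.natDegree_sub_eq_left_of_natDegree_lt h5, h2]

theorem strips_card (p : ℕ) (hp : 1 ≤ p) (w : ℂ) {ι : Type} [Fintype ι] (f : ι → ℂ)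
    (hf : Function.Injective f) (hroot : ∀ i, chV p (f i) = w * chV (p - 1) (f i)) :
    Fintype.card ι ≤ p := by
  classical
  obtain ⟨h1, h2⟩ := stripsQ_monic p hp w
  have h3 : Finset.univ.image f ⊆ (stripsQ p w).roots.toFinset := by
    intro z hz
    obtain ⟨i, _, rfl⟩ := Finset.mem_image.mp hz
    rw [Multiset.mem_toFinset, Polynomial.mem_roots h1.ne_zero, Polynomial.IsRoot.def,
      stripsQ_eval, hroot i, sub_self]
  calc Fintype.card ι = (Finset.univ.image f).card := by
        rw [Finset.card_image_of_injective _ hf, Finset.card_univ]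
    _ ≤ (stripsQ p w).roots.toFinset.card := Finset.card_le_card h3
    _ ≤ (stripsQ p w).roots.card := Multiset.toFinset_card_le _
    _ ≤ (stripsQ p w).natDegree := Polynomial.card_roots' _
    _ = p := h2

theorem strips_full (p : ℕ) (hp : 1 ≤ p) (w : ℂ) {ι : Type} [Fintype ι] (f : ι → ℂ)
    (hf : Function.Injective f) (hroot : ∀ i, chV p (f i) = w * chV (p - 1) (f i))
    (hcard : Fintype.card ι = p) :
    (∀ z, chV p z = w * chV (p - 1) z → ∃ i, z = f i) ∧
    ∀ i, chV (p - 1) (f i) ≠ 0 → ∑ m ∈ Finset.range p, chV m (f i) ^ 2 ≠ 0 := by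
  classical
  constructor
  · intro z hz
    by_contra hcon
    push Not at hcon
    have h1 := strips_card p hp w (ι := Option ι) (fun o => o.elim z f) (by
      intro a b hab
      cases a with
      | none =>
        cases b with
        | none => rfl
        | some b => exact absurd hab (hcon b)
      | some a =>
        cases b with
        | none => exact absurd hab.symm (hcon a)
        | some b => rw [hf hab]) (by
      intro o
      cases o with
      | none => exact hz
      | some a => exact hroot a)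
    rw [Fintype.card_option, hcard] at h1
    omega
  · intro i hi hsum
    obtain ⟨h1, h2⟩ := stripsQ_monic p hp w
    obtain ⟨m, rfl⟩ : ∃ m, p = m + 1 := ⟨p - 1, by omega⟩
    have h3 := congrArg (Polynomial.eval (f i)) (stripsP_sum m)
    rw [Polynomial.eval_finsetSum] at h3
    simp only [Polynomial.eval_pow, stripsP_eval, Polynomial.eval_sub, Polynomial.eval_mul] at h3
    rw [hsum] at h3
    have hr := hroot i
    simp only [Nat.add_sub_cancel] at hr hi
    rw [hr] at h3
    have h4 : chV m (f i) * ((Polynomial.derivative (stripsP (m + 1))).eval (f i)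
        - w * (Polynomial.derivative (stripsP m)).eval (f i)) = 0 := by
      rw [← h3]
      ring
    have h5 := (mul_eq_zero.mp h4).resolve_left hi
    have h6 : (Polynomial.derivative (stripsQ (m + 1) w)).IsRoot (f i) := by
      unfold stripsQ
      rw [Polynomial.IsRoot.def, Polynomial.derivative_sub, Polynomial.derivative_C_mul,
        Polynomial.eval_sub, Polynomial.eval_mul, Polynomial.eval_C, Nat.add_sub_cancel]
      exact h5
    have h7 : (stripsQ (m + 1) w).IsRoot (f i) := by
      rw [Polynomial.IsRoot.def, stripsQ_eval, hroot i, sub_self]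
    have h8 := (Polynomial.one_lt_rootMultiplicity_iff_isRoot h1.ne_zero).mpr ⟨h7, h6⟩
    have h9 : (f i) ::ₘ (Finset.univ.image f).val ≤ (stripsQ (m + 1) w).roots := by
      rw [Multiset.le_iff_count]
      intro y
      rw [Polynomial.count_roots, Multiset.count_cons]
      by_cases hy : y = f i
      · subst hy
        have : Multiset.count (f i) (Finset.univ.image f).val ≤ 1 :=
          Multiset.nodup_iff_count_le_one.mp (Finset.univ.image f).nodup _
        simp only [if_true]
        omega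
      · simp only [hy, if_false, add_zero]
        by_cases hy2 : y ∈ (Finset.univ.image f).val
        · have h10 : Multiset.count y (Finset.univ.image f).val ≤ 1 :=
            Multiset.nodup_iff_count_le_one.mp (Finset.univ.image f).nodup _
          obtain ⟨i', _, rfl⟩ := Finset.mem_image.mp (Finset.mem_def.mpr hy2)
          have h11 : (stripsQ (m + 1) w).IsRoot (f i') := by
            rw [Polynomial.IsRoot.def, stripsQ_eval, hroot i', sub_self]
          have h12 := (Polynomial.rootMultiplicity_pos h1.ne_zero).mpr h11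
          omega
        · rw [Multiset.count_eq_zero_of_notMem hy2]
          exact Nat.zero_le _
    have h10 := Multiset.card_le_card h9
    rw [Multiset.card_cons] at h10
    have h11 : (Finset.univ.image f).val.card = m + 1 := by
      rw [Finset.card_val, Finset.card_image_of_injective _ hf, Finset.card_univ, hcard]
    have h12 := Polynomial.card_roots' (stripsQ (m + 1) w)
    rw [h2] at h12
    omega

theorem strips_sin (p j : ℕ) (hp : 1 ≤ p) (hj : j < p) (d : ℝ) (hA : π * j / p ≤ d)
    (hB : d ≤ π * (2 * j + 1) / (2 * p)) :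
    0 ≤ d ∧ d < π ∧ 0 ≤ sin (2 * p * d) * sin d ∧
      (π * j / p < d → d < π * (2 * j + 1) / (2 * p) → 0 < sin (2 * p * d) * sin d) ∧
      (d = π * j / p → sin (2 * p * d) * sin d = 0) ∧
      (d = π * (2 * j + 1) / (2 * p) → sin (2 * p * d) * sin d = 0) := by
  have hpp : (0 : ℝ) < p := by exact_mod_cast hp
  have hj1 : (j : ℝ) + 1 ≤ p := by exact_mod_cast hj
  have hpi := Real.pi_pos
  have h0 : 0 ≤ d := le_trans (by positivity) hA
  have h1 : d < π := by
    refine lt_of_le_of_lt hB ?_
    rw [div_lt_iff₀ (by positivity)]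
    nlinarith
  rw [div_le_iff₀ hpp] at hA
  rw [le_div_iff₀ (by positivity)] at hB
  have e1 : sin (2 * p * d) = sin (2 * p * d - j * (2 * π)) := by
    rw [Real.sin_sub_nat_mul_two_pi]
  have h2 : 0 ≤ sin (2 * p * d) := by
    rw [e1]
    apply Real.sin_nonneg_of_nonneg_of_le_pi
    · linarith
    · linarith
  have h3 : 0 ≤ sin d := Real.sin_nonneg_of_nonneg_of_le_pi h0 h1.le
  refine ⟨h0, h1, mul_nonneg h2 h3, ?_, ?_, ?_⟩
  · intro h4 h5
    rw [div_lt_iff₀ hpp] at h4
    rw [lt_div_iff₀ (by positivity)] at h5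
    apply mul_pos
    · rw [e1]
      apply Real.sin_pos_of_pos_of_lt_pi
      · linarith
      · linarith
    · apply Real.sin_pos_of_pos_of_lt_pi _ h1
      have h6 : 0 ≤ π * j := by positivity
      by_contra hcon
      have : d * p ≤ 0 := mul_nonpos_of_nonpos_of_nonneg (not_lt.mp hcon) hpp.le
      linarith
  · intro h4
    have e2 : 2 * p * d - j * (2 * π) = 0 := by
      rw [h4]
      field_simp
      ring
    rw [e1, e2, Real.sin_zero, zero_mul]
  · intro h4
    have e2 : 2 * p * d - j * (2 * π) = π := by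
      rw [h4]
      field_simp
      ring
    rw [e1, e2, Real.sin_pi, zero_mul]

theorem strips_end (p : ℕ) (hp : 1 ≤ p) (d : ℝ) (h0 : 0 ≤ d) (h1 : d < π) :
    chV p (zz 0 d) * (cos (d / 2) : ℝ) = (cos (p * d + d / 2) : ℝ) ∧
    chV (p - 1) (zz 0 d) * (cos (d / 2) : ℝ) = (cos (p * d - d / 2) : ℝ) ∧ cos (d / 2) ≠ 0 := by
  have key : ∀ m : ℕ, chV m (zz 0 d) * (cos (d / 2) : ℝ) = (cos ((m + 1 / 2) * d) : ℝ) := by
    intro m
    have h := strips_chV_cosh (((0 : ℝ) : ℂ) + d * Complex.I) m
    have e1 : (((0 : ℝ) : ℂ) + d * Complex.I) / 2 = ((d / 2 : ℝ) : ℂ) * Complex.I := by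
      push_cast
      ring
    have e2 : ((m : ℂ) + 1 / 2) * (((0 : ℝ) : ℂ) + d * Complex.I)
        = (((m + 1 / 2) * d : ℝ) : ℂ) * Complex.I := by
      push_cast
      ring
    rw [e1, e2, Complex.cosh_mul_I, Complex.cosh_mul_I] at h
    unfold zz
    rw [Complex.ofReal_cos, Complex.ofReal_cos]
    exact h
  refine ⟨?_, ?_, ?_⟩
  · rw [key p]
    congr 2
    ring
  · rw [key (p - 1), Nat.cast_sub hp]
    congr 2
    push_cast
    ring
  · have : 0 < cos (d / 2) := Real.cos_pos_of_mem_Ioo ⟨by linarith [Real.pi_pos], by linarith⟩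
    exact this.ne'

theorem strips_point (p j : ℕ) (hp : 1 ≤ p) (hj : j < p) (d c : ℝ) (hA : π * j / p ≤ d)
    (hB : d ≤ π * (2 * j + 1) / (2 * p)) (hc : 0 ≤ c)
    (hrel : sinh (2 * p * c) * sinh c = sin (2 * p * d) * sin d)
    (hpos : 0 < sin (2 * p * d) * sin d → 0 < c)
    (hzero : sin (2 * p * d) * sin d = 0 → c = 0) :
    chV (p - 1) (zz c d) ≠ 0 ∧ ‖chV p (zz c d) / chV (p - 1) (zz c d)‖ = 1 ∧
      0 ≤ (chV p (zz c d) / chV (p - 1) (zz c d)).im ∧
      (d = π * j / p → chV p (zz c d) / chV (p - 1) (zz c d) = 1) ∧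
      (d = π * (2 * j + 1) / (2 * p) → chV p (zz c d) / chV (p - 1) (zz c d) = -1) := by
  obtain ⟨h0, h1, hg, hgpos, hgA, hgB⟩ := strips_sin p j hp hj d hA hB
  have hpp : (0 : ℝ) < p := by exact_mod_cast hp
  have hjp : (j : ℝ) < p := by exact_mod_cast hj
  have hpi := Real.pi_pos
  -- trigonometric facts at the end points
  have hpdA : d = π * j / p → p * d = j * π := by
    intro h
    rw [h]
    field_simp
  have hpdB : d = π * (2 * j + 1) / (2 * p) → p * d = j * π + π / 2 := by
    intro h
    rw [h]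
    field_simp
  have hend : c = 0 → d = π * j / p ∨ d = π * (2 * j + 1) / (2 * p) := by
    intro hc0
    by_contra hcon
    push Not at hcon
    have h4 : π * j / p < d := lt_of_le_of_ne hA (fun h => hcon.1 h.symm)
    have h5 : d < π * (2 * j + 1) / (2 * p) := lt_of_le_of_ne hB hcon.2
    have := hpos (hgpos h4 h5)
    linarith
  have hcosd : -1 < cos d := by
    rw [← Real.cos_pi]
    exact Real.cos_lt_cos_of_nonneg_of_le_pi h0 le_rfl h1
  have hne : chV (p - 1) (zz c d) ≠ 0 := by
    apply strips_ne_zero p hp c d hc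
    intro hc0
    rcases hend hc0 with h | h
    · have e1 : (2 * (p : ℝ) - 1) * d = (j : ℝ) * (2 * π) - d := by
        have := hpdA h
        linarith
      rw [e1, Real.cos_nat_mul_two_pi_sub]
      exact hcosd
    · have e1 : (2 * (p : ℝ) - 1) * d = (π - d) + (j : ℝ) * (2 * π) := by
        have := hpdB h
        linarith
      rw [e1, Real.cos_add_nat_mul_two_pi, Real.cos_pi_sub]
      have hd0 : 0 < d := by
        rw [h]
        positivity
      have : cos d < 1 := by
        rw [← Real.cos_zero]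
        exact Real.cos_lt_cos_of_nonneg_of_le_pi le_rfl h1.le hd0
      linarith
  have hw1 : d = π * j / p → chV p (zz c d) / chV (p - 1) (zz c d) = 1 := by
    intro h
    have hc0 := hzero (hgA h)
    obtain ⟨e1, e2, e3⟩ := strips_end p hp d h0 h1
    rw [hc0] at hne ⊢
    have e4 : cos (p * d + d / 2) = cos (p * d - d / 2) := by
      rw [Real.cos_add, Real.cos_sub, hpdA h, Real.sin_nat_mul_pi]
      ring
    rw [e4, ← e2] at e1
    have e5 : ((cos (d / 2) : ℝ) : ℂ) ≠ 0 := by exact_mod_cast e3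
    rw [mul_right_cancel₀ e5 e1, div_self hne]
  have hw2 : d = π * (2 * j + 1) / (2 * p) → chV p (zz c d) / chV (p - 1) (zz c d) = -1 := by
    intro h
    have hc0 := hzero (hgB h)
    obtain ⟨e1, e2, e3⟩ := strips_end p hp d h0 h1
    rw [hc0] at hne ⊢
    have e4 : cos (p * d + d / 2) = -cos (p * d - d / 2) := by
      rw [Real.cos_add, Real.cos_sub, hpdB h, Real.cos_add_pi_div_two, Real.sin_nat_mul_pi]
      ring
    rw [e4, Complex.ofReal_neg, ← e2, ← neg_mul] at e1
    have e5 : ((cos (d / 2) : ℝ) : ℂ) ≠ 0 := by exact_mod_cast e3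
    rw [mul_right_cancel₀ e5 e1, neg_div, div_self hne]
  refine ⟨hne, ?_, ?_, hw1, hw2⟩
  · rw [norm_div, strips_norm_eq p hp c d h0 h1 hrel]
    exact div_self (norm_ne_zero_iff.mpr hne)
  · rcases hc.eq_or_lt with hc0 | hc0
    · rcases hend hc0.symm with h | h
      · rw [hw1 h]
        simp
      · rw [hw2 h]
        simp
    · have hd0 : 0 < d := by
        rcases h0.eq_or_lt with h | h
        · have : sinh (2 * p * c) * sinh c = 0 := by
            rw [hrel, ← h]
            simp
          have h5 : 0 < sinh (2 * p * c) * sinh c :=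
            mul_pos (Real.sinh_pos_iff.mpr (by positivity)) (Real.sinh_pos_iff.mpr hc0)
          linarith
        · exact h
      have him : 0 < (zz c d).im := by
        rw [strips_zz_im]
        have h5 := Real.sinh_pos_iff.mpr hc0
        have h6 := Real.sin_pos_of_pos_of_lt_pi hd0 h1
        positivity
      obtain ⟨m, rfl⟩ : ∃ m, p = m + 1 := ⟨p - 1, by omega⟩
      exact ((strips_im_pos _ him m).2).le

theorem strips_continuous_zz (cc : ℝ → ℝ) (hcc : Continuous cc) :
    Continuous fun d : ℝ => zz (cc d) d := by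
  unfold zz
  apply Continuous.mul continuous_const
  apply Complex.continuous_cosh.comp
  fun_prop

theorem strips_continuous_chV (m : ℕ) : Continuous (chV m) := by
  have : chV m = fun z => (stripsP m).eval z := by
    funext z
    rw [stripsP_eval]
  rw [this]
  exact (stripsP m).continuous

/-- A complex number on the upper half of the unit circle. -/
theorem strips_unit (w : ℂ) (h1 : ‖w‖ = 1) (h2 : 0 ≤ w.im) :
    w = Complex.exp (Real.arccos w.re * Complex.I) := by
  have h3 : w.re ^ 2 + w.im ^ 2 = 1 := by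
    have h4 := Complex.sq_norm w
    rw [h1, Complex.normSq_apply] at h4
    linarith
  have h4 : -1 ≤ w.re := by nlinarith [sq_nonneg w.im]
  have h5 : w.re ≤ 1 := by nlinarith [sq_nonneg w.im]
  rw [Complex.exp_mul_I, ← Complex.ofReal_cos, ← Complex.ofReal_sin, Real.cos_arccos h4 h5,
    Real.sin_arccos]
  have h6 : √(1 - w.re ^ 2) = w.im := by
    rw [Real.sqrt_eq_iff_mul_self_eq (by nlinarith) h2]
    nlinarith
  rw [h6]
  exact (Complex.re_add_im w).symm

/-- Inverse of a continuous injective function on an interval. -/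
theorem strips_inverse (a b : ℝ) (hab : a < b) (T : ℝ → ℝ) (hT : ContinuousOn T (Icc a b))
    (hinj : InjOn T (Icc a b)) (hTa : T a = 0) (hTb : T b = π) :
    ∃ D : ℝ → ℝ, Continuous D ∧ StrictMono D ∧ D 0 = a ∧ D π = b ∧
      ∀ t ∈ Icc 0 π, D t ∈ Icc a b ∧ T (D t) = t := by
  have hmono : StrictMonoOn T (Icc a b) := by
    apply hT.strictMonoOn_of_injOn_Icc hab.le _ hinj
    rw [hTa, hTb]
    exact Real.pi_pos.le
  set cl : ℝ → ℝ := fun x => max a (min b x) with hcl
  have hclmem : ∀ x, cl x ∈ Icc a b := by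
    intro x
    simp only [hcl, Set.mem_Icc]
    exact ⟨le_max_left _ _, max_le hab.le (min_le_left _ _)⟩
  have hclc : Continuous cl := by
    simp only [hcl]
    fun_prop
  have hclid : ∀ x ∈ Icc a b, cl x = x := by
    intro x hx
    simp only [hcl]
    rw [min_eq_right hx.2, max_eq_right hx.1]
  set f : ℝ → ℝ := fun x => T (cl x) + (x - cl x) with hf
  have hfc : Continuous f := by
    simp only [hf]
    exact (hT.comp_continuous hclc hclmem).add (continuous_id.sub hclc)
  have hclmono : Monotone cl := by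
    intro x y hxy
    simp only [hcl]
    exact max_le_max le_rfl (min_le_min le_rfl hxy)
  have hsubmono : ∀ x y, x ≤ y → x - cl x ≤ y - cl y := by
    intro x y hxy
    simp only [hcl]
    rcases le_total x a with h1 | h1 <;> rcases le_total y a with h2 | h2 <;>
    rcases le_total x b with h3 | h3 <;> rcases le_total y b with h4 | h4 <;>
    simp only [min_eq_left, min_eq_right, max_eq_left, max_eq_right, h1, h2, h3, h4, hab.le] <;>
    linarith
  have hfm : StrictMono f := by
    intro x y hxy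
    simp only [hf]
    have h1 := hclmono hxy.le
    have h2 := hsubmono x y hxy.le
    rcases h1.eq_or_lt with h3 | h3
    · rw [h3]
      linarith
    · have := hmono (hclmem x) (hclmem y) h3
      linarith
  have htop : Filter.Tendsto f Filter.atTop Filter.atTop := by
    have h1 : Filter.Tendsto (fun x : ℝ => x + -b) Filter.atTop Filter.atTop :=
      Filter.tendsto_atTop_add_const_right _ _ Filter.tendsto_id
    apply Filter.tendsto_atTop_mono _ h1
    intro x
    simp only [hf]
    have h2 : 0 ≤ T (cl x) := by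
      rw [← hTa]
      exact hmono.monotoneOn (left_mem_Icc.mpr hab.le) (hclmem x) (hclmem x).1
    have := (hclmem x).2
    linarith
  have hbot : Filter.Tendsto f Filter.atBot Filter.atBot := by
    have h1 : Filter.Tendsto (fun x : ℝ => x + (π - a)) Filter.atBot Filter.atBot :=
      Filter.tendsto_atBot_add_const_right _ _ Filter.tendsto_id
    apply Filter.tendsto_atBot_mono _ h1
    intro x
    simp only [hf]
    have h2 : T (cl x) ≤ π := by
      rw [← hTb]
      exact hmono.monotoneOn (hclmem x) (right_mem_Icc.mpr hab.le) (hclmem x).2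
    have := (hclmem x).1
    linarith
  have hsurj := hfc.surjective htop hbot
  set e := StrictMono.orderIsoOfSurjective f hfm hsurj with he
  have hfe : ∀ y, f (e.symm y) = y := fun y => e.apply_symm_apply y
  have hfa : f a = 0 := by
    simp only [hf]
    rw [hclid a (left_mem_Icc.mpr hab.le), hTa]
    ring
  have hfb : f b = π := by
    simp only [hf]
    rw [hclid b (right_mem_Icc.mpr hab.le), hTb]
    ring
  have hD0 : e.symm 0 = a := by
    apply hfm.injective
    rw [hfe, hfa]
  have hDpi : e.symm π = b := by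
    apply hfm.injective
    rw [hfe, hfb]
  refine ⟨e.symm, e.symm.continuous, e.symm.strictMono, hD0, hDpi, ?_⟩
  intro t ht
  have h1 : e.symm t ∈ Icc a b := by
    refine ⟨?_, ?_⟩
    · rw [← hD0]
      exact e.symm.monotone ht.1
    · rw [← hDpi]
      exact e.symm.monotone ht.2
  refine ⟨h1, ?_⟩
  have h2 := hfe t
  simp only [hf] at h2
  rw [hclid _ h1] at h2
  linarith

/-- One root in each strip. -/
theorem strips (p : ℕ) (hp : 1 ≤ p) : ∃ c d : ℕ → ℝ → ℝ,
    (∀ j < p, ContinuousOn (c j) (Icc 0 π) ∧ ContinuousOn (d j) (Icc 0 π) ∧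
      StrictMonoOn (d j) (Icc 0 π) ∧ d j 0 = π * j / p ∧ c j 0 = 0) ∧
    (∀ j < p, ∀ t ∈ Icc 0 π, π * j / p ≤ d j t ∧ d j t ≤ π * (2 * j + 1) / (2 * p) ∧ 0 ≤ c j t ∧
      Real.sinh (2 * p * c j t) * Real.sinh (c j t) = Real.sin (2 * p * d j t) * Real.sin (d j t) ∧
      chV p (zz (c j t) (d j t)) = Complex.exp (t * Complex.I) * chV (p - 1) (zz (c j t) (d j t)) ∧
      chV (p - 1) (zz (c j t) (d j t)) ≠ 0 ∧
      ∑ m ∈ Finset.range p, chV m (zz (c j t) (d j t)) ^ 2 ≠ 0) ∧
    (∀ j < p, ∀ t ∈ Ioo 0 π, 0 < c j t ∧ π * j / p < d j t ∧ d j t < π * (2 * j + 1) / (2 * p)) ∧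
    (∀ t ∈ Icc 0 π, ∀ z : ℂ, chV p z = Complex.exp (t * Complex.I) * chV (p - 1) z →
      ∃ j < p, z = zz (c j t) (d j t)) := by
  obtain ⟨cc, hcc, hccp⟩ := strips_curve p hp
  have hpp : (0 : ℝ) < p := by exact_mod_cast hp
  have hpi := Real.pi_pos
  set A : ℕ → ℝ := fun j => π * j / p with hA
  set B : ℕ → ℝ := fun j => π * (2 * j + 1) / (2 * p) with hB
  set z : ℝ → ℂ := fun d => zz (cc d) d with hz
  set w : ℝ → ℂ := fun d => chV p (z d) / chV (p - 1) (z d) with hw
  set T : ℝ → ℝ := fun d => Real.arccos (w d).re with hT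
  have hAB : ∀ j, A j < B j := by
    intro j
    simp only [hA, hB]
    rw [div_lt_div_iff₀ hpp (by positivity)]
    nlinarith [mul_pos hpi hpp]
  have hBA : ∀ i j : ℕ, i < j → B i < A j := by
    intro i j hij
    simp only [hA, hB]
    have h1 : (i : ℝ) + 1 ≤ j := by exact_mod_cast hij
    rw [div_lt_div_iff₀ (by positivity) hpp]
    have h2 : π * p * (i + 1) ≤ π * p * j := mul_le_mul_of_nonneg_left h1 (by positivity)
    nlinarith [mul_pos hpi hpp]
  have hS : ∀ j < p, ∀ d ∈ Icc (A j) (B j), 0 ≤ d ∧ d < π ∧ 0 ≤ sin (2 * p * d) * sin d ∧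
      (A j < d → d < B j → 0 < sin (2 * p * d) * sin d) ∧
      (d = A j → sin (2 * p * d) * sin d = 0) ∧ (d = B j → sin (2 * p * d) * sin d = 0) :=
    fun j hj d hd => strips_sin p j hp hj d hd.1 hd.2
  have hP : ∀ j < p, ∀ d ∈ Icc (A j) (B j), chV (p - 1) (z d) ≠ 0 ∧ ‖w d‖ = 1 ∧ 0 ≤ (w d).im ∧
      (d = A j → w d = 1) ∧ (d = B j → w d = -1) := by
    intro j hj d hd
    obtain ⟨h1, h2, h3, h4⟩ := hccp d (hS j hj d hd).2.2.1
    exact strips_point p j hp hj d (cc d) hd.1 hd.2 h1 h2 h3 h4
  have hroot : ∀ j < p, ∀ d ∈ Icc (A j) (B j),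
      chV p (z d) = Complex.exp (T d * Complex.I) * chV (p - 1) (z d) := by
    intro j hj d hd
    obtain ⟨h1, h2, h3, _⟩ := hP j hj d hd
    rw [← div_eq_iff h1]
    exact strips_unit (w d) h2 h3
  have hTcont : ∀ j < p, ContinuousOn T (Icc (A j) (B j)) := by
    intro j hj
    simp only [hT]
    apply Real.continuous_arccos.comp_continuousOn
    apply Complex.continuous_re.comp_continuousOn
    have hzc : Continuous z := strips_continuous_zz cc hcc
    simp only [hw]
    apply ContinuousOn.div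
    · exact ((strips_continuous_chV p).comp hzc).continuousOn
    · exact ((strips_continuous_chV (p - 1)).comp hzc).continuousOn
    · intro d hd
      exact (hP j hj d hd).1
  have hTA : ∀ j < p, T (A j) = 0 := by
    intro j hj
    have := (hP j hj (A j) (left_mem_Icc.mpr (hAB j).le)).2.2.2.1 rfl
    simp only [hT]
    rw [this, Complex.one_re, Real.arccos_one]
  have hTB : ∀ j < p, T (B j) = π := by
    intro j hj
    have := (hP j hj (B j) (right_mem_Icc.mpr (hAB j).le)).2.2.2.2 rfl
    simp only [hT]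
    rw [this, Complex.neg_re, Complex.one_re, Real.arccos_neg_one]
  have hsel : ∀ j < p, ∀ t ∈ Icc 0 π, ∃ d ∈ Icc (A j) (B j), T d = t := by
    intro j hj t ht
    have h1 := intermediate_value_Icc (hAB j).le (hTcont j hj)
    rw [hTA j hj, hTB j hj] at h1
    exact h1 ht
  have hdisj : ∀ i j : ℕ, ∀ d, d ∈ Icc (A i) (B i) → d ∈ Icc (A j) (B j) → i = j := by
    intro i j d hi hj
    rcases lt_trichotomy i j with h | h | h
    · have := hBA i j h
      linarith [hi.2, hj.1]
    · exact h
    · have := hBA j i h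
      linarith [hi.1, hj.2]
  have hzinj : ∀ i < p, ∀ j < p, ∀ d ∈ Icc (A i) (B i), ∀ e ∈ Icc (A j) (B j), z d = z e → d = e := by
    intro i hi j hj d hd e he h
    obtain ⟨h1, h2, h3, _⟩ := hS i hi d hd
    obtain ⟨h4, h5, h6, _⟩ := hS j hj e he
    exact (strips_inj (cc d) d (cc e) e (hccp d h3).1 (hccp e h6).1 h1 h2.le h4 h5.le h).2
  have hTinj : ∀ j < p, InjOn T (Icc (A j) (B j)) := by
    intro j hj d' hd' d'' hd'' hTT
    by_contra hne
    have ht : T d' ∈ Icc 0 π := ⟨Real.arccos_nonneg _, Real.arccos_le_pi _⟩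
    choose D hD1 hD2 using fun (i : Fin p) => hsel i i.2 (T d') ht
    set g : Option (Fin p) → ℝ := fun o => o.elim d'' (fun i => if (i : ℕ) = j then d' else D i)
      with hg
    have hgsome : ∀ i : Fin p, g (some i) ∈ Icc (A i) (B i) ∧ T (g (some i)) = T d' := by
      intro i
      simp only [hg, Option.elim]
      by_cases h : (i : ℕ) = j
      · rw [if_pos h, h]
        exact ⟨hd', rfl⟩
      · rw [if_neg h]
        exact ⟨hD1 i, hD2 i⟩
    have hgnone : g none = d'' := rfl
    have hnone : ∀ i : Fin p, g none ≠ g (some i) := by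
      intro i h
      rw [hgnone] at h
      have h1 : d'' ∈ Icc (A i) (B i) := by
        rw [h]
        exact (hgsome i).1
      have h2 := hdisj i j d'' h1 hd''
      simp only [hg, Option.elim] at h
      rw [if_pos h2] at h
      exact hne h.symm
    have hginj : Function.Injective g := by
      intro a b hab
      cases a with
      | none =>
        cases b with
        | none => rfl
        | some b => exact absurd hab (hnone b)
      | some a =>
        cases b with
        | none => exact absurd hab.symm (hnone a)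
        | some b =>
          have h1 := (hgsome a).1
          rw [hab] at h1
          have h2 := hdisj a b _ h1 (hgsome b).1
          rw [Fin.ext h2]
    have hgmem : ∀ o, ∃ i < p, g o ∈ Icc (A i) (B i) ∧ T (g o) = T d' := by
      intro o
      cases o with
      | none => exact ⟨j, hj, hd'', hTT.symm⟩
      | some i => exact ⟨i, i.2, hgsome i⟩
    have h1 := strips_card p hp (Complex.exp (T d' * Complex.I)) (fun o => z (g o)) (by
      intro a b hab
      obtain ⟨i, hi, hgi, _⟩ := hgmem a
      obtain ⟨k, hk, hgk, _⟩ := hgmem b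
      exact hginj (hzinj i hi k hk _ hgi _ hgk hab)) (by
      intro o
      obtain ⟨i, hi, hgi, hTi⟩ := hgmem o
      rw [← hTi]
      exact hroot i hi _ hgi)
    rw [Fintype.card_option, Fintype.card_fin] at h1
    omega
  have hinv : ∀ j, ∃ D : ℝ → ℝ, j < p → (Continuous D ∧ StrictMono D ∧ D 0 = A j ∧ D π = B j ∧
      ∀ t ∈ Icc 0 π, D t ∈ Icc (A j) (B j) ∧ T (D t) = t) := by
    intro j
    by_cases hj : j < p
    · obtain ⟨D, hD⟩ := strips_inverse (A j) (B j) (hAB j) T (hTcont j hj) (hTinj j hj)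
        (hTA j hj) (hTB j hj)
      exact ⟨D, fun _ => hD⟩
    · exact ⟨fun _ => 0, fun h => absurd h hj⟩
  choose D hD using hinv
  have hfull : ∀ t ∈ Icc (0 : ℝ) π,
      (∀ y, chV p y = Complex.exp (t * Complex.I) * chV (p - 1) y → ∃ i : Fin p, y = z (D i t)) ∧
      ∀ i : Fin p, chV (p - 1) (z (D i t)) ≠ 0 →
        ∑ m ∈ Finset.range p, chV m (z (D i t)) ^ 2 ≠ 0 := by
    intro t ht
    apply strips_full p hp (Complex.exp (t * Complex.I)) (fun i : Fin p => z (D i t))
    · intro a b hab
      have ha := ((hD a a.2).2.2.2.2 t ht).1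
      have hb := ((hD b b.2).2.2.2.2 t ht).1
      have h1 := hzinj a a.2 b b.2 _ ha _ hb hab
      rw [h1] at ha
      exact Fin.ext (hdisj a b _ ha hb)
    · intro i
      obtain ⟨h1, h2⟩ := (hD i i.2).2.2.2.2 t ht
      have h3 := hroot i i.2 _ h1
      rwa [h2] at h3
    · exact Fintype.card_fin p
  refine ⟨fun j t => cc (D j t), D, ?_, ?_, ?_, ?_⟩
  · intro j hj
    obtain ⟨h1, h2, h3, h4, h5⟩ := hD j hj
    refine ⟨(hcc.comp h1).continuousOn, h1.continuousOn, h2.strictMonoOn _, h3, ?_⟩
    have hAm : A j ∈ Icc (A j) (B j) := left_mem_Icc.mpr (hAB j).le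
    show cc (D j 0) = 0
    rw [h3]
    exact (hccp (A j) (hS j hj _ hAm).2.2.1).2.2.2 ((hS j hj _ hAm).2.2.2.2.1 rfl)
  · intro j hj t ht
    obtain ⟨h1, h2⟩ := (hD j hj).2.2.2.2 t ht
    obtain ⟨h3, h4, h5, h6⟩ := hccp (D j t) (hS j hj _ h1).2.2.1
    have h7 := hroot j hj _ h1
    rw [h2] at h7
    have h8 := (hP j hj _ h1).1
    exact ⟨h1.1, h1.2, h3, h4, h7, h8, (hfull t ht).2 ⟨j, hj⟩ h8⟩
  · intro j hj t ht
    obtain ⟨h1, h2, h3, h4, h5⟩ := hD j hj
    obtain ⟨h6, _⟩ := h5 t ⟨ht.1.le, ht.2.le⟩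
    have h7 : A j < D j t := by
      rw [← h3]
      exact h2 ht.1
    have h8 : D j t < B j := by
      rw [← h4]
      exact h2 ht.2
    have h9 := (hS j hj _ h6).2.2.2.1 h7 h8
    exact ⟨(hccp (D j t) h9.le).2.2.1 h9, h7, h8⟩
  · intro t ht y hy
    obtain ⟨i, hi⟩ := (hfull t ht).1 y hy
    exact ⟨i, i.2, hi⟩

end Pool.Agent.H63.VC
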