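import Pool.Agent.H63.VC.Defs

/-!
# Hyperbolic volume of two-bridge link complements via angle structures

For `a = [a_1, ..., a_k]` the two-bridge link `C(a_1, ..., a_k)` (Conway notation, all `a_i ≥ 1`,
`a_1, a_k ≥ 2`, `k ≥ 2`) has `c = a_1 + ... + a_k` crossings, and the Sakuma-Weeks ideal
triangulation of its complement consists of `c - 3` layers of two ideal tetrahedra. By Casson-Rivin
and Guéritaud-Futer the hyperbolic volume is the maximum of the volume functional over the angle
structures below, which are parametrized by `w_0, ..., w_{c-2}` with `w_0 = w_{c-2} = π`.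
-/

namespace Pool.Agent.H63.VC

/-- Layer `i` is a hinge: `i + 1` is a proper partial sum `a_1 + ... + a_j`, `1 ≤ j < k`. -/
def IsHinge (a : List ℕ) (i : ℕ) : Prop := ∃ j, 1 ≤ j ∧ j < a.length ∧ i + 1 = (a.take j).sum

open Classical in
/-- First dihedral angle of the two tetrahedra of layer `i`. -/
noncomputable def angX (a : List ℕ) (w : ℕ → ℝ) (i : ℕ) : ℝ :=
  if IsHinge a i then (w (i - 1) + w i - w (i + 1)) / 2 else (w (i - 1) + w (i + 1)) / 2

open Classical in
/-- Second dihedral angle of the two tetrahedra of layer `i`. -/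
noncomputable def angY (a : List ℕ) (w : ℕ → ℝ) (i : ℕ) : ℝ :=
  if IsHinge a i then (w (i + 1) + w i - w (i - 1)) / 2 else w i - (w (i - 1) + w (i + 1)) / 2

/-- Third dihedral angle of the two tetrahedra of layer `i`. -/
noncomputable def angZ (w : ℕ → ℝ) (i : ℕ) : ℝ := Real.pi - w i

/-- Angle structures on the Sakuma-Weeks triangulation of the complement of `C(a_1, ..., a_k)`. -/
def IsAngleStructure (a : List ℕ) (w : ℕ → ℝ) : Prop :=
  w 0 = Real.pi ∧ w (a.sum - 2) = Real.pi ∧
    ∀ i ∈ Finset.Icc 1 (a.sum - 3), 0 < angX a w i ∧ 0 < angY a w i ∧ 0 < angZ w i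

/-- The volume of an angle structure. -/
noncomputable def structureVolume (a : List ℕ) (w : ℕ → ℝ) : ℝ :=
  2 * ∑ i ∈ Finset.Icc 1 (a.sum - 3), (lob (angX a w i) + lob (angY a w i) + lob (angZ w i))

/-- The set of volumes of angle structures. -/
def structureVolumes (a : List ℕ) : Set ℝ :=
  {v | ∃ w, IsAngleStructure a w ∧ v = structureVolume a w}

/-- The polynomials `X_0 = 0`, `X_1 = 1`, `X_{k+2} = y X_{k+1} - X_k`. -/
noncomputable def Xs (y : ℂ) : ℕ → ℂ
  | 0 => 0
  | 1 => 1
  | k + 2 => y * Xs y (k + 1) - Xs y k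

end Pool.Agent.H63.VC
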